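import Pool.Agent.R869.SLoc

/-!
Finitely many one-parameter groups suffice.
-/

set_option autoImplicit false

open FF MvPolynomial Filter Metric Topology Pool.Agent.W602.GT Pool.Agent.H159R3.GGLLog
  Pool.Agent.W603.BP Pool.Agent.R869

namespace Pool.Agent.R869.Wd

variable {n : ℕ} {ι : Type}

/-- representatives for the directions, with respect to the given exponent vectors -/
theorem exists_dirs [Finite ι] (T : ι → Finset (Fin (n + 1) →₀ ℕ)) :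
    ∃ B : Finset (Fin (n + 1) → ℤ), ∀ b : Fin (n + 1) → ℤ, ∃ b' ∈ B,
      (∀ j l, b j = b l ↔ b' j = b' l) ∧ ∀ e, ∀ α ∈ T e, ∀ α' ∈ T e,
        (∑ j, (α j : ℤ) * b j = ∑ j, (α' j : ℤ) * b j ↔
          ∑ j, (α j : ℤ) * b' j = ∑ j, (α' j : ℤ) * b' j) := by
  classical
  let C : Type := (Fin (n + 1) → Fin (n + 1) → Prop) × ((e : ι) → T e → T e → Prop)
  let σ : (Fin (n + 1) → ℤ) → C := fun b =>
    (fun j l => b j = b l,
      fun _ α α' => ∑ j, (α.1 j : ℤ) * b j = ∑ j, (α'.1 j : ℤ) * b j)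
  let g : C → Fin (n + 1) → ℤ := fun τ => if h : ∃ b, σ b = τ then h.choose else 0
  have hfin : (Set.range g).Finite := Set.finite_range g
  refine ⟨hfin.toFinset, fun b => ⟨g (σ b), hfin.mem_toFinset.2 ⟨_, rfl⟩, ?_⟩⟩
  have hex : ∃ b0, σ b0 = σ b := ⟨b, rfl⟩
  have hg : σ (g (σ b)) = σ b := by
    have h1 : g (σ b) = hex.choose := dif_pos hex
    rw [h1]
    exact hex.choose_spec
  refine ⟨fun j l => ?_, fun e α hα α' hα' => ?_⟩
  · have h1 := congrFun (congrFun (congrArg Prod.fst hg) j) l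
    exact (iff_of_eq h1).symm
  · have h1 := congrFun (congrFun (congrFun (congrArg Prod.snd hg) e) ⟨α, hα⟩) ⟨α', hα'⟩
    exact (iff_of_eq h1).symm

/-- the parts only depend on the levels -/
theorem wc_same {k : Type} [Field k] {K : Type} [Field K] [Algebra k K] {y : Fin (n + 1) → K}
    {G : MvPolynomial (Fin (n + 1)) k} {T : Finset (Fin (n + 1) →₀ ℕ)} (hG : G.support ⊆ T)
    {b b' : Fin (n + 1) → ℤ} (h : ∀ α ∈ T, ∀ α' ∈ T,
      (∑ j, (α j : ℤ) * b j = ∑ j, (α' j : ℤ) * b j ↔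
        ∑ j, (α j : ℤ) * b' j = ∑ j, (α' j : ℤ) * b' j))
    (h0 : ∀ v, val y (wc b v G) = 0) (v : ℤ) : val y (wc b' v G) = 0 := by
  classical
  by_cases hex : ∃ α ∈ G.support, ∑ j, (α j : ℤ) * b' j = v
  · obtain ⟨α, hα, hv⟩ := hex
    have h1 : wc b' v G = wc b (∑ j, (α j : ℤ) * b j) G := by
      unfold wc
      refine Finset.sum_congr ?_ fun _ _ => rfl
      refine Finset.filter_congr fun α' hα' => ?_
      rw [← hv]
      exact (h α' (hG hα') α (hG hα)).symm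
    rw [h1]
    exact h0 _
  · push Not at hex
    have h1 : wc b' v G = 0 := by
      unfold wc
      rw [Finset.filter_false_of_mem hex, Finset.sum_empty]
    rw [h1]
    unfold val
    rw [map_zero]

/-- The image under the one-parameter group `t ↦ diag (t ^ b 0, …, t ^ b n)` of the point `x` lies in
`F = 0` for all `t ≠ 0`. -/
def OrbitIn (F : ι → MvPolynomial (Fin (n + 1)) ℂ) (b : Fin (n + 1) → ℤ)
    (x : Fin (n + 1) → ℂ) : Prop :=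
  ∀ t : ℂ, t ≠ 0 → ∀ e, eval (fun i => t ^ b i * x i) (F e) = 0

/-- The Zariski closure in `X = {F = 0, x_j ≠ 0 for j in U}` of the union of the nonconstant orbits in
`X` of the one-parameter groups `t ↦ diag (t ^ b 0, …, t ^ b n)`, `b` in `B`. -/
def SpDirs (U : Set (Fin (n + 1))) (F : ι → MvPolynomial (Fin (n + 1)) ℂ)
    (B : Finset (Fin (n + 1) → ℤ)) : Set (Fin (n + 1) → ℂ) :=
  {x | x ∈ Pts U F ∧ ∀ G : MvPolynomial (Fin (n + 1)) ℂ, (∃ d, G.IsHomogeneous d) →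
    (∀ b ∈ B, ∀ x' ∈ Pts U F, OrbitIn F b x' → (∃ j l, x' j ≠ 0 ∧ x' l ≠ 0 ∧ b j ≠ b l) →
      eval x' G = 0) → eval x G = 0}

theorem orbitIn_of_wc {F : ι → MvPolynomial (Fin (n + 1)) ℂ} {b : Fin (n + 1) → ℤ}
    {x : Fin (n + 1) → ℂ} (h : ∀ e v, val x (wc b v (F e)) = 0) : OrbitIn F b x := by
  intro t ht e
  have h1 := val_orbit (L := ℂ) x b ht (F e) (h e)
  rwa [val_eval] at h1

/-- **Finitely many directions.** -/
theorem dirs {U : Set (Fin (n + 1))} {F : ι → MvPolynomial (Fin (n + 1)) ℂ} {s N : ℕ}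
    (hC : Sys U F s N) {T : ι → Finset (Fin (n + 1) →₀ ℕ)} (hT : ∀ e, (F e).support ⊆ T e)
    {B : Finset (Fin (n + 1) → ℤ)} (hB : ∀ b : Fin (n + 1) → ℤ, ∃ b' ∈ B,
      (∀ j l, b j = b l ↔ b' j = b' l) ∧ ∀ e, ∀ α ∈ T e, ∀ α' ∈ T e,
        (∑ j, (α j : ℤ) * b j = ∑ j, (α' j : ℤ) * b j ↔
          ∑ j, (α j : ℤ) * b' j = ∑ j, (α' j : ℤ) * b' j)) :
    (∀ f, PCurve U F f → ¬ Extends f → ∃ b ∈ B,
      (∃ j l, b j ≠ b l ∧ (∃ z ∈ ball (0 : ℂ) 1 \ {0}, f z j ≠ 0) ∧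
        ∃ z ∈ ball (0 : ℂ) 1 \ {0}, f z l ≠ 0) ∧
      ∀ z ∈ ball (0 : ℂ) 1 \ {0}, OrbitIn F b (f z)) ∧
    (∀ f, EntireCurve U F f → ∃ b ∈ B,
      (∃ j l, b j ≠ b l ∧ (∃ z, f z j ≠ 0) ∧ ∃ z, f z l ≠ 0) ∧ ∀ z, OrbitIn F b (f z)) ∧
    SpDirs U F B = SpH U F := by
  have hP : ∀ f, PCurve U F f → ¬ Extends f → ∃ b ∈ B,
      (∃ j l, b j ≠ b l ∧ (∃ z ∈ ball (0 : ℂ) 1 \ {0}, f z j ≠ 0) ∧
        ∃ z ∈ ball (0 : ℂ) 1 \ {0}, f z l ≠ 0) ∧
      ∀ z ∈ ball (0 : ℂ) 1 \ {0}, OrbitIn F b (f z) := by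
    intro f hf hE
    obtain ⟨b, j, l, hj, hl, hbjl, hs⟩ := pcurve hC f hf hE
    obtain ⟨b', hb', h1, h2⟩ := hB b
    obtain ⟨zj, hzj, hfj⟩ := nz_on one_pos hj
    obtain ⟨zl, hzl, hfl⟩ := nz_on one_pos hl
    refine ⟨b', hb', ⟨j, l, fun h => hbjl ((h1 j l).2 h), ⟨zj, mem_disc.mpr hzj, hfj⟩,
      ⟨zl, mem_disc.mpr hzl, hfl⟩⟩, fun z hz => orbitIn_of_wc fun e v => ?_⟩
    refine wc_same (hT e) (h2 e) (fun v => ?_) v
    rw [wc_eq]
    exact hs e v z (mem_disc.mp hz)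
  have hEn : ∀ f, EntireCurve U F f → ∃ b ∈ B,
      (∃ j l, b j ≠ b l ∧ (∃ z, f z j ≠ 0) ∧ ∃ z, f z l ≠ 0) ∧ ∀ z, OrbitIn F b (f z) := by
    intro f hf
    obtain ⟨h1, h2⟩ := sin_curve hf
    obtain ⟨b, hb, ⟨j, l, hjl, ⟨zj, -, hj⟩, ⟨zl, -, hl⟩⟩, h3⟩ := hP _ h1 h2
    refine ⟨b, hb, ⟨j, l, hjl, ⟨_, hj⟩, ⟨_, hl⟩⟩, fun z => ?_⟩
    obtain ⟨w, hw, hwz⟩ := sin_point z
    have h4 := h3 w hw
    rwa [hwz] at h4
  refine ⟨hP, hEn, Set.Subset.antisymm ?_ ?_⟩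
  · rintro x ⟨hx, h⟩
    refine ⟨hx, fun G hG hGv => h G hG ?_⟩
    rintro b - x' hx' hor ⟨j, l, hj, hl, hjl⟩
    -- the orbit as an entire curve
    have hd : DiagCurve U F x' b := diag_of_wc hx'.2.1
      (fun e v => wc_of_orbit (fun t ht => by rw [val_eval]; exact hor t ht e) v)
      ⟨j, l, hj, hl, hjl⟩
    have h1 := hGv _ (torus_of_diag hd).entire 0
    simpa using h1
  · rintro x ⟨hx, h⟩
    refine ⟨hx, fun G hG hGv => h G hG fun f hf z => ?_⟩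
    by_contra hne
    obtain ⟨b, hb, ⟨j, l, hjl, ⟨zj, hj⟩, ⟨zl, hl⟩⟩, h3⟩ := hEn f hf
    obtain ⟨hp1, hp2⟩ := sin_curve hf
    obtain ⟨wz, hwz, hwz'⟩ := sin_point z
    obtain ⟨wj, hwj, hwj'⟩ := sin_point zj
    obtain ⟨wl, hwl, hwl'⟩ := sin_point zl
    obtain ⟨z0, hz0, hgood⟩ := good_point
      (fun a : Fin 3 => fun w => if a = 0 then f (Complex.sin w⁻¹) j
        else if a = 1 then f (Complex.sin w⁻¹) l else eval (f (Complex.sin w⁻¹)) G)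
      (by
        intro a
        fin_cases a
        · exact hp1.an j
        · exact hp1.an l
        · exact eval_an hp1.an G)
      (by
        intro a
        fin_cases a
        · exact nz_of_on (hp1.an j) (mem_disc.mp hwj) (by rw [hwj']; exact hj)
        · exact nz_of_on (hp1.an l) (mem_disc.mp hwl) (by rw [hwl']; exact hl)
        · exact nz_of_on (eval_an hp1.an G) (mem_disc.mp hwz) (by rw [hwz']; exact hne))
    have h0 : f (Complex.sin z0⁻¹) j ≠ 0 := hgood 0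
    have h1 : f (Complex.sin z0⁻¹) l ≠ 0 := hgood 1
    have h2 : eval (f (Complex.sin z0⁻¹)) G ≠ 0 := hgood 2
    exact h2 (hGv b hb _ (hf.2.1 _) (h3 _) ⟨j, l, h0, h1, hjl⟩)

end Pool.Agent.R869.Wd
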