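import Pool.Agent.TH152.HY.Ext

/-!
Functions near infinity with a strong auxiliary function, with an arbitrary index set.
-/

set_option autoImplicit false

namespace Pool.Agent.R869

open Filter Metric Real Set Topology Pool.Agent.H159R3.NV Pool.Agent.W602.NC Pool.Agent.W602.TL
  Pool.Agent.W603.BP Pool.Agent.W601.PH Pool.Agent.TH152.HY

/-- the functions `U i` do not vanish near `z` and their quotients oscillate little -/
def CalmI {ι : Type*} (U : ι → ℂ → ℂ) (z : ℂ) (ε B : ℝ) : Prop :=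
  (∀ i, ∀ w ∈ closedBall z ε, U i w ≠ 0) ∧
    ∀ i j, ∀ w ∈ closedBall z ε, ‖U j w / U i w‖ ≤ B * ‖U j z / U i z‖

theorem ext_fin {ι : Type} [Fintype ι] {r0 : ℝ} (hr0 : 0 < r0) (c : ι → ℕ) {κ Nn : ℕ}
    (hκ0 : 0 < κ) {C1 : ℝ} (hC1 : 1 ≤ C1) {U : ι → ℂ → ℂ}
    (hUan : ∀ i, AnalyticOnNhd ℂ (U i) (Ext r0)) (hne : ∀ i, ∃ z ∈ Ext r0, U i z ≠ 0)
    {P : ℂ → ℂ} (hPan : AnalyticOnNhd ℂ P (Ext r0)) (hPne : ∃ z ∈ Ext r0, P z ≠ 0)
    (hord : ∀ z ∈ Ext r0, ∀ a : ι → ℕ, (∀ i, analyticOrderAt (U i) z = a i) →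
      ((∑ i, c i * a i : ℕ) : ℕ∞) ≤ analyticOrderAt P z)
    (hpt : ∀ z ε B, 0 < ε → ε ≤ 1 → 1 ≤ B → closedBall z ε ⊆ Ext r0 → CalmI U z ε B →
      ∀ S : ℝ, (∀ i, ‖U i z‖ ≤ S) → (∃ i, ‖U i z‖ = S) →
      ‖P z‖ * S ^ κ ≤ C1 * (B / ε) ^ Nn * ∏ i, ‖U i z‖ ^ c i) (i0 j : ι) :
    ∃ R : ℂ → ℂ, MeromorphicAt (fun w => R w⁻¹) 0 ∧ ∃ R0 : ℝ, ∀ z, R0 < ‖z‖ →
      U j z = R z * U i0 z := by
  classical
  obtain ⟨p, hp⟩ : ∃ p, Fintype.card ι = p + 1 :=
    ⟨Fintype.card ι - 1, by have := Fintype.card_pos_iff.2 ⟨i0⟩; omega⟩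
  let e0 : ι ≃ Fin (p + 1) := Fintype.equivFinOfCardEq hp
  let e1 : Fin (p + 1) ≃ ι := e0.symm.trans (Equiv.swap (e0.symm 0) i0)
  have h0 : e1 0 = i0 := by simp [e1]
  have h := abstract_ext (p := p) hr0 (fun a => c (e1 a)) (κ := κ) (Nn := Nn) hκ0 hC1
    (U := fun a => U (e1 a)) (fun a => hUan _) (fun a => hne _) hPan hPne (by
      intro z hz a ha
      have h1 := hord z hz (fun i => a (e1.symm i)) (fun i => by
        have := ha (e1.symm i)
        simpa using this)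
      refine le_trans (le_of_eq ?_) h1
      congr 1
      rw [← Equiv.sum_comp e1]
      simp) (by
      intro z ε B hε hε1 hB hball hcalm
      have h1 := hpt z ε B hε hε1 hB hball ⟨fun i w hw => by
        have := hcalm.1 (e1.symm i) w hw
        simpa using this, fun i j w hw => by
        have := hcalm.2 (e1.symm i) (e1.symm j) w hw
        simpa using this⟩ (sup (fun a => U (e1 a)) z) (fun i => by
        have := le_sup (fun a => U (e1 a)) z (e1.symm i)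
        simpa using this) (by
        obtain ⟨a, ha⟩ := sup_attained (fun a => U (e1 a)) z
        exact ⟨e1 a, ha.symm⟩)
      refine h1.trans (le_of_eq ?_)
      congr 1
      rw [← Equiv.prod_comp e1]) (e1.symm j)
  simpa [h0] using h

end Pool.Agent.R869
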