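import Pool.Agent.R869.Tree2
import Pool.Agent.R869.AExt
import Pool.Agent.TH152.HY.Wrn

/-!
Wronskians of minimal relations between functions near infinity.
-/

set_option autoImplicit false

namespace Pool.Agent.R869

open Filter Metric Real Set Topology Pool.Agent.H159R3.NV Pool.Agent.W602.NC Pool.Agent.W602.TL
  Pool.Agent.W603.BP Pool.Agent.W601.PH Pool.Agent.TH152.HY

variable {J : Type} {r0 : ℝ}

/-- the restrictions of the functions to a neighbourhood of infinity -/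
def rst (r0 : ℝ) (T : J → ℂ → ℂ) : J → (Ext r0 → ℂ) := fun j z => T j z

/-- the members of a minimal relation -/
def mem (T : J → ℂ → ℂ) (C : Circ ℂ (rst r0 T)) (i : Fin (C.m + 1)) (w : ℂ) : ℂ :=
  C.c i * T (C.e i) w

/-- the Wronskian of a minimal relation -/
noncomputable def WC (T : J → ℂ → ℂ) (C : Circ ℂ (rst r0 T)) : ℂ → ℂ := wr 1 (mem T C) 0

theorem mem_an {T : J → ℂ → ℂ} (hT : ∀ j, AnalyticOnNhd ℂ (T j) (Ext r0))
    (C : Circ ℂ (rst r0 T)) (i : Fin (C.m + 1)) : AnalyticOnNhd ℂ (mem T C i) (Ext r0) :=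
  fun z hz => analyticAt_const.fun_mul (hT _ z hz)

theorem WC_an {T : J → ℂ → ℂ} (hT : ∀ j, AnalyticOnNhd ℂ (T j) (Ext r0))
    (C : Circ ℂ (rst r0 T)) : AnalyticOnNhd ℂ (WC T C) (Ext r0) :=
  wr_an_loc 1 (mem T C) (mem_an hT C) 0

theorem WC_eq {T : J → ℂ → ℂ} (hT : ∀ j, AnalyticOnNhd ℂ (T j) (Ext r0))
    (C : Circ ℂ (rst r0 T)) (i : Fin (C.m + 1)) :
    ∃ ε : ℂ, (ε = 1 ∨ ε = -1) ∧ ∀ z ∈ Ext r0, wr 1 (mem T C) i z = ε * WC T C z := by
  refine wr_norm_loc 1 (Ext_open r0) (mem T C) (mem_an hT C) (fun z hz => ?_) i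
  have h1 := congrFun C.rel ⟨z, hz⟩
  simp only [Finset.sum_apply, Pi.smul_apply, Pi.zero_apply, smul_eq_mul, rst] at h1
  simpa [mem] using h1

theorem wr_one_dt {m : ℕ} (u : Fin (m + 1) → ℂ → ℂ) (i : Fin (m + 1)) :
    wr 1 u i = TH152.HY.dt (fun b => u (i.succAbove b)) := by
  funext z
  unfold wr TH152.HY.dt
  simp only [pow_one]

theorem WC_ne (hr0 : 0 < r0) {T : J → ℂ → ℂ} (hT : ∀ j, AnalyticOnNhd ℂ (T j) (Ext r0))
    (C : Circ ℂ (rst r0 T)) : ∃ z ∈ Ext r0, WC T C z ≠ 0 := by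
  obtain ⟨ε, hε, h⟩ := WC_eq hT C (Fin.last C.m)
  obtain ⟨z, hz, hne⟩ := wron_ne_loc (Ext_open r0) (Ext_preconn hr0) (Ext_nonempty r0)
    (fun b => mem T C ((Fin.last C.m).succAbove b)) (fun b => mem_an hT C _) (by
      intro c hc
      have h1 := Fintype.linearIndependent_iff.1 C.li c (by
        funext ⟨z, hz⟩
        simp only [Finset.sum_apply, Pi.smul_apply, Pi.zero_apply, smul_eq_mul, rst]
        have := hc z hz
        simpa [mem] using this)
      funext i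
      exact h1 i)
  refine ⟨z, hz, fun h0 => hne ?_⟩
  have h2 := h z hz
  rw [wr_one_dt, h0, mul_zero] at h2
  exact h2

theorem WC_order {T : J → ℂ → ℂ} (hT : ∀ j, AnalyticOnNhd ℂ (T j) (Ext r0))
    (C : Circ ℂ (rst r0 T)) {z : ℂ} (hz : z ∈ Ext r0) (n : J → ℕ)
    (hn : ∀ j, (n j : ℕ∞) ≤ analyticOrderAt (T j) z) (i : Fin (C.m + 1)) :
    ((∑ b, n (C.e (i.succAbove b)) : ℕ) : ℕ∞) ≤ analyticOrderAt (WC T C) z + (tri C.m : ℕ∞) := by
  obtain ⟨ε, hε, h⟩ := WC_eq hT C i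
  have hε0 : ε ≠ 0 := by rcases hε with rfl | rfl <;> norm_num
  have h1 : analyticOrderAt (wr 1 (mem T C) i) z = analyticOrderAt (WC T C) z := by
    have h2 : wr 1 (mem T C) i =ᶠ[𝓝 z] (fun _ => ε) * WC T C := by
      filter_upwards [(Ext_open r0).mem_nhds hz] with w hw
      exact h w hw
    rw [analyticOrderAt_congr h2, analyticOrderAt_mul analyticAt_const (WC_an hT C z hz)]
    have h3 : analyticOrderAt (fun _ : ℂ => ε) z = 0 := by
      rw [analyticOrderAt_eq_zero]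
      exact Or.inr hε0
    rw [h3, zero_add]
  rw [← h1, wr_one_dt]
  refine dt_order (fun b => mem_an hT C _ z hz) _ fun b => ?_
  have h4 : analyticOrderAt (mem T C (i.succAbove b)) z =
      analyticOrderAt (T (C.e (i.succAbove b))) z := by
    have e : mem T C (i.succAbove b) = (fun _ => C.c (i.succAbove b)) * T (C.e (i.succAbove b)) :=
      rfl
    rw [e, analyticOrderAt_mul analyticAt_const (hT _ z hz)]
    have h3 : analyticOrderAt (fun _ : ℂ => C.c (i.succAbove b)) z = 0 := by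
      rw [analyticOrderAt_eq_zero]
      exact Or.inr (C.c_ne _)
    rw [h3, zero_add]
  rw [h4]
  exact hn _

/-- the constant in the pointwise bound -/
noncomputable def KC {T : J → ℂ → ℂ} (C : Circ ℂ (rst r0 T)) : ℝ :=
  (Nat.factorial C.m : ℝ) ^ (C.m + 1) * ∏ i, max ‖C.c i‖ 1

theorem one_le_KC {T : J → ℂ → ℂ} (C : Circ ℂ (rst r0 T)) : 1 ≤ KC C := by
  unfold KC
  have h1 : (1 : ℝ) ≤ Nat.factorial C.m := by exact_mod_cast Nat.factorial_pos _
  have h2 : (1 : ℝ) ≤ ∏ i, max ‖C.c i‖ 1 := by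
    have := Finset.prod_le_prod (s := Finset.univ) (f := fun _ : Fin (C.m + 1) => (1 : ℝ))
      (g := fun i => max ‖C.c i‖ 1) (fun _ _ => zero_le_one) (fun i _ => le_max_right _ _)
    simpa using this
  exact one_le_mul_of_one_le_of_one_le (one_le_pow₀ h1) h2

theorem WC_upper {T : J → ℂ → ℂ} (hT : ∀ j, AnalyticOnNhd ℂ (T j) (Ext r0))
    (C : Circ ℂ (rst r0 T)) {z : ℂ} {ε B : ℝ} (hB : 1 ≤ B) (hε : 0 < ε) (hε1 : ε ≤ 1)
    (hball : closedBall z ε ⊆ Ext r0) (h0 : ∀ j, ∀ w ∈ closedBall z ε, T j w ≠ 0)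
    (hb : ∀ i j, ∀ w ∈ closedBall z ε, ‖T j w / T i w‖ ≤ B * ‖T j z / T i z‖)
    (i : Fin (C.m + 1)) :
    ‖WC T C z‖ ≤ KC C * (B / ε) ^ (C.m * C.m) * ∏ b, ‖T (C.e (i.succAbove b)) z‖ := by
  have hzm : z ∈ closedBall z ε := mem_closedBall_self hε.le
  obtain ⟨η, hη, h⟩ := WC_eq hT C i
  have hη1 : ‖η‖ = 1 := by rcases hη with rfl | rfl <;> simp
  have h1 : ‖WC T C z‖ = ‖wr 1 (mem T C) i z‖ := by
    rw [h z (hball hzm), norm_mul, hη1, one_mul]
  have h2 := point_upper_loc (m := C.m) (N := 1) (mem T C) (z := z) (ε := ε) (B := B)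
    (by linarith) hε hε1 (fun j w hw => mem_an hT C j w (hball hw))
    (fun w hw => mul_ne_zero (C.c_ne 0) (h0 _ w hw)) (by
      intro j w hw
      unfold mem
      have c0 := C.c_ne 0
      rw [mul_div_mul_comm, mul_div_mul_comm, norm_mul, norm_mul, mul_left_comm]
      exact mul_le_mul_of_nonneg_left (hb _ _ w hw) (norm_nonneg _)) i
  rw [h1]
  refine h2.trans ?_
  have h3 : ∏ b : Fin C.m, ‖mem T C (i.succAbove b) z‖ ^ 1 ≤
      (∏ i, max ‖C.c i‖ 1) * ∏ b, ‖T (C.e (i.succAbove b)) z‖ := by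
    have h4 : ∏ b : Fin C.m, ‖C.c (i.succAbove b)‖ ≤ ∏ i, max ‖C.c i‖ 1 := by
      rw [Fin.prod_univ_succAbove _ i]
      have h5 : ∏ b : Fin C.m, ‖C.c (i.succAbove b)‖ ≤
          ∏ b : Fin C.m, max ‖C.c (i.succAbove b)‖ 1 :=
        Finset.prod_le_prod (fun _ _ => norm_nonneg _) fun _ _ => le_max_left _ _
      refine h5.trans (le_mul_of_one_le_left (Finset.prod_nonneg fun _ _ => ?_) (le_max_right _ _))
      exact le_trans zero_le_one (le_max_right _ _)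
    have h6 : ∏ b : Fin C.m, ‖mem T C (i.succAbove b) z‖ ^ 1 =
        (∏ b : Fin C.m, ‖C.c (i.succAbove b)‖) * ∏ b, ‖T (C.e (i.succAbove b)) z‖ := by
      rw [← Finset.prod_mul_distrib]
      refine Finset.prod_congr rfl fun b _ => ?_
      rw [pow_one]
      unfold mem
      rw [norm_mul]
    rw [h6]
    exact mul_le_mul_of_nonneg_right h4 (Finset.prod_nonneg fun _ _ => norm_nonneg _)
  have hm1 : (1 : ℝ) ≤ Nat.factorial C.m := by exact_mod_cast Nat.factorial_pos _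
  have h7 : (Nat.factorial C.m : ℝ) * ((Nat.factorial C.m : ℝ) * B ^ 1 * (1 / ε) ^ C.m) ^ C.m ≤
      (Nat.factorial C.m : ℝ) ^ (C.m + 1) * (B / ε) ^ (C.m * C.m) := by
    rcases Nat.eq_zero_or_pos C.m with hm | hm
    · rw [hm]
      simp
    · have e1 : (Nat.factorial C.m : ℝ) * ((Nat.factorial C.m : ℝ) * B ^ 1 * (1 / ε) ^ C.m) ^ C.m
          = (Nat.factorial C.m : ℝ) ^ (C.m + 1) * (B * (1 / ε) ^ C.m) ^ C.m := by
        rw [pow_one, mul_assoc (Nat.factorial C.m : ℝ), mul_pow (Nat.factorial C.m : ℝ), pow_succ]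
        ring
      rw [e1]
      refine mul_le_mul_of_nonneg_left ?_ (by positivity)
      rw [pow_mul]
      refine pow_le_pow_left₀ (by positivity) ?_ _
      have e2 : (B / ε) ^ C.m = B ^ C.m * (1 / ε) ^ C.m := by
        rw [← mul_pow]
        congr 1
        ring
      rw [e2]
      exact mul_le_mul_of_nonneg_right (le_self_pow₀ hB hm.ne') (by positivity)
  calc _ ≤ ((Nat.factorial C.m : ℝ) ^ (C.m + 1) * (B / ε) ^ (C.m * C.m)) *
        ((∏ i, max ‖C.c i‖ 1) * ∏ b, ‖T (C.e (i.succAbove b)) z‖) :=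
        mul_le_mul h7 h3 (Finset.prod_nonneg fun _ _ => by positivity) (by positivity)
    _ = _ := by unfold KC; ring

/-- the pointwise bound, in terms of logarithms -/
theorem WC_log {T : J → ℂ → ℂ} (hT : ∀ j, AnalyticOnNhd ℂ (T j) (Ext r0))
    (C : Circ ℂ (rst r0 T)) {z : ℂ} {ε B : ℝ} (hB : 1 ≤ B) (hε : 0 < ε) (hε1 : ε ≤ 1)
    (hball : closedBall z ε ⊆ Ext r0) (h0 : ∀ j, ∀ w ∈ closedBall z ε, T j w ≠ 0)
    (hb : ∀ i j, ∀ w ∈ closedBall z ε, ‖T j w / T i w‖ ≤ B * ‖T j z / T i z‖)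
    (hW : WC T C z ≠ 0) (i : Fin (C.m + 1)) :
    Real.log ‖WC T C z‖ - Real.log (KC C) - (C.m * C.m : ℕ) * Real.log (B / ε) ≤
      ∑ b, Real.log ‖T (C.e (i.succAbove b)) z‖ := by
  have hzm : z ∈ closedBall z ε := mem_closedBall_self hε.le
  have h1 := WC_upper hT C hB hε hε1 hball h0 hb i
  have hBε : 0 < B / ε := by positivity
  have hK := one_le_KC C
  have h2 := Real.log_le_log (norm_pos_iff.2 hW) h1
  have hT0 : ∀ b : Fin C.m, ‖T (C.e (i.succAbove b)) z‖ ≠ 0 := fun b =>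
    norm_ne_zero_iff.2 (h0 _ z hzm)
  rw [Real.log_mul (by positivity) (Finset.prod_ne_zero_iff.2 fun b _ => hT0 b),
    Real.log_mul (by positivity) (by positivity), Real.log_pow, Real.log_prod
    (fun b _ => hT0 b)] at h2
  linarith

end Pool.Agent.R869
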