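import Pool.Agent.R869.ACirc

/-!
Relations with cofactors between functions near infinity.
-/

set_option autoImplicit false

namespace Pool.Agent.R869

open Filter Metric Real Set Topology Pool.Agent.H159R3.NV Pool.Agent.W602.NC Pool.Agent.W602.TL
  Pool.Agent.W603.BP Pool.Agent.W601.PH Pool.Agent.TH152.HY

/-- functions near infinity with a relation with cofactors -/
structure AData (r0 : ℝ) (n : ℕ) (J : Type) [Fintype J] where
  f : ℂ → Fin (n + 1) → ℂ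
  A : J → ℂ → ℂ
  B : J → ℂ → ℂ
  V : J → ℂ → ℂ
  N : J → ℕ
  m : J → ℕ
  δ : J → ℕ
  d : J → ℕ
  e : ℕ
  δm : ℕ
  J1 : Finset J
  K : ℝ
  f_an : ∀ i, AnalyticOnNhd ℂ (fun z => f z i) (Ext r0)
  f_ne : ∀ z ∈ Ext r0, f z ≠ 0
  A_an : ∀ l, AnalyticOnNhd ℂ (A l) (Ext r0)
  B_an : ∀ l, AnalyticOnNhd ℂ (B l) (Ext r0)
  V_an : ∀ l, AnalyticOnNhd ℂ (V l) (Ext r0)
  deg : ∀ l, δ l + d l + N l * m l = e
  one_le_K : 1 ≤ K
  A_le : ∀ l, ∀ z ∈ Ext r0, ‖A l z‖ ≤ K * ‖f z‖ ^ δ l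
  B_le : ∀ l, ∀ z ∈ Ext r0, ‖B l z‖ ≤ K * ‖f z‖ ^ m l
  V_le : ∀ l, ∀ z ∈ Ext r0, ‖V l z‖ ≤ K * ‖f z‖ ^ d l
  V_ne : ∀ l, ∀ z ∈ Ext r0, V l z ≠ 0
  V_one : ∀ l ∈ J1, ∀ z ∈ Ext r0, V l z = 1
  d_zero : ∀ l ∈ J1, d l = 0
  B_ne : ∀ l, m l = 0 → ∀ z ∈ Ext r0, B l z ≠ 0
  low : ∀ z ∈ Ext r0, ∃ l ∈ J1, ‖f z‖ ^ m l ≤ K * ‖B l z‖
  sum : ∀ z ∈ Ext r0, ∑ l, A l z * V l z * B l z ^ N l = 0
  no : ∀ S : Finset J, S.Nonempty → S ≠ Finset.univ →
    ∃ z ∈ Ext r0, ∑ l ∈ S, A l z * V l z * B l z ^ N l ≠ 0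
  card : 2 ≤ Fintype.card J
  N_pos : ∀ l, 1 ≤ N l
  N_ge : ∀ l, LLs (Fintype.card J) ≤ N l
  δ_le : ∀ l, δ l ≤ δm
  big : (Fintype.card J + ((Fintype.card J - 1) * (Fintype.card J - 1) + 1)) * δm +
    LLs (Fintype.card J) * ∑ l, m l < e

namespace AData

variable {r0 : ℝ} {n : ℕ} {J : Type} [Fintype J] (D : AData r0 n J)

/-- the terms -/
def T (l : J) (z : ℂ) : ℂ := D.A l z * D.V l z * D.B l z ^ D.N l

theorem T_an (l : J) : AnalyticOnNhd ℂ (D.T l) (Ext r0) := fun z hz =>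
  ((D.A_an l z hz).fun_mul (D.V_an l z hz)).fun_mul ((D.B_an l z hz).fun_pow _)

theorem T_ne (l : J) : ∃ z ∈ Ext r0, D.T l z ≠ 0 := by
  classical
  obtain ⟨z, hz, h⟩ := D.no {l} (Finset.singleton_nonempty l) (by
    intro h
    have h1 := congrArg Finset.card h
    rw [Finset.card_singleton, Finset.card_univ] at h1
    have := D.card
    omega)
  rw [Finset.sum_singleton] at h
  exact ⟨z, hz, h⟩

theorem A_ne (l : J) : ∃ z ∈ Ext r0, D.A l z ≠ 0 := by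
  obtain ⟨z, hz, h⟩ := D.T_ne l
  exact ⟨z, hz, left_ne_zero_of_mul (left_ne_zero_of_mul h)⟩

theorem B_ne' (l : J) : ∃ z ∈ Ext r0, D.B l z ≠ 0 := by
  obtain ⟨z, hz, h⟩ := D.T_ne l
  refine ⟨z, hz, fun h0 => right_ne_zero_of_mul h ?_⟩
  rw [h0, zero_pow (by have := D.N_pos l; omega)]

theorem tree [DecidableEq J] (j0 : J) : Nonempty (Tree ℂ (rst r0 D.T) j0) := by
  refine exists_tree _ ?_ ?_ j0
  · funext ⟨z, hz⟩
    simp only [Finset.sum_apply, rst, Pi.zero_apply]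
    exact D.sum z hz
  · intro S hS hS' h0
    obtain ⟨z, hz, h⟩ := D.no S hS hS'
    apply h
    have h1 := congrFun h0 ⟨z, hz⟩
    simp only [Finset.sum_apply, rst, Pi.zero_apply] at h1
    exact h1

/-- the common degree -/
def E : ℕ := Nat.factorial (D.e + ∑ l, D.m l + ∑ l, D.d l + 1)

theorem E_pos : 0 < D.E := Nat.factorial_pos _

theorem dvd_E {x : ℕ} (hx : 0 < x) (h : x ≤ D.e + ∑ l, D.m l + ∑ l, D.d l + 1) : x ∣ D.E :=
  Nat.dvd_factorial hx h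

theorem m_le (l : J) : D.m l ≤ D.e + ∑ l, D.m l + ∑ l, D.d l + 1 := by
  have := Finset.single_le_sum (f := D.m) (fun _ _ => Nat.zero_le _) (Finset.mem_univ l)
  omega

theorem d_le (l : J) : D.d l ≤ D.e + ∑ l, D.m l + ∑ l, D.d l + 1 := by
  have := Finset.single_le_sum (f := D.d) (fun _ _ => Nat.zero_le _) (Finset.mem_univ l)
  omega

/-- powers with a common degree -/
def pw (i0 : Fin (n + 1)) (G : ℂ → ℂ) (d : ℕ) (z : ℂ) : ℂ :=
  if d = 0 then D.f z i0 ^ D.E else G z ^ (D.E / d)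

theorem pw_an (i0 : Fin (n + 1)) {G : ℂ → ℂ} (hG : AnalyticOnNhd ℂ G (Ext r0)) (d : ℕ) :
    AnalyticOnNhd ℂ (D.pw i0 G d) (Ext r0) := by
  intro z hz
  unfold pw
  split_ifs
  · exact (D.f_an i0 z hz).fun_pow _
  · exact (hG z hz).fun_pow _

theorem pw_ne {i0 : Fin (n + 1)} (h0 : ∃ z ∈ Ext r0, D.f z i0 ≠ 0) {G : ℂ → ℂ}
    (hG : ∃ z ∈ Ext r0, G z ≠ 0) (d : ℕ) : ∃ z ∈ Ext r0, D.pw i0 G d z ≠ 0 := by
  unfold pw
  split_ifs
  · obtain ⟨z, hz, h⟩ := h0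
    exact ⟨z, hz, pow_ne_zero _ h⟩
  · obtain ⟨z, hz, h⟩ := hG
    exact ⟨z, hz, pow_ne_zero _ h⟩

/-- the order of a power -/
theorem pw_ord (i0 : Fin (n + 1)) {G : ℂ → ℂ} (hG : AnalyticOnNhd ℂ G (Ext r0)) {d : ℕ}
    (hd : 0 < d → d ∣ D.E) {z : ℂ} (hz : z ∈ Ext r0) (h0 : d = 0 → G z ≠ 0) {a g : ℕ}
    (ha : analyticOrderAt (D.pw i0 G d) z = a) (hg : analyticOrderAt G z = g) :
    d * a = D.E * g := by
  rcases Nat.eq_zero_or_pos d with rfl | hpos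
  · have h1 := (hG z hz).analyticOrderAt_eq_zero.mpr (h0 rfl)
    rw [hg] at h1
    have h2 : g = 0 := by exact_mod_cast h1
    rw [h2, zero_mul, mul_zero]
  · have h1 : D.pw i0 G d = G ^ (D.E / d) := by
      funext w
      unfold pw
      rw [if_neg hpos.ne']
      rfl
    rw [h1, analyticOrderAt_pow (hG z hz), hg, nsmul_eq_mul] at ha
    have h2 : D.E / d * g = a := by exact_mod_cast ha
    rw [← h2, ← mul_assoc, Nat.mul_div_cancel' (hd hpos)]

/-- the size of a power -/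
theorem pw_log (i0 : Fin (n + 1)) {G : ℂ → ℂ} {d : ℕ} (hd : 0 < d → d ∣ D.E) {z : ℂ}
    (hG : ‖G z‖ ≤ D.K * ‖D.f z‖ ^ d) (hG0 : G z ≠ 0) :
    (D.E : ℝ) * Real.log ‖G z‖ ≤ d * Real.log ‖D.pw i0 G d z‖ + D.E * Real.log D.K := by
  have hK : 0 ≤ Real.log D.K := Real.log_nonneg D.one_le_K
  rcases Nat.eq_zero_or_pos d with rfl | hpos
  · rw [pow_zero, mul_one] at hG
    rw [Nat.cast_zero, zero_mul, zero_add]
    exact mul_le_mul_of_nonneg_left (Real.log_le_log (norm_pos_iff.2 hG0) hG) (Nat.cast_nonneg _)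
  · unfold pw
    rw [if_neg hpos.ne', norm_pow, Real.log_pow, ← mul_assoc, ← Nat.cast_mul,
      Nat.mul_div_cancel' (hd hpos)]
    have : (0 : ℝ) ≤ D.E * Real.log D.K := mul_nonneg (Nat.cast_nonneg _) hK
    linarith

theorem pw_le (i0 : Fin (n + 1)) {G : ℂ → ℂ} {d : ℕ} (hd : 0 < d → d ∣ D.E) {z : ℂ} {K' : ℝ}
    (hK' : 1 ≤ K') (hG : ‖G z‖ ≤ K' * ‖D.f z‖ ^ d) :
    ‖D.pw i0 G d z‖ ≤ K' ^ D.E * ‖D.f z‖ ^ D.E := by
  unfold pw
  rcases Nat.eq_zero_or_pos d with rfl | hpos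
  · rw [if_pos rfl, norm_pow]
    have h1 : ‖D.f z i0‖ ^ D.E ≤ ‖D.f z‖ ^ D.E :=
      pow_le_pow_left₀ (norm_nonneg _) (norm_le_pi_norm _ _) _
    refine h1.trans (le_mul_of_one_le_left (by positivity) (one_le_pow₀ hK'))
  · rw [if_neg hpos.ne', norm_pow]
    have h1 := pow_le_pow_left₀ (norm_nonneg _) hG (D.E / d)
    rw [mul_pow, ← pow_mul, Nat.mul_div_cancel' (hd hpos)] at h1
    refine h1.trans (mul_le_mul_of_nonneg_right ?_ (by positivity))
    exact pow_le_pow_right₀ hK' (Nat.div_le_self _ _)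

noncomputable instance : Fintype {i : Fin (n + 1) // ∃ z ∈ Ext r0, D.f z i ≠ 0} :=
  Fintype.ofFinite _

/-- the index set -/
abbrev Idx := {i : Fin (n + 1) // ∃ z ∈ Ext r0, D.f z i ≠ 0} ⊕ (J ⊕ (J ⊕ J))

/-- the functions -/
def U (i0 : Fin (n + 1)) : D.Idx → ℂ → ℂ :=
  Sum.elim (fun i z => D.f z i.1 ^ D.E) (Sum.elim (fun l => D.pw i0 (D.B l) (D.m l))
    (Sum.elim (fun l => D.pw i0 (D.V l) (D.d l)) (fun l => D.pw i0 (D.T l) D.e)))

theorem e_pos : 0 < D.e := lt_of_le_of_lt (Nat.zero_le _) D.big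

section

variable [DecidableEq J] {j0 : J} (t : Tree ℂ (rst r0 D.T) j0)

/-- the exponents -/
noncomputable def cs : D.Idx → ℕ :=
  Sum.elim (fun _ => 0) (Sum.elim (fun l => D.m l * (t.cJ l * D.N l - LLs (Fintype.card J)))
    (Sum.elim (fun l => D.d l * t.cJ l) (fun _ => 0)))

/-- the auxiliary function before taking powers -/
noncomputable def P0 (z : ℂ) : ℂ :=
  (∏ l ∈ Finset.univ.erase j0, WC D.T (t.C l) z) * ∏ l ∈ D.J1, D.A l z

theorem P0_an : AnalyticOnNhd ℂ (D.P0 t) (Ext r0) := by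
  intro z hz
  unfold P0
  exact (Finset.analyticAt_fun_prod _ fun l _ => WC_an D.T_an _ z hz).fun_mul
    (Finset.analyticAt_fun_prod _ fun l _ => D.A_an l z hz)

theorem P0_ne (hr0 : 0 < r0) : ∃ z ∈ Ext r0, D.P0 t z ≠ 0 := by
  obtain ⟨h1, h2⟩ := prod_ne hr0 (Finset.univ.erase j0) (fun l => WC D.T (t.C l))
    (fun l _ => WC_an D.T_an _) fun l _ => WC_ne hr0 D.T_an _
  obtain ⟨h3, h4⟩ := prod_ne hr0 D.J1 D.A (fun l _ => D.A_an l) fun l _ => D.A_ne l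
  by_contra hcon
  push Not at hcon
  rcases an_eq_zero_or (Ext_open r0) (Ext_preconn hr0) h1 h3 hcon with h | h
  · obtain ⟨z, hz, hz2⟩ := h2
    exact hz2 (h z hz)
  · obtain ⟨z, hz, hz2⟩ := h4
    exact hz2 (h z hz)

omit [DecidableEq J] in
theorem fin_ord (hr0 : 0 < r0) {F : ℂ → ℂ} (hF : AnalyticOnNhd ℂ F (Ext r0))
    (hne : ∃ z ∈ Ext r0, F z ≠ 0) {z : ℂ} (hz : z ∈ Ext r0) : ∃ k : ℕ, analyticOrderAt F z = k := by
  have h1 : analyticOrderAt F z ≠ ⊤ := by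
    intro h0
    obtain ⟨z2, hz2, h2⟩ := hne
    exact h2 (hF.eqOn_zero_of_preconnected_of_eventuallyEq_zero (Ext_preconn hr0) hz
      (analyticOrderAt_eq_top.mp h0) hz2)
  obtain ⟨k, hk⟩ := ENat.ne_top_iff_exists.mp h1
  exact ⟨k, hk.symm⟩

omit [DecidableEq J] in
theorem arith0 {w L α : ℕ} (c N β : J → ℕ) (hc : ∀ l, 1 ≤ c l) (hN : ∀ l, L ≤ N l)
    (h : ∑ l, c l * (N l * β l) ≤ w + L + α) :
    ∑ l, (c l * N l - L) * β l ≤ w + α := by
  have hle : ∀ l, L ≤ c l * N l := fun l => (hN l).trans (Nat.le_mul_of_pos_left _ (hc l))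
  have e : ∀ l, c l * (N l * β l) = (c l * N l - L) * β l + L * β l := by
    intro l
    rw [← mul_assoc, ← add_mul, Nat.sub_add_cancel (hle l)]
  rw [Finset.sum_congr rfl fun l _ => e l, Finset.sum_add_distrib, ← Finset.mul_sum] at h
  by_cases h0 : ∑ l, β l = 0
  · have h1 : ∀ l, β l = 0 := fun l => (Finset.sum_eq_zero_iff.1 h0) l (Finset.mem_univ l)
    have : ∑ l, (c l * N l - L) * β l = 0 := Finset.sum_eq_zero fun l _ => by rw [h1, mul_zero]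
    omega
  · have h1 : L ≤ L * ∑ l, β l := Nat.le_mul_of_pos_right _ (Nat.pos_of_ne_zero h0)
    omega

theorem order_main (hr0 : 0 < r0) {i0 : Fin (n + 1)} {z : ℂ} (hz : z ∈ Ext r0)
    (a : D.Idx → ℕ) (ha : ∀ i, analyticOrderAt (D.U i0 i) z = a i) :
    ((∑ i, D.cs t i * a i : ℕ) : ℕ∞) ≤ analyticOrderAt (fun z => D.P0 t z ^ D.E) z := by
  obtain ⟨j, hj, hlow⟩ := D.low z hz
  have hfz : 0 < ‖D.f z‖ := norm_pos_iff.2 (D.f_ne z hz)
  have hBj : D.B j z ≠ 0 := by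
    intro h0
    rw [h0, norm_zero, mul_zero] at hlow
    exact absurd hlow (not_le.2 (by positivity))
  have hw := fun l => fin_ord hr0 (WC_an D.T_an (t.C l)) (WC_ne hr0 D.T_an (t.C l)) hz
  have hα := fun l => fin_ord hr0 (D.A_an l) (D.A_ne l) hz
  have hβ := fun l => fin_ord hr0 (D.B_an l) (D.B_ne' l) hz
  choose w hw using hw
  choose α hα using hα
  choose β hβ using hβ
  have hV : ∀ l, analyticOrderAt (D.V l) z = 0 := fun l =>
    (D.V_an l z hz).analyticOrderAt_eq_zero.mpr (D.V_ne l z hz)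
  have hT : ∀ l, analyticOrderAt (D.T l) z = ((α l + D.N l * β l : ℕ) : ℕ∞) := by
    intro l
    have e : D.T l = D.A l * D.V l * D.B l ^ D.N l := rfl
    rw [e, analyticOrderAt_mul ((D.A_an l z hz).mul (D.V_an l z hz)) ((D.B_an l z hz).pow _),
      analyticOrderAt_mul (D.A_an l z hz) (D.V_an l z hz), analyticOrderAt_pow (D.B_an l z hz),
      hα, hV, hβ, add_zero, nsmul_eq_mul]
    push_cast
    rfl
  have hβj : β j = 0 := by
    have h1 := (D.B_an j z hz).analyticOrderAt_eq_zero.mpr hBj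
    rw [hβ] at h1
    exact_mod_cast h1
  -- the tree
  have h1 := t.main (α := ℤ) (fun l => -((α l + D.N l * β l : ℕ) : ℤ))
    (fun l => -((w l + tri (t.C l).m : ℕ) : ℤ)) (fun l hl i => by
      have h2 := WC_order D.T_an (t.C l) hz (fun l => α l + D.N l * β l) (fun l => (hT l).ge) i
      rw [hw] at h2
      have h3 : ∑ b, (α ((t.C l).e (i.succAbove b)) + D.N ((t.C l).e (i.succAbove b)) *
          β ((t.C l).e (i.succAbove b))) ≤ w l + tri (t.C l).m := by exact_mod_cast h2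
      rw [Finset.sum_neg_distrib, neg_le_neg_iff]
      exact_mod_cast h3) j
  have h2 := t.sum_cJ (R := ℤ) fun l => -((α l + D.N l * β l : ℕ) : ℤ)
  rw [← h2] at h1
  have h3 : ∑ l, t.cJ l * (α l + D.N l * β l) ≤
      ∑ l ∈ Finset.univ.erase j0, w l + LLs (Fintype.card J) + α j := by
    have h4 : ∑ l, t.cJ l * (α l + D.N l * β l) ≤
        ∑ l ∈ Finset.univ.erase j0, (w l + tri (t.C l).m) + (α j + D.N j * β j) := by
      have h5 : ∑ i, (t.cJ i : ℤ) * -((α i + D.N i * β i : ℕ) : ℤ) =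
          -((∑ l, t.cJ l * (α l + D.N l * β l) : ℕ) : ℤ) := by
        push_cast
        rw [← Finset.sum_neg_distrib]
        exact Finset.sum_congr rfl fun l _ => by ring
      have h6 : ∑ l ∈ Finset.univ.erase j0, -((w l + tri (t.C l).m : ℕ) : ℤ) =
          -((∑ l ∈ Finset.univ.erase j0, (w l + tri (t.C l).m) : ℕ) : ℤ) := by
        push_cast
        rw [← Finset.sum_neg_distrib]
      rw [h5, h6] at h1
      have h7 : ((∑ l, t.cJ l * (α l + D.N l * β l) : ℕ) : ℤ) ≤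
        ((∑ l ∈ Finset.univ.erase j0, (w l + tri (t.C l).m) + (α j + D.N j * β j) : ℕ) : ℤ) := by
        rw [Nat.cast_add (∑ l ∈ Finset.univ.erase j0, (w l + tri (t.C l).m))]
        linarith
      exact_mod_cast h7
    rw [hβj, mul_zero, add_zero, Finset.sum_add_distrib] at h4
    have h5 := t.tri_total
    unfold LLs
    omega
  have h4 : ∑ l, (t.cJ l * D.N l - LLs (Fintype.card J)) * β l ≤
      ∑ l ∈ Finset.univ.erase j0, w l + ∑ l ∈ D.J1, α l := by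
    have h5 : α j ≤ ∑ l ∈ D.J1, α l := Finset.single_le_sum (fun _ _ => Nat.zero_le _) hj
    have h6 : ∑ l, t.cJ l * (D.N l * β l) ≤ ∑ l, t.cJ l * (α l + D.N l * β l) :=
      Finset.sum_le_sum fun l _ => Nat.mul_le_mul_left _ (Nat.le_add_left _ _)
    refine arith0 (w := ∑ l ∈ Finset.univ.erase j0, w l) t.cJ D.N β t.one_le_cJ D.N_ge ?_
    omega
  -- the order of the auxiliary function
  have hP : analyticOrderAt (fun z => D.P0 t z ^ D.E) z =
      ((D.E * (∑ l ∈ Finset.univ.erase j0, w l + ∑ l ∈ D.J1, α l) : ℕ) : ℕ∞) := by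
    have e1 : (fun z => D.P0 t z ^ D.E) = D.P0 t ^ D.E := rfl
    have e2 : D.P0 t = (fun z => ∏ l ∈ Finset.univ.erase j0, WC D.T (t.C l) z) *
      fun z => ∏ l ∈ D.J1, D.A l z := rfl
    rw [e1, analyticOrderAt_pow (D.P0_an t z hz), e2, analyticOrderAt_mul
      (Finset.analyticAt_fun_prod _ fun l _ => WC_an D.T_an _ z hz)
      (Finset.analyticAt_fun_prod _ fun l _ => D.A_an l z hz),
      analyticOrder_prod _ _ (fun l _ => WC_an D.T_an _ z hz),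
      analyticOrder_prod _ _ (fun l _ => D.A_an l z hz),
      Finset.sum_congr rfl fun l _ => hw l, Finset.sum_congr rfl fun l _ => hα l, nsmul_eq_mul]
    push_cast
    rfl
  rw [hP]
  have h5 : ∑ i, D.cs t i * a i ≤ D.E * (∑ l ∈ Finset.univ.erase j0, w l + ∑ l ∈ D.J1, α l) := by
    rw [Fintype.sum_sum_type, Fintype.sum_sum_type, Fintype.sum_sum_type]
    simp only [cs, Sum.elim_inl, Sum.elim_inr, zero_mul, Finset.sum_const_zero, zero_add, add_zero]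
    have h6 : ∀ l, D.m l * (t.cJ l * D.N l - LLs (Fintype.card J)) * a (Sum.inr (Sum.inl l)) =
        D.E * ((t.cJ l * D.N l - LLs (Fintype.card J)) * β l) := by
      intro l
      have h7 := D.pw_ord i0 (D.B_an l) (fun h => D.dvd_E h (D.m_le l)) hz
        (fun h => D.B_ne l h z hz) (ha (Sum.inr (Sum.inl l))) (hβ l)
      calc _ = (t.cJ l * D.N l - LLs (Fintype.card J)) * (D.m l * a (Sum.inr (Sum.inl l))) := by
            ring
        _ = _ := by rw [h7]; ring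
    have h7 : ∀ l, D.d l * t.cJ l * a (Sum.inr (Sum.inr (Sum.inl l))) = 0 := by
      intro l
      have h8 := D.pw_ord i0 (D.V_an l) (fun h => D.dvd_E h (D.d_le l)) hz
        (fun h => D.V_ne l z hz) (ha (Sum.inr (Sum.inr (Sum.inl l)))) (g := 0) (hV l)
      calc _ = t.cJ l * (D.d l * a (Sum.inr (Sum.inr (Sum.inl l)))) := by ring
        _ = _ := by rw [h8, mul_zero, mul_zero]
    rw [Finset.sum_congr rfl fun l _ => h6 l, Finset.sum_congr rfl fun l _ => h7 l,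
      Finset.sum_const_zero, add_zero, ← Finset.mul_sum]
    exact Nat.mul_le_mul_left _ h4
  exact_mod_cast h5

end

end AData

end Pool.Agent.R869
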