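import Pool.Agent.R869.APoint

/-!
Relations with cofactors: the quotients of the coordinates are meromorphic at infinity.
-/

set_option autoImplicit false

namespace Pool.Agent.R869

open Filter Metric Real Set Topology Pool.Agent.H159R3.NV Pool.Agent.W602.NC Pool.Agent.W602.TL
  Pool.Agent.W603.BP Pool.Agent.W601.PH Pool.Agent.TH152.HY

namespace AData

variable {r0 : ℝ} {n : ℕ} {J : Type} [Fintype J] (D : AData r0 n J)

/-- The main analytic statement. -/
theorem main (hr0 : 0 < r0) (i i0 : Fin (n + 1)) (h0 : ∃ z ∈ Ext r0, D.f z i0 ≠ 0) :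
    ∃ R : ℂ → ℂ, MeromorphicAt (fun w => R w⁻¹) 0 ∧ ∃ R0 : ℝ, ∀ z, R0 < ‖z‖ →
      D.f z i ^ D.E = R z * D.f z i0 ^ D.E := by
  classical
  by_cases hi : ∃ z ∈ Ext r0, D.f z i ≠ 0
  · have hJ : Nonempty J := Fintype.card_pos_iff.1 (by have := D.card; omega)
    obtain ⟨j0⟩ := hJ
    obtain ⟨t⟩ := D.tree j0
    obtain ⟨z1, hz1, hz1P⟩ := D.P0_ne t hr0
    have h := ext_fin (ι := D.Idx) hr0 (D.cs t) (κ := D.κ t) (Nn := D.E *
      ((Fintype.card J - 1) * ((Fintype.card J - 1) * (Fintype.card J - 1)))) (D.κ_pos t)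
      (C1 := Real.exp (D.CX t)) (Real.one_le_exp (D.CX_nonneg t)) (U := D.U i0) (by
        rintro (i | l | l | l)
        · exact fun z hz => (D.f_an i.1 z hz).fun_pow _
        · exact D.pw_an i0 (D.B_an l) _
        · exact D.pw_an i0 (D.V_an l) _
        · exact D.pw_an i0 (D.T_an l) _) (by
        rintro (i | l | l | l)
        · obtain ⟨z, hz, h⟩ := i.2
          exact ⟨z, hz, pow_ne_zero _ h⟩
        · exact D.pw_ne h0 (D.B_ne' l) _
        · refine D.pw_ne h0 ?_ _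
          obtain ⟨z, hz⟩ := Ext_nonempty r0
          exact ⟨z, hz, D.V_ne l z hz⟩
        · exact D.pw_ne h0 (D.T_ne l) _) (P := fun z => D.P0 t z ^ D.E)
      (fun z hz => (D.P0_an t z hz).fun_pow _) ⟨z1, hz1, pow_ne_zero _ hz1P⟩
      (fun z hz a ha => D.order_main t hr0 hz a ha)
      (fun z ε B hε hε1 hB hball hcalm S _ hS => D.point_main t hε hε1 hB hball hcalm S hS)
      (Sum.inl ⟨i0, h0⟩) (Sum.inl ⟨i, hi⟩)
    exact h
  · push Not at hi
    refine ⟨fun _ => 0, MeromorphicAt.const _ _, r0, fun z hz => ?_⟩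
    rw [hi z hz, zero_pow D.E_pos.ne', zero_mul]

end AData

end Pool.Agent.R869
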