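import Pool.Agent.R869.ACore

/-!
Relations with cofactors: the pointwise bound.
-/

set_option autoImplicit false

namespace Pool.Agent.R869

open Filter Metric Real Set Topology Pool.Agent.H159R3.NV Pool.Agent.W602.NC Pool.Agent.W602.TL
  Pool.Agent.W603.BP Pool.Agent.W601.PH Pool.Agent.TH152.HY

namespace AData

variable {r0 : ℝ} {n : ℕ} {J : Type} [Fintype J] (D : AData r0 n J)

/-- the constant for the terms -/
noncomputable def K2 : ℝ := D.K ^ (2 + ∑ l, D.N l)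

theorem one_le_K2 : 1 ≤ D.K2 := one_le_pow₀ D.one_le_K

theorem K_le_K2 : D.K ≤ D.K2 := le_self_pow₀ D.one_le_K (by omega)

theorem T_le (l : J) {z : ℂ} (hz : z ∈ Ext r0) : ‖D.T l z‖ ≤ D.K2 * ‖D.f z‖ ^ D.e := by
  have hK := D.one_le_K
  have h1 : ‖D.T l z‖ ≤ (D.K * ‖D.f z‖ ^ D.δ l) * (D.K * ‖D.f z‖ ^ D.d l) *
      (D.K * ‖D.f z‖ ^ D.m l) ^ D.N l := by
    unfold T
    rw [norm_mul, norm_mul, norm_pow]
    have := D.A_le l z hz
    have := D.V_le l z hz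
    have := D.B_le l z hz
    gcongr
  have h2 : (D.K * ‖D.f z‖ ^ D.δ l) * (D.K * ‖D.f z‖ ^ D.d l) *
      (D.K * ‖D.f z‖ ^ D.m l) ^ D.N l = D.K ^ (2 + D.N l) * ‖D.f z‖ ^ D.e := by
    rw [← D.deg l, mul_pow, ← pow_mul, mul_comm (D.N l), pow_add, pow_add, pow_add, pow_two]
    ring
  rw [h2] at h1
  refine h1.trans (mul_le_mul_of_nonneg_right ?_ (by positivity))
  unfold K2
  refine pow_le_pow_right₀ hK ?_
  have := Finset.single_le_sum (f := D.N) (fun _ _ => Nat.zero_le _) (Finset.mem_univ l)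
  omega

theorem U_le (i0 : Fin (n + 1)) (i : D.Idx) {z : ℂ} (hz : z ∈ Ext r0) :
    ‖D.U i0 i z‖ ≤ D.K2 ^ D.E * ‖D.f z‖ ^ D.E := by
  have hK2 := D.one_le_K2
  have hf : 0 ≤ ‖D.f z‖ := norm_nonneg _
  rcases i with i | l | l | l
  · change ‖D.f z i.1 ^ D.E‖ ≤ _
    rw [norm_pow]
    exact (pow_le_pow_left₀ (norm_nonneg _) (norm_le_pi_norm _ _) _).trans
      (le_mul_of_one_le_left (by positivity) (one_le_pow₀ hK2))
  · exact D.pw_le i0 (fun h => D.dvd_E h (D.m_le l)) hK2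
      ((D.B_le l z hz).trans (mul_le_mul_of_nonneg_right D.K_le_K2 (by positivity)))
  · exact D.pw_le i0 (fun h => D.dvd_E h (D.d_le l)) hK2
      ((D.V_le l z hz).trans (mul_le_mul_of_nonneg_right D.K_le_K2 (by positivity)))
  · exact D.pw_le i0 (fun h => D.dvd_E h (by omega)) hK2 (D.T_le l hz)

theorem E_div : 0 < D.E / D.e :=
  Nat.div_pos (Nat.le_of_dvd D.E_pos (D.dvd_E D.e_pos (by omega))) D.e_pos

theorem U_T (i0 : Fin (n + 1)) (l : J) (z : ℂ) :
    D.U i0 (Sum.inr (Sum.inr (Sum.inr l))) z = D.T l z ^ (D.E / D.e) := by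
  change D.pw i0 (D.T l) D.e z = _
  unfold pw
  rw [if_neg D.e_pos.ne']

theorem calm_T {i0 : Fin (n + 1)} {z : ℂ} {ε B : ℝ} (hB : 1 ≤ B)
    (h : CalmI (D.U i0) z ε B) : (∀ j, ∀ w ∈ closedBall z ε, D.T j w ≠ 0) ∧
    ∀ i j, ∀ w ∈ closedBall z ε, ‖D.T j w / D.T i w‖ ≤ B * ‖D.T j z / D.T i z‖ := by
  have hq := D.E_div
  constructor
  · intro j w hw h0
    apply h.1 (Sum.inr (Sum.inr (Sum.inr j))) w hw
    rw [D.U_T, h0, zero_pow hq.ne']
  · intro i j w hw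
    have h1 := h.2 (Sum.inr (Sum.inr (Sum.inr i))) (Sum.inr (Sum.inr (Sum.inr j))) w hw
    rw [D.U_T, D.U_T, D.U_T, D.U_T, ← div_pow, ← div_pow, norm_pow, norm_pow] at h1
    have h2 : B * ‖D.T j z / D.T i z‖ ^ (D.E / D.e) ≤
        (B * ‖D.T j z / D.T i z‖) ^ (D.E / D.e) := by
      rw [mul_pow]
      exact mul_le_mul_of_nonneg_right (le_self_pow₀ hB hq.ne') (by positivity)
    exact (pow_le_pow_iff_left₀ (norm_nonneg _) (by positivity) hq.ne').1 (h1.trans h2)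

variable [DecidableEq J] {j0 : J} (t : Tree ℂ (rst r0 D.T) j0)

/-- the loss of degree -/
noncomputable def loss : ℕ :=
  ∑ l ∈ D.J1, D.δ l + ∑ l, t.cJ l * D.δ l + LLs (Fintype.card J) * ∑ l, D.m l

theorem loss_lt : D.loss t < D.e := by
  refine lt_of_le_of_lt ?_ D.big
  unfold loss
  refine Nat.add_le_add_right ?_ _
  rw [add_mul]
  refine Nat.add_le_add ?_ ?_
  · calc ∑ l ∈ D.J1, D.δ l ≤ ∑ l, D.δ l :=
          Finset.sum_le_sum_of_subset (Finset.subset_univ _)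
      _ ≤ ∑ _ : J, D.δm := Finset.sum_le_sum fun l _ => D.δ_le l
      _ = _ := by rw [Finset.sum_const, Finset.card_univ, smul_eq_mul]
  · calc ∑ l, t.cJ l * D.δ l ≤ ∑ l, t.cJ l * D.δm :=
          Finset.sum_le_sum fun l _ => Nat.mul_le_mul_left _ (D.δ_le l)
      _ = (∑ l, t.cJ l) * D.δm := by rw [Finset.sum_mul]
      _ ≤ _ := Nat.mul_le_mul_right _ t.cJ_total

/-- the exponent of the supremum -/
noncomputable def κ : ℕ := D.e - D.loss t

theorem κ_pos : 0 < D.κ t := by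
  have := D.loss_lt t
  unfold κ
  omega

/-- the exponents for the forms with high multiplicity -/
noncomputable def cc (l : J) : ℕ := t.cJ l * D.N l - LLs (Fintype.card J)

/-- the constant -/
noncomputable def CX : ℝ :=
  D.E * ((∑ l ∈ Finset.univ.erase j0, Real.log (KC (t.C l))) +
    Real.log D.K * (∑ l, (t.cJ l : ℝ) + LLs (Fintype.card J) * Fintype.card J +
      ∑ l, (D.N l : ℝ) + Fintype.card J)) +
    D.E * Real.log D.K * ∑ l, (D.cc t l : ℝ) + D.E * Real.log D.K * ∑ l, (t.cJ l : ℝ) +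
    D.κ t * (D.E * Real.log D.K2)

theorem CX_nonneg : 0 ≤ D.CX t := by
  have hK : 0 ≤ Real.log D.K := Real.log_nonneg D.one_le_K
  have hK2 : 0 ≤ Real.log D.K2 := Real.log_nonneg D.one_le_K2
  have h1 : 0 ≤ ∑ l ∈ Finset.univ.erase j0, Real.log (KC (t.C l)) :=
    Finset.sum_nonneg fun l _ => Real.log_nonneg (one_le_KC _)
  unfold CX
  positivity

/-- the pointwise bound, in terms of logarithms -/
theorem point_log {i0 : Fin (n + 1)} {z : ℂ} {ε B : ℝ} (hε : 0 < ε) (hε1 : ε ≤ 1) (hB : 1 ≤ B)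
    (hball : closedBall z ε ⊆ Ext r0) (hcalm : CalmI (D.U i0) z ε B)
    (hW : ∀ l ∈ Finset.univ.erase j0, WC D.T (t.C l) z ≠ 0) :
    (∑ l ∈ Finset.univ.erase j0, Real.log ‖WC D.T (t.C l) z‖) + ∑ l ∈ D.J1, Real.log ‖D.A l z‖ +
      D.κ t * Real.log ‖D.f z‖ ≤
    (∑ l ∈ Finset.univ.erase j0, Real.log (KC (t.C l))) +
    Real.log D.K * (∑ l, (t.cJ l : ℝ) + LLs (Fintype.card J) * Fintype.card J +
      ∑ l, (D.N l : ℝ) + Fintype.card J) +
    ((Fintype.card J - 1) * ((Fintype.card J - 1) * (Fintype.card J - 1)) : ℕ) *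
      Real.log (B / ε) +
    ∑ l, (D.cc t l : ℝ) * Real.log ‖D.B l z‖ + ∑ l, (t.cJ l : ℝ) * Real.log ‖D.V l z‖ := by
  have hzm : z ∈ closedBall z ε := mem_closedBall_self hε.le
  have hz := hball hzm
  obtain ⟨hT0, hTr⟩ := D.calm_T hB hcalm
  have hK : 0 ≤ Real.log D.K := Real.log_nonneg D.one_le_K
  have hLE : 0 ≤ Real.log (B / ε) := Real.log_nonneg (by rw [le_div_iff₀ hε]; linarith)
  obtain ⟨j, hj, hlow⟩ := D.low z hz
  have hfz : 0 < ‖D.f z‖ := norm_pos_iff.2 (D.f_ne z hz)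
  have hA0 : ∀ l, D.A l z ≠ 0 := fun l => left_ne_zero_of_mul (left_ne_zero_of_mul (hT0 l z hzm))
  have hB0 : ∀ l, D.B l z ≠ 0 := fun l h0 => right_ne_zero_of_mul (hT0 l z hzm) (by
    rw [h0, zero_pow (by have := D.N_pos l; omega)])
  have hV0 : ∀ l, D.V l z ≠ 0 := fun l => D.V_ne l z hz
  set F := Real.log ‖D.f z‖ with hF
  set LK := Real.log D.K with hLK
  -- logarithms of the terms
  have hx : ∀ l, Real.log ‖D.T l z‖ = Real.log ‖D.A l z‖ + Real.log ‖D.V l z‖ +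
      D.N l * Real.log ‖D.B l z‖ := by
    intro l
    have e : D.T l z = D.A l z * D.V l z * D.B l z ^ D.N l := rfl
    rw [e, norm_mul, norm_mul, norm_pow, Real.log_mul (mul_ne_zero (norm_ne_zero_iff.2 (hA0 l))
      (norm_ne_zero_iff.2 (hV0 l))) (pow_ne_zero _ (norm_ne_zero_iff.2 (hB0 l))),
      Real.log_mul (norm_ne_zero_iff.2 (hA0 l)) (norm_ne_zero_iff.2 (hV0 l)), Real.log_pow]
  have hup : ∀ {G : ℂ} {d : ℕ}, G ≠ 0 → ‖G‖ ≤ D.K * ‖D.f z‖ ^ d → Real.log ‖G‖ ≤ LK + d * F := by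
    intro G d hG h
    have h1 := Real.log_le_log (norm_pos_iff.2 hG) h
    rwa [Real.log_mul (by have := D.one_le_K; positivity) (by positivity), Real.log_pow] at h1
  have hlow' : D.m j * F - LK ≤ Real.log ‖D.B j z‖ := by
    have h1 := Real.log_le_log (by positivity) hlow
    rw [Real.log_mul (by have := D.one_le_K; positivity) (norm_ne_zero_iff.2 (hB0 j)),
      Real.log_pow] at h1
    linarith
  -- the tree
  have h1 := t.main (α := ℝ) (fun l => Real.log ‖D.T l z‖)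
    (fun l => Real.log ‖WC D.T (t.C l) z‖ - Real.log (KC (t.C l)) -
      ((t.C l).m * (t.C l).m : ℕ) * Real.log (B / ε)) (fun l hl i =>
      WC_log D.T_an (t.C l) hB hε hε1 hball hT0 hTr
        (hW l (Finset.mem_erase.2 ⟨hl, Finset.mem_univ l⟩)) i) j
  rw [← t.sum_cJ (R := ℝ) fun l => Real.log ‖D.T l z‖, Finset.sum_sub_distrib,
    Finset.sum_sub_distrib, ← Finset.sum_mul] at h1
  have h2 : (∑ l ∈ Finset.univ.erase j0, (((t.C l).m * (t.C l).m : ℕ) : ℝ)) * Real.log (B / ε) ≤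
      ((Fintype.card J - 1) * ((Fintype.card J - 1) * (Fintype.card J - 1)) : ℕ) *
        Real.log (B / ε) := by
    refine mul_le_mul_of_nonneg_right ?_ hLE
    rw [← Nat.cast_sum]
    have h3 : (Finset.univ.erase j0 : Finset J).card = Fintype.card J - 1 := by
      rw [Finset.card_erase_of_mem (Finset.mem_univ j0), Finset.card_univ]
    have h4 : ∑ l ∈ Finset.univ.erase j0, (t.C l).m * (t.C l).m ≤
        (Fintype.card J - 1) * ((Fintype.card J - 1) * (Fintype.card J - 1)) := by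
      calc ∑ l ∈ Finset.univ.erase j0, (t.C l).m * (t.C l).m
          ≤ ∑ l ∈ Finset.univ.erase j0, (Fintype.card J - 1) * (Fintype.card J - 1) :=
            Finset.sum_le_sum fun l _ => by
              have h5 : (t.C l).m ≤ Fintype.card J - 1 := by have := (t.C l).m_lt; omega
              exact Nat.mul_le_mul h5 h5
        _ = _ := by rw [Finset.sum_const, h3, smul_eq_mul]
    exact_mod_cast h4
  -- the sum over the terms
  have h3 : ∑ l, (t.cJ l : ℝ) * Real.log ‖D.T l z‖ ≤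
      ∑ l, (t.cJ l : ℝ) * (LK + D.δ l * F) + ∑ l, (t.cJ l : ℝ) * Real.log ‖D.V l z‖ +
      (∑ l, (D.cc t l : ℝ) * Real.log ‖D.B l z‖ +
        ∑ l, (LLs (Fintype.card J) : ℝ) * (LK + D.m l * F)) := by
    rw [← Finset.sum_add_distrib, ← Finset.sum_add_distrib, ← Finset.sum_add_distrib]
    refine Finset.sum_le_sum fun l _ => ?_
    have hA := hup (hA0 l) (D.A_le l z hz)
    have hB' := hup (hB0 l) (D.B_le l z hz)
    have hle : LLs (Fintype.card J) ≤ t.cJ l * D.N l :=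
      (D.N_ge l).trans (Nat.le_mul_of_pos_left _ (t.one_le_cJ l))
    have hcc : (D.cc t l : ℝ) = t.cJ l * D.N l - LLs (Fintype.card J) := by
      unfold cc
      rw [Nat.cast_sub hle]
      push_cast
      rfl
    have h4 := mul_le_mul_of_nonneg_left hA (Nat.cast_nonneg (t.cJ l) : (0 : ℝ) ≤ t.cJ l)
    have h5 := mul_le_mul_of_nonneg_left hB'
      (Nat.cast_nonneg (LLs (Fintype.card J)) : (0 : ℝ) ≤ LLs (Fintype.card J))
    rw [hx, hcc]
    nlinarith [h4, h5]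
  have h4 : ∑ l ∈ D.J1, Real.log ‖D.A l z‖ ≤ Real.log ‖D.A j z‖ +
      ∑ l ∈ D.J1.erase j, (LK + D.δ l * F) := by
    rw [← Finset.add_sum_erase _ _ hj]
    exact add_le_add le_rfl (Finset.sum_le_sum fun l _ => hup (hA0 l) (D.A_le l z hz))
  have hVj : Real.log ‖D.V j z‖ = 0 := by rw [D.V_one j hj z hz, norm_one, Real.log_one]
  have h5 : Real.log ‖D.T j z‖ ≥ Real.log ‖D.A j z‖ + D.N j * (D.m j * F - LK) := by
    rw [hx, hVj]
    have := mul_le_mul_of_nonneg_left hlow' (Nat.cast_nonneg (D.N j) : (0 : ℝ) ≤ D.N j)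
    linarith
  -- the exponent
  have hκ : (D.κ t : ℝ) = D.e - (∑ l ∈ D.J1, (D.δ l : ℝ) + ∑ l, (t.cJ l : ℝ) * D.δ l +
      LLs (Fintype.card J) * ∑ l, (D.m l : ℝ)) := by
    unfold κ
    rw [Nat.cast_sub (D.loss_lt t).le]
    unfold loss
    push_cast
    rfl
  have he : (D.e : ℝ) = D.δ j + D.N j * D.m j := by
    have h6 := D.deg j
    rw [D.d_zero j hj] at h6
    rw [← h6]
    push_cast
    ring
  have s1 : ∑ l, (t.cJ l : ℝ) * (LK + D.δ l * F) =
      LK * ∑ l, (t.cJ l : ℝ) + F * ∑ l, (t.cJ l : ℝ) * D.δ l := by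
    rw [Finset.mul_sum, Finset.mul_sum, ← Finset.sum_add_distrib]
    exact Finset.sum_congr rfl fun l _ => by ring
  have s2 : ∑ l, (LLs (Fintype.card J) : ℝ) * (LK + D.m l * F) =
      LK * (LLs (Fintype.card J) * Fintype.card J) +
      F * (LLs (Fintype.card J) * ∑ l, (D.m l : ℝ)) := by
    have : ∑ l : J, (LLs (Fintype.card J) : ℝ) * (LK + D.m l * F) =
        ∑ l : J, (LK * LLs (Fintype.card J) + F * (LLs (Fintype.card J) * (D.m l : ℝ))) :=
      Finset.sum_congr rfl fun l _ => by ring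
    rw [this, Finset.sum_add_distrib, Finset.sum_const, Finset.card_univ, nsmul_eq_mul,
      ← Finset.mul_sum, ← Finset.mul_sum]
    ring
  have s3 : ∑ l ∈ D.J1.erase j, (LK + D.δ l * F) ≤ LK * Fintype.card J +
      F * (∑ l ∈ D.J1, (D.δ l : ℝ) - D.δ j) := by
    have h7 : ∑ l ∈ D.J1.erase j, (LK + D.δ l * F) = (D.J1.erase j).card * LK +
        F * (∑ l ∈ D.J1, (D.δ l : ℝ) - D.δ j) := by
      rw [Finset.sum_add_distrib, Finset.sum_const, nsmul_eq_mul, ← Finset.sum_mul,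
        ← Finset.add_sum_erase _ _ hj]
      ring
    rw [h7]
    have h8 : ((D.J1.erase j).card : ℝ) ≤ Fintype.card J := by
      exact_mod_cast Finset.card_le_univ _
    have := mul_le_mul_of_nonneg_right h8 hK
    linarith
  have s4 : (D.N j : ℝ) ≤ ∑ l, (D.N l : ℝ) :=
    Finset.single_le_sum (f := fun l => (D.N l : ℝ)) (fun _ _ => Nat.cast_nonneg _)
      (Finset.mem_univ j)
  have s5 := mul_le_mul_of_nonneg_right s4 hK
  rw [s1, s2] at h3
  have hfin : (D.κ t : ℝ) * F = (D.δ j + D.N j * D.m j) * F - F * ∑ l ∈ D.J1, (D.δ l : ℝ) -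
      F * ∑ l, (t.cJ l : ℝ) * D.δ l - F * (LLs (Fintype.card J) * ∑ l, (D.m l : ℝ)) := by
    rw [hκ, he]
    ring
  rw [hfin]
  linarith [h1, h2, h3, h4, h5, s3, s5]

/-- the pointwise bound -/
theorem point_main {i0 : Fin (n + 1)} {z : ℂ} {ε B : ℝ} (hε : 0 < ε) (hε1 : ε ≤ 1) (hB : 1 ≤ B)
    (hball : closedBall z ε ⊆ Ext r0) (hcalm : CalmI (D.U i0) z ε B) (S : ℝ)
    (hS : ∃ i, ‖D.U i0 i z‖ = S) :
    ‖D.P0 t z ^ D.E‖ * S ^ D.κ t ≤ Real.exp (D.CX t) * (B / ε) ^ (D.E *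
      ((Fintype.card J - 1) * ((Fintype.card J - 1) * (Fintype.card J - 1)))) *
      ∏ i, ‖D.U i0 i z‖ ^ D.cs t i := by
  have hzm : z ∈ closedBall z ε := mem_closedBall_self hε.le
  have hz := hball hzm
  have hBε : 0 < B / ε := by positivity
  have hUz : ∀ i, 0 < ‖D.U i0 i z‖ := fun i => norm_pos_iff.mpr (hcalm.1 i z hzm)
  have hprod : 0 < ∏ i, ‖D.U i0 i z‖ ^ D.cs t i := Finset.prod_pos fun i _ => pow_pos (hUz i) _
  by_cases hP : D.P0 t z = 0
  · rw [hP, zero_pow D.E_pos.ne', norm_zero, zero_mul]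
    positivity
  have hW : ∀ l ∈ Finset.univ.erase j0, WC D.T (t.C l) z ≠ 0 :=
    Finset.prod_ne_zero_iff.1 (left_ne_zero_of_mul hP)
  have hAJ : ∀ l ∈ D.J1, D.A l z ≠ 0 := Finset.prod_ne_zero_iff.1 (right_ne_zero_of_mul hP)
  have h1 := D.point_log t hε hε1 hB hball hcalm hW
  obtain ⟨hT0, -⟩ := D.calm_T hB hcalm
  have hB0 : ∀ l, D.B l z ≠ 0 := fun l h0 => right_ne_zero_of_mul (hT0 l z hzm) (by
    rw [h0, zero_pow (by have := D.N_pos l; omega)])
  have hV0 : ∀ l, D.V l z ≠ 0 := fun l => D.V_ne l z hz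
  have hfz : 0 < ‖D.f z‖ := norm_pos_iff.2 (D.f_ne z hz)
  obtain ⟨i1, hi1⟩ := hS
  have hS0 : 0 < S := hi1 ▸ hUz i1
  have hSle : Real.log S ≤ D.E * Real.log D.K2 + D.E * Real.log ‖D.f z‖ := by
    have h2 := D.U_le i0 i1 hz
    rw [hi1] at h2
    have h3 := Real.log_le_log hS0 h2
    have hK2 := D.one_le_K2
    rwa [Real.log_mul (by positivity) (by positivity), Real.log_pow, Real.log_pow] at h3
  have hlogP : Real.log ‖D.P0 t z‖ = (∑ l ∈ Finset.univ.erase j0,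
      Real.log ‖WC D.T (t.C l) z‖) + ∑ l ∈ D.J1, Real.log ‖D.A l z‖ := by
    unfold P0
    rw [norm_mul, norm_prod, norm_prod, Real.log_mul
      (Finset.prod_ne_zero_iff.2 fun l hl => norm_ne_zero_iff.2 (hW l hl))
      (Finset.prod_ne_zero_iff.2 fun l hl => norm_ne_zero_iff.2 (hAJ l hl)),
      Real.log_prod (fun l hl => norm_ne_zero_iff.2 (hW l hl)),
      Real.log_prod (fun l hl => norm_ne_zero_iff.2 (hAJ l hl))]
  have hlogU : Real.log (∏ i, ‖D.U i0 i z‖ ^ D.cs t i) =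
      ∑ l, (D.cc t l : ℝ) * (D.m l * Real.log ‖D.pw i0 (D.B l) (D.m l) z‖) +
      ∑ l, (t.cJ l : ℝ) * (D.d l * Real.log ‖D.pw i0 (D.V l) (D.d l) z‖) := by
    rw [Real.log_prod (fun i _ => (pow_pos (hUz i) _).ne')]
    simp only [Real.log_pow]
    rw [Fintype.sum_sum_type, Fintype.sum_sum_type, Fintype.sum_sum_type]
    simp only [cs, Sum.elim_inl, Sum.elim_inr, Nat.cast_zero, zero_mul, Finset.sum_const_zero,
      zero_add, add_zero]
    congr 1
    · refine Finset.sum_congr rfl fun l _ => ?_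
      change ((D.m l * (t.cJ l * D.N l - LLs (Fintype.card J)) : ℕ) : ℝ) *
        Real.log ‖D.pw i0 (D.B l) (D.m l) z‖ = _
      unfold cc
      rw [Nat.cast_mul]
      ring
    · refine Finset.sum_congr rfl fun l _ => ?_
      change ((D.d l * t.cJ l : ℕ) : ℝ) * Real.log ‖D.pw i0 (D.V l) (D.d l) z‖ = _
      rw [Nat.cast_mul]
      ring
  have h2 : D.E * ∑ l, (D.cc t l : ℝ) * Real.log ‖D.B l z‖ ≤
      ∑ l, (D.cc t l : ℝ) * (D.m l * Real.log ‖D.pw i0 (D.B l) (D.m l) z‖) +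
      D.E * Real.log D.K * ∑ l, (D.cc t l : ℝ) := by
    rw [Finset.mul_sum, Finset.mul_sum, ← Finset.sum_add_distrib]
    refine Finset.sum_le_sum fun l _ => ?_
    have h3 := D.pw_log i0 (fun h => D.dvd_E h (D.m_le l)) (D.B_le l z hz) (hB0 l)
    have h4 := mul_le_mul_of_nonneg_left h3 (Nat.cast_nonneg (D.cc t l) : (0 : ℝ) ≤ D.cc t l)
    calc _ = (D.cc t l : ℝ) * (D.E * Real.log ‖D.B l z‖) := by ring
      _ ≤ _ := h4
      _ = _ := by ring
  have h3 : D.E * ∑ l, (t.cJ l : ℝ) * Real.log ‖D.V l z‖ ≤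
      ∑ l, (t.cJ l : ℝ) * (D.d l * Real.log ‖D.pw i0 (D.V l) (D.d l) z‖) +
      D.E * Real.log D.K * ∑ l, (t.cJ l : ℝ) := by
    rw [Finset.mul_sum, Finset.mul_sum, ← Finset.sum_add_distrib]
    refine Finset.sum_le_sum fun l _ => ?_
    have h3 := D.pw_log i0 (fun h => D.dvd_E h (D.d_le l)) (D.V_le l z hz) (hV0 l)
    have h4 := mul_le_mul_of_nonneg_left h3 (Nat.cast_nonneg (t.cJ l) : (0 : ℝ) ≤ t.cJ l)
    calc _ = (t.cJ l : ℝ) * (D.E * Real.log ‖D.V l z‖) := by ring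
      _ ≤ _ := h4
      _ = _ := by ring
  have h4 := mul_le_mul_of_nonneg_left h1 (Nat.cast_nonneg D.E : (0 : ℝ) ≤ D.E)
  have h5 := mul_le_mul_of_nonneg_left hSle (Nat.cast_nonneg (D.κ t) : (0 : ℝ) ≤ D.κ t)
  have hpos1 : 0 < ‖D.P0 t z ^ D.E‖ * S ^ D.κ t :=
    mul_pos (norm_pos_iff.2 (pow_ne_zero _ hP)) (pow_pos hS0 _)
  have hpos2 : 0 < Real.exp (D.CX t) * (B / ε) ^ (D.E *
      ((Fintype.card J - 1) * ((Fintype.card J - 1) * (Fintype.card J - 1)))) *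
      ∏ i, ‖D.U i0 i z‖ ^ D.cs t i := by positivity
  rw [← Real.log_le_log_iff hpos1 hpos2, norm_pow, Real.log_mul
    (pow_ne_zero _ (norm_ne_zero_iff.2 hP)) (pow_ne_zero _ hS0.ne'), Real.log_pow, Real.log_pow,
    Real.log_mul (by positivity) hprod.ne', Real.log_mul (by positivity) (by positivity),
    Real.log_exp, Real.log_pow, hlogP, hlogU]
  unfold CX
  rw [Nat.cast_mul D.E]
  nlinarith [h2, h3, h4, h5]

end AData

end Pool.Agent.R869
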