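import Pool.Agent.R869.BGeo

/-!
The ratios of the terms of a relation with cofactors generate the function field up to algebraic
extensions.
-/

set_option autoImplicit false

open FF MvPolynomial Pool.Agent.W603.LV Pool.Agent.W603.PV Pool.Agent.W603.GR Pool.Agent.W602.GT

namespace Pool.Agent.R869

/-- places over a larger field of constants -/
def restr {k M K : Type} [Field k] [Field M] [Field K] [Algebra k K] [Algebra M K] [Algebra k M]
    [IsScalarTower k M K] (P : Place M K) : Place k K where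
  ord := P.ord
  ord_zero := P.ord_zero
  ord_mul := P.ord_mul
  ord_add := P.ord_add
  ord_const := by
    intro c hc
    rw [IsScalarTower.algebraMap_apply k M K]
    exact P.ord_const ((map_ne_zero _).2 hc)
  surj := P.surj

variable {k K : Type} [Field k] [Field K] [Algebra k K] {n : ℕ}
  {p : Ideal (MvPolynomial (Fin (n + 1)) k)} {Q : MvPolynomial (Fin (n + 1)) k} {q : ℕ}
  {J : Type} [Fintype J]

namespace CoRel

variable (C : CoRel p Q q J)

theorem no_fiber [IsAlgClosed k] {M : Type} [Field M] [Algebra M K] [Algebra k M]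
    [IsScalarTower k M K] [CharZero M] [IsFF M K] (hp : IsHomog p) (hs : 2 ≤ Fintype.card J)
    (hN : ∀ l, C.N l ≠ 0) {y : Fin (n + 1) → K} (hy : GPt C y)
    (hconst : ∀ a b, ∃ c : M, C.T y a = algebraMap M K c * C.T y b) {i j0 : Fin (n + 1)}
    (hj0 : y j0 ≠ 0) (hg : Transcendental M (y i / y j0)) : C.e ≤ ∑ l ∈ C.J1, C.δ l := by
  classical
  by_contra hlt
  push Not at hlt
  have hT : ∀ l, C.T y l ≠ 0 := C.T_ne hs hy.no
  have hne : ∀ l, val y (C.a l) ≠ 0 ∧ val y (C.u l) ≠ 0 ∧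
      (C.N l ≠ 0 → val y (C.b l) ≠ 0) := by
    intro l
    have h1 := hT l
    rw [C.T_eq] at h1
    refine ⟨left_ne_zero_of_mul (left_ne_zero_of_mul h1),
      right_ne_zero_of_mul (left_ne_zero_of_mul h1), fun hN h0 => right_ne_zero_of_mul h1 ?_⟩
    rw [h0, zero_pow hN]
  have hi : y i ≠ 0 := by
    intro h0
    rw [h0, zero_div] at hg
    exact hg (isAlgebraic_zero)
  obtain ⟨l0⟩ : Nonempty J := Fintype.card_pos_iff.1 (by omega)
  obtain ⟨S, hS⟩ := exists_supp (k := M) (Finset.univ : Finset (Fin (n + 1) ⊕ (J ⊕ J)))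
    (Sum.elim y (Sum.elim (C.T y) (fun l => val y (C.a l))))
  have hS1 : ∀ i, ∀ P : Place M K, P.ord (y i) ≠ 0 → P ∈ S := fun i P hP =>
    hS (Sum.inl i) (Finset.mem_univ _) P hP
  have hS2 : ∀ l, ∀ P : Place M K, P.ord (C.T y l) ≠ 0 → P ∈ S := fun i P hP =>
    hS (Sum.inr (Sum.inl i)) (Finset.mem_univ _) P hP
  have hS3 : ∀ l, ∀ P : Place M K, P.ord (val y (C.a l)) ≠ 0 → P ∈ S := fun i P hP =>
    hS (Sum.inr (Sum.inr i)) (Finset.mem_univ _) P hP
  have hmin := fun P : Place M K => exists_min (restr (k := k) P) hy.ne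
  choose i0 h0 hmin using hmin
  have hmin' : ∀ (P : Place M K) (i : Fin (n + 1)), y i ≠ 0 → P.ord (y (i0 P)) ≤ P.ord (y i) :=
    fun P i hi => hmin P i hi
  have hTT : ∀ (P : Place M K) (a b : J), P.ord (C.T y a) = P.ord (C.T y b) := by
    intro P a b
    obtain ⟨c, hc⟩ := hconst a b
    have hc0 : c ≠ 0 := by
      rintro rfl
      rw [map_zero, zero_mul] at hc
      exact hT a hc
    rw [hc, P.ord_mul ((map_ne_zero _).2 hc0) (hT b), P.ord_const hc0, zero_add]
  have hkey : ∀ P : Place M K, P.ord (C.T y l0) - C.e * P.ord (y (i0 P)) ≤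
      ∑ l ∈ C.J1, (P.ord (val y (C.a l)) - C.δ l * P.ord (y (i0 P))) := by
    intro P
    obtain ⟨l, hl, hb⟩ := C.base_ord hp hy.mem (fun l => (hne l).2.2 (hN l)) (restr (k := k) P)
      (h0 P) (hmin P)
    have hb : P.ord (val y (C.b l)) = C.m l * P.ord (y (i0 P)) := hb
    rw [hTT P l0 l]
    have hul : val y (C.u l) = 1 := by
      rw [C.one l hl]
      unfold val
      rw [map_one]
    have h1 : P.ord (C.T y l) = P.ord (val y (C.a l)) + C.N l * (C.m l * P.ord (y (i0 P))) := by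
      rw [C.T_eq, hul, mul_one, P.ord_mul (hne l).1 (pow_ne_zero _ ((hne l).2.2 (hN l))),
        P.ord_pow, hb]
    have hd : C.d l = 0 := by
      have h2 := C.homu l
      rw [C.one l hl] at h2
      have h3 := isHomogeneous_one (Fin (n + 1)) k
      exact (IsHomogeneous.inj_right h2 h3 one_ne_zero)
    have he : (C.e : ℤ) = C.δ l + C.N l * C.m l := by
      rw [← C.deg l, hd]
      push_cast
      ring
    rw [h1, he]
    have h5 : ∀ l ∈ C.J1, 0 ≤ P.ord (val y (C.a l)) - C.δ l * P.ord (y (i0 P)) := by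
      intro l _
      have := ord_form (restr (k := k) P) (h0 P) (hmin P) (C.homa l) (hne l).1
      have h6 : (C.δ l : ℤ) * P.ord (y (i0 P)) ≤ P.ord (val y (C.a l)) := this
      linarith
    have h7 := Finset.single_le_sum h5 hl
    linarith
  -- the sum over all places
  have hdeg : ∀ P : Place M K, (0 : ℤ) < P.deg := fun P => by exact_mod_cast P.deg_pos
  have hsum := Finset.sum_le_sum (s := S) fun P _ =>
    mul_le_mul_of_nonneg_right (hkey P) (hdeg P).le
  have e1 : ∑ P ∈ S, (P.ord (C.T y l0) - C.e * P.ord (y (i0 P))) * (P.deg : ℤ) =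
      - C.e * ∑ P ∈ S, P.ord (y (i0 P)) * (P.deg : ℤ) := by
    have h1 : ∑ P ∈ S, (P.ord (C.T y l0) - C.e * P.ord (y (i0 P))) * (P.deg : ℤ) =
        ∑ P ∈ S, P.ord (C.T y l0) * (P.deg : ℤ) +
          - C.e * ∑ P ∈ S, P.ord (y (i0 P)) * (P.deg : ℤ) := by
      rw [Finset.mul_sum, ← Finset.sum_add_distrib]
      exact Finset.sum_congr rfl fun P _ => by ring
    rw [h1, product_formula (hT l0) S (hS2 l0), zero_add]
  have e2 : ∑ P ∈ S, (∑ l ∈ C.J1, (P.ord (val y (C.a l)) - C.δ l * P.ord (y (i0 P)))) *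
      (P.deg : ℤ) = - (∑ l ∈ C.J1, C.δ l : ℕ) * ∑ P ∈ S, P.ord (y (i0 P)) * (P.deg : ℤ) := by
    have h1 : ∀ l ∈ C.J1, ∑ P ∈ S, (P.ord (val y (C.a l)) - C.δ l * P.ord (y (i0 P))) *
        (P.deg : ℤ) = - (C.δ l : ℤ) * ∑ P ∈ S, P.ord (y (i0 P)) * (P.deg : ℤ) := by
      intro l _
      have h1 : ∑ P ∈ S, (P.ord (val y (C.a l)) - C.δ l * P.ord (y (i0 P))) * (P.deg : ℤ) =
          ∑ P ∈ S, P.ord (val y (C.a l)) * (P.deg : ℤ) +
            - (C.δ l : ℤ) * ∑ P ∈ S, P.ord (y (i0 P)) * (P.deg : ℤ) := by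
        rw [Finset.mul_sum, ← Finset.sum_add_distrib]
        exact Finset.sum_congr rfl fun P _ => by ring
      rw [h1, product_formula (hne l).1 S (hS3 l), zero_add]
    have h2 : ∑ P ∈ S, (∑ l ∈ C.J1, (P.ord (val y (C.a l)) - C.δ l * P.ord (y (i0 P)))) *
        (P.deg : ℤ) = ∑ l ∈ C.J1, ∑ P ∈ S,
        (P.ord (val y (C.a l)) - C.δ l * P.ord (y (i0 P))) * (P.deg : ℤ) := by
      rw [Finset.sum_comm]
      exact Finset.sum_congr rfl fun P _ => by rw [Finset.sum_mul]
    rw [h2, Finset.sum_congr rfl h1, ← Finset.sum_mul, Finset.sum_neg_distrib]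
    push_cast
    ring
  rw [e1, e2] at hsum
  -- the height is positive
  obtain ⟨P1, hP1⟩ := exists_pole hg
  rw [P1.ord_div hi hj0] at hP1
  have hP1S : P1 ∈ S := by
    by_contra hcon
    have h1 : P1.ord (y i) = 0 := by
      by_contra h
      exact hcon (hS1 i P1 h)
    have h2 : P1.ord (y j0) = 0 := by
      by_contra h
      exact hcon (hS1 j0 P1 h)
    omega
  have h8 : ∑ P ∈ S, P.ord (y (i0 P)) * (P.deg : ℤ) < 0 := by
    rw [← product_formula hj0 S (hS1 j0)]
    refine Finset.sum_lt_sum (fun P _ => mul_le_mul_of_nonneg_right (hmin' P j0 hj0) (hdeg P).le)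
      ⟨P1, hP1S, mul_lt_mul_of_pos_right ?_ (hdeg P1)⟩
    have := hmin' P1 i hi
    omega
  have h9 : ((∑ l ∈ C.J1, C.δ l : ℕ) : ℤ) < C.e := by exact_mod_cast hlt
  nlinarith

end CoRel

end Pool.Agent.R869
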