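import Pool.Agent.R869.CoDefs
import Pool.Agent.W602.GT.Core
import Pool.Agent.W602.GT.Sys

/-!
Pluricanonical forms from trees of minimal relations.
-/

set_option autoImplicit false

open FF Pool.Agent.W603.LV Pool.Agent.W602.GT

namespace Pool.Agent.R869

variable {k K : Type} [Field k] [Field K] [Algebra k K] {J : Type}

/-- the members of a minimal relation -/
def cmem {T : J → K} (C : Circ k T) (i : Fin (C.m + 1)) : K := C.c i • T (C.e i)

/-- the Wronskian of a minimal relation -/
noncomputable def WK (E : Derivation k K K) {T : J → K} (C : Circ k T) : K :=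
  wr E (fun l => cmem C ((Fin.last C.m).succAbove l))

theorem tri_cast (m : ℕ) : Pool.Agent.W603.LV.tri m = (tri m : ℤ) := by
  unfold Pool.Agent.W603.LV.tri tri
  push_cast
  rfl

theorem cmem_sum {T : J → K} (C : Circ k T) : ∑ i, cmem C i = 0 := C.rel

theorem ord_cmem (P : Place k K) {T : J → K} (C : Circ k T) (i : Fin (C.m + 1)) :
    P.ord (cmem C i) = P.ord (T (C.e i)) := ord_smul' P (C.c_ne i) _

theorem WK_any {P : Place k K} {E : Derivation k K K} {T : J → K} (C : Circ k T)
    (i : Fin (C.m + 1)) {r : ℤ} (h : Ge P r (wr E (fun l => cmem C (i.succAbove l)))) :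
    Ge P r (WK E C) := by
  unfold WK
  rcases wr_succAbove E (cmem C) (cmem_sum C) (Fin.last C.m) i with h1 | h1
  · rw [h1]; exact h
  · rw [h1]; exact h.neg

theorem WK_log {P : Place k K} {E : Derivation k K K} {ε : ℤ}
    (hE : ∀ x : K, x ≠ 0 → Ge P (-ε) (E x / x)) {T : J → K} (C : Circ k T)
    (i : Fin (C.m + 1)) :
    Ge P (∑ b, P.ord (T (C.e (i.succAbove b))) - ε * tri C.m) (WK E C) := by
  have h1 := WK_any C i (wr_log hE (fun l => cmem C (i.succAbove l)))
  rw [Finset.sum_congr rfl fun b _ => ord_cmem P C (i.succAbove b), tri_cast] at h1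
  exact h1

theorem WK_reg {P : Place k K} {E : Derivation k K K} (hE : DerReg P E) {T : J → K} {c0 : K}
    (hc0 : c0 ≠ 0) (hT : ∀ j, P.ord (T j) = P.ord c0) (C : Circ k T) (i : Fin (C.m + 1)) :
    Ge P (∑ b, P.ord (T (C.e (i.succAbove b)))) (WK E C) := by
  apply WK_any C i
  have h0 : (fun l => cmem C (i.succAbove l)) = fun l => c0 * (cmem C (i.succAbove l) / c0) := by
    funext l
    field_simp
  have h1 : wr E (fun l => cmem C (i.succAbove l)) = c0 ^ C.m *
      wr E (fun l => cmem C (i.succAbove l) / c0) := by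
    rw [h0]
    have h2 := wr_change E 1 c0 (fun l => cmem C (i.succAbove l) / c0)
    rw [one_smul] at h2
    rw [h2]
    simp
  have h2 : Ge P 0 (wr E (fun l => cmem C (i.succAbove l) / c0)) := by
    apply wr_reg hE
    intro l
    have h3 := ge_div hc0 (ge_ord P (cmem C (i.succAbove l)))
    rw [ord_cmem, hT, sub_self] at h3
    exact h3
  rw [h1]
  have h4 := ((ge_ord P c0).pow C.m).mul h2
  refine h4.mono (le_of_eq ?_)
  rw [Finset.sum_congr rfl fun b _ => hT _]
  simp

theorem WK_smul (δ : K) (D : Derivation k K K) {T : J → K} (C : Circ k T) :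
    WK (δ • D) C = δ ^ tri C.m * WK D C := by
  unfold WK
  have h2 := wr_change D δ 1 (fun l => cmem C ((Fin.last C.m).succAbove l))
  simp only [one_mul, mul_one] at h2
  rw [h2, Finset.prod_pow_eq_pow_sum]
  rfl

theorem WK_ne {D : Derivation k K K} (hc : ∀ h, D h = 0 → ∃ c : k, h = algebraMap k K c)
    {T : J → K} (C : Circ k T) : WK D C ≠ 0 := wr_ne hc _ C.li

variable [Fintype J] [DecidableEq J] {T : J → K} {j0 : J} (t : Tree k T j0)

/-- the product of the Wronskians -/
noncomputable def FK (E : Derivation k K K) : K := ∏ l ∈ Finset.univ.erase j0, WK E (t.C l)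

/-- the weight -/
def wtT : ℕ := ∑ l ∈ Finset.univ.erase j0, tri (t.C l).m

theorem FK_smul (δ : K) (D : Derivation k K K) : FK t (δ • D) = δ ^ wtT t * FK t D := by
  unfold FK wtT
  rw [Finset.prod_congr rfl fun l _ => WK_smul δ D (t.C l), Finset.prod_mul_distrib,
    Finset.prod_pow_eq_pow_sum]

theorem FK_ne {D : Derivation k K K} (hc : ∀ h, D h = 0 → ∃ c : k, h = algebraMap k K c) :
    FK t D ≠ 0 := Finset.prod_ne_zero_iff.2 fun l _ => WK_ne hc (t.C l)

/-- the order of the product of the Wronskians -/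
theorem FK_ge {P : Place k K} {E : Derivation k K K} {ε : ℤ}
    (h : ∀ l (i : Fin ((t.C l).m + 1)),
      Ge P (∑ b, P.ord (T ((t.C l).e (i.succAbove b))) - ε * tri (t.C l).m) (WK E (t.C l)))
    (j : J) : Ge P (∑ i, (t.cJ i : ℤ) * P.ord (T i) - P.ord (T j) - ε * wtT t) (FK t E) := by
  by_cases h0 : FK t E = 0
  · exact Or.inl h0
  have hW : ∀ l ∈ Finset.univ.erase j0, WK E (t.C l) ≠ 0 := Finset.prod_ne_zero_iff.1 h0
  right
  unfold FK
  rw [ord_prod' P _ _ hW]
  have h1 := t.main (α := ℤ) (fun l => - P.ord (T l))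
    (fun l => -(P.ord (WK E (t.C l)) + ε * tri (t.C l).m)) (fun l hl i => by
      have h2 := (h l i).resolve_left (hW l (Finset.mem_erase.2 ⟨hl, Finset.mem_univ l⟩))
      rw [Finset.sum_neg_distrib, neg_le_neg_iff]
      linarith) j
  rw [← t.sum_cJ (R := ℤ) fun l => - P.ord (T l), Finset.sum_neg_distrib,
    Finset.sum_add_distrib, ← Finset.mul_sum] at h1
  have h2 : ∑ i, (t.cJ i : ℤ) * -P.ord (T i) = - ∑ i, (t.cJ i : ℤ) * P.ord (T i) := by
    rw [← Finset.sum_neg_distrib]
    exact Finset.sum_congr rfl fun i _ => by ring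
  have h3 : ((wtT t : ℕ) : ℤ) = ∑ l ∈ Finset.univ.erase j0, (tri (t.C l).m : ℤ) := by
    unfold wtT
    push_cast
    rfl
  rw [h2] at h1
  rw [h3]
  linarith

end Pool.Agent.R869
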