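import Pool.Agent.W603.LV.Hgt

/-!
Function fields in one variable inside a finitely generated field, and the product formula.
-/

set_option autoImplicit false

open FF Module IntermediateField Pool.Agent.W603.LV

namespace Pool.Agent.R869

/-- A field with a transcendental element is a function field in one variable over a subfield over
which the element is transcendental. -/
theorem exists_one_dim {F K : Type} [Field F] [Field K] [Algebra F K]
    (hfg : Algebra.EssFiniteType F K) {g : K} (hg : Transcendental F g) :
    ∃ M : IntermediateField F K, Transcendental M g ∧ IsFF M K := by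
  classical
  have h1 : AlgebraicIndepOn F id ({g} : Set K) := by
    unfold AlgebraicIndepOn
    have : Subsingleton ({g} : Set K) := Set.subsingleton_singleton.coe_sort
    rw [algebraicIndependent_singleton_iff (⟨g, rfl⟩ : ({g} : Set K))]
    exact hg
  obtain ⟨B, hgB, hB⟩ := exists_isTranscendenceBasis_superset h1
  have hgB' : g ∈ B := hgB rfl
  set s : Set K := B \ {g} with hs
  set M : IntermediateField F K := IntermediateField.adjoin F s with hM
  have h2 : Transcendental (Algebra.adjoin F s) g := by
    have h3 := hB.1.transcendental_adjoin (s := {b : B | (b : K) ≠ g}) (i := ⟨g, hgB'⟩)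
      (by simp)
    have h4 : ((↑) : B → K) '' {b : B | (b : K) ≠ g} = s := by
      ext x
      simp only [Set.mem_image, Set.mem_ofPred_eq, Subtype.exists, hs, Set.mem_sdiff,
        Set.mem_singleton_iff]
      constructor
      · rintro ⟨a, ha, h5, rfl⟩
        exact ⟨ha, h5⟩
      · rintro ⟨h5, h6⟩
        exact ⟨x, h5, h6, rfl⟩
    rw [h4] at h3
    exact h3
  have h3 : Transcendental M g := by
    open scoped IntermediateField.algebraAdjoinAdjoin in
    exact fun h => h2 ((IsFractionRing.isAlgebraic_iff (Algebra.adjoin F s) M K).2 h)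
  refine ⟨M, h3, IsFF.of_finite h3 ?_⟩
  have h4 : Algebra.IsAlgebraic (IntermediateField.adjoin F B) K := by
    have := hB.isAlgebraic_field
    rwa [Subtype.range_coe] at this
  have h5 : ∀ x ∈ IntermediateField.adjoin F B, x ∈ M⟮g⟯ := by
    intro x hx
    have h6 : IntermediateField.adjoin F B ≤ (M⟮g⟯).restrictScalars F := by
      rw [IntermediateField.adjoin_le_iff]
      intro b hb
      by_cases hbg : b = g
      · rw [hbg]
        exact IntermediateField.mem_adjoin_simple_self M g
      · have h7 : b ∈ M := IntermediateField.subset_adjoin F s ⟨hb, hbg⟩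
        exact (M⟮g⟯).algebraMap_mem ⟨b, h7⟩
    exact h6 hx
  have h6 : Algebra.IsAlgebraic M⟮g⟯ K := by
    refine ⟨fun x => ?_⟩
    obtain ⟨P, hP0, hP⟩ := h4.isAlgebraic x
    let j : IntermediateField.adjoin F B →+* M⟮g⟯ :=
      { toFun := fun a => ⟨a, h5 a a.2⟩
        map_one' := rfl
        map_mul' := fun _ _ => rfl
        map_zero' := rfl
        map_add' := fun _ _ => rfl }
    refine ⟨P.map j, (Polynomial.map_ne_zero_iff j.injective).2 hP0, ?_⟩
    rw [Polynomial.aeval_def, Polynomial.eval₂_map]
    exact hP
  have h7' : Algebra.EssFiniteType M K := Algebra.EssFiniteType.of_comp F M K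
  have h7 : Algebra.EssFiniteType M⟮g⟯ K := Algebra.EssFiniteType.of_comp M M⟮g⟯ K
  obtain ⟨S, hS⟩ := IntermediateField.fg_top M⟮g⟯ K
  have h8 : FiniteDimensional M⟮g⟯ (IntermediateField.adjoin M⟮g⟯ (S : Set K)) :=
    IntermediateField.finiteDimensional_adjoin (fun x _ => (h6.isAlgebraic x).isIntegral)
  rw [hS] at h8
  exact IntermediateField.topEquiv.toLinearEquiv.finiteDimensional

variable {M K : Type} [Field M] [Field K] [Algebra M K] [CharZero M] [IsFF M K]

/-- the product formula -/
theorem product_formula {f : K} (hf : f ≠ 0) (S : Finset (Place M K))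
    (hS : ∀ P : Place M K, P.ord f ≠ 0 → P ∈ S) : ∑ P ∈ S, P.ord f * P.deg = 0 := by
  classical
  by_cases hfa : Transcendental M f
  · obtain ⟨S1, h1, -, h2⟩ := zeros hfa
    obtain ⟨S2, h3, h4⟩ := poles hfa
    have e1 : ∑ P ∈ S, (P.ord f).toNat * P.deg = ∑ w ∈ S1, (w.ord f).toNat * w.deg := by
      symm
      apply Finset.sum_subset
      · intro P hP
        exact hS P ((h1 P).1 hP).ne'
      · intro P _ hP
        rw [h1] at hP
        rw [Int.toNat_of_nonpos (not_lt.1 hP), zero_mul]
    have e2 : ∑ P ∈ S, (-P.ord f).toNat * P.deg = ∑ w ∈ S2, (-w.ord f).toNat * w.deg := by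
      symm
      apply Finset.sum_subset
      · intro P hP
        exact hS P ((h3 P).1 hP).ne
      · intro P _ hP
        rw [h3] at hP
        rw [Int.toNat_of_nonpos (by omega), zero_mul]
    have e3 : ∀ P : Place M K, P.ord f * P.deg =
        (((P.ord f).toNat * P.deg : ℕ) : ℤ) - (((-P.ord f).toNat * P.deg : ℕ) : ℤ) := by
      intro P
      push_cast
      rw [← sub_mul]
      congr 1
      omega
    rw [Finset.sum_congr rfl fun P _ => e3 P, Finset.sum_sub_distrib, ← Nat.cast_sum,
      ← Nat.cast_sum, e1, e2, h2, h4, sub_self]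
  · have h1 : IsAlgebraic M f := by simpa [Transcendental] using hfa
    exact Finset.sum_eq_zero fun P _ => by
      rw [P.ord_eq_zero_of_isAlgebraic hf h1, zero_mul]

/-- transcendental elements have poles -/
theorem exists_pole {f : K} (hf : Transcendental M f) : ∃ P : Place M K, P.ord f < 0 := by
  obtain ⟨S2, h3, h4⟩ := poles hf
  have h5 := IsFF.finite hf
  have h6 : 0 < finrank M⟮f⟯ K := Module.finrank_pos
  rw [← h4] at h6
  obtain ⟨P, hP, -⟩ := Finset.exists_ne_zero_of_sum_ne_zero h6.ne'
  exact ⟨P, (h3 P).1 hP⟩

end Pool.Agent.R869
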