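import Pool.Agent.R869.BCirc
import Pool.Agent.R869.OneDim
import Mathlib.RingTheory.Nullstellensatz

/-!
The terms of a relation with cofactors at a point with coordinates in a field.
-/

set_option autoImplicit false

open FF MvPolynomial Pool.Agent.W603.LV Pool.Agent.W603.PV Pool.Agent.W603.GR Pool.Agent.W602.GT

namespace Pool.Agent.R869

variable {k K : Type} [Field k] [Field K] [Algebra k K] {n : ℕ}
  {p : Ideal (MvPolynomial (Fin (n + 1)) k)} {Q : MvPolynomial (Fin (n + 1)) k} {q : ℕ}
  {J : Type} [Fintype J]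

/-- `y` is a point of the quasi-projective variety off the exceptional set of the relation -/
structure GPt (C : CoRel p Q q J) (y : Fin (n + 1) → K) : Prop where
  ne : y ≠ 0
  mem : ∀ H ∈ p, val y H = 0
  off : val y Q ≠ 0
  no : val y C.R ≠ 0

theorem val_scale_mem (hp : IsHomog p) {y : Fin (n + 1) → K} (hy : ∀ H ∈ p, val y H = 0) (c : K)
    {H : MvPolynomial (Fin (n + 1)) k} (hH : H ∈ p) : val (fun j => c * y j) H = 0 := by
  unfold val
  rw [aeval_scale_sum]
  exact Finset.sum_eq_zero fun d _ => by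
    have h1 := hy _ (hp H hH d)
    unfold val at h1
    rw [h1, mul_zero]

namespace CoRel

variable (C : CoRel p Q q J)

theorem mem_of_base [IsAlgClosed k] (i : Fin (n + 1)) :
    ∃ M : ℕ, (X i : MvPolynomial (Fin (n + 1)) k) ^ M ∈ p ⊔ Ideal.span (C.b '' C.J1) := by
  have h1 : (X i : MvPolynomial (Fin (n + 1)) k) ∈
      vanishingIdeal k (zeroLocus k (p ⊔ Ideal.span (C.b '' C.J1))) := by
    intro x hx
    rw [aeval_X]
    by_contra h0
    have hx0 : x ≠ 0 := fun h => h0 (by rw [h]; rfl)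
    have h2 : ∀ H ∈ p ⊔ Ideal.span (C.b '' C.J1), eval x H = 0 := fun H hH => by
      have h3 := hx H hH
      rw [← h3, ← MvPolynomial.coe_aeval_eq_eval]
      rfl
    obtain ⟨l, hl, h3⟩ := C.base x hx0 fun H hH => h2 H (Ideal.mem_sup_left hH)
    exact h3 (h2 _ (Ideal.mem_sup_right (Ideal.subset_span ⟨l, hl, rfl⟩)))
  rw [vanishingIdeal_zeroLocus_eq_radical] at h1
  exact h1

theorem base_ord [IsAlgClosed k] (hp : IsHomog p) {y : Fin (n + 1) → K}
    (hy : ∀ H ∈ p, val y H = 0) (hb : ∀ l, val y (C.b l) ≠ 0) (P : Place k K)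
    {i0 : Fin (n + 1)} (h0 : y i0 ≠ 0) (hmin : ∀ i, y i ≠ 0 → P.ord (y i0) ≤ P.ord (y i)) :
    ∃ l ∈ C.J1, P.ord (val y (C.b l)) = C.m l * P.ord (y i0) := by
  by_contra hcon
  push Not at hcon
  set y' : Fin (n + 1) → K := fun j => (y i0)⁻¹ * y j with hy'
  have hreg : ∀ i, P.Reg (y' i) := by
    intro i
    by_cases hi : y i = 0
    · left
      simp only [hy']
      rw [hi, mul_zero]
    · right
      simp only [hy']
      rw [P.ord_mul (inv_ne_zero h0) hi, P.ord_inv]
      linarith [hmin i hi]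
  have hb' : ∀ l ∈ C.J1, Ge P 1 (val y' (C.b l)) := by
    intro l hl
    right
    have e1 : val y' (C.b l) = (y i0)⁻¹ ^ C.m l * val y (C.b l) := by
      unfold val
      rw [hy', aeval_scale (C.homb l)]
    have h2 := ord_form P h0 hmin (C.homb l) (hb l)
    have h3 := hcon l hl
    rw [e1, P.ord_mul (pow_ne_zero _ (inv_ne_zero h0)) (hb l), P.ord_pow, P.ord_inv]
    have h4 : (C.m l : ℤ) * P.ord (y i0) < P.ord (val y (C.b l)) := lt_of_le_of_ne h2 (Ne.symm h3)
    linarith
  obtain ⟨M, hM⟩ := C.mem_of_base i0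
  have h5 : ∀ z ∈ Ideal.span (C.b '' C.J1), Ge P 1 (val y' z) := by
    intro z hz
    induction hz using Submodule.span_induction with
    | mem z hz =>
      obtain ⟨l, hl, rfl⟩ := hz
      exact hb' l hl
    | zero =>
      unfold val
      rw [map_zero]
      exact Ge.zero
    | add a b _ _ h1 h2 =>
      have e : val y' (a + b) = val y' a + val y' b := map_add _ _ _
      rw [e]
      exact h1.add h2
    | smul c z _ h1 =>
      have e : val y' (c • z) = aeval y' c * val y' z := map_mul _ _ _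
      rw [e]
      have h2 : Ge P 0 (aeval y' c) := reg_aeval P hreg c
      simpa using h2.mul h1
  obtain ⟨h, hh, z, hz, hsum⟩ := Submodule.mem_sup.1 hM
  have h6 := h5 z hz
  have h7 : val y' z = 1 := by
    have h8 : val y' h = 0 := val_scale_mem hp hy _ hh
    have h9 : val y' z = val y' ((X i0 : MvPolynomial (Fin (n + 1)) k) ^ M) := by
      have e : val y' (h + z) = val y' h + val y' z := map_add _ _ _
      rw [← hsum, e, h8, zero_add]
    rw [h9]
    unfold val
    rw [map_pow, aeval_X]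
    simp only [hy']
    rw [inv_mul_cancel₀ h0, one_pow]
  rw [h7] at h6
  rcases h6 with h6 | h6
  · exact one_ne_zero h6
  · rw [P.ord_one] at h6
    omega

/-- the order of the units -/
theorem unit_ord {y : Fin (n + 1) → K} (hy : ∀ H ∈ p, val y H = 0) (hQ : Q.IsHomogeneous q)
    (hoff : val y Q ≠ 0) (P : Place k K) (hP : ¬ OffQ Q q y P)
    {i0 : Fin (n + 1)} (h0 : y i0 ≠ 0) (hmin : ∀ i, y i ≠ 0 → P.ord (y i0) ≤ P.ord (y i)) (l : J) :
    P.ord (val y (C.u l)) = C.d l * P.ord (y i0) := by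
  unfold OffQ at hP
  push Not at hP
  have hQo : P.ord (val y Q) = q * P.ord (y i0) :=
    le_antisymm (hP i0 h0) (ord_form P h0 hmin hQ hoff)
  obtain ⟨χ, c, r, hχ, hc, hu⟩ := C.unit l
  have hu' : val y (C.u l) * val y χ = val y Q ^ r := by
    have h2 := hy _ hu
    unfold val at h2 ⊢
    rw [map_sub, map_mul, map_pow] at h2
    exact sub_eq_zero.1 h2
  have hune : val y (C.u l) * val y χ ≠ 0 := by
    rw [hu']
    exact pow_ne_zero _ hoff
  have h3 : P.ord (val y (C.u l)) + P.ord (val y χ) = r * (q * P.ord (y i0)) := by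
    rw [← P.ord_mul (left_ne_zero_of_mul hune) (right_ne_zero_of_mul hune), hu', P.ord_pow, hQo]
  have h4 := ord_form P h0 hmin (C.homu l) (left_ne_zero_of_mul hune)
  have h5 := ord_form P h0 hmin hχ (right_ne_zero_of_mul hune)
  have h6 : ((C.d l : ℤ) + c) * P.ord (y i0) = r * (q * P.ord (y i0)) := by
    have h7 : ((C.d l : ℤ) + c) = r * q := by exact_mod_cast hc
    rw [h7]
    ring
  linarith

/-- the values of the terms -/
noncomputable def T (y : Fin (n + 1) → K) (l : J) : K := val y (C.term l)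

theorem T_eq (y : Fin (n + 1) → K) (l : J) :
    C.T y l = val y (C.a l) * val y (C.u l) * val y (C.b l) ^ C.N l := by
  unfold T term val
  rw [map_mul, map_mul, map_pow]

theorem T_sum {y : Fin (n + 1) → K} (hy : ∀ H ∈ p, val y H = 0) : ∑ l, C.T y l = 0 := by
  have h1 := hy _ C.rel
  unfold val at h1
  rw [map_sum] at h1
  exact h1

theorem T_no {y : Fin (n + 1) → K} (hR : val y C.R ≠ 0) (S : Finset J) (hS : S.Nonempty)
    (hS' : S ≠ Finset.univ) : ∑ l ∈ S, C.T y l ≠ 0 := by
  classical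
  intro h0
  apply hR
  unfold R val
  rw [map_prod]
  refine Finset.prod_eq_zero (i := S)
    (by rw [Finset.mem_filter]; exact ⟨Finset.mem_univ _, hS, hS'⟩) ?_
  rw [map_sum]
  exact h0

theorem T_ne (hs : 2 ≤ Fintype.card J) {y : Fin (n + 1) → K} (hR : val y C.R ≠ 0) (l : J) :
    C.T y l ≠ 0 := by
  classical
  have h1 := C.T_no hR {l} (Finset.singleton_nonempty l) (by
    intro h
    have h2 := congrArg Finset.card h
    rw [Finset.card_singleton, Finset.card_univ] at h2
    omega)
  rwa [Finset.sum_singleton] at h1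

theorem R_notMem [p.IsPrime] : C.R ∉ p := by
  classical
  unfold R
  intro h
  rw [Ideal.IsPrime.prod_mem_iff] at h
  obtain ⟨S, hS, hS2⟩ := h
  rw [Finset.mem_filter] at hS
  exact C.no S hS.2.1 hS.2.2 hS2

theorem R_hom : ∃ c, (C.R).IsHomogeneous c := by
  classical
  have h1 : ∀ l, (C.term l).IsHomogeneous C.e := fun l => by
    have := ((C.homa l).mul (C.homu l)).mul ((C.homb l).pow (C.N l))
    unfold term
    rwa [mul_comm (C.m l), C.deg l] at this
  unfold R
  exact ⟨_, IsHomogeneous.prod _ _ (fun _ => C.e) fun S _ =>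
    IsHomogeneous.sum _ _ _ fun l _ => h1 l⟩

end CoRel

end Pool.Agent.R869
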