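import Pool.Agent.R869.BAlt

/-!
The ratios of the terms of a relation with cofactors generate the function field up to algebraic
extensions: conclusion.
-/

set_option autoImplicit false

open FF MvPolynomial Pool.Agent.W603.LV Pool.Agent.W603.PV Pool.Agent.W603.GR Pool.Agent.W602.GT

namespace Pool.Agent.R869

variable {k K : Type} [Field k] [Field K] [Algebra k K] {n : ℕ}
  {p : Ideal (MvPolynomial (Fin (n + 1)) k)} {Q : MvPolynomial (Fin (n + 1)) k} {q : ℕ}
  {J : Type} [Fintype J]

theorem exists_transc {y : Fin (n + 1) → K} (hgen : Algebra.IsAlgebraic (coords k y) K)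
    (F : IntermediateField k K) (hF : ¬ Algebra.IsAlgebraic F K) :
    ∃ i j, y j ≠ 0 ∧ Transcendental F (y i / y j) := by
  by_contra hcon
  push Not at hcon
  apply hF
  let A := algebraicClosure F K
  have h1 : coords k y ≤ A.restrictScalars k := by
    unfold coords
    rw [IntermediateField.adjoin_le_iff]
    rintro _ ⟨i, j, hj, rfl⟩
    have h2 := hcon i j hj
    have h3 : IsAlgebraic F (y i / y j) := by
      by_contra h
      exact h2 h
    exact mem_algebraicClosure_iff.2 h3
  have h2 : Algebra.IsAlgebraic (A.restrictScalars k) K := alg_mono h1 hgen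
  have h3 : Algebra.IsAlgebraic A K := h2
  have h4 : Algebra.IsAlgebraic F A := algebraicClosure.isAlgebraic F K
  exact Algebra.IsAlgebraic.trans F A K

namespace CoRel

variable (C : CoRel p Q q J)

/-- the ratios of the terms -/
def rts (y : Fin (n + 1) → K) : Set K := {x | ∃ a b : J, x = C.T y a / C.T y b}

theorem rts_alg [IsAlgClosed k] [CharZero k] (hp : IsHomog p) (hs : 2 ≤ Fintype.card J)
    (hN : ∀ l, C.N l ≠ 0) (hbig : ∑ l ∈ C.J1, C.δ l < C.e) {y : Fin (n + 1) → K} (hy : GPt C y)
    (hgen : Algebra.IsAlgebraic (coords k y) K) (hfg : Algebra.EssFiniteType k K) :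
    Algebra.IsAlgebraic (IntermediateField.adjoin k (C.rts y)) K := by
  by_contra halg
  set F := IntermediateField.adjoin k (C.rts y) with hF
  obtain ⟨i, j0, hj0, hg⟩ := exists_transc hgen F halg
  have h1 : Algebra.EssFiniteType F K := Algebra.EssFiniteType.of_comp k F K
  obtain ⟨M, hM1, hM2⟩ := exists_one_dim h1 hg
  have hchar : CharZero M := charZero_of_injective_algebraMap (algebraMap k M).injective
  have hT := C.T_ne hs hy.no
  have htow : IsScalarTower k M K := IsScalarTower.of_algebraMap_eq fun x => rfl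
  have h2 := C.no_fiber (M := M) hp hs hN hy (fun a b => by
    have h3 : C.T y a / C.T y b ∈ F := IntermediateField.subset_adjoin k _ ⟨a, b, rfl⟩
    refine ⟨algebraMap F M ⟨_, h3⟩, ?_⟩
    have h4 : algebraMap M K (algebraMap F M ⟨_, h3⟩) = C.T y a / C.T y b := rfl
    rw [h4, div_mul_cancel₀ _ (hT b)]) hj0 hM1
  omega

end CoRel

end Pool.Agent.R869
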