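import Pool.Agent.R869.BMain

/-!
Varieties with a relation with cofactors are of log general type off the exceptional set: the
conclusion.
-/

set_option autoImplicit false

open FF MvPolynomial Pool.Agent.W603.LV Pool.Agent.W603.PV Pool.Agent.W603.GR Pool.Agent.W602.GT

namespace Pool.Agent.R869

variable {k K : Type} [Field k] [Field K] [Algebra k K] {n : ℕ}
  {p : Ideal (MvPolynomial (Fin (n + 1)) k)} {Q : MvPolynomial (Fin (n + 1)) k} {q : ℕ}
  {J : Type} [Fintype J]

/-- If the weight vanishes, then all ratios are constant. -/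
theorem const_of_wt [DecidableEq J] {T : J → K} (hT : ∀ j, T j ≠ 0) {j0 : J}
    (t : Tree k T j0) (h0 : wtT t = 0) : ∀ (d : ℕ) (l : J), t.dist l ≤ d →
      ∃ c : k, T l = algebraMap k K c * T j0 := by
  have hC : ∀ l, l ≠ j0 → ∃ c : k, T l = algebraMap k K c * T (t.r l) := by
    intro l hl
    unfold wtT at h0
    have h1 := (Finset.sum_eq_zero_iff.1 h0) l (Finset.mem_erase.2 ⟨hl, Finset.mem_univ l⟩)
    have h3 : (t.C l).m ≤ 1 := by
      by_contra hcon
      rw [tri, Finset.sum_eq_zero_iff] at h1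
      have := h1 ⟨1, by omega⟩ (Finset.mem_univ _)
      simp at this
    obtain ⟨a, ha⟩ := t.self l hl
    obtain ⟨b, hb⟩ := t.root l hl
    obtain ⟨c, hc⟩ := ratio_const (k := k) h3 (cmem (t.C l))
      (fun i => smul_ne_zero ((t.C l).c_ne i) (hT _)) (cmem_sum (t.C l)) a b
    have ca := (t.C l).c_ne a
    have cb := (t.C l).c_ne b
    have ca' : algebraMap k K ((t.C l).c a) ≠ 0 := (map_ne_zero _).2 ca
    have cb' : algebraMap k K ((t.C l).c b) ≠ 0 := (map_ne_zero _).2 cb
    unfold cmem at hc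
    rw [ha, hb, Algebra.smul_def, Algebra.smul_def] at hc
    refine ⟨c * (t.C l).c b / (t.C l).c a, ?_⟩
    rw [map_div₀, map_mul]
    have hr := hT (t.r l)
    rw [div_eq_iff (mul_ne_zero cb' hr)] at hc
    field_simp
    linear_combination hc
  intro d
  induction d with
  | zero =>
    intro l hl
    by_cases hlj : l = j0
    · exact ⟨1, by rw [hlj, map_one, one_mul]⟩
    · have := t.lt l hlj
      omega
  | succ d ih =>
    intro l hl
    by_cases hlj : l = j0
    · exact ⟨1, by rw [hlj, map_one, one_mul]⟩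
    · have h1 := t.lt l hlj
      obtain ⟨c, hc⟩ := ih (t.r l) (by omega)
      obtain ⟨c', hc'⟩ := hC l hlj
      exact ⟨c' * c, by rw [hc', hc, map_mul]; ring⟩

namespace CoRel

variable (C : CoRel p Q q J)

theorem lgt [IsAlgClosed k] [CharZero k] (hp : IsHomog p) (hQ : Q.IsHomogeneous q)
    (hs : 2 ≤ Fintype.card J) (hN0 : ∀ l, C.N l ≠ 0) (hNL : ∀ l, LLs (Fintype.card J) ≤ C.N l)
    {δm : ℕ} (hδ : ∀ l, C.δ l ≤ δm)
    (hbig : (Fintype.card J + ((Fintype.card J - 1) * (Fintype.card J - 1) + 1)) * δm +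
      LLs (Fintype.card J) * ∑ l, (C.m l + C.δ l) < C.e) {w : ℕ} (hw : 0 < w)
    (htr : Algebra.trdeg k K = w) {y : Fin (n + 1) → K} (hy : GPt C y)
    (hgen : Algebra.IsAlgebraic (coords k y) K) (hfg : Algebra.EssFiniteType k K) :
    LogGeneralType k K w (OffQ Q q y) := by
  classical
  have hT := C.T_ne hs hy.no
  have hne : ∀ l, val y (C.a l) ≠ 0 ∧ val y (C.u l) ≠ 0 ∧ val y (C.b l) ≠ 0 := by
    intro l
    have h1 := hT l
    rw [C.T_eq] at h1
    refine ⟨left_ne_zero_of_mul (left_ne_zero_of_mul h1),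
      right_ne_zero_of_mul (left_ne_zero_of_mul h1), fun h0 => right_ne_zero_of_mul h1 ?_⟩
    rw [h0, zero_pow (hN0 l)]
  have hJδ : ∑ l ∈ C.J1, C.δ l ≤ Fintype.card J * δm := by
    calc ∑ l ∈ C.J1, C.δ l ≤ ∑ l, C.δ l :=
          Finset.sum_le_sum_of_subset (Finset.subset_univ _)
      _ ≤ ∑ _ : J, δm := Finset.sum_le_sum fun l _ => hδ l
      _ = _ := by rw [Finset.sum_const, Finset.card_univ, smul_eq_mul]
  obtain ⟨j0⟩ : Nonempty J := Fintype.card_pos_iff.1 (by omega)
  obtain ⟨t⟩ := exists_tree (k := k) (C.T y) (C.T_sum hy.mem) (C.T_no hy.no) j0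
  have hloss : C.loss t < C.e := by
    refine lt_of_le_of_lt ?_ hbig
    unfold loss
    refine Nat.add_le_add_right ?_ _
    rw [add_mul]
    refine Nat.add_le_add hJδ ?_
    calc ∑ l, t.cJ l * C.δ l ≤ ∑ l, t.cJ l * δm :=
          Finset.sum_le_sum fun l _ => Nat.mul_le_mul_left _ (hδ l)
      _ = (∑ l, t.cJ l) * δm := by rw [Finset.sum_mul]
      _ ≤ _ := Nat.mul_le_mul_right _ t.cJ_total
  have hJ1 : ∑ l ∈ C.J1, C.δ l < C.e := lt_of_le_of_lt (by unfold loss; omega) hloss
  obtain ⟨tb, htb, htb2⟩ := basis_in htr (C.rts y) (C.rts_alg hp hs hN0 hJ1 hy hgen hfg)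
  choose ia ib hab using htb2
  -- the coordinates
  obtain ⟨j1, hj1⟩ := Function.ne_iff.1 hy.ne
  have hj1' : y j1 ≠ 0 := hj1
  obtain ⟨s, hsb, hs2⟩ := basis_in htr _ (alg_mono (coords_eq (k := k) y hj1') hgen)
  choose σ hσ using hs2
  have hσ' : ∀ i, s i = y (j1.succAbove (σ i)) / y j1 := fun i => (hσ i).symm
  -- the derivation
  obtain ⟨lam, hlam⟩ := exists_lam k w
  obtain ⟨D0, hD0⟩ := exists_der tb htb (fun j => algebraMap k K (lam j) * tb j)
  have ht0 : ∀ j, tb j ≠ 0 := fun j => by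
    rw [hab]
    exact div_ne_zero (hT _) (hT _)
  have hconst : ∀ h, D0 h = 0 → ∃ c : k, h = algebraMap k K c := fun h hh =>
    const_of_der tb htb lam hlam D0 hD0 hh
  have hpt : (∏ j, tb j) ≠ 0 := Finset.prod_ne_zero_iff.2 fun j _ => ht0 j
  have hFK : FK t D0 ≠ 0 := FK_ne t hconst
  set N := wtT t with hN
  have hpos : 0 < N := by
    rw [Nat.pos_iff_ne_zero]
    intro h0
    have h1 := const_of_wt hT t h0
    obtain ⟨ca, hca⟩ := h1 _ (ia ⟨0, hw⟩) le_rfl
    obtain ⟨cb, hcb⟩ := h1 _ (ib ⟨0, hw⟩) le_rfl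
    have h4 := htb.1.transcendental ⟨0, hw⟩
    apply h4
    have h5 : tb ⟨0, hw⟩ = algebraMap k K (ca / cb) := by
      rw [hab, hca, hcb, map_div₀, mul_div_mul_right _ _ (hT j0)]
    rw [h5]
    exact isAlgebraic_algebraMap _
  have hNL' : N ≤ LLs (Fintype.card J) := t.tri_total
  have hPhi : C.Phi t ≠ 0 := by
    unfold Phi
    refine div_ne_zero (mul_ne_zero ?_ ?_) (mul_ne_zero ?_ ?_)
    · exact Finset.prod_ne_zero_iff.2 fun l _ => (hne l).1
    · exact Finset.prod_ne_zero_iff.2 fun l _ => pow_ne_zero _ (hne l).1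
    · exact Finset.prod_ne_zero_iff.2 fun l _ => pow_ne_zero _ (hne l).2.2
    · exact Finset.prod_ne_zero_iff.2 fun l _ => pow_ne_zero _ (hne l).2.1
  set κ := C.e - C.loss t with hκ
  have hκ0 : 0 < κ := by omega
  let H : Fin (w + 1) → K :=
    Fin.cases (y j1 ^ κ) fun i => y (j1.succAbove (σ i)) * y j1 ^ (κ - 1)
  have hH0 : H 0 = y j1 ^ κ := rfl
  have hHs : ∀ i : Fin w, H i.succ = s i * H 0 := by
    intro i
    change y (j1.succAbove (σ i)) * y j1 ^ (κ - 1) = s i * y j1 ^ κ
    rw [hσ' i]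
    obtain ⟨κ', hκ'⟩ : ∃ κ', κ = κ' + 1 := ⟨κ - 1, by omega⟩
    rw [hκ', Nat.add_sub_cancel, pow_succ]
    field_simp
  have hHge : ∀ (P : Place k K) (i0 : Fin (n + 1)), (∀ i, y i ≠ 0 → P.ord (y i0) ≤ P.ord (y i)) →
      ∀ j, Ge P (κ * P.ord (y i0)) (H j) := by
    intro P i0 hmin j
    have hyc : ∀ i, Ge P (P.ord (y i0)) (y i) := fun i => by
      by_cases h : y i = 0
      · exact Or.inl h
      · exact Or.inr (hmin i h)
    refine Fin.cases ?_ (fun i => ?_) j
    · exact (hyc j1).pow κ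
    · change Ge P (κ * P.ord (y i0)) (y (j1.succAbove (σ i)) * y j1 ^ (κ - 1))
      refine ((hyc _).mul ((hyc j1).pow (κ - 1))).mono (le_of_eq ?_)
      rw [Nat.cast_sub (by omega : 1 ≤ κ)]
      push_cast
      ring
  let g : Fin (w + 1) → K := fun j => H j * C.Phi t * FK t D0 / (∏ j, tb j) ^ N
  have hg0 : g 0 ≠ 0 := div_ne_zero (mul_ne_zero (mul_ne_zero (pow_ne_zero _ hj1') hPhi) hFK)
    (pow_ne_zero _ hpt)
  have hgs : ∀ i : Fin w, g i.succ / g 0 = s i := by
    intro i
    change H i.succ * C.Phi t * FK t D0 / (∏ j, tb j) ^ N /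
      (H 0 * C.Phi t * FK t D0 / (∏ j, tb j) ^ N) = s i
    rw [hHs]
    have : H 0 ≠ 0 := pow_ne_zero _ hj1'
    field_simp
  have hkey : ∀ (D : Fin w → Derivation k K K) (j : Fin (w + 1)),
      form tb N (g j) D = H j * C.Phi t * FK t (con tb lam D) := by
    intro D j
    have h1 : con tb lam D = (lmat tb D).det • D0 := by
      apply der_ext tb htb
      intro l
      rw [con_t tb lam D ht0 l, Derivation.coe_smul, Pi.smul_apply, hD0, smul_eq_mul]
      ring
    have h2 : (Matrix.of fun i j => D i (tb j)).det = (∏ j, tb j) * (lmat tb D).det := by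
      rw [← Matrix.det_mul_row]
      congr 1
      ext i j
      simp only [Matrix.of_apply, lmat]
      have := ht0 j
      field_simp
    unfold form
    rw [h1, FK_smul, h2, mul_pow, ← hN]
    simp only [g]
    field_simp
  refine ⟨htr, N, hpos, fun j => form tb N (g j), fun j => form_pluri tb N (g j), ?_, ?_, ?_⟩
  · -- logarithmic poles
    intro P _ j D hD
    obtain ⟨i0, h0, hmin⟩ := exists_min P hy.ne
    change P.Reg (form tb N (g j) D)
    rw [hkey, reg_iff_ge]
    have hE : ∀ x : K, x ≠ 0 → Ge P (-0) (con tb lam D x / x) := fun x hx => by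
      rw [neg_zero]
      exact con_log tb lam D hD x
    have h1 := C.est t hp hs hy hN0 hNL hloss.le h0 hmin (E := con tb lam D) (ε := 0)
      (fun l i => WK_log hE (t.C l) i) (hHge P i0 hmin j)
    refine h1.mono ?_
    rw [zero_mul, sub_zero]
    refine mul_nonneg (Nat.cast_nonneg _) (add_nonneg (Finset.sum_nonneg fun l _ => ?_)
      (Finset.sum_nonneg fun l _ => ?_))
    · linarith [ord_form P h0 hmin (C.homa l) (hne l).1]
    · linarith [ord_form P h0 hmin (C.homb l) (hne l).2.2]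
  · -- regularity
    intro P _ hP j D hD
    obtain ⟨i0, h0, hmin⟩ := exists_min P hy.ne
    change P.Reg (form tb N (g j) D)
    rw [hkey, reg_iff_ge]
    have ha : ∀ l, 0 ≤ P.ord (val y (C.a l)) - C.δ l * P.ord (y i0) := fun l => by
      linarith [ord_form P h0 hmin (C.homa l) (hne l).1]
    have hb : ∀ l, 0 ≤ P.ord (val y (C.b l)) - C.m l * P.ord (y i0) := fun l => by
      linarith [ord_form P h0 hmin (C.homb l) (hne l).2.2]
    have hu : ∀ l, P.ord (val y (C.u l)) = C.d l * P.ord (y i0) := fun l =>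
      C.unit_ord hy.mem hQ hy.off P hP h0 hmin l
    have hA : 0 ≤ ∑ l, (P.ord (val y (C.a l)) - C.δ l * P.ord (y i0)) :=
      Finset.sum_nonneg fun l _ => ha l
    have hB : 0 ≤ ∑ l, (P.ord (val y (C.b l)) - C.m l * P.ord (y i0)) :=
      Finset.sum_nonneg fun l _ => hb l
    by_cases hall : ∑ l, (P.ord (val y (C.a l)) - C.δ l * P.ord (y i0)) +
        ∑ l, (P.ord (val y (C.b l)) - C.m l * P.ord (y i0)) = 0
    · have hA0 : ∑ l, (P.ord (val y (C.a l)) - C.δ l * P.ord (y i0)) = 0 := by linarith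
      have hB0 : ∑ l, (P.ord (val y (C.b l)) - C.m l * P.ord (y i0)) = 0 := by linarith
      have hA1 := (Finset.sum_eq_zero_iff_of_nonneg fun l _ => ha l).1 hA0
      have hB1 := (Finset.sum_eq_zero_iff_of_nonneg fun l _ => hb l).1 hB0
      have hTo : ∀ l, P.ord (C.T y l) = C.e * P.ord (y i0) := by
        intro l
        have h1 := hA1 l (Finset.mem_univ l)
        have h2 := hB1 l (Finset.mem_univ l)
        rw [C.T_eq, P.ord_mul (mul_ne_zero (hne l).1 (hne l).2.1) (pow_ne_zero _ (hne l).2.2),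
          P.ord_mul (hne l).1 (hne l).2.1, P.ord_pow, hu l]
        have h3 : P.ord (val y (C.a l)) = C.δ l * P.ord (y i0) := by linarith
        have h4 : P.ord (val y (C.b l)) = C.m l * P.ord (y i0) := by linarith
        rw [h3, h4, ← C.deg l]
        push_cast
        ring
      have ht0' : ∀ j, P.ord (tb j) = 0 := by
        intro j
        rw [hab, P.ord_div (hT _) (hT _), hTo, hTo, sub_self]
      have hE := con_reg tb lam D hD ht0 ht0'
      have h1 := C.est t hp hs hy hN0 hNL hloss.le h0 hmin (E := con tb lam D) (ε := 0)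
        (fun l i => by
          rw [zero_mul, sub_zero]
          exact WK_reg hE (hT j0) (fun j => by rw [hTo, hTo]) (t.C l) i) (hHge P i0 hmin j)
      refine h1.mono ?_
      rw [zero_mul, sub_zero, hall, mul_zero]
    · have hE : ∀ x : K, x ≠ 0 → Ge P (-1) (con tb lam D x / x) := fun x hx =>
        con_pole tb lam D hD ht0 hx
      have h1 := C.est t hp hs hy hN0 hNL hloss.le h0 hmin (E := con tb lam D) (ε := 1)
        (fun l i => WK_log hE (t.C l) i) (hHge P i0 hmin j)
      refine h1.mono ?_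
      rw [one_mul]
      have h2 : 1 ≤ ∑ l, (P.ord (val y (C.a l)) - C.δ l * P.ord (y i0)) +
        ∑ l, (P.ord (val y (C.b l)) - C.m l * P.ord (y i0)) := by omega
      have h3 : (N : ℤ) ≤ LLs (Fintype.card J) := by exact_mod_cast hNL'
      nlinarith
  · obtain ⟨D, hD⟩ := exists_dual htb
    have hf : ∀ j, form tb N (g j) D = g j := fun j => by
      unfold form
      rw [hD, Matrix.det_one, one_pow, mul_one]
    refine ⟨D, by change form tb N (g 0) D ≠ 0; rw [hf]; exact hg0, ?_⟩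
    simp only [hf, hgs]
    exact hsb.1

end CoRel

end Pool.Agent.R869
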