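import Pool.Agent.R869.CTop

/-!
Holomorphic curves in varieties with a relation with cofactors: the main statement.
-/

set_option autoImplicit false

open Filter Metric Real Set Topology MvPolynomial Pool.Agent.W603.BP Pool.Agent.W603.BPR
  Pool.Agent.W603.PV Pool.Agent.W603.GR

namespace Pool.Agent.R869

variable {n : ℕ} {p : Ideal (MvPolynomial (Fin (n + 1)) ℂ)} {Q : MvPolynomial (Fin (n + 1)) ℂ}
  {q : ℕ} {J : Type} [Fintype J]

namespace CoRel

variable (C : CoRel p Q q J)

theorem term_ne (hs : 2 ≤ Fintype.card J) (l : J) : C.term l ≠ 0 := by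
  classical
  intro h0
  apply C.no {l} (Finset.singleton_nonempty l) (by
    intro h
    have h1 := congrArg Finset.card h
    rw [Finset.card_singleton, Finset.card_univ] at h1
    omega)
  rw [Finset.sum_singleton]
  have h1 : C.a l * C.u l * C.b l ^ C.N l = 0 := h0
  rw [h1]
  exact Ideal.zero_mem p

theorem b_ne (hs : 2 ≤ Fintype.card J) (hN : ∀ l, 1 ≤ C.N l) (l : J) (hm : C.m l = 0)
    (x : Fin (n + 1) → ℂ) : eval x (C.b l) ≠ 0 := by
  have h1 : C.b l ≠ 0 := by
    intro h0
    apply C.term_ne hs l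
    unfold term
    rw [h0, zero_pow (by have := hN l; omega), mul_zero]
  have h2 := C.homb l
  rw [hm] at h2
  have h3 : (C.b l).totalDegree = 0 := h2.totalDegree h1
  rw [totalDegree_eq_zero_iff_eq_C] at h3
  rw [h3, eval_C]
  intro h4
  apply h1
  rw [h3, h4, C_0]

theorem u_ne {x : Fin (n + 1) → ℂ} (hx : ∀ H ∈ p, eval x H = 0) (hQ : eval x Q ≠ 0) (l : J) :
    eval x (C.u l) ≠ 0 := by
  obtain ⟨χ, c, r, -, -, h⟩ := C.unit l
  have h1 := hx _ h
  rw [map_sub, map_mul, map_pow] at h1
  intro h0
  rw [h0, zero_mul, zero_sub, neg_eq_zero] at h1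
  exact hQ (eq_zero_of_pow_eq_zero h1)

theorem eval_term (x : Fin (n + 1) → ℂ) (l : J) : eval x (C.term l) =
    eval x (C.a l) * eval x (C.u l) * eval x (C.b l) ^ C.N l := by
  unfold term
  rw [map_mul, map_mul, map_pow]

theorem d_zero (l : J) (hl : l ∈ C.J1) : C.d l = 0 := by
  have h2 := C.homu l
  rw [C.one l hl] at h2
  exact IsHomogeneous.inj_right h2 (isHomogeneous_one (Fin (n + 1)) ℂ) one_ne_zero

/-- the functions near infinity -/
theorem exists_data (hp : IsHomog p) {δ : ℕ} (hC : C.Large δ) {f : ℂ → Fin (n + 1) → ℂ}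
    (hf : PCurve p Q f) (hR : ∃ z ∈ ball (0 : ℂ) 1 \ {0}, eval (f z) C.R ≠ 0) :
    ∃ D : AData 1 n J, D.f = fun z => f z⁻¹ := by
  classical
  have hfa := hf.an
  have hmem : ∀ z ∈ Ext 1, z⁻¹ ∈ PB 1 := fun z hz => inv_mem_PB one_pos (by
    rw [inv_one]; exact hz)
  have hX : ∀ z ∈ Ext 1, f z⁻¹ ∈ PtsP p Q := fun z hz => hf.2 _ (mem_disc.mpr (hmem z hz))
  have hinv : ∀ {g : ℂ → ℂ}, AnalyticOnNhd ℂ g (PB 1) →
      AnalyticOnNhd ℂ (fun z => g z⁻¹) (Ext 1) := by
    intro g hg z hz
    have hz0 : z ≠ 0 := ext_ne_zero zero_le_one hz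
    exact (hg _ (hmem z hz)).comp (analyticAt_inv hz0)
  obtain ⟨z1, hz1, hRz⟩ := hR
  have hz1' : z1 ∈ PB 1 := mem_disc.mp hz1
  have hne : C.J1.Nonempty := by
    obtain ⟨l, hl, _⟩ := C.base (f z1) (hf.2 z1 hz1).1 (hf.2 z1 hz1).2.1
    exact ⟨l, hl⟩
  have hKa := fun l => form_le (C.a l) (C.homa l)
  have hKu := fun l => form_le (C.u l) (C.homu l)
  have hKb := fun l => form_le (C.b l) (C.homb l)
  choose Ka hKa0 hKa using hKa
  choose Ku hKu0 hKu using hKu
  choose Kb hKb0 hKb using hKb
  obtain ⟨Kl, hKl0, hKl⟩ := C.lower hp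
  set K : ℝ := 1 + (∑ l, Ka l + ∑ l, Ku l + ∑ l, Kb l + Kl) with hK
  have h1 : 0 ≤ ∑ l, Ka l := Finset.sum_nonneg fun l _ => hKa0 l
  have h2 : 0 ≤ ∑ l, Ku l := Finset.sum_nonneg fun l _ => hKu0 l
  have h3 : 0 ≤ ∑ l, Kb l := Finset.sum_nonneg fun l _ => hKb0 l
  have hKa' : ∀ l, Ka l ≤ K := fun l => by
    have := Finset.single_le_sum (f := Ka) (fun l _ => hKa0 l) (Finset.mem_univ l)
    linarith
  have hKu' : ∀ l, Ku l ≤ K := fun l => by
    have := Finset.single_le_sum (f := Ku) (fun l _ => hKu0 l) (Finset.mem_univ l)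
    linarith
  have hKb' : ∀ l, Kb l ≤ K := fun l => by
    have := Finset.single_le_sum (f := Kb) (fun l _ => hKb0 l) (Finset.mem_univ l)
    linarith
  have hKl' : Kl ≤ K := by linarith
  refine ⟨{ f := fun z => f z⁻¹
            A := fun l z => eval (f z⁻¹) (C.a l)
            B := fun l z => eval (f z⁻¹) (C.b l)
            V := fun l z => eval (f z⁻¹) (C.u l)
            N := C.N
            m := C.m
            δ := C.δ
            d := C.d
            e := C.e
            δm := δ
            J1 := C.J1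
            K := K
            f_an := fun i => hinv (hfa i)
            f_ne := fun z hz => (hX z hz).1
            A_an := fun l => hinv (eval_an hfa (C.a l))
            B_an := fun l => hinv (eval_an hfa (C.b l))
            V_an := fun l => hinv (eval_an hfa (C.u l))
            deg := C.deg
            one_le_K := by linarith
            A_le := fun l z _ => (hKa l _).trans
              (mul_le_mul_of_nonneg_right (hKa' l) (by positivity))
            B_le := fun l z _ => (hKb l _).trans
              (mul_le_mul_of_nonneg_right (hKb' l) (by positivity))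
            V_le := fun l z _ => (hKu l _).trans
              (mul_le_mul_of_nonneg_right (hKu' l) (by positivity))
            V_ne := fun l z hz => C.u_ne (hX z hz).2.1 (hX z hz).2.2 l
            V_one := fun l hl z hz => by rw [C.one l hl, map_one]
            d_zero := C.d_zero
            B_ne := fun l hm z hz => C.b_ne hC.1 hC.pos l hm _
            low := fun z hz => by
              obtain ⟨l, hl, h⟩ := hKl _ (hX z hz).1 (hX z hz).2.1
              exact ⟨l, hl, h.trans (mul_le_mul_of_nonneg_right hKl' (norm_nonneg _))⟩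
            sum := fun z hz => by
              have h4 := (hX z hz).2.1 _ C.rel
              rw [map_sum] at h4
              rw [← h4]
              exact Finset.sum_congr rfl fun l _ => by rw [map_mul, map_mul, map_pow]
            no := fun S hS hS' => by
              refine ⟨z1⁻¹, by simpa using inv_mem_Ext hz1', ?_⟩
              rw [inv_inv]
              intro h0
              apply hRz
              unfold R
              rw [map_prod]
              refine Finset.prod_eq_zero (i := S)
                (by rw [Finset.mem_filter]; exact ⟨Finset.mem_univ _, hS, hS'⟩) ?_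
              rw [map_sum, ← h0]
              exact Finset.sum_congr rfl fun l _ => C.eval_term _ l
            card := hC.1
            N_pos := hC.pos
            N_ge := hC.LLs_le
            δ_le := fun l => (hC.2 l).1
            big := by
              have h4 := hC.num hne
              rw [Finset.sum_add_distrib] at h4
              have h5 : LLs (Fintype.card J) * ∑ l, C.m l ≤
                LLs (Fintype.card J) * (∑ l, C.m l + ∑ l, C.δ l) :=
                Nat.mul_le_mul_left _ (Nat.le_add_right _ _)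
              omega }, rfl⟩

/-- **Pseudo-Picard hyperbolicity.** -/
theorem picard (hp : IsHomog p) {δ : ℕ} (hC : C.Large δ) {f : ℂ → Fin (n + 1) → ℂ}
    (hf : PCurve p Q f) (hR : ∃ z ∈ ball (0 : ℂ) 1 \ {0}, eval (f z) C.R ≠ 0) : Extends f := by
  obtain ⟨D, hD⟩ := C.exists_data hp hC hf hR
  have hfa := hf.an
  have hP : ∀ j, Pun (fun w => f w j) := fun j => on_pun one_pos (hfa j)
  apply extends_of f hfa fun w hw => (hf.2 w (mem_disc.mpr hw)).1
  intro i i0 _ hi0
  have h0 : ∃ z ∈ Ext 1, D.f z i0 ≠ 0 := by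
    obtain ⟨w, hw, hwne⟩ := nz_on one_pos hi0
    refine ⟨w⁻¹, by simpa using inv_mem_Ext hw, ?_⟩
    rw [hD]
    simpa using hwne
  obtain ⟨R, hR, R0, hRe⟩ := D.main one_pos i i0 h0
  have h1 : MRel (fun w => f w i ^ D.E) (fun w => f w i0 ^ D.E) := by
    refine ⟨fun w => R w⁻¹, hR, ev_iff.2 ⟨(max R0 1)⁻¹, by positivity, fun w hw => ?_⟩⟩
    have h2 := hRe w⁻¹ (by
      have h3 := inv_mem_Ext hw
      rw [inv_inv] at h3
      exact lt_of_le_of_lt (le_max_left _ _) h3)
    rw [hD] at h2
    simpa using h2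
  exact growth_mero (hP i) (hP i0) hi0 (gr_root D.E_pos h1.gr)

/-- **Pseudo-Brody hyperbolicity.** -/
theorem brody (hp : IsHomog p) {δ : ℕ} (hC : C.Large δ) {f : ℂ → Fin (n + 1) → ℂ}
    (hf : EntireCurve p Q f) (z : ℂ) : eval (f z) C.R = 0 := by
  by_contra hne
  obtain ⟨h1, h2⟩ := sin_curve' hf
  obtain ⟨w, hw, hwz⟩ := sin_point z
  exact h2 (C.picard hp hC h1 ⟨w, hw, by rw [hwz]; exact hne⟩)

end CoRel

end Pool.Agent.R869
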