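import Pool.Agent.R869.BGeo

/-!
Numerical consequences of the assumption on the exponents.
-/

set_option autoImplicit false

open FF MvPolynomial Pool.Agent.W603.LV Pool.Agent.W603.PV Pool.Agent.W603.GR Pool.Agent.W602.GT

namespace Pool.Agent.R869

theorem two_LLs (t : ℕ) : 2 * LLs (t + 2) = (t + 1) * ((t + 1) * t) := by
  have h := two_tri (t + 1)
  have h' : 2 * tri (t + 1) = (t + 1) * t := by simpa using h
  unfold LLs
  have e : t + 2 - 1 = t + 1 := by omega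
  rw [e]
  calc 2 * ((t + 1) * tri (t + 1)) = (t + 1) * (2 * tri (t + 1)) := by ring
    _ = _ := by rw [h']

theorem LLs_le {s : ℕ} (hs : 2 ≤ s) : LLs s ≤ s ^ 4 := by
  obtain ⟨t, rfl⟩ : ∃ t, s = t + 2 := ⟨s - 2, by omega⟩
  have h := two_LLs t
  have h1 : (t + 1) * ((t + 1) * t) ≤ (t + 2) ^ 4 := by
    have : (t + 2) ^ 4 = (t + 1) * ((t + 1) * t) + (t ^ 4 + 7 * t ^ 3 + 22 * t ^ 2 + 31 * t + 16) := by
      ring
    omega
  omega

theorem num {J : Type} [Fintype J] {e δ : ℕ} {m δl : J → ℕ} (hs : 2 ≤ Fintype.card J)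
    (hδ : ∀ l, δl l ≤ δ) (hm : ∀ l, Fintype.card J ^ 4 * (δ + 1) * m l ≤ e)
    (he : Fintype.card J ^ 4 * (δ + 1) ≤ e) :
    (Fintype.card J + ((Fintype.card J - 1) * (Fintype.card J - 1) + 1)) * δ +
      LLs (Fintype.card J) * ∑ l, (m l + δl l) < e := by
  have h1 : ∑ l, Fintype.card J ^ 4 * (δ + 1) * m l ≤ ∑ _ : J, e :=
    Finset.sum_le_sum fun l _ => hm l
  rw [← Finset.mul_sum, Finset.sum_const, Finset.card_univ, smul_eq_mul] at h1
  have h2 : ∑ l, δl l ≤ Fintype.card J * δ := by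
    calc ∑ l, δl l ≤ ∑ _ : J, δ := Finset.sum_le_sum fun l _ => hδ l
      _ = _ := by rw [Finset.sum_const, Finset.card_univ, smul_eq_mul]
  rw [Finset.sum_add_distrib]
  generalize ∑ l, m l = M at *
  generalize ∑ l, δl l = D at *
  generalize Fintype.card J = s at *
  obtain ⟨t, rfl⟩ : ∃ t, s = t + 2 := ⟨s - 2, by omega⟩
  have h3 := two_LLs t
  set X := LLs (t + 2)
  have e1 : t + 2 - 1 = t + 1 := by omega
  rw [e1]
  have h4 : (t + 2) * ((t + 2) ^ 3 * (δ + 1) * M) ≤ (t + 2) * e := by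
    calc _ = (t + 2) ^ 4 * (δ + 1) * M := by ring
      _ ≤ _ := h1
  have h5 : (t + 2) ^ 3 * (δ + 1) * M ≤ e := Nat.le_of_mul_le_mul_left h4 (by omega)
  have h6 : 2 * X * M ≤ e := by
    rw [h3]
    refine le_trans (Nat.mul_le_mul_right _ ?_) h5
    calc (t + 1) * ((t + 1) * t) ≤ (t + 2) ^ 3 * 1 := by
          have : (t + 2) ^ 3 * 1 = (t + 1) * ((t + 1) * t) + (4 * t ^ 2 + 11 * t + 8) := by ring
          omega
      _ ≤ _ := Nat.mul_le_mul_left _ (by omega)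
  have h7 : 2 * X * D ≤ 2 * X * ((t + 2) * δ) := Nat.mul_le_mul_left _ h2
  have h8 : 2 * ((t + 2 + ((t + 1) * (t + 1) + 1)) * δ) + 2 * X * ((t + 2) * δ) ≤
      (t + 2) ^ 4 * δ := by
    rw [h3]
    have : (t + 2) ^ 4 * δ = 2 * ((t + 2 + ((t + 1) * (t + 1) + 1)) * δ) +
        (t + 1) * ((t + 1) * t) * ((t + 2) * δ) + (4 * t ^ 3 + 17 * t ^ 2 + 24 * t + 8) * δ := by
      ring
    omega
  have h9 : (t + 2) ^ 4 * δ + (t + 2) ^ 4 ≤ e := by
    calc _ = (t + 2) ^ 4 * (δ + 1) := by ring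
      _ ≤ _ := he
  have h10 : 0 < (t + 2) ^ 4 := by positivity
  have h11 : 2 * ((t + 2 + ((t + 1) * (t + 1) + 1)) * δ + X * (M + D)) < 2 * e := by
    calc _ = 2 * ((t + 2 + ((t + 1) * (t + 1) + 1)) * δ) + 2 * X * M + 2 * X * D := by ring
      _ < _ := by omega
  omega

variable {k : Type} [Field k] {n : ℕ}
  {p : Ideal (MvPolynomial (Fin (n + 1)) k)} {Q : MvPolynomial (Fin (n + 1)) k} {q : ℕ}
  {J : Type} [Fintype J]

namespace CoRel

variable (C : CoRel p Q q J) {δ : ℕ}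

theorem Large.pos {C : CoRel p Q q J} (h : C.Large δ) (l : J) : 1 ≤ C.N l := by
  have h1 := (h.2 l).2
  have h2 : 0 < Fintype.card J ^ 4 * (δ + 1) := by
    have := h.1
    positivity
  omega

theorem Large.LLs_le {C : CoRel p Q q J} (h : C.Large δ) (l : J) :
    LLs (Fintype.card J) ≤ C.N l := by
  refine (Pool.Agent.R869.LLs_le h.1).trans (le_trans ?_ (h.2 l).2)
  exact Nat.le_mul_of_pos_right _ (by omega)

theorem Large.num {C : CoRel p Q q J} (h : C.Large δ) (hJ : C.J1.Nonempty) :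
    (Fintype.card J + ((Fintype.card J - 1) * (Fintype.card J - 1) + 1)) * δ +
      LLs (Fintype.card J) * ∑ l, (C.m l + C.δ l) < C.e := by
  have h1 : ∀ l, Fintype.card J ^ 4 * (δ + 1) * C.m l ≤ C.e := by
    intro l
    have h2 := C.deg l
    have h3 := Nat.mul_le_mul_right (C.m l) (h.2 l).2
    omega
  refine Pool.Agent.R869.num h.1 (fun l => (h.2 l).1) h1 ?_
  obtain ⟨l, hl⟩ := hJ
  exact le_trans (Nat.le_mul_of_pos_right _ (C.pos l hl)) (h1 l)

theorem J1_ne [IsAlgClosed k] {K : Type} [Field K] [Algebra k K] {y : Fin (n + 1) → K}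
    (hy0 : y ≠ 0) (hy : ∀ H ∈ p, val y H = 0) : C.J1.Nonempty := by
  by_contra hcon
  rw [Finset.not_nonempty_iff_eq_empty] at hcon
  obtain ⟨i, hi⟩ := Function.ne_iff.1 hy0
  obtain ⟨M, hM⟩ := C.mem_of_base i
  rw [hcon] at hM
  simp only [Finset.coe_empty, Set.image_empty, Ideal.span_empty, bot_le, sup_of_le_left] at hM
  have h1 := hy _ hM
  unfold val at h1
  rw [map_pow, aeval_X] at h1
  exact hi (eq_zero_of_pow_eq_zero h1)

end CoRel

end Pool.Agent.R869
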