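import Pool.Agent.R869.AMain
import Pool.Agent.R869.Num

/-!
Holomorphic curves in varieties with a relation with cofactors.
-/

set_option autoImplicit false

open Filter Metric Real Set Topology MvPolynomial Pool.Agent.W603.BP Pool.Agent.W603.BPR
  Pool.Agent.W603.PV Pool.Agent.W603.GR Pool.Agent.W602.GT

namespace Pool.Agent.R869

variable {n : ℕ}

/-- the size of the values of a form -/
theorem form_le (G : MvPolynomial (Fin (n + 1)) ℂ) {d : ℕ} (hG : G.IsHomogeneous d) :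
    ∃ K : ℝ, 0 ≤ K ∧ ∀ x : Fin (n + 1) → ℂ, ‖eval x G‖ ≤ K * ‖x‖ ^ d := by
  refine ⟨∑ α ∈ G.support, ‖G.coeff α‖, Finset.sum_nonneg fun _ _ => norm_nonneg _, fun x => ?_⟩
  rw [eval_eq', Finset.sum_mul]
  refine (norm_sum_le _ _).trans (Finset.sum_le_sum fun α hα => ?_)
  rw [norm_mul]
  refine mul_le_mul_of_nonneg_left ?_ (norm_nonneg _)
  have h2 : ∑ i, α i = d := by
    have h1 := hG (mem_support_iff.1 hα)
    rw [Finsupp.weight_apply, Finsupp.sum_fintype _ _ (by simp)] at h1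
    simpa using h1
  rw [norm_prod, ← h2, ← Finset.prod_pow_eq_pow_sum]
  refine Finset.prod_le_prod (fun _ _ => norm_nonneg _) fun i _ => ?_
  rw [norm_pow]
  exact pow_le_pow_left₀ (norm_nonneg _) (norm_le_pi_norm x i) _

variable {p : Ideal (MvPolynomial (Fin (n + 1)) ℂ)} {Q : MvPolynomial (Fin (n + 1)) ℂ}
  {q : ℕ} {J : Type} [Fintype J]

theorem eval_smul_mem (hp : IsHomog p) {x : Fin (n + 1) → ℂ} (hx : ∀ H ∈ p, eval x H = 0) (c : ℂ)
    {H : MvPolynomial (Fin (n + 1)) ℂ} (hH : H ∈ p) : eval (fun j => c * x j) H = 0 := by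
  have h1 := aeval_scale_sum H x c
  simp only [Pool.Agent.W603.BPR.ae] at h1
  rw [h1]
  refine Finset.sum_eq_zero fun e _ => ?_
  rw [hx _ (hp H hH e), mul_zero]

theorem eval_smul {G : MvPolynomial (Fin (n + 1)) ℂ} {d : ℕ} (hG : G.IsHomogeneous d)
    (x : Fin (n + 1) → ℂ) (c : ℂ) : eval (fun j => c * x j) G = c ^ d * eval x G := by
  have h1 := aeval_scale hG x c
  simpa only [Pool.Agent.W603.BPR.ae] using h1

/-- the lower bound for the forms without common zeros -/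
theorem CoRel.lower (C : CoRel p Q q J) (hp : IsHomog p) :
    ∃ K : ℝ, 0 ≤ K ∧ ∀ x : Fin (n + 1) → ℂ, x ≠ 0 → (∀ H ∈ p, eval x H = 0) →
      ∃ l ∈ C.J1, ‖x‖ ^ C.m l ≤ K * ‖eval x (C.b l)‖ := by
  classical
  set S : Set (Fin (n + 1) → ℂ) := sphere 0 1 ∩ {x | ∀ H ∈ p, eval x H = 0} with hS
  have hcl : IsClosed {x : Fin (n + 1) → ℂ | ∀ H ∈ p, eval x H = 0} := by
    have : {x : Fin (n + 1) → ℂ | ∀ H ∈ p, eval x H = 0} =
        ⋂ H ∈ p, {x | eval x H = 0} := by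
      ext x
      simp
    rw [this]
    refine isClosed_biInter fun H _ => isClosed_eq ?_ continuous_const
    exact MvPolynomial.continuous_eval H
  have hcomp : IsCompact S := (isCompact_sphere _ _).inter_right hcl
  let g : (Fin (n + 1) → ℂ) → ℝ := fun x => ∑ l ∈ C.J1, ‖eval x (C.b l)‖
  have hg : Continuous g := continuous_finsetSum _ fun l _ =>
    (MvPolynomial.continuous_eval (C.b l)).norm
  have hpos : ∀ x ∈ S, 0 < g x := by
    intro x hx
    have hx0 : x ≠ 0 := by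
      intro h
      have := hx.1
      rw [h] at this
      simp at this
    obtain ⟨l, hl, h⟩ := C.base x hx0 hx.2
    exact lt_of_lt_of_le (norm_pos_iff.2 h)
      (Finset.single_le_sum (f := fun l => ‖eval x (C.b l)‖) (fun _ _ => norm_nonneg _) hl)
  have hmin : ∃ c : ℝ, 0 < c ∧ ∀ x ∈ S, c ≤ g x := by
    rcases S.eq_empty_or_nonempty with hE | hne
    · exact ⟨1, one_pos, fun x hx => by rw [hE] at hx; exact absurd hx (Set.notMem_empty x)⟩
    · obtain ⟨x0, hx0, h0⟩ := hcomp.exists_isMinOn hne hg.continuousOn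
      exact ⟨g x0, hpos x0 hx0, fun x hx => h0 hx⟩
  obtain ⟨c, hc, hcg⟩ := hmin
  refine ⟨(C.J1.card : ℝ) / c, by positivity, fun x hx hxp => ?_⟩
  have hnx : 0 < ‖x‖ := norm_pos_iff.2 hx
  set u : Fin (n + 1) → ℂ := fun j => ((‖x‖⁻¹ : ℝ) : ℂ) * x j with hu
  have hu1 : u = ((‖x‖⁻¹ : ℝ) : ℂ) • x := rfl
  have huS : u ∈ S := by
    refine ⟨?_, fun H hH => eval_smul_mem hp hxp _ hH⟩
    rw [mem_sphere_zero_iff_norm, hu1, norm_smul, Complex.norm_real, norm_inv, norm_norm,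
      inv_mul_cancel₀ hnx.ne']
  have h1 := hcg u huS
  have hne : C.J1.Nonempty := by
    obtain ⟨l, hl, _⟩ := C.base x hx hxp
    exact ⟨l, hl⟩
  obtain ⟨l, hl, hmax⟩ := Finset.exists_max_image C.J1 (fun l => ‖eval u (C.b l)‖) hne
  refine ⟨l, hl, ?_⟩
  have h2 : g u ≤ C.J1.card * ‖eval u (C.b l)‖ := by
    calc g u ≤ ∑ _l ∈ C.J1, ‖eval u (C.b l)‖ := Finset.sum_le_sum fun l' hl' => hmax l' hl'
      _ = _ := by rw [Finset.sum_const, nsmul_eq_mul]
  have h3 : ‖eval u (C.b l)‖ = (‖x‖⁻¹) ^ C.m l * ‖eval x (C.b l)‖ := by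
    rw [hu, eval_smul (C.homb l), norm_mul, norm_pow, Complex.norm_real, norm_inv, norm_norm]
  rw [h3] at h2
  have h4 : c ≤ C.J1.card * ((‖x‖⁻¹) ^ C.m l * ‖eval x (C.b l)‖) := h1.trans h2
  have h5 : (‖x‖⁻¹) ^ C.m l * ‖x‖ ^ C.m l = 1 := by
    rw [← mul_pow, inv_mul_cancel₀ hnx.ne', one_pow]
  have h6 := mul_le_mul_of_nonneg_right h4 (by positivity : 0 ≤ ‖x‖ ^ C.m l)
  have h7 : C.J1.card * ((‖x‖⁻¹) ^ C.m l * ‖eval x (C.b l)‖) * ‖x‖ ^ C.m l =
      C.J1.card * ‖eval x (C.b l)‖ := by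
    calc _ = C.J1.card * ‖eval x (C.b l)‖ * ((‖x‖⁻¹) ^ C.m l * ‖x‖ ^ C.m l) := by ring
      _ = _ := by rw [h5, mul_one]
  rw [h7] at h6
  rw [div_mul_eq_mul_div, le_div_iff₀ hc]
  linarith

/-- roots of growth estimates -/
theorem gr_root {e f : ℂ → ℂ} {E : ℕ} (hE : 0 < E) (h : Gr (fun w => e w ^ E) (fun w => f w ^ E)) :
    Gr e f := by
  obtain ⟨C, K, hCK⟩ := h
  refine ⟨max C 1, K, ?_⟩
  filter_upwards [hCK, PB_mem one_pos] with w h1 h2
  have hw1 : ‖w‖ ≤ 1 := h2.2.le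
  have h3 : (‖e w‖ * ‖w‖ ^ K) ^ E ≤ (max C 1 * ‖f w‖) ^ E := by
    calc (‖e w‖ * ‖w‖ ^ K) ^ E = ‖e w ^ E‖ * (‖w‖ ^ K) ^ E := by rw [mul_pow, norm_pow]
      _ ≤ ‖e w ^ E‖ * (‖w‖ ^ K) := by
          refine mul_le_mul_of_nonneg_left ?_ (norm_nonneg _)
          exact pow_le_of_le_one (by positivity) (pow_le_one₀ (norm_nonneg _) hw1) hE.ne'
      _ ≤ C * ‖f w ^ E‖ := h1
      _ ≤ (max C 1) ^ E * ‖f w‖ ^ E := by
          rw [norm_pow]
          refine mul_le_mul_of_nonneg_right ?_ (by positivity)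
          exact (le_max_left C 1).trans (le_self_pow₀ (le_max_right C 1) hE.ne')
      _ = _ := by rw [mul_pow]
  exact (pow_le_pow_iff_left₀ (by positivity) (by positivity) hE.ne').1 h3

end Pool.Agent.R869
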