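import Pool.Agent.R869.Tree

/-!
Weights of trees of minimal relations.
-/

set_option autoImplicit false
set_option linter.unusedSectionVars false

namespace Pool.Agent.R869

variable {k J V : Type*} [Field k] [AddCommGroup V] [Module k V] [Fintype J] [DecidableEq J]
  {g : J → V} {j0 : J}

/-- the sum of the numbers below `m` -/
def tri (m : ℕ) : ℕ := ∑ i : Fin m, (i : ℕ)

theorem tri_eq (m : ℕ) : tri m = ∑ i ∈ Finset.range m, i := by
  unfold tri
  rw [Fin.sum_univ_eq_sum_range (fun i => i) m]

theorem tri_mono {m n : ℕ} (h : m ≤ n) : tri m ≤ tri n := by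
  rw [tri_eq, tri_eq]
  exact Finset.sum_le_sum_of_subset (Finset.range_mono h)

theorem two_tri (m : ℕ) : 2 * tri m = m * (m - 1) := by
  rw [tri_eq, mul_comm 2, Finset.sum_range_id_mul_two]

/-- the loss in a tree of minimal relations between `s` members -/
def LLs (s : ℕ) : ℕ := (s - 1) * tri (s - 1)

theorem Circ.m_lt (C : Circ k g) : C.m < Fintype.card J := by
  have := Fintype.card_le_of_injective C.e C.inj
  rw [Fintype.card_fin] at this
  omega

namespace Tree

variable (T : Tree k g j0)

/-- the position of the predecessor -/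
noncomputable def pos (l : J) : Fin ((T.C l).m + 1) :=
  if h : l ≠ j0 then (T.root l h).choose else 0

theorem pos_eq {l : J} (h : l ≠ j0) : (T.C l).e (T.pos l) = T.r l := by
  unfold pos
  rw [dif_pos h]
  exact (T.root l h).choose_spec

/-- the weight of a member -/
noncomputable def cJ (i : J) : ℕ :=
  (∑ l ∈ Finset.univ.erase j0, ∑ b, if (T.C l).e ((T.pos l).succAbove b) = i then 1 else 0) +
    if i = j0 then 1 else 0

theorem sum_cJ {R : Type*} [CommSemiring R] (x : J → R) :
    ∑ i, (T.cJ i : R) * x i =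
      (∑ l ∈ Finset.univ.erase j0, ∑ b, x ((T.C l).e ((T.pos l).succAbove b))) + x j0 := by
  have h1 : ∀ i, (T.cJ i : R) * x i = (∑ l ∈ Finset.univ.erase j0,
      ∑ b, if (T.C l).e ((T.pos l).succAbove b) = i then x i else 0) +
      if i = j0 then x i else 0 := by
    intro i
    unfold cJ
    push_cast
    rw [add_mul, Finset.sum_mul]
    congr 1
    · refine Finset.sum_congr rfl fun l _ => ?_
      rw [Finset.sum_mul]
      exact Finset.sum_congr rfl fun b _ => by split_ifs <;> simp
    · split_ifs <;> simp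
  rw [Finset.sum_congr rfl fun i _ => h1 i, Finset.sum_add_distrib, Finset.sum_comm,
    Finset.sum_ite_eq' Finset.univ j0]
  simp only [Finset.mem_univ, if_true]
  congr 1
  refine Finset.sum_congr rfl fun l _ => ?_
  rw [Finset.sum_comm]
  refine Finset.sum_congr rfl fun b _ => ?_
  rw [Finset.sum_ite_eq Finset.univ]
  simp

theorem one_le_cJ (i : J) : 1 ≤ T.cJ i := by
  unfold cJ
  by_cases hi : i = j0
  · rw [if_pos hi]
    omega
  · rw [if_neg hi, add_zero]
    obtain ⟨a, ha⟩ := T.self i hi
    have hne : a ≠ T.pos i := by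
      intro h
      have h1 := T.lt i hi
      rw [← T.pos_eq hi, ← h, ha] at h1
      exact lt_irrefl _ h1
    obtain ⟨b, hb⟩ := Fin.exists_succAbove_eq hne
    refine le_trans ?_ (Finset.single_le_sum (f := fun l => ∑ b,
      if (T.C l).e ((T.pos l).succAbove b) = i then 1 else 0) (fun _ _ => Nat.zero_le _)
      (Finset.mem_erase.2 ⟨hi, Finset.mem_univ i⟩))
    refine le_trans ?_ (Finset.single_le_sum (f := fun b =>
      if (T.C i).e ((T.pos i).succAbove b) = i then 1 else 0) (fun _ _ => Nat.zero_le _)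
      (Finset.mem_univ b))
    rw [hb, if_pos ha]

theorem sum_m_le : ∑ l ∈ Finset.univ.erase j0, (T.C l).m ≤
    (Fintype.card J - 1) * (Fintype.card J - 1) := by
  have h1 : (Finset.univ.erase j0 : Finset J).card = Fintype.card J - 1 := by
    rw [Finset.card_erase_of_mem (Finset.mem_univ j0), Finset.card_univ]
  calc ∑ l ∈ Finset.univ.erase j0, (T.C l).m
      ≤ ∑ l ∈ Finset.univ.erase j0, (Fintype.card J - 1) :=
        Finset.sum_le_sum fun l _ => by have := (T.C l).m_lt; omega
    _ = _ := by rw [Finset.sum_const, h1, smul_eq_mul]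

theorem cJ_total : ∑ i, T.cJ i ≤ (Fintype.card J - 1) * (Fintype.card J - 1) + 1 := by
  have h1 := T.sum_cJ (R := ℕ) fun _ => 1
  simp only [Nat.cast_id, mul_one] at h1
  rw [h1]
  refine Nat.add_le_add_right ?_ 1
  refine le_trans (le_of_eq ?_) T.sum_m_le
  refine Finset.sum_congr rfl fun l _ => ?_
  simp

/-- the total loss -/
theorem tri_total : ∑ l ∈ Finset.univ.erase j0, tri (T.C l).m ≤
    (Fintype.card J - 1) * tri (Fintype.card J - 1) := by
  have h1 : (Finset.univ.erase j0 : Finset J).card = Fintype.card J - 1 := by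
    rw [Finset.card_erase_of_mem (Finset.mem_univ j0), Finset.card_univ]
  calc ∑ l ∈ Finset.univ.erase j0, tri (T.C l).m
      ≤ ∑ l ∈ Finset.univ.erase j0, tri (Fintype.card J - 1) :=
        Finset.sum_le_sum fun l _ => tri_mono (by have := (T.C l).m_lt; omega)
    _ = _ := by rw [Finset.sum_const, h1, smul_eq_mul]

/-- The main inequality for trees. -/
theorem main {α : Type*} [AddCommGroup α] [LinearOrder α] [IsOrderedAddMonoid α] (x y : J → α)
    (h : ∀ l, l ≠ j0 → ∀ i : Fin ((T.C l).m + 1), y l ≤ ∑ b, x ((T.C l).e (i.succAbove b)))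
    (j : J) :
    ∑ l ∈ Finset.univ.erase j0, y l + x j ≤
      (∑ l ∈ Finset.univ.erase j0, ∑ b, x ((T.C l).e ((T.pos l).succAbove b))) + x j0 := by
  have h1 := T.sum_ge (fun l => (∑ b, x ((T.C l).e ((T.pos l).succAbove b))) - y l) x
    (fun l hl => sub_nonneg.2 (h l hl (T.pos l))) (fun l hl => by
      obtain ⟨a, ha⟩ := T.self l hl
      have h2 := h l hl a
      have h3 := Fin.sum_univ_succAbove (fun i => x ((T.C l).e i)) a
      have h4 := Fin.sum_univ_succAbove (fun i => x ((T.C l).e i)) (T.pos l)
      rw [T.pos_eq hl] at h4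
      rw [ha] at h3
      have h5 : ∑ b, x ((T.C l).e (a.succAbove b)) =
          x (T.r l) + (∑ b, x ((T.C l).e ((T.pos l).succAbove b))) - x l := by
        rw [eq_sub_iff_add_eq, ← h4, h3]
        abel
      rw [h5] at h2
      have h6 : x l - x (T.r l) =
          (∑ b, x ((T.C l).e ((T.pos l).succAbove b))) - (x (T.r l) +
            (∑ b, x ((T.C l).e ((T.pos l).succAbove b))) - x l) := by abel
      rw [h6]
      exact sub_le_sub_left h2 _) j
  rw [Finset.sum_sub_distrib, sub_le_iff_le_add] at h1
  have h7 := add_le_add_left h1 (∑ l ∈ Finset.univ.erase j0, y l)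
  refine le_trans (le_of_eq ?_) (h7.trans (le_of_eq ?_)) <;> abel

end Tree

end Pool.Agent.R869
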