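import Pool.Agent.W603.GR.Main
import Pool.Agent.R869.Tree2

/-!
Relations with cofactors between forms on a quasi-projective variety.
-/

set_option autoImplicit false

open MvPolynomial

namespace Pool.Agent.R869

/-- A relation with cofactors on the quasi-projective variety in `P^n` that is the complement of the
hypersurface `Q = 0` (`Q` of degree `q`) in the closed variety with the ideal `p`: the sum of the
forms `a l * u l * b l ^ N l` of degree `e` vanishes on the variety, but no proper partial sum does;
the forms `u l` have no zeros on the quasi-projective variety, since they divide a power of `Q`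
modulo `p`; and the forms `b l` for the members `l` of `J1`, for which `u l = 1`, have no common
zeros on the closed variety. -/
structure CoRel {k : Type} [Field k] {n : ℕ} (p : Ideal (MvPolynomial (Fin (n + 1)) k))
    (Q : MvPolynomial (Fin (n + 1)) k) (q : ℕ) (J : Type) [Fintype J] where
  /-- the cofactors -/
  a : J → MvPolynomial (Fin (n + 1)) k
  /-- the units -/
  u : J → MvPolynomial (Fin (n + 1)) k
  /-- the forms with high exponents -/
  b : J → MvPolynomial (Fin (n + 1)) k
  /-- the exponents -/
  N : J → ℕ
  /-- the degrees of the cofactors -/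
  δ : J → ℕ
  /-- the degrees of the units -/
  d : J → ℕ
  /-- the degrees of the forms with high exponents -/
  m : J → ℕ
  /-- the degree of the terms -/
  e : ℕ
  /-- the terms without zeros in common -/
  J1 : Finset J
  homa : ∀ l, (a l).IsHomogeneous (δ l)
  homu : ∀ l, (u l).IsHomogeneous (d l)
  homb : ∀ l, (b l).IsHomogeneous (m l)
  deg : ∀ l, δ l + d l + N l * m l = e
  unit : ∀ l, ∃ (χ : MvPolynomial (Fin (n + 1)) k) (c r : ℕ), χ.IsHomogeneous c ∧
    d l + c = r * q ∧ u l * χ - Q ^ r ∈ p
  one : ∀ l ∈ J1, u l = 1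
  pos : ∀ l ∈ J1, 0 < m l
  base : ∀ x : Fin (n + 1) → k, x ≠ 0 → (∀ H ∈ p, eval x H = 0) → ∃ l ∈ J1, eval x (b l) ≠ 0
  rel : ∑ l, a l * u l * b l ^ N l ∈ p
  no : ∀ S : Finset J, S.Nonempty → S ≠ Finset.univ → ∑ l ∈ S, a l * u l * b l ^ N l ∉ p

namespace CoRel

variable {k : Type} [Field k] {n : ℕ} {p : Ideal (MvPolynomial (Fin (n + 1)) k)}
  {Q : MvPolynomial (Fin (n + 1)) k} {q : ℕ} {J : Type} [Fintype J]

/-- the terms -/
noncomputable def term (C : CoRel p Q q J) (l : J) : MvPolynomial (Fin (n + 1)) k :=
  C.a l * C.u l * C.b l ^ C.N l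

open Classical in
/-- The product of the proper partial sums of the relation. -/
noncomputable def R (C : CoRel p Q q J) : MvPolynomial (Fin (n + 1)) k :=
  ∏ S ∈ (Finset.univ : Finset (Finset J)).filter (fun S => S.Nonempty ∧ S ≠ Finset.univ),
    ∑ l ∈ S, C.term l

/-- The cofactors have degree at most `δ`, and the exponents are at least `s ^ 4 * (δ + 1)`, where
`s ≥ 2` is the number of terms. -/
def Large (C : CoRel p Q q J) (δ : ℕ) : Prop :=
  2 ≤ Fintype.card J ∧ ∀ l, C.δ l ≤ δ ∧ Fintype.card J ^ 4 * (δ + 1) ≤ C.N l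

end CoRel

end Pool.Agent.R869
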