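import Mathlib
import Pool.Agent.H952R2.Sextic.CommonZero

/-!
Rational curves of small weighted degree through the points of an affine variety.
-/

set_option autoImplicit false

open MvPolynomial

namespace Pool.Agent.R869

/-- The polynomial `F` has weighted degree at most `e`, the variable `x i` having weight `w i`. -/
def WDeg {k : Type} [CommSemiring k] {m : ℕ} (w : Fin m → ℕ) (F : MvPolynomial (Fin m) k) (e : ℕ) :
    Prop :=
  ∀ α ∈ F.support, ∑ i, α i * w i ≤ e

section

variable {k : Type} [Field k] {m : ℕ} {w : Fin m → ℕ}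

theorem WDeg.natDegree {R : Type} [CommRing R] [Algebra k R] {F : MvPolynomial (Fin m) k} {e : ℕ}
    (hF : WDeg w F e) {Ξ : Fin m → Polynomial R} (hΞ : ∀ i, (Ξ i).natDegree ≤ w i) :
    (aeval Ξ F : Polynomial R).natDegree ≤ e := by
  rw [aeval_def, eval₂_eq']
  refine Polynomial.natDegree_sum_le_of_forall_le _ _ fun α hα => ?_
  refine le_trans (Polynomial.natDegree_mul_le) ?_
  have h1 : ((algebraMap k (Polynomial R)) (coeff α F)).natDegree = 0 := by
    rw [Polynomial.algebraMap_apply]
    exact Polynomial.natDegree_C _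
  rw [h1, zero_add]
  refine le_trans (Polynomial.natDegree_prod_le _ _) ?_
  refine le_trans (Finset.sum_le_sum fun i _ => ?_) (hF α hα)
  refine le_trans Polynomial.natDegree_pow_le ?_
  exact Nat.mul_le_mul_left _ (hΞ i)

theorem coeff_zero_aeval {R : Type} [CommRing R] [Algebra k R] (F : MvPolynomial (Fin m) k)
    (Ξ : Fin m → Polynomial R) :
    (aeval Ξ F : Polynomial R).coeff 0 = aeval (fun i => (Ξ i).coeff 0) F := by
  have h := MvPolynomial.comp_aeval_apply (f := Ξ) (Polynomial.aeval (R := R) (0 : R) |>.restrictScalars k) F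
  have e : ∀ P : Polynomial R, (Polynomial.aeval (R := R) (0 : R) |>.restrictScalars k) P =
      P.coeff 0 := by
    intro P
    rw [AlgHom.restrictScalars_apply, Polynomial.aeval_def, Polynomial.coeff_zero_eq_eval_zero]
    rfl
  rw [e] at h
  rw [h]
  congr 2
  funext i
  exact e _

variable {M : Type} [Field M] [Algebra k M]

/-- **Rational curves by counting parameters.** -/
theorem exists_curve [IsAlgClosed M] {c : ℕ} {F : Fin c → MvPolynomial (Fin m) k} {e : Fin c → ℕ}
    (hF : ∀ j, WDeg w (F j) (e j)) {G : MvPolynomial (Fin m) k} {d : ℕ} (hG : WDeg w G d)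
    {u : ℕ} {a : Fin u → ℕ} (ha : ∀ v, 0 < a v) (had : ∑ v, a v = d)
    (hcount : ∑ j, e j + d < ∑ i, w i + u) {x : Fin m → M} (hx : ∀ j, aeval x (F j) = 0)
    (hxG : aeval x G ≠ 0) :
    ∃ (ξ : Fin m → Polynomial M) (τ : Fin u → M), (∀ i, (ξ i).natDegree ≤ w i) ∧
      (∀ i, (ξ i).coeff 0 = x i) ∧
      (∃ i, ξ i ≠ Polynomial.C (x i)) ∧ (∀ j, (aeval ξ (F j) : Polynomial M) = 0) ∧
      (aeval ξ G : Polynomial M) = Polynomial.C (aeval x G) *
        ∏ v, (1 + Polynomial.C (τ v) * Polynomial.X) ^ a v := by
  classical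
  let ι : Type := (Σ i : Fin m, Fin (w i)) ⊕ Fin u
  let κ : Type := (Σ j : Fin c, Fin (e j)) ⊕ Fin d
  let R := MvPolynomial ι M
  let _ : Algebra k R := (((MvPolynomial.C : M →+* R)).comp (algebraMap k M)).toAlgebra
  have hst : IsScalarTower k M R := IsScalarTower.of_algebraMap_eq' rfl
  let Ξ : Fin m → Polynomial R := fun i => Polynomial.C (C (x i)) +
    ∑ r : Fin (w i), Polynomial.C (X (Sum.inl ⟨i, r⟩)) * Polynomial.X ^ ((r : ℕ) + 1)
  let Γ : Polynomial R := (aeval Ξ G : Polynomial R) - Polynomial.C (C (aeval x G)) *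
    ∏ v, (1 + Polynomial.C (X (Sum.inr v)) * Polynomial.X) ^ a v
  let f : κ → R := Sum.elim (fun jr => (aeval Ξ (F jr.1) : Polynomial R).coeff ((jr.2 : ℕ) + 1))
    (fun r => Γ.coeff ((r : ℕ) + 1))
  -- specialisation
  let ev : (ι → M) → Polynomial R →+* Polynomial M := fun z => Polynomial.mapRingHom (eval z)
  have hev : ∀ (z : ι → M) (H : MvPolynomial (Fin m) k),
      (aeval Ξ H : Polynomial R).map (eval z) = aeval (fun i => (Ξ i).map (eval z)) H := by
    intro z H
    let φ : Polynomial R →ₐ[k] Polynomial M :=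
      { Polynomial.mapRingHom (eval z) with
        commutes' := by
          intro r
          change Polynomial.map (eval z) (algebraMap k (Polynomial R) r) = _
          rw [IsScalarTower.algebraMap_apply k R (Polynomial R), Polynomial.algebraMap_apply,
            Polynomial.algebraMap_apply, Polynomial.map_C]
          congr 1
          rw [IsScalarTower.algebraMap_apply k M R]
          change eval z (C (algebraMap k M r)) = _
          rw [eval_C] }
    exact MvPolynomial.comp_aeval_apply (f := Ξ) φ H
  have hΞ : ∀ (z : ι → M) (i : Fin m), (Ξ i).map (eval z) = Polynomial.C (x i) +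
      ∑ r : Fin (w i), Polynomial.C (z (Sum.inl ⟨i, r⟩)) * Polynomial.X ^ ((r : ℕ) + 1) := by
    intro z i
    simp only [Ξ, Polynomial.map_add, Polynomial.map_C, eval_C, Polynomial.map_sum,
      Polynomial.map_mul, eval_X, Polynomial.map_pow, Polynomial.map_X]
  have hΓ : ∀ z : ι → M, Γ.map (eval z) = aeval (fun i => (Ξ i).map (eval z)) G -
      Polynomial.C (aeval x G) * ∏ v, (1 + Polynomial.C (z (Sum.inr v)) * Polynomial.X) ^ a v := by
    intro z
    simp only [Γ, Polynomial.map_sub, hev, Polynomial.map_mul, Polynomial.map_C, eval_C,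
      Polynomial.map_prod, Polynomial.map_pow, Polynomial.map_add, Polynomial.map_one, eval_X,
      Polynomial.map_X]
  -- the equations hold at the origin
  have h0Ξ : ∀ i, (Ξ i).map (eval (0 : ι → M)) = Polynomial.C (x i) := by
    intro i
    rw [hΞ]
    simp
  have hconst : ∀ H : MvPolynomial (Fin m) k,
      (aeval (fun i => Polynomial.C (x i)) H : Polynomial M) = Polynomial.C (aeval x H) := by
    intro H
    have h := MvPolynomial.comp_aeval_apply (f := x) ((Polynomial.CAlgHom (R := M) (A := M)).restrictScalars k) H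
    exact h.symm
  have h0 : ∀ l, eval 0 (f l) = 0 := by
    rintro (⟨j, r⟩ | r)
    · change eval 0 ((aeval Ξ (F j) : Polynomial R).coeff ((r : ℕ) + 1)) = 0
      rw [← Polynomial.coeff_map, hev]
      simp only [h0Ξ]
      rw [hconst, Polynomial.coeff_C_succ]
    · change eval 0 (Γ.coeff ((r : ℕ) + 1)) = 0
      rw [← Polynomial.coeff_map, hΓ]
      simp only [h0Ξ]
      rw [hconst]
      simp
  have hcard : Fintype.card κ < Fintype.card ι := by
    simp only [κ, ι, Fintype.card_sum, Fintype.card_sigma, Fintype.card_fin]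
    exact hcount
  obtain ⟨z, hz0, hz⟩ := Pool.Agent.H952R2.Sextic.exists_common_zero hcard f h0
  have hdeg : ∀ i, (Ξ i).natDegree ≤ w i := by
    intro i
    refine (Polynomial.natDegree_add_le _ _).trans (max_le ?_ ?_)
    · rw [Polynomial.natDegree_C]
      exact Nat.zero_le _
    · refine Polynomial.natDegree_sum_le_of_forall_le _ _ fun r _ => ?_
      refine (Polynomial.natDegree_C_mul_X_pow_le _ _).trans ?_
      have := r.2
      omega
  set ξ : Fin m → Polynomial M := fun i => (Ξ i).map (eval z) with hξ
  have hξ0 : ∀ i, (ξ i).coeff 0 = x i := by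
    intro i
    simp only [hξ]
    rw [hΞ]
    simp
  have hFz : ∀ j, (aeval ξ (F j) : Polynomial M) = 0 := by
    intro j
    ext r
    rw [Polynomial.coeff_zero]
    rcases Nat.eq_zero_or_pos r with hr | hr
    · subst hr
      rw [coeff_zero_aeval]
      simp only [hξ0]
      exact hx j
    · by_cases hre : r ≤ e j
      · have h1 := hz (Sum.inl ⟨j, ⟨r - 1, by omega⟩⟩)
        change eval z ((aeval Ξ (F j) : Polynomial R).coeff (r - 1 + 1)) = 0 at h1
        rwa [← Polynomial.coeff_map, hev, Nat.sub_add_cancel hr] at h1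
      · apply Polynomial.coeff_eq_zero_of_natDegree_lt
        have h1 : (aeval ξ (F j) : Polynomial M).natDegree ≤ e j :=
          (hF j).natDegree fun i => (Polynomial.natDegree_map_le).trans (hdeg i)
        omega
  have hdG : ∀ τ : Fin u → M, (∏ v, (1 + Polynomial.C (τ v) * Polynomial.X) ^ a v).natDegree ≤ d := by
    intro τ
    refine (Polynomial.natDegree_prod_le _ _).trans ?_
    rw [← had]
    refine Finset.sum_le_sum fun v _ => ?_
    refine Polynomial.natDegree_pow_le.trans ?_
    have : (1 + Polynomial.C (τ v) * Polynomial.X).natDegree ≤ 1 := by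
      refine (Polynomial.natDegree_add_le _ _).trans (max_le ?_ ?_)
      · simp
      · refine Polynomial.natDegree_C_mul_le _ _ |>.trans ?_
        exact Polynomial.natDegree_X_le
    calc a v * _ ≤ a v * 1 := Nat.mul_le_mul_left _ this
      _ = a v := mul_one _
  have hGz : (aeval ξ G : Polynomial M) = Polynomial.C (aeval x G) *
      ∏ v, (1 + Polynomial.C (z (Sum.inr v)) * Polynomial.X) ^ a v := by
    have hΓz := hΓ z
    rw [← sub_eq_zero]
    change (aeval (fun i => (Ξ i).map (eval z)) G : Polynomial M) - _ = 0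
    rw [← hΓz]
    ext r
    rw [Polynomial.coeff_zero]
    rcases Nat.eq_zero_or_pos r with hr | hr
    · subst hr
      rw [hΓz, Polynomial.coeff_sub]
      have h1 : (aeval (fun i => (Ξ i).map (eval z)) G : Polynomial M).coeff 0 = aeval x G := by
        rw [coeff_zero_aeval]
        congr 2
        funext i
        exact hξ0 i
      rw [h1, Polynomial.coeff_C_mul, Polynomial.coeff_zero_eq_eval_zero, Polynomial.eval_prod]
      simp
    · by_cases hre : r ≤ d
      · have h1 := hz (Sum.inr ⟨r - 1, by omega⟩)
        change eval z (Γ.coeff (r - 1 + 1)) = 0 at h1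
        rwa [← Polynomial.coeff_map, Nat.sub_add_cancel hr] at h1
      · apply Polynomial.coeff_eq_zero_of_natDegree_lt
        rw [hΓz]
        have h1 : (aeval (fun i => (Ξ i).map (eval z)) G : Polynomial M).natDegree ≤ d :=
          hG.natDegree fun i => (Polynomial.natDegree_map_le).trans (hdeg i)
        have h2 : (Polynomial.C (aeval x G) * ∏ v, (1 + Polynomial.C (z (Sum.inr v)) *
            Polynomial.X) ^ a v).natDegree ≤ d :=
          (Polynomial.natDegree_C_mul_le _ _).trans (hdG _)
        have h3 := (Polynomial.natDegree_sub_le (aeval (fun i => (Ξ i).map (eval z)) G)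
          (Polynomial.C (aeval x G) * ∏ v, (1 + Polynomial.C (z (Sum.inr v)) *
            Polynomial.X) ^ a v)).trans (max_le h1 h2)
        omega
  refine ⟨ξ, fun v => z (Sum.inr v), fun i => (Polynomial.natDegree_map_le).trans (hdeg i), hξ0,
    ?_, hFz, hGz⟩
  by_contra hcon
  push Not at hcon
  apply hz0
  funext l
  rcases l with ⟨i, r⟩ | v
  · have h1 := congrArg (fun P : Polynomial M => P.coeff ((r : ℕ) + 1)) (hcon i)
    simp only [hξ] at h1
    rw [hΞ, Polynomial.coeff_add, Polynomial.coeff_C_succ, zero_add,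
      Polynomial.finsetSum_coeff] at h1
    simp only [Polynomial.coeff_C_mul, Polynomial.coeff_X_pow] at h1
    rw [Finset.sum_eq_single r] at h1
    · simpa using h1
    · intro b _ hb
      rw [if_neg, mul_zero]
      intro h
      exact hb (Fin.ext (by omega))
    · intro h
      exact absurd (Finset.mem_univ r) h
  · have h1 : (aeval ξ G : Polynomial M) = Polynomial.C (aeval x G) := by
      have : ξ = fun i => Polynomial.C (x i) := funext hcon
      rw [this, hconst]
    rw [h1] at hGz
    have h2 : ∏ v, (1 + Polynomial.C (z (Sum.inr v)) * Polynomial.X) ^ a v = 1 := by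
      have h3 : Polynomial.C (aeval x G) ≠ 0 := by
        rwa [Ne, Polynomial.C_eq_zero]
      exact mul_left_cancel₀ h3 (by rw [← hGz, mul_one])
    by_contra hv
    have hv' : z (Sum.inr v) ≠ 0 := hv
    have h4 : (1 + Polynomial.C (z (Sum.inr v)) * Polynomial.X) ∣
        ∏ v, (1 + Polynomial.C (z (Sum.inr v)) * Polynomial.X) ^ a v :=
      (dvd_pow_self _ (Nat.pos_iff_ne_zero.1 (ha v))).trans
        (Finset.dvd_prod_of_mem (fun v => (1 + Polynomial.C (z (Sum.inr v)) * Polynomial.X) ^ a v)
          (Finset.mem_univ v))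
    rw [h2] at h4
    have h5 := Polynomial.natDegree_eq_zero_of_isUnit (isUnit_of_dvd_one h4)
    have h6 : (1 + Polynomial.C (z (Sum.inr v)) * Polynomial.X : Polynomial M).coeff 1 ≠ 0 := by
      rw [Polynomial.coeff_add, Polynomial.coeff_one, Polynomial.coeff_C_mul,
        Polynomial.coeff_X_one]
      simpa using hv'
    exact h6 (Polynomial.coeff_eq_zero_of_natDegree_lt (by omega))

end

end Pool.Agent.R869
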