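import Pool.Agent.R869.LGm
import Pool.Agent.TH143.GT.Close

/-!
Log Calabi-Yau and log Fano pairs: none of the five conditions holds.
-/

set_option autoImplicit false

open MvPolynomial Metric Set Filter Topology FF Pool.Agent.W602.GT Pool.Agent.W603.BP
  Pool.Agent.W603.BPR Pool.Agent.W603.GR Pool.Agent.W603.PV Pool.Agent.TH143.GT

namespace Pool.Agent.R869

theorem exists_generic {m : ℕ} (P : Ideal (MvPolynomial (Fin m) ℂ)) (hP : P.IsPrime) :
    ∃ (M : Type) (_ : Field M) (_ : Algebra ℂ M) (_ : IsAlgClosed M) (d : ℕ) (x : Fin m → M),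
      Algebra.trdeg ℂ M = d ∧ ∀ H : MvPolynomial (Fin m) ℂ, aeval x H = 0 ↔ H ∈ P := by
  let S := MvPolynomial (Fin m) ℂ ⧸ P
  let KV := FractionRing S
  let M := AlgebraicClosure KV
  have h1 : Algebra.IsAlgebraic S KV := IsLocalization.isAlgebraic KV (nonZeroDivisors S)
  have h2 : Algebra.IsAlgebraic S M := Algebra.IsAlgebraic.trans S KV M
  have hinj : Function.Injective (algebraMap S M) := by
    rw [IsScalarTower.algebraMap_eq S KV M]
    exact (algebraMap KV M).injective.comp (IsFractionRing.injective S KV)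
  have hf : FaithfulSMul S M := (faithfulSMul_iff_algebraMap_injective S M).2 hinj
  have h3 : Algebra.trdeg ℂ M < Cardinal.aleph0 := by
    rw [← trdeg_add_eq ℂ S (A := M), trdeg_eq_zero (R := S) (A := M), add_zero]
    exact trdeg_lt_aleph0_of_finiteType
  obtain ⟨d, hd⟩ := Cardinal.lt_aleph0.1 h3
  refine ⟨M, inferInstance, inferInstance, inferInstance, d,
    fun i => algebraMap S M (Ideal.Quotient.mk P (X i)), hd, fun H => ?_⟩
  have h4 : aeval (fun i => algebraMap S M (Ideal.Quotient.mk P (X i))) H =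
      algebraMap S M (Ideal.Quotient.mk P H) := by
    have h5 := MvPolynomial.comp_aeval_apply (f := fun i => Ideal.Quotient.mk P (X i))
      (IsScalarTower.toAlgHom ℂ S M) H
    have h6 : (aeval fun i => Ideal.Quotient.mk P (X i)) H = Ideal.Quotient.mk P H := by
      have h7 := MvPolynomial.comp_aeval_apply (f := (X : Fin m → MvPolynomial (Fin m) ℂ))
        (Ideal.Quotient.mkₐ ℂ P) H
      rw [aeval_X_left_apply] at h7
      exact h7.symm
    rw [h6] at h5
    exact h5.symm
  rw [h4, map_eq_zero_iff _ hinj, Ideal.Quotient.eq_zero_iff_mem]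

theorem exists_point {m : ℕ} {P : Ideal (MvPolynomial (Fin m) ℂ)} (hP : P.IsPrime)
    {H : MvPolynomial (Fin m) ℂ} (hH : H ∉ P) :
    ∃ x : Fin m → ℂ, (∀ z ∈ P, aeval x z = 0) ∧ aeval x H ≠ 0 := by
  by_contra hcon
  push Not at hcon
  apply hH
  have h1 : H ∈ vanishingIdeal ℂ (zeroLocus ℂ P) := fun x hx => hcon x hx
  rw [vanishingIdeal_zeroLocus_eq_radical, hP.radical] at h1
  exact h1

variable {n : ℕ} {p : Ideal (MvPolynomial (Fin (n + 1)) ℂ)} {Q : MvPolynomial (Fin (n + 1)) ℂ}
  {q : ℕ}

/-- a family of curves with at most two punctures excludes logarithmic general type -/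
theorem GmCurve.not_lgt {M K : Type} [Field M] [Algebra ℂ M] {d : ℕ} (hd : Algebra.trdeg ℂ M = d)
    {W : Fin (n + 1) → Polynomial M} {l : ℕ} (hW : GmCurve p Q W l) (hQ : Q.IsHomogeneous q)
    [Field K] [Algebra ℂ K] {w : ℕ} {y : Fin (n + 1) → K} (hy : y ≠ 0) (hgen : coords ℂ y = ⊤)
    (hdim : Algebra.trdeg ℂ K = w)
    (hrel : ∀ H : MvPolynomial (Fin (n + 1)) ℂ, IsForm H →
      (W602.GT.val y H = 0 ↔ (aeval W H : Polynomial M) = 0)) :
    ¬ LogGeneralType ℂ K w (OffQ Q q y) := by
  intro hlgt
  have hF : Fam y Q W l := ⟨hrel, hW.bd⟩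
  have hchar : CharZero M := charZero_of_injective_algebraMap (algebraMap ℂ M).injective
  obtain ⟨i, j, s, hs, hne⟩ := hW.nonconst
  have hWj : W j ≠ 0 := by
    intro h
    apply hne
    rw [h, Polynomial.eval_zero, Polynomial.eval_zero, mul_zero, mul_zero]
  have hyj : y j ≠ 0 := (hF.ne j).2 hWj
  have h1 := (hF.main hdim hd hy hgen hQ).2.2.1 hlgt (y i / y j) 1 (X i) (X j)
    (isHomogeneous_X _ _) (isHomogeneous_X _ _) (by
      unfold W602.GT.val
      rwa [aeval_X]) (by
      unfold W602.GT.val
      rw [aeval_X, aeval_X])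
  rw [aeval_X, aeval_X] at h1
  exact hne (poly_const' h1 s 1)

/-- values of a curve -/
theorem aeval_eval {M : Type} [Field M] [Algebra ℂ M] (W : Fin (n + 1) → Polynomial M) (s : M)
    (H : MvPolynomial (Fin (n + 1)) ℂ) :
    (aeval W H : Polynomial M).eval s = aeval (fun j => (W j).eval s) H := by
  have h2 := MvPolynomial.comp_aeval_apply (f := W)
    ((Polynomial.aeval (R := M) s).restrictScalars ℂ) H
  have h3 : ∀ P : Polynomial M, ((Polynomial.aeval (R := M) s).restrictScalars ℂ) P = P.eval s := by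
    intro P
    rw [AlgHom.restrictScalars_apply, Polynomial.coe_aeval_eq_eval]
  rw [h3] at h2
  rw [h2]
  congr 2

section complex

variable {W : Fin (n + 1) → Polynomial ℂ} {l : ℕ}

theorem GmCurve.pts (hW : GmCurve p Q W l) {s : ℂ} (hs : s ≠ 0) :
    (fun j => (W j).eval s) ∈ PtsP p Q := by
  refine ⟨?_, fun H hH => ?_, ?_⟩
  · obtain ⟨j, hj⟩ := hW.ne s hs
    intro h
    exact hj (congrFun h j)
  · have h1 := aeval_eval W s H
    rw [hW.mem H hH, Polynomial.eval_zero] at h1
    exact h1.symm
  · obtain ⟨c, hc, hcQ⟩ := hW.bd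
    have h1 := aeval_eval W s Q
    rw [hcQ, Polynomial.eval_mul, Polynomial.eval_C, Polynomial.eval_pow, Polynomial.eval_X] at h1
    change aeval (fun j => (W j).eval s) Q ≠ 0
    rw [← h1]
    exact mul_ne_zero hc (pow_ne_zero _ hs)

theorem GmCurve.entire (hW : GmCurve p Q W l) :
    EntireCurve p Q (fun z j => (W j).eval (Complex.exp z)) := by
  refine ⟨?_, fun z => hW.pts (Complex.exp_ne_zero z), ?_⟩
  · rw [differentiable_pi]
    intro j
    exact (W j).differentiable.comp Complex.differentiable_exp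
  · obtain ⟨i, j, s, hs, hne⟩ := hW.nonconst
    refine ⟨Complex.log s, 0, fun c h => hne ?_⟩
    have h1 := congrFun h i
    have h2 := congrFun h j
    simp only [Complex.exp_log hs, Complex.exp_zero, Pi.smul_apply, smul_eq_mul] at h1 h2
    rw [h1, h2]
    ring

/-- the curve in the punctured disc -/
theorem GmCurve.punctured (hW : GmCurve p Q W l) :
    PCurve p Q (fun z j => (W j).eval (Complex.exp z⁻¹)) ∧
      ¬ Extends (fun z j => (W j).eval (Complex.exp z⁻¹)) := by
  refine ⟨⟨?_, fun z _ => hW.pts (Complex.exp_ne_zero _)⟩, ?_⟩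
  · rw [differentiableOn_pi]
    intro j z hz
    have hz0 : z ≠ 0 := hz.2
    have h1 : DifferentiableAt ℂ (fun z : ℂ => Complex.exp z⁻¹) z :=
      (Complex.differentiable_exp _).comp z (differentiableAt_inv hz0)
    exact (((W j).differentiable _).comp z h1).differentiableWithinAt
  · rintro ⟨g, hg, hg0, hfg⟩
    obtain ⟨i, j, s, hs, hne⟩ := hW.nonconst
    have hgc : ContinuousAt g 0 :=
      (hg.differentiableAt (isOpen_ball.mem_nhds (mem_ball_self one_pos))).continuousAt
    -- the sequences on which the exponential is constant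
    have hseq : ∀ a : ℂ, ∀ i' j', g 0 i' * (W j').eval (Complex.exp a) =
        g 0 j' * (W i').eval (Complex.exp a) := by
      intro a i' j'
      let b : ℕ → ℂ := fun N => a + N * (2 * Real.pi * Complex.I)
      have hb : ∀ N, Complex.exp (b N) = Complex.exp a := by
        intro N
        simp only [b]
        rw [Complex.exp_add, Complex.exp_nat_mul_two_pi_mul_I, mul_one]
      have htend : Tendsto (fun N => ‖b N‖) atTop atTop := by
        have h1 : ∀ N : ℕ, (N : ℝ) * (2 * Real.pi) - ‖a‖ ≤ ‖b N‖ := by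
          intro N
          have h2 : ‖(N : ℂ) * (2 * Real.pi * Complex.I)‖ = (N : ℝ) * (2 * Real.pi) := by
            rw [norm_mul, norm_mul, norm_mul, Complex.norm_I, mul_one, Complex.norm_natCast,
              Complex.norm_real, Complex.norm_ofNat, Real.norm_eq_abs,
              abs_of_pos Real.pi_pos]
          have h3 : ‖(N : ℂ) * (2 * Real.pi * Complex.I)‖ ≤ ‖b N‖ + ‖a‖ := by
            calc _ = ‖b N - a‖ := by simp only [b]; congr 1; ring
              _ ≤ _ := norm_sub_le _ _
          linarith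
        refine tendsto_atTop_mono h1 ?_
        apply tendsto_atTop_add_const_right
        exact tendsto_natCast_atTop_atTop.atTop_mul_const (by positivity)
      have hz : Tendsto (fun N => (b N)⁻¹) atTop (𝓝 0) := by
        rw [tendsto_zero_iff_norm_tendsto_zero]
        simp only [norm_inv]
        exact tendsto_inv_atTop_zero.comp htend
      have hbig : ∀ᶠ N in atTop, 1 < ‖b N‖ := htend.eventually_gt_atTop 1
      have heq : ∀ᶠ N in atTop, g (b N)⁻¹ i' * (W j').eval (Complex.exp a) =
          g (b N)⁻¹ j' * (W i').eval (Complex.exp a) := by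
        refine hbig.mono fun N hN => ?_
        have hb0 : b N ≠ 0 := by
          intro h
          rw [h, norm_zero] at hN
          linarith
        have hmem : (b N)⁻¹ ∈ ball (0 : ℂ) 1 \ {0} := by
          refine ⟨?_, inv_ne_zero hb0⟩
          rw [mem_ball_zero_iff, norm_inv]
          exact inv_lt_one_of_one_lt₀ hN
        obtain ⟨c, hc⟩ := hfg _ hmem
        have h1 := congrFun hc i'
        have h2 := congrFun hc j'
        simp only [inv_inv, hb, Pi.smul_apply, smul_eq_mul] at h1 h2
        rw [h1, h2]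
        ring
      have hlim : ∀ i', Tendsto (fun N => g (b N)⁻¹ i') atTop (𝓝 (g 0 i')) := fun i' =>
        (tendsto_pi_nhds.1 (hgc.tendsto.comp hz)) i'
      exact tendsto_nhds_unique_of_eventuallyEq ((hlim i').mul_const _) ((hlim j').mul_const _) heq
    have h1 := hseq 0
    have h2 := hseq (Complex.log s)
    rw [Complex.exp_log hs] at h2
    rw [Complex.exp_zero] at h1
    obtain ⟨i0, hi0⟩ : ∃ i0, g 0 i0 ≠ 0 := by
      by_contra hcon
      push Not at hcon
      exact hg0 0 (mem_ball_self one_pos) (funext hcon)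
    apply hne
    -- both vectors are proportional to `g 0`
    have e1 : ∀ j', (W j').eval 1 * g 0 i0 = g 0 j' * (W i0).eval 1 := fun j' => by
      linear_combination h1 i0 j'
    have e2 : ∀ j', (W j').eval s * g 0 i0 = g 0 j' * (W i0).eval s := fun j' => by
      linear_combination h2 i0 j'
    have h3 : g 0 i0 ^ 2 * ((W i).eval s * (W j).eval 1 - (W i).eval 1 * (W j).eval s) = 0 := by
      linear_combination (W j).eval 1 * g 0 i0 * e2 i + g 0 i * (W i0).eval s * e1 j -
        (W j).eval s * g 0 i0 * e1 i - g 0 i * (W i0).eval 1 * e2 j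
    exact sub_eq_zero.1 ((mul_eq_zero.1 h3).resolve_left (pow_ne_zero _ hi0))

/-- the closure of the curve is not of logarithmic general type -/
theorem GmCurve.subvar (hW : GmCurve p Q W l) (hp : IsHomog p) (hQ : Q.IsHomogeneous q) :
    ∃ (K : Type) (_ : Field K) (_ : Algebra ℂ K) (w : ℕ) (y : Fin (n + 1) → K), 1 ≤ w ∧
      SubVarP p Q K w y ∧ ¬ LogGeneralType ℂ K w (OffQ Q q y) ∧
      ∀ R : MvPolynomial (Fin (n + 1)) ℂ, IsForm R → aeval (fun j => (W j).eval 1) R ≠ 0 →
        W602.GT.val y R ≠ 0 := by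
  have hent := hW.entire
  obtain ⟨i, j, s, hs, hne⟩ := hW.nonconst
  obtain ⟨i0, hi0⟩ := hW.ne 1 one_ne_zero
  have han : ∀ j, AnalyticOnNhd ℂ (fun z => (W j).eval (Complex.exp z)) univ := fun j z _ =>
    ((W j).differentiable.comp Complex.differentiable_exp).analyticAt z
  obtain ⟨K, _, _, w, y, hy, hgen, hdim, hrel, hw0⟩ := exists_closure
    (fun z j => (W j).eval (Complex.exp z)) isPreconnected_univ han (j0 := i0)
    ⟨0, mem_univ _, by simpa using hi0⟩
  have hgp : GenPt (fun z j => (W j).eval (Complex.exp z)) univ K w y := ⟨hy, hgen, hdim, hrel⟩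
  have hsub := subVar_of_genPt (p := p) (Q := Q) (q := q) hp hQ hgp
    (fun z _ H hH => (hent.2.1 z).2.1 H hH) ⟨0, mem_univ _, (hent.2.1 0).2.2⟩
  refine ⟨K, _, _, w, y, ?_, hsub, ?_, ?_⟩
  · by_contra hcon
    have hw : w = 0 := by omega
    have h1 := hw0 hw
    obtain ⟨ci, hci⟩ := h1 i
    obtain ⟨cj, hcj⟩ := h1 j
    apply hne
    have a1 := hci 0 (mem_univ _)
    have a2 := hcj 0 (mem_univ _)
    have a3 := hci (Complex.log s) (mem_univ _)
    have a4 := hcj (Complex.log s) (mem_univ _)
    simp only [Complex.exp_zero, Complex.exp_log hs] at a1 a2 a3 a4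
    rw [a1, a2, a3, a4]
    ring
  · have htr : Algebra.trdeg ℂ ℂ = (0 : ℕ) := by
      rw [trdeg_eq_zero (R := ℂ) (A := ℂ)]
      rfl
    refine hW.not_lgt htr hQ hy hgen hdim fun H hH => ?_
    rw [hrel H hH]
    constructor
    · intro h
      apply Polynomial.eq_zero_of_infinite_isRoot
      have hinf : {s : ℂ | s ≠ 0}.Infinite := by
        have h1 : ({0}ᶜ : Set ℂ).Infinite := (Set.finite_singleton (0 : ℂ)).infinite_compl
        exact h1
      refine hinf.mono fun s hs => ?_
      have h1 := h (Complex.log s) (mem_univ _)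
      simp only [Complex.exp_log hs] at h1
      have h2 := aeval_eval W s H
      simp only [Set.mem_ofPred_eq, Polynomial.IsRoot.def]
      rw [h2]
      exact h1
    · intro h z _
      have h2 := aeval_eval W (Complex.exp z) H
      rw [h, Polynomial.eval_zero] at h2
      exact h2.symm
  · intro R hR hR1 h0
    apply hR1
    have h1 := (hrel R hR).1 h0 0 (mem_univ _)
    simp only [Complex.exp_zero] at h1
    exact h1

end complex

end Pool.Agent.R869
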