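import Pool.Agent.R869.LParam

/-!
Rational curves with at most two punctures through the points of weighted complete intersections.
-/

set_option autoImplicit false

open MvPolynomial

namespace Pool.Agent.R869

/-- A presentation of the quasi-projective variety in `P^n` with the ideal `p` and the boundary
`Q = 0` by polynomials in variables `x i` of weights `w i`: there is an irreducible component, with
the ideal `P`, of the affine variety `F = 0`, where the polynomials `F j` have weighted degree at
most `e j`, which is mapped to the quasi-projective variety by the polynomials `Y j` of weighted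
degree at most `D`, among which are `1` and powers of all variables; the forms in `p` are those which
vanish on the image; and the pull-back of the form `Q` is a power of the polynomial `G` of weighted
degree at most `d`, and of the same degree, that is `ε * d = q * D`. -/
structure Pres {k : Type} [Field k] {m n c : ℕ} (w : Fin m → ℕ) (F : Fin c → MvPolynomial (Fin m) k)
    (e : Fin c → ℕ) (G : MvPolynomial (Fin m) k) (d : ℕ) (p : Ideal (MvPolynomial (Fin (n + 1)) k))
    (Q : MvPolynomial (Fin (n + 1)) k) (q : ℕ) where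
  /-- the ideal of the component -/
  P : Ideal (MvPolynomial (Fin m) k)
  /-- the polynomials that define the map -/
  Y : Fin (n + 1) → MvPolynomial (Fin m) k
  /-- the degree of the map -/
  D : ℕ
  /-- the multiplicity of the boundary -/
  ε : ℕ
  degF : ∀ j, WDeg w (F j) (e j)
  degG : WDeg w G d
  degY : ∀ j, WDeg w (Y j) D
  comp : P ∈ (Ideal.span (Set.range F)).minimalPrimes
  one : ∃ j, Y j = 1
  pows : ∀ i, ∃ j r, 0 < r ∧ Y j = X i ^ r
  mem : ∀ H : MvPolynomial (Fin (n + 1)) k, H ∈ p ↔ ∀ i, aeval Y (homogeneousComponent i H) ∈ P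
  homQ : Q.IsHomogeneous q
  posε : 0 < ε
  degQ : ε * d = q * D
  pull : ∃ b : k, b ≠ 0 ∧ aeval Y Q - C b * G ^ ε ∈ P
  off : G ∉ P

variable {k : Type} [Field k] {m n c : ℕ} {w : Fin m → ℕ} {F : Fin c → MvPolynomial (Fin m) k}
  {e : Fin c → ℕ} {G : MvPolynomial (Fin m) k} {d : ℕ} {p : Ideal (MvPolynomial (Fin (n + 1)) k)}
  {Q : MvPolynomial (Fin (n + 1)) k} {q : ℕ}

theorem Pres.curve (A : Pres w F e G d p Q q) (hcount : ∑ j, e j + d < ∑ i, w i + min d 2) :
    ∃ s ∉ A.P, ∀ (M : Type) [Field M] [Algebra k M] [IsAlgClosed M] [CharZero M] (x : Fin m → M),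
      (∀ j, aeval x (F j) = 0) → aeval x G ≠ 0 → aeval x s ≠ 0 →
      ∃ (W : Fin (n + 1) → Polynomial M) (l : ℕ) (b : M), GmCurve p Q W l ∧ b ≠ 0 ∧
        ∀ j, (W j).eval 1 = b * aeval x (A.Y j) := by
  classical
  obtain ⟨s, hs, hgood⟩ := exists_good_set A.comp
  refine ⟨s, hs, ?_⟩
  intro M _ _ _ _ x hx hxG hxs
  obtain ⟨j0, hj0⟩ := A.one
  obtain ⟨b, hb, hbQ⟩ := A.pull
  -- the common part
  have key : ∀ (u : ℕ) (a : Fin u → ℕ), (∀ v, 0 < a v) → ∑ v, a v = d →
      ∑ j, e j + d < ∑ i, w i + u →
      (∀ τ : Fin u → M, ∃ (α β : M) (κ : Fin u → M) (l : Fin u → ℕ), α + β ≠ 0 ∧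
        (∀ v, κ v ≠ 0) ∧ (∀ v, (Polynomial.C α + Polynomial.C β * Polynomial.X) +
          Polynomial.C (τ v) * (Polynomial.X - 1) = Polynomial.C (κ v) * Polynomial.X ^ l v) ∧
        (d = 0 → ∀ s : M, s ≠ 0 → α + β * s ≠ 0)) →
      ∃ (W : Fin (n + 1) → Polynomial M) (l : ℕ) (b : M), GmCurve p Q W l ∧ b ≠ 0 ∧
        ∀ j, (W j).eval 1 = b * aeval x (A.Y j) := by
    intro u a ha had hcu hpar
    obtain ⟨ξ, τ, h1, h2, h3, h4, h5⟩ := exists_curve A.degF A.degG ha had hcu hx hxG
    obtain ⟨α, β, κ, l, hαβ, hκ, hT, hq⟩ := hpar τ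
    have h6 : ∀ H ∈ A.P, (aeval ξ H : Polynomial M) = 0 := by
      refine hgood (Polynomial M) ξ h4 fun h0 => hxs ?_
      have h7 := congrArg (fun R : Polynomial M => R.coeff 0) h0
      simp only [Polynomial.coeff_zero] at h7
      rw [coeff_zero_aeval] at h7
      rw [← h7]
      congr 2
      funext i
      exact (h2 i).symm
    obtain ⟨W, l', hW, hW1⟩ := param_core had A.degQ h1 h2 h3 h6 h5 hxG A.degY hj0 A.pows
      (fun H hH => (A.mem H).1 hH) A.homQ hb hbQ hαβ hκ hT (fun hq0 => hq (by
        have h8 : A.ε * d = 0 := A.degQ.trans (Nat.mul_eq_zero.2 (Or.inl hq0))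
        rcases Nat.mul_eq_zero.1 h8 with h8 | h8
        · have := A.posε
          omega
        · exact h8))
    exact ⟨W, l', (α + β) ^ A.D, hW, pow_ne_zero _ hαβ, hW1⟩
  -- the parameters
  have heq : ∀ (u : ℕ) (τ : Fin u → M) (lam : M), (∀ v, τ v = lam) → (d = 0 → lam = 0) →
      ∃ (α β : M) (κ : Fin u → M) (l : Fin u → ℕ), α + β ≠ 0 ∧
        (∀ v, κ v ≠ 0) ∧ (∀ v, (Polynomial.C α + Polynomial.C β * Polynomial.X) +
          Polynomial.C (τ v) * (Polynomial.X - 1) = Polynomial.C (κ v) * Polynomial.X ^ l v) ∧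
        (d = 0 → ∀ s : M, s ≠ 0 → α + β * s ≠ 0) := by
    intro u τ lam hτ h0
    refine ⟨1 + lam, -lam, fun _ => 1, fun _ => 0, ?_, fun _ => one_ne_zero, fun v => ?_, ?_⟩
    · rw [add_neg_cancel_right]
      exact one_ne_zero
    · rw [hτ, map_add, map_neg, map_one, pow_zero, mul_one]
      ring
    · intro hd s _
      rw [h0 hd]
      simp
  rcases Nat.lt_or_ge d 2 with hd | hd
  · interval_cases d
    · refine key 0 (fun v => v.elim0) (fun v => v.elim0) (by simp) (by simpa using hcount) ?_
      intro τ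
      exact heq 0 τ 0 (fun v => v.elim0) fun _ => rfl
    · refine key 1 (fun _ => 1) (fun _ => one_pos) (by simp) (by simpa using hcount) ?_
      intro τ
      refine heq 1 τ (τ 0) (fun v => by rw [Subsingleton.elim v 0]) fun h => ?_
      exact absurd h one_ne_zero
  · have hmin : min d 2 = 2 := min_eq_right hd
    rw [hmin] at hcount
    refine key 2 ![d - 1, 1] ?_ ?_ hcount ?_
    · intro v
      fin_cases v
      · change 0 < d - 1
        omega
      · exact one_pos
    · rw [Fin.sum_univ_two]
      change d - 1 + 1 = d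
      omega
    · intro τ
      by_cases h01 : τ 0 = τ 1
      · refine heq 2 τ (τ 0) (fun v => ?_) fun h => ?_
        · fin_cases v
          · rfl
          · exact h01.symm
        · omega
      · have hne : τ 0 - τ 1 ≠ 0 := sub_ne_zero.2 h01
        refine ⟨τ 0, -τ 1, fun _ => τ 0 - τ 1, ![1, 0], ?_, fun _ => hne, fun v => ?_, ?_⟩
        · rw [← sub_eq_add_neg]
          exact hne
        · fin_cases v
          · change Polynomial.C (τ 0) + Polynomial.C (-τ 1) * Polynomial.X +
              Polynomial.C (τ 0) * (Polynomial.X - 1) =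
              Polynomial.C (τ 0 - τ 1) * Polynomial.X ^ 1
            rw [map_neg, map_sub]
            ring
          · change Polynomial.C (τ 0) + Polynomial.C (-τ 1) * Polynomial.X +
              Polynomial.C (τ 1) * (Polynomial.X - 1) =
              Polynomial.C (τ 0 - τ 1) * Polynomial.X ^ 0
            rw [map_neg, map_sub, pow_zero]
            ring
        · intro h
          omega

end Pool.Agent.R869
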