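import Pool.Agent.R869.LCurve
import Pool.Agent.TH143.GT.Fin

/-!
Rational curves in the components of affine varieties, and their images in projective space.
-/

set_option autoImplicit false

open MvPolynomial

namespace Pool.Agent.R869

section

variable {k : Type} [Field k] {m : ℕ}

theorem minimal_mul {ι : Type} {F : ι → MvPolynomial (Fin m) k} {P : Ideal (MvPolynomial (Fin m) k)}
    (hP : P ∈ (Ideal.span (Set.range F)).minimalPrimes) {H : MvPolynomial (Fin m) k} (hH : H ∈ P) :
    ∃ s ∉ P, ∃ N : ℕ, s * H ^ N ∈ Ideal.span (Set.range F) := by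
  by_contra hcon
  push Not at hcon
  have hprime : P.IsPrime := hP.1.1
  let S : Submonoid (MvPolynomial (Fin m) k) :=
    { carrier := {z | ∃ s ∉ P, ∃ N : ℕ, z = s * H ^ N}
      one_mem' := ⟨1, fun h => hprime.ne_top ((Ideal.eq_top_iff_one _).2 h), 0, by simp⟩
      mul_mem' := by
        rintro _ _ ⟨s, hs, N, rfl⟩ ⟨s', hs', N', rfl⟩
        refine ⟨s * s', fun h => ?_, N + N', by ring⟩
        rcases hprime.mem_or_mem h with h | h
        · exact hs h
        · exact hs' h }
  have hdis : Disjoint (Ideal.span (Set.range F) : Set (MvPolynomial (Fin m) k)) S := by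
    rw [Set.disjoint_left]
    rintro z hz ⟨s, hs, N, rfl⟩
    exact hcon s hs N hz
  obtain ⟨q, hq, hIq, hqS⟩ := Ideal.exists_le_prime_disjoint _ S hdis
  have hqP : q ≤ P := by
    intro z hz
    by_contra hzP
    exact (Set.disjoint_left.1 hqS) hz ⟨z, hzP, 0, by simp⟩
  have hPq : P ≤ q := hP.2 ⟨hq, hIq⟩ hqP
  exact (Set.disjoint_left.1 hqS) (hPq hH)
    ⟨1, fun h => hprime.ne_top ((Ideal.eq_top_iff_one _).2 h), 1, by simp⟩

/-- the set of the points of the component with the ideal `P` off the other components -/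
theorem exists_good_set {c : ℕ} {F : Fin c → MvPolynomial (Fin m) k}
    {P : Ideal (MvPolynomial (Fin m) k)} (hP : P ∈ (Ideal.span (Set.range F)).minimalPrimes) :
    ∃ s ∉ P, ∀ (R : Type) [CommRing R] [IsDomain R] [Algebra k R] (ξ : Fin m → R),
      (∀ j, aeval ξ (F j) = 0) → aeval ξ s ≠ 0 → ∀ H ∈ P, aeval ξ H = 0 := by
  classical
  have hprime : P.IsPrime := hP.1.1
  obtain ⟨T, hT⟩ : ∃ T : Finset (MvPolynomial (Fin m) k), Ideal.span (T : Set _) = P :=
    (isNoetherian_def.1 (inferInstance : IsNoetherianRing (MvPolynomial (Fin m) k))) P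
  have hTP : ∀ H ∈ T, H ∈ P := fun H hH => by
    rw [← hT]
    exact Ideal.subset_span hH
  have h1 : ∀ H : T, ∃ s ∉ P, ∃ N : ℕ, s * (H : MvPolynomial (Fin m) k) ^ N ∈
      Ideal.span (Set.range F) := fun H => minimal_mul hP (hTP H H.2)
  choose s hs N hN using h1
  refine ⟨∏ H, s H, ?_, ?_⟩
  · rw [Ideal.IsPrime.prod_mem_iff]
    rintro ⟨H, -, h⟩
    exact hs H h
  · intro R _ _ _ ξ hF hξ H hH
    have hI : ∀ z ∈ Ideal.span (Set.range F), aeval ξ z = 0 := by
      intro z hz
      have : Ideal.span (Set.range F) ≤ RingHom.ker (aeval ξ : MvPolynomial (Fin m) k →ₐ[k] R) := by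
        rw [Ideal.span_le]
        rintro _ ⟨j, rfl⟩
        exact hF j
      exact this hz
    have hgen : ∀ H : T, aeval ξ (H : MvPolynomial (Fin m) k) = 0 := by
      intro H
      have h2 := hI _ (hN H)
      rw [map_mul, map_pow] at h2
      rw [map_prod, Finset.prod_ne_zero_iff] at hξ
      exact eq_zero_of_pow_eq_zero ((mul_eq_zero.1 h2).resolve_left (hξ H (Finset.mem_univ H)))
    have : P ≤ RingHom.ker (aeval ξ : MvPolynomial (Fin m) k →ₐ[k] R) := by
      rw [← hT, Ideal.span_le]
      intro H hH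
      exact hgen ⟨H, hH⟩
    exact this hH

end

section

variable {M : Type} [Field M]

theorem poly_const' [CharZero M] {a b : Polynomial M}
    (h : Polynomial.derivative a * b = a * Polynomial.derivative b) (s t : M) :
    a.eval s * b.eval t = a.eval t * b.eval s := by
  classical
  by_cases hb : b = 0
  · rw [hb, Polynomial.eval_zero, Polynomial.eval_zero, mul_zero, mul_zero]
  set g := gcd a b with hg
  have hg0 : g ≠ 0 := gcd_ne_zero_of_right hb
  obtain ⟨a0, ha0⟩ : g ∣ a := gcd_dvd_left a b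
  obtain ⟨b0, hb0⟩ : g ∣ b := gcd_dvd_right a b
  have hc : IsCoprime a0 b0 := by
    have h1 := isCoprime_div_gcd_div_gcd (p := a) hb
    rw [← hg] at h1
    rwa [ha0, hb0, mul_div_cancel_left₀ _ hg0, mul_div_cancel_left₀ _ hg0] at h1
  have h1 : Polynomial.wronskian a0 b0 = 0 := by
    have h2 : g ^ 2 * Polynomial.wronskian a0 b0 = 0 := by
      unfold Polynomial.wronskian
      rw [ha0, hb0, Polynomial.derivative_mul, Polynomial.derivative_mul] at h
      linear_combination -h
    exact (mul_eq_zero.1 h2).resolve_left (pow_ne_zero _ hg0)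
  rw [hc.wronskian_eq_zero_iff] at h1
  obtain ⟨α, hα⟩ := Polynomial.natDegree_eq_zero.1
    (Polynomial.derivative_eq_zero.1 h1.1)
  obtain ⟨β, hβ⟩ := Polynomial.natDegree_eq_zero.1
    (Polynomial.derivative_eq_zero.1 h1.2)
  rw [ha0, hb0, ← hα, ← hβ]
  simp only [Polynomial.eval_mul, Polynomial.eval_C]
  ring

/-- homogenisation -/
noncomputable def hz (D : ℕ) (P T t : Polynomial M) : Polynomial M :=
  ∑ r ∈ Finset.range (D + 1), Polynomial.C (P.coeff r) * t ^ r * T ^ (D - r)

theorem hz_eq {L : Type} [Field L] [Algebra M L] (φ : Polynomial M →ₐ[M] L) {D : ℕ}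
    {P T t : Polynomial M} (hP : P.natDegree ≤ D) (hT : φ T ≠ 0) :
    φ (hz D P T t) = φ T ^ D * Polynomial.aeval (φ t / φ T) P := by
  unfold hz
  rw [map_sum, Polynomial.aeval_eq_sum_range' (Nat.lt_succ_of_le hP), Finset.mul_sum]
  refine Finset.sum_congr rfl fun r hr => ?_
  have hr' : r ≤ D := Nat.lt_succ_iff.1 (Finset.mem_range.1 hr)
  have e : φ T ^ D = φ T ^ r * φ T ^ (D - r) := by
    rw [← pow_add, Nat.add_sub_cancel' hr']
  have hC : φ (Polynomial.C (P.coeff r)) = algebraMap M L (P.coeff r) := φ.commutes _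
  rw [map_mul, map_mul, map_pow, map_pow, hC, e, div_pow, Algebra.smul_def]
  have := pow_ne_zero r hT
  field_simp

theorem hz_eval {D : ℕ} {P T t : Polynomial M} (hP : P.natDegree ≤ D) {s : M}
    (hT : T.eval s ≠ 0) : (hz D P T t).eval s = T.eval s ^ D * P.eval (t.eval s / T.eval s) := by
  have h := hz_eq (Polynomial.aeval (R := M) s) (t := t) hP (by
    rwa [← Polynomial.coe_aeval_eq_eval] at hT)
  rw [Polynomial.coe_aeval_eq_eval] at h
  rw [h]
  congr 1

/-- a nonconstant polynomial at a nonconstant linear fractional argument is not constant -/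
theorem mobius_const [Infinite M] {P : Polynomial M} {α β : M} (hαβ : α + β ≠ 0) {y : M}
    (h : ∀ s : M, s ≠ 0 → α + β * s ≠ 0 → P.eval ((s - 1) / (α + β * s)) = y) :
    P = Polynomial.C y := by
  classical
  have hinj : ∀ s s' : M, α + β * s ≠ 0 → α + β * s' ≠ 0 →
      (s - 1) / (α + β * s) = (s' - 1) / (α + β * s') → s = s' := by
    intro s s' hs hs' he
    rw [div_eq_div_iff hs hs'] at he
    have h1 : (α + β) * (s - s') = 0 := by linear_combination he
    exact sub_eq_zero.1 ((mul_eq_zero.1 h1).resolve_left hαβ)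
  have hfin : {s : M | ¬ (s ≠ 0 ∧ α + β * s ≠ 0)}.Finite := by
    have h1 : {s : M | ¬ (s ≠ 0 ∧ α + β * s ≠ 0)} ⊆
        ({0} : Set M) ∪ {s | (Polynomial.C α + Polynomial.C β * Polynomial.X).IsRoot s} := by
      intro s hs
      by_cases h0 : s = 0
      · exact Or.inl h0
      · right
        have h2 : α + β * s = 0 := by
          by_contra h3
          exact hs ⟨h0, h3⟩
        simp only [Set.mem_ofPred_eq, Polynomial.IsRoot.def, Polynomial.eval_add,
          Polynomial.eval_C, Polynomial.eval_mul, Polynomial.eval_X]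
        exact h2
    refine Set.Finite.subset ((Set.finite_singleton _).union
      (Polynomial.finite_setOfPred_isRoot ?_)) h1
    intro h0
    apply hαβ
    have h2 := congrArg (Polynomial.eval (1 : M)) h0
    simpa using h2
  have hinf : {s : M | s ≠ 0 ∧ α + β * s ≠ 0}.Infinite := by
    have h1 := hfin.infinite_compl
    refine h1.mono fun s hs => ?_
    by_contra hcon
    exact hs hcon
  rw [← sub_eq_zero]
  apply Polynomial.eq_zero_of_infinite_isRoot
  refine (hinf.image (f := fun s => (s - 1) / (α + β * s)) ?_).mono ?_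
  · intro s hs s' hs' he
    exact hinj s s' hs.2 hs'.2 he
  · rintro _ ⟨s, hs, rfl⟩
    simp only [Set.mem_ofPred_eq, Polynomial.IsRoot.def, Polynomial.eval_sub, Polynomial.eval_C]
    rw [h s hs.1 hs.2, sub_self]

end

section

variable {k M : Type} [Field k] [Field M] [Algebra k M] {m n u : ℕ} {w : Fin m → ℕ}

/-- A rational curve in the quasi-projective variety in `P^n` with the ideal `p` and the boundary
`Q = 0`, over an extension field `M`: the coordinates `W j` are polynomials, which have no common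
zeros except possibly the origin, and `Q` does not vanish on the curve except possibly at the
origin. -/
structure GmCurve (p : Ideal (MvPolynomial (Fin (n + 1)) k)) (Q : MvPolynomial (Fin (n + 1)) k)
    (W : Fin (n + 1) → Polynomial M) (l : ℕ) : Prop where
  mem : ∀ H ∈ p, (aeval W H : Polynomial M) = 0
  bd : ∃ c : M, c ≠ 0 ∧ (aeval W Q : Polynomial M) = Polynomial.C c * Polynomial.X ^ l
  ne : ∀ s : M, s ≠ 0 → ∃ j, (W j).eval s ≠ 0
  nonconst : ∃ i j s, s ≠ 0 ∧ (W i).eval s * (W j).eval 1 ≠ (W i).eval 1 * (W j).eval s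

theorem param_core [CharZero M] {ξ : Fin m → Polynomial M} {τ : Fin u → M} {a : Fin u → ℕ}
    {ε D0 d q : ℕ} (had : ∑ v, a v = d) (hdeg : ε * d = q * D0) {x : Fin m → M}
    (hξw : ∀ i, (ξ i).natDegree ≤ w i) (hξ0 : ∀ i, (ξ i).coeff 0 = x i)
    (hne : ∃ i, ξ i ≠ Polynomial.C (x i)) {P : Ideal (MvPolynomial (Fin m) k)}
    (hP : ∀ H ∈ P, (aeval ξ H : Polynomial M) = 0) {G : MvPolynomial (Fin m) k}
    (hG : (aeval ξ G : Polynomial M) = Polynomial.C (aeval x G) *
        ∏ v, (1 + Polynomial.C (τ v) * Polynomial.X) ^ a v) (hGx : aeval x G ≠ 0)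
    {Y : Fin (n + 1) → MvPolynomial (Fin m) k} (hY : ∀ j, WDeg w (Y j) D0) {j0 : Fin (n + 1)}
    (hY0 : Y j0 = 1) (hYi : ∀ i, ∃ j r, 0 < r ∧ Y j = X i ^ r)
    {p : Ideal (MvPolynomial (Fin (n + 1)) k)} (hpP : ∀ H ∈ p, ∀ e, aeval Y
      (homogeneousComponent e H) ∈ P)
    {Q : MvPolynomial (Fin (n + 1)) k} (hQ : Q.IsHomogeneous q) {c : k} (hc : c ≠ 0)
    (hQY : aeval Y Q - C c * G ^ ε ∈ P) {α β : M} (hαβ : α + β ≠ 0) {κ : Fin u → M}
    {l : Fin u → ℕ} (hκ : ∀ v, κ v ≠ 0)
    (hT : ∀ v, (Polynomial.C α + Polynomial.C β * Polynomial.X) +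
      Polynomial.C (τ v) * (Polynomial.X - 1) = Polynomial.C (κ v) * Polynomial.X ^ l v)
    (hq : q = 0 → ∀ s : M, s ≠ 0 → α + β * s ≠ 0) :
    ∃ (W : Fin (n + 1) → Polynomial M) (l' : ℕ), GmCurve p Q W l' ∧
      ∀ j, (W j).eval 1 = (α + β) ^ D0 * aeval x (Y j) := by
  classical
  set T : Polynomial M := Polynomial.C α + Polynomial.C β * Polynomial.X with hTd
  set t : Polynomial M := Polynomial.X - 1 with htd
  have hTe : ∀ s, T.eval s = α + β * s := fun s => by
    rw [hTd]
    simp
  have hte : ∀ s, t.eval s = s - 1 := fun s => by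
    rw [htd]
    simp
  have hT0 : T ≠ 0 := by
    intro h
    apply hαβ
    have := hTe 1
    rw [h, Polynomial.eval_zero] at this
    rw [this]
    ring
  set W : Fin (n + 1) → Polynomial M := fun j => hz D0 (aeval ξ (Y j)) T t with hW
  have hYd : ∀ j, (aeval ξ (Y j) : Polynomial M).natDegree ≤ D0 := fun j => (hY j).natDegree hξw
  -- the embedding in the field of rational functions
  let φ : Polynomial M →ₐ[M] RatFunc M := IsScalarTower.toAlgHom M (Polynomial M) (RatFunc M)
  have hφinj : Function.Injective φ := RatFunc.algebraMap_injective M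
  have hφT : φ T ≠ 0 := by
    intro h
    exact hT0 (hφinj (by rw [h, map_zero]))
  let ψ : Polynomial M →ₐ[M] RatFunc M := Polynomial.aeval (φ t / φ T)
  have hWH : ∀ (H : MvPolynomial (Fin (n + 1)) k) (e : ℕ), H.IsHomogeneous e →
      φ (aeval W H) = φ T ^ (D0 * e) * ψ (aeval ξ (aeval Y H)) := by
    intro H e hH
    have h1 := MvPolynomial.comp_aeval_apply (f := W) (φ.restrictScalars k) H
    have h2 : (fun j => (φ.restrictScalars k) (W j)) =
        fun j => φ T ^ D0 * ψ (aeval ξ (Y j)) := by
      funext j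
      exact hz_eq φ (hYd j) hφT
    rw [h2, Pool.Agent.W603.PV.aeval_scale hH, ← pow_mul] at h1
    refine h1.trans ?_
    congr 1
    have h3 := MvPolynomial.comp_aeval_apply (f := Y)
      ((ψ.restrictScalars k).comp (aeval ξ : MvPolynomial (Fin m) k →ₐ[k] Polynomial M)) H
    exact h3.symm
  have hev1 : ∀ j, (W j).eval 1 = (α + β) ^ D0 * aeval x (Y j) := by
    intro j
    have h1 : T.eval 1 ≠ 0 := by
      rw [hTe, mul_one]
      exact hαβ
    simp only [hW]
    rw [hz_eval (hYd j) h1, hTe, hte, mul_one, sub_self, zero_div,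
      ← Polynomial.coeff_zero_eq_eval_zero, coeff_zero_aeval]
    congr 3
    funext i
    exact hξ0 i
  -- the boundary
  have hcM : algebraMap k M c ≠ 0 := (map_ne_zero _).2 hc
  set cQ : M := algebraMap k M c * aeval x G ^ ε * ∏ v, κ v ^ (a v * ε) with hcQ
  have hcQ0 : cQ ≠ 0 := mul_ne_zero (mul_ne_zero hcM (pow_ne_zero _ hGx))
    (Finset.prod_ne_zero_iff.2 fun v _ => pow_ne_zero _ (hκ v))
  have hbd : (aeval W Q : Polynomial M) = Polynomial.C cQ *
      Polynomial.X ^ (∑ v, l v * (a v * ε)) := by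
    apply hφinj
    rw [hWH Q q hQ]
    have h1 : (aeval ξ (aeval Y Q) : Polynomial M) =
        Polynomial.C (algebraMap k M c) * (aeval ξ G) ^ ε := by
      have h2 := hP _ hQY
      rw [map_sub, map_mul, map_pow, sub_eq_zero] at h2
      rw [h2]
      congr 1
      have h3 : (aeval ξ (C c : MvPolynomial (Fin m) k) : Polynomial M) =
        algebraMap k (Polynomial M) c := aeval_C _ _
      rw [h3, Polynomial.algebraMap_apply]
    have h4 : ψ (1 : Polynomial M) = 1 := map_one _
    have hψX : ψ Polynomial.X = φ t / φ T := Polynomial.aeval_X _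
    have hψC : ∀ b : M, ψ (Polynomial.C b) = algebraMap M (RatFunc M) b := fun b =>
      Polynomial.aeval_C _ _
    have hφC : ∀ b : M, φ (Polynomial.C b) = algebraMap M (RatFunc M) b := fun b =>
      φ.commutes b
    have h5 : D0 * q = ∑ v, a v * ε := by
      rw [mul_comm, ← hdeg, ← Finset.sum_mul, had, mul_comm]
    rw [h1, hG, mul_pow, map_mul, map_mul, hψC, h5, ← Finset.prod_pow_eq_pow_sum,
      ← Finset.prod_pow, map_prod, ← Polynomial.C_pow, hψC]
    have h6 : ∀ v, φ T ^ (a v * ε) * ψ (((1 + Polynomial.C (τ v) * Polynomial.X) ^ a v) ^ ε) =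
        algebraMap M (RatFunc M) (κ v ^ (a v * ε)) * φ Polynomial.X ^ (l v * (a v * ε)) := by
      intro v
      have h8 : ψ (1 + Polynomial.C (τ v) * Polynomial.X) =
          1 + algebraMap M (RatFunc M) (τ v) * (φ t / φ T) := by
        rw [map_add, h4, map_mul, hψC, hψX]
      have h7 : φ T * (1 + algebraMap M (RatFunc M) (τ v) * (φ t / φ T)) =
          φ (Polynomial.C (κ v) * Polynomial.X ^ l v) := by
        have h9 : φ (T + Polynomial.C (τ v) * t) = φ T + algebraMap M (RatFunc M) (τ v) * φ t := by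
          rw [map_add, map_mul, hφC]
        rw [← hT v, h9]
        field_simp
      rw [← pow_mul, map_pow ψ, ← mul_pow, h8, h7, map_mul, hφC, mul_pow, map_pow φ, ← pow_mul,
        map_pow (algebraMap M (RatFunc M))]
    calc (∏ v, φ T ^ (a v * ε)) * (algebraMap M (RatFunc M) (algebraMap k M c) *
          (algebraMap M (RatFunc M) (aeval x G ^ ε) *
            ∏ v, ψ (((1 + Polynomial.C (τ v) * Polynomial.X) ^ a v) ^ ε))) =
        algebraMap M (RatFunc M) (algebraMap k M c) *
          algebraMap M (RatFunc M) (aeval x G ^ ε) *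
          ∏ v, (φ T ^ (a v * ε) * ψ (((1 + Polynomial.C (τ v) * Polynomial.X) ^ a v) ^ ε)) := by
          rw [Finset.prod_mul_distrib]
          ring
      _ = algebraMap M (RatFunc M) (algebraMap k M c) *
          algebraMap M (RatFunc M) (aeval x G ^ ε) *
          ∏ v, (algebraMap M (RatFunc M) (κ v ^ (a v * ε)) *
            φ Polynomial.X ^ (l v * (a v * ε))) := by
          rw [Finset.prod_congr rfl fun v _ => h6 v]
      _ = φ (Polynomial.C cQ * Polynomial.X ^ (∑ v, l v * (a v * ε))) := by
          rw [Finset.prod_mul_distrib, Finset.prod_pow_eq_pow_sum, map_mul φ, hφC, map_pow φ, hcQ,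
            map_mul (algebraMap M (RatFunc M)), map_mul (algebraMap M (RatFunc M)),
            map_prod (algebraMap M (RatFunc M))]
          ring
  refine ⟨W, ∑ v, l v * (a v * ε), ⟨?_, ⟨cQ, hcQ0, hbd⟩, ?_, ?_⟩, hev1⟩
  · intro H hH
    apply hφinj
    rw [map_zero, ← sum_homogeneousComponent H, map_sum, map_sum]
    refine Finset.sum_eq_zero fun e _ => ?_
    rw [hWH _ e (homogeneousComponent_isHomogeneous e H), hP _ (hpP H hH e), map_zero, mul_zero]
  · intro s hs
    by_contra hcon
    push Not at hcon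
    by_cases hq0 : q = 0
    · have h1 := hcon j0
      have h2 : T.eval s ≠ 0 := by
        rw [hTe]
        exact hq hq0 s hs
      simp only [hW] at h1
      rw [hz_eval (hYd j0) h2, hY0, map_one, Polynomial.eval_one, mul_one] at h1
      exact pow_ne_zero _ h2 h1
    · have h1 := congrArg (Polynomial.eval s) hbd
      rw [Polynomial.eval_mul, Polynomial.eval_C, Polynomial.eval_pow, Polynomial.eval_X] at h1
      have h2 := MvPolynomial.comp_aeval_apply (f := W)
        ((Polynomial.aeval (R := M) s).restrictScalars k) Q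
      have h3 : (fun j => ((Polynomial.aeval (R := M) s).restrictScalars k) (W j)) =
          fun _ => (0 : M) := by
        funext j
        have : (Polynomial.aeval (R := M) s) (W j) = (W j).eval s := by
          rw [Polynomial.coe_aeval_eq_eval]
        exact this.trans (hcon j)
      rw [h3] at h2
      have h4 : (aeval (fun _ : Fin (n + 1) => (0 : M)) Q) = 0 := by
        have h5 := Pool.Agent.W603.PV.aeval_scale hQ (fun _ : Fin (n + 1) => (0 : M)) (0 : M)
        simp only [mul_zero] at h5
        rw [h5, zero_pow hq0, zero_mul]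
      rw [h4] at h2
      have h5 : (Polynomial.eval s) (aeval W Q : Polynomial M) = 0 := by
        rw [← h2, AlgHom.restrictScalars_apply, Polynomial.coe_aeval_eq_eval]
      rw [h5] at h1
      exact mul_ne_zero hcQ0 (pow_ne_zero _ hs) h1.symm
  · obtain ⟨i, hi⟩ := hne
    obtain ⟨j, r, hr, hj⟩ := hYi i
    by_contra hcon
    push Not at hcon
    have hinf : Infinite M := inferInstance
    have h1 : (ξ i) ^ r = Polynomial.C ((x i) ^ r) := by
      apply mobius_const hαβ
      intro s hs hTs
      have h2 := hcon j j0 s hs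
      have hTs' : T.eval s ≠ 0 := by rwa [hTe]
      have hT1 : T.eval 1 ≠ 0 := by
        rw [hTe, mul_one]
        exact hαβ
      simp only [hW] at h2
      rw [hz_eval (hYd j) hTs', hz_eval (hYd j0) hT1, hz_eval (hYd j) hT1, hz_eval (hYd j0) hTs',
        hY0, hj, map_one, Polynomial.eval_one, Polynomial.eval_one, mul_one, mul_one, map_pow,
        aeval_X, hte, hte, sub_self, zero_div, Polynomial.eval_pow, Polynomial.eval_pow,
        ← Polynomial.coeff_zero_eq_eval_zero, hξ0, hTe s] at h2
      have h3 := pow_ne_zero D0 hT1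
      have h4 := pow_ne_zero D0 hTs
      have h5 : ((α + β * s) ^ D0 * Polynomial.eval 1 T ^ D0) *
          (Polynomial.eval ((s - 1) / (α + β * s)) (ξ i) ^ r - x i ^ r) = 0 := by
        linear_combination h2
      rw [Polynomial.eval_pow]
      exact sub_eq_zero.1 ((mul_eq_zero.1 h5).resolve_left (mul_ne_zero h4 h3))
    apply hi
    have h2 : (ξ i).natDegree = 0 := by
      have h3 := congrArg Polynomial.natDegree h1
      rw [Polynomial.natDegree_pow, Polynomial.natDegree_C] at h3
      rcases Nat.mul_eq_zero.1 h3 with h3 | h3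
      · omega
      · exact h3
    rw [Polynomial.eq_C_of_natDegree_eq_zero h2, hξ0]

end

end Pool.Agent.R869
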