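import Pool.Agent.R869.VTop

/-!
Relations with cofactors over function fields: Vojta's height inequality, the global statement.
-/

set_option autoImplicit false

open FF MvPolynomial Pool.Agent.W603.LV Pool.Agent.W603.PV Pool.Agent.W603.GR Pool.Agent.W602.GT

namespace Pool.Agent.R869

section

variable {k F L : Type} [Field k] [Field F] [Field L] [Algebra k L] [Algebra F L] {n : ℕ}
  {p : Ideal (MvPolynomial (Fin (n + 1)) F)} {Q : MvPolynomial (Fin (n + 1)) F} {q : ℕ}
  {J : Type} [Fintype J]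

theorem pht_nonneg [IsAlgClosed k] [CharZero k] [IsFF k L] {y : Fin (n + 1) → L} (hy : y ≠ 0) :
    0 ≤ pht k y := by
  classical
  obtain ⟨j0, hj0⟩ := Function.ne_iff.1 hy
  have hj0' : y j0 ≠ 0 := hj0
  have h1 := pord_finite (k := k) (f := y) ⟨j0, hj0⟩
  obtain ⟨T, hT⟩ := exists_supp (k := k) Finset.univ fun _ : Unit => y j0
  have h2 : ∑ᶠ P : Place k L, pord P y = ∑ P ∈ h1.toFinset ∪ T, pord P y := by
    refine finsum_eq_sum_of_support_subset _ ?_
    intro P hP
    rw [Finset.coe_union, Set.mem_union]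
    left
    rw [Set.Finite.coe_toFinset]
    exact hP
  have h3 := sum_ord_finset (k := k) (y j0) (h1.toFinset ∪ T) fun P hP =>
    Finset.mem_union_right _ (hT () (Finset.mem_univ _) P hP)
  unfold pht
  rw [h2, Left.nonneg_neg_iff, ← h3]
  exact Finset.sum_le_sum fun P _ => pord_le P hj0'

namespace CoRel

variable (C : CoRel p Q q J)

variable [DecidableEq J] {y : Fin (n + 1) → L} {j0 : J} (t : Tree k (C.T y) j0)

open Classical in
theorem height_F [IsAlgClosed k] [CharZero k] [IsFF k L] {S : Finset F} (hG : Good C S)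
    (hp : IsHomog p) (hs : 2 ≤ Fintype.card J)
    (hy : GPt C y) (hN0 : ∀ l, C.N l ≠ 0) (hNL : ∀ l, LLs (Fintype.card J) ≤ C.N l)
    (hloss : C.lossF t ≤ C.e) :
    (C.e - C.lossF t : ℕ) * pht k y ≤
      wtT t * (canDeg k L + (meets (k := k) Q q y).ncard) +
      C.errC * ∑ c ∈ S, hgt k (algebraMap F L c) := by
  obtain ⟨j1, hj1⟩ := Function.ne_iff.1 hy.ne
  have hD : der k L ≠ 0 := der_ne
  have f1 := pord_finite (k := k) (f := y) ⟨j1, hj1⟩
  have f2 := vo_finite (k := k) (K := L) hD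
  have f3 := meets_finite (k := k) Q q (f := y) ⟨j1, hj1⟩
  obtain ⟨T1, hT1⟩ := exists_supp (k := k) Finset.univ
    fun _ : Unit => C.PhiF t * FK t (der k L)
  obtain ⟨T2, hT2⟩ := exists_supp (k := k) S fun c => algebraMap F L c
  set T := f1.toFinset ∪ f2.toFinset ∪ f3.toFinset ∪ T1 ∪ T2 with hT
  have m1 : ∀ P, pord P y ≠ 0 → P ∈ T := fun P hP => by
    simp only [hT, Finset.mem_union]
    exact Or.inl (Or.inl (Or.inl (Or.inl (f1.mem_toFinset.2 hP))))
  have m2 : ∀ P, vo P (der k L) ≠ 0 → P ∈ T := fun P hP => by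
    simp only [hT, Finset.mem_union]
    exact Or.inl (Or.inl (Or.inl (Or.inr (f2.mem_toFinset.2 hP))))
  have m3 : ∀ P ∈ meets (k := k) Q q y, P ∈ T := fun P hP => by
    simp only [hT, Finset.mem_union]
    exact Or.inl (Or.inl (Or.inr (f3.mem_toFinset.2 hP)))
  have m4 : ∀ P, P.ord (C.PhiF t * FK t (der k L)) ≠ 0 → P ∈ T := fun P hP => by
    simp only [hT, Finset.mem_union]
    exact Or.inl (Or.inr (hT1 () (Finset.mem_univ _) P hP))
  have m5 : ∀ c ∈ S, ∀ P : Place k L, P.ord (algebraMap F L c) ≠ 0 → P ∈ T := fun c hc P hP => by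
    simp only [hT, Finset.mem_union]
    exact Or.inr (hT2 c hc P hP)
  have h0 := Finset.sum_le_sum fun P (_ : P ∈ T) =>
    C.local_F t hG hp hs hy hN0 hNL hloss hD P
  rw [sum_ord_finset _ T m4] at h0
  rw [Finset.sum_sub_distrib, Finset.sum_sub_distrib, Finset.sum_add_distrib,
    Finset.sum_neg_distrib, ← Finset.mul_sum, ← Finset.mul_sum, ← Finset.mul_sum,
    canDeg_finset hD T m2] at h0
  have h1 : ∑ P ∈ T, pord P y = - pht k y := by
    unfold pht
    rw [neg_neg, finsum_eq_sum_of_support_subset (s := T)]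
    intro P hP
    exact m1 P hP
  have h2 : ∑ P ∈ T, (if P ∈ meets (k := k) Q q y then (wtT t : ℤ) else 0) =
      wtT t * (meets (k := k) Q q y).ncard := by
    rw [← Finset.sum_filter, Finset.sum_const, nsmul_eq_mul, mul_comm]
    congr 1
    have e : (meets (k := k) Q q y) = ((T.filter fun P => P ∈ meets (k := k) Q q y :
        Finset (Place k L)) : Set (Place k L)) := by
      ext P
      rw [Finset.mem_coe, Finset.mem_filter]
      exact ⟨fun h => ⟨m3 P h, h⟩, fun h => h.2⟩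
    conv_rhs => rw [e]
    rw [Set.ncard_coe_finset]
  have h3 : ∑ P ∈ T, er P S = ∑ c ∈ S, hgt k (algebraMap F L c) := by
    unfold er
    rw [Finset.sum_comm]
    exact Finset.sum_congr rfl fun c hc => (hgt_finset _ T (m5 c hc)).symm
  rw [h1, h2, h3] at h0
  linarith

end CoRel

end

section

variable {k F : Type} [Field k] [Field F] [Algebra k F] {n : ℕ}
  {p : Ideal (MvPolynomial (Fin (n + 1)) F)} {Q : MvPolynomial (Fin (n + 1)) F} {q : ℕ}
  {J : Type} [Fintype J]

/-- Vojta's height inequality for relations with cofactors. -/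
theorem CoRel.vojta [IsAlgClosed k] [CharZero k] [IsFF k F] (hp : IsHomog p)
    (C : CoRel p Q q J) {δ : ℕ} (hC : C.Large δ) (hb : C.Base) :
    ∃ A : ℕ, ∀ (L : Type) [Field L] [Algebra k L] [Algebra F L] [IsScalarTower k F L]
      [FiniteDimensional F L] (y : Fin (n + 1) → L), y ≠ 0 → (∀ H ∈ p, val y H = 0) →
      val y Q ≠ 0 → val y C.R ≠ 0 →
      C.e * pht k y ≤ (2 * LLs (Fintype.card J) : ℕ) *
        (canDeg k L + (meets (k := k) Q q y).ncard) + A * Module.finrank F L := by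
  classical
  obtain ⟨S, hG⟩ := exists_good C hb
  obtain ⟨t, ht⟩ := IsFF.exists_transcendental (k := k) (K := F)
  refine ⟨(2 * C.errC * ∑ c ∈ S, hgt k c + 2 * (2 * LLs (Fintype.card J) : ℕ) *
    hgt k t).toNat, ?_⟩
  intro L _ _ _ _ _ y hy0 hy hyQ hyR
  have : IsFF k L := isFF_of_finite (F := F)
  have hs := hC.1
  have hyG : GPt C y := ⟨hy0, hy, hyQ, hyR⟩
  obtain ⟨j0⟩ : Nonempty J := Fintype.card_pos_iff.1 (by omega)
  obtain ⟨tr⟩ := exists_tree (k := k) (C.T y) (C.T_sum hyG.mem) (C.T_no hyG.no) j0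
  have hJ : C.J1.Nonempty := by
    by_contra hcon
    rw [Finset.not_nonempty_iff_eq_empty] at hcon
    obtain ⟨i, hi⟩ := Function.ne_iff.1 hy0
    obtain ⟨M, g, hM⟩ := C.base_mem hb i
    rw [hcon, Finset.sum_empty, sub_zero] at hM
    have h1 := hy _ hM
    unfold val at h1
    rw [map_pow, aeval_X] at h1
    exact hi (eq_zero_of_pow_eq_zero h1)
  have h1 : ∀ l, Fintype.card J ^ 4 * (δ + 1) * C.m l ≤ C.e := by
    intro l
    have h2 := C.deg l
    have h3 := Nat.mul_le_mul_right (C.m l) (hC.2 l).2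
    omega
  have h2 : Fintype.card J ^ 4 * (δ + 1) ≤ C.e := by
    obtain ⟨l, hl⟩ := hJ
    exact le_trans (Nat.le_mul_of_pos_right _ (C.pos l hl)) (h1 l)
  have hN2 := num2 hC.1 (fun l => (hC.2 l).1) h1 h2
  have hδ : ∀ l, C.δ l ≤ δ := fun l => (hC.2 l).1
  have hJδ : ∑ l ∈ C.J1, C.δ l ≤ Fintype.card J * δ := by
    calc ∑ l ∈ C.J1, C.δ l ≤ ∑ l, C.δ l :=
          Finset.sum_le_sum_of_subset (Finset.subset_univ _)
      _ ≤ ∑ _ : J, δ := Finset.sum_le_sum fun l _ => hδ l
      _ = _ := by rw [Finset.sum_const, Finset.card_univ, smul_eq_mul]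
  have hloss2 : 2 * C.lossF tr ≤ C.e := by
    refine le_trans (Nat.mul_le_mul_left 2 ?_) hN2
    unfold lossF
    refine Nat.add_le_add_right ?_ _
    rw [add_mul]
    refine Nat.add_le_add hJδ ?_
    calc ∑ l, tr.cJ l * C.δ l ≤ ∑ l, tr.cJ l * δ :=
          Finset.sum_le_sum fun l _ => Nat.mul_le_mul_left _ (hδ l)
      _ = (∑ l, tr.cJ l) * δ := by rw [Finset.sum_mul]
      _ ≤ _ := Nat.mul_le_mul_right _ tr.cJ_total
  have h3 := C.height_F tr hG hp hs hyG (fun l => (Nat.pos_iff_ne_zero.1 (hC.pos l))) hC.LLs_le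
    (by omega)
  have h4 : ∑ c ∈ S, hgt k (algebraMap F L c) = Module.finrank F L * ∑ c ∈ S, hgt k c := by
    rw [Finset.mul_sum]
    exact Finset.sum_congr rfl fun c _ => hgt_algebraMap c
  rw [h4] at h3
  have h5 := canDeg_ge (k := k) (K := L) (t := algebraMap F L t)
    ((transcendental_algebraMap_iff (algebraMap F L).injective).2 ht)
  rw [hgt_algebraMap t] at h5
  have hnc : (0 : ℤ) ≤ ((meets (k := k) Q q y).ncard : ℤ) := Nat.cast_nonneg _
  have hH0 : 0 ≤ ∑ c ∈ S, hgt k c := Finset.sum_nonneg fun _ _ => hgt_nonneg _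
  have ht0 : 0 ≤ hgt k t := hgt_nonneg _
  set H := ∑ c ∈ S, hgt k c with hH
  set Y := canDeg k L + ((meets (k := k) Q q y).ncard : ℤ) with hY
  have hY0 : 0 ≤ Y + 2 * (Module.finrank F L * hgt k t) := by
    rw [hY]
    linarith
  have hph := pht_nonneg (k := k) hy0
  have hw : (0 : ℤ) ≤ ((2 * LLs (Fintype.card J) : ℕ) : ℤ) - 2 * wtT tr := by
    have : (wtT tr : ℤ) ≤ LLs (Fintype.card J) := by
      exact_mod_cast (tr.tri_total : wtT tr ≤ LLs (Fintype.card J))
    push_cast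
    linarith
  have h6 := mul_nonneg hw hY0
  have hκ : (C.e : ℤ) ≤ 2 * (C.e - C.lossF tr : ℕ) := by
    have : C.e ≤ 2 * (C.e - C.lossF tr) := by omega
    exact_mod_cast this
  have h7 := mul_le_mul_of_nonneg_right hκ hph
  have hm : (0 : ℤ) ≤ Module.finrank F L := Nat.cast_nonneg _
  have h8 : ((2 * C.errC * H + 2 * (2 * LLs (Fintype.card J) : ℕ) * hgt k t).toNat : ℤ) =
      2 * C.errC * H + 2 * (2 * LLs (Fintype.card J) : ℕ) * hgt k t :=
    Int.toNat_of_nonneg (by positivity)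
  rw [h8]
  have h9 : (0 : ℤ) ≤ wtT tr * (Module.finrank F L * hgt k t) := by positivity
  push_cast at h6 ⊢
  nlinarith

end

end Pool.Agent.R869
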