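import Pool.Agent.R869.WHgt

/-!
Heights of the points of wide systems over function fields of one variable: the main theorem.
-/

set_option autoImplicit false

open FF MvPolynomial Pool.Agent.W603.LV Pool.Agent.W603.PV Pool.Agent.W602.GT

namespace Pool.Agent.R869.Wd

/-- the constant -/
def cstC (n s : ℕ) : ℕ := 2 * (n * Pool.Agent.R869.tri (s - 1))

variable {k K : Type} [Field k] [Field K] [Algebra k K]

theorem pht_finset [CharZero k] [IsFF k K] [IsAlgClosed k] {n : ℕ} (f : Fin (n + 1) → K)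
    {l : Fin (n + 1)} (hl : f l ≠ 0)
    (T : Finset (Place k K)) (hT : ∀ j, ∀ P : Place k K, P.ord (f j) ≠ 0 → P ∈ T) :
    pht k f = ∑ P ∈ T, (P.ord (f l) - pord P f) := by
  classical
  have h2 : pht k f = ∑ P ∈ T, (- pord P f) := by
    unfold pht
    rw [finsum_eq_sum_of_support_subset (s := T), Finset.sum_neg_distrib]
    intro P hP
    by_contra hcon
    apply hP
    obtain ⟨j, hj, h⟩ := exists_pord P ⟨l, hl⟩
    simp only
    rw [← h]
    by_contra h'; exact hcon (hT j P h')
  rw [h2, Finset.sum_sub_distrib, sum_ord_finset _ T (hT l), Finset.sum_neg_distrib]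
  ring

theorem height_main [CharZero k] [IsFF k K] [IsAlgClosed k] {n : ℕ} {ι : Type}
    {U : Set (Fin (n + 1))} {F : ι → MvPolynomial (Fin (n + 1)) k} {s N M : ℕ}
    (S0 : Finset (Fin (n + 1) →₀ ℕ)) (hS0 : ∀ e, (F e).support ⊆ S0) (hM : CstFor S0 M)
    (hF : ∀ e, IsForm (F e)) (hs1 : 1 ≤ s) (hs : ∀ e, (F e).support.card ≤ s) (hW : Wide U F N)
    (hN : cstC n s < N) (S : Finset (Place k K)) (f : Fin (n + 1) → K)
    (hf0 : ∃ j, f j ≠ 0) (hfF : ∀ e, aeval f (F e) = 0)
    (hfU : ∀ j ∈ U, f j ≠ 0 ∧ ∀ P : Place k K, P ∉ S → P.ord (f j) = pord P f)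
    (hno : ¬ ∃ (b : Fin (n + 1) → ℤ) (i i' : Fin (n + 1)), f i ≠ 0 ∧ f i' ≠ 0 ∧ b i ≠ b i' ∧
      ∀ e v, val f (wc b v (F e)) = 0) :
    pht k f ≤ (M * (cstC n s * (1 + cstC n s)) : ℕ) * max (canDeg k K + S.card) 0 := by
  classical
  push Not at hno
  set I : Finset (Fin (n + 1)) := Finset.univ.filter fun j => f j ≠ 0 with hIdef
  have hI : ∀ j, j ∈ I ↔ f j ≠ 0 := fun j => by simp [hIdef]
  obtain ⟨i1, hi1⟩ := hf0
  obtain ⟨r, G, a, b, e, hr, hG, hm, hpos, -⟩ := select (mon f) F hF hs I (fun e => by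
    rw [← val_supp (k := k) hI, ← val_eq_sum]
    exact hfF e) (by
    rintro b ⟨i, hi, j, hj, hij⟩
    obtain ⟨e, v, h⟩ := hno b i j ((hI i).1 hi) ((hI j).1 hj) hij
    refine ⟨e, v, ?_⟩
    rw [Finset.filter_filter]
    rw [val_wc, val_supp (k := k) hI, Finset.filter_filter] at h
    have e1 : (F e).support.filter (fun α => (∀ j, j ∉ I → α j = 0) ∧ wgt b α = v) =
        (F e).support.filter (fun α => (∑ j, (α j : ℤ) * b j = v) ∧ ∀ j, j ∉ I → α j = 0) := by
      refine Finset.filter_congr fun α _ => ?_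
      constructor
      · rintro ⟨h1, h2⟩
        exact ⟨h2, h1⟩
      · rintro ⟨h1, h2⟩
        exact ⟨h2, h1⟩
    rw [e1]
    exact h)
  have hdeg : ∀ l, ∃ d, ∀ α ∈ (F (e l)).support, ∑ j, α j = d := fun l => exp_total (hF (e l))
  choose d hd using hdeg
  have hsupp0 : ∀ l i j, f j = 0 → (G l).e i j = 0 := fun l i j hj =>
    (hG l i).2 j fun h => (hI j).1 h hj
  have hTne : ∀ l i, mon f ((G l).e i) ≠ 0 := fun l i => mon_ne (hsupp0 l i)
  -- the places
  obtain ⟨T, hT⟩ := exists_supp (k := k) Finset.univ f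
  have hTj : ∀ j, ∀ P : Place k K, P.ord (f j) ≠ 0 → P ∈ T := fun j => hT j (Finset.mem_univ j)
  set Z : Finset (Place k K) := T.filter fun P => ∃ i ∈ I, ∃ j ∈ I, P.ord (f i) ≠ P.ord (f j)
    with hZ
  have hZc : ∀ P ∉ Z, ∀ i ∈ I, ∀ j ∈ I, P.ord (f i) = P.ord (f j) := by
    intro P hP i hi j hj
    by_contra hne
    apply hP
    rw [hZ, Finset.mem_filter]
    refine ⟨?_, i, hi, j, hj, hne⟩
    by_contra hPT
    have h1 : P.ord (f i) = 0 := by by_contra h; exact hPT (hTj i P h)
    have h2 : P.ord (f j) = 0 := by by_contra h; exact hPT (hTj j P h)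
    exact hne (by rw [h1, h2])
  -- the orders of the monomials
  have hord : ∀ (P : Place k K) l i, P.ord (mon f ((G l).e i)) =
      wgt (fun j => P.ord (f j)) ((G l).e i) := fun P l i => mon_ord P (hsupp0 l i)
  have hordT : ∀ (P : Place k K), P ∉ T → ∀ l i, P.ord (mon f ((G l).e i)) = 0 := by
    intro P hP l i
    rw [hord]
    unfold wgt
    refine Finset.sum_eq_zero fun j _ => ?_
    have h1 : P.ord (f j) = 0 := by by_contra h; exact hP (hTj j P h)
    simp only [h1, mul_zero]
  have hordZ : ∀ (P : Place k K), P ∉ Z → ∀ l i i', P.ord (mon f ((G l).e i)) =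
      P.ord (mon f ((G l).e i')) := by
    intro P hP l i i'
    have h1 : ∀ i, P.ord (mon f ((G l).e i)) = d l * P.ord (f i1) := by
      intro i
      rw [hord]
      unfold wgt
      have h1 : ∀ j, (((G l).e i) j : ℤ) * P.ord (f j) =
          (((G l).e i) j : ℤ) * P.ord (f i1) := by
        intro j
        by_cases hj : j ∈ I
        · rw [hZc P hP j hj i1 ((hI i1).2 hi1)]
        · rw [(hG l i).2 j hj, Nat.cast_zero, zero_mul, zero_mul]
      rw [Finset.sum_congr rfl fun j _ => h1 j, ← Finset.sum_mul]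
      congr 1
      exact_mod_cast hd l _ (hG l i).1
    rw [h1, h1]
  -- the heights of the ratios
  set E : ℤ := canDeg k K with hE
  have hh : ∀ l, hgt k (mon f ((G l).e (a l)) / mon f ((G l).e (b l))) ≤
      Pool.Agent.R869.tri (G l).m * (E + Z.card) := by
    intro l
    have h1 := circ_hgt (k := k) (fun i => (G l).c i • mon f ((G l).e i))
      (fun i => smul_ne_zero ((G l).c_ne i) (hTne l i)) (G l).rel (G l).li Z
      (fun P hP i j => by
        rw [ord_smul P ((G l).c_ne i), ord_smul P ((G l).c_ne j)]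
        exact hordZ P hP l i j) (a l) (b l)
    refine le_trans (le_of_eq ?_) h1
    refine hgt_congr fun P => ?_
    rw [P.ord_div (hTne l _) (hTne l _), P.ord_div (smul_ne_zero ((G l).c_ne _) (hTne l _))
      (smul_ne_zero ((G l).c_ne _) (hTne l _)), ord_smul P ((G l).c_ne _),
      ord_smul P ((G l).c_ne _)]
  obtain ⟨H, hH⟩ : ∃ H : ℤ, H = ∑ l, 2 * hgt k (mon f ((G l).e (a l)) / mon f ((G l).e (b l))) :=
    ⟨_, rfl⟩
  have htri : ((∑ l, 2 * Pool.Agent.R869.tri (G l).m : ℕ) : ℤ) ≤ cstC n s := by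
    rw [← Finset.mul_sum]
    have := tri_le_mul hr (fun l => (G l).m) hm
    unfold cstC
    exact_mod_cast Nat.mul_le_mul_left 2 this
  have hHle : H ≤ cstC n s * max (E + Z.card) 0 := by
    have h1 : H ≤ ∑ l, 2 * ((Pool.Agent.R869.tri (G l).m : ℤ) * max (E + Z.card) 0) := by
      rw [hH]
      refine Finset.sum_le_sum fun l _ => mul_le_mul_of_nonneg_left ((hh l).trans ?_) (by norm_num)
      exact mul_le_mul_of_nonneg_left (le_max_left _ _) (Nat.cast_nonneg _)
    refine h1.trans ?_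
    have h2 : ∑ l, 2 * ((Pool.Agent.R869.tri (G l).m : ℤ) * max (E + Z.card) 0) =
        ((∑ l, 2 * Pool.Agent.R869.tri (G l).m : ℕ) : ℤ) * max (E + Z.card) 0 := by
      push_cast
      rw [Finset.sum_mul]
      exact Finset.sum_congr rfl fun l _ => by ring
    rw [h2]
    exact mul_le_mul_of_nonneg_right htri (le_max_right _ _)
  -- the local contributions
  have hHsum : H = ∑ P ∈ T, ∑ l, |wgt (fun j => P.ord (f j)) ((G l).e (a l)) -
      wgt (fun j => P.ord (f j)) ((G l).e (b l))| := by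
    rw [Finset.sum_comm, hH]
    refine Finset.sum_congr rfl fun l _ => ?_
    have hsT : ∀ P : Place k K, P.ord (mon f ((G l).e (a l)) / mon f ((G l).e (b l))) ≠ 0 →
        P ∈ T := by
      intro P hP
      by_contra hPT
      apply hP
      rw [P.ord_div (hTne l _) (hTne l _), hordT P hPT, hordT P hPT, sub_zero]
    rw [← sum_abs T hsT]
    refine Finset.sum_congr rfl fun P _ => ?_
    rw [P.ord_div (hTne l _) (hTne l _), hord, hord]
  have hnn : ∀ P : Place k K, 0 ≤ ∑ l, |wgt (fun j => P.ord (f j)) ((G l).e (a l)) -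
      wgt (fun j => P.ord (f j)) ((G l).e (b l))| := fun P =>
    Finset.sum_nonneg fun _ _ => abs_nonneg _
  have hlow : (cstC n s + 1 : ℤ) * (Z \ S).card + (Z ∩ S).card ≤ H := by
    rw [hHsum]
    have h1 : ∑ P ∈ Z, ∑ l, |wgt (fun j => P.ord (f j)) ((G l).e (a l)) -
        wgt (fun j => P.ord (f j)) ((G l).e (b l))| ≤
        ∑ P ∈ T, ∑ l, |wgt (fun j => P.ord (f j)) ((G l).e (a l)) -
          wgt (fun j => P.ord (f j)) ((G l).e (b l))| :=
      Finset.sum_le_sum_of_subset_of_nonneg (Finset.filter_subset _ _) fun P _ _ => hnn P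
    refine le_trans ?_ h1
    rw [← Finset.sum_inter_add_sum_sdiff Z S]
    have h2 : ((Z ∩ S).card : ℤ) ≤ ∑ P ∈ Z ∩ S, ∑ l, |wgt (fun j => P.ord (f j)) ((G l).e (a l)) -
        wgt (fun j => P.ord (f j)) ((G l).e (b l))| := by
      rw [Finset.card_eq_sum_ones, Nat.cast_sum]
      refine Finset.sum_le_sum fun P hP => ?_
      have h3 := hpos (fun j => P.ord (f j)) (by
        have h4 := (Finset.mem_inter.1 hP).1
        rw [hZ, Finset.mem_filter] at h4
        exact h4.2)
      push_cast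
      omega
    have h3 : (cstC n s + 1 : ℤ) * (Z \ S).card ≤ ∑ P ∈ Z \ S,
        ∑ l, |wgt (fun j => P.ord (f j)) ((G l).e (a l)) -
          wgt (fun j => P.ord (f j)) ((G l).e (b l))| := by
      rw [Finset.card_eq_sum_ones, Nat.cast_sum, Finset.mul_sum]
      refine Finset.sum_le_sum fun P hP => ?_
      have hP1 := (Finset.mem_sdiff.1 hP).1
      have hP2 := (Finset.mem_sdiff.1 hP).2
      rw [hZ, Finset.mem_filter] at hP1
      have h4 := hW (I : Set (Fin (n + 1))) r e (fun l => (G l).e (a l)) (fun l => (G l).e (b l))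
        (fun j hj => (hI j).2 (hfU j hj).1) hr (fun l => ⟨(hG l _).1, (hG l _).1, fun j hj =>
          ⟨(hG l _).2 j hj, (hG l _).2 j hj⟩⟩) hpos (fun j => P.ord (f j)) hP1.2
        (fun i hi j hj => by
          change P.ord (f i) ≤ P.ord (f j)
          rw [(hfU i hi).2 P hP2]
          exact pord_le P ((hI j).1 hj))
      refine le_trans ?_ h4
      push_cast
      have : (cstC n s : ℤ) + 1 ≤ N := by exact_mod_cast hN
      linarith
    linarith
  -- the total
  have hZcard : (Z.card : ℤ) = (Z ∩ S).card + (Z \ S).card := by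
    exact_mod_cast (Finset.card_inter_add_card_sdiff Z S).symm
  have hZS : ((Z ∩ S).card : ℤ) ≤ S.card := by
    exact_mod_cast Finset.card_le_card Finset.inter_subset_right
  have hHfin : H ≤ (cstC n s * (1 + cstC n s) : ℤ) * max (E + S.card) 0 := by
    set C : ℤ := (cstC n s : ℤ) with hC
    have hC0 : 0 ≤ C := Nat.cast_nonneg _
    set z1 : ℤ := ((Z \ S).card : ℤ) with hz1
    set z2 : ℤ := ((Z ∩ S).card : ℤ) with hz2
    have hz10 : 0 ≤ z1 := Nat.cast_nonneg _
    have hz20 : 0 ≤ z2 := Nat.cast_nonneg _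
    rcases le_or_gt (E + Z.card) 0 with hneg | hp
    · rw [max_eq_right hneg, mul_zero] at hHle
      exact hHle.trans (by positivity)
    · rw [max_eq_left hp.le] at hHle
      have h1 : z1 ≤ C * (E + S.card) := by
        have : (C + 1) * z1 + z2 ≤ C * (E + (z2 + z1)) := by
          rw [← hZcard]
          exact hlow.trans hHle
        nlinarith
      have h2 : z1 ≤ C * max (E + S.card) 0 :=
        h1.trans (mul_le_mul_of_nonneg_left (le_max_left _ _) hC0)
      calc H ≤ C * (E + Z.card) := hHle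
        _ ≤ C * (max (E + S.card) 0 + C * max (E + S.card) 0) := by
          refine mul_le_mul_of_nonneg_left ?_ hC0
          rw [hZcard]
          have := le_max_left (E + S.card) 0
          linarith
        _ = _ := by ring
  -- the height
  rw [pht_finset f hi1 T hTj]
  have h1 : ∀ P ∈ T, P.ord (f i1) - pord P f ≤ M * ∑ l,
      |wgt (fun j => P.ord (f j)) ((G l).e (a l)) - wgt (fun j => P.ord (f j)) ((G l).e (b l))| := by
    intro P _
    obtain ⟨j, hj, h⟩ := exists_pord P ⟨i1, hi1⟩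
    rw [← h]
    exact hM I r (fun l => (G l).e (a l)) (fun l => (G l).e (b l)) hr
      (fun l => ⟨hS0 _ (hG l _).1, hS0 _ (hG l _).1⟩) hpos (fun j => P.ord (f j)) i1
      ((hI i1).2 hi1) j ((hI j).2 hj)
  refine (Finset.sum_le_sum h1).trans ?_
  rw [← Finset.mul_sum, ← hHsum]
  calc (M : ℤ) * H ≤ M * ((cstC n s * (1 + cstC n s) : ℤ) * max (E + S.card) 0) :=
        mul_le_mul_of_nonneg_left hHfin (Nat.cast_nonneg _)
    _ = _ := by push_cast; ring

end Pool.Agent.R869.Wd
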