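import Pool.Agent.R869.UCorH

/-!
The criterion for hypersurfaces: degrees of maps from affine curves to open parts; all sets of
variables.
-/

set_option autoImplicit false

open FF MvPolynomial Pool.Agent.W603.LV Pool.Agent.W603.PV
open Pool.Agent.W602.GT
open Pool.Agent.W603.CX (IsMap HasOrbit unbounded_orbit)

namespace Pool.Agent.R869.Wd

variable {n s : ℕ} {I : Fin s → Finset (Fin (n + 1))} {d : ℕ} {a : Fin s → (Fin (n + 1) →₀ ℕ)}

/-- **The criterion for the degrees of maps.** -/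
theorem TypI.critLog {k : Type} [Field k] [IsAlgClosed k] [CharZero k] (h : TypI I d a)
    {F : MvPolynomial (Fin (n + 1)) k} (hF : F.support ⊆ withPowers d a) {A : ℕ}
    {U : Set (Fin (n + 1))} (hA : HgtBound U (fun _ : Fin 1 => F) A)
    {J : Finset (Fin (n + 1))} (hJ : J.Nonempty) (hU : ∀ j ∈ U, j ∈ J) :
    [Loose F J,
      ∃ (K : Type) (_ : Field K) (_ : Algebra k K) (w : ℕ) (y : Fin (n + 1) → K), 1 ≤ w ∧
        SubVarU U (fun _ : Fin 1 => F) K w y ∧ (∀ j, y j ≠ 0 ↔ j ∈ J) ∧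
        ¬ LogGeneralType k K w (OffU U y),
      ¬ ∃ B : ℤ, ∀ f : Fin (n + 1) → RatFunc k,
        IsMap U (fun _ : Fin 1 => F) (finite_support (k := k) (RatFunc.X : RatFunc k)).toFinset f →
        (∀ j, f j ≠ 0 ↔ j ∈ J) → pht k f ≤ B,
      ¬ ∀ (L : Type) [Field L] [Algebra k L] [IsFF k L] (S : Finset (Place k L))
        (f : Fin (n + 1) → L), IsMap U (fun _ : Fin 1 => F) S f →
        (∀ j, f j ≠ 0 ↔ j ∈ J) → pht k f ≤ A * max (canDeg k L + S.card) 0].TFAE := by
  classical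
  have h12 := h.critSub hF hU
  tfae_have 1 ↔ 2 := h12
  tfae_have 1 → 3 := by
    rintro h1 ⟨B, hB⟩
    obtain ⟨x, b, hx, ⟨j, hj, j', hj', hjj⟩, hw⟩ := (h.critK hF J).1 h1
    let F' : Fin 1 ⊕ {l // l ∉ J} → MvPolynomial (Fin (n + 1)) k :=
      Sum.elim (fun _ => F) fun l => X l.1
    have ho : HasOrbit (J : Set (Fin (n + 1))) F' := by
      refine ⟨x, b, fun t ht => ⟨?_, fun l hl => mul_ne_zero ((hx l).2 hl)
        (zpow_ne_zero _ ht), ?_⟩, j, j', (hx j).2 hj, (hx j').2 hj', hjj⟩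
      · exact Function.ne_iff.2 ⟨j, mul_ne_zero ((hx j).2 hj) (zpow_ne_zero _ ht)⟩
      · rintro (e | l)
        · change eval _ F = 0
          have h3 := val_orbit (L := k) x b ht F hw
          rw [← coe_aeval_eq_eval]
          change aeval _ F = 0
          rw [← h3]
          unfold val
          congr 2
          funext l
          exact mul_comm _ _
        · change eval _ (X l.1) = 0
          rw [eval_X]
          have h4 : x l.1 = 0 := by
            by_contra h5
            exact l.2 ((hx _).1 h5)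
          simp only [h4, zero_mul]
    obtain ⟨f, hf, hlt⟩ := unbounded_orbit ho B
    refine absurd (hB f ⟨hf.1, fun _ => hf.2.1 (Sum.inl 0), fun l hl => hf.2.2 l (hU l hl)⟩
      fun l => ⟨fun hl => ?_, fun hl => (hf.2.2 l hl).1⟩) (not_le.2 hlt)
    by_contra hlJ
    have h5 := hf.2.1 (Sum.inr ⟨l, hlJ⟩)
    change aeval f (X l : MvPolynomial (Fin (n + 1)) k) = 0 at h5
    rw [aeval_X] at h5
    exact hl h5
  tfae_have 3 → 4 := by
    intro h3 h4
    exact h3 ⟨_, fun f hf h0 => h4 (RatFunc k) _ f hf h0⟩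
  tfae_have 4 → 1 := by
    intro h4
    by_contra hL
    apply h4
    intro L _ _ _ S f hf hfJ
    obtain ⟨j0, hj0⟩ := hJ
    refine hA L S f hf ?_
    rintro ⟨b, i, i', hi, hi', hb, hw⟩
    exact hL (h.loose_of_orbit hF hfJ ⟨i, (hfJ i).1 hi, i', (hfJ i').1 hi', hb⟩ fun v => hw 0 v)
  tfae_finish

/-- **All sets of variables.** -/
theorem TypI.loose_all {k : Type} [Field k] [IsAlgClosed k] [CharZero k] (h : TypI I d a)
    {F : MvPolynomial (Fin (n + 1)) k} (hF : F.support ⊆ withPowers d a) (U : Set (Fin (n + 1))) :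
    (∀ J : Finset (Fin (n + 1)), (∀ j ∈ U, j ∈ J) → ¬ Loose F J) ↔
      ∀ (K : Type) [Field K] [Algebra k K] (w : ℕ) (y : Fin (n + 1) → K), 1 ≤ w →
        SubVarU U (fun _ : Fin 1 => F) K w y → LogGeneralType k K w (OffU U y) := by
  classical
  constructor
  · intro h0 K _ _ w y hw hy
    by_contra hgt
    have hU : ∀ j ∈ U, j ∈ Finset.univ.filter fun j => y j ≠ 0 := fun j hj =>
      Finset.mem_filter.2 ⟨Finset.mem_univ _, hy.unit j hj⟩
    exact h0 _ hU ((h.critSub hF hU).2 ⟨K, _, _, w, y, hw, hy, fun j => by simp, hgt⟩)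
  · intro h0 J hU hJ
    obtain ⟨K, _, _, w, y, hw, hy, -, hgt⟩ := (h.critSub hF hU).1 hJ
    exact hgt (h0 K w y hw hy)

theorem TypI.loose_general {k : Type} [Field k] [IsAlgClosed k] [CharZero k] (h : TypI I d a)
    {F : MvPolynomial (Fin (n + 1)) k} (hF : F.support ⊆ withPowers d a) :
    (∀ J : Finset (Fin (n + 1)), ¬ Loose F J) ↔ AllGeneralType (fun _ : Fin 1 => F) := by
  have h1 := h.loose_all hF ∅
  constructor
  · intro h0 K _ _ w y hw hy
    exact (general_iff y).1 (h1.1 (fun J _ => h0 J) K w y hw (subVar_iff.2 hy))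
  · intro h0 J
    exact h1.2 (fun K _ _ w y hw hy => (general_iff y).2 (h0 K w y hw (subVar_iff.1 hy))) J
      fun j hj => absurd hj (Set.notMem_empty j)

end Pool.Agent.R869.Wd
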