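import Pool.Agent.R869.NVojDefs
import Pool.Agent.R869.NHgt
import Pool.Agent.R869.UAll

/-!
Vojta's height inequality for wide systems with coefficients in a function field.
-/

set_option autoImplicit false

open FF MvPolynomial Pool.Agent.W603.LV Pool.Agent.W603.PV Pool.Agent.W602.GT

namespace Pool.Agent.R869.Wd

open Pool.Agent.R869 (CoefIn pht_nonneg coefIn_cf)
open Pool.Agent.W603.CX (hgt_le_pht)

section

variable {k L : Type} [Field k] [Field L] [Algebra k L] {n : ℕ} {U : Set (Fin (n + 1))}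

theorem cut_subset {f : Fin (n + 1) → L} (hU : ∀ j ∈ U, f j ≠ 0) {T : Finset (Place k L)}
    (hT : ∀ j, ∀ P : Place k L, P.ord (f j) ≠ 0 → P ∈ T) : cut k U f ⊆ T := by
  rintro P ⟨j, hj, hlt⟩
  by_contra hP
  have h0 : ∀ j, P.ord (f j) = 0 := fun j => by
    by_contra h
    exact hP (Finset.mem_coe.2 (hT j P h))
  obtain ⟨l, -, hl⟩ := exists_pord P ⟨j, hU j hj⟩
  rw [← hl, h0, h0] at hlt
  exact lt_irrefl _ hlt

theorem cut_finite [IsAlgClosed k] [CharZero k] [IsFF k L] {f : Fin (n + 1) → L}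
    (hU : ∀ j ∈ U, f j ≠ 0) : (cut k U f).Finite := by
  obtain ⟨T, hT⟩ := exists_supp (k := k) Finset.univ f
  exact T.finite_toSet.subset (cut_subset hU fun j => hT j (Finset.mem_univ j))

theorem cut_card {f : Fin (n + 1) → L} (hU : ∀ j ∈ U, f j ≠ 0) {T : Finset (Place k L)}
    (hT : ∀ j, ∀ P : Place k L, P.ord (f j) ≠ 0 → P ∈ T) : (cut k U f).ncard ≤ T.card := by
  rw [← Set.ncard_coe_finset]
  exact Set.ncard_le_ncard (cut_subset hU hT) T.finite_toSet

end

/-- all the parts of the forms with respect to some nonconstant weights vanish at `f` -/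
def Parts {F L : Type} [Field F] [Field L] [Algebra F L] {n : ℕ} {ι : Type}
    (G : ι → MvPolynomial (Fin (n + 1)) F) (f : Fin (n + 1) → L) : Prop :=
  ∃ (b : Fin (n + 1) → ℤ) (i i' : Fin (n + 1)), f i ≠ 0 ∧ f i' ≠ 0 ∧ b i ≠ b i' ∧
    ∀ e v, val f (wc b v (G e)) = 0

/-- the uniform height bound with coefficients in a function field -/
def NBound {n : ℕ} (T : Finset (Fin (n + 1) →₀ ℕ)) (A : ℕ) : Prop :=
  ∀ (k : Type) [Field k] [IsAlgClosed k] [CharZero k] (F L : Type) [Field F] [Field L]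
    [Algebra k L] [Algebra F L] [IsFF k L] (ι : Type) (G : ι → MvPolynomial (Fin (n + 1)) F)
    (Sc : Finset F), (∀ e, (G e).support ⊆ T) → (∀ e, CoefIn Sc (G e)) →
    ∀ (U : Set (Fin (n + 1))) (f : Fin (n + 1) → L), PtL U G L f → ¬ Parts G f →
      pht k f ≤ A * (max (canDeg k L + (cut k U f).ncard) 0 +
        ∑ c ∈ Sc, hgt k (algebraMap F L c))

theorem Good.nbound {n s N : ℕ} {T : Finset (Fin (n + 1) →₀ ℕ)} (hT : Good T s N) :
    ∃ A : ℕ, NBound T A := by
  classical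
  obtain ⟨M, hM⟩ := exists_cstFor T
  refine ⟨M * (cstC n s * (1 + cstC n s)) + M * ((cstC n s + 1) * (2 * cstC n s + 4 * n)), ?_⟩
  intro k _ _ _ F L _ _ _ _ _ ι G Sc hGT hSc U f hf hno
  have hC := hT.sys hGT U
  obtain ⟨j0, hj0⟩ := Function.ne_iff.1 hf.ne
  have hfin := cut_finite (k := k) hf.unit
  have h1 := height_N T hGT hM hC.form hC.pos hC.card hC.wide (cstC_lt hC.pos hC.num) Sc hSc
    hfin.toFinset f ⟨j0, hj0⟩ hf.mem (fun j hj => ⟨hf.unit j hj, fun P hP => by
      have h2 := pord_le P (hf.unit j hj)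
      have h3 : ¬ pord P f < P.ord (f j) := fun h => hP (hfin.mem_toFinset.2 ⟨j, hj, h⟩)
      omega⟩) hno
  rw [← Set.ncard_eq_toFinset_card _ hfin] at h1
  refine h1.trans ?_
  have h4 : 0 ≤ max (canDeg k L + ((cut k U f).ncard : ℤ)) 0 := le_max_right _ _
  have h5 : 0 ≤ ∑ c ∈ Sc, hgt k (algebraMap F L c) := Finset.sum_nonneg fun _ _ => hgt_nonneg _
  generalize max (canDeg k L + ((cut k U f).ncard : ℤ)) 0 = x at h4 ⊢
  generalize ∑ c ∈ Sc, hgt k (algebraMap F L c) = y at h5 ⊢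
  generalize M * (cstC n s * (1 + cstC n s)) = p
  generalize M * ((cstC n s + 1) * (2 * cstC n s + 4 * n)) = q
  have h6 : (0 : ℤ) ≤ p * y := by positivity
  have h7 : (0 : ℤ) ≤ q * x := by positivity
  push_cast
  nlinarith

section

variable {k F : Type} [Field k] [Field F] [Algebra k F] [IsAlgClosed k] [CharZero k] [IsFF k F]
  {n : ℕ} {ι : Type} {U : Set (Fin (n + 1))}

/-- **Vojta's height inequality.** -/
theorem NBound.vojta [Finite ι] {T : Finset (Fin (n + 1) →₀ ℕ)} {A : ℕ} (hA : NBound T A)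
    {G : ι → MvPolynomial (Fin (n + 1)) F} (hG : ∀ e, (G e).support ⊆ T)
    (Q : ∀ (L : Type) [Field L] [Algebra F L], (Fin (n + 1) → L) → Prop)
    (hQ : ∀ (L : Type) [Field L] [Algebra F L] [FiniteDimensional F L] (f : Fin (n + 1) → L),
      Q L f → PtL U G L f ∧ ¬ Parts G f) : Vojta k F U A Q := by
  classical
  have := Fintype.ofFinite ι
  obtain ⟨t, ht⟩ := IsFF.exists_transcendental (k := k) (K := F)
  set Sc : Finset F := Finset.univ.biUnion fun e => Pool.Agent.R869.cf (G e) with hSc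
  refine ⟨A * (2 * hgt k t + ∑ c ∈ Sc, hgt k c).toNat, ?_⟩
  intro L _ _ _ _ _ f hf
  have : IsFF k L := isFF_of_finite (F := F)
  obtain ⟨hf1, hf2⟩ := hQ L f hf
  have h1 := hA k F L ι G Sc hG (fun e => (coefIn_cf _).mono fun x hx =>
    Finset.mem_biUnion.2 ⟨e, Finset.mem_univ e, hx⟩) U f hf1 hf2
  have h4 : ∑ c ∈ Sc, hgt k (algebraMap F L c) = Module.finrank F L * ∑ c ∈ Sc, hgt k c := by
    rw [Finset.mul_sum]
    exact Finset.sum_congr rfl fun c _ => hgt_algebraMap c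
  rw [h4] at h1
  have h5 := canDeg_ge (k := k) (K := L) (t := algebraMap F L t)
    ((transcendental_algebraMap_iff (algebraMap F L).injective).2 ht)
  rw [hgt_algebraMap t] at h5
  have hnc : (0 : ℤ) ≤ ((cut k U f).ncard : ℤ) := Nat.cast_nonneg _
  have hH0 : 0 ≤ ∑ c ∈ Sc, hgt k c := Finset.sum_nonneg fun _ _ => hgt_nonneg _
  have ht0 : 0 ≤ hgt k t := hgt_nonneg _
  set H := ∑ c ∈ Sc, hgt k c with hH
  set Y := canDeg k L + ((cut k U f).ncard : ℤ) with hY
  have hm : (0 : ℤ) ≤ Module.finrank F L := Nat.cast_nonneg _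
  have h6 : max Y 0 ≤ Y + 2 * (Module.finrank F L * hgt k t) := by
    refine max_le ?_ ?_
    · have : (0 : ℤ) ≤ 2 * (Module.finrank F L * hgt k t) := by positivity
      linarith
    · rw [hY]
      linarith
  have h8 : ((2 * hgt k t + H).toNat : ℤ) = 2 * hgt k t + H := Int.toNat_of_nonneg (by positivity)
  refine h1.trans ?_
  push_cast
  rw [h8]
  have h9 : (A : ℤ) * (max Y 0 + Module.finrank F L * H) ≤
      A * (Y + 2 * (Module.finrank F L * hgt k t) + Module.finrank F L * H) :=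
    mul_le_mul_of_nonneg_left (by linarith) (Nat.cast_nonneg _)
  refine h9.trans (le_of_eq ?_)
  ring

/-- points with unbounded heights in an orbit -/
theorem unbounded_N {G : ι → MvPolynomial (Fin (n + 1)) F} {J : Finset (Fin (n + 1))}
    {L : Type} [Field L] [Algebra k L] [Algebra F L] [IsScalarTower k F L] [FiniteDimensional F L]
    {x : Fin (n + 1) → L} {b : Fin (n + 1) → ℤ} (hx : ∀ j, x j ≠ 0 ↔ j ∈ J)
    (hb : ∃ j ∈ J, ∃ j' ∈ J, b j ≠ b j') (hw : ∀ e v, val x (wc b v (G e)) = 0) :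
    ∃ (z : ℕ), ∀ B : ℤ, ∃ f : Fin (n + 1) → L, (∀ j, f j ≠ 0 ↔ j ∈ J) ∧ (∀ e, aeval f (G e) = 0) ∧
      (∀ U : Set (Fin (n + 1)), (∀ j ∈ U, j ∈ J) → (cut k U f).ncard ≤ z) ∧ B < pht k f := by
  classical
  have : IsFF k L := isFF_of_finite (F := F)
  obtain ⟨t, ht⟩ := IsFF.exists_transcendental (k := k) (K := L)
  have ht0 : t ≠ 0 := by
    rintro rfl
    exact ht isAlgebraic_zero
  obtain ⟨T1, hT1⟩ := exists_supp (k := k) Finset.univ x
  obtain ⟨T2, hT2⟩ := exists_supp (k := k) (Finset.univ : Finset Unit) fun _ => t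
  refine ⟨(T1 ∪ T2).card, fun B => ?_⟩
  obtain ⟨j, hj, j', hj', hjj⟩ := hb
  have hxj := (hx j).2 hj
  have hxj' := (hx j').2 hj'
  obtain ⟨m, hm⟩ : ∃ m : ℕ, B + hgt k (x j' / x j) < m := by
    refine ⟨(B + hgt k (x j' / x j) + 1).toNat, ?_⟩
    have := Int.self_le_toNat (B + hgt k (x j' / x j) + 1)
    omega
  have htm : t ^ m ≠ 0 := pow_ne_zero _ ht0
  have hsupp : ∀ l, (t ^ m) ^ b l * x l ≠ 0 ↔ l ∈ J := by
    intro l
    rw [← hx l]
    exact ⟨fun h => right_ne_zero_of_mul h, fun h => mul_ne_zero (zpow_ne_zero _ htm) h⟩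
  refine ⟨fun l => (t ^ m) ^ b l * x l, hsupp, fun e => ?_, fun U hU => ?_, ?_⟩
  · exact val_orbit (L := L) x b htm (G e) (hw e)
  · refine cut_card (fun l hl => (hsupp l).2 (hU l hl)) fun l P hP => ?_
    by_contra hPT
    rw [Finset.mem_union, not_or] at hPT
    have h2 : P.ord t = 0 := by
      by_contra h
      exact hPT.2 (hT2 () (Finset.mem_univ _) P h)
    apply hP
    by_cases hl : x l = 0
    · rw [hl, mul_zero, P.ord_zero]
    · rw [P.ord_mul (zpow_ne_zero _ htm) hl, P.ord_zpow, P.ord_pow, h2]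
      have h3 : P.ord (x l) = 0 := by
        by_contra h
        exact hPT.1 (hT1 l (Finset.mem_univ _) P h)
      rw [h3]
      ring
  · refine lt_of_lt_of_le ?_ (hgt_le_pht (k := k) _ ((hsupp j).2 hj) ((hsupp j').2 hj'))
    set u := (t ^ m) ^ b j * x j / ((t ^ m) ^ b j' * x j') with hu
    have hu0 : u ≠ 0 := div_ne_zero ((hsupp j).2 hj) ((hsupp j').2 hj')
    have h1 : (t ^ m) ^ (b j - b j') = u * (x j' / x j) := by
      rw [hu, zpow_sub₀ htm]
      field_simp
    have h2 := hgt_mul (k := k) hu0 (div_ne_zero hxj' hxj)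
    rw [← h1] at h2
    have h3 : (m : ℤ) ≤ hgt k ((t ^ m) ^ (b j - b j')) := by
      rw [← zpow_natCast, ← zpow_mul, hgt_zpow ht0]
      have h4 : 1 ≤ hgt k t := by
        rw [hgt_eq_finrank ht]
        have h9 : FiniteDimensional (IntermediateField.adjoin k {t}) L := IsFF.finite ht
        exact_mod_cast Module.finrank_pos (R := IntermediateField.adjoin k {t}) (M := L)
      have h5 : 1 ≤ |(b j - b j')| := Int.one_le_abs (sub_ne_zero.2 hjj)
      have h6 : |(m : ℤ) * (b j - b j')| = m * |b j - b j'| := by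
        rw [abs_mul, Nat.abs_cast]
      rw [h6]
      have h7 : (m : ℤ) ≤ m * |b j - b j'| := by
        have : (0 : ℤ) ≤ m := Nat.cast_nonneg _
        nlinarith
      have h8 : (0 : ℤ) ≤ m * |b j - b j'| := by positivity
      nlinarith
    omega

end

end Pool.Agent.R869.Wd
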