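import Pool.Agent.R869.NCore
import Pool.Agent.R869.NVoj

/-!
Wide systems with coefficients in a function field: points with constant coordinates.
-/

set_option autoImplicit false

open FF MvPolynomial Pool.Agent.W603.LV Pool.Agent.W603.PV Pool.Agent.W602.GT

namespace Pool.Agent.R869.Wd

open Pool.Agent.R869 (CoefIn)

/-- The point `f` of projective space over `K` is a point over `k`: the vector `f` is proportional
to a vector with coordinates in `k`. -/
def ConstPt (k : Type) [Field k] {K : Type} [Field K] [Algebra k K] {n : ℕ}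
    (f : Fin (n + 1) → K) : Prop :=
  ∃ (c : K) (x : Fin (n + 1) → k), c ≠ 0 ∧ f = fun j => c * algebraMap k K (x j)

/-- **Constant points.** -/
theorem Good.const {n s N : ℕ} {T : Finset (Fin (n + 1) →₀ ℕ)} (hT : Good T s N) {k K : Type}
    [Field k] [IsAlgClosed k] [CharZero k] [Field K] [Algebra k K] [IsFF k K] {ι : Type}
    {G : ι → MvPolynomial (Fin (n + 1)) K} (hG : ∀ e, (G e).support ⊆ T) {C : Finset K}
    (hC : ∀ e, CoefIn C (G e))
    (hbig : (cstC n s : ℤ) * (1 + max (canDeg k K) 0) +
      (2 * cstC n s + 4 * n) * ∑ c ∈ C, hgt k c < N)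
    {f : Fin (n + 1) → K} (hf : PtL ∅ G K f) (hno : ¬ Parts G f) : ConstPt k f := by
  classical
  obtain ⟨M, hM⟩ := exists_cstFor T
  have hS := hT.sys hG ∅
  obtain ⟨j0, hj0⟩ := Function.ne_iff.1 hf.ne
  have hj0' : f j0 ≠ 0 := hj0
  obtain ⟨H, Z, hZ, h1, h2, -⟩ := core_N (k := k) T hG hM hS.form hS.pos hS.card hS.wide C hC ∅ f
    ⟨j0, hj0⟩ hf.mem (fun j hj => absurd hj (Set.notMem_empty j)) hno
  simp only [Finset.sdiff_empty, Finset.inter_empty, Finset.card_empty, Nat.cast_zero,
    add_zero] at h1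
  have h3 : ∑ c ∈ C, hgt k (algebraMap K K c) = ∑ c ∈ C, hgt k c := rfl
  rw [h3] at h2
  have hZ0 : Z = ∅ := by
    rw [← Finset.card_eq_zero]
    by_contra hne
    have hz : (1 : ℤ) ≤ Z.card := by
      have := Nat.one_le_iff_ne_zero.2 hne
      exact_mod_cast this
    have hC0 : (0 : ℤ) ≤ cstC n s := Nat.cast_nonneg _
    have h4 : max (canDeg k K + (Z.card : ℤ)) 0 ≤ max (canDeg k K) 0 + Z.card := by
      refine max_le ?_ ?_
      · have := le_max_left (canDeg k K) 0
        linarith
      · have := le_max_right (canDeg k K) 0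
        linarith
    have h5 := mul_le_mul_of_nonneg_left h4 hC0
    have h6 : 0 ≤ ∑ c ∈ C, hgt k c := Finset.sum_nonneg fun _ _ => hgt_nonneg _
    have h7 : 0 ≤ (2 * cstC n s + 4 * n : ℤ) * ∑ c ∈ C, hgt k c := by positivity
    have h8 : 0 ≤ max (canDeg k K) 0 := le_max_right _ _
    have h9 : 0 ≤ (cstC n s : ℤ) * max (canDeg k K) 0 := mul_nonneg hC0 h8
    set W := (2 * cstC n s + 4 * n : ℤ) * ∑ c ∈ C, hgt k c with hW
    set D := (cstC n s : ℤ) * max (canDeg k K) 0 with hD
    have h10 : (N : ℤ) * Z.card ≤ D + cstC n s * Z.card + W := by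
      rw [mul_add] at h5
      linarith
    have h11 : (cstC n s : ℤ) + D + W < N := by
      rw [hD]
      linarith
    have h12 : ((N : ℤ) - cstC n s) * 1 ≤ ((N : ℤ) - cstC n s) * Z.card :=
      mul_le_mul_of_nonneg_left hz (by linarith)
    nlinarith
  have hc : ∀ j, ∃ x : k, f j / f j0 = algebraMap k K x := by
    intro j
    by_cases hj : f j = 0
    · exact ⟨0, by rw [hj, zero_div, map_zero]⟩
    · have h13 : hgt k (f j / f j0) ≤ 0 := by
        unfold hgt
        refine le_of_eq ?_
        rw [finsum_eq_zero_of_forall_eq_zero]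
        intro P
        rw [P.ord_div hj hj0', hZ P (by rw [hZ0]; exact Finset.notMem_empty _) j j0 hj hj0']
        simp
      obtain ⟨c, hc⟩ := const_of_hgt h13
      exact ⟨c, hc⟩
  choose x hx using hc
  refine ⟨f j0, x, hj0', ?_⟩
  funext j
  rw [← hx j, mul_div_cancel₀ _ hj0']

/-- forms that vanish at points over `k` -/
theorem span_of_const {k K : Type} [Field k] [Field K] [Algebra k K] {n : ℕ}
    (S : Set (Fin (n + 1) → K)) (hS : ∀ f ∈ S, ConstPt k f)
    (H : MvPolynomial (Fin (n + 1)) K) (hH : IsForm H) (h0 : ∀ f ∈ S, aeval f H = 0) :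
    H ∈ Submodule.span K {P | ∃ H0 : MvPolynomial (Fin (n + 1)) k, IsForm H0 ∧
      (∀ f ∈ S, aeval f H0 = 0) ∧ P = map (algebraMap k K) H0} := by
  classical
  obtain ⟨d, hd⟩ := hH
  let b := Module.Basis.ofVectorSpace k K
  let Hi : Module.Basis.ofVectorSpaceIndex k K → MvPolynomial (Fin (n + 1)) k := fun i =>
    ∑ α ∈ H.support, monomial α (b.repr (H.coeff α) i)
  let I : Finset (Module.Basis.ofVectorSpaceIndex k K) :=
    H.support.biUnion fun α => (b.repr (H.coeff α)).support
  have hsum : ∀ α, H.coeff α = ∑ i ∈ I, b i * algebraMap k K ((Hi i).coeff α) := by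
    intro α
    by_cases hα : α ∈ H.support
    · have h1 : ∀ i, (Hi i).coeff α = b.repr (H.coeff α) i := by
        intro i
        simp only [Hi, coeff_sum, coeff_monomial]
        rw [Finset.sum_ite_eq' H.support α, if_pos hα]
      simp only [h1]
      have h2 := b.linearCombination_repr (H.coeff α)
      rw [Finsupp.linearCombination_apply, Finsupp.sum] at h2
      conv_lhs => rw [← h2]
      have h3 : (b.repr (H.coeff α)).support ⊆ I := fun i hi =>
        Finset.mem_biUnion.2 ⟨α, hα, hi⟩
      rw [Finset.sum_subset h3 fun i _ hi => by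
        rw [Finsupp.notMem_support_iff.1 hi, zero_smul]]
      exact Finset.sum_congr rfl fun i _ => by rw [Algebra.smul_def, mul_comm]
    · rw [notMem_support_iff.1 hα]
      symm
      refine Finset.sum_eq_zero fun i _ => ?_
      have h1 : (Hi i).coeff α = 0 := by
        simp only [Hi, coeff_sum, coeff_monomial]
        rw [Finset.sum_ite_eq' H.support α, if_neg hα]
      rw [h1, map_zero, mul_zero]
  have hHsum : H = ∑ i ∈ I, b i • map (algebraMap k K) (Hi i) := by
    ext α
    rw [hsum α, coeff_sum]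
    exact Finset.sum_congr rfl fun i _ => by rw [coeff_smul, coeff_map, smul_eq_mul]
  have hHi : ∀ i, (Hi i).IsHomogeneous d := by
    intro i
    refine IsHomogeneous.sum _ _ _ fun α hα => isHomogeneous_monomial _ ?_
    have h2 := hd (mem_support_iff.1 hα)
    rw [← h2, Finsupp.weight_apply, Finsupp.sum, Finsupp.degree_apply]
    simp
  have hvan : ∀ i ∈ I, ∀ f ∈ S, aeval f (Hi i) = 0 := by
    intro i hi f hf
    obtain ⟨c, x, hc, rfl⟩ := hS f hf
    have h1 : ∀ P : MvPolynomial (Fin (n + 1)) K, P.IsHomogeneous d →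
        aeval (fun j => c * algebraMap k K (x j)) P =
          c ^ d * aeval (fun j => algebraMap k K (x j)) P := fun P hP => aeval_scale hP _ _
    have h1' : ∀ P : MvPolynomial (Fin (n + 1)) k, P.IsHomogeneous d →
        aeval (fun j => c * algebraMap k K (x j)) P =
          c ^ d * aeval (fun j => algebraMap k K (x j)) P := fun P hP => aeval_scale hP _ _
    have h2 := h0 _ hf
    rw [h1 H hd] at h2
    have h3 := (mul_eq_zero.1 h2).resolve_left (pow_ne_zero _ hc)
    rw [hHsum, map_sum] at h3
    have h4 : ∀ i, aeval (fun j => algebraMap k K (x j)) (Hi i) =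
        algebraMap k K (eval x (Hi i)) := by
      intro i
      have h5 := MvPolynomial.aeval_algebraMap_apply K x (Hi i)
      rw [← coe_aeval_eq_eval]
      exact h5
    have h6 : ∑ i ∈ I, (eval x (Hi i)) • b i = 0 := by
      rw [← h3]
      refine Finset.sum_congr rfl fun i _ => ?_
      rw [map_smul, aeval_map_algebraMap, h4, Algebra.smul_def, smul_eq_mul, mul_comm]
    have h7 := linearIndependent_iff'.1 b.linearIndependent I _ h6 i hi
    rw [h1' _ (hHi i), h4, h7, map_zero, mul_zero]
  rw [hHsum]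
  refine Submodule.sum_mem _ fun i hi => Submodule.smul_mem _ _ (Submodule.subset_span ?_)
  exact ⟨Hi i, ⟨d, hHi i⟩, hvan i hi, rfl⟩

end Pool.Agent.R869.Wd
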