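import Pool.Agent.R869.NHgt

/-!
Heights of the points of wide systems with coefficients in a function field of one variable: points
with constant coordinates.
-/

set_option autoImplicit false

open FF MvPolynomial Pool.Agent.W603.LV Pool.Agent.W603.PV Pool.Agent.W602.GT

namespace Pool.Agent.R869.Wd

open Pool.Agent.R869 (CoefIn pht_nonneg cf coefIn_cf)

variable {k F L : Type} [Field k] [Field F] [Field L] [Algebra k L] [Algebra F L]

open Classical in
/-- the core of the height bound -/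
theorem core_N [CharZero k] [IsFF k L] [IsAlgClosed k] {n : ℕ} {ι : Type}
    {U : Set (Fin (n + 1))} {F' : ι → MvPolynomial (Fin (n + 1)) F} {s N M : ℕ}
    (S0 : Finset (Fin (n + 1) →₀ ℕ)) (hS0 : ∀ e, (F' e).support ⊆ S0) (hM : CstFor S0 M)
    (hF : ∀ e, IsForm (F' e)) (hs1 : 1 ≤ s) (hs : ∀ e, (F' e).support.card ≤ s) (hW : Wide U F' N)
    (Sc : Finset F) (hSc : ∀ e, CoefIn Sc (F' e))
    (S : Finset (Place k L)) (f : Fin (n + 1) → L)
    (hf0 : ∃ j, f j ≠ 0) (hfF : ∀ e, aeval f (F' e) = 0)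
    (hfU : ∀ j ∈ U, f j ≠ 0 ∧ ∀ P : Place k L, P ∉ S → P.ord (f j) = pord P f)
    (hno : ¬ ∃ (b : Fin (n + 1) → ℤ) (i i' : Fin (n + 1)), f i ≠ 0 ∧ f i' ≠ 0 ∧ b i ≠ b i' ∧
      ∀ e v, val f (wc b v (F' e)) = 0) :
    ∃ (H : ℤ) (Z : Finset (Place k L)), (∀ P ∉ Z, ∀ i j, f i ≠ 0 → f j ≠ 0 →
        P.ord (f i) = P.ord (f j)) ∧
      (N : ℤ) * (Z \ S).card + (Z ∩ S).card ≤ H ∧
      H ≤ cstC n s * max (canDeg k L + Z.card) 0 +
        (2 * cstC n s + 4 * n) * ∑ c ∈ Sc, hgt k (algebraMap F L c) ∧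
      pht k f ≤ M * H := by
  classical
  push Not at hno
  set I : Finset (Fin (n + 1)) := Finset.univ.filter fun j => f j ≠ 0 with hIdef
  have hI : ∀ j, j ∈ I ↔ f j ≠ 0 := fun j => by simp [hIdef]
  obtain ⟨i1, hi1⟩ := hf0
  obtain ⟨r, e, G, a, b, hr, hG, hm, hpos⟩ := selectV (k := k) (V := L)
    (fun e α => (F' e).coeff α • mon f α) (fun e => (F' e).support) (fun e => exp_total (hF e)) hs I
    (fun e => by
      rw [← val_supp (k := F) hI, ← val_eq_sum]
      exact hfF e) (by
    rintro b ⟨i, hi, j, hj, hij⟩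
    obtain ⟨e, v, h⟩ := hno b i j ((hI i).1 hi) ((hI j).1 hj) hij
    refine ⟨e, v, ?_⟩
    rw [Finset.filter_filter]
    rw [val_wc, val_supp (k := F) hI, Finset.filter_filter] at h
    have e1 : (F' e).support.filter (fun α => (∀ j, j ∉ I → α j = 0) ∧ wgt b α = v) =
        (F' e).support.filter (fun α => (∑ j, (α j : ℤ) * b j = v) ∧ ∀ j, j ∉ I → α j = 0) := by
      refine Finset.filter_congr fun α _ => ?_
      constructor
      · rintro ⟨h1, h2⟩
        exact ⟨h2, h1⟩
      · rintro ⟨h1, h2⟩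
        exact ⟨h2, h1⟩
    rw [e1]
    exact h)
  have hdeg : ∀ l, ∃ d, ∀ α ∈ (F' (e l)).support, ∑ j, α j = d := fun l => exp_total (hF (e l))
  choose d hd using hdeg
  have hsupp0 : ∀ l i j, f j = 0 → (G l).e i j = 0 := fun l i j hj =>
    (hG l i).2 j fun h => (hI j).1 h hj
  have hTne : ∀ l i, mon f ((G l).e i) ≠ 0 := fun l i => mon_ne (hsupp0 l i)
  -- the coefficients
  set cc : ∀ l, Fin ((G l).m + 1) → L := fun l i => algebraMap F L ((F' (e l)).coeff ((G l).e i))
    with hcc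
  have hcne : ∀ l i, cc l i ≠ 0 := fun l i => by
    rw [hcc]
    simp only
    rw [Ne, map_eq_zero]
    exact mem_support_iff.1 (hG l i).1
  have hcS : ∀ l i, (F' (e l)).coeff ((G l).e i) ∈ Sc := fun l i => hSc _ _ (hG l i).1
  have hV : ∀ l i, (F' (e l)).coeff ((G l).e i) • mon f ((G l).e i) =
      cc l i * mon f ((G l).e i) := fun l i => Algebra.smul_def _ _
  have hVne : ∀ l i, (F' (e l)).coeff ((G l).e i) • mon f ((G l).e i) ≠ 0 := fun l i => by
    rw [hV]
    exact mul_ne_zero (hcne l i) (hTne l i)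
  obtain ⟨Z0, hZ0, hZ0c⟩ := card_bad (k := k) (L := L) Sc
  obtain ⟨Hc, hHc⟩ : ∃ H : ℤ, H = ∑ c ∈ Sc, hgt k (algebraMap F L c) := ⟨_, rfl⟩
  rw [← hHc] at hZ0c ⊢
  have hHc0 : 0 ≤ Hc := by rw [hHc]; exact Finset.sum_nonneg fun _ _ => hgt_nonneg _
  have hcH : ∀ l i, hgt k (cc l i) ≤ Hc := fun l i => by
    rw [hHc]
    exact Finset.single_le_sum (f := fun c => hgt k (algebraMap F L c))
      (fun _ _ => hgt_nonneg _) (hcS l i)
  -- the places
  obtain ⟨T1, hT1⟩ := exists_supp (k := k) Finset.univ f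
  set T : Finset (Place k L) := T1 ∪ Z0 with hT
  have hTj : ∀ j, ∀ P : Place k L, P.ord (f j) ≠ 0 → P ∈ T := fun j P hP =>
    Finset.mem_union_left _ (hT1 j (Finset.mem_univ j) P hP)
  have hTc : ∀ l i, ∀ P : Place k L, P.ord (cc l i) ≠ 0 → P ∈ T := fun l i P hP =>
    Finset.mem_union_right _ (hZ0 _ (hcS l i) P hP)
  set Z : Finset (Place k L) := T.filter fun P => ∃ i ∈ I, ∃ j ∈ I, P.ord (f i) ≠ P.ord (f j)
    with hZ
  have hZc : ∀ P ∉ Z, ∀ i ∈ I, ∀ j ∈ I, P.ord (f i) = P.ord (f j) := by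
    intro P hP i hi j hj
    by_contra hne
    apply hP
    rw [hZ, Finset.mem_filter]
    refine ⟨?_, i, hi, j, hj, hne⟩
    by_contra hPT
    have h1 : P.ord (f i) = 0 := by by_contra h; exact hPT (hTj i P h)
    have h2 : P.ord (f j) = 0 := by by_contra h; exact hPT (hTj j P h)
    exact hne (by rw [h1, h2])
  -- the orders of the monomials
  have hord : ∀ (P : Place k L) l i, P.ord (mon f ((G l).e i)) =
      wgt (fun j => P.ord (f j)) ((G l).e i) := fun P l i => mon_ord P (hsupp0 l i)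
  have hordZ : ∀ (P : Place k L), P ∉ Z → ∀ l i i', P.ord (mon f ((G l).e i)) =
      P.ord (mon f ((G l).e i')) := by
    intro P hP l i i'
    have h1 : ∀ i, P.ord (mon f ((G l).e i)) = d l * P.ord (f i1) := by
      intro i
      rw [hord]
      unfold wgt
      have h1 : ∀ j, (((G l).e i) j : ℤ) * P.ord (f j) =
          (((G l).e i) j : ℤ) * P.ord (f i1) := by
        intro j
        by_cases hj : j ∈ I
        · rw [hZc P hP j hj i1 ((hI i1).2 hi1)]
        · rw [(hG l i).2 j hj, Nat.cast_zero, zero_mul, zero_mul]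
      rw [Finset.sum_congr rfl fun j _ => h1 j, ← Finset.sum_mul]
      congr 1
      exact_mod_cast hd l _ (hG l i).1
    rw [h1, h1]
  -- the heights of the ratios
  set E : ℤ := canDeg k L with hE
  have hh : ∀ l, hgt k ((cc l (a l) * mon f ((G l).e (a l))) /
      (cc l (b l) * mon f ((G l).e (b l)))) ≤
      Pool.Agent.R869.tri (G l).m * (E + (Z ∪ Z0).card) := by
    intro l
    have h1 := circ_hgt (k := k)
      (fun i => (G l).c i • ((F' (e l)).coeff ((G l).e i) • mon f ((G l).e i)))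
      (fun i => smul_ne_zero ((G l).c_ne i) (hVne l i)) (G l).rel (G l).li (Z ∪ Z0)
      (fun P hP i j => by
        rw [Finset.mem_union, not_or] at hP
        have hc0 : ∀ i, P.ord (cc l i) = 0 := fun i => by
          by_contra h
          exact hP.2 (hZ0 _ (hcS l i) P h)
        rw [ord_smul P ((G l).c_ne i), ord_smul P ((G l).c_ne j), hV, hV,
          P.ord_mul (hcne l i) (hTne l i), P.ord_mul (hcne l j) (hTne l j), hc0, hc0,
          hordZ P hP.1 l i j]) (a l) (b l)
    refine le_trans (le_of_eq ?_) h1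
    refine hgt_congr fun P => ?_
    simp only [← hV]
    rw [P.ord_div (hVne l _) (hVne l _), P.ord_div (smul_ne_zero ((G l).c_ne _) (hVne l _))
      (smul_ne_zero ((G l).c_ne _) (hVne l _)), ord_smul P ((G l).c_ne _),
      ord_smul P ((G l).c_ne _)]
  obtain ⟨H, hH⟩ : ∃ H : ℤ, H = ∑ P ∈ T, ∑ l, |wgt (fun j => P.ord (f j)) ((G l).e (a l)) -
      wgt (fun j => P.ord (f j)) ((G l).e (b l))| := ⟨_, rfl⟩
  have htri : ((∑ l, 2 * Pool.Agent.R869.tri (G l).m : ℕ) : ℤ) ≤ cstC n s := by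
    rw [← Finset.mul_sum]
    have := tri_le_mul hr (fun l => (G l).m) hm
    unfold cstC
    exact_mod_cast Nat.mul_le_mul_left 2 this
  have hZU : ((Z ∪ Z0).card : ℤ) ≤ Z.card + 2 * Hc := by
    have : ((Z ∪ Z0).card : ℤ) ≤ Z.card + Z0.card := by exact_mod_cast Finset.card_union_le Z Z0
    linarith
  have hloc : ∀ l, ∑ P ∈ T, |wgt (fun j => P.ord (f j)) ((G l).e (a l)) -
      wgt (fun j => P.ord (f j)) ((G l).e (b l))| ≤
      2 * ((Pool.Agent.R869.tri (G l).m : ℤ) * (max (E + Z.card) 0 + 2 * Hc)) + 4 * Hc := by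
    intro l
    have h1 : ∀ P ∈ T, |wgt (fun j => P.ord (f j)) ((G l).e (a l)) -
        wgt (fun j => P.ord (f j)) ((G l).e (b l))| ≤
        |P.ord ((cc l (a l) * mon f ((G l).e (a l))) / (cc l (b l) * mon f ((G l).e (b l))))| +
          (|P.ord (cc l (a l))| + |P.ord (cc l (b l))|) := by
      intro P _
      rw [P.ord_div (mul_ne_zero (hcne l _) (hTne l _)) (mul_ne_zero (hcne l _) (hTne l _)),
        P.ord_mul (hcne l _) (hTne l _), P.ord_mul (hcne l _) (hTne l _), ← hord, ← hord]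
      generalize P.ord (cc l (a l)) = x
      generalize P.ord (cc l (b l)) = y
      generalize P.ord (mon f ((G l).e (a l))) = z
      generalize P.ord (mon f ((G l).e (b l))) = w
      have h3 : z - w = (x + z - (y + w)) + (y - x) := by ring
      rw [h3]
      refine (abs_add_le _ _).trans ?_
      have h4 := abs_sub y x
      rw [abs_sub_comm] at h4
      have h5 : |y - x| ≤ |x| + |y| := by
        rw [abs_sub_comm]
        exact abs_sub x y
      linarith
    refine (Finset.sum_le_sum h1).trans ?_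
    rw [Finset.sum_add_distrib, Finset.sum_add_distrib, sum_abs T, sum_abs T (hTc l _),
      sum_abs T (hTc l _)]
    · have h2 := hcH l (a l)
      have h3 := hcH l (b l)
      have h4 : hgt k ((cc l (a l) * mon f ((G l).e (a l))) /
          (cc l (b l) * mon f ((G l).e (b l)))) ≤
          (Pool.Agent.R869.tri (G l).m : ℤ) * (max (E + Z.card) 0 + 2 * Hc) := by
        refine (hh l).trans (mul_le_mul_of_nonneg_left ?_ (Nat.cast_nonneg _))
        have := le_max_left (E + (Z.card : ℤ)) 0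
        linarith
      linarith
    · intro P hP
      by_contra hPT
      apply hP
      have h5 : ∀ i, P.ord (cc l i) = 0 := fun i => by
        by_contra h
        exact hPT (hTc l i P h)
      have h6 : ∀ i, P.ord (mon f ((G l).e i)) = 0 := by
        intro i
        rw [hord]
        unfold wgt
        refine Finset.sum_eq_zero fun j _ => ?_
        have h1 : P.ord (f j) = 0 := by by_contra h; exact hPT (hTj j P h)
        simp only [h1, mul_zero]
      rw [P.ord_div (mul_ne_zero (hcne l _) (hTne l _)) (mul_ne_zero (hcne l _) (hTne l _)),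
        P.ord_mul (hcne l _) (hTne l _), P.ord_mul (hcne l _) (hTne l _), h5, h5, h6, h6]
      rfl
  obtain ⟨W, hW'⟩ : ∃ W : ℤ, W = (2 * cstC n s + 4 * n) * Hc := ⟨_, rfl⟩
  have hW0 : 0 ≤ W := by rw [hW']; positivity
  have hHle : H ≤ cstC n s * max (E + Z.card) 0 + W := by
    have h1 : H ≤ ∑ l : Fin r, (2 * ((Pool.Agent.R869.tri (G l).m : ℤ) *
        (max (E + Z.card) 0 + 2 * Hc)) + 4 * Hc) := by
      rw [hH, Finset.sum_comm]
      exact Finset.sum_le_sum fun l _ => hloc l
    refine h1.trans ?_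
    have h2 : ∑ l : Fin r, (2 * ((Pool.Agent.R869.tri (G l).m : ℤ) *
        (max (E + Z.card) 0 + 2 * Hc)) + 4 * Hc) =
        ((∑ l, 2 * Pool.Agent.R869.tri (G l).m : ℕ) : ℤ) * (max (E + Z.card) 0 + 2 * Hc) +
          r * (4 * Hc) := by
      rw [Finset.sum_add_distrib, Finset.sum_const, Finset.card_univ, Fintype.card_fin,
        nsmul_eq_mul]
      push_cast
      rw [Finset.sum_mul]
      congr 1
      exact Finset.sum_congr rfl fun l _ => by ring
    rw [h2]
    have h3 : 0 ≤ max (E + (Z.card : ℤ)) 0 + 2 * Hc := by positivity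
    have h4 := mul_le_mul_of_nonneg_right htri h3
    have h5 : (r : ℤ) * (4 * Hc) ≤ n * (4 * Hc) :=
      mul_le_mul_of_nonneg_right (by exact_mod_cast hr) (by positivity)
    rw [hW']
    linarith
  -- the local contributions
  have hnn : ∀ P : Place k L, 0 ≤ ∑ l, |wgt (fun j => P.ord (f j)) ((G l).e (a l)) -
      wgt (fun j => P.ord (f j)) ((G l).e (b l))| := fun P =>
    Finset.sum_nonneg fun _ _ => abs_nonneg _
  have hlow : (N : ℤ) * (Z \ S).card + (Z ∩ S).card ≤ H := by
    rw [hH]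
    have h1 : ∑ P ∈ Z, ∑ l, |wgt (fun j => P.ord (f j)) ((G l).e (a l)) -
        wgt (fun j => P.ord (f j)) ((G l).e (b l))| ≤
        ∑ P ∈ T, ∑ l, |wgt (fun j => P.ord (f j)) ((G l).e (a l)) -
          wgt (fun j => P.ord (f j)) ((G l).e (b l))| :=
      Finset.sum_le_sum_of_subset_of_nonneg (Finset.filter_subset _ _) fun P _ _ => hnn P
    refine le_trans ?_ h1
    rw [← Finset.sum_inter_add_sum_sdiff Z S]
    have h2 : ((Z ∩ S).card : ℤ) ≤ ∑ P ∈ Z ∩ S, ∑ l, |wgt (fun j => P.ord (f j)) ((G l).e (a l)) -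
        wgt (fun j => P.ord (f j)) ((G l).e (b l))| := by
      rw [Finset.card_eq_sum_ones, Nat.cast_sum]
      refine Finset.sum_le_sum fun P hP => ?_
      have h3 := hpos (fun j => P.ord (f j)) (by
        have h4 := (Finset.mem_inter.1 hP).1
        rw [hZ, Finset.mem_filter] at h4
        exact h4.2)
      push_cast
      omega
    have h3 : (N : ℤ) * (Z \ S).card ≤ ∑ P ∈ Z \ S,
        ∑ l, |wgt (fun j => P.ord (f j)) ((G l).e (a l)) -
          wgt (fun j => P.ord (f j)) ((G l).e (b l))| := by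
      rw [Finset.card_eq_sum_ones, Nat.cast_sum, Finset.mul_sum]
      refine Finset.sum_le_sum fun P hP => ?_
      have hP1 := (Finset.mem_sdiff.1 hP).1
      have hP2 := (Finset.mem_sdiff.1 hP).2
      rw [hZ, Finset.mem_filter] at hP1
      have h4 := hW (I : Set (Fin (n + 1))) r e (fun l => (G l).e (a l)) (fun l => (G l).e (b l))
        (fun j hj => (hI j).2 (hfU j hj).1) hr (fun l => ⟨(hG l _).1, (hG l _).1, fun j hj =>
          ⟨(hG l _).2 j hj, (hG l _).2 j hj⟩⟩) hpos (fun j => P.ord (f j)) hP1.2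
        (fun i hi j hj => by
          change P.ord (f i) ≤ P.ord (f j)
          rw [(hfU i hi).2 P hP2]
          exact pord_le P ((hI j).1 hj))
      refine le_trans ?_ h4
      push_cast
      linarith
    linarith
  refine ⟨H, Z, fun P hP i j hi hj => hZc P hP i ((hI i).2 hi) j ((hI j).2 hj), hlow, ?_, ?_⟩
  · rw [hW'] at hHle
    exact hHle
  · rw [pht_finset f hi1 T hTj]
    have h1 : ∀ P ∈ T, P.ord (f i1) - pord P f ≤ M * ∑ l,
        |wgt (fun j => P.ord (f j)) ((G l).e (a l)) - wgt (fun j => P.ord (f j)) ((G l).e (b l))| := by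
      intro P _
      obtain ⟨j, hj, h⟩ := exists_pord P ⟨i1, hi1⟩
      rw [← h]
      exact hM I r (fun l => (G l).e (a l)) (fun l => (G l).e (b l)) hr
        (fun l => ⟨hS0 _ (hG l _).1, hS0 _ (hG l _).1⟩) hpos (fun j => P.ord (f j)) i1
        ((hI i1).2 hi1) j ((hI j).2 hj)
    refine (Finset.sum_le_sum h1).trans ?_
    rw [← Finset.mul_sum, ← hH]

end Pool.Agent.R869.Wd
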