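import Pool.Agent.R869.WPtd

/-!
Irreducible components of wide quasi-projective varieties: degrees of curves, uniform constants.
-/

set_option autoImplicit false

open FF MvPolynomial Pool.Agent.W603.LV Pool.Agent.W603.PV
open Pool.Agent.W602.GT
open Pool.Agent.Y190.AH (MapX van LinB EulB EachB GmB zeroInf)

namespace Pool.Agent.R869.Wd

/-- Outside of a proper closed subset, the degrees of the morphisms from the affine curves of genus
`g` with `s` points at infinity to the variety `V = {x_j ≠ 0, j in U}` with generic point `y` are at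
most `A` times the maximum of `0` and `2 g - 2 + s`. -/
def LinA (k : Type) [Field k] {n : ℕ} (A : ℕ) (U : Set (Fin (n + 1))) {K : Type} [Field K]
    [Algebra k K] (y : Fin (n + 1) → K) : Prop :=
  ∃ G : MvPolynomial (Fin (n + 1)) k, IsForm G ∧ val y G ≠ 0 ∧
    ∀ (L : Type) [Field L] [Algebra k L] [IsFF k L] (S : Finset (Place k L))
      (f : Fin (n + 1) → L), MapX U (van (k := k) y) S f → val f G ≠ 0 →
        pht k f ≤ A * max (canDeg k L + S.card) 0

variable {k : Type} [Field k] [IsAlgClosed k] [CharZero k] {n : ℕ} {ι : Type}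
  {F : ι → MvPolynomial (Fin (n + 1)) k} {U : Set (Fin (n + 1))}

theorem comp_linA [Finite ι] (hF : ∀ e, IsForm (F e)) {A : ℕ} (hA : HgtBound U F A)
    {K : Type} [Field K] [Algebra k K] {w : ℕ} {y : Fin (n + 1) → K} (hy : SubVarU U F K w y)
    (hcomp : IsComponentU U F y) (hgt : LogGeneralType k K w (OffU U y)) : LinA k A U y := by
  have := Fintype.ofFinite ι
  refine ⟨excC F y, excC_form hF y, excC_ne F y, fun L _ _ _ S f hf hfG => ?_⟩
  refine hA L S f ⟨hf.1, fun e => hf.2.1 ⟨F e, hF e, hy.mem e⟩, hf.2.2⟩ ?_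
  rintro ⟨b, i, i', hi, hi', hb, hwc⟩
  have hsupp : ∀ j, f j ≠ 0 → y j ≠ 0 := by
    intro j hj h0
    apply hj
    have h1 := hf.2.1 ⟨X j, ⟨1, isHomogeneous_X _ _⟩, by
      unfold val
      rw [aeval_X]
      exact h0⟩
    change val f (X j) = 0 at h1
    unfold val at h1
    rwa [aeval_X] at h1
  exact comp_not_lgt hy hcomp (hsupp i hi) (hsupp i' hi') hb
    (fun e v => excC_sub hfG e b v (hwc e v)) hgt

/-- **Log general type and degrees of curves.** -/
theorem log_tfaeA [Finite ι] {s N : ℕ} (hC : Sys U F s N) {A : ℕ} (hA : HgtBound U F A)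
    {K : Type} [Field K] [Algebra k K] {w : ℕ} (hw : 1 ≤ w) {y : Fin (n + 1) → K}
    (hy : SubVarU U F K w y) (hcomp : IsComponentU U F y) :
    [LogGeneralType k K w (OffU U y), LinA k A U y, LinB k U y, EulB k U y, EachB k U y,
      GmB k U y, StronglyLgt U k y,
      ∀ b : Fin (n + 1) → ℤ, Acts U k y b → ∀ i i', y i ≠ 0 → y i' ≠ 0 → b i = b i'].TFAE := by
  tfae_have 1 → 2 := comp_linA hC.form hA hy hcomp
  tfae_have 2 → 3 := fun ⟨G, hG, hGy, h⟩ => ⟨G, hG, hGy, A, h⟩
  tfae_have 3 → 4 := by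
    rintro ⟨G, hG, hGy, B, hB⟩
    exact ⟨G, hG, hGy, fun z => B * max z 0, fun L _ _ _ S f hf hfG => hB L S f hf hfG⟩
  tfae_have 4 → 5 := by
    rintro ⟨G, hG, hGy, β, hB⟩
    exact ⟨G, hG, hGy, fun L _ _ _ S => ⟨_, fun f hf hfG => hB L S f hf hfG⟩⟩
  tfae_have 5 → 6 := by
    rintro ⟨G, hG, hGy, hB⟩
    obtain ⟨B, hB'⟩ := hB (RatFunc k) (zeroInf k)
    exact ⟨G, hG, hGy, B, fun f hf hfG => hB' f hf hfG⟩
  tfae_have 6 → 8 := by
    intro h b hact i i' hi hi'
    by_contra hb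
    obtain ⟨G, -, hGy, B, hB⟩ := h
    obtain ⟨x, hx, hxG⟩ := orbit_of_acts hy.unit hi hi' hb hact hGy
    obtain ⟨f, hf, hfG, hlt⟩ := orbit_mapX hx hxG B
    exact absurd (hB f hf hfG) (not_le.2 hlt)
  tfae_have 8 → 1 := (lgt_iff_acts hC hw hy hcomp).2
  tfae_have 1 → 7 := strongly_of_lgt hC hy hcomp
  tfae_have 7 → 1 := lgt_of_strongly hw hy
  tfae_finish

end Pool.Agent.R869.Wd
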