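import Pool.Agent.R869.NCrit
import Pool.Agent.R869.WLog2

/-!
Vojta's height inequality for the components of wide systems over function fields.
-/

set_option autoImplicit false

open FF MvPolynomial Pool.Agent.W603.LV Pool.Agent.W603.PV Pool.Agent.W602.GT
open Pool.Agent.Y190.AH (van)
open Pool.Agent.W603.CX (hgt_le_pht)

namespace Pool.Agent.R869.Wd

variable {k F : Type} [Field k] [Field F] [Algebra k F] [IsAlgClosed k] [CharZero k] [IsFF k F]
  {n : ℕ} {ι : Type} {U : Set (Fin (n + 1))}

/-- **Vojta's height inequality for components.** -/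
theorem comp_vojta [Finite ι] {T : Finset (Fin (n + 1) →₀ ℕ)} {A : ℕ} (hA : NBound T A)
    {G : ι → MvPolynomial (Fin (n + 1)) F} (hG : ∀ e, (G e).support ⊆ T)
    (hF : ∀ e, IsForm (map (algebraMap F (AlgebraicClosure F)) (G e)))
    {K : Type} [Field K] [Algebra (AlgebraicClosure F) K] {w : ℕ} {y : Fin (n + 1) → K}
    (hy : SubVarU U (fun e => map (algebraMap F (AlgebraicClosure F)) (G e)) K w y)
    (hcomp : IsComponentU U (fun e => map (algebraMap F (AlgebraicClosure F)) (G e)) y)
    (hgt : LogGeneralType (AlgebraicClosure F) K w (OffU U y)) : VojtaV k F U A y := by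
  have := Fintype.ofFinite ι
  haveI : CharZero F := charZero_ext (k := k)
  refine ⟨_, excC_form hF y, excC_ne _ y, hA.vojta hG _ fun L _ _ _ f hf => ?_⟩
  obtain ⟨σ, hf1, hf2⟩ := hf
  have hmem : ∀ e, aeval f (G e) = 0 := by
    intro e
    have h1 := hf1.1.2 _ (hF e) (hy.mem e)
    rw [val_map, val_ext] at h1
    exact (map_eq_zero _).1 h1
  refine ⟨⟨fun h0 => hf1.1.1 ?_, fun j hj h0 => hf1.2 j hj ?_, hmem⟩, ?_⟩
  · funext j
    rw [h0]
    exact map_zero σ
  · simp only [h0, map_zero]
  · rintro ⟨b, i, i', hi, hi', hb, hw⟩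
    have hsupp : ∀ j, f j ≠ 0 → y j ≠ 0 := by
      intro j hj h0
      apply hj
      have h1 := hf1.1.2 (X j) ⟨1, isHomogeneous_X _ _⟩ (by
        unfold val
        rw [aeval_X]
        exact h0)
      unfold val at h1
      rw [aeval_X] at h1
      exact (map_eq_zero _).1 h1
    refine comp_not_lgt hy hcomp (hsupp i hi) (hsupp i' hi') hb (fun e v =>
      excC_sub hf2 e b v ?_) hgt
    rw [wc_map, val_map, val_ext, hw e v, map_zero]

/-- the points of an orbit have unbounded heights -/
theorem orbit_heights {L : Type} [Field L] [Algebra k L] [IsFF k L] {x : Fin (n + 1) → L}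
    {b : Fin (n + 1) → ℤ} {j j' : Fin (n + 1)} (hxj : x j ≠ 0) (hxj' : x j' ≠ 0)
    (hjj : b j ≠ b j') {t : L} (ht : Transcendental k t) :
    ∃ (z : ℕ), ∀ B : ℤ, ∃ m0 : ℕ, ∀ m ≥ m0,
      (∀ U : Set (Fin (n + 1)), (∀ j ∈ U, x j ≠ 0) →
        (cut k U (fun l => (t ^ m) ^ b l * x l)).ncard ≤ z) ∧
      B < pht k (fun l => (t ^ m) ^ b l * x l) := by
  classical
  have ht0 : t ≠ 0 := by
    rintro rfl
    exact ht isAlgebraic_zero
  obtain ⟨T1, hT1⟩ := exists_supp (k := k) Finset.univ x
  obtain ⟨T2, hT2⟩ := exists_supp (k := k) (Finset.univ : Finset Unit) fun _ => t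
  refine ⟨(T1 ∪ T2).card, fun B => ⟨(B + hgt k (x j' / x j) + 1).toNat, fun m hm0 => ?_⟩⟩
  have hm : B + hgt k (x j' / x j) < m := by
    have := Int.self_le_toNat (B + hgt k (x j' / x j) + 1)
    omega
  have htm : t ^ m ≠ 0 := pow_ne_zero _ ht0
  have hne : ∀ l, x l ≠ 0 → (t ^ m) ^ b l * x l ≠ 0 := fun l h =>
    mul_ne_zero (zpow_ne_zero _ htm) h
  refine ⟨fun U hU => ?_, ?_⟩
  · refine cut_card (fun l hl => hne l (hU l hl)) fun l P hP => ?_
    by_contra hPT
    rw [Finset.mem_union, not_or] at hPT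
    have h2 : P.ord t = 0 := by
      by_contra h
      exact hPT.2 (hT2 () (Finset.mem_univ _) P h)
    apply hP
    by_cases hl : x l = 0
    · rw [hl, mul_zero, P.ord_zero]
    · rw [P.ord_mul (zpow_ne_zero _ htm) hl, P.ord_zpow, P.ord_pow, h2]
      have h3 : P.ord (x l) = 0 := by
        by_contra h
        exact hPT.1 (hT1 l (Finset.mem_univ _) P h)
      rw [h3]
      ring
  · refine lt_of_lt_of_le ?_ (hgt_le_pht (k := k) _ (hne j hxj) (hne j' hxj'))
    set u := (t ^ m) ^ b j * x j / ((t ^ m) ^ b j' * x j') with hu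
    have hu0 : u ≠ 0 := div_ne_zero (hne j hxj) (hne j' hxj')
    have h1 : (t ^ m) ^ (b j - b j') = u * (x j' / x j) := by
      rw [hu, zpow_sub₀ htm]
      field_simp
    have h2 := hgt_mul (k := k) hu0 (div_ne_zero hxj' hxj)
    rw [← h1] at h2
    have h3 : (m : ℤ) ≤ hgt k ((t ^ m) ^ (b j - b j')) := by
      rw [← zpow_natCast, ← zpow_mul, hgt_zpow ht0]
      have h4 : 1 ≤ hgt k t := by
        rw [hgt_eq_finrank ht]
        have h9 : FiniteDimensional (IntermediateField.adjoin k {t}) L := IsFF.finite ht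
        exact_mod_cast Module.finrank_pos (R := IntermediateField.adjoin k {t}) (M := L)
      have h5 : 1 ≤ |(b j - b j')| := Int.one_le_abs (sub_ne_zero.2 hjj)
      have h6 : |(m : ℤ) * (b j - b j')| = m * |b j - b j'| := by
        rw [abs_mul, Nat.abs_cast]
      rw [h6]
      have h7 : (m : ℤ) ≤ m * |b j - b j'| := by
        have : (0 : ℤ) ≤ m := Nat.cast_nonneg _
        nlinarith
      have h8 : (0 : ℤ) ≤ m * |b j - b j'| := by positivity
      nlinarith
    omega

/-- Vojta's height inequality fails for subvarieties with an action -/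
theorem acts_of_vojta {K : Type} [Field K] [Algebra (AlgebraicClosure F) K]
    {y : Fin (n + 1) → K} (hyU : ∀ j ∈ U, y j ≠ 0) {A : ℕ} (h : VojtaV k F U A y)
    (b : Fin (n + 1) → ℤ) (hact : Acts U (AlgebraicClosure F) y b) (i i' : Fin (n + 1))
    (hi : y i ≠ 0) (hi' : y i' ≠ 0) : b i = b i' := by
  classical
  by_contra hb
  haveI : CharZero F := charZero_ext (k := k)
  obtain ⟨H, -, hHy, B, hB⟩ := h
  -- an orbit through a general point
  let R : MvPolynomial (Fin (n + 1)) (AlgebraicClosure F) := H * (X i * X i') *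
    ∏ j ∈ (Set.toFinite U).toFinset, X j
  have hR : aeval y R ≠ 0 := by
    simp only [R, map_mul, map_prod, aeval_X]
    refine mul_ne_zero (mul_ne_zero hHy (mul_ne_zero hi hi')) ?_
    exact Finset.prod_ne_zero_iff.2 fun j hj => hyU j ((Set.Finite.mem_toFinset _).1 hj)
  obtain ⟨x, hx, hx0⟩ := specialise y R hR
  simp only [R, map_mul, map_prod, aeval_X] at hx
  have h1 := left_ne_zero_of_mul hx
  have h3 := right_ne_zero_of_mul h1
  have hxi := left_ne_zero_of_mul h3
  have hxi' := right_ne_zero_of_mul h3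
  have hxH : val x H ≠ 0 := left_ne_zero_of_mul h1
  have hxU : x ∈ PtsU U (AlgebraicClosure F) y := by
    refine ⟨⟨fun h0' => hxi (congrFun h0' i), fun G' _ h' => hx0 _ h'⟩, fun j hj => ?_⟩
    exact Finset.prod_ne_zero_iff.1 (right_ne_zero_of_mul hx) j
      ((Set.Finite.mem_toFinset _).2 hj)
  -- the field of definition
  let L : IntermediateField F (AlgebraicClosure F) := IntermediateField.adjoin F (Set.range x)
  have : FiniteDimensional F L := IntermediateField.finiteDimensional_adjoin fun y _ =>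
    Algebra.IsIntegral.isIntegral y
  letI : Algebra k L := ((algebraMap F L).comp (algebraMap k F)).toAlgebra
  have : IsScalarTower k F L := IsScalarTower.of_algebraMap_eq' rfl
  have : IsFF k L := isFF_of_finite (F := F)
  have hmem : ∀ j, x j ∈ L := fun j => IntermediateField.subset_adjoin F _ ⟨j, rfl⟩
  obtain ⟨t, ht⟩ := IsFF.exists_transcendental (k := k) (K := L)
  have ht0 : t ≠ 0 := by
    rintro rfl
    exact ht isAlgebraic_zero
  let x' : Fin (n + 1) → L := fun j => ⟨x j, hmem j⟩
  have hxx : ∀ j, L.val (x' j) = x j := fun j => rfl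
  have hx'i : x' i ≠ 0 := fun h0 => hxi (by rw [← hxx, h0, map_zero])
  have hx'i' : x' i' ≠ 0 := fun h0 => hxi' (by rw [← hxx, h0, map_zero])
  obtain ⟨z, hz⟩ := orbit_heights (k := k) hx'i hx'i' hb ht
  obtain ⟨m0, hm0⟩ := hz (A * (max (canDeg k L) 0 + z) + B * Module.finrank F L)
  -- the form `H` vanishes at finitely many points of the orbit
  obtain ⟨M, P, hP1, -, hP3⟩ := orbit_poly (k := AlgebraicClosure F) x b H
  have hP0 : P ≠ 0 := by
    rintro rfl
    have h4 := hP1 1 one_ne_zero
    rw [Polynomial.eval_zero] at h4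
    simp only [one_zpow, one_mul, one_pow] at h4
    exact hxH h4.symm
  have hinj : Function.Injective fun m : ℕ => (algebraMap L (AlgebraicClosure F) t) ^ m := by
    have h5 : ∀ m : ℕ, m ≠ 0 → t ^ m ≠ 1 := by
      intro m hm h6
      refine ht (IsAlgebraic.of_pow (Nat.pos_of_ne_zero hm) ?_)
      rw [h6]
      exact isAlgebraic_one
    intro m m' hmm
    simp only [← map_pow] at hmm
    have h6 : t ^ m = t ^ m' := (algebraMap L (AlgebraicClosure F)).injective hmm
    by_contra hne
    rcases Nat.lt_or_gt_of_ne hne with h7 | h7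
    · exact h5 (m' - m) (by omega) (by
        have h8 : t ^ m * t ^ (m' - m) = t ^ m * 1 := by
          rw [← pow_add, Nat.add_sub_cancel' h7.le, mul_one, h6]
        exact mul_left_cancel₀ (pow_ne_zero _ ht0) h8)
    · exact h5 (m - m') (by omega) (by
        have h8 : t ^ m' * t ^ (m - m') = t ^ m' * 1 := by
          rw [← pow_add, Nat.add_sub_cancel' h7.le, mul_one, h6]
        exact mul_left_cancel₀ (pow_ne_zero _ ht0) h8)
  have hfin : {m : ℕ | P.eval ((algebraMap L (AlgebraicClosure F) t) ^ m) = 0}.Finite := by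
    have h2 : {x | P.eval x = 0}.Finite := by
      refine (P.roots.toFinset.finite_toSet).subset fun x hx => ?_
      simp only [Finset.mem_coe, Multiset.mem_toFinset, Polynomial.mem_roots hP0]
      exact hx
    exact h2.preimage hinj.injOn
  obtain ⟨m, hm, hmP⟩ : ∃ m ≥ m0, P.eval ((algebraMap L (AlgebraicClosure F) t) ^ m) ≠ 0 := by
    by_contra hcon
    push Not at hcon
    exact (Set.Ici_infinite m0) (hfin.subset fun m hm => hcon m hm)
  obtain ⟨hc, hlt⟩ := hm0 m hm
  have htm : t ^ m ≠ 0 := pow_ne_zero _ ht0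
  have hσ : (fun j => L.val ((t ^ m) ^ b j * x' j)) =
      fun j => ((algebraMap L (AlgebraicClosure F) t) ^ m) ^ b j * x j := by
    funext j
    rw [map_mul, map_zpow₀, map_pow]
    rfl
  have hTm : (algebraMap L (AlgebraicClosure F) t) ^ m ≠ 0 :=
    pow_ne_zero _ ((map_ne_zero _).2 ht0)
  have h9 := hB L (fun j => (t ^ m) ^ b j * x' j) ⟨L.val, by
    rw [hσ]
    exact hact _ hTm x hxU, by
    rw [hσ]
    intro h0
    apply hmP
    rw [hP1 _ hTm, h0, mul_zero]⟩
  have h10 : ((cut k U (fun j => (t ^ m) ^ b j * x' j)).ncard : ℤ) ≤ z := by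
    exact_mod_cast hc U fun j hj h0 => hxU.2 j hj (by rw [← hxx, h0, map_zero])
  have h11 : (A : ℤ) * (canDeg k L + (cut k U (fun j => (t ^ m) ^ b j * x' j)).ncard) ≤
      A * (max (canDeg k L) 0 + z) :=
    mul_le_mul_of_nonneg_left (by
      have := le_max_left (canDeg k L) 0
      linarith) (Nat.cast_nonneg _)
  linarith

/-- **Vojta's height inequality characterises the components of log general type.** -/
theorem comp_tfaeN [Finite ι] {T : Finset (Fin (n + 1) →₀ ℕ)} {s N : ℕ} (hT : Good T s N) {A : ℕ}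
    (hA : NBound T A) {G : ι → MvPolynomial (Fin (n + 1)) F} (hG : ∀ e, (G e).support ⊆ T)
    {K : Type} [Field K] [Algebra (AlgebraicClosure F) K] {w : ℕ} (hw : 1 ≤ w)
    {y : Fin (n + 1) → K}
    (hy : SubVarU U (fun e => map (algebraMap F (AlgebraicClosure F)) (G e)) K w y)
    (hcomp : IsComponentU U (fun e => map (algebraMap F (AlgebraicClosure F)) (G e)) y) :
    [LogGeneralType (AlgebraicClosure F) K w (OffU U y), VojtaV k F U A y,
      ∃ A', VojtaV k F U A' y,
      ∀ b : Fin (n + 1) → ℤ, Acts U (AlgebraicClosure F) y b → ∀ i i', y i ≠ 0 → y i' ≠ 0 →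
        b i = b i'].TFAE := by
  haveI : CharZero F := charZero_ext (k := k)
  have hC := hT.sys (F := fun e => map (algebraMap F (AlgebraicClosure F)) (G e)) (fun e => by
    rw [support_ext]
    exact hG e) U
  tfae_have 1 → 2 := comp_vojta hA hG hC.form hy hcomp
  tfae_have 2 → 3 := fun h => ⟨A, h⟩
  tfae_have 3 → 4 := fun ⟨A', h⟩ b hb i i' hi hi' => acts_of_vojta hy.unit h b hb i i' hi hi'
  tfae_have 4 → 1 := (lgt_iff_acts hC hw hy hcomp).2
  tfae_finish

end Pool.Agent.R869.Wd
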