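import Pool.Agent.R869.WPtd

/-!
From linear degree bounds to boundedness, with the exceptional set.
-/

set_option autoImplicit false

set_option linter.unusedSectionVars false

open FF Pool.Agent.W603.LV Pool.Agent.W603.PV Pool.Agent.W602.GT
open Pool.Agent.Y190.BV Pool.Agent.Y190.GN Pool.Agent.TH145.MW Pool.Agent.Y190.QP
open Pool.Agent.Y190.AH (MapX van LinB EulB)
open Pool.Agent.Y190.PH

namespace Pool.Agent.R869.Wd

variable {N : ℕ} {K : Type} [Field K] [Algebra ℂ K]

/-- **From degree bounds to boundedness**, with the exceptional set. -/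
theorem bounded_span {U : Set (Fin (N + 1))} {j0 : Fin (N + 1)} (hj0 : j0 ∈ U)
    {y : Fin (N + 1) → K} (hyU : ∀ j ∈ U, y j ≠ 0) {G : MvPolynomial (Fin (N + 1)) ℂ} {B0 : ℕ}
    (hB0 : ∀ (L : Type) [Field L] [Algebra ℂ L] [IsFF ℂ L] (S : Finset (Place ℂ L))
      (f : Fin (N + 1) → L), MapX U (van (k := ℂ) y) S f → val f G ≠ 0 →
        pht ℂ f ≤ B0 * max (canDeg ℂ L + S.card) 0) :
    Pool.Agent.Y193.BoundedModulo (CoordRing U y)
      (Ideal.span {MvPolynomial.aeval (fun i => gen y i hj0) G}) := by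
  classical
  obtain ⟨g, hg⟩ : ∃ g : CoordRing U y, g = MvPolynomial.aeval (fun i => gen y i hj0) G :=
    ⟨_, rfl⟩
  rw [← hg]
  have hyj0 : (y j0)⁻¹ ≠ 0 := inv_ne_zero (hyU j0 hj0)
  have hform : ∀ G' : MvPolynomial (Fin (N + 1)) ℂ, IsForm G' →
      ((MvPolynomial.aeval (fun i => gen y i hj0) G' : CoordRing U y) = 0 ↔ val y G' = 0) := by
    rintro G' ⟨d, hd⟩
    rw [← Subtype.coe_inj, gen_aeval, val_smul hd]
    change _ = (0 : K) ↔ _
    rw [mul_eq_zero]
    exact ⟨fun h => h.resolve_left (pow_ne_zero _ hyj0), fun h => Or.inr h⟩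
  intro B _ _ _ _ a
  by_cases hB : IsField B
  · have h1 : Module.Finite ℂ B := by
      let := hB.toField
      exact finite_of_finite_type_of_isJacobsonRing ℂ B
    infer_instance
  have hFF := isFF_frac hB
  obtain ⟨S, hS⟩ := exists_places (B := B)
  obtain ⟨C, hC⟩ : ∃ C : ℤ, C = B0 * max (canDeg ℂ (FractionRing B) + S.card) 0 := ⟨_, rfl⟩
  have hC0 : 0 ≤ C := by
    rw [hC]
    exact mul_nonneg (by positivity) (le_max_right _ _)
  let ι : B →ₐ[ℂ] FractionRing B := IsScalarTower.toAlgHom ℂ B (FractionRing B)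
  have hι : Function.Injective ι := IsFractionRing.injective B (FractionRing B)
  have hSι : ∀ P ∉ S, ∀ b : B, Ge P 0 (ι b) := hS
  have key : ∀ φ : CoordRing U y →ₐ[ℂ] B, ¬ Ideal.span {g} ≤ RingHom.ker φ →
      ∀ (i j : Fin (N + 1)) (hj : j ∈ U) (P : Place ℂ (FractionRing B)),
        Ge P (-C) (ι (φ (gen y i hj))) := by
    intro φ hφ i j hj P
    let f : Fin (N + 1) → FractionRing B := fun i => ι (φ (gen y i hj0))
    have hval : ∀ G' : MvPolynomial (Fin (N + 1)) ℂ,
        val f G' = ι (φ (MvPolynomial.aeval (fun i => gen y i hj0) G')) := by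
      intro G'
      have h1 : (ι.comp φ).comp (MvPolynomial.aeval (fun i => gen y i hj0)) =
          MvPolynomial.aeval f := by
        apply MvPolynomial.algHom_ext
        intro i
        rw [AlgHom.comp_apply, MvPolynomial.aeval_X, MvPolynomial.aeval_X]
        rfl
      unfold val
      rw [← h1]
      rfl
    have hmul : ∀ (j : Fin (N + 1)) (hj : j ∈ U), f j * ι (φ (gen y j0 hj)) = 1 := by
      intro j hj
      have h1 : gen y j hj0 * gen y j0 hj = 1 := by
        apply Subtype.ext
        change y j / y j0 * (y j0 / y j) = 1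
        have := hyU j hj
        have := hyU j0 hj0
        field_simp
      simp only [f]
      rw [← map_mul, ← map_mul, h1, map_one, map_one]
    have hfj0 : f j0 = 1 := by
      have h1 : gen y j0 hj0 = 1 := by
        apply Subtype.ext
        change y j0 / y j0 = 1
        exact div_self (hyU j0 hj0)
      simp only [f]
      rw [h1, map_one, map_one]
    have hfj : ∀ j ∈ U, f j ≠ 0 := fun j hj h0 => by
      have h1 := hmul j hj
      rw [h0, zero_mul] at h1
      exact zero_ne_one h1
    have hmap : MapX U (van (k := ℂ) y) S f := by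
      refine ⟨⟨j0, hfj j0 hj0⟩, fun e => ?_, fun j hj => ⟨hfj j hj, fun P hP => ?_⟩⟩
      · have h1 : (MvPolynomial.aeval (fun i => gen y i hj0) (van (k := ℂ) y e) :
            CoordRing U y) = 0 := (hform e.1 e.2.1).2 e.2.2
        rw [hval, h1, map_zero, map_zero]
      · have h1 := hmul j hj
        have h2 : ι (φ (gen y j0 hj)) ≠ 0 := fun h0 => by
          rw [h0, mul_zero] at h1
          exact zero_ne_one h1
        have h3 := congrArg P.ord h1
        rw [P.ord_mul (hfj j hj) h2, P.ord_one] at h3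
        have h4 := (hSι P hP (φ (gen y j hj0))).resolve_left (hfj j hj)
        have h5 := (hSι P hP (φ (gen y j0 hj))).resolve_left h2
        have h6 : P.ord (f j) = 0 := by
          change 0 ≤ P.ord (f j) at h4
          omega
        obtain ⟨l, hl, hlo⟩ := exists_pord P ⟨j0, hfj j0 hj0⟩
        have h7 := (hSι P hP (φ (gen y l hj0))).resolve_left hl
        change 0 ≤ P.ord (f l) at h7
        have h8 := pord_le P (hfj j0 hj0)
        rw [hfj0, P.ord_one] at h8
        omega
    have hfG : val f G ≠ 0 := by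
      rw [hval, ← hg]
      intro h0
      apply hφ
      rw [Ideal.span_singleton_le_iff_mem, RingHom.mem_ker]
      exact hι (by rw [map_zero]; exact h0)
    have hpht := hB0 (FractionRing B) S f hmap hfG
    rw [← hC] at hpht
    by_cases hi : f i = 0
    · left
      have h1 : gen y i hj = gen y i hj0 * gen y j0 hj := by
        apply Subtype.ext
        change y i / y j = y i / y j0 * (y j0 / y j)
        have := hyU j hj
        have := hyU j0 hj0
        field_simp
      rw [h1, map_mul, map_mul]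
      change f i * _ = 0
      rw [hi, zero_mul]
    · right
      have h1 : ι (φ (gen y i hj)) = f i / f j := by
        rw [eq_div_iff (hfj j hj)]
        simp only [f]
        rw [← map_mul, ← map_mul]
        congr 2
        apply Subtype.ext
        change y i / y j * (y j / y j0) = y i / y j0
        have := hyU j hj
        have := hyU j0 hj0
        field_simp
      rw [h1]
      have h2 := Pool.Agent.W603.CX.hgt_le_pht (k := ℂ) f hi (hfj j hj)
      have h3 := neg_ord_le (k := ℂ) (f i / f j) P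
      linarith
  -- all the functions
  obtain ⟨C', hC'0, hC'⟩ : ∃ C' : ℤ, 0 ≤ C' ∧ ∀ φ : CoordRing U y →ₐ[ℂ] B,
      ¬ Ideal.span {g} ≤ RingHom.ker φ → ∀ P : Place ℂ (FractionRing B),
        Ge P (-C') (ι (φ a)) := by
    obtain ⟨a, ha⟩ := a
    induction ha using Algebra.adjoin_induction with
    | mem x hx =>
      obtain ⟨i, j, hj, rfl⟩ := hx
      exact ⟨C, hC0, fun φ hφ P => key φ hφ i j hj P⟩
    | algebraMap c =>
      refine ⟨0, le_rfl, fun φ hφ P => ?_⟩
      have h1 : (⟨algebraMap ℂ K c, Subalgebra.algebraMap_mem _ c⟩ : CoordRing U y) =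
          algebraMap ℂ (CoordRing U y) c := rfl
      rw [h1, AlgHom.commutes, AlgHom.commutes, neg_zero]
      exact Ge.const c
    | add x z hx hz ihx ihz =>
      obtain ⟨C1, hC1, h1⟩ := ihx
      obtain ⟨C2, hC2, h2⟩ := ihz
      refine ⟨max C1 C2, le_max_of_le_left hC1, fun φ hφ P => ?_⟩
      have h3 : (⟨x + z, Subalgebra.add_mem _ hx hz⟩ : CoordRing U y) = ⟨x, hx⟩ + ⟨z, hz⟩ := rfl
      rw [h3, map_add, map_add]
      exact ((h1 φ hφ P).mono (neg_le_neg (le_max_left _ _))).add
        ((h2 φ hφ P).mono (neg_le_neg (le_max_right _ _)))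
    | mul x z hx hz ihx ihz =>
      obtain ⟨C1, hC1, h1⟩ := ihx
      obtain ⟨C2, hC2, h2⟩ := ihz
      refine ⟨C1 + C2, by omega, fun φ hφ P => ?_⟩
      have h3 : (⟨x * z, Subalgebra.mul_mem _ hx hz⟩ : CoordRing U y) = ⟨x, hx⟩ * ⟨z, hz⟩ := rfl
      rw [h3, map_mul, map_mul]
      have h4 := (h1 φ hφ P).mul (h2 φ hφ P)
      rwa [← neg_add] at h4
  -- a Riemann-Roch space
  let D : Place ℂ (FractionRing B) →₀ ℤ := Finsupp.onFinset S
    (fun P => if P ∈ S then C' else 0) (fun P hP => by
      by_contra hcon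
      exact hP (if_neg hcon))
  have hle : Submodule.span ℂ {b : B | ∃ φ : CoordRing U y →ₐ[ℂ] B,
      ¬ Ideal.span {g} ≤ RingHom.ker φ ∧ φ a = b} ≤ (LL D).comap ι.toLinearMap := by
    rw [Submodule.span_le]
    rintro b ⟨φ, hφ, rfl⟩
    change ι (φ a) = 0 ∨ ∀ P : Place ℂ (FractionRing B), - D P ≤ P.ord (ι (φ a))
    by_cases h0 : ι (φ a) = 0
    · exact Or.inl h0
    · right
      intro P
      change -(if P ∈ S then C' else 0) ≤ _
      by_cases hP : P ∈ S
      · rw [if_pos hP]
        exact (hC' φ hφ P).resolve_left h0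
      · rw [if_neg hP, neg_zero]
        exact (hSι P hP (φ a)).resolve_left h0
  have hfd : FiniteDimensional ℂ ((LL D).comap ι.toLinearMap) := by
    let r : ((LL D).comap ι.toLinearMap) →ₗ[ℂ] LL D := ι.toLinearMap.restrict fun x hx => hx
    refine FiniteDimensional.of_injective r ?_
    intro u v huv
    apply Subtype.ext
    apply hι
    exact congrArg Subtype.val huv
  exact Submodule.finiteDimensional_of_le hle


/-- boundedness, without an exceptional set -/
theorem bounded_top {U : Set (Fin (N + 1))} (hU : U.Nonempty)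
    {y : Fin (N + 1) → K} (hyU : ∀ j ∈ U, y j ≠ 0) {B0 : ℕ}
    (hB0 : ∀ (L : Type) [Field L] [Algebra ℂ L] [IsFF ℂ L] (S : Finset (Place ℂ L))
      (f : Fin (N + 1) → L), MapX U (van (k := ℂ) y) S f →
        pht ℂ f ≤ B0 * max (canDeg ℂ L + S.card) 0) :
    Pool.Agent.Y193.BoundedModulo (CoordRing U y) ⊤ := by
  obtain ⟨j0, hj0⟩ := hU
  have h := bounded_span hj0 hyU (G := 1) (B0 := B0) fun L _ _ _ S f hf _ => hB0 L S f hf
  rwa [map_one, Ideal.span_singleton_one] at h

end Pool.Agent.R869.Wd
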