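import Pool.Agent.R869.SSix
import Pool.Agent.R869.WPtd2
import Pool.Agent.R869.WLog2

/-!
Typical affine varieties: degree bounds and pointed maps without exceptional sets.
-/

set_option autoImplicit false

open FF MvPolynomial Pool.Agent.W603.LV Pool.Agent.W603.PV
open Pool.Agent.W602.GT
open Pool.Agent.Y190.AH (MapX van)
open Pool.Agent.Y190.PH (CoordRing)

namespace Pool.Agent.R869.Wd

variable {n s : ℕ} {I : Fin s → Finset (Fin (n + 1))} {d : ℕ} {a : Fin s → (Fin (n + 1) →₀ ℕ)}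

/-- the uniform degree bound for the maps to the open parts -/
theorem TypI.bound (h : TypI I d a) : ∃ A : ℕ, ∀ (k : Type) [Field k] [IsAlgClosed k]
    [CharZero k] (m : ℕ) (F : Fin m → MvPolynomial (Fin (n + 1)) k) (U : Set (Fin (n + 1))),
    (∀ e, (F e).support ⊆ withPowers d a) → HgtBound U F A ∧
    (GenCoeffs F (withPowers d a) →
      (∀ J : Finset (Fin (n + 1)), (∀ j ∈ U, j ∈ J) → Spread I m J) →
      ∀ (L : Type) [Field L] [Algebra k L] [IsFF k L] (S : Finset (Place k L))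
        (f : Fin (n + 1) → L), MapX U F S f → pht k f ≤ A * max (canDeg k L + S.card) 0) := by
  classical
  obtain ⟨s', N, hg⟩ := h.good
  obtain ⟨A, hA⟩ := hg.unif
  refine ⟨A, fun k _ _ _ m F U hFT => ⟨hA k (Fin m) F hFT U, fun hgc hsp L _ _ _ S f hf =>
    hA k (Fin m) F hFT U L S f hf (h.no_parts hFT hgc
      (J := Finset.univ.filter fun j => f j ≠ 0) (fun j => by simp) (hsp _ fun j hj => ?_))⟩⟩
  exact Finset.mem_filter.2 ⟨Finset.mem_univ _, (hf.2.2 j hj).1⟩

/-- maps to a subvariety are maps to the variety -/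
theorem mapX_of_van {k : Type} [Field k] {n : ℕ} {ι : Type}
    {F : ι → MvPolynomial (Fin (n + 1)) k} (hF : ∀ e, IsForm (F e)) {U : Set (Fin (n + 1))}
    {K : Type} [Field K] [Algebra k K] {y : Fin (n + 1) → K} (hy : ∀ e, val y (F e) = 0)
    {L : Type} [Field L] [Algebra k L] {S : Finset (Place k L)}
    {f : Fin (n + 1) → L} (hf : MapX U (van (k := k) y) S f) : MapX U F S f :=
  ⟨hf.1, fun e => hf.2.1 ⟨F e, hF e, hy e⟩, hf.2.2⟩

/-- **Typical affine varieties.** -/
theorem TypI.affine (h : TypI I d a) {m : ℕ} {F : Fin m → MvPolynomial (Fin (n + 1)) ℂ}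
    (hFT : ∀ e, (F e).support ⊆ withPowers d a) (hF : GenCoeffs F (withPowers d a))
    {U : Set (Fin (n + 1))} (hU : U.Nonempty)
    (hsp : ∀ J : Finset (Fin (n + 1)), (∀ j ∈ U, j ∈ J) → Spread I m J) {K : Type} [Field K]
    [Algebra ℂ K] {w : ℕ} {y : Fin (n + 1) → K} (hw : 1 ≤ w) (hy : SubVarU U F K w y) :
    LogGeneralType ℂ K w (OffU U y) ∧
      Pool.Agent.Y193.FinitePointedMaps (CoordRing U y) ⊤ ∧
      Pool.Agent.Y193.BoundedModulo (CoordRing U y) ⊤ := by
  classical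
  obtain ⟨A, hA⟩ := h.bound
  obtain ⟨s', N, hg⟩ := h.good
  have hform : ∀ e, IsForm (F e) := (hg.sys hFT U).form
  have hbd : Pool.Agent.Y193.BoundedModulo (CoordRing U y) ⊤ :=
    bounded_top hU hy.unit (B0 := A) fun L _ _ _ S f hf =>
      (hA ℂ m F U hFT).2 hF hsp L S f (mapX_of_van hform hy.mem hf)
  refine ⟨h.lgt hFT hF hw hy (J := Finset.univ.filter fun j => y j ≠ 0) (fun j => by simp)
    (hsp _ fun j hj => Finset.mem_filter.2 ⟨Finset.mem_univ _, hy.unit j hj⟩), ?_, hbd⟩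
  exact Pool.Agent.Y193.finite_of_pointed (Pool.Agent.Y193.pointed_of_bounded hbd)

end Pool.Agent.R869.Wd
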