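import Pool.Agent.R869.NVoj
import Pool.Agent.R869.SPtd

/-!
Vojta's height inequality for typical varieties over function fields: the criterion.
-/

set_option autoImplicit false

open FF MvPolynomial Pool.Agent.W603.LV Pool.Agent.W603.PV Pool.Agent.W602.GT

namespace Pool.Agent.R869.Wd

theorem wc_map {F Ω : Type} [Field F] [Field Ω] [Algebra F Ω] {n : ℕ} (b : Fin (n + 1) → ℤ) (v : ℤ)
    (G : MvPolynomial (Fin (n + 1)) F) :
    wc b v (map (algebraMap F Ω) G) = map (algebraMap F Ω) (wc b v G) := by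
  classical
  unfold wc
  rw [map_sum, support_map_of_injective _ (algebraMap F Ω).injective]
  refine Finset.sum_congr rfl fun α _ => ?_
  rw [MvPolynomial.map_monomial, coeff_map]

theorem val_map {F Ω K : Type} [Field F] [Field Ω] [Algebra F Ω] [Field K] [Algebra Ω K]
    [Algebra F K] [IsScalarTower F Ω K] {n : ℕ} (y : Fin (n + 1) → K)
    (G : MvPolynomial (Fin (n + 1)) F) : val y (map (algebraMap F Ω) G) = val y G := by
  unfold val
  rw [aeval_map_algebraMap]

theorem val_ext {F L Ω : Type} [Field F] [Field L] [Field Ω] [Algebra F L] [Algebra F Ω]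
    (σ : L →ₐ[F] Ω) {n : ℕ} (f : Fin (n + 1) → L) (G : MvPolynomial (Fin (n + 1)) F) :
    val (fun j => σ (f j)) G = σ (val f G) := by
  unfold val
  rw [aeval_def, aeval_def, eval₂_eq', eval₂_eq', map_sum]
  refine Finset.sum_congr rfl fun α _ => ?_
  rw [map_mul, map_prod, σ.commutes]
  simp only [map_pow]

section

variable {k F : Type} [Field k] [Field F] [Algebra k F] [IsAlgClosed k] [CharZero k] [IsFF k F]
  {n s : ℕ} {I : Fin s → Finset (Fin (n + 1))} {d : ℕ} {a : Fin s → (Fin (n + 1) →₀ ℕ)}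
  {U : Set (Fin (n + 1))}

theorem support_ext (G : MvPolynomial (Fin (n + 1)) F) :
    (map (algebraMap F (AlgebraicClosure F)) G).support = G.support :=
  support_map_of_injective _ (algebraMap F (AlgebraicClosure F)).injective

omit [IsAlgClosed k] [IsFF k F] in
include k in
theorem charZero_ext : CharZero F :=
  charZero_of_injective_algebraMap (algebraMap k F).injective

/-- orbits defined over finite extensions -/
theorem not_vojta_of_orbit {ι : Type} {G : ι → MvPolynomial (Fin (n + 1)) F}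
    {J : Finset (Fin (n + 1))} (hJ : J.Nonempty) (hU : ∀ j ∈ U, j ∈ J)
    {x : Fin (n + 1) → AlgebraicClosure F} {b : Fin (n + 1) → ℤ}
    (hx : ∀ j, x j ≠ 0 ↔ j ∈ J) (hb : ∃ j ∈ J, ∃ j' ∈ J, b j ≠ b j')
    (hw : ∀ e v, val x (wc b v (G e)) = 0) (A : ℕ) :
    ¬ Vojta k F U A (fun L _ _ f => PtL U G L f ∧ ∀ j, f j ≠ 0 ↔ j ∈ J) := by
  rintro ⟨B, hB⟩
  let L : IntermediateField F (AlgebraicClosure F) := IntermediateField.adjoin F (Set.range x)
  have : FiniteDimensional F L := IntermediateField.finiteDimensional_adjoin fun y _ =>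
    Algebra.IsIntegral.isIntegral y
  letI : Algebra k L := ((algebraMap F L).comp (algebraMap k F)).toAlgebra
  have : IsScalarTower k F L := IsScalarTower.of_algebraMap_eq' rfl
  have hmem : ∀ j, x j ∈ L := fun j => IntermediateField.subset_adjoin F _ ⟨j, rfl⟩
  obtain ⟨z, hz⟩ := unbounded_N (k := k) (G := G) (L := L) (x := fun j => ⟨x j, hmem j⟩)
    (fun j => by rw [← hx j, Ne, Ne, ← Subtype.coe_inj]; rfl) hb (fun e v => by
      have h1 := val_ext L.val (fun j => (⟨x j, hmem j⟩ : L)) (wc b v (G e))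
      have h2 : val x (wc b v (G e)) = L.val (val (fun j => (⟨x j, hmem j⟩ : L)) (wc b v (G e))) := by
        rw [← h1]
        rfl
      rw [hw e v] at h2
      exact (map_eq_zero _).1 h2.symm)
  obtain ⟨f, hf, hf0, hfc, hlt⟩ := hz (A * (max (canDeg k L) 0 + z) + B * Module.finrank F L)
  obtain ⟨j0, hj0⟩ := hJ
  have h1 := hB L f ⟨⟨fun h => (hf j0).2 hj0 (congrFun h j0), fun j hj => (hf j).2 (hU j hj),
    hf0⟩, hf⟩
  have h2 : ((cut k U f).ncard : ℤ) ≤ z := by exact_mod_cast hfc U hU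
  have h3 : (A : ℤ) * (canDeg k L + (cut k U f).ncard) ≤ A * (max (canDeg k L) 0 + z) :=
    mul_le_mul_of_nonneg_left (by
      have := le_max_left (canDeg k L) 0
      linarith) (Nat.cast_nonneg _)
  linarith

/-- **The criterion.** -/
theorem TypI.critN (h : TypI I d a) {A : ℕ} (hA : NBound (withPowers d a) A)
    {G : MvPolynomial (Fin (n + 1)) F} (hG : G.support ⊆ withPowers d a)
    {J : Finset (Fin (n + 1))} (hJ : J.Nonempty) (hU : ∀ j ∈ U, j ∈ J) :
    [Loose G J,
      ∃ (K : Type) (_ : Field K) (_ : Algebra (AlgebraicClosure F) K) (w : ℕ)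
        (y : Fin (n + 1) → K), 1 ≤ w ∧
        SubVarU U (fun _ : Fin 1 => map (algebraMap F (AlgebraicClosure F)) G) K w y ∧
        (∀ j, y j ≠ 0 ↔ j ∈ J) ∧ ¬ LogGeneralType (AlgebraicClosure F) K w (OffU U y),
      ¬ ∃ A', Vojta k F U A' (fun L _ _ f => PtL U (fun _ : Fin 1 => G) L f ∧
        ∀ j, f j ≠ 0 ↔ j ∈ J),
      ¬ Vojta k F U A (fun L _ _ f => PtL U (fun _ : Fin 1 => G) L f ∧
        ∀ j, f j ≠ 0 ↔ j ∈ J)].TFAE := by
  classical
  haveI : CharZero F := charZero_ext (k := k)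
  have hG' : (map (algebraMap F (AlgebraicClosure F)) G).support ⊆ withPowers d a := by
    rw [support_ext]
    exact hG
  have h12 := h.critSub hG' hU
  rw [loose_congr (support_ext G) J] at h12
  tfae_have 1 ↔ 2 := h12
  tfae_have 1 → 3 := by
    rintro h1 ⟨A', hA'⟩
    obtain ⟨x, b, hx, hb, hw⟩ := (h.critK hG' J).1 ((loose_congr (support_ext G) J).2 h1)
    refine not_vojta_of_orbit (G := fun _ : Fin 1 => G) hJ hU hx hb (fun e v => ?_) A' hA'
    rw [← hw v, wc_map, val_map]
  tfae_have 3 → 4 := fun h3 h4 => h3 ⟨A, h4⟩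
  tfae_have 4 → 1 := by
    intro h4
    by_contra hL
    apply h4
    refine hA.vojta (fun _ => hG) _ fun L _ _ _ f hf => ⟨hf.1, ?_⟩
    rintro ⟨b, i, i', hi, hi', hb, hw⟩
    exact hL (h.loose_of_orbit hG hf.2 ⟨i, (hf.2 i).1 hi, i', (hf.2 i').1 hi', hb⟩
      fun v => hw 0 v)
  tfae_finish

/-- **The criterion for all points.** -/
theorem TypI.allN (h : TypI I d a) {A : ℕ} (hA : NBound (withPowers d a) A)
    {G : MvPolynomial (Fin (n + 1)) F} (hG : G.support ⊆ withPowers d a) :
    [∀ J : Finset (Fin (n + 1)), (∀ j ∈ U, j ∈ J) → ¬ Loose G J,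
      ∀ (K : Type) [Field K] [Algebra (AlgebraicClosure F) K] (w : ℕ) (y : Fin (n + 1) → K),
        1 ≤ w → SubVarU U (fun _ : Fin 1 => map (algebraMap F (AlgebraicClosure F)) G) K w y →
        LogGeneralType (AlgebraicClosure F) K w (OffU U y),
      ∃ A', Vojta k F U A' (fun L _ _ f => PtL U (fun _ : Fin 1 => G) L f),
      Vojta k F U A (fun L _ _ f => PtL U (fun _ : Fin 1 => G) L f)].TFAE := by
  classical
  haveI : CharZero F := charZero_ext (k := k)
  have hG' : (map (algebraMap F (AlgebraicClosure F)) G).support ⊆ withPowers d a := by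
    rw [support_ext]
    exact hG
  have h12 := h.loose_all hG' U
  tfae_have 1 ↔ 2 := by
    rw [← h12]
    exact forall_congr' fun J => by rw [loose_congr (support_ext G) J]
  tfae_have 1 → 4 := by
    intro h1
    refine hA.vojta (fun _ => hG) _ fun L _ _ _ f hf => ⟨hf, ?_⟩
    rintro ⟨b, i, i', hi, hi', hb, hw⟩
    exact h1 (Finset.univ.filter fun j => f j ≠ 0) (fun j hj => by simpa using hf.unit j hj)
      (h.loose_of_orbit hG (fun j => by simp) ⟨i, by simpa using hi, i', by simpa using hi', hb⟩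
        fun v => hw 0 v)
  tfae_have 4 → 3 := fun h4 => ⟨A, h4⟩
  tfae_have 3 → 1 := by
    rintro ⟨A', B, hB⟩ J hU hL
    have hJ : J.Nonempty := by
      obtain ⟨-, -, ⟨j, hj, -⟩, -⟩ := hL
      exact ⟨j, hj⟩
    have h5 : ¬ ∃ A', Vojta k F U A' (fun L _ _ f => PtL U (fun _ : Fin 1 => G) L f ∧
        ∀ j, f j ≠ 0 ↔ j ∈ J) := ((h.critN hA hG hJ hU).out 0 2).1 hL
    exact h5 ⟨A', B, fun L _ _ _ _ _ f hf => hB L f hf.1⟩
  tfae_finish

/-- **Several forms with general coefficients.** -/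
theorem TypI.genN (h : TypI I d a) {A : ℕ} (hA : NBound (withPowers d a) A) {m : ℕ}
    {G : Fin m → MvPolynomial (Fin (n + 1)) F} (hG : ∀ e, (G e).support ⊆ withPowers d a)
    (hgc : GenCoeffs G (withPowers d a)) :
    Vojta k F U A (fun L _ _ f => PtL U G L f ∧
      ∀ J : Finset (Fin (n + 1)), (∀ j, f j ≠ 0 ↔ j ∈ J) → Spread I m J) := by
  classical
  refine hA.vojta hG _ fun L _ _ _ f hf => ⟨hf.1, ?_⟩
  exact h.no_parts hG hgc (J := Finset.univ.filter fun j => f j ≠ 0) (fun j => by simp)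
    (hf.2 _ fun j => by simp)

end

end Pool.Agent.R869.Wd
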