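import Pool.Agent.R869.WSel

/-!
Selection of families of minimal relations: values depending on the relation.
-/

set_option autoImplicit false

open MvPolynomial Pool.Agent.W602.GT

namespace Pool.Agent.R869.Wd

variable {V : Type*} [AddCommGroup V]

/-- The selection, for relations between values which depend on the relation. -/
theorem selectV {k : Type} [Field k] [Module k V] {n : ℕ} {ι : Type} {s : ℕ}
    (T : ι → (Fin (n + 1) →₀ ℕ) → V) (E : ι → Finset (Fin (n + 1) →₀ ℕ))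
    (hF : ∀ e, ∃ d, ∀ α ∈ E e, ∑ j, α j = d)
    (hs : ∀ e, (E e).card ≤ s) (I : Finset (Fin (n + 1)))
    (hrel : ∀ e, ∑ α ∈ (E e).filter (fun α => ∀ j, j ∉ I → α j = 0), T e α = 0)
    (hno : ∀ b : Fin (n + 1) → ℤ, (∃ i ∈ I, ∃ j ∈ I, b i ≠ b j) → ∃ e v,
      ∑ α ∈ ((E e).filter (fun α => ∀ j, j ∉ I → α j = 0)).filter (fun α => wgt b α = v),
        T e α ≠ 0) :
    ∃ (r : ℕ) (e : Fin r → ι) (G : ∀ l, Circ k (T (e l))) (a b : ∀ l, Fin ((G l).m + 1)), r ≤ n ∧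
      (∀ l i, (G l).e i ∈ E (e l) ∧ ∀ j, j ∉ I → (G l).e i j = 0) ∧
      (∀ l, (G l).m + 1 ≤ s) ∧
      (∀ u : Fin (n + 1) → ℤ, (∃ i ∈ I, ∃ j ∈ I, u i ≠ u j) →
        0 < ∑ l, |wgt u ((G l).e (a l)) - wgt u ((G l).e (b l))|) := by
  classical
  let κ : Type _ := {x : Σ (e : ι) (G : Circ k (T e)), Fin (G.m + 1) × Fin (G.m + 1) //
    ∀ i, x.2.1.e i ∈ E x.1 ∧ ∀ j, j ∉ I → x.2.1.e i j = 0}
  let δ : κ → Fin (n + 1) → ℤ := fun x j => (x.1.2.1.e x.1.2.2.1 j : ℤ) - x.1.2.1.e x.1.2.2.2 j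
  have h0 : ∀ a, ∑ x, δ a x = 0 := by
    intro a
    obtain ⟨d, hd⟩ := hF a.1.1
    simp only [δ]
    rw [Finset.sum_sub_distrib, ← Nat.cast_sum, ← Nat.cast_sum, hd _ (a.2 _).1, hd _ (a.2 _).1,
      sub_self]
  obtain ⟨r, f, hr, hf⟩ := exists_family δ h0
  have hdw : ∀ (a : κ) (u : Fin (n + 1) → ℤ), ∑ x, δ a x * u x =
      wgt u (a.1.2.1.e a.1.2.2.1) - wgt u (a.1.2.1.e a.1.2.2.2) := by
    intro a u
    unfold wgt
    rw [← Finset.sum_sub_distrib]
    exact Finset.sum_congr rfl fun x _ => by simp only [δ, sub_mul]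
  -- the annihilator
  have hann : ∀ u : Fin (n + 1) → ℤ, (∀ l, ∑ x, δ (f l) x * u x = 0) →
      ∀ i ∈ I, ∀ j ∈ I, u i = u j := by
    intro u hu
    by_contra hcon
    push Not at hcon
    obtain ⟨i, hi, j, hj, hij⟩ := hcon
    obtain ⟨e, v, hev⟩ := hno u ⟨i, hi, j, hj, hij⟩
    obtain ⟨G, hG, a, b, hab⟩ := exists_circ (k := k) (T e) _ (fun _ => (1 : k))
      (fun α _ => one_ne_zero) (by simpa only [one_smul] using hrel e) (fun α => wgt u α) v
      (by simpa only [one_smul] using hev)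
    have h1 := hf u hu ⟨⟨e, G, a, b⟩, fun i => ⟨(Finset.mem_filter.1 (hG i)).1,
      (Finset.mem_filter.1 (hG i)).2⟩⟩
    rw [hdw] at h1
    exact hab (sub_eq_zero.1 h1)
  refine ⟨r, fun l => (f l).1.1, fun l => (f l).1.2.1, fun l => (f l).1.2.2.1,
    fun l => (f l).1.2.2.2, hr, fun l => (f l).2, ?_, ?_⟩
  · intro l
    have h1 : Fintype.card (Fin ((f l).1.2.1.m + 1)) ≤ (E (f l).1.1).card := by
      rw [← Fintype.card_coe (E (f l).1.1)]
      refine Fintype.card_le_of_injective (fun i => ⟨(f l).1.2.1.e i, ((f l).2 i).1⟩) ?_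
      intro i j hij
      exact (f l).1.2.1.inj (congrArg Subtype.val hij)
    rw [Fintype.card_fin] at h1
    exact h1.trans (hs _)
  · rintro u ⟨i, hi, j, hj, hij⟩
    rw [← not_le]
    intro hle
    apply hij
    refine hann u (fun l => ?_) i hi j hj
    rw [hdw]
    have h1 : ∑ l, |wgt u ((f l).1.2.1.e (f l).1.2.2.1) - wgt u ((f l).1.2.1.e (f l).1.2.2.2)| = 0 :=
      le_antisymm hle (Finset.sum_nonneg fun _ _ => abs_nonneg _)
    have h2 := (Finset.sum_eq_zero_iff_of_nonneg fun _ _ => abs_nonneg _).1 h1 l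
      (Finset.mem_univ l)
    exact abs_eq_zero.1 h2

end Pool.Agent.R869.Wd
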