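import Pool.Agent.W603.PV.Main
import Pool.Agent.W602.GT.SpDefs
import Pool.Agent.W602.GT.KStm

/-!
Vojta's height inequality over function fields: definitions.
-/

set_option autoImplicit false

open FF MvPolynomial Pool.Agent.W603.LV Pool.Agent.W603.PV Pool.Agent.W602.GT

namespace Pool.Agent.R869.Wd

/-- The places of `L` at which the point `f` meets the divisor `∑ (x_j = 0)`, the sum over the `j` in
`U`. -/
def cut (k : Type) [Field k] {L : Type} [Field L] [Algebra k L] {n : ℕ} (U : Set (Fin (n + 1)))
    (f : Fin (n + 1) → L) : Set (Place k L) :=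
  {P | ∃ j ∈ U, pord P f < P.ord (f j)}

/-- `f` is (a vector of homogeneous coordinates of) a point over the extension `L` of `F` of the
quasi-projective variety `X = {G = 0, x_j ≠ 0 for j in U}` over `F`. -/
structure PtL {F : Type} [Field F] {n : ℕ} {ι : Type} (U : Set (Fin (n + 1)))
    (G : ι → MvPolynomial (Fin (n + 1)) F) (L : Type) [Field L] [Algebra F L]
    (f : Fin (n + 1) → L) : Prop where
  ne : f ≠ 0
  unit : ∀ j ∈ U, f j ≠ 0
  mem : ∀ e, aeval f (G e) = 0

/-- Vojta's height inequality with the slope `A` for the points with the property `Q`: there is a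
number `B` such that for all finite extensions `L` of the function field `F` and all points `f` of
projective space over `L` with the property `Q`

`h(f) ≤ A (2 g(L) - 2 + N1(f)) + B [L : F]`,

where `h` is the height relative to `L`, and `N1(f)` is the number of the places of `L` at which `f`
meets the divisor `∑ (x_j = 0)`, the sum over the `j` in `U`. -/
def Vojta (k F : Type) [Field k] [Field F] [Algebra k F] {n : ℕ} (U : Set (Fin (n + 1)))
    (A : ℕ) (Q : ∀ (L : Type) [Field L] [Algebra F L], (Fin (n + 1) → L) → Prop) : Prop :=
  ∃ B : ℕ, ∀ (L : Type) [Field L] [Algebra k L] [Algebra F L] [IsScalarTower k F L]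
    [FiniteDimensional F L] (f : Fin (n + 1) → L), Q L f →
      pht k f ≤ A * (canDeg k L + (cut k U f).ncard) + B * Module.finrank F L

/-- Vojta's height inequality with the slope `A` outside of a proper closed subset, for the
subvariety `V`, over the algebraic closure of `F`, with the generic point `y`: for some form `H`,
nonzero at `y`, it holds for the points of `V` with `x_j ≠ 0`, `j` in `U`, and `H ≠ 0`, over the
finite extensions `L` of `F` in the algebraic closure. -/
def VojtaV (k F : Type) [Field k] [Field F] [Algebra k F] {n : ℕ} (U : Set (Fin (n + 1)))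
    (A : ℕ) {K : Type} [Field K] [Algebra (AlgebraicClosure F) K] (y : Fin (n + 1) → K) : Prop :=
  ∃ H : MvPolynomial (Fin (n + 1)) (AlgebraicClosure F), IsForm H ∧ val y H ≠ 0 ∧
    Vojta k F U A fun L _ _ f => ∃ σ : L →ₐ[F] AlgebraicClosure F,
      (fun j => σ (f j)) ∈ PtsU U (AlgebraicClosure F) y ∧ val (fun j => σ (f j)) H ≠ 0

end Pool.Agent.R869.Wd
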