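import Pool.Agent.R869.BTop
import Pool.Agent.R869.Num

/-!
Logarithmic pluricanonical forms on varieties with a relation with cofactors, with many zeros.
-/

set_option autoImplicit false

open FF MvPolynomial Pool.Agent.W603.LV Pool.Agent.W603.PV Pool.Agent.W603.GR Pool.Agent.W602.GT

namespace Pool.Agent.R869

variable {k K : Type} [Field k] [Field K] [Algebra k K] {n : ℕ}

/-- `N` times the logarithmic canonical class dominates `κ` times the hyperplane class, for the
varieties with function field `K`, of dimension `w` over `k`, with a generically finite rational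
map `y` to `P^n` and with the inverse image of `Q = 0` as boundary: there is a nonzero `N`-canonical
form `Ω` such that for all forms `H` of degree `κ` on `P^n` the `N`-canonical form `H(y) Ω` has at
most logarithmic poles at all discrete valuations of `K`, and no poles at those which are centred
off the boundary. -/
def Dominates (k : Type) [Field k] [Algebra k K] (w : ℕ) (y : Fin (n + 1) → K)
    (Q : MvPolynomial (Fin (n + 1)) k) (q N κ : ℕ) : Prop :=
  ∃ Ω : (Fin w → Derivation k K K) → K, IsPluri N Ω ∧ (∃ D, Ω D ≠ 0) ∧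
    ∀ H : MvPolynomial (Fin (n + 1)) k, H.IsHomogeneous κ → ∀ P : Place k K,
      LogAt P (fun D => val y H * Ω D) ∧ (¬ OffQ Q q y P → RegAt P (fun D => val y H * Ω D))

theorem pluri_smul {w N : ℕ} {Ω : (Fin w → Derivation k K K) → K} (h : IsPluri N Ω) (c : K) :
    IsPluri N (fun D => c * Ω D) := by
  intro A D
  change c * Ω _ = A.det ^ N * (c * Ω D)
  rw [h A D]
  ring

theorem Dominates.lgt [CharZero k] {w : ℕ} {y : Fin (n + 1) → K} {Q : MvPolynomial (Fin (n + 1)) k}
    {q N κ : ℕ} (h : Dominates k w y Q q N κ) (hN : 0 < N) (hκ : 0 < κ)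
    (htr : Algebra.trdeg k K = w) (hy : y ≠ 0) (hgen : Algebra.IsAlgebraic (coords k y) K) :
    LogGeneralType k K w (OffQ Q q y) := by
  classical
  obtain ⟨Ω, hΩ, ⟨D, hD⟩, hH⟩ := h
  obtain ⟨j1, hj1⟩ := Function.ne_iff.1 hy
  have hj1' : y j1 ≠ 0 := hj1
  obtain ⟨s, hsb, hs2⟩ := basis_in htr _ (alg_mono (coords_eq (k := k) y hj1') hgen)
  choose σ hσ using hs2
  have hσ' : ∀ i, s i = y (j1.succAbove (σ i)) / y j1 := fun i => (hσ i).symm
  let H : Fin (w + 1) → MvPolynomial (Fin (n + 1)) k :=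
    Fin.cases (X j1 ^ κ) fun i => X (j1.succAbove (σ i)) * X j1 ^ (κ - 1)
  have hHh : ∀ i, (H i).IsHomogeneous κ := by
    intro i
    refine Fin.cases ?_ (fun i => ?_) i
    · change (X j1 ^ κ : MvPolynomial (Fin (n + 1)) k).IsHomogeneous κ
      have := (isHomogeneous_X k j1).pow κ
      rwa [one_mul] at this
    · change (X (j1.succAbove (σ i)) * X j1 ^ (κ - 1) :
        MvPolynomial (Fin (n + 1)) k).IsHomogeneous κ
      have := (isHomogeneous_X k (j1.succAbove (σ i))).mul ((isHomogeneous_X k j1).pow (κ - 1))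
      have e : 1 + 1 * (κ - 1) = κ := by omega
      rwa [e] at this
  have hv0 : val y (H 0) = y j1 ^ κ := by
    change val y (X j1 ^ κ) = _
    unfold val
    rw [map_pow, aeval_X]
  have hvs : ∀ i : Fin w, val y (H i.succ) = s i * val y (H 0) := by
    intro i
    rw [hv0]
    change val y (X (j1.succAbove (σ i)) * X j1 ^ (κ - 1)) = _
    unfold val
    rw [map_mul, map_pow, aeval_X, aeval_X, hσ' i]
    obtain ⟨κ', hκ'⟩ : ∃ κ', κ = κ' + 1 := ⟨κ - 1, by omega⟩
    rw [hκ', Nat.add_sub_cancel, pow_succ]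
    field_simp
  refine ⟨htr, N, hN, fun j D => val y (H j) * Ω D, fun j => pluri_smul hΩ _,
    fun P _ j => (hH _ (hHh j) P).1, fun P _ hP j => (hH _ (hHh j) P).2 hP, D, ?_, ?_⟩
  · change val y (H 0) * Ω D ≠ 0
    rw [hv0]
    exact mul_ne_zero (pow_ne_zero _ hj1') hD
  · have : (fun i : Fin w => val y (H i.succ) * Ω D / (val y (H 0) * Ω D)) = s := by
      ext i
      rw [hvs]
      have : val y (H 0) ≠ 0 := by
        rw [hv0]
        exact pow_ne_zero _ hj1'
      field_simp
    rw [this]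
    exact hsb.1

theorem Dominates.pow {w : ℕ} {y : Fin (n + 1) → K} {Q : MvPolynomial (Fin (n + 1)) k}
    {q N κ : ℕ} (h : Dominates k w y Q q N κ) (hy : y ≠ 0) (r κ' : ℕ) (hκ : κ' ≤ r * κ) :
    Dominates k w y Q q (r * N) κ' := by
  classical
  obtain ⟨Ω, hΩ, ⟨D, hD⟩, hH⟩ := h
  obtain ⟨j1, hj1⟩ := Function.ne_iff.1 hy
  have hj1' : y j1 ≠ 0 := hj1
  have key : ∀ (P : Place k K) (x : K) (H : MvPolynomial (Fin (n + 1)) k),
      H.IsHomogeneous κ' →
      (∀ H' : MvPolynomial (Fin (n + 1)) k, H'.IsHomogeneous κ → P.Reg (val y H' * x)) →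
      P.Reg (val y H * (y j1 ^ (r * κ - κ') * x ^ r)) := by
    intro P x H hHh hx
    obtain ⟨i0, h0, hmin⟩ := exists_min P hy
    have hXh : (X i0 ^ κ : MvPolynomial (Fin (n + 1)) k).IsHomogeneous κ := by
      have := (isHomogeneous_X k i0).pow κ
      rwa [one_mul] at this
    have h1 := hx _ hXh
    by_cases hx0 : x = 0
    · by_cases hr : r = 0
      · subst hr
        have hκ0 : κ' = 0 := by omega
        subst hκ0
        obtain ⟨c, hc⟩ : ∃ c : k, H = C c := ⟨coeff 0 H, by
          rw [← totalDegree_eq_zero_iff_eq_C]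
          exact Nat.le_zero.1 (hHh.totalDegree_le)⟩
        simp only [zero_mul, Nat.sub_self, pow_zero, mul_one]
        rw [hc]
        unfold val
        rw [aeval_C]
        exact P.reg_const c
      · rw [hx0, zero_pow hr, mul_zero, mul_zero]
        exact Or.inl rfl
    · rw [reg_iff_ge] at h1 ⊢
      have h2 : val y (X i0 ^ κ : MvPolynomial (Fin (n + 1)) k) = y i0 ^ κ := by
        unfold val
        rw [map_pow, aeval_X]
      rw [h2] at h1
      have h3 : -(κ * P.ord (y i0)) ≤ P.ord x := by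
        rcases h1 with h1 | h1
        · exact absurd h1 (mul_ne_zero (pow_ne_zero _ h0) hx0)
        · rw [P.ord_mul (pow_ne_zero _ h0) hx0, P.ord_pow] at h1
          linarith
      have h4 : Ge P (κ' * P.ord (y i0)) (val y H) := by
        by_cases hH0 : val y H = 0
        · exact Or.inl hH0
        · right
          exact ord_form P h0 hmin hHh hH0
      have h5 : Ge P ((r * κ - κ' : ℕ) * P.ord (y i0)) (y j1 ^ (r * κ - κ')) := by
        right
        rw [P.ord_pow]
        exact mul_le_mul_of_nonneg_left (hmin j1 hj1') (Nat.cast_nonneg _)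
      have h6 : Ge P (r * -(κ * P.ord (y i0))) (x ^ r) := by
        right
        rw [P.ord_pow]
        exact mul_le_mul_of_nonneg_left h3 (Nat.cast_nonneg _)
      refine (h4.mul (h5.mul h6)).mono (le_of_eq ?_)
      rw [Nat.cast_sub hκ]
      push_cast
      ring
  refine ⟨fun D => y j1 ^ (r * κ - κ') * Ω D ^ r, ?_, ⟨D, ?_⟩, fun H hHh P => ⟨?_, ?_⟩⟩
  · intro A D
    change y j1 ^ (r * κ - κ') * Ω _ ^ r = _ * (y j1 ^ (r * κ - κ') * Ω D ^ r)
    rw [hΩ A D, mul_pow, ← pow_mul]
    ring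
  · exact mul_ne_zero (pow_ne_zero _ hj1') (pow_ne_zero _ hD)
  · intro D hD
    exact key P (Ω D) H hHh fun H' hH' => (hH H' hH' P).1 D hD
  · intro hP D hD
    exact key P (Ω D) H hHh fun H' hH' => (hH H' hH' P).2 hP D hD

/-- The numerical bound for the loss. -/
theorem num2 {J : Type} [Fintype J] {e δ : ℕ} {m δl : J → ℕ} (hs : 2 ≤ Fintype.card J)
    (hδ : ∀ l, δl l ≤ δ) (hm : ∀ l, Fintype.card J ^ 4 * (δ + 1) * m l ≤ e)
    (he : Fintype.card J ^ 4 * (δ + 1) ≤ e) :
    2 * ((Fintype.card J + ((Fintype.card J - 1) * (Fintype.card J - 1) + 1)) * δ +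
      LLs (Fintype.card J) * ∑ l, (m l + δl l)) ≤ e := by
  have h1 : ∑ l, Fintype.card J ^ 4 * (δ + 1) * m l ≤ ∑ _ : J, e :=
    Finset.sum_le_sum fun l _ => hm l
  rw [← Finset.mul_sum, Finset.sum_const, Finset.card_univ, smul_eq_mul] at h1
  have h2 : ∑ l, δl l ≤ Fintype.card J * δ := by
    calc ∑ l, δl l ≤ ∑ _ : J, δ := Finset.sum_le_sum fun l _ => hδ l
      _ = _ := by rw [Finset.sum_const, Finset.card_univ, smul_eq_mul]
  rw [Finset.sum_add_distrib]
  generalize ∑ l, m l = M at *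
  generalize ∑ l, δl l = D at *
  generalize Fintype.card J = s at *
  obtain ⟨t, rfl⟩ : ∃ t, s = t + 2 := ⟨s - 2, by omega⟩
  have h3 := two_LLs t
  set X := LLs (t + 2)
  have e1 : t + 2 - 1 = t + 1 := by omega
  rw [e1]
  have h4 : (t + 2) * ((t + 2) ^ 3 * (δ + 1) * M) ≤ (t + 2) * e := by
    calc _ = (t + 2) ^ 4 * (δ + 1) * M := by ring
      _ ≤ _ := h1
  have h5 : (t + 2) ^ 3 * (δ + 1) * M ≤ e := Nat.le_of_mul_le_mul_left h4 (by omega)
  have h6 : (δ + 1) * (2 * X * M) ≤ e := by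
    rw [h3]
    refine le_trans ?_ h5
    calc (δ + 1) * ((t + 1) * ((t + 1) * t) * M) =
          (t + 1) * ((t + 1) * t) * ((δ + 1) * M) := by ring
      _ ≤ (t + 2) ^ 3 * ((δ + 1) * M) := Nat.mul_le_mul_right _ (by
          have : (t + 2) ^ 3 = (t + 1) * ((t + 1) * t) + (4 * t ^ 2 + 11 * t + 8) := by ring
          omega)
      _ = _ := by ring
  have h7 : 2 * X * D ≤ 2 * X * ((t + 2) * δ) := Nat.mul_le_mul_left _ h2
  have h8 : 2 * ((t + 2 + ((t + 1) * (t + 1) + 1)) * δ) + 2 * X * ((t + 2) * δ) ≤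
      (t + 2) ^ 4 * δ := by
    rw [h3]
    have : (t + 2) ^ 4 * δ = 2 * ((t + 2 + ((t + 1) * (t + 1) + 1)) * δ) +
        (t + 1) * ((t + 1) * t) * ((t + 2) * δ) + (4 * t ^ 3 + 17 * t ^ 2 + 24 * t + 8) * δ := by
      ring
    omega
  have h9 : (δ + 1) * ((t + 2) ^ 4 * δ) ≤ e * δ := by
    calc _ = (t + 2) ^ 4 * (δ + 1) * δ := by ring
      _ ≤ _ := Nat.mul_le_mul_right _ he
  refine Nat.le_of_mul_le_mul_left (?_ : (δ + 1) * _ ≤ (δ + 1) * _) (Nat.succ_pos δ)
  calc (δ + 1) * (2 * ((t + 2 + ((t + 1) * (t + 1) + 1)) * δ + X * (M + D))) =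
        (δ + 1) * (2 * ((t + 2 + ((t + 1) * (t + 1) + 1)) * δ) + 2 * X * D) +
        (δ + 1) * (2 * X * M) := by ring
    _ ≤ (δ + 1) * ((t + 2) ^ 4 * δ) + e :=
        Nat.add_le_add (Nat.mul_le_mul_left _ ((Nat.add_le_add_left h7 _).trans h8)) h6
    _ ≤ e * δ + e := Nat.add_le_add_right h9 _
    _ = (δ + 1) * e := by ring

namespace CoRel

variable {p : Ideal (MvPolynomial (Fin (n + 1)) k)} {Q : MvPolynomial (Fin (n + 1)) k} {q : ℕ}
  {J : Type} [Fintype J] (C : CoRel p Q q J)

theorem forms [IsAlgClosed k] [CharZero k] (hp : IsHomog p) (hQ : Q.IsHomogeneous q)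
    (hs : 2 ≤ Fintype.card J) (hN0 : ∀ l, C.N l ≠ 0) (hNL : ∀ l, LLs (Fintype.card J) ≤ C.N l)
    {δm : ℕ} (hδ : ∀ l, C.δ l ≤ δm)
    (hbig : 2 * ((Fintype.card J + ((Fintype.card J - 1) * (Fintype.card J - 1) + 1)) * δm +
      LLs (Fintype.card J) * ∑ l, (C.m l + C.δ l)) ≤ C.e) (he : 0 < C.e) {w : ℕ} (hw : 0 < w)
    (htr : Algebra.trdeg k K = w) {y : Fin (n + 1) → K} (hy : GPt C y)
    (hgen : Algebra.IsAlgebraic (coords k y) K) (hfg : Algebra.EssFiniteType k K) :
    ∃ N κ : ℕ, 0 < N ∧ N ≤ LLs (Fintype.card J) ∧ C.e ≤ 2 * κ ∧ Dominates k w y Q q N κ := by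
  classical
  have hT := C.T_ne hs hy.no
  have hne : ∀ l, val y (C.a l) ≠ 0 ∧ val y (C.u l) ≠ 0 ∧ val y (C.b l) ≠ 0 := by
    intro l
    have h1 := hT l
    rw [C.T_eq] at h1
    refine ⟨left_ne_zero_of_mul (left_ne_zero_of_mul h1),
      right_ne_zero_of_mul (left_ne_zero_of_mul h1), fun h0 => right_ne_zero_of_mul h1 ?_⟩
    rw [h0, zero_pow (hN0 l)]
  have hJδ : ∑ l ∈ C.J1, C.δ l ≤ Fintype.card J * δm := by
    calc ∑ l ∈ C.J1, C.δ l ≤ ∑ l, C.δ l :=
          Finset.sum_le_sum_of_subset (Finset.subset_univ _)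
      _ ≤ ∑ _ : J, δm := Finset.sum_le_sum fun l _ => hδ l
      _ = _ := by rw [Finset.sum_const, Finset.card_univ, smul_eq_mul]
  obtain ⟨j0⟩ : Nonempty J := Fintype.card_pos_iff.1 (by omega)
  obtain ⟨t⟩ := exists_tree (k := k) (C.T y) (C.T_sum hy.mem) (C.T_no hy.no) j0
  have hloss2 : 2 * C.loss t ≤ C.e := by
    refine le_trans (Nat.mul_le_mul_left 2 ?_) hbig
    unfold loss
    refine Nat.add_le_add_right ?_ _
    rw [add_mul]
    refine Nat.add_le_add hJδ ?_
    calc ∑ l, t.cJ l * C.δ l ≤ ∑ l, t.cJ l * δm :=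
          Finset.sum_le_sum fun l _ => Nat.mul_le_mul_left _ (hδ l)
      _ = (∑ l, t.cJ l) * δm := by rw [Finset.sum_mul]
      _ ≤ _ := Nat.mul_le_mul_right _ t.cJ_total
  have hloss : C.loss t < C.e := by omega
  have hJ1 : ∑ l ∈ C.J1, C.δ l < C.e := lt_of_le_of_lt (by unfold loss; omega) hloss
  obtain ⟨tb, htb, htb2⟩ := basis_in htr (C.rts y) (C.rts_alg hp hs hN0 hJ1 hy hgen hfg)
  choose ia ib hab using htb2
  -- the derivation
  obtain ⟨lam, hlam⟩ := exists_lam k w
  obtain ⟨D0, hD0⟩ := exists_der tb htb (fun j => algebraMap k K (lam j) * tb j)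
  have ht0 : ∀ j, tb j ≠ 0 := fun j => by
    rw [hab]
    exact div_ne_zero (hT _) (hT _)
  have hconst : ∀ h, D0 h = 0 → ∃ c : k, h = algebraMap k K c := fun h hh =>
    const_of_der tb htb lam hlam D0 hD0 hh
  have hpt : (∏ j, tb j) ≠ 0 := Finset.prod_ne_zero_iff.2 fun j _ => ht0 j
  have hFK : FK t D0 ≠ 0 := FK_ne t hconst
  set N := wtT t with hN
  have hpos : 0 < N := by
    rw [Nat.pos_iff_ne_zero]
    intro h0
    have h1 := const_of_wt hT t h0
    obtain ⟨ca, hca⟩ := h1 _ (ia ⟨0, hw⟩) le_rfl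
    obtain ⟨cb, hcb⟩ := h1 _ (ib ⟨0, hw⟩) le_rfl
    have h4 := htb.1.transcendental ⟨0, hw⟩
    apply h4
    have h5 : tb ⟨0, hw⟩ = algebraMap k K (ca / cb) := by
      rw [hab, hca, hcb, map_div₀, mul_div_mul_right _ _ (hT j0)]
    rw [h5]
    exact isAlgebraic_algebraMap _
  have hNL' : N ≤ LLs (Fintype.card J) := t.tri_total
  have hPhi : C.Phi t ≠ 0 := by
    unfold Phi
    refine div_ne_zero (mul_ne_zero ?_ ?_) (mul_ne_zero ?_ ?_)
    · exact Finset.prod_ne_zero_iff.2 fun l _ => (hne l).1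
    · exact Finset.prod_ne_zero_iff.2 fun l _ => pow_ne_zero _ (hne l).1
    · exact Finset.prod_ne_zero_iff.2 fun l _ => pow_ne_zero _ (hne l).2.2
    · exact Finset.prod_ne_zero_iff.2 fun l _ => pow_ne_zero _ (hne l).2.1
  set κ := C.e - C.loss t with hκ
  have hκ0 : 0 < κ := by omega
  have hHge : ∀ (P : Place k K) (i0 : Fin (n + 1)), y i0 ≠ 0 →
      (∀ i, y i ≠ 0 → P.ord (y i0) ≤ P.ord (y i)) →
      ∀ H : MvPolynomial (Fin (n + 1)) k, H.IsHomogeneous κ →
        Ge P (κ * P.ord (y i0)) (val y H) := by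
    intro P i0 h0 hmin H hH
    by_cases hH0 : val y H = 0
    · exact Or.inl hH0
    · exact Or.inr (ord_form P h0 hmin hH hH0)
  let g : K := C.Phi t * FK t D0 / (∏ j, tb j) ^ N
  have hg0 : g ≠ 0 := div_ne_zero (mul_ne_zero hPhi hFK) (pow_ne_zero _ hpt)
  have hkey : ∀ (D : Fin w → Derivation k K K) (H : MvPolynomial (Fin (n + 1)) k),
      val y H * form tb N g D = val y H * C.Phi t * FK t (con tb lam D) := by
    intro D H
    have h1 : con tb lam D = (lmat tb D).det • D0 := by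
      apply der_ext tb htb
      intro l
      rw [con_t tb lam D ht0 l, Derivation.coe_smul, Pi.smul_apply, hD0, smul_eq_mul]
      ring
    have h2 : (Matrix.of fun i j => D i (tb j)).det = (∏ j, tb j) * (lmat tb D).det := by
      rw [← Matrix.det_mul_row]
      congr 1
      ext i j
      simp only [Matrix.of_apply, lmat]
      have := ht0 j
      field_simp
    unfold form
    rw [h1, FK_smul, h2, mul_pow, ← hN]
    simp only [g]
    field_simp
  refine ⟨N, κ, hpos, hNL', by omega, form tb N g, form_pluri tb N g, ?_, ?_⟩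
  · obtain ⟨D, hD⟩ := exists_dual htb
    refine ⟨D, ?_⟩
    unfold form
    rw [hD, Matrix.det_one, one_pow, mul_one]
    exact hg0
  · intro H hH P
    refine ⟨?_, fun hP => ?_⟩
    · -- logarithmic poles
      intro D hD
      obtain ⟨i0, h0, hmin⟩ := exists_min P hy.ne
      change P.Reg (val y H * form tb N g D)
      rw [hkey, reg_iff_ge]
      have hE : ∀ x : K, x ≠ 0 → Ge P (-0) (con tb lam D x / x) := fun x hx => by
        rw [neg_zero]
        exact con_log tb lam D hD x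
      have h1 := C.est t hp hs hy hN0 hNL hloss.le h0 hmin (E := con tb lam D) (ε := 0)
        (fun l i => WK_log hE (t.C l) i) (hHge P i0 h0 hmin H hH)
      refine h1.mono ?_
      rw [zero_mul, sub_zero]
      refine mul_nonneg (Nat.cast_nonneg _) (add_nonneg (Finset.sum_nonneg fun l _ => ?_)
        (Finset.sum_nonneg fun l _ => ?_))
      · linarith [ord_form P h0 hmin (C.homa l) (hne l).1]
      · linarith [ord_form P h0 hmin (C.homb l) (hne l).2.2]
    · -- regularity
      intro D hD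
      obtain ⟨i0, h0, hmin⟩ := exists_min P hy.ne
      change P.Reg (val y H * form tb N g D)
      rw [hkey, reg_iff_ge]
      have ha : ∀ l, 0 ≤ P.ord (val y (C.a l)) - C.δ l * P.ord (y i0) := fun l => by
        linarith [ord_form P h0 hmin (C.homa l) (hne l).1]
      have hb : ∀ l, 0 ≤ P.ord (val y (C.b l)) - C.m l * P.ord (y i0) := fun l => by
        linarith [ord_form P h0 hmin (C.homb l) (hne l).2.2]
      have hu : ∀ l, P.ord (val y (C.u l)) = C.d l * P.ord (y i0) := fun l =>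
        C.unit_ord hy.mem hQ hy.off P hP h0 hmin l
      have hA : 0 ≤ ∑ l, (P.ord (val y (C.a l)) - C.δ l * P.ord (y i0)) :=
        Finset.sum_nonneg fun l _ => ha l
      have hB : 0 ≤ ∑ l, (P.ord (val y (C.b l)) - C.m l * P.ord (y i0)) :=
        Finset.sum_nonneg fun l _ => hb l
      by_cases hall : ∑ l, (P.ord (val y (C.a l)) - C.δ l * P.ord (y i0)) +
          ∑ l, (P.ord (val y (C.b l)) - C.m l * P.ord (y i0)) = 0
      · have hA0 : ∑ l, (P.ord (val y (C.a l)) - C.δ l * P.ord (y i0)) = 0 := by linarith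
        have hB0 : ∑ l, (P.ord (val y (C.b l)) - C.m l * P.ord (y i0)) = 0 := by linarith
        have hA1 := (Finset.sum_eq_zero_iff_of_nonneg fun l _ => ha l).1 hA0
        have hB1 := (Finset.sum_eq_zero_iff_of_nonneg fun l _ => hb l).1 hB0
        have hTo : ∀ l, P.ord (C.T y l) = C.e * P.ord (y i0) := by
          intro l
          have h1 := hA1 l (Finset.mem_univ l)
          have h2 := hB1 l (Finset.mem_univ l)
          rw [C.T_eq, P.ord_mul (mul_ne_zero (hne l).1 (hne l).2.1) (pow_ne_zero _ (hne l).2.2),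
            P.ord_mul (hne l).1 (hne l).2.1, P.ord_pow, hu l]
          have h3 : P.ord (val y (C.a l)) = C.δ l * P.ord (y i0) := by linarith
          have h4 : P.ord (val y (C.b l)) = C.m l * P.ord (y i0) := by linarith
          rw [h3, h4, ← C.deg l]
          push_cast
          ring
        have ht0' : ∀ j, P.ord (tb j) = 0 := by
          intro j
          rw [hab, P.ord_div (hT _) (hT _), hTo, hTo, sub_self]
        have hE := con_reg tb lam D hD ht0 ht0'
        have h1 := C.est t hp hs hy hN0 hNL hloss.le h0 hmin (E := con tb lam D) (ε := 0)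
          (fun l i => by
            rw [zero_mul, sub_zero]
            exact WK_reg hE (hT j0) (fun j => by rw [hTo, hTo]) (t.C l) i) (hHge P i0 h0 hmin H hH)
        refine h1.mono ?_
        rw [zero_mul, sub_zero, hall, mul_zero]
      · have hE : ∀ x : K, x ≠ 0 → Ge P (-1) (con tb lam D x / x) := fun x hx =>
          con_pole tb lam D hD ht0 hx
        have h1 := C.est t hp hs hy hN0 hNL hloss.le h0 hmin (E := con tb lam D) (ε := 1)
          (fun l i => WK_log hE (t.C l) i) (hHge P i0 h0 hmin H hH)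
        refine h1.mono ?_
        rw [one_mul]
        have h2 : 1 ≤ ∑ l, (P.ord (val y (C.a l)) - C.δ l * P.ord (y i0)) +
          ∑ l, (P.ord (val y (C.b l)) - C.m l * P.ord (y i0)) := by omega
        have h3 : (N : ℤ) ≤ LLs (Fintype.card J) := by exact_mod_cast hNL'
        nlinarith

/-- The version with a number of the forms which depends only on the number of terms. -/
theorem Large.dominates [IsAlgClosed k] [CharZero k] {C : CoRel p Q q J} {δ : ℕ}
    (hC : C.Large δ) (hp : IsHomog p) (hQ : Q.IsHomogeneous q) {w : ℕ} (hw : 0 < w)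
    (htr : Algebra.trdeg k K = w) {y : Fin (n + 1) → K} (hy : GPt C y)
    (hgen : Algebra.IsAlgebraic (coords k y) K) (hfg : Algebra.EssFiniteType k K) :
    ∃ N κ : ℕ, 0 < N ∧ N ≤ LLs (Fintype.card J) ∧ C.e ≤ 2 * κ ∧ Dominates k w y Q q N κ := by
  have hJ := C.J1_ne hy.ne hy.mem
  have h1 : ∀ l, Fintype.card J ^ 4 * (δ + 1) * C.m l ≤ C.e := by
    intro l
    have h2 := C.deg l
    have h3 := Nat.mul_le_mul_right (C.m l) (hC.2 l).2
    omega
  have h2 : Fintype.card J ^ 4 * (δ + 1) ≤ C.e := by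
    obtain ⟨l, hl⟩ := hJ
    exact le_trans (Nat.le_mul_of_pos_right _ (C.pos l hl)) (h1 l)
  have h3 : 0 < Fintype.card J ^ 4 * (δ + 1) := by
    have := hC.1
    positivity
  exact C.forms hp hQ hC.1 (fun l => (Nat.pos_iff_ne_zero.1 (hC.pos l))) hC.LLs_le
      (fun l => (hC.2 l).1) (num2 hC.1 (fun l => (hC.2 l).1) h1 h2) (by omega) hw htr hy hgen hfg

end CoRel

end Pool.Agent.R869
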