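import Mathlib.Algebra.BigOperators.Group.Finset.Basic
import Mathlib.Data.Finsupp.Basic
import Mathlib.Data.Set.Card
import Mathlib.Topology.Algebra.Order.Field
import Mathlib.Topology.Instances.Real.Lemmas

/-!
Almost all tuples of exponent vectors with given sets of variables: definitions.
-/

set_option autoImplicit false

namespace Pool.Agent.R869.Wd

/-- The tuples of `s` exponent vectors of degree `d`, the `i`-th one of a monomial in the variables
`x_j`, `j ∈ I i`. -/
def TuplesIn {n s : ℕ} (I : Fin s → Finset (Fin (n + 1))) (d : ℕ) :
    Set (Fin s → (Fin (n + 1) →₀ ℕ)) :=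
  {a | ∀ i, (a i).support ⊆ I i ∧ ∑ j, a i j = d}

/-- Almost all tuples of monomials of large degree, the `i`-th one in the variables `x_j`, `j ∈ I i`,
have the property `P`: the proportion of those among the tuples of such monomials of degree `d`
tends to `1` for `d → ∞`. -/
def AlmostAllIn {n s : ℕ} (I : Fin s → Finset (Fin (n + 1)))
    (P : ℕ → (Fin s → (Fin (n + 1) →₀ ℕ)) → Prop) : Prop :=
  Filter.Tendsto (fun d : ℕ => (({a | a ∈ TuplesIn I d ∧ P d a}.ncard : ℝ) /
    ((TuplesIn I d).ncard : ℝ))) Filter.atTop (nhds 1)

open Classical in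
/-- The set of the `i` such that `I i` is contained in `J` and `c` is not constant on `I i`. -/
noncomputable def crs {n s : ℕ} (I : Fin s → Finset (Fin (n + 1))) {A : Type}
    (J : Finset (Fin (n + 1))) (c : Fin (n + 1) → A) : Finset (Fin s) :=
  Finset.univ.filter fun i => I i ⊆ J ∧ ¬ ∀ j ∈ I i, ∀ j' ∈ I i, c j = c j'

open Classical in
/-- The set of the `i` such that `I i` is contained in `J` and `c` is constant on `I i`, with the
value `v`. -/
noncomputable def cns {n s : ℕ} (I : Fin s → Finset (Fin (n + 1))) {A : Type}
    (J : Finset (Fin (n + 1))) (c : Fin (n + 1) → A) (v : A) : Finset (Fin s) :=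
  Finset.univ.filter fun i => I i ⊆ J ∧ ∀ j ∈ I i, c j = v

open Classical in
/-- The sets of variables `I i` are well spread on the set `J` of variables, with respect to `m`
equations: for all colourings `c` of the variables which are not constant on `J`, let `N` be the
number of the `I i` contained in `J` with different colours, let `a v` and `b v` be the numbers of
the elements of `J` and of the sets `I i` contained in `J` with the colour `v`; then
`∑ min (m + 1) (a v + b v) ≤ m (N + 2) + 1`, the sum over all colours on `J`. -/
def Spread {n s : ℕ} (I : Fin s → Finset (Fin (n + 1))) (m : ℕ) (J : Finset (Fin (n + 1))) :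
    Prop :=
  ∀ c : Fin (n + 1) → ℤ, (∃ j ∈ J, ∃ j' ∈ J, c j ≠ c j') →
    ∑ v ∈ J.image c, min (m + 1) ((J.filter fun j => c j = v).card + (cns I J c v).card) ≤
      m * ((crs I J c).card + 2) + 1

end Pool.Agent.R869.Wd
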