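import Pool.Agent.R869.WDens2
import Pool.Agent.R869.SDefs
import Mathlib.LinearAlgebra.Matrix.SchurComplement
import Mathlib.LinearAlgebra.Dual.Lemmas
import Mathlib.LinearAlgebra.Matrix.Basis
import Mathlib.RingTheory.Localization.Integer

/-!
Typical sets of exponent vectors with given sets of variables are wide.
-/

set_option autoImplicit false

namespace Pool.Agent.R869.Wd

open Finset

section det

theorem det_aff {m : ℕ} (A : Matrix (Fin m) (Fin m) ℝ) (ε w : Fin m → ℝ) :
    ∃ a b : ℝ, ∀ t : ℝ, (A + t • Matrix.vecMulVec ε w).det = a + t * b := by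
  let E : Matrix (Fin m) Unit ℝ := Matrix.of fun l _ => - ε l
  let B : Matrix (Fin m ⊕ Unit) (Fin m ⊕ Unit) ℝ := Matrix.fromBlocks A E 0 1
  let r0 : Fin m ⊕ Unit → ℝ := Sum.elim (fun _ => 0) fun _ => 1
  let r1 : Fin m ⊕ Unit → ℝ := Sum.elim w fun _ => 0
  refine ⟨(B.updateRow (Sum.inr ()) r0).det,
    (B.updateRow (Sum.inr ()) r1).det, fun t => ?_⟩
  let C : Matrix Unit (Fin m) ℝ := Matrix.of fun _ j => t * w j
  have h1 : Matrix.fromBlocks A E C 1 =
      B.updateRow (Sum.inr ()) (r0 + t • r1) := by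
    ext i j
    rcases i with i | i
    · rw [Matrix.updateRow_ne (by simp)]
      rcases j with j | j <;> rfl
    · have hi : i = () := rfl
      subst hi
      rw [Matrix.updateRow_self]
      rcases j with j | j
      · simp [C, r0, r1]
      · simp [r0, r1]
  have h2 := Matrix.det_fromBlocks_one₂₂ A E C
  rw [h1, Matrix.det_updateRow_add, Matrix.det_updateRow_smul] at h2
  rw [h2]
  refine congrArg Matrix.det ?_
  ext i j
  rw [Matrix.sub_apply, Matrix.mul_apply, Matrix.add_apply, Matrix.smul_apply,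
    Matrix.vecMulVec_apply, Fintype.sum_unique]
  change A i j + t * (ε i * w j) = A i j - (-ε i) * (t * w j)
  ring

variable {n s : ℕ}

/-- the vector of a term, without the last coordinate -/
def vz (z : Fin s → Fin (n + 1) → ℝ) (p : Fin s ⊕ Fin (n + 1)) (j : Fin n) : ℝ :=
  Sum.elim (fun i => z i j.castSucc) (fun l => if l = j.castSucc then 1 else 0) p

/-- the matrix of the differences -/
def dz (p q : Fin n → Fin s ⊕ Fin (n + 1)) (z : Fin s → Fin (n + 1) → ℝ) :
    Matrix (Fin n) (Fin n) ℝ :=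
  Matrix.of fun l j => vz z (p l) j - vz z (q l) j

/-- the points of the affine spans of the simplices -/
def Adm (I : Fin s → Finset (Fin (n + 1))) (z : Fin s → Fin (n + 1) → ℝ) : Prop :=
  ∀ i, (∀ j, j ∉ I i → z i j = 0) ∧ ∑ j, z i j = 1

/-- the scaled exponent vectors -/
noncomputable def sclI (d : ℕ) (a : Fin s → (Fin (n + 1) →₀ ℕ)) : Fin s → Fin (n + 1) → ℝ :=
  fun i j => (a i j : ℝ) / d

/-- the free coordinates -/
abbrev Free (I : Fin s → Finset (Fin (n + 1))) (piv : Fin s → Fin (n + 1)) : Type :=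
  {ij : Fin s × Fin (n + 1) // ij.2 ∈ I ij.1 ∧ ij.2 ≠ piv ij.1}

open Classical in
/-- extension by zero -/
noncomputable def ex0 (I : Fin s → Finset (Fin (n + 1))) (piv : Fin s → Fin (n + 1))
    (x : Free I piv → ℝ) (ij : Fin s × Fin (n + 1)) : ℝ :=
  if h : ij.2 ∈ I ij.1 ∧ ij.2 ≠ piv ij.1 then x ⟨ij, h⟩ else 0

/-- the points of the affine spans of the simplices in terms of the free coordinates -/
noncomputable def prm (I : Fin s → Finset (Fin (n + 1))) (piv : Fin s → Fin (n + 1))
    (x : Free I piv → ℝ) (i : Fin s) (j : Fin (n + 1)) : ℝ :=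
  ex0 I piv x (i, j) + (if j = piv i then 1 - ∑ j', ex0 I piv x (i, j') else 0)

variable {I : Fin s → Finset (Fin (n + 1))} {piv : Fin s → Fin (n + 1)}

open Classical in
theorem ex0_update (x : Free I piv → ℝ) (c : Free I piv) (t : ℝ) (ij : Fin s × Fin (n + 1)) :
    ex0 I piv (Function.update x c t) ij = ex0 I piv (Function.update x c 0) ij +
      t * (if ij = c.1 then 1 else 0) := by
  unfold ex0
  by_cases h : ij.2 ∈ I ij.1 ∧ ij.2 ≠ piv ij.1
  · rw [dif_pos h, dif_pos h]
    by_cases hc : ij = c.1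
    · have hc' : (⟨ij, h⟩ : Free I piv) = c := Subtype.ext hc
      rw [hc', Function.update_self, Function.update_self, if_pos hc]
      ring
    · have hc' : (⟨ij, h⟩ : Free I piv) ≠ c := fun h' => hc (congrArg Subtype.val h')
      rw [Function.update_of_ne hc', Function.update_of_ne hc', if_neg hc]
      ring
  · rw [dif_neg h, dif_neg h, if_neg, mul_zero, add_zero]
    rintro rfl
    exact h c.2

open Classical in
theorem prm_update (x : Free I piv → ℝ) (c : Free I piv) (t : ℝ) (i : Fin s)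
    (j : Fin (n + 1)) :
    prm I piv (Function.update x c t) i j = prm I piv (Function.update x c 0) i j +
      t * ((if i = c.1.1 then 1 else 0) * ((if j = c.1.2 then 1 else 0) -
        (if j = piv c.1.1 then 1 else 0))) := by
  unfold prm
  rw [ex0_update x c t (i, j), sum_congr rfl fun j' _ => ex0_update x c t (i, j'),
    sum_add_distrib, ← mul_sum]
  have h1 : ∀ j' : Fin (n + 1), (if ((i, j') : Fin s × Fin (n + 1)) = c.1 then (1 : ℝ) else 0) =
      (if i = c.1.1 then 1 else 0) * (if j' = c.1.2 then 1 else 0) := by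
    intro j'
    by_cases h1 : i = c.1.1
    · by_cases h2 : j' = c.1.2
      · rw [if_pos (Prod.ext h1 h2), if_pos h1, if_pos h2, one_mul]
      · rw [if_neg (fun h => h2 (congrArg Prod.snd h)), if_neg h2, mul_zero]
    · rw [if_neg (fun h => h1 (congrArg Prod.fst h)), if_neg h1, zero_mul]
  have h2 : ∑ j' : Fin (n + 1), (if ((i, j') : Fin s × Fin (n + 1)) = c.1 then (1 : ℝ) else 0) =
      (if i = c.1.1 then 1 else 0) := by
    rw [sum_congr rfl fun j' _ => h1 j', ← mul_sum]
    simp
  rw [h2, h1]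
  by_cases h3 : i = c.1.1
  · subst h3
    by_cases h4 : j = piv c.1.1
    · rw [if_pos h4, if_pos h4, if_pos h4, if_pos rfl]
      ring
    · rw [if_neg h4, if_neg h4, if_neg h4, if_pos rfl]
      ring
  · rw [if_neg h3]
    by_cases h4 : j = piv i
    · rw [if_pos h4, if_pos h4]
      ring
    · rw [if_neg h4, if_neg h4]
      ring

theorem prm_adm (hpiv : ∀ i, piv i ∈ I i) (x : Free I piv → ℝ) : Adm I (prm I piv x) := by
  classical
  refine fun i => ⟨fun j hj => ?_, ?_⟩
  · unfold prm ex0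
    rw [dif_neg (fun h => hj h.1), if_neg (fun h => hj (by rw [h]; exact hpiv i)), add_zero]
  · unfold prm
    rw [sum_add_distrib, sum_ite_eq' univ (piv i), if_pos (mem_univ _)]
    ring

theorem adm_prm {z : Fin s → Fin (n + 1) → ℝ} (hz : Adm I z) :
    prm I piv (fun c => z c.1.1 c.1.2) = z := by
  classical
  funext i j
  have h1 : ∀ j', ex0 I piv (fun c => z c.1.1 c.1.2) (i, j') =
      if j' = piv i then 0 else z i j' := by
    intro j'
    unfold ex0
    by_cases h : j' = piv i
    · rw [if_pos h, dif_neg (fun h' => h'.2 h)]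
    · rw [if_neg h]
      by_cases h2 : j' ∈ I i
      · rw [dif_pos ⟨h2, h⟩]
      · rw [dif_neg (fun h' => h2 h'.1), (hz i).1 j' h2]
  unfold prm
  rw [h1, sum_congr rfl fun j' _ => h1 j']
  have h2 : ∑ j', (if j' = piv i then 0 else z i j') = 1 - z i (piv i) := by
    have h3 := (hz i).2
    rw [← add_sum_erase univ _ (mem_univ (piv i))] at h3
    rw [← add_sum_erase univ _ (mem_univ (piv i)), if_pos rfl, zero_add,
      sum_congr rfl fun j' hj' => if_neg (ne_of_mem_erase hj')]
    linarith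
  rw [h2]
  by_cases h : j = piv i
  · rw [if_pos h, if_pos h, h]
    ring
  · rw [if_neg h, if_neg h, add_zero]

theorem sepAff_dz (p q : Fin n → Fin s ⊕ Fin (n + 1)) :
    SepAff fun x : Free I piv → ℝ => (dz p q (prm I piv x)).det := by
  classical
  intro x c
  let δ : Fin s ⊕ Fin (n + 1) → ℝ := Sum.elim (fun i => if i = c.1.1 then 1 else 0) fun _ => 0
  let w : Fin n → ℝ := fun j => (if j.castSucc = c.1.2 then 1 else 0) -
    (if j.castSucc = piv c.1.1 then 1 else 0)
  have h1 : ∀ (t : ℝ) (p : Fin s ⊕ Fin (n + 1)) (j : Fin n),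
      vz (prm I piv (Function.update x c t)) p j = vz (prm I piv (Function.update x c 0)) p j +
        t * (δ p * w j) := by
    rintro t (i | l) j
    · exact prm_update x c t i j.castSucc
    · simp [vz, δ]
  obtain ⟨a, b, h⟩ := det_aff (dz p q (prm I piv (Function.update x c 0)))
    (fun l => δ (p l) - δ (q l)) w
  refine ⟨a, b, fun t => ?_⟩
  rw [← h t]
  refine congrArg Matrix.det ?_
  ext l j
  rw [Matrix.add_apply, Matrix.smul_apply, Matrix.vecMulVec_apply]
  simp only [dz, Matrix.of_apply]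
  rw [h1 t (p l) j, h1 t (q l) j, smul_eq_mul]
  ring

end det

theorem expo_vz {n s d : ℕ} (hd : 0 < d) (a : Fin s → (Fin (n + 1) →₀ ℕ))
    (p : Fin s ⊕ Fin (n + 1)) (j : Fin n) :
    (expo d a p j.castSucc : ℝ) = d * vz (sclI d a) p j := by
  have hd' : (d : ℝ) ≠ 0 := by exact_mod_cast hd.ne'
  rcases p with i | l
  · simp only [expo, Sum.elim_inl, vz, sclI]
    field_simp
  · simp only [expo, Sum.elim_inr, vz]
    by_cases h : l = j.castSucc
    · subst h
      simp
    · rw [Finsupp.single_eq_of_ne' h, if_neg h]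
      simp

theorem wgt_expo' {n s d : ℕ} {a : Fin s → (Fin (n + 1) →₀ ℕ)} (ha : ∀ i, ∑ j, a i j = d)
    (u : Fin (n + 1) → ℤ) (p : Fin s ⊕ Fin (n + 1)) :
    wgt u (expo d a p) = ∑ j : Fin n, (expo d a p j.castSucc : ℤ) *
          (u j.castSucc - u (Fin.last n)) + d * u (Fin.last n) := by
  have hsum : ∑ j, expo d a p j = d := by
    rcases p with i | l
    · exact ha i
    · simp [expo, Finsupp.single_apply]
  have h2 := hsum
  rw [Fin.sum_univ_castSucc] at h2
  unfold wgt
  rw [Fin.sum_univ_castSucc]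
  have h3 : ((∑ j : Fin n, expo d a p j.castSucc + expo d a p (Fin.last n) : ℕ) : ℤ) = d := by
    exact_mod_cast h2
  push_cast at h3
  rw [← h3]
  simp only [mul_sub, sum_sub_distrib, ← sum_mul]
  ring

/-- the widths of `n` segments -/
theorem width_of_det {n s d N : ℕ} {η : ℝ} (hd : 0 < d)
    (hη : n.factorial * (N : ℝ) ≤ η * d)
    {a : Fin s → (Fin (n + 1) →₀ ℕ)} (ha : ∀ i, ∑ j, a i j = d)
    {P' Q' : Fin n → Fin s ⊕ Fin (n + 1)}
    (hbig : η < |(dz P' Q' (sclI d a)).det|) (u : Fin (n + 1) → ℤ)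
    (hu : ∃ i j, u i ≠ u j) :
    (N : ℤ) ≤ ∑ l, |wgt u (expo d a (P' l)) - wgt u (expo d a (Q' l))| := by
  classical
  have hd' : (0 : ℝ) < d := by exact_mod_cast hd
  have hη0 : 0 ≤ η := by
    by_contra hcon
    push Not at hcon
    have h1 : (0 : ℝ) ≤ n.factorial * (N : ℝ) := by positivity
    have h2 : η * d < 0 := mul_neg_of_neg_of_pos hcon hd'
    linarith
  let Δ : Matrix (Fin n) (Fin n) ℤ := Matrix.of fun l j =>
    (expo d a (P' l) j.castSucc : ℤ) - expo d a (Q' l) j.castSucc
  have hw : ∀ (l : Fin n), wgt u (expo d a (P' l)) -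
      wgt u (expo d a (Q' l)) = (Δ.mulVec fun j => u j.castSucc - u (Fin.last n)) l := by
    intro l
    rw [wgt_expo' ha, wgt_expo' ha]
    simp only [Matrix.mulVec, dotProduct, Δ, Matrix.of_apply, sub_mul, sum_sub_distrib]
    ring
  -- the real matrix
  have hΔr : ∀ l j, (Δ l j : ℝ) = d * dz P' Q' (sclI d a) l j := by
    intro l j
    simp only [Δ, dz, Matrix.of_apply]
    push_cast
    rw [expo_vz hd, expo_vz hd]
    ring
  set Mr := dz P' Q' (sclI d a) with hMr
  have hMr0 : Mr.det ≠ 0 := fun h0 => by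
    rw [h0, abs_zero] at hbig
    exact absurd hbig (not_lt.2 hη0)
  -- Cramer's rule
  let u' : Fin n → ℤ := fun j => u j.castSucc - u (Fin.last n)
  obtain ⟨j0, hj0⟩ : ∃ j0, u' j0 ≠ 0 := by
    by_contra hcon
    push Not at hcon
    obtain ⟨i, j, hij⟩ := hu
    have h1 : ∀ i, u i = u (Fin.last n) := by
      intro i
      refine Fin.lastCases rfl (fun i => ?_) i
      have := hcon i
      simp only [u'] at this
      omega
    exact hij ((h1 i).trans (h1 j).symm)
  obtain ⟨C, hC⟩ : ∃ C : ℤ, C = ∑ l, |wgt u (expo d a (P' l)) - wgt u (expo d a (Q' l))| :=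
    ⟨_, rfl⟩
  have hC0 : 0 ≤ C := hC ▸ sum_nonneg fun _ _ => abs_nonneg _
  rw [← hC]
  have hcl : ∀ l : Fin n, |(Δ.mulVec u') l| ≤ C := by
    intro l
    rw [← hw, hC]
    exact single_le_sum (f := fun l => |wgt u (expo d a (P' l)) - wgt u (expo d a (Q' l))|)
        (fun _ _ => abs_nonneg _) (mem_univ _)
  let c : Fin n → ℝ := Mr.mulVec fun j => (u' j : ℝ)
  have hc : ∀ l, |c l| ≤ C / d := by
    intro l
    have h1 : c l = ((Δ.mulVec u') l : ℝ) / d := by
      simp only [c, Matrix.mulVec, dotProduct]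
      push_cast
      rw [sum_div]
      refine sum_congr rfl fun j _ => ?_
      rw [hΔr]
      field_simp
    rw [h1, abs_div, abs_of_pos hd']
    refine div_le_div_of_nonneg_right ?_ hd'.le
    exact_mod_cast hcl l
  have hcr : Mr.det * (u' j0 : ℝ) = (Mr.updateCol j0 c).det := by
    rw [← Matrix.cramer_apply, Matrix.cramer_eq_adjugate_mulVec, Matrix.mulVec_mulVec,
      Matrix.adjugate_mul, Matrix.smul_mulVec, Matrix.one_mulVec, Pi.smul_apply, smul_eq_mul]
  have hu1 : (1 : ℝ) ≤ |(u' j0 : ℝ)| := by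
    have := Int.one_le_abs hj0
    exact_mod_cast this
  have hMe : ∀ l j, |Mr l j| ≤ 1 := by
    intro l j
    have h1 : ∀ p, 0 ≤ vz (sclI d a) p j ∧ vz (sclI d a) p j ≤ 1 := by
      rintro (i | l')
      · simp only [vz, Sum.elim_inl, sclI]
        refine ⟨by positivity, ?_⟩
        rw [div_le_one hd']
        have h2 : a i j.castSucc ≤ d := by
          rw [← ha i]
          exact single_le_sum (f := fun j => a i j) (fun _ _ => Nat.zero_le _) (mem_univ _)
        exact_mod_cast h2
      · simp only [vz, Sum.elim_inr]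
        split_ifs <;> norm_num
    simp only [hMr, dz, Matrix.of_apply]
    rw [abs_le]
    have h2 := h1 (P' l)
    have h3 := h1 (Q' l)
    constructor <;> linarith [h2.1, h2.2, h3.1, h3.2]
  have hC1 : 0 < C := by
    rcases hC0.lt_or_eq with h | h
    · exact h
    · exfalso
      have h1 : c = 0 := by
        funext l
        have h2 := hc l
        rw [← h] at h2
        simp only [Int.cast_zero, zero_div] at h2
        exact abs_eq_zero.1 (le_antisymm h2 (abs_nonneg _))
      have h3 : (Mr.updateCol j0 c).det = 0 := Matrix.det_eq_zero_of_column_eq_zero j0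
        (fun l => by rw [Matrix.updateCol_self, h1]; rfl)
      rw [h3] at hcr
      rcases mul_eq_zero.1 hcr with h2 | h2
      · exact hMr0 h2
      · exact hj0 (by exact_mod_cast h2)
  have hCr : (0 : ℝ) < (C : ℝ) / d := div_pos (by exact_mod_cast hC1) hd'
  have hsplit : c = ((C : ℝ) / d) • (fun l => c l / ((C : ℝ) / d)) := by
    funext l
    rw [Pi.smul_apply, smul_eq_mul, mul_div_cancel₀ _ hCr.ne']
  have hle : |(Mr.updateCol j0 c).det| ≤ (C : ℝ) / d * n.factorial := by
    rw [hsplit, Matrix.det_updateCol_smul, abs_mul, abs_of_pos hCr]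
    refine mul_le_mul_of_nonneg_left ?_ hCr.le
    have h1 := Matrix.det_le (A := Mr.updateCol j0 fun l => c l / ((C : ℝ) / d))
      (abv := AbsoluteValue.abs) (x := 1) (by
        intro l j
        change |_| ≤ (1 : ℝ)
        by_cases h : j = j0
        · subst h
          rw [Matrix.updateCol_self, abs_div, abs_of_pos hCr, div_le_one hCr]
          exact hc l
        · rw [Matrix.updateCol_ne h]
          exact hMe l j)
    rw [one_pow, Fintype.card_fin, nsmul_eq_mul, mul_one] at h1
    exact h1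
  have h1 : |Mr.det| ≤ (C : ℝ) / d * n.factorial := by
    refine le_trans ?_ hle
    rw [← hcr, abs_mul]
    nlinarith [abs_nonneg Mr.det]
  have h2 : η < (C : ℝ) / d * n.factorial := lt_of_lt_of_le hbig h1
  have h3 : (n.factorial : ℝ) * N < n.factorial * C := by
    refine lt_of_le_of_lt hη ?_
    have h4 := mul_lt_mul_of_pos_right h2 hd'
    refine lt_of_lt_of_eq h4 ?_
    field_simp
  have h4 : (N : ℝ) < C := lt_of_mul_lt_mul_left h3 (by positivity)
  exact_mod_cast h4.le

/-- selecting `n` rows -/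
theorem select_rows {n : ℕ} {ι : Type} (ρ : ι → Fin n → ℤ)
    (h : ∀ v : Fin n → ℤ, (∀ x, ∑ j, ρ x j * v j = 0) → v = 0) :
    ∃ φ : Fin n → ι, Function.Injective φ ∧ (Matrix.of fun l j => ρ (φ l) j).det ≠ 0 := by
  classical
  let ρQ : ι → Fin n → ℚ := fun x j => (ρ x j : ℚ)
  have hspan : Submodule.span ℚ (Set.range ρQ) = ⊤ := by
    by_contra hne
    obtain ⟨f, hf, hle⟩ := Submodule.exists_le_ker_of_lt_top _ (lt_top_iff_ne_top.2 hne)
    let w : Fin n → ℚ := fun j => f (Pi.single j 1)
    have hfw : ∀ x : Fin n → ℚ, f x = ∑ j, x j * w j := by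
      intro x
      conv_lhs => rw [← (Pi.basisFun ℚ (Fin n)).sum_repr x]
      rw [map_sum]
      refine sum_congr rfl fun j _ => ?_
      rw [map_smul, Pi.basisFun_apply, Pi.basisFun_repr, smul_eq_mul]
    obtain ⟨D, hD⟩ := IsLocalization.exist_integer_multiples_of_finite (nonZeroDivisors ℤ) w
    have hD0 : ((D : ℤ) : ℚ) ≠ 0 := by
      have := nonZeroDivisors.coe_ne_zero D
      exact_mod_cast this
    choose v hv using hD
    have hv' : ∀ j, (v j : ℚ) = (D : ℤ) * w j := fun j => by
      have h1 := hv j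
      rw [zsmul_eq_mul] at h1
      exact h1
    have hv0 : v = 0 := by
      refine h v fun x => ?_
      have h1 : f (ρQ x) = 0 := hle (Submodule.subset_span ⟨x, rfl⟩)
      rw [hfw] at h1
      have h2 : ((∑ j, ρ x j * v j : ℤ) : ℚ) = (D : ℤ) * ∑ j, ρQ x j * w j := by
        push_cast
        rw [mul_sum]
        refine sum_congr rfl fun j _ => ?_
        rw [hv']
        ring
      rw [h1, mul_zero] at h2
      exact_mod_cast h2
    apply hf
    refine LinearMap.ext fun x => ?_
    rw [hfw, LinearMap.zero_apply]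
    refine sum_eq_zero fun j _ => ?_
    have h1 := hv' j
    rw [hv0] at h1
    simp only [Pi.zero_apply, Int.cast_zero] at h1
    rw [(mul_eq_zero.1 h1.symm).resolve_left hD0, mul_zero]
  obtain ⟨κ, a, ha, hsp, hli⟩ := exists_linearIndependent' ℚ ρQ
  rw [hspan] at hsp
  let b : Module.Basis κ ℚ (Fin n → ℚ) := Module.Basis.mk hli hsp.ge
  have hfin : Finite κ := Module.Finite.finite_basis b
  have := Fintype.ofFinite κ
  have hcard : Fintype.card κ = n := by
    have h1 := Module.finrank_eq_card_basis b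
    rw [Module.finrank_fin_fun] at h1
    exact h1.symm
  let e : Fin n ≃ κ := (Fintype.equivFinOfCardEq hcard).symm
  refine ⟨fun l => a (e l), ha.comp e.injective, ?_⟩
  have h1 : LinearIndependent ℚ (fun l => ρQ (a (e l))) := hli.comp e e.injective
  have h2 : IsUnit (Matrix.of fun l j => ρQ (a (e l)) j) :=
    Matrix.linearIndependent_rows_iff_isUnit.1 h1
  have h3 : (Matrix.of fun l j => ρQ (a (e l)) j).det ≠ 0 :=
    ((Matrix.isUnit_iff_isUnit_det _).1 h2).ne_zero
  intro h0
  apply h3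
  have h4 := Int.cast_det (R := ℚ) (Matrix.of fun l j => ρ (a (e l)) j)
  rw [h0, Int.cast_zero] at h4
  exact h4.symm

/-- **Typical sets of exponent vectors are wide.** -/
theorem wide_of_typicalI {n s d N : ℕ} {η : ℝ} (hd : 0 < d)
    (hη : n.factorial * (N : ℝ) ≤ η * d)
    {a : Fin s → (Fin (n + 1) →₀ ℕ)} (ha : ∀ i, ∑ j, a i j = d)
    (hdet : ∀ p q : Fin n → Fin s ⊕ Fin (n + 1), (dz p q (sclI d a)).det = 0 ∨
      η < |(dz p q (sclI d a)).det|) : WideT ∅ (fun _ : Unit => withPowers d a) N := by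
  classical
  have hd' : (0 : ℝ) < d := by exact_mod_cast hd
  have hdz : (0 : ℤ) < d := by exact_mod_cast hd
  intro I r e α β _ hr hmem hp u hu _
  choose P hP using fun l => mem_withPowers.1 (hmem l).1
  choose Q hQ using fun l => mem_withPowers.1 (hmem l).2.1
  obtain ⟨i0, hi0, j0, hj0, hij0⟩ := id hu
  -- all the pairs
  let PP : Fin r ⊕ {j : Fin (n + 1) // j ∉ I} → Fin s ⊕ Fin (n + 1) :=
    Sum.elim P fun j => Sum.inr j.1
  let QQ : Fin r ⊕ {j : Fin (n + 1) // j ∉ I} → Fin s ⊕ Fin (n + 1) :=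
    Sum.elim Q fun _ => Sum.inr i0
  let ρ : Fin r ⊕ {j : Fin (n + 1) // j ∉ I} → Fin n → ℤ := fun x j =>
    (expo d a (PP x) j.castSucc : ℤ) - expo d a (QQ x) j.castSucc
  have hw : ∀ (u : Fin (n + 1) → ℤ) (x), wgt u (expo d a (PP x)) - wgt u (expo d a (QQ x)) =
      ∑ j, ρ x j * (u j.castSucc - u (Fin.last n)) := by
    intro u x
    rw [wgt_expo' ha, wgt_expo' ha]
    simp only [ρ, sub_mul, sum_sub_distrib]
    ring
  have hpow : ∀ (u : Fin (n + 1) → ℤ) (l : Fin (n + 1)),
      wgt u (expo d a (Sum.inr l)) = d * u l := by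
    intro u l
    unfold wgt
    simp [expo, Finsupp.single_apply]
  obtain ⟨φ, hφ, hφdet⟩ := select_rows ρ (by
    intro v hv
    by_contra hv0
    obtain ⟨j1, hj1⟩ := Function.ne_iff.1 hv0
    let u0 : Fin (n + 1) → ℤ := Fin.snoc (α := fun _ => ℤ) v 0
    have hu0 : ∀ j : Fin n, u0 j.castSucc - u0 (Fin.last n) = v j := by
      intro j
      simp only [u0, Fin.snoc_castSucc, Fin.snoc_last, sub_zero]
    have hz : ∀ x, wgt u0 (expo d a (PP x)) - wgt u0 (expo d a (QQ x)) = 0 := by
      intro x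
      rw [hw]
      simp only [hu0]
      exact hv x
    have hI : ∀ j, j ∉ I → u0 j = u0 i0 := by
      intro j hj
      have h1 := hz (Sum.inr ⟨j, hj⟩)
      change wgt u0 (expo d a (Sum.inr j)) - wgt u0 (expo d a (Sum.inr i0)) = 0 at h1
      rw [hpow, hpow, ← mul_sub] at h1
      have := (mul_eq_zero.1 h1).resolve_left hdz.ne'
      omega
    have h1 := hp u0 (by
      by_contra hcon
      push Not at hcon
      have h2 : ∀ j, u0 j = u0 i0 := by
        intro j
        by_cases hj : j ∈ I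
        · exact hcon j hj i0 hi0
        · exact hI j hj
      have h3 := hu0 j1
      rw [h2 j1.castSucc, h2 (Fin.last n), sub_self] at h3
      exact hj1 h3.symm)
    rw [sum_eq_zero fun l _ => ?_] at h1
    · exact lt_irrefl _ h1
    · have h2 := hz (Sum.inl l)
      change wgt u0 (expo d a (P l)) - wgt u0 (expo d a (Q l)) = 0 at h2
      rw [hP, hQ] at h2
      rw [h2, abs_zero])
  -- the determinant is large
  have hbig : η < |(dz (fun l => PP (φ l)) (fun l => QQ (φ l)) (sclI d a)).det| := by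
    refine (hdet _ _).resolve_left fun h0 => hφdet ?_
    have hmap : (Matrix.of fun l j => ρ (φ l) j).map (fun z : ℤ => (z : ℝ)) =
        (d : ℝ) • dz (fun l => PP (φ l)) (fun l => QQ (φ l)) (sclI d a) := by
      ext l j
      rw [Matrix.map_apply, Matrix.smul_apply, smul_eq_mul]
      simp only [ρ, dz, Matrix.of_apply]
      push_cast
      rw [expo_vz hd, expo_vz hd]
      ring
    have h1 := Int.cast_det (R := ℝ) (Matrix.of fun l j => ρ (φ l) j)
    have h2 : ((Matrix.of fun l j => ρ (φ l) j).map (fun z : ℤ => (z : ℝ))).det = 0 := by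
      rw [hmap, Matrix.det_smul, h0, mul_zero]
    have h3 : (((Matrix.of fun l j => ρ (φ l) j).det : ℤ) : ℝ) = 0 := h1.trans h2
    exact_mod_cast h3
  -- the direction
  let u1 : Fin (n + 1) → ℤ := fun j => if j ∈ I then u j else u i0
  have hu1 : ∀ j ∈ I, u1 j = u j := fun j hj => if_pos hj
  have hsame : ∀ γ : Fin (n + 1) →₀ ℕ, (∀ j, j ∉ I → γ j = 0) → wgt u1 γ = wgt u γ := by
    intro γ hγ
    unfold wgt
    refine sum_congr rfl fun j _ => ?_
    by_cases hj : j ∈ I
    · rw [hu1 j hj]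
    · rw [hγ j hj]
      simp
  refine (width_of_det hd hη ha hbig u1 ⟨i0, j0, by rw [hu1 _ hi0, hu1 _ hj0]; exact hij0⟩).trans ?_
  let g : Fin r ⊕ {j : Fin (n + 1) // j ∉ I} → ℤ := fun x =>
    |wgt u1 (expo d a (PP x)) - wgt u1 (expo d a (QQ x))|
  have h1 : ∑ l, g (φ l) ≤ ∑ x, g x := by
    rw [← sum_image (s := univ) (g := φ) (f := g) (fun x _ y _ hxy => hφ hxy)]
    exact sum_le_sum_of_subset_of_nonneg (subset_univ _) fun x _ _ => abs_nonneg _
  refine h1.trans (le_of_eq ?_)
  rw [Fintype.sum_sum_type]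
  have h2 : ∀ j : {j : Fin (n + 1) // j ∉ I}, g (Sum.inr j) = 0 := by
    intro j
    change |wgt u1 (expo d a (Sum.inr j.1)) - wgt u1 (expo d a (Sum.inr i0))| = 0
    rw [hpow, hpow]
    have h3 : u1 j.1 = u i0 := if_neg j.2
    rw [h3, hu1 i0 hi0, sub_self, abs_zero]
  rw [sum_congr rfl fun j _ => h2 j, sum_const_zero, add_zero]
  refine sum_congr rfl fun l _ => ?_
  change |wgt u1 (expo d a (P l)) - wgt u1 (expo d a (Q l))| = _
  rw [hP, hQ, hsame _ fun j hj => ((hmem l).2.2 j hj).1, hsame _ fun j hj => ((hmem l).2.2 j hj).2]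

end Pool.Agent.R869.Wd
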