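import Pool.Agent.R869.WDens2
import Mathlib.Algebra.Order.Antidiag.FinsuppEquiv
import Mathlib.Data.Nat.Choose.Bounds

/-!
Almost all sets of exponent vectors are wide.
-/

set_option autoImplicit false

namespace Pool.Agent.R869.Wd

open Finset

theorem tuples_eq (n s d : ℕ) : Tuples n s d =
    (Fintype.piFinset fun _ : Fin s => finsuppAntidiag (univ : Finset (Fin (n + 1))) d :
      Finset (Fin s → (Fin (n + 1) →₀ ℕ))) := by
  ext a
  simp [Tuples, mem_finsuppAntidiag]

theorem tuples_finite (n s d : ℕ) : (Tuples n s d).Finite := by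
  rw [tuples_eq]
  exact finite_toSet _

theorem tuples_card (n s d : ℕ) : (Tuples n s d).ncard = ((n + d).choose n) ^ s := by
  rw [tuples_eq, Set.ncard_coe_finset, Fintype.card_piFinset_const,
    card_finsuppAntidiag_nat_eq_choose, card_univ, Fintype.card_fin]
  congr 1
  have : n + 1 + d - 1 = n + d := by omega
  rw [this, Nat.choose_symm_add]

theorem tuples_ge (n s d : ℕ) : (((d : ℝ) + 1) ^ n / n.factorial) ^ s ≤ (Tuples n s d).ncard := by
  rw [tuples_card, Nat.cast_pow]
  refine pow_le_pow_left₀ (by positivity) ?_ s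
  have h := Nat.pow_le_choose (α := ℝ) n (n + d)
  have h1 : n + d + 1 - n = d + 1 := by omega
  rw [h1] at h
  push_cast at h
  exact h

/-- few bad tuples -/
theorem almostAll_of {n s : ℕ} {P : ℕ → (Fin s → (Fin (n + 1) →₀ ℕ)) → Prop}
    (h : ∀ ε : ℝ, 0 < ε → ∃ d0 : ℕ, ∀ d : ℕ, d0 ≤ d →
      ({a | a ∈ Tuples n s d ∧ ¬ P d a}.ncard : ℝ) ≤ ε * ((d + 1) ^ n) ^ s) : AlmostAll n s P := by
  unfold AlmostAll
  rw [Metric.tendsto_atTop]
  intro ε hε
  obtain ⟨d0, hd0⟩ := h (ε / 2 / (n.factorial : ℝ) ^ s) (by positivity)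
  refine ⟨d0, fun d hd => ?_⟩
  have h1 := hd0 d hd
  set A := {a | a ∈ Tuples n s d ∧ P d a} with hA
  set B := {a | a ∈ Tuples n s d ∧ ¬ P d a} with hB
  have hfin := tuples_finite n s d
  have hAB : A ∪ B = Tuples n s d := by
    ext a
    simp only [hA, hB, Set.mem_union, Set.mem_ofPred_eq]
    tauto
  have hdis : Disjoint A B := by
    rw [Set.disjoint_left]
    rintro a ⟨-, h2⟩ ⟨-, h3⟩
    exact h3 h2
  have hsum : (A.ncard : ℝ) + B.ncard = (Tuples n s d).ncard := by
    rw [← hAB, Set.ncard_union_eq hdis (hfin.subset fun a ha => ha.1)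
      (hfin.subset fun a ha => ha.1)]
    push_cast
    rfl
  have hge := tuples_ge n s d
  have hT : (0 : ℝ) < (Tuples n s d).ncard := lt_of_lt_of_le (by positivity) hge
  rw [Real.dist_eq]
  have e : (A.ncard : ℝ) / (Tuples n s d).ncard - 1 = - (B.ncard / (Tuples n s d).ncard) := by
    rw [← hsum]
    rw [← hsum] at hT
    field_simp
    ring
  rw [e, abs_neg, abs_of_nonneg (by positivity), div_lt_iff₀ hT]
  have h2 : ε / 2 / (n.factorial : ℝ) ^ s * (((d : ℝ) + 1) ^ n) ^ s =
      ε / 2 * ((((d : ℝ) + 1) ^ n / n.factorial) ^ s) := by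
    rw [div_pow]
    ring
  rw [h2] at h1
  have h3 : ε / 2 * ((((d : ℝ) + 1) ^ n / n.factorial) ^ s) ≤ ε / 2 * (Tuples n s d).ncard :=
    mul_le_mul_of_nonneg_left hge (by positivity)
  have h4 : ε / 2 * ((Tuples n s d).ncard : ℝ) < ε * (Tuples n s d).ncard := by
    have : 0 < ε * ((Tuples n s d).ncard : ℝ) := mul_pos hε hT
    linarith
  exact lt_of_le_of_lt (h1.trans h3) h4

theorem AlmostAll.mono {n s : ℕ} {P Q : ℕ → (Fin s → (Fin (n + 1) →₀ ℕ)) → Prop}
    (h : AlmostAll n s P) {d1 : ℕ}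
    (hPQ : ∀ d a, d1 ≤ d → a ∈ Tuples n s d → P d a → Q d a) : AlmostAll n s Q := by
  unfold AlmostAll at h ⊢
  refine tendsto_of_tendsto_of_tendsto_of_le_of_le' h tendsto_const_nhds ?_ ?_
  · filter_upwards [Filter.eventually_ge_atTop d1] with d hd
    refine div_le_div_of_nonneg_right ?_ (Nat.cast_nonneg _)
    have := Set.ncard_le_ncard (s := {a | a ∈ Tuples n s d ∧ P d a})
      (t := {a | a ∈ Tuples n s d ∧ Q d a}) (fun a ha => ⟨ha.1, hPQ d a hd ha.1 ha.2⟩)
      ((tuples_finite n s d).subset fun a ha => ha.1)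
    exact_mod_cast this
  · refine Filter.Eventually.of_forall fun d => ?_
    refine div_le_one_of_le₀ ?_ (Nat.cast_nonneg _)
    have := Set.ncard_le_ncard (s := {a | a ∈ Tuples n s d ∧ Q d a}) (t := Tuples n s d)
      (fun a ha => ha.1) (tuples_finite n s d)
    exact_mod_cast this

/-- the functions of the coordinates -/
noncomputable def cf {n s : ℕ} (i : Fin s) (j : Fin (n + 1)) (x : Fin s × Fin n → ℝ) : ℝ :=
  Fin.lastCases (motive := fun _ => ℝ) (1 - ∑ j', x (i, j')) (fun j' => x (i, j')) j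

theorem sepAff_cf {n s : ℕ} (i : Fin s) (j : Fin (n + 1)) : SepAff (cf i j) := by
  rintro x ⟨i1, j1⟩
  have h1 : ∀ j' : Fin n, ∃ a b : ℝ, ∀ t : ℝ, Function.update x (i1, j1) t (i, j') = a + t * b := by
    intro j'
    by_cases h : (i, j') = (i1, j1)
    · exact ⟨0, 1, fun t => by rw [h, Function.update_self]; ring⟩
    · exact ⟨x (i, j'), 0, fun t => by rw [Function.update_of_ne h]; ring⟩
  refine Fin.lastCases ?_ (fun j => ?_) j
  · choose a b h using h1
    refine ⟨1 - ∑ j', a j', - ∑ j', b j', fun t => ?_⟩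
    unfold cf
    rw [Fin.lastCases_last, sum_congr rfl fun j' _ => h j' t, sum_add_distrib, ← mul_sum]
    ring
  · obtain ⟨a, b, h⟩ := h1 j
    refine ⟨a, b, fun t => ?_⟩
    unfold cf
    rw [Fin.lastCases_castSucc, h]

theorem cf_ne {n s : ℕ} (i : Fin s) (j : Fin (n + 1)) : ∃ z, cf i j z ≠ 0 := by
  refine ⟨fun _ => 1 / (n + 1), ?_⟩
  have hn : (n : ℝ) + 1 ≠ 0 := by positivity
  refine Fin.lastCases ?_ (fun j => ?_) j
  · unfold cf
    rw [Fin.lastCases_last, sum_const, card_univ, Fintype.card_fin, nsmul_eq_mul]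
    have h1 : (1 : ℝ) - n * (1 / (n + 1)) = 1 / (n + 1) := by
      field_simp
      ring
    rw [h1]
    positivity
  · unfold cf
    rw [Fin.lastCases_castSucc]
    positivity

theorem cf_zero {n s d : ℕ} (hd : 0 < d) {a : Fin s → (Fin (n + 1) →₀ ℕ)}
    (ha : ∀ i, ∑ j, a i j = d) {i : Fin s} {j : Fin (n + 1)} (h : a i j = 0) :
    cf i j (scl d a) = 0 := by
  have hd' : (d : ℝ) ≠ 0 := by exact_mod_cast hd.ne'
  revert h
  refine Fin.lastCases (fun h => ?_) (fun j h => ?_) j
  · have h1 := ha i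
    rw [Fin.sum_univ_castSucc, h, add_zero] at h1
    have h2 : ∑ j : Fin n, (a i j.castSucc : ℝ) = d := by exact_mod_cast h1
    unfold cf scl
    rw [Fin.lastCases_last]
    simp only
    rw [← sum_div, h2, div_self hd', sub_self]
  · unfold cf scl
    rw [Fin.lastCases_castSucc]
    simp only
    rw [h, Nat.cast_zero, zero_div]

/-- **Almost all sets of exponent vectors are wide and in general position.** -/
theorem almost_generic (n s N : ℕ) :
    AlmostAll n s fun d a => WideT ∅ (fun _ : Unit => withPowers d a) N ∧ 0 < d ∧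
      (∀ i j, a i j ≠ 0) ∧ ∀ p q : Fin n → Fin s ⊕ Fin (n + 1), (∃ z, (dm p q z).det ≠ 0) →
        (dm p q (scl d a)).det ≠ 0 := by
  classical
  apply almostAll_of
  intro ε hε
  let f : ((Fin n → Fin s ⊕ Fin (n + 1)) × (Fin n → Fin s ⊕ Fin (n + 1))) ⊕ (Fin s × Fin (n + 1)) →
      (Fin s × Fin n → ℝ) → ℝ :=
    Sum.elim (fun pq x => (dm pq.1 pq.2 x).det) fun ij => cf ij.1 ij.2
  obtain ⟨η, hη, d1, h1⟩ := count_family f (by
    rintro (⟨p, q⟩ | ⟨i, j⟩)
    · exact sepAff_det p q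
    · exact sepAff_cf i j) hε
  refine ⟨max d1 (max 1 (max N ⌈n.factorial * (N : ℝ) / η⌉₊)), fun d hd => ?_⟩
  have hd1 : d1 ≤ d := (le_max_left _ _).trans hd
  have hd2 : 1 ≤ d := ((le_max_left _ _).trans (le_max_right _ _)).trans hd
  have hd3 : N ≤ d := (((le_max_left _ _).trans (le_max_right _ _)).trans (le_max_right _ _)).trans hd
  have hd4 : ⌈n.factorial * (N : ℝ) / η⌉₊ ≤ d :=
    (((le_max_right _ _).trans (le_max_right _ _)).trans (le_max_right _ _)).trans hd
  have hd5 : n.factorial * (N : ℝ) ≤ η * d := by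
    have h2 : n.factorial * (N : ℝ) / η ≤ d := (Nat.le_ceil _).trans (by exact_mod_cast hd4)
    rw [div_le_iff₀ hη] at h2
    linarith
  have h2 := h1 d hd1
  have hcard : Fintype.card (Fin s × Fin n) = s * n := by simp
  rw [hcard] at h2
  have h3 : (((d : ℝ) + 1) ^ n) ^ s = (d + 1) ^ (s * n) := by
    rw [← pow_mul, mul_comm]
  rw [h3]
  refine le_trans ?_ h2
  have h4 := Set.ncard_le_ncard_of_injOn
    (s := {a | a ∈ Tuples n s d ∧ ¬ (WideT ∅ (fun _ : Unit => withPowers d a) N ∧ 0 < d ∧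
      (∀ i j, a i j ≠ 0) ∧ ∀ p q : Fin n → Fin s ⊕ Fin (n + 1), (∃ z, (dm p q z).det ≠ 0) →
        (dm p q (scl d a)).det ≠ 0)})
    (t := {x : Fin s × Fin n → Fin (d + 1) | ∃ θ, (∃ z, f θ z ≠ 0) ∧
      |f θ (fun j => ((x j : ℕ) : ℝ) / d)| ≤ η})
    (fun a ij => Fin.ofNat (d + 1) (a ij.1 ij.2.castSucc)) (by
      rintro a ⟨ha, hbad⟩
      have hle : ∀ i j, a i j ≤ d := fun i j => by
        rw [← ha i]
        exact single_le_sum (f := fun j => a i j) (fun _ _ => Nat.zero_le _) (mem_univ _)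
      have hscl : (fun j : Fin s × Fin n => (((Fin.ofNat (d + 1) (a j.1 j.2.castSucc) :
          Fin (d + 1)) : ℕ) : ℝ) / d) = scl d a := by
        funext j
        unfold scl
        rw [Fin.val_ofNat, Nat.mod_eq_of_lt (Nat.lt_succ_of_le (hle _ _))]
      change ∃ θ, (∃ z, f θ z ≠ 0) ∧ _
      simp only [hscl]
      by_contra hcon
      push Not at hcon
      apply hbad
      have hpos : ∀ i j, a i j ≠ 0 := by
        intro i j h0
        have h5 := hcon (Sum.inr (i, j)) (cf_ne i j)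
        have h6 : f (Sum.inr (i, j)) (scl d a) = 0 := cf_zero hd2 ha h0
        rw [h6, abs_zero] at h5
        exact absurd h5 (not_lt.2 hη.le)
      refine ⟨wide_of_typical hd2 hd3 hd5 ha hpos fun p q => ?_, hd2, hpos, fun p q hpq h0 => ?_⟩
      swap
      · have h5 := hcon (Sum.inl (p, q)) hpq
        have h6 : f (Sum.inl (p, q)) (scl d a) = 0 := h0
        rw [h6, abs_zero] at h5
        exact absurd h5 (not_lt.2 hη.le)
      · by_cases h0 : (dm p q (scl d a)).det = 0
        · exact Or.inl h0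
        · exact Or.inr (hcon (Sum.inl (p, q)) ⟨scl d a, h0⟩))
    (by
      rintro a ⟨ha, -⟩ b ⟨hb, -⟩ hab
      have hle : ∀ (a : Fin s → (Fin (n + 1) →₀ ℕ)), (∀ i, ∑ j, a i j = d) →
          ∀ i j, a i j ≤ d := fun a ha i j => by
        rw [← ha i]
        exact single_le_sum (f := fun j => a i j) (fun _ _ => Nat.zero_le _) (mem_univ _)
      have h5 : ∀ (i : Fin s) (j : Fin n), a i j.castSucc = b i j.castSucc := by
        intro i j
        have h6 := congrArg Fin.val (congrFun hab (i, j))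
        simp only [Fin.val_ofNat] at h6
        rwa [Nat.mod_eq_of_lt (Nat.lt_succ_of_le (hle a ha _ _)),
          Nat.mod_eq_of_lt (Nat.lt_succ_of_le (hle b hb _ _))] at h6
      funext i
      ext j
      refine Fin.lastCases ?_ (fun j => h5 i j) j
      have h6 := ha i
      have h7 := hb i
      rw [Fin.sum_univ_castSucc] at h6 h7
      rw [sum_congr rfl fun j _ => h5 i j] at h6
      omega)
    (Set.toFinite _)
  exact_mod_cast h4

/-- **Almost all sets of exponent vectors are wide.** -/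
theorem almost_wide (n s N : ℕ) :
    AlmostAll n s fun d a => WideT ∅ (fun _ : Unit => withPowers d a) N :=
  (almost_generic n s N).mono (d1 := 0) fun _ _ _ _ h => h.1

end Pool.Agent.R869.Wd
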