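import Pool.Agent.R869.SDens
import Pool.Agent.R869.WDens3

/-!
Almost all sets of exponent vectors with given sets of variables are wide.
-/

set_option autoImplicit false

namespace Pool.Agent.R869.Wd

open Finset

variable {n s : ℕ}

theorem tuplesIn_eq (I : Fin s → Finset (Fin (n + 1))) (d : ℕ) : TuplesIn I d =
    (Fintype.piFinset fun i : Fin s => finsuppAntidiag (I i) d :
      Finset (Fin s → (Fin (n + 1) →₀ ℕ))) := by
  classical
  ext a
  simp only [TuplesIn, Set.mem_ofPred_eq, Fintype.coe_piFinset, Set.mem_pi, Set.mem_univ, mem_coe,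
    mem_finsuppAntidiag, true_implies]
  refine forall_congr' fun i => ⟨fun h => ⟨?_, h.1⟩, fun h => ⟨h.2, ?_⟩⟩
  · rw [← h.2]
    exact sum_subset (subset_univ _) fun j _ hj =>
      Finsupp.notMem_support_iff.1 fun h' => hj (h.1 h')
  · rw [← h.1]
    exact (sum_subset (subset_univ _) fun j _ hj =>
      Finsupp.notMem_support_iff.1 fun h' => hj (h.2 h')).symm

theorem tuplesIn_finite (I : Fin s → Finset (Fin (n + 1))) (d : ℕ) : (TuplesIn I d).Finite := by
  rw [tuplesIn_eq]
  exact finite_toSet _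

/-- the number of free coordinates -/
def fdim (I : Fin s → Finset (Fin (n + 1))) : ℕ := ∑ i, ((I i).card - 1)

theorem tuplesIn_ge (I : Fin s → Finset (Fin (n + 1))) (hI : ∀ i, (I i).Nonempty) (d : ℕ) :
    ((d : ℝ) + 1) ^ fdim I / ∏ i, (((I i).card - 1).factorial : ℝ) ≤ (TuplesIn I d).ncard := by
  rw [tuplesIn_eq, Set.ncard_coe_finset, Fintype.card_piFinset, fdim, ← prod_pow_eq_pow_sum,
    ← prod_div_distrib]
  push_cast
  refine prod_le_prod (fun i _ => by positivity) fun i _ => ?_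
  obtain ⟨c, hc⟩ : ∃ c, (I i).card = c + 1 := ⟨(I i).card - 1, by
    have := (hI i).card_pos
    omega⟩
  rw [card_finsuppAntidiag_nat_eq_choose, hc]
  have e1 : c + 1 - 1 = c := rfl
  have e2 : c + 1 + d - 1 = c + d := by omega
  rw [e1, e2, ← Nat.choose_symm_add]
  have h := Nat.pow_le_choose (α := ℝ) c (c + d)
  have h1 : c + d + 1 - c = d + 1 := by omega
  rw [h1] at h
  push_cast at h
  exact h

/-- few bad tuples -/
theorem almostAllIn_of {I : Fin s → Finset (Fin (n + 1))} (hI : ∀ i, (I i).Nonempty)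
    {P : ℕ → (Fin s → (Fin (n + 1) →₀ ℕ)) → Prop}
    (h : ∀ ε : ℝ, 0 < ε → ∃ d0 : ℕ, ∀ d : ℕ, d0 ≤ d →
      ({a | a ∈ TuplesIn I d ∧ ¬ P d a}.ncard : ℝ) ≤ ε * (d + 1) ^ fdim I) :
    AlmostAllIn I P := by
  unfold AlmostAllIn
  rw [Metric.tendsto_atTop]
  intro ε hε
  obtain ⟨F, hF⟩ : ∃ F : ℝ, F = ∏ i, (((I i).card - 1).factorial : ℝ) := ⟨_, rfl⟩
  have hF0 : 0 < F := hF ▸ prod_pos fun i _ => by positivity
  obtain ⟨d0, hd0⟩ := h (ε / 2 / F) (by positivity)
  refine ⟨d0, fun d hd => ?_⟩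
  have h1 := hd0 d hd
  set A := {a | a ∈ TuplesIn I d ∧ P d a} with hA
  set B := {a | a ∈ TuplesIn I d ∧ ¬ P d a} with hB
  have hfin := tuplesIn_finite I d
  have hAB : A ∪ B = TuplesIn I d := by
    ext a
    simp only [hA, hB, Set.mem_union, Set.mem_ofPred_eq]
    constructor
    · rintro (h2 | h2)
      · exact h2.1
      · exact h2.1
    · intro h2
      by_cases h3 : P d a
      · exact Or.inl ⟨h2, h3⟩
      · exact Or.inr ⟨h2, h3⟩
  have hdis : Disjoint A B := by
    rw [Set.disjoint_left]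
    rintro a ⟨-, h2⟩ ⟨-, h3⟩
    exact h3 h2
  have hsum : (A.ncard : ℝ) + B.ncard = (TuplesIn I d).ncard := by
    rw [← hAB, Set.ncard_union_eq hdis (hfin.subset fun a ha => ha.1)
      (hfin.subset fun a ha => ha.1)]
    push_cast
    rfl
  have hge := tuplesIn_ge I hI d
  rw [← hF] at hge
  have hT : (0 : ℝ) < (TuplesIn I d).ncard := lt_of_lt_of_le (by positivity) hge
  rw [Real.dist_eq]
  have e : (A.ncard : ℝ) / (TuplesIn I d).ncard - 1 = - (B.ncard / (TuplesIn I d).ncard) := by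
    rw [← hsum]
    rw [← hsum] at hT
    field_simp
    ring
  rw [e, abs_neg, abs_of_nonneg (by positivity), div_lt_iff₀ hT]
  have h2 : ε / 2 / F * ((d : ℝ) + 1) ^ fdim I = ε / 2 * (((d : ℝ) + 1) ^ fdim I / F) := by
    ring
  rw [h2] at h1
  have h3 : ε / 2 * (((d : ℝ) + 1) ^ fdim I / F) ≤ ε / 2 * (TuplesIn I d).ncard :=
    mul_le_mul_of_nonneg_left hge (by positivity)
  have h4 : ε / 2 * ((TuplesIn I d).ncard : ℝ) < ε * (TuplesIn I d).ncard := by
    have : 0 < ε * ((TuplesIn I d).ncard : ℝ) := mul_pos hε hT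
    linarith
  exact lt_of_le_of_lt (h1.trans h3) h4

theorem AlmostAllIn.mono {I : Fin s → Finset (Fin (n + 1))}
    {P Q : ℕ → (Fin s → (Fin (n + 1) →₀ ℕ)) → Prop}
    (h : AlmostAllIn I P)
    (hPQ : ∀ d a, a ∈ TuplesIn I d → P d a → Q d a) : AlmostAllIn I Q := by
  unfold AlmostAllIn at h ⊢
  refine tendsto_of_tendsto_of_tendsto_of_le_of_le' h tendsto_const_nhds ?_ ?_
  · refine Filter.Eventually.of_forall fun d => ?_
    refine div_le_div_of_nonneg_right ?_ (Nat.cast_nonneg _)
    have := Set.ncard_le_ncard (s := {a | a ∈ TuplesIn I d ∧ P d a})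
      (t := {a | a ∈ TuplesIn I d ∧ Q d a}) (fun a ha => ⟨ha.1, hPQ d a ha.1 ha.2⟩)
      ((tuplesIn_finite I d).subset fun a ha => ha.1)
    exact_mod_cast this
  · refine Filter.Eventually.of_forall fun d => ?_
    refine div_le_one_of_le₀ ?_ (Nat.cast_nonneg _)
    have := Set.ncard_le_ncard (s := {a | a ∈ TuplesIn I d ∧ Q d a}) (t := TuplesIn I d)
      (fun a ha => ha.1) (tuplesIn_finite I d)
    exact_mod_cast this

/-- a coordinate of a point -/
theorem sepAff_prm {I : Fin s → Finset (Fin (n + 1))} {piv : Fin s → Fin (n + 1)} (i : Fin s)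
    (j : Fin (n + 1)) : SepAff fun x : Free I piv → ℝ => prm I piv x i j := by
  classical
  intro x c
  exact ⟨_, _, fun t => prm_update x c t i j⟩

theorem adm_scl {I : Fin s → Finset (Fin (n + 1))} {d : ℕ} (hd : 0 < d)
    {a : Fin s → (Fin (n + 1) →₀ ℕ)} (ha : a ∈ TuplesIn I d) : Adm I (sclI d a) := by
  have hd' : (d : ℝ) ≠ 0 := by exact_mod_cast hd.ne'
  refine fun i => ⟨fun j hj => ?_, ?_⟩
  · unfold sclI
    rw [Finsupp.notMem_support_iff.1 fun h => hj ((ha i).1 h)]
    simp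
  · unfold sclI
    rw [← sum_div]
    have h : ∑ j, (a i j : ℝ) = d := by exact_mod_cast (ha i).2
    rw [h, div_self hd']

open Classical in
/-- the centre of the simplex -/
theorem adm_ne {I : Fin s → Finset (Fin (n + 1))} (hI : ∀ i, (I i).Nonempty) :
    ∃ z, Adm I z ∧ ∀ i, ∀ j ∈ I i, z i j ≠ 0 := by
  refine ⟨fun i j => if j ∈ I i then 1 / (I i).card else 0, fun i => ⟨fun j hj => if_neg hj, ?_⟩,
    fun i j hj => ?_⟩
  · have h : ((I i).card : ℝ) ≠ 0 := by exact_mod_cast (hI i).card_pos.ne'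
    rw [← sum_filter, filter_mem_eq_inter, univ_inter, sum_const, nsmul_eq_mul,
      mul_one_div_cancel h]
  · have h : ((I i).card : ℝ) ≠ 0 := by exact_mod_cast (hI i).card_pos.ne'
    change (if j ∈ I i then (1 : ℝ) / (I i).card else 0) ≠ 0
    rw [if_pos hj]
    positivity

theorem card_free (I : Fin s → Finset (Fin (n + 1))) (piv : Fin s → Fin (n + 1))
    (hpiv : ∀ i, piv i ∈ I i) : Fintype.card (Free I piv) = fdim I := by
  classical
  unfold fdim
  rw [Fintype.card_subtype, card_filter]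
  rw [Fintype.sum_prod_type]
  refine sum_congr rfl fun i _ => ?_
  rw [← card_filter, ← card_erase_of_mem (hpiv i)]
  congr 1
  ext j
  simp only [mem_filter, mem_univ, true_and, mem_erase]
  exact and_comm

/-- **Almost all sets of exponent vectors are wide and in general position.** -/
theorem almost_genericI (I : Fin s → Finset (Fin (n + 1))) (hI : ∀ i, (I i).Nonempty) (N : ℕ) :
    AlmostAllIn I fun d a => WideT ∅ (fun _ : Unit => withPowers d a) N ∧ 0 < d ∧
      (∀ i, ∀ j ∈ I i, a i j ≠ 0) ∧ ∀ p q : Fin n → Fin s ⊕ Fin (n + 1),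
        (∃ z, Adm I z ∧ (dz p q z).det ≠ 0) → (dz p q (sclI d a)).det ≠ 0 := by
  classical
  choose piv hpiv using hI
  apply almostAllIn_of fun i => ⟨piv i, hpiv i⟩
  intro ε hε
  let f : ((Fin n → Fin s ⊕ Fin (n + 1)) × (Fin n → Fin s ⊕ Fin (n + 1))) ⊕ (Fin s × Fin (n + 1)) →
      (Free I piv → ℝ) → ℝ :=
    Sum.elim (fun pq x => (dz pq.1 pq.2 (prm I piv x)).det) fun ij x => prm I piv x ij.1 ij.2
  obtain ⟨η, hη, d1, h1⟩ := count_family f (by
    rintro (⟨p, q⟩ | ⟨i, j⟩)
    · exact sepAff_dz p q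
    · exact sepAff_prm i j) hε
  refine ⟨max d1 (max 1 ⌈n.factorial * (N : ℝ) / η⌉₊), fun d hd => ?_⟩
  have hd1 : d1 ≤ d := (le_max_left _ _).trans hd
  have hd2 : 1 ≤ d := ((le_max_left _ _).trans (le_max_right _ _)).trans hd
  have hd4 : ⌈n.factorial * (N : ℝ) / η⌉₊ ≤ d :=
    ((le_max_right _ _).trans (le_max_right _ _)).trans hd
  have hd5 : n.factorial * (N : ℝ) ≤ η * d := by
    have h2 : n.factorial * (N : ℝ) / η ≤ d := (Nat.le_ceil _).trans (by exact_mod_cast hd4)
    rw [div_le_iff₀ hη] at h2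
    linarith
  have h2 := h1 d hd1
  rw [card_free I piv hpiv] at h2
  refine le_trans ?_ h2
  have hle : ∀ (a : Fin s → (Fin (n + 1) →₀ ℕ)), a ∈ TuplesIn I d → ∀ i j, a i j ≤ d :=
    fun a ha i j => by
      rw [← (ha i).2]
      exact single_le_sum (f := fun j => a i j) (fun _ _ => Nat.zero_le _) (mem_univ _)
  have h4 := Set.ncard_le_ncard_of_injOn
    (s := {a | a ∈ TuplesIn I d ∧ ¬ (WideT ∅ (fun _ : Unit => withPowers d a) N ∧ 0 < d ∧
      (∀ i, ∀ j ∈ I i, a i j ≠ 0) ∧ ∀ p q : Fin n → Fin s ⊕ Fin (n + 1),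
        (∃ z, Adm I z ∧ (dz p q z).det ≠ 0) → (dz p q (sclI d a)).det ≠ 0)})
    (t := {x : Free I piv → Fin (d + 1) | ∃ θ, (∃ z, f θ z ≠ 0) ∧
      |f θ (fun j => ((x j : ℕ) : ℝ) / d)| ≤ η})
    (fun a c => Fin.ofNat (d + 1) (a c.1.1 c.1.2)) (by
      rintro a ⟨ha, hbad⟩
      have hscl : (fun c : Free I piv => (((Fin.ofNat (d + 1) (a c.1.1 c.1.2) :
          Fin (d + 1)) : ℕ) : ℝ) / d) = fun c : Free I piv => sclI d a c.1.1 c.1.2 := by
        funext c
        unfold sclI
        rw [Fin.val_ofNat, Nat.mod_eq_of_lt (Nat.lt_succ_of_le (hle a ha _ _))]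
      have hprm := adm_prm (piv := piv) (adm_scl hd2 ha)
      change ∃ θ, (∃ z, f θ z ≠ 0) ∧ _
      simp only [hscl]
      by_contra hcon
      push Not at hcon
      apply hbad
      have hpos : ∀ i, ∀ j ∈ I i, a i j ≠ 0 := by
        intro i j hj h0
        obtain ⟨z, hz, hz0⟩ := adm_ne fun i => ⟨piv i, hpiv i⟩
        have h5 := hcon (Sum.inr (i, j)) ⟨_, by
          change prm I piv _ i j ≠ 0
          rw [adm_prm (piv := piv) hz]
          exact hz0 i j hj⟩
        have h6 : f (Sum.inr (i, j)) (fun c : Free I piv => sclI d a c.1.1 c.1.2) = 0 := by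
          change prm I piv _ i j = 0
          rw [hprm]
          unfold sclI
          rw [h0]
          simp
        rw [h6, abs_zero] at h5
        exact absurd h5 (not_lt.2 hη.le)
      have hf : ∀ p q, f (Sum.inl (p, q)) (fun c : Free I piv => sclI d a c.1.1 c.1.2) =
          (dz p q (sclI d a)).det := by
        intro p q
        change (dz p q (prm I piv _)).det = _
        rw [hprm]
      refine ⟨wide_of_typicalI hd2 hd5 (fun i => (ha i).2) fun p q => ?_, hd2, hpos,
        fun p q hpq h0 => ?_⟩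
      swap
      · obtain ⟨z, hz, hz0⟩ := hpq
        have h5 := hcon (Sum.inl (p, q)) ⟨_, by
          change (dz p q (prm I piv _)).det ≠ 0
          rw [adm_prm (piv := piv) hz]
          exact hz0⟩
        rw [hf, h0, abs_zero] at h5
        exact absurd h5 (not_lt.2 hη.le)
      · by_cases h0 : (dz p q (sclI d a)).det = 0
        · exact Or.inl h0
        · refine Or.inr ?_
          have h5 := hcon (Sum.inl (p, q)) ⟨_, by rw [hf]; exact h0⟩
          rwa [hf] at h5)
    (by
      rintro a ⟨ha, -⟩ b ⟨hb, -⟩ hab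
      have h5 : ∀ c : Free I piv, a c.1.1 c.1.2 = b c.1.1 c.1.2 := by
        intro c
        have h6 := congrArg Fin.val (congrFun hab c)
        simp only [Fin.val_ofNat] at h6
        rwa [Nat.mod_eq_of_lt (Nat.lt_succ_of_le (hle a ha _ _)),
          Nat.mod_eq_of_lt (Nat.lt_succ_of_le (hle b hb _ _))] at h6
      funext i
      have h8 : ∀ j, j ≠ piv i → a i j = b i j := by
        intro j hj
        by_cases h : j ∈ I i
        · exact h5 ⟨(i, j), h, hj⟩
        · rw [Finsupp.notMem_support_iff.1 fun h' => h ((ha i).1 h'),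
            Finsupp.notMem_support_iff.1 fun h' => h ((hb i).1 h')]
      ext j
      by_cases hj : j = piv i
      · subst hj
        have h6 : a i (piv i) + ∑ j ∈ univ.erase (piv i), a i j = d := by
          rw [add_sum_erase univ (fun j => a i j) (mem_univ (piv i))]
          exact (ha i).2
        have h7 : b i (piv i) + ∑ j ∈ univ.erase (piv i), b i j = d := by
          rw [add_sum_erase univ (fun j => b i j) (mem_univ (piv i))]
          exact (hb i).2
        have h9 : ∑ j ∈ univ.erase (piv i), a i j = ∑ j ∈ univ.erase (piv i), b i j :=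
          sum_congr rfl fun j hj => h8 j (ne_of_mem_erase hj)
        omega
      · exact h8 j hj)
    (Set.toFinite _)
  exact_mod_cast h4

end Pool.Agent.R869.Wd
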