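import Pool.Agent.R869.SDens2

/-!
Generic exponent vectors with given sets of variables: the classes of the weights.
-/

set_option autoImplicit false

namespace Pool.Agent.R869.Wd

open Finset

variable {n s : ℕ}

/-- the difference of a pair of terms -/
noncomputable def pv (z : Fin s → Fin (n + 1) → ℝ)
    (x : (Fin s ⊕ Fin (n + 1)) × (Fin s ⊕ Fin (n + 1))) : Fin n → ℝ := vz z x.1 - vz z x.2

/-- the powers -/
def ev (j : Fin (n + 1)) : Fin n → ℝ := fun l => if j = l.castSucc then 1 else 0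

theorem vz_inr (z : Fin s → Fin (n + 1) → ℝ) (j : Fin (n + 1)) : vz z (Sum.inr j) = ev j := rfl

theorem dz_rows (p q : Fin n → Fin s ⊕ Fin (n + 1)) (z : Fin s → Fin (n + 1) → ℝ) :
    (dz p q z).det ≠ 0 ↔ LinearIndependent ℝ fun l => pv z (p l, q l) := by
  have h1 : LinearIndependent ℝ (fun l => pv z (p l, q l)) ↔ IsUnit (dz p q z) :=
    Matrix.linearIndependent_rows_iff_isUnit (A := dz p q z)
  rw [h1, Matrix.isUnit_iff_isUnit_det, isUnit_iff_ne_zero]

theorem ev_span : Submodule.span ℝ {x : Fin n → ℝ | ∃ j j' : Fin (n + 1), x = ev j - ev j'} = ⊤ := by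
  rw [eq_top_iff]
  intro x _
  have h1 : x = ∑ l : Fin n, x l • (ev l.castSucc - ev (Fin.last n)) := by
    funext c
    rw [Finset.sum_apply]
    simp only [Pi.smul_apply, Pi.sub_apply, ev, smul_eq_mul, Fin.castSucc_inj]
    have h2 : ¬ Fin.last n = c.castSucc := (Fin.castSucc_lt_last c).ne'
    simp [h2]
  rw [h1]
  exact Submodule.sum_mem _ fun l _ => Submodule.smul_mem _ _
    (Submodule.subset_span ⟨l.castSucc, Fin.last n, rfl⟩)

/-- **A fresh generic term.** -/
theorem fresh {I : Fin s → Finset (Fin (n + 1))} {z0 : Fin s → Fin (n + 1) → ℝ}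
    (hz0 : Adm I z0) (hgen : ∀ p q : Fin n → Fin s ⊕ Fin (n + 1),
      (∃ z, Adm I z ∧ (dz p q z).det ≠ 0) → (dz p q z0).det ≠ 0)
    (i : Fin s) (t : Fin s ⊕ Fin (n + 1)) (ht : t ≠ Sum.inl i)
    (S : Set ((Fin s ⊕ Fin (n + 1)) × (Fin s ⊕ Fin (n + 1))))
    (hS : ∀ x ∈ S, x.1 ≠ Sum.inl i ∧ x.2 ≠ Sum.inl i)
    (hmem : pv z0 (Sum.inl i, t) ∈ Submodule.span ℝ (pv z0 '' S)) (j j' : Fin (n + 1))
    (hj : j ∈ I i) (hj' : j' ∈ I i) : ev j - ev j' ∈ Submodule.span ℝ (pv z0 '' S) := by
  classical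
  by_contra hcon
  obtain ⟨j1, hj1, hout⟩ : ∃ j1 ∈ I i, ev j1 - vz z0 t ∉ Submodule.span ℝ (pv z0 '' S) := by
    by_contra hcon2
    push Not at hcon2
    apply hcon
    have h1 := Submodule.sub_mem _ (hcon2 j hj) (hcon2 j' hj')
    rwa [sub_sub_sub_cancel_right] at h1
  let z1 : Fin s → Fin (n + 1) → ℝ := Function.update z0 i (Pi.single j1 1)
  have hz1 : Adm I z1 := by
    intro i'
    by_cases h : i' = i
    · subst h
      simp only [z1, Function.update_self]
      refine ⟨fun j hj => ?_, by simp⟩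
      rw [Pi.single_apply, if_neg]
      rintro rfl
      exact hj hj1
    · simp only [z1, Function.update_of_ne h]
      exact hz0 i'
  have hvz : ∀ p, p ≠ Sum.inl i → vz z1 p = vz z0 p := by
    rintro (i' | l) hp
    · have h : i' ≠ i := fun h => hp (by rw [h])
      funext c
      simp only [vz, Sum.elim_inl, z1, Function.update_of_ne h]
    · rfl
  have hvi : vz z1 (Sum.inl i) = ev j1 := by
    funext c
    simp only [vz, Sum.elim_inl, z1, Function.update_self, ev, Pi.single_apply]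
    by_cases h : j1 = c.castSucc
    · rw [if_pos h, if_pos h.symm]
    · rw [if_neg h, if_neg (Ne.symm h)]
  have hpS : ∀ x ∈ S, pv z1 x = pv z0 x := by
    intro x hx
    unfold pv
    rw [hvz _ (hS x hx).1, hvz _ (hS x hx).2]
  let x0 : (Fin s ⊕ Fin (n + 1)) × (Fin s ⊕ Fin (n + 1)) := (Sum.inl i, t)
  have hpx : pv z1 x0 = ev j1 - vz z0 t := by
    change vz z1 (Sum.inl i) - vz z1 t = _
    rw [hvi, hvz t ht]
  -- a basis of the span
  obtain ⟨b0, hb0S, -, hb0sp, hb0⟩ := exists_linearIndepOn_extension (K := ℝ) (v := pv z0)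
    (s := ∅) (t := S) (by exact linearIndependent_empty_type) (Set.empty_subset _)
  have himg : ∀ B : Set ((Fin s ⊕ Fin (n + 1)) × (Fin s ⊕ Fin (n + 1))), B ⊆ S →
      pv z1 '' B = pv z0 '' B := fun B hB => Set.image_congr fun x hx => hpS x (hB hx)
  have hb1 : LinearIndepOn ℝ (pv z1) b0 := by
    have h1 : (fun x : b0 => pv z1 x) = fun x : b0 => pv z0 x := by
      funext x
      exact hpS x (hb0S x.2)
    change LinearIndependent ℝ (fun x : b0 => pv z1 x)
    rw [h1]
    exact hb0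
  have hins : LinearIndepOn ℝ (pv z1) (insert x0 b0) := by
    refine hb1.insert ?_
    rw [hpx, himg b0 hb0S]
    exact fun h => hout (Submodule.span_mono (Set.image_mono hb0S) h)
  let Pw : Set ((Fin s ⊕ Fin (n + 1)) × (Fin s ⊕ Fin (n + 1))) :=
    {x | ∃ j j' : Fin (n + 1), x = (Sum.inr j, Sum.inr j')}
  obtain ⟨b, hbt, hsb, hbsp, hb⟩ := exists_linearIndepOn_extension (K := ℝ) (v := pv z1)
    (s := insert x0 b0) (t := insert x0 b0 ∪ Pw) hins Set.subset_union_left
  have htop : Submodule.span ℝ (Set.range fun x : b => pv z1 x) = ⊤ := by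
    rw [eq_top_iff, ← ev_span, Submodule.span_le]
    rintro x ⟨j, j', rfl⟩
    have h1 : (fun x : b => pv z1 x) = pv z1 ∘ ((↑) : b → _) := rfl
    rw [h1, Set.range_comp, Subtype.range_coe]
    exact hbsp ⟨(Sum.inr j, Sum.inr j'), Or.inr ⟨j, j', rfl⟩, rfl⟩
  let bs : Module.Basis b ℝ (Fin n → ℝ) := Module.Basis.mk (v := fun x : b => pv z1 x) hb htop.ge
  have hfin : Finite b := Module.Finite.finite_basis bs
  have := Fintype.ofFinite b
  have hcard : Fintype.card b = n := by
    have h1 := Module.finrank_eq_card_basis bs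
    rw [Module.finrank_fin_fun] at h1
    exact h1.symm
  let e : Fin n ≃ b := (Fintype.equivFinOfCardEq hcard).symm
  have h1 : (dz (fun l => (e l).1.1) (fun l => (e l).1.2) z1).det ≠ 0 := by
    rw [dz_rows]
    exact LinearIndependent.comp hb e e.injective
  have h2 := hgen _ _ ⟨z1, hz1, h1⟩
  rw [dz_rows] at h2
  have hx0b : x0 ∈ b := hsb (Set.mem_insert _ _)
  refine h2.notMem_span_image (s := {l | (e l).1 ∈ b0}) (x := e.symm ⟨x0, hx0b⟩) ?_ ?_
  · intro h3
    change (e (e.symm ⟨x0, hx0b⟩)).1 ∈ b0 at h3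
    rw [Equiv.apply_symm_apply] at h3
    exact (hS _ (hb0S h3)).1 rfl
  · have h4 : pv z0 ((e (e.symm ⟨x0, hx0b⟩)).1.1, (e (e.symm ⟨x0, hx0b⟩)).1.2) =
        pv z0 (Sum.inl i, t) := by
      rw [Equiv.apply_symm_apply]
    change pv z0 ((e (e.symm ⟨x0, hx0b⟩)).1.1, (e (e.symm ⟨x0, hx0b⟩)).1.2) ∈ _
    rw [h4]
    have h5 : Submodule.span ℝ (pv z0 '' S) ≤ Submodule.span ℝ (pv z0 '' b0) :=
      Submodule.span_le.2 hb0sp
    have h6 : pv z0 '' b0 ⊆ (fun l => pv z0 ((e l).1.1, (e l).1.2)) '' {l | (e l).1 ∈ b0} := by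
      rintro _ ⟨x, hx, rfl⟩
      refine ⟨e.symm ⟨x, hsb (Set.mem_insert_of_mem _ hx)⟩, ?_, ?_⟩
      · change (e (e.symm _)).1 ∈ b0
        rw [Equiv.apply_symm_apply]
        exact hx
      · change pv z0 ((e (e.symm _)).1.1, (e (e.symm _)).1.2) = _
        rw [Equiv.apply_symm_apply]
    exact Submodule.span_mono h6 (h5 hmem)

/-- the weights of the terms -/
noncomputable def wr (z : Fin s → Fin (n + 1) → ℝ) (b : Fin (n + 1) → ℝ)
    (p : Fin s ⊕ Fin (n + 1)) : ℝ := Sum.elim (fun i => ∑ j, z i j * b j) b p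

/-- the functional of a weight vector -/
noncomputable def wf (b : Fin (n + 1) → ℝ) : (Fin n → ℝ) →ₗ[ℝ] ℝ :=
  ∑ l : Fin n, (b l.castSucc - b (Fin.last n)) • LinearMap.proj l

theorem wf_apply (b : Fin (n + 1) → ℝ) (x : Fin n → ℝ) :
    wf b x = ∑ l : Fin n, (b l.castSucc - b (Fin.last n)) * x l := by
  unfold wf
  rw [LinearMap.sum_apply]
  rfl

theorem wf_vz {I : Fin s → Finset (Fin (n + 1))} {z : Fin s → Fin (n + 1) → ℝ} (hz : Adm I z)
    (b : Fin (n + 1) → ℝ) (p : Fin s ⊕ Fin (n + 1)) :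
    wf b (vz z p) = wr z b p - b (Fin.last n) := by
  rw [wf_apply]
  rcases p with i | j
  · have h1 := (hz i).2
    rw [Fin.sum_univ_castSucc] at h1
    simp only [vz, wr, Sum.elim_inl]
    rw [Fin.sum_univ_castSucc]
    have h2 : ∑ l : Fin n, (b l.castSucc - b (Fin.last n)) * z i l.castSucc =
        ∑ l : Fin n, z i l.castSucc * b l.castSucc - b (Fin.last n) *
          ∑ l : Fin n, z i l.castSucc := by
      rw [mul_sum, ← sum_sub_distrib]
      refine sum_congr rfl fun l _ => ?_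
      ring
    rw [h2]
    have h3 : ∑ l : Fin n, z i l.castSucc = 1 - z i (Fin.last n) := by linarith
    rw [h3]
    ring
  · simp only [vz, wr, Sum.elim_inr]
    refine Fin.lastCases ?_ (fun j => ?_) j
    · rw [sub_self]
      refine sum_eq_zero fun l _ => ?_
      rw [if_neg (Fin.castSucc_lt_last l).ne', mul_zero]
    · simp [Fin.castSucc_inj]

theorem wf_pv {I : Fin s → Finset (Fin (n + 1))} {z : Fin s → Fin (n + 1) → ℝ} (hz : Adm I z)
    (b : Fin (n + 1) → ℝ) (x : (Fin s ⊕ Fin (n + 1)) × (Fin s ⊕ Fin (n + 1))) :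
    wf b (pv z x) = wr z b x.1 - wr z b x.2 := by
  unfold pv
  rw [map_sub, wf_vz hz, wf_vz hz]
  ring

theorem vz_sum {I : Fin s → Finset (Fin (n + 1))} {z : Fin s → Fin (n + 1) → ℝ} (hz : Adm I z)
    (i : Fin s) (j0 : Fin (n + 1)) :
    vz z (Sum.inl i) - ev j0 = ∑ j, z i j • (ev j - ev j0) := by
  funext l
  rw [Finset.sum_apply]
  simp only [Pi.smul_apply, Pi.sub_apply, smul_eq_mul, mul_sub, sum_sub_distrib, ← sum_mul,
    (hz i).2, one_mul]
  simp [vz, ev]

section count

variable {I : Fin s → Finset (Fin (n + 1))} {z0 : Fin s → Fin (n + 1) → ℝ}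

open Classical in
/-- **The number of the classes.** -/
theorem cross_le (hz0 : Adm I z0) (hgen : ∀ p q : Fin n → Fin s ⊕ Fin (n + 1),
      (∃ z, Adm I z ∧ (dz p q z).det ≠ 0) → (dz p q z0).det ≠ 0)
    (b : Fin (n + 1) → ℝ) (J : Finset (Fin (n + 1))) (hJ : ∃ j ∈ J, ∃ j' ∈ J, b j ≠ b j') :
    (crs I J b).card + 2 ≤ (J.image b).card +
      (((crs I J b).image fun i => wr z0 b (Sum.inl i)) \ J.image b).card := by
  obtain ⟨j0, hj0, j1, hj1, hj01⟩ := hJ
  set Nc := crs I J b with hNc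
  have hNcm : ∀ i ∈ Nc, I i ⊆ J ∧ ¬ ∀ j ∈ I i, ∀ j' ∈ I i, b j = b j' := fun i hi =>
    (mem_filter.1 hi).2
  set Λ := (Nc.image fun i => wr z0 b (Sum.inl i)) \ J.image b with hΛ
  have hΛm : ∀ lam ∈ Λ, ∃ i ∈ Nc, wr z0 b (Sum.inl i) = lam := fun lam hlam =>
    mem_image.1 (mem_sdiff.1 hlam).1
  choose rep hrep hrepw using hΛm
  have hcong : ∀ (x y : ℝ) (hx : x ∈ Λ) (hy : y ∈ Λ), x = y → rep x hx = rep y hy := by
    rintro x y hx hy rfl
    rfl
  -- the partners
  have hpart : ∀ i ∈ Nc, ∃ t : Fin s ⊕ Fin (n + 1), wr z0 b t = wr z0 b (Sum.inl i) ∧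
      ((∃ j ∈ J, t = Sum.inr j) ∨ ∃ h : wr z0 b (Sum.inl i) ∈ Λ, t = Sum.inl (rep _ h)) := by
    intro i hi
    by_cases h : wr z0 b (Sum.inl i) ∈ Λ
    · exact ⟨Sum.inl (rep _ h), hrepw _ h, Or.inr ⟨h, rfl⟩⟩
    · have h1 : wr z0 b (Sum.inl i) ∈ J.image b := by
        by_contra h2
        exact h (mem_sdiff.2 ⟨mem_image_of_mem _ hi, h2⟩)
      obtain ⟨j, hj, hjw⟩ := mem_image.1 h1
      exact ⟨Sum.inr j, hjw, Or.inl ⟨j, hj, rfl⟩⟩
  let t : Fin s → Fin s ⊕ Fin (n + 1) := fun i =>
    if h : i ∈ Nc then (hpart i h).choose else Sum.inr j0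
  have ht : ∀ i ∈ Nc, wr z0 b (t i) = wr z0 b (Sum.inl i) ∧
      ((∃ j ∈ J, t i = Sum.inr j) ∨
        ∃ h : wr z0 b (Sum.inl i) ∈ Λ, t i = Sum.inl (rep _ h)) := by
    intro i hi
    have h1 : t i = (hpart i hi).choose := dif_pos hi
    rw [h1]
    exact (hpart i hi).choose_spec
  -- the representatives
  let R := Nc.filter fun i => ∃ h : wr z0 b (Sum.inl i) ∈ Λ, rep _ h = i
  let P := Nc.filter fun i => ¬ ∃ h : wr z0 b (Sum.inl i) ∈ Λ, rep _ h = i
  have hRP : R.card + P.card = Nc.card := card_filter_add_card_filter_not _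
  have hR : R.card ≤ Λ.card := by
    refine card_le_card_of_injOn (fun i => wr z0 b (Sum.inl i)) (fun i hi => ?_)
      fun i hi i' hi' h => ?_
    · obtain ⟨-, h, -⟩ := mem_filter.1 hi
      exact h
    · obtain ⟨-, h1, h2⟩ := mem_filter.1 (mem_coe.1 hi)
      obtain ⟨-, h3, h4⟩ := mem_filter.1 (mem_coe.1 hi')
      rw [← h2, ← h4]
      congr 1
  -- the spans
  let Cls : Set ((Fin s ⊕ Fin (n + 1)) × (Fin s ⊕ Fin (n + 1))) :=
    {x | ∃ j ∈ J, ∃ j' ∈ J, b j = b j' ∧ x = (Sum.inr j, Sum.inr j')}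
  let SS : Finset (Fin s) → Set ((Fin s ⊕ Fin (n + 1)) × (Fin s ⊕ Fin (n + 1))) := fun Q =>
    Cls ∪ (fun i => (Sum.inl i, t i)) '' (Q : Set (Fin s))
  have hkill : ∀ Q ⊆ P, ∀ x ∈ Submodule.span ℝ (pv z0 '' SS Q), wf b x = 0 := by
    intro Q hQ x hx
    have h1 : Submodule.span ℝ (pv z0 '' SS Q) ≤ LinearMap.ker (wf b) := by
      rw [Submodule.span_le]
      rintro _ ⟨y, (⟨j, -, j', -, hjj, rfl⟩ | ⟨i, hi, rfl⟩), rfl⟩
      · change wf b (pv z0 _) = 0
        rw [wf_pv hz0]
        exact sub_eq_zero.2 hjj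
      · change wf b (pv z0 _) = 0
        rw [wf_pv hz0]
        exact sub_eq_zero.2 (ht i (mem_filter.1 (hQ hi)).1).1.symm
    exact h1 hx
  have hstep : ∀ Q ⊆ P, Module.finrank ℝ (Submodule.span ℝ (pv z0 '' Cls)) + Q.card ≤
      Module.finrank ℝ (Submodule.span ℝ (pv z0 '' SS Q)) := by
    intro Q
    induction Q using Finset.induction_on with
    | empty =>
      intro _
      have h1 : SS ∅ = Cls := by simp [SS]
      rw [h1, card_empty, add_zero]
    | insert i Q hi ih =>
      intro hQ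
      have hiP : i ∈ P := hQ (mem_insert_self _ _)
      have hQP : Q ⊆ P := (subset_insert _ _).trans hQ
      have h1 := ih hQP
      obtain ⟨hiN, hiR⟩ := mem_filter.1 hiP
      have hti : t i ≠ Sum.inl i := by
        rcases (ht i hiN).2 with ⟨j, -, hj⟩ | ⟨h, hh⟩
        · rw [hj]
          exact Sum.inr_ne_inl
        · rw [hh]
          intro h2
          exact hiR ⟨h, Sum.inl.inj h2⟩
      have hnot : pv z0 (Sum.inl i, t i) ∉ Submodule.span ℝ (pv z0 '' SS Q) := by
        intro hmem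
        apply (hNcm i hiN).2
        intro j hj j' hj'
        have h2 := fresh hz0 hgen i (t i) hti (SS Q) (by
          rintro x (⟨j, -, j', -, -, rfl⟩ | ⟨i', hi', rfl⟩)
          · exact ⟨Sum.inr_ne_inl, Sum.inr_ne_inl⟩
          · refine ⟨fun h => hi ?_, fun h => ?_⟩
            · have h3 : i' = i := Sum.inl.inj h
              rw [← h3]
              exact hi'
            · have hi'N := (mem_filter.1 (hQP hi')).1
              rcases (ht i' hi'N).2 with ⟨j, -, hj⟩ | ⟨h3, hh⟩
              · change t i' = _ at h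
                rw [hj] at h
                exact Sum.inr_ne_inl h
              · change t i' = _ at h
                rw [hh] at h
                have h4 : rep _ h3 = i := Sum.inl.inj h
                have h5 : wr z0 b (Sum.inl i) = wr z0 b (Sum.inl i') := by
                  rw [← h4]
                  exact hrepw _ h3
                have h6 : wr z0 b (Sum.inl i) ∈ Λ := by
                  rw [h5]
                  exact h3
                exact hiR ⟨h6, (hcong _ _ h6 h3 h5).trans h4⟩) hmem j j' hj hj'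
        have h3 := hkill Q hQP _ h2
        rw [map_sub, ← vz_inr z0 j, ← vz_inr z0 j', wf_vz hz0, wf_vz hz0] at h3
        simp only [wr, Sum.elim_inr] at h3
        linarith
      have hsub : SS Q ⊆ SS (insert i Q) := by
        refine Set.union_subset_union_right _ (Set.image_mono ?_)
        exact_mod_cast subset_insert i Q
      have hlt : Submodule.span ℝ (pv z0 '' SS Q) < Submodule.span ℝ (pv z0 '' SS (insert i Q)) := by
        refine lt_of_le_of_ne (Submodule.span_mono (Set.image_mono hsub)) fun h => hnot ?_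
        rw [h]
        refine Submodule.subset_span ⟨_, Or.inr ⟨i, ?_, rfl⟩, rfl⟩
        exact_mod_cast mem_insert_self i Q
      have h2 := Submodule.finrank_lt_finrank_of_lt hlt
      rw [card_insert_of_notMem hi]
      omega
  have h1 := hstep P (Subset.refl _)
  -- the upper bound
  have hup : Module.finrank ℝ (Submodule.span ℝ (pv z0 '' SS P)) + 2 ≤ J.card := by
    let Uf : Submodule ℝ (Fin n → ℝ) := Submodule.span ℝ
      (((J.erase j0).image fun j => (ev j - ev j0 : Fin n → ℝ) : Finset (Fin n → ℝ)) :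
        Set (Fin n → ℝ))
    have hUf : ∀ j ∈ J, (ev j - ev j0 : Fin n → ℝ) ∈ Uf := by
      intro j hj
      by_cases h : j = j0
      · rw [h, sub_self]
        exact Submodule.zero_mem _
      · refine Submodule.subset_span ?_
        rw [coe_image]
        exact ⟨j, mem_coe.2 (mem_erase.2 ⟨h, hj⟩), rfl⟩
    have hUf2 : Module.finrank ℝ Uf + 1 ≤ J.card := by
      have h2 := finrank_span_finset_le_card (R := ℝ)
        ((J.erase j0).image fun j => (ev j - ev j0 : Fin n → ℝ))
      have h3 := card_image_le (s := J.erase j0) (f := fun j => (ev j - ev j0 : Fin n → ℝ))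
      have h4 := card_erase_add_one hj0
      have h5 : Module.finrank ℝ Uf ≤
        ((J.erase j0).image fun j => (ev j - ev j0 : Fin n → ℝ)).card := h2
      omega
    have hterm : ∀ i, I i ⊆ J → vz z0 (Sum.inl i) - ev j0 ∈ Uf := by
      intro i hi
      rw [vz_sum hz0]
      refine Submodule.sum_mem _ fun j _ => ?_
      by_cases hj : j ∈ I i
      · exact Submodule.smul_mem _ _ (hUf j (hi hj))
      · rw [(hz0 i).1 j hj, zero_smul]
        exact Submodule.zero_mem _
    have hle : Submodule.span ℝ (pv z0 '' SS P) ≤ Uf := by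
      rw [Submodule.span_le]
      rintro _ ⟨y, (⟨j, hj, j', hj', hjj, rfl⟩ | ⟨i, hi, rfl⟩), rfl⟩
      · have h2 := Submodule.sub_mem _ (hUf j hj) (hUf j' hj')
        rw [sub_sub_sub_cancel_right] at h2
        exact h2
      · have hiN := (mem_filter.1 (mem_coe.1 hi)).1
        have h2 : vz z0 (t i) - ev j0 ∈ Uf := by
          rcases (ht i hiN).2 with ⟨j, hj, hjt⟩ | ⟨h3, hh⟩
          · rw [hjt, vz_inr]
            exact hUf j hj
          · rw [hh]
            exact hterm _ (hNcm _ (hrep _ h3)).1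
        have h3 := Submodule.sub_mem _ (hterm i (hNcm i hiN).1) h2
        rw [sub_sub_sub_cancel_right] at h3
        exact h3
    have hlt : Submodule.span ℝ (pv z0 '' SS P) < Uf := by
      refine lt_of_le_of_ne hle fun h => hj01 ?_
      have h2 := hUf j1 hj1
      rw [← h] at h2
      have h3 := hkill P (Subset.refl _) _ h2
      rw [map_sub, ← vz_inr z0 j1, ← vz_inr z0 j0, wf_vz hz0, wf_vz hz0] at h3
      simp only [wr, Sum.elim_inr] at h3
      linarith
    have h2 := Submodule.finrank_lt_finrank_of_lt hlt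
    omega
  -- the lower bound
  have hlow : J.card ≤ Module.finrank ℝ (Submodule.span ℝ (pv z0 '' Cls)) + (J.image b).card := by
    have hv : ∀ v ∈ J.image b, ∃ j ∈ J, b j = v := fun v hv => mem_image.1 hv
    let jv : ℝ → Fin (n + 1) := fun v => if h : v ∈ J.image b then (hv v h).choose else j0
    have hjv : ∀ v ∈ J.image b, jv v ∈ J ∧ b (jv v) = v := by
      intro v h
      have h2 : jv v = (hv v h).choose := dif_pos h
      rw [h2]
      exact (hv v h).choose_spec
    let G : Finset (Fin n → ℝ) := ((J.image b).erase (b j0)).image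
      (fun v => (ev (jv v) - ev j0 : Fin n → ℝ)) ∪ Jᶜ.image fun j => (ev j - ev j0 : Fin n → ℝ)
    have hcls : ∀ j ∈ J, ∀ j' ∈ J, b j = b j' →
        (ev j - ev j' : Fin n → ℝ) ∈ Submodule.span ℝ (pv z0 '' Cls) := fun j hj j' hj' h =>
      Submodule.subset_span ⟨(Sum.inr j, Sum.inr j'), ⟨j, hj, j', hj', h, rfl⟩, rfl⟩
    have hall : ∀ j, (ev j - ev j0 : Fin n → ℝ) ∈
        Submodule.span ℝ (pv z0 '' Cls) ⊔ Submodule.span ℝ (G : Set (Fin n → ℝ)) := by
      intro j
      by_cases hj : j ∈ J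
      · have hm : b j ∈ J.image b := mem_image_of_mem _ hj
        obtain ⟨h2, h3⟩ := hjv _ hm
        have h4 : (ev j - ev j0 : Fin n → ℝ) = (ev j - ev (jv (b j))) + (ev (jv (b j)) - ev j0) := by
          abel
        rw [h4]
        refine Submodule.add_mem _ (Submodule.mem_sup_left (hcls _ hj _ h2 h3.symm)) ?_
        by_cases h5 : b j = b j0
        · exact Submodule.mem_sup_left (hcls _ h2 _ hj0 (h3.trans h5))
        · refine Submodule.mem_sup_right (Submodule.subset_span ?_)
          exact mem_coe.2 (mem_union_left _ (mem_image.2 ⟨b j, mem_erase.2 ⟨h5, hm⟩, rfl⟩))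
      · refine Submodule.mem_sup_right (Submodule.subset_span ?_)
        exact mem_coe.2 (mem_union_right _ (mem_image.2 ⟨j, mem_compl.2 hj, rfl⟩))
    have htop : Submodule.span ℝ (pv z0 '' Cls) ⊔ Submodule.span ℝ (G : Set (Fin n → ℝ)) = ⊤ := by
      rw [eq_top_iff, ← ev_span, Submodule.span_le]
      rintro x ⟨j, j', rfl⟩
      have h2 := Submodule.sub_mem _ (hall j) (hall j')
      rwa [sub_sub_sub_cancel_right] at h2
    have h2 := Submodule.finrank_add_le_finrank_add_finrank
      (Submodule.span ℝ (pv z0 '' Cls)) (Submodule.span ℝ (G : Set (Fin n → ℝ)))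
    rw [htop, finrank_top, Module.finrank_fin_fun] at h2
    have h3 : Module.finrank ℝ (Submodule.span ℝ (G : Set (Fin n → ℝ))) ≤ G.card :=
      finrank_span_finset_le_card (R := ℝ) G
    have h4 : G.card ≤ ((J.image b).erase (b j0)).card + Jᶜ.card :=
      (card_union_le _ _).trans (Nat.add_le_add card_image_le card_image_le)
    have h5 := card_erase_add_one (mem_image_of_mem b hj0)
    have h6 := card_compl_add_card J
    rw [Fintype.card_fin] at h6
    omega
  omega

open Classical in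
/-- the terms in the variables `J` -/
noncomputable def tms (I : Fin s → Finset (Fin (n + 1))) (J : Finset (Fin (n + 1))) :
    Finset (Fin s ⊕ Fin (n + 1)) :=
  univ.filter fun p => Sum.elim (fun i => I i ⊆ J) (fun j => j ∈ J) p

open Classical in
/-- **The classes have few elements.** -/
theorem few_levels (hI : ∀ i, (I i).Nonempty) (hz0 : Adm I z0)
    (hgen : ∀ p q : Fin n → Fin s ⊕ Fin (n + 1),
      (∃ z, Adm I z ∧ (dz p q z).det ≠ 0) → (dz p q z0).det ≠ 0)
    (b : Fin (n + 1) → ℝ) (J : Finset (Fin (n + 1))) (hJ : ∃ j ∈ J, ∃ j' ∈ J, b j ≠ b j') {m : ℕ}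
    (hlev : ∀ p ∈ tms I J, m + 1 ≤ ((tms I J).filter fun p' => wr z0 b p' = wr z0 b p).card) :
    m * ((crs I J b).card + 2) + 2 ≤ ∑ v ∈ J.image b,
      min (m + 1) ((J.filter fun j => b j = v).card + (cns I J b v).card) := by
  have h0 := cross_le hz0 hgen b J hJ
  set Nc := crs I J b with hNc
  set Λ := (Nc.image fun i => wr z0 b (Sum.inl i)) \ J.image b with hΛ
  let x : ℝ → ℕ := fun v => (Nc.filter fun i => wr z0 b (Sum.inl i) = v).card
  have hsum1 : ∀ i, ∑ j ∈ I i, z0 i j = 1 := by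
    intro i
    rw [← (hz0 i).2]
    exact sum_subset (subset_univ _) fun j _ hj => (hz0 i).1 j hj
  have hconst : ∀ (i : Fin s) (v : ℝ), (∀ j ∈ I i, b j = v) → wr z0 b (Sum.inl i) = v := by
    intro i v h
    change ∑ j, z0 i j * b j = v
    rw [← sum_subset (subset_univ (I i)) fun j _ hj => by rw [(hz0 i).1 j hj, zero_mul],
      sum_congr rfl fun j hj => by rw [h j hj], ← sum_mul, hsum1, one_mul]
  -- the split of the terms
  have hsplit : ∀ v, ((tms I J).filter fun p => wr z0 b p = v) ⊆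
      ((J.filter fun j => b j = v).image Sum.inr ∪ (cns I J b v).image Sum.inl) ∪
        (Nc.filter fun i => wr z0 b (Sum.inl i) = v).image Sum.inl := by
    rintro v (i | j) hp
    · obtain ⟨h1, h2⟩ := mem_filter.1 hp
      have h3 : I i ⊆ J := (mem_filter.1 h1).2
      by_cases h4 : ∀ j ∈ I i, ∀ j' ∈ I i, b j = b j'
      · obtain ⟨j1, hj1⟩ := hI i
        have h5 := hconst i (b j1) fun j hj => h4 j hj j1 hj1
        refine mem_union_left _ (mem_union_right _ (mem_image_of_mem _ ?_))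
        refine mem_filter.2 ⟨mem_univ _, h3, fun j hj => ?_⟩
        rw [h4 j hj j1 hj1, ← h5]
        exact h2
      · exact mem_union_right _ (mem_image_of_mem _ (mem_filter.2
          ⟨mem_filter.2 ⟨mem_univ _, h3, h4⟩, h2⟩))
    · obtain ⟨h1, h2⟩ := mem_filter.1 hp
      have h3 : j ∈ J := (mem_filter.1 h1).2
      exact mem_union_left _ (mem_union_left _ (mem_image_of_mem _ (mem_filter.2 ⟨h3, h2⟩)))
  have hcard : ∀ v, ((tms I J).filter fun p => wr z0 b p = v).card ≤
      ((J.filter fun j => b j = v).card + (cns I J b v).card) + x v := by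
    intro v
    refine (card_le_card (hsplit v)).trans ((card_union_le _ _).trans ?_)
    refine Nat.add_le_add ((card_union_le _ _).trans ?_) card_image_le
    exact Nat.add_le_add card_image_le card_image_le
  -- the classes of the powers
  have h1 : ∀ v ∈ J.image b, m + 1 ≤
      min (m + 1) ((J.filter fun j => b j = v).card + (cns I J b v).card) + x v := by
    intro v hv
    obtain ⟨j, hj, rfl⟩ := mem_image.1 hv
    have h2 := (hlev (Sum.inr j) (mem_filter.2 ⟨mem_univ _, hj⟩)).trans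
      (hcard (wr z0 b (Sum.inr j)))
    have h3 : wr z0 b (Sum.inr j) = b j := rfl
    rw [h3] at h2
    rcases le_total (m + 1) ((J.filter fun j' => b j' = b j).card + (cns I J b (b j)).card)
      with h4 | h4
    · rw [min_eq_left h4]
      omega
    · rw [min_eq_right h4]
      omega
  -- the other classes
  have h2 : ∀ v ∈ Λ, m + 1 ≤ x v := by
    intro v hv
    obtain ⟨h3, h4⟩ := mem_sdiff.1 hv
    obtain ⟨i, hi, rfl⟩ := mem_image.1 h3
    have h5 : I i ⊆ J := (mem_filter.1 hi).2.1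
    refine (hlev (Sum.inl i) (mem_filter.2 ⟨mem_univ _, h5⟩)).trans ((hcard _).trans ?_)
    have h6 : (J.filter fun j => b j = wr z0 b (Sum.inl i)).card = 0 := by
      rw [card_eq_zero, filter_eq_empty_iff]
      intro j hj h7
      exact h4 (mem_image.2 ⟨j, hj, h7⟩)
    have h7 : (cns I J b (wr z0 b (Sum.inl i))).card = 0 := by
      rw [card_eq_zero, cns, filter_eq_empty_iff]
      rintro i' - ⟨h8, h9⟩
      obtain ⟨j, hj⟩ := hI i'
      exact h4 (mem_image.2 ⟨j, h8 hj, h9 j hj⟩)
    rw [h6, h7, add_zero, zero_add]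
  -- the sum
  have h3 : ∑ v ∈ J.image b, x v + ∑ v ∈ Λ, x v ≤ Nc.card := by
    rw [← sum_union (disjoint_sdiff)]
    have h4 : ∑ v ∈ J.image b ∪ Λ, x v =
        ((J.image b ∪ Λ).biUnion fun v => Nc.filter fun i => wr z0 b (Sum.inl i) = v).card := by
      rw [card_biUnion]
      intro v _ v' _ hvv
      change Disjoint (Nc.filter fun i => wr z0 b (Sum.inl i) = v)
        (Nc.filter fun i => wr z0 b (Sum.inl i) = v')
      rw [disjoint_left]
      intro i h5 h6
      exact hvv ((mem_filter.1 h5).2.symm.trans (mem_filter.1 h6).2)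
    rw [h4]
    exact card_le_card (biUnion_subset.2 fun v _ => filter_subset _ _)
  have h4 := sum_le_sum h1
  rw [sum_const, smul_eq_mul, sum_add_distrib] at h4
  have h5 := sum_le_sum h2
  rw [sum_const, smul_eq_mul] at h5
  have h6 := Nat.mul_le_mul_right (m + 1) h0
  generalize ∑ v ∈ J.image b,
      min (m + 1) ((J.filter fun j => b j = v).card + (cns I J b v).card) = y1 at h4 ⊢
  generalize ∑ v ∈ J.image b, x v = y2 at h3 h4
  generalize ∑ v ∈ Λ, x v = y3 at h3 h5
  nlinarith

end count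

end Pool.Agent.R869.Wd
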