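import Pool.Agent.R869.WTop

/-!
The special sets of varieties given by wide systems of forms.
-/

set_option autoImplicit false

namespace Pool.Agent.R869.Wd

open FF IntermediateField MvPolynomial Filter Metric Topology Pool.Agent.H159R3.GGLLog
  Pool.Agent.W602.GT Pool.Agent.W603.BP Pool.Agent.R869

variable {n : ℕ} {ι : Type} {U : Set (Fin (n + 1))}

/-- **Subvarieties which are not of log general type are covered by orbits.** -/
theorem closure_orbits {k : Type} [Field k] [CharZero k] [IsAlgClosed k]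
    {F : ι → MvPolynomial (Fin (n + 1)) k} {s N : ℕ} (hC : Sys U F s N)
    {K : Type} [Field K] [Algebra k K] {w : ℕ} (hw : 0 < w) {y : Fin (n + 1) → K}
    (hy : SubVarU U F K w y) (hgt : ¬ LogGeneralType k K w (OffU U y))
    {G : MvPolynomial (Fin (n + 1)) k} (hG : val y G ≠ 0) :
    ∃ x b, DiagCurve U F x b ∧ val x G ≠ 0 := by
  classical
  have hgen : Algebra.IsAlgebraic (coords k y) K := by
    rw [hy.gen]
    infer_instance
  obtain ⟨b, i, i', hi, hi', hb, hwc⟩ := weights hC.form hC.pos hC.card hC.wide hC.num hw hy.dim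
    hy.ne hgen hy.mem hy.unit hgt
  let H : MvPolynomial (Fin (n + 1)) k := G * (MvPolynomial.X i * MvPolynomial.X i') *
    ∏ j ∈ Finset.univ.filter (fun j => j ∈ U), MvPolynomial.X j
  have hH : MvPolynomial.aeval y H ≠ 0 := by
    simp only [H, map_mul, map_prod, MvPolynomial.aeval_X]
    refine mul_ne_zero (mul_ne_zero hG (mul_ne_zero hi hi')) ?_
    exact Finset.prod_ne_zero_iff.2 fun j hj => hy.unit j (Finset.mem_filter.1 hj).2
  obtain ⟨x, hx, hx0⟩ := specialise y H hH
  simp only [H, map_mul, map_prod, MvPolynomial.aeval_X] at hx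
  have h1 := left_ne_zero_of_mul hx
  have h2 := right_ne_zero_of_mul hx
  have h3 := right_ne_zero_of_mul h1
  refine ⟨x, b, diag_of_wc (fun j hj => ?_) (fun e v => hx0 _ (hwc e v))
    ⟨i, i', left_ne_zero_of_mul h3, right_ne_zero_of_mul h3, hb⟩, left_ne_zero_of_mul h1⟩
  exact Finset.prod_ne_zero_iff.1 h2 j (Finset.mem_filter.2 ⟨Finset.mem_univ _, hj⟩)

/-- The algebraic special set is the closure of the images of the multiplicative group. -/
theorem spAlg_eq {F : ι → MvPolynomial (Fin (n + 1)) ℂ} {s N : ℕ} (hC : Sys U F s N) :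
    SpAlgU U F = SpT U F := by
  ext x
  constructor
  · rintro ⟨hx, h⟩
    rw [cone_eq] at hx
    refine ⟨hx, fun G hG hT => ?_⟩
    rw [← val_eval]
    refine h G hG ?_
    intro K _ _ w y hw hy hgt
    by_contra hne
    obtain ⟨x0, b, hd, hx0⟩ := closure_orbits hC hw hy hgt hne
    apply hx0
    have h1 := hT _ (torus_of_diag hd) 1 one_ne_zero
    rw [val_eval]
    simpa using h1
  · rintro ⟨hx, h⟩
    refine ⟨by rw [cone_eq]; exact hx, fun G hG hA => ?_⟩
    rw [val_eval]
    refine h G hG ?_
    intro v hv t ht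
    by_contra hne
    have he := hv.entire
    have ht1 : MvPolynomial.eval (v (Complex.exp (Complex.log t))) G ≠ 0 := by
      rw [Complex.exp_log ht]
      exact hne
    -- the punctured curve
    obtain ⟨hp1, hp2⟩ := sin_curve he
    obtain ⟨w, hw, hwz⟩ := sin_point (Complex.log t)
    obtain ⟨b, j, l, hj, hl, hbjl, hs⟩ := pcurve hC _ hp1 hp2
    have hGn : Nz (fun w => eval (v (Complex.exp (Complex.sin w⁻¹))) G) :=
      nz_of_on (eval_an hp1.an G) (mem_disc.mp hw) (by rw [hwz]; exact ht1)
    obtain ⟨z0, hz0, hgood⟩ := good_point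
      (fun a : Fin 3 => fun w => if a = 0 then v (Complex.exp (Complex.sin w⁻¹)) j
        else if a = 1 then v (Complex.exp (Complex.sin w⁻¹)) l
        else eval (v (Complex.exp (Complex.sin w⁻¹))) G)
      (by
        intro a
        fin_cases a
        · exact hp1.an j
        · exact hp1.an l
        · exact eval_an hp1.an G)
      (by
        intro a
        fin_cases a
        · exact hj
        · exact hl
        · exact hGn)
    set x0 := v (Complex.exp (Complex.sin z0⁻¹)) with hx0
    have h0 : x0 j ≠ 0 := hgood 0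
    have h1 : x0 l ≠ 0 := hgood 1
    have hG0 : eval x0 G ≠ 0 := hgood 2
    have hx0P : x0 ∈ Pts U F := hp1.2 z0 (mem_disc.mpr hz0)
    have hd : DiagCurve U F x0 b := diag_of_wc hx0P.2.1 (fun e w => by
      rw [wc_eq]
      exact hs e w z0 hz0) ⟨j, l, h0, h1, hbjl⟩
    obtain ⟨K, _, _, y, hy, hgt, htr⟩ := orbit_subvar hC.form hd
    have h1 := hA K 1 y le_rfl hy hgt
    have h2 := htr G hG h1
    rw [val_eval] at h2
    exact hG0 h2

/-- **The generalised Green-Griffiths-Lang conjecture for wide systems.** -/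
theorem five {F : ι → MvPolynomial (Fin (n + 1)) ℂ} {s N : ℕ} (hC : Sys U F s N) :
    (SpAlgU U F = SpH U F ∧ SpP U F = SpH U F ∧ SpT U F = SpH U F) ∧
    (Finite ι → ∀ (K : Type) [Field K] [Algebra ℂ K] (w : ℕ) (y : Fin (n + 1) → K), 1 ≤ w →
      SubVarU U F K w y → GenericU U F y → Irred U F →
      [LogGeneralType ℂ K w (OffU U y), SpAlgU U F ≠ Pts U F, SpP U F ≠ Pts U F,
        SpH U F ≠ Pts U F, SpT U F ≠ Pts U F].TFAE) := by
  have h1 := special_picard hC
  have h2 := spAlg_eq hC
  have e1 : SpAlgU U F = SpH U F := by rw [h2, h1.2]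
  have e2 : SpP U F = SpH U F := h1.1
  have e3 : SpT U F = SpH U F := h1.2.symm
  refine ⟨⟨e1, e2, e3⟩, ?_⟩
  intro hfin K _ _ w y hw hy hgen hirr
  have h4 : LogGeneralType ℂ K w (OffU U y) ↔ SpH U F ≠ Pts U F := by
    constructor
    · intro hgt
      rw [← brody_iff]
      refine brody_of_picard U F (picard_of_trivial hC hirr fun b hb => ?_)
      by_contra hnt
      exact not_gt_of_action hy hgen hb hnt hgt
    · intro hne
      by_contra hgt
      apply hne
      rw [← e1]
      apply Set.Subset.antisymm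
      · intro x hx
        rw [← cone_eq]
        exact hx.1
      · intro x hx
        rw [← cone_eq] at hx
        refine ⟨hx, fun G hG hA => ?_⟩
        exact hgen G hG (hA K w y hw hy hgt) x hx
  rw [e1, e2, e3]
  tfae_have 1 ↔ 4 := h4
  tfae_have 2 ↔ 4 := Iff.rfl
  tfae_have 3 ↔ 4 := Iff.rfl
  tfae_have 5 ↔ 4 := Iff.rfl
  tfae_finish

end Pool.Agent.R869.Wd
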