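import Pool.Agent.R869.SPtd
import Pool.Agent.R869.WFive
import Pool.Agent.Y190.AN.Cg

/-!
The special sets of the varieties with almost all monomials: location.
-/

set_option autoImplicit false

open FF MvPolynomial Pool.Agent.W602.GT Pool.Agent.H159R3.GGLLog Pool.Agent.W603.BP

namespace Pool.Agent.R869.Wd

variable {n s : ℕ} {I : Fin s → Finset (Fin (n + 1))} {d : ℕ} {a : Fin s → (Fin (n + 1) →₀ ℕ)}

/-- **The special sets.** The entire curves lie in the coordinate subspaces given by the sets of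
variables on which the given sets are not well spread. -/
theorem TypI.special (h : TypI I d a) {m : ℕ} {F : Fin m → MvPolynomial (Fin (n + 1)) ℂ}
    (hFT : ∀ e, (F e).support ⊆ withPowers d a) (hF : GenCoeffs F (withPowers d a))
    {U : Set (Fin (n + 1))} {x : Fin (n + 1) → ℂ} (hx : x ∈ SpH U F) :
    ∃ J : Finset (Fin (n + 1)), ¬ Spread I m J ∧ (∀ j ∈ U, j ∈ J) ∧ ∀ j, x j ≠ 0 → j ∈ J := by
  classical
  by_contra hcon
  push Not at hcon
  have h1 : ∀ J : Finset (Fin (n + 1)), ∃ l, ((¬ Spread I m J ∧ ∀ j ∈ U, j ∈ J) → l ∉ J) ∧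
      x l ≠ 0 := by
    intro J
    by_cases hJ : ¬ Spread I m J ∧ ∀ j ∈ U, j ∈ J
    · obtain ⟨l, hl, hlJ⟩ := hcon J hJ.1 hJ.2
      exact ⟨l, fun _ => hlJ, hl⟩
    · obtain ⟨l, hl⟩ := Function.ne_iff.1 hx.1.1
      exact ⟨l, fun h' => absurd h' hJ, hl⟩
  choose l hl hxl using h1
  have h2 := hx.2 (∏ J : Finset (Fin (n + 1)), X (l J)) ⟨_, IsHomogeneous.prod _ _ _
    fun J _ => isHomogeneous_X _ _⟩ fun f hf z => by
      let J0 : Finset (Fin (n + 1)) := Finset.univ.filter fun j => ∃ z, f z j ≠ 0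
      have hJ0 : ∀ j, (∃ z, f z j ≠ 0) ↔ j ∈ J0 := fun j => by simp [J0]
      have hns : ¬ Spread I m J0 := fun hsp => h.no_entire hFT hF hJ0 hsp hf
      have hU : ∀ j ∈ U, j ∈ J0 := fun j hj => (hJ0 j).1 ⟨z, (hf.2.1 z).2.1 j hj⟩
      have h3 := hl J0 ⟨hns, hU⟩
      rw [map_prod]
      refine Finset.prod_eq_zero (Finset.mem_univ J0) ?_
      rw [eval_X]
      by_contra h4
      exact h3 ((hJ0 _).1 ⟨z, h4⟩)
  rw [map_prod, Finset.prod_eq_zero_iff] at h2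
  obtain ⟨J, -, hJ⟩ := h2
  rw [eval_X] at hJ
  exact hxl J hJ

/-- the special sets and the conditions of the conjecture -/
theorem five' {ι : Type} {U : Set (Fin (n + 1))} {F : ι → MvPolynomial (Fin (n + 1)) ℂ} {s N : ℕ}
    (hC : Sys U F s N) :
    (SpAlgU U F = SpH U F ∧ SpP U F = SpH U F ∧ SpT U F = SpH U F ∧
      Pool.Agent.Y190.AN.SpCg U F = SpH U F) ∧
    (Finite ι → ∀ (K : Type) [Field K] [Algebra ℂ K] (w : ℕ) (y : Fin (n + 1) → K), 1 ≤ w →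
      SubVarU U F K w y → GenericU U F y → Irred U F →
      [LogGeneralType ℂ K w (OffU U y), SpAlgU U F ≠ Pts U F, SpP U F ≠ Pts U F,
        SpH U F ≠ Pts U F, SpT U F ≠ Pts U F, Pool.Agent.Y190.AN.SpCg U F ≠ Pts U F].TFAE) := by
  obtain ⟨⟨h1, h2, h3⟩, h4⟩ := five hC
  refine ⟨⟨h1, h2, h3, Pool.Agent.Y190.AN.spCg_eq U F⟩, fun hfin K _ _ w y hw hy hgen hirr => ?_⟩
  have h5 := h4 hfin K w y hw hy hgen hirr
  rw [Pool.Agent.Y190.AN.spCg_eq U F]
  tfae_have 1 ↔ 2 := h5.out 0 1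
  tfae_have 2 ↔ 3 := h5.out 1 2
  tfae_have 3 ↔ 4 := h5.out 2 3
  tfae_have 4 ↔ 5 := h5.out 3 4
  tfae_have 4 ↔ 6 := Iff.rfl
  tfae_finish

end Pool.Agent.R869.Wd
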