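import Pool.Agent.R869.SDefs
import Mathlib.Tactic.Linarith

/-!
Well spread sets of variables.
-/

set_option autoImplicit false

namespace Pool.Agent.R869.Wd

open Finset

variable {n s m : ℕ} {I : Fin s → Finset (Fin (n + 1))}

theorem mem_crs {A : Type} {J : Finset (Fin (n + 1))} {c : Fin (n + 1) → A} {i : Fin s} :
    i ∈ crs I J c ↔ I i ⊆ J ∧ ¬ ∀ j ∈ I i, ∀ j' ∈ I i, c j = c j' := by
  classical
  unfold crs
  rw [mem_filter]
  exact ⟨fun h => h.2, fun h => ⟨mem_univ _, h⟩⟩

theorem mem_cns {A : Type} {J : Finset (Fin (n + 1))} {c : Fin (n + 1) → A} {v : A} {i : Fin s} :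
    i ∈ cns I J c v ↔ I i ⊆ J ∧ ∀ j ∈ I i, c j = v := by
  classical
  unfold cns
  rw [mem_filter]
  exact ⟨fun h => h.2, fun h => ⟨mem_univ _, h⟩⟩

open Classical in
/-- large sets of variables -/
theorem sum_le_card (hI : ∀ i, m + 1 ≤ (I i).card) (J : Finset (Fin (n + 1)))
    (c : Fin (n + 1) → ℤ) :
    ∑ v ∈ J.image c, min (m + 1) ((J.filter fun j => c j = v).card + (cns I J c v).card) ≤
      J.card := by
  rw [card_eq_sum_card_image c J]
  refine sum_le_sum fun v _ => ?_
  by_cases h : (cns I J c v).card = 0
  · rw [h, add_zero]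
    exact min_le_right _ _
  · obtain ⟨i, hi⟩ := card_pos.1 (Nat.pos_of_ne_zero h)
    obtain ⟨h1, h2⟩ := mem_cns.1 hi
    refine (min_le_left _ _).trans ((hI i).trans (card_le_card fun j hj => ?_))
    exact mem_filter.2 ⟨h1 hj, h2 j hj⟩

/-- few variables -/
theorem spread_small (hI : ∀ i, m + 1 ≤ (I i).card) {J : Finset (Fin (n + 1))}
    (hJ : J.card ≤ 2 * m + 1) : Spread I m J := by
  intro c _
  refine (sum_le_card hI J c).trans (hJ.trans ?_)
  have : m * 2 ≤ m * ((crs I J c).card + 2) := Nat.mul_le_mul_left _ (by omega)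
  omega

/-- all variables in all monomials -/
theorem spread_full (hI : ∀ i, I i = univ) (hn : n ≤ m * (s + 2)) : Spread I m univ := by
  classical
  intro c hc
  have h0 : ∀ v, cns I univ c v = ∅ := by
    intro v
    rw [eq_empty_iff_forall_notMem]
    intro i hi
    obtain ⟨-, h⟩ := mem_cns.1 hi
    obtain ⟨j, -, j', -, hj⟩ := hc
    refine hj ?_
    rw [h j (by rw [hI]; exact mem_univ _), h j' (by rw [hI]; exact mem_univ _)]
  have h1 : (crs I univ c).card = s := by
    have : crs I univ c = univ := by
      rw [eq_univ_iff_forall]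
      intro i
      refine mem_crs.2 ⟨subset_univ _, fun h => ?_⟩
      obtain ⟨j, -, j', -, hj⟩ := hc
      exact hj (h j (by rw [hI]; exact mem_univ _) j' (by rw [hI]; exact mem_univ _))
    rw [this, card_univ, Fintype.card_fin]
  rw [h1]
  have h2 : ∑ v ∈ (univ : Finset (Fin (n + 1))).image c,
      min (m + 1) ((univ.filter fun j => c j = v).card + (cns I univ c v).card) ≤
      ∑ v ∈ (univ : Finset (Fin (n + 1))).image c, (univ.filter fun j => c j = v).card := by
    refine sum_le_sum fun v _ => ?_
    rw [h0, card_empty, add_zero]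
    exact min_le_right _ _
  rw [← card_eq_sum_card_image c univ, card_univ, Fintype.card_fin] at h2
  refine h2.trans ?_
  omega

/-- all variables in all monomials: all sets -/
theorem spread_of_full (hI : ∀ i, I i = univ) (hn : n ≤ m * (s + 2)) :
    Spread I m univ ∧ (n ≤ 2 * m + 1 → ∀ J, Spread I m J) := by
  classical
  refine ⟨spread_full hI hn, fun hn2 J => ?_⟩
  by_cases hJ : J = Finset.univ
  · rw [hJ]
    exact spread_full hI hn
  · by_cases hm : n ≤ m
    · -- few variables
      intro c hc
      have h0 : ∀ v, cns I J c v = ∅ := by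
        intro v
        rw [Finset.eq_empty_iff_forall_notMem]
        intro i hi
        exact hJ (Finset.univ_subset_iff.1 (hI i ▸ (mem_cns.1 hi).1))
      have h2 : ∑ v ∈ J.image c, min (m + 1) ((J.filter fun j => c j = v).card +
          (cns I J c v).card) ≤ ∑ v ∈ J.image c, (J.filter fun j => c j = v).card := by
        refine Finset.sum_le_sum fun v _ => ?_
        rw [h0, Finset.card_empty, add_zero]
        exact min_le_right _ _
      rw [← Finset.card_eq_sum_card_image c J] at h2
      have h3 : J.card ≤ n + 1 := by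
        have := Finset.card_le_univ J
        rwa [Fintype.card_fin] at this
      have h4 : m * 2 ≤ m * ((crs I J c).card + 2) := Nat.mul_le_mul_left _ (by omega)
      have h5 : ∑ v ∈ J.image c, min (m + 1) ((J.filter fun j => c j = v).card +
          (cns I J c v).card) ≤ m * ((crs I J c).card + 2) + 1 := by omega
      convert h5
    · refine spread_small (fun i => ?_) ?_
      · rw [hI, Finset.card_univ, Fintype.card_fin]
        omega
      · obtain ⟨x, hx⟩ : ∃ x, x ∉ J := by
          by_contra h
          push Not at h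
          exact hJ (Finset.eq_univ_of_forall h)
        have h1 := Finset.card_lt_univ_of_notMem hx
        rw [Fintype.card_fin] at h1
        omega

/-- all sets of `2 m + 2` variables -/
theorem spread_all (hm : 1 ≤ m) (hI : ∀ i, m + 1 ≤ (I i).card)
    (hall : ∀ A : Finset (Fin (n + 1)), A.card = 2 * m + 2 → ∃ i, I i = A)
    (J : Finset (Fin (n + 1))) : Spread I m J := by
  classical
  by_cases hJ : J.card ≤ 2 * m + 1
  · exact spread_small hI hJ
  push Not at hJ
  intro c hc
  obtain ⟨j, hj, j', hj', hjj⟩ := hc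
  refine (sum_le_card hI J c).trans ?_
  -- many sets which are not monochromatic
  have hne : j ≠ j' := fun h => hjj (by rw [h])
  have hj'e : j' ∈ J.erase j := mem_erase.2 ⟨hne.symm, hj'⟩
  have hc2 : ((J.erase j).erase j').card = J.card - 2 := by
    rw [card_erase_of_mem hj'e, card_erase_of_mem hj]
    omega
  obtain ⟨K, hK, hKc⟩ := exists_subset_card_eq (s := (J.erase j).erase j') (n := 2 * m - 1)
    (by rw [hc2]; omega)
  have hjK : j ∉ K := fun h => by
    have := hK h
    simp at this
  have hj'K : j' ∉ K := fun h => by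
    have := hK h
    simp at this
  have hrest : (((J.erase j).erase j') \ K).card = J.card - 2 - (2 * m - 1) := by
    rw [card_sdiff_of_subset hK, hc2, hKc]
  have hset : ∀ x ∈ ((J.erase j).erase j') \ K,
      (insert x (insert j (insert j' K))).card = 2 * m + 2 := by
    intro x hx
    obtain ⟨h1, h2⟩ := mem_sdiff.1 hx
    have h3 := (mem_erase.1 h1).1
    have h4 := (mem_erase.1 (mem_erase.1 h1).2).1
    rw [card_insert_of_notMem, card_insert_of_notMem, card_insert_of_notMem hj'K, hKc]
    · omega
    · rw [mem_insert]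
      rintro (h | h)
      · exact hne h
      · exact hjK h
    · rw [mem_insert, mem_insert]
      rintro (h | h | h)
      · exact h4 h
      · exact h3 h
      · exact h2 h
  have hch : ∀ x : Fin (n + 1), ∃ i : Option (Fin s), x ∈ ((J.erase j).erase j') \ K →
      ∃ i', i = some i' ∧ I i' = insert x (insert j (insert j' K)) := by
    intro x
    by_cases hx : x ∈ ((J.erase j).erase j') \ K
    · obtain ⟨i, hi⟩ := hall _ (hset x hx)
      exact ⟨some i, fun _ => ⟨i, rfl, hi⟩⟩
    · exact ⟨none, fun h => absurd h hx⟩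
  choose φ hφ using hch
  have hN : (((J.erase j).erase j') \ K).card ≤ (crs I J c).card := by
    rw [← card_image_of_injective (crs I J c) (Option.some_injective _)]
    refine card_le_card_of_injOn φ (fun x hx => ?_) fun x hx x' hx' h => ?_
    · obtain ⟨i, hi, hI'⟩ := hφ x (mem_coe.1 hx)
      rw [hi, mem_coe, mem_image]
      refine ⟨i, mem_crs.2 ⟨?_, fun h => ?_⟩, rfl⟩
      · rw [hI']
        intro l hl
        rw [mem_insert, mem_insert, mem_insert] at hl
        rcases hl with rfl | rfl | rfl | hl
        · exact (mem_erase.1 (mem_erase.1 (mem_sdiff.1 (mem_coe.1 hx)).1).2).2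
        · exact hj
        · exact hj'
        · exact (mem_erase.1 (mem_erase.1 (hK hl)).2).2
      · exact hjj (h j (by rw [hI']; simp) j' (by rw [hI']; simp))
    · obtain ⟨i, hi, hI'⟩ := hφ x (mem_coe.1 hx)
      obtain ⟨i', hi', hI''⟩ := hφ x' (mem_coe.1 hx')
      rw [hi, hi'] at h
      have h1 : i = i' := Option.some.inj h
      subst h1
      rw [hI'] at hI''
      have h2 : x ∈ insert x' (insert j (insert j' K)) := by
        rw [← hI'']
        exact mem_insert_self _ _
      obtain ⟨h3, h4⟩ := mem_sdiff.1 (mem_coe.1 hx)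
      rw [mem_insert, mem_insert, mem_insert] at h2
      rcases h2 with h2 | h2 | h2 | h2
      · exact h2
      · exact absurd h2 (mem_erase.1 (mem_erase.1 h3).2).1
      · exact absurd h2 (mem_erase.1 h3).1
      · exact absurd h2 h4
  rw [hrest] at hN
  have h1 : m * (J.card - 2 - (2 * m - 1) + 2) ≤ m * ((crs I J c).card + 2) :=
    Nat.mul_le_mul_left _ (by omega)
  refine le_trans ?_ (Nat.add_le_add_right h1 1)
  obtain ⟨x, hx⟩ : ∃ x, J.card = 2 * m + 2 + x := ⟨J.card - (2 * m + 2), by omega⟩
  have h2 : J.card - 2 - (2 * m - 1) + 2 = x + 3 := by omega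
  rw [h2, hx]
  nlinarith

end Pool.Agent.R869.Wd
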