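import Pool.Agent.R869.WCpt

/-!
Irreducible components of the complex varieties given by wide systems of forms.
-/

set_option autoImplicit false

namespace Pool.Agent.R869.Wd

open FF MvPolynomial Filter Metric Topology Pool.Agent.H159R3.GGLLog
  Pool.Agent.W602.GT Pool.Agent.W603.BP Pool.Agent.R869

section

variable {k : Type} [Field k] {n : ℕ} {ι : Type}

/-- `V`, the part `x_j ≠ 0` (`j` in `U`) of the projective variety with generic point `y`, is
strongly of log general type: its closed subvarieties of positive dimension which are not contained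
in a certain hypersurface, that does not contain `V`, are of log general type. -/
def StronglyLgt (U : Set (Fin (n + 1))) (k : Type) [Field k] {K : Type} [Field K] [Algebra k K]
    (y : Fin (n + 1) → K) : Prop :=
  ∃ G : MvPolynomial (Fin (n + 1)) k, IsForm G ∧ val y G ≠ 0 ∧
    ∀ (L : Type) [Field L] [Algebra k L] (t : ℕ) (z : Fin (n + 1) → L), 1 ≤ t → z ≠ 0 →
      (∀ j ∈ U, z j ≠ 0) → coords k z = ⊤ → Algebra.trdeg k L = t →
      (∀ P : MvPolynomial (Fin (n + 1)) k, IsForm P → val y P = 0 → val z P = 0) →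
      val z G ≠ 0 → LogGeneralType k L t (OffU U z)

theorem lgt_of_strongly {U : Set (Fin (n + 1))} {F : ι → MvPolynomial (Fin (n + 1)) k}
    {K : Type} [Field K] [Algebra k K] {w : ℕ} (hw : 1 ≤ w) {y : Fin (n + 1) → K}
    (hy : SubVarU U F K w y) (h : StronglyLgt U k y) : LogGeneralType k K w (OffU U y) := by
  obtain ⟨G, -, hG, h1⟩ := h
  exact h1 K w y hw hy.ne hy.unit hy.gen hy.dim (fun _ _ h => h) hG

theorem strongly_of_lgt [IsAlgClosed k] [CharZero k] [Finite ι] {U : Set (Fin (n + 1))}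
    {F : ι → MvPolynomial (Fin (n + 1)) k} {s N : ℕ} (hC : Sys U F s N)
    {K : Type} [Field K] [Algebra k K] {w : ℕ} {y : Fin (n + 1) → K} (hy : SubVarU U F K w y)
    (hcomp : IsComponentU U F y) (hgt : LogGeneralType k K w (OffU U y)) : StronglyLgt U k y := by
  obtain ⟨G, h1, h2, h3⟩ := strong_of_lgt hC hy hcomp hgt
  exact ⟨G, h1, h2, fun L _ _ t z ht hz0 hzU hgen hdim hz hzG =>
    h3 L t z ht ⟨hz0, hzU, fun e => hz _ (hC.form e) (hy.mem e), hgen, hdim⟩ hzG⟩

end

variable {n : ℕ} {ι : Type}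

/-- `V` is pseudo-Picard hyperbolic: all holomorphic maps from the punctured disc to `V`, whose
image is not contained in a certain hypersurface that does not contain `V`, extend to holomorphic
maps from the disc to the projective compactification. -/
def PicardV (U : Set (Fin (n + 1))) {K : Type} [Field K] [Algebra ℂ K]
    (y : Fin (n + 1) → K) : Prop :=
  ∃ G : MvPolynomial (Fin (n + 1)) ℂ, IsForm G ∧ val y G ≠ 0 ∧
    ∀ f : ℂ → Fin (n + 1) → ℂ, DifferentiableOn ℂ f (ball 0 1 \ {0}) →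
      (∀ z ∈ ball (0 : ℂ) 1 \ {0}, f z ∈ PtsU U ℂ y) →
      (∃ z ∈ ball (0 : ℂ) 1 \ {0}, eval (f z) G ≠ 0) → Extends f

/-- `V` is pseudo-Brody hyperbolic: a certain hypersurface, that does not contain `V`, contains the
images of all nonconstant holomorphic maps from the complex plane to `V`. -/
def BrodyV (U : Set (Fin (n + 1))) {K : Type} [Field K] [Algebra ℂ K]
    (y : Fin (n + 1) → K) : Prop :=
  ∃ G : MvPolynomial (Fin (n + 1)) ℂ, IsForm G ∧ val y G ≠ 0 ∧
    ∀ f : ℂ → Fin (n + 1) → ℂ, Differentiable ℂ f → (∀ z, f z ∈ PtsU U ℂ y) →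
      (∃ z w, ∀ c : ℂ, f z ≠ c • f w) → ∀ z, eval (f z) G = 0

theorem pts_of_ptsU {U : Set (Fin (n + 1))} {F : ι → MvPolynomial (Fin (n + 1)) ℂ}
    (hF : ∀ e, IsForm (F e)) {K : Type} [Field K] [Algebra ℂ K] {y : Fin (n + 1) → K}
    (hy : ∀ e, val y (F e) = 0) {x : Fin (n + 1) → ℂ} (hx : x ∈ PtsU U ℂ y) : x ∈ Pts U F := by
  rw [← cone_eq]
  exact ⟨hx.1.1, hx.2, fun e => hx.1.2 _ (hF e) (hy e)⟩

theorem brodyV_of_picardV {U : Set (Fin (n + 1))} {K : Type} [Field K] [Algebra ℂ K]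
    {y : Fin (n + 1) → K} (h : PicardV U y) : BrodyV U y := by
  obtain ⟨G, h1, h2, h3⟩ := h
  refine ⟨G, h1, h2, fun f hf hfV hnc z => ?_⟩
  by_contra hz
  have hE : EntireCurve (∅ : Set (Fin (n + 1))) (fun e : Empty => e.elim) f :=
    ⟨hf, fun z => ⟨(hfV z).1.1, fun j hj => absurd hj (Set.notMem_empty j), fun e => e.elim⟩, hnc⟩
  obtain ⟨h4, h5⟩ := sin_curve hE
  obtain ⟨w, hw, hwz⟩ := sin_point z
  exact h5 (h3 _ h4.1 (fun z _ => hfV _) ⟨w, hw, by rw [hwz]; exact hz⟩)

/-- holomorphic maps from the punctured disc to `X` and components of log general type -/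
theorem picard_comp [Finite ι] {U : Set (Fin (n + 1))} {F : ι → MvPolynomial (Fin (n + 1)) ℂ}
    {s N : ℕ} (hC : Sys U F s N) {K : Type} [Field K] [Algebra ℂ K] {w : ℕ}
    {y : Fin (n + 1) → K} (hy : SubVarU U F K w y) (hcomp : IsComponentU U F y)
    (hgt : LogGeneralType ℂ K w (OffU U y)) :
    ∃ G : MvPolynomial (Fin (n + 1)) ℂ, IsForm G ∧ val y G ≠ 0 ∧
      ∀ f, PCurve U F f → (∃ z ∈ ball (0 : ℂ) 1 \ {0}, eval (f z) G ≠ 0) → Extends f := by
  have := Fintype.ofFinite ι
  obtain ⟨H, hHf, hHy, hH⟩ := hcomp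
  obtain ⟨d1, hd1⟩ := hHf
  obtain ⟨d2, hd2⟩ := excC_form hC.form y
  refine ⟨H * excC F y, ⟨_, hd1.mul hd2⟩, ?_, ?_⟩
  · rw [val_mul]
    exact mul_ne_zero hHy (excC_ne F y)
  · rintro f hf ⟨z1, hz1, hG⟩
    by_contra hE
    obtain ⟨b, i, i', hi, hi', hb, hs⟩ := pcurve hC f hf hE
    have hz1' : z1 ∈ PB 1 := mem_disc.mp hz1
    have hGn : Nz (fun w => eval (f w) (H * excC F y)) :=
      nz_of_on (eval_an hf.an _) hz1' hG
    obtain ⟨z0, hz0, hgood⟩ := good_point
      (fun a : Fin 3 => fun w => if a = 0 then f w i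
        else if a = 1 then f w i' else eval (f w) (H * excC F y))
      (by
        intro a
        fin_cases a
        · exact hf.an i
        · exact hf.an i'
        · exact eval_an hf.an _)
      (by
        intro a
        fin_cases a
        · exact hi
        · exact hi'
        · exact hGn)
    have h0 : f z0 i ≠ 0 := hgood 0
    have h1 : f z0 i' ≠ 0 := hgood 1
    have h2 : eval (f z0) (H * excC F y) ≠ 0 := hgood 2
    have hx : f z0 ∈ ConeU U F := by
      rw [cone_eq]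
      exact hf.2 z0 (mem_disc.mpr hz0)
    rw [← val_eval, val_mul] at h2
    refine comp_not_lgt hy ⟨H, ⟨d1, hd1⟩, hHy, hH⟩
      (supp_comp' hH hx.1 hx.2.1 hx.2.2 (left_ne_zero_of_mul h2) h0)
      (supp_comp' hH hx.1 hx.2.1 hx.2.2 (left_ne_zero_of_mul h2) h1) hb (fun e v => ?_) hgt
    refine excC_sub (right_ne_zero_of_mul h2) e b v ?_
    rw [wc_eq]
    exact hs e v z0 hz0

/-- a diagonal action on a component gives many entire curves -/
theorem acts_of_brodyV {U : Set (Fin (n + 1))} {K : Type} [Field K] [Algebra ℂ K]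
    {y : Fin (n + 1) → K} (hyU : ∀ j ∈ U, y j ≠ 0) (h : BrodyV U y)
    (b : Fin (n + 1) → ℤ) (hb : Acts U ℂ y b) (i i' : Fin (n + 1)) (hi : y i ≠ 0)
    (hi' : y i' ≠ 0) : b i = b i' := by
  obtain ⟨G, h1, h2, h3⟩ := h
  by_contra hne
  let R : MvPolynomial (Fin (n + 1)) ℂ := G * X i * X i' * ∏ j ∈ (Set.toFinite U).toFinset, X j
  have hR : aeval y R ≠ 0 := by
    simp only [R, map_mul, map_prod, aeval_X]
    refine mul_ne_zero (mul_ne_zero (mul_ne_zero h2 hi) hi') ?_
    exact Finset.prod_ne_zero_iff.2 fun j hj => hyU j ((Set.Finite.mem_toFinset _).1 hj)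
  obtain ⟨x, hx, hx0⟩ := specialise y R hR
  simp only [R, map_mul, map_prod, aeval_X] at hx
  have h4 := left_ne_zero_of_mul hx
  have h5 := left_ne_zero_of_mul h4
  have hxi : x i ≠ 0 := right_ne_zero_of_mul h5
  have hxi' : x i' ≠ 0 := right_ne_zero_of_mul h4
  have hxG : aeval x G ≠ 0 := left_ne_zero_of_mul h5
  have hxV : x ∈ PtsU U ℂ y := by
    refine ⟨⟨fun h0' => hxi (congrFun h0' i), fun G' _ h' => hx0 _ h'⟩, fun j hj => ?_⟩
    exact Finset.prod_ne_zero_iff.1 (right_ne_zero_of_mul hx) j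
      ((Set.Finite.mem_toFinset _).2 hj)
  have h6 := h3 (fun z j => Complex.exp z ^ b j * x j) (by
    rw [differentiable_pi]
    intro j
    exact ((Complex.differentiable_exp.zpow (Or.inl fun z => Complex.exp_ne_zero z))).mul_const _)
    (fun z => hb _ (Complex.exp_ne_zero z) x hxV) ⟨Complex.log 2, 0, fun c hc => ?_⟩ 0
  · apply hxG
    have h7 : (fun j => Complex.exp 0 ^ b j * x j) = x := by
      funext j
      rw [Complex.exp_zero, one_zpow, one_mul]
    rw [h7] at h6
    rw [← val_eval] at h6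
    exact h6
  · have h8 : ∀ l, x l ≠ 0 → (2 : ℂ) ^ b l = c := by
      intro l hl
      have h9 := congrFun hc l
      simp only [Pi.smul_apply, smul_eq_mul, Complex.exp_zero, one_zpow, one_mul] at h9
      rw [Complex.exp_log two_ne_zero] at h9
      exact mul_right_cancel₀ hl h9
    exact hne (two_pow_inj ((h8 i hxi).trans (h8 i' hxi').symm))

/-- **The generalised Green-Griffiths-Lang conjecture for the components of wide systems.** -/
theorem four_comp [Finite ι] {U : Set (Fin (n + 1))} {F : ι → MvPolynomial (Fin (n + 1)) ℂ}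
    {s N : ℕ} (hC : Sys U F s N) {K : Type} [Field K] [Algebra ℂ K] {w : ℕ} (hw : 1 ≤ w)
    {y : Fin (n + 1) → K} (hy : SubVarU U F K w y) (hcomp : IsComponentU U F y) :
    [LogGeneralType ℂ K w (OffU U y), PicardV U y, BrodyV U y, StronglyLgt U ℂ y,
      ∀ b : Fin (n + 1) → ℤ, Acts U ℂ y b → ∀ i i', y i ≠ 0 → y i' ≠ 0 → b i = b i'].TFAE := by
  tfae_have 1 → 2 := by
    intro h
    obtain ⟨G, h1, h2, h3⟩ := picard_comp hC hy hcomp h
    exact ⟨G, h1, h2, fun f hf hfV hz =>
      h3 f ⟨hf, fun z hz' => pts_of_ptsU hC.form hy.mem (hfV z hz')⟩ hz⟩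
  tfae_have 2 → 3 := brodyV_of_picardV
  tfae_have 3 → 5 := fun h b hb i i' hi hi' => acts_of_brodyV hy.unit h b hb i i' hi hi'
  tfae_have 5 → 1 := (lgt_iff_acts hC hw hy hcomp).2
  tfae_have 1 → 4 := strongly_of_lgt hC hy hcomp
  tfae_have 4 → 1 := lgt_of_strongly hw hy
  tfae_finish

end Pool.Agent.R869.Wd
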