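import Pool.Agent.R869.WGen

/-!
Projective varieties given by wide systems of forms: algebraic notions of hyperbolicity.
-/

set_option autoImplicit false

open FF MvPolynomial Pool.Agent.W603.LV Pool.Agent.W603.PV Pool.Agent.W602.GT
open Pool.Agent.W603.CX (AlgHyperbolic BoundedOnCurves OrbitsConstant IsMap HasOrbit)

namespace Pool.Agent.R869.Wd

/-- the height bound for the points without vanishing parts -/
def HgtBound {k : Type} [Field k] {n : ℕ} {ι : Type} (U : Set (Fin (n + 1)))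
    (F : ι → MvPolynomial (Fin (n + 1)) k) (A : ℕ) : Prop :=
  ∀ (K : Type) [Field K] [Algebra k K] [IsFF k K] (S : Finset (Place k K))
    (f : Fin (n + 1) → K), IsMap U F S f →
    (¬ ∃ (b : Fin (n + 1) → ℤ) (i i' : Fin (n + 1)), f i ≠ 0 ∧ f i' ≠ 0 ∧ b i ≠ b i' ∧
      ∀ e v, val f (wc b v (F e)) = 0) → pht k f ≤ A * max (canDeg k K + S.card) 0

/-- Typical tuples of exponent vectors. -/
structure Typ {n s : ℕ} (d : ℕ) (a : Fin s → (Fin (n + 1) →₀ ℕ)) : Prop where
  mem : a ∈ Tuples n s d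
  good : ∃ s' N, Good (withPowers d a) s' N
  pos : 0 < d
  coord : ∀ i j, a i j ≠ 0
  gen : ∀ p q : Fin n → Fin s ⊕ Fin (n + 1), (∃ z, (dm p q z).det ≠ 0) →
    (dm p q (scl d a)).det ≠ 0

theorem almost_typ {n s : ℕ} {P : ℕ → (Fin s → (Fin (n + 1) →₀ ℕ)) → Prop}
    (h : ∀ d a, Typ d a → P d a) : AlmostAll n s P := by
  refine (almost_generic n s ((s + (n + 1)) *
    (n * Pool.Agent.R869.tri (s + (n + 1) - 1)) + 1)).mono
    (d1 := 0) fun d a _ ha hw => h d a ⟨ha, ⟨s + (n + 1),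
      (s + (n + 1)) * (n * Pool.Agent.R869.tri (s + (n + 1) - 1)) + 1, ?_⟩, hw.2.1, hw.2.2.1,
      hw.2.2.2⟩
  exact { deg := ⟨d, deg_withPowers ha⟩
          pos := by omega
          card := card_withPowers d a
          wide := hw.1
          num := Nat.lt_succ_self _ }

section

variable {k : Type} [Field k] [IsAlgClosed k] [CharZero k] {n : ℕ} {ι : Type}
  {F : ι → MvPolynomial (Fin (n + 1)) k}

omit [IsAlgClosed k] [CharZero k] in
theorem isMap_empty {K : Type} [Field K] [Algebra k K] (S : Finset (Place k K))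
    {f : Fin (n + 1) → K} (h0 : ∃ j, f j ≠ 0) (h1 : ∀ i, aeval f (F i) = 0) :
    IsMap (∅ : Set (Fin (n + 1))) F S f :=
  ⟨h0, h1, fun j hj => absurd hj (Set.notMem_empty j)⟩

/-- **Algebraic notions of hyperbolicity.** -/
theorem six {s N : ℕ} (hC : Sys ∅ F s N) {A : ℕ} (hA : HgtBound ∅ F A) :
    [AlgHyperbolic A F, ∃ A', AlgHyperbolic A' F, BoundedOnCurves F, OrbitsConstant F,
      ∀ P, ¬ GmCurve F P, AllGeneralType F].TFAE := by
  have hgm := gm_iff hC
  tfae_have 1 → 2 := fun h => ⟨A, h⟩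
  tfae_have 2 → 3 := fun ⟨A', h⟩ K _ _ _ => ⟨_, fun f h0 h1 => h K f h0 h1⟩
  tfae_have 3 → 4 := by
    intro h
    rw [orbits_const_iff]
    intro ho
    obtain ⟨B, hB⟩ := h (RatFunc k)
    obtain ⟨f, hf, hlt⟩ := Pool.Agent.W603.CX.unbounded_orbit ho B
    exact absurd (hB f hf.1 hf.2.1) (not_le.2 hlt)
  tfae_have 4 → 1 := by
    intro h K _ _ _ f h0 h1
    have h2 := hA K ∅ f (isMap_empty ∅ h0 h1)
      (no_parts (orbits_const_iff.1 h) fun j hj => absurd hj (Set.notMem_empty j))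
    simpa using h2
  tfae_have 4 ↔ 5 := hgm.out 2 1
  tfae_have 4 ↔ 6 := hgm.out 2 0
  tfae_finish

end

section typical

variable {n s d : ℕ} {a : Fin s → (Fin (n + 1) →₀ ℕ)}

theorem Typ.torus (h : Typ d a) {k : Type} [Field k] {K : Type} [Field K] [Algebra k K] {m : ℕ}
    (hns : n ≤ m * (s + 2)) {F : Fin m → MvPolynomial (Fin (n + 1)) k}
    (hFT : ∀ e, (F e).support ⊆ withPowers d a) (hF : GenCoeffs F (withPowers d a))
    {y : Fin (n + 1) → K} (hy : ∀ j, y j ≠ 0) :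
    ¬ ∃ (b : Fin (n + 1) → ℤ) (i i' : Fin (n + 1)), y i ≠ 0 ∧ y i' ≠ 0 ∧ b i ≠ b i' ∧
      ∀ e v, val y (wc b v (F e)) = 0 := by
  rintro ⟨b, i, i', -, -, hb, hwc⟩
  exact hb (no_orbit_torus h.pos h.mem hns h.gen hFT hF hy hwc i i')

theorem Typ.small (h : Typ d a) {k : Type} [Field k] {K : Type} [Field K] [Algebra k K] {m : ℕ}
    (hns : n ≤ m * (s + 2)) (hn : n ≤ 2 * m + 1) {F : Fin m → MvPolynomial (Fin (n + 1)) k}
    (hFT : ∀ e, (F e).support ⊆ withPowers d a) (hF : GenCoeffs F (withPowers d a))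
    {y : Fin (n + 1) → K} :
    ¬ ∃ (b : Fin (n + 1) → ℤ) (i i' : Fin (n + 1)), y i ≠ 0 ∧ y i' ≠ 0 ∧ b i ≠ b i' ∧
      ∀ e v, val y (wc b v (F e)) = 0 := by
  rintro ⟨b, i, i', hi, hi', hb, hwc⟩
  exact hb (no_orbit_small h.pos h.mem hns hn h.coord h.gen hFT hF hwc hi hi')

/-- subvarieties of typical complete intersections which are not contained in the coordinate
hyperplanes are of log general type -/
theorem Typ.lgt (h : Typ d a) {k : Type} [Field k] [IsAlgClosed k] [CharZero k] {K : Type}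
    [Field K] [Algebra k K] {m : ℕ}
    (hns : n ≤ m * (s + 2)) {F : Fin m → MvPolynomial (Fin (n + 1)) k}
    (hFT : ∀ e, (F e).support ⊆ withPowers d a) (hF : GenCoeffs F (withPowers d a))
    {U : Set (Fin (n + 1))} {w : ℕ} (hw : 1 ≤ w)
    {y : Fin (n + 1) → K} (hy : SubVarU U F K w y)
    (hy0 : n ≤ 2 * m + 1 ∨ ∀ j, y j ≠ 0) : LogGeneralType k K w (OffU U y) := by
  by_contra hgt
  obtain ⟨s', N, hg⟩ := h.good
  have hC := hg.sys hFT U
  have hgen : Algebra.IsAlgebraic (coords k y) K := by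
    rw [hy.gen]
    infer_instance
  have h1 := weights hC.form hC.pos hC.card hC.wide hC.num hw hy.dim hy.ne hgen hy.mem hy.unit hgt
  rcases hy0 with hn | hy0
  · exact h.small hns hn hFT hF h1
  · exact h.torus hns hFT hF hy0 h1

/-- all closed subvarieties of typical complete intersections of small dimension are of general
type -/
theorem Typ.all (h : Typ d a) {k : Type} [Field k] [IsAlgClosed k] [CharZero k] {m : ℕ}
    (hns : n ≤ m * (s + 2)) (hn : n ≤ 2 * m + 1) {F : Fin m → MvPolynomial (Fin (n + 1)) k}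
    (hFT : ∀ e, (F e).support ⊆ withPowers d a) (hF : GenCoeffs F (withPowers d a)) :
    AllGeneralType F := fun _ _ _ _ y hw hy =>
  (general_iff y).1 (h.lgt hns hFT hF hw (subVar_iff.2 hy) (Or.inl hn))

end typical

end Pool.Agent.R869.Wd
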