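import Pool.Agent.R869.SGen
import Pool.Agent.R869.SSpread
import Pool.Agent.R869.WSix
import Pool.Agent.R869.WCptC

/-!
Hypersurfaces and complete intersections with the monomials `x_j ^ d` and almost all further
monomials with given sets of variables: orbits, curves, subvarieties.
-/

set_option autoImplicit false

open FF MvPolynomial Pool.Agent.W603.LV Pool.Agent.W603.PV
open Pool.Agent.W602.GT
open Pool.Agent.W603.CX (AlgHyperbolic IsMap)

namespace Pool.Agent.R869.Wd

/-- Typical tuples of exponent vectors with given sets of variables. -/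
structure TypI {n s : ℕ} (I : Fin s → Finset (Fin (n + 1))) (d : ℕ)
    (a : Fin s → (Fin (n + 1) →₀ ℕ)) : Prop where
  ne : ∀ i, (I i).Nonempty
  mem : a ∈ TuplesIn I d
  good : ∃ s' N, Good (withPowers d a) s' N
  pos : 0 < d
  coord : ∀ i, ∀ j ∈ I i, a i j ≠ 0
  gen : ∀ p q : Fin n → Fin s ⊕ Fin (n + 1), (∃ z, Adm I z ∧ (dz p q z).det ≠ 0) →
    (dz p q (sclI d a)).det ≠ 0

variable {n s : ℕ} {I : Fin s → Finset (Fin (n + 1))}

theorem almost_typI (hI : ∀ i, (I i).Nonempty) {P : ℕ → (Fin s → (Fin (n + 1) →₀ ℕ)) → Prop}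
    (h : ∀ d a, TypI I d a → P d a) : AlmostAllIn I P := by
  refine (almost_genericI I hI ((s + (n + 1)) *
    (n * Pool.Agent.R869.tri (s + (n + 1) - 1)) + 1)).mono
    fun d a ha hw => h d a ⟨hI, ha, ⟨s + (n + 1),
      (s + (n + 1)) * (n * Pool.Agent.R869.tri (s + (n + 1) - 1)) + 1, ?_⟩, hw.2.1, hw.2.2.1,
      hw.2.2.2⟩
  exact { deg := ⟨d, deg_withPowers fun i => (ha i).2⟩
          pos := by omega
          card := card_withPowers d a
          wide := hw.1
          num := Nat.lt_succ_self _ }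

variable {d : ℕ} {a : Fin s → (Fin (n + 1) →₀ ℕ)}

theorem wgt_wr (hd : 0 < d) (b : Fin (n + 1) → ℤ) (p : Fin s ⊕ Fin (n + 1)) :
    ((wgt b (expo d a p) : ℤ) : ℝ) = d * wr (sclI d a) (fun j => (b j : ℝ)) p := by
  have hd' : (d : ℝ) ≠ 0 := by exact_mod_cast hd.ne'
  unfold wgt
  rcases p with i | l
  · simp only [expo, wr, Sum.elim_inl, sclI]
    push_cast
    rw [Finset.mul_sum]
    refine Finset.sum_congr rfl fun j _ => ?_
    field_simp
  · simp only [expo, wr, Sum.elim_inr]
    push_cast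
    rw [Finset.sum_eq_single l]
    · simp
    · intro j _ hj
      rw [Finsupp.single_eq_of_ne hj]
      simp
    · exact fun h => absurd (Finset.mem_univ l) h

/-- **No orbits.** -/
theorem TypI.no_orbit (h : TypI I d a) {k K : Type} [Field k] [Field K] [Algebra k K] {m : ℕ}
    {F : Fin m → MvPolynomial (Fin (n + 1)) k}
    (hFT : ∀ e, (F e).support ⊆ withPowers d a) (hF : GenCoeffs F (withPowers d a))
    {y : Fin (n + 1) → K} {J : Finset (Fin (n + 1))} (hyJ : ∀ j, y j ≠ 0 ↔ j ∈ J)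
    (hc : Spread I m J) {b : Fin (n + 1) → ℤ} (hb : ∀ e v, val y (wc b v (F e)) = 0)
    {i i' : Fin (n + 1)} (hi : y i ≠ 0) (hi' : y i' ≠ 0) : b i = b i' := by
  classical
  by_contra hii
  have hd' : (d : ℝ) ≠ 0 := by exact_mod_cast h.pos.ne'
  let b' : Fin (n + 1) → ℝ := fun j => (b j : ℝ)
  have hlev : ∀ p ∈ tms I J, m + 1 ≤
      ((tms I J).filter fun p' => wr (sclI d a) b' p' = wr (sclI d a) b' p).card := by
    intro p hp
    have hp' := (Finset.mem_filter.1 hp).2
    have h1 := partner hFT hF hb (α := expo d a p) (mem_withPowers.2 ⟨p, rfl⟩) (by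
      intro j hj
      have hjJ : j ∉ J := fun h' => (hyJ j).2 h' hj
      rcases p with i | l
      · change a i j = 0
        exact Finsupp.notMem_support_iff.1 fun h' => hjJ (hp' ((h.mem i).1 h'))
      · change (Finsupp.single l d : Fin (n + 1) →₀ ℕ) j = 0
        rw [Finsupp.single_eq_of_ne]
        rintro rfl
        exact hjJ hp')
    refine h1.trans ?_
    have h2 : ((withPowers d a).filter fun α' => wgt b α' = wgt b (expo d a p) ∧
        ∀ j, y j = 0 → α' j = 0) ⊆
        ((tms I J).filter fun p' => wr (sclI d a) b' p' = wr (sclI d a) b' p).image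
          (expo d a) := by
      intro α' hα'
      obtain ⟨h3, h4, h5⟩ := Finset.mem_filter.1 hα'
      obtain ⟨p', rfl⟩ := mem_withPowers.1 h3
      refine Finset.mem_image_of_mem _ (Finset.mem_filter.2 ⟨?_, ?_⟩)
      · refine Finset.mem_filter.2 ⟨Finset.mem_univ _, ?_⟩
        rcases p' with i | l
        · change I i ⊆ J
          intro j hj
          rw [← hyJ]
          exact fun h0 => h.coord i j hj (h5 j h0)
        · change l ∈ J
          rw [← hyJ]
          intro h0
          have h6 : (Finsupp.single l d : Fin (n + 1) →₀ ℕ) l = 0 := h5 l h0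
          rw [Finsupp.single_eq_same] at h6
          exact h.pos.ne' h6
      · have h6 : ((wgt b (expo d a p') : ℤ) : ℝ) = ((wgt b (expo d a p) : ℤ) : ℝ) := by
          rw [h4]
        rw [wgt_wr h.pos, wgt_wr h.pos] at h6
        exact mul_left_cancel₀ hd' h6
    exact (Finset.card_le_card h2).trans Finset.card_image_le
  have h3 := few_levels h.ne (adm_scl h.pos h.mem) h.gen b' J
    ⟨i, (hyJ i).1 hi, i', (hyJ i').1 hi', fun h' => hii (Int.cast_injective (α := ℝ) h')⟩ hlev
  have h4 := hc b ⟨i, (hyJ i).1 hi, i', (hyJ i').1 hi', hii⟩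
  have e1 : crs I J b' = crs I J b := by
    ext i
    rw [mem_crs, mem_crs]
    refine and_congr Iff.rfl (not_congr (forall_congr' fun j => forall_congr' fun _ =>
      forall_congr' fun j' => forall_congr' fun _ => ?_))
    change (b j : ℝ) = b j' ↔ b j = b j'
    exact_mod_cast Iff.rfl
  have e2 : J.image b' = (J.image b).image (fun z : ℤ => (z : ℝ)) := by
    rw [Finset.image_image]
    rfl
  have e3 : ∀ v : ℤ, cns I J b' (v : ℝ) = cns I J b v := by
    intro v
    ext i
    rw [mem_cns, mem_cns]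
    refine and_congr Iff.rfl (forall_congr' fun j => forall_congr' fun _ => ?_)
    change (b j : ℝ) = v ↔ b j = v
    exact_mod_cast Iff.rfl
  have e4 : ∀ v : ℤ, (J.filter fun j => b' j = (v : ℝ)) = J.filter fun j => b j = v := by
    intro v
    refine Finset.filter_congr fun j _ => ?_
    change (b j : ℝ) = v ↔ b j = v
    exact_mod_cast Iff.rfl
  have e5 : ∑ v ∈ J.image b', min (m + 1) ((J.filter fun j => b' j = v).card +
      (cns I J b' v).card) =
      ∑ v ∈ J.image b, min (m + 1) ((J.filter fun j => b j = v).card + (cns I J b v).card) := by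
    rw [e2, Finset.sum_image fun x _ z _ hxz => by exact_mod_cast hxz]
    refine Finset.sum_congr rfl fun v _ => ?_
    rw [e3, e4]
  have h5 : m * ((crs I J b).card + 2) + 2 ≤ ∑ v ∈ J.image b,
      min (m + 1) ((J.filter fun j => b j = v).card + (cns I J b v).card) := by
    rw [← e5, ← e1]
    exact h3
  have h6 : ∑ v ∈ J.image b,
      min (m + 1) ((J.filter fun j => b j = v).card + (cns I J b v).card) ≤
      m * ((crs I J b).card + 2) + 1 := by
    convert h4
  omega

theorem TypI.no_parts (h : TypI I d a) {k K : Type} [Field k] [Field K] [Algebra k K] {m : ℕ}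
    {F : Fin m → MvPolynomial (Fin (n + 1)) k}
    (hFT : ∀ e, (F e).support ⊆ withPowers d a) (hF : GenCoeffs F (withPowers d a))
    {y : Fin (n + 1) → K} {J : Finset (Fin (n + 1))} (hyJ : ∀ j, y j ≠ 0 ↔ j ∈ J)
    (hc : Spread I m J) :
    ¬ ∃ (b : Fin (n + 1) → ℤ) (i i' : Fin (n + 1)), y i ≠ 0 ∧ y i' ≠ 0 ∧ b i ≠ b i' ∧
      ∀ e v, val y (wc b v (F e)) = 0 := by
  rintro ⟨b, i, i', hi, hi', hb, hwc⟩
  exact hb (h.no_orbit hFT hF hyJ hc hwc hi hi')

/-- subvarieties -/
theorem TypI.lgt (h : TypI I d a) {k : Type} [Field k] [IsAlgClosed k] [CharZero k] {K : Type}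
    [Field K] [Algebra k K] {m : ℕ} {F : Fin m → MvPolynomial (Fin (n + 1)) k}
    (hFT : ∀ e, (F e).support ⊆ withPowers d a) (hF : GenCoeffs F (withPowers d a))
    {U : Set (Fin (n + 1))} {w : ℕ} (hw : 1 ≤ w)
    {y : Fin (n + 1) → K} (hy : SubVarU U F K w y) {J : Finset (Fin (n + 1))}
    (hyJ : ∀ j, y j ≠ 0 ↔ j ∈ J) (hc : Spread I m J) : LogGeneralType k K w (OffU U y) := by
  by_contra hgt
  obtain ⟨s', N, hg⟩ := h.good
  have hC := hg.sys hFT U
  have hgen : Algebra.IsAlgebraic (coords k y) K := by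
    rw [hy.gen]
    infer_instance
  exact h.no_parts hFT hF hyJ hc
    (weights hC.form hC.pos hC.card hC.wide hC.num hw hy.dim hy.ne hgen hy.mem hy.unit hgt)

/-- all closed subvarieties -/
theorem TypI.all (h : TypI I d a) {k : Type} [Field k] [IsAlgClosed k] [CharZero k] {m : ℕ}
    {F : Fin m → MvPolynomial (Fin (n + 1)) k}
    (hFT : ∀ e, (F e).support ⊆ withPowers d a) (hF : GenCoeffs F (withPowers d a))
    (hc : ∀ J, Spread I m J) : AllGeneralType F := by
  classical
  intro _ _ _ _ y hw hy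
  exact (general_iff y).1 (h.lgt hFT hF hw (subVar_iff.2 hy)
    (J := Finset.univ.filter fun j => y j ≠ 0) (fun j => by simp) (hc _))

section curves

open Filter Metric Topology Pool.Agent.H159R3.GGLLog Pool.Agent.H159R3.NV
  Pool.Agent.W603.BP Pool.Agent.R869

/-- holomorphic maps from the punctured disc -/
theorem TypI.extends (h : TypI I d a) {m : ℕ} {F : Fin m → MvPolynomial (Fin (n + 1)) ℂ}
    (hFT : ∀ e, (F e).support ⊆ withPowers d a) (hF : GenCoeffs F (withPowers d a))
    {U : Set (Fin (n + 1))} {f : ℂ → Fin (n + 1) → ℂ} (hf : PCurve U F f)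
    {J : Finset (Fin (n + 1))} (hyJ : ∀ j, (∃ z ∈ ball (0 : ℂ) 1 \ {0}, f z j ≠ 0) ↔ j ∈ J)
    (hc : Spread I m J) : Extends f := by
  classical
  by_contra hE
  obtain ⟨s', N, hg⟩ := h.good
  obtain ⟨b, j, k, hj, hk, hbjk, hs⟩ := pcurve (hg.sys hFT U) f hf hE
  obtain ⟨z0, hz0, hgood⟩ := good_point (fun (l : J) w => f w l) (fun l => hf.an _) (by
    rintro ⟨l, hl⟩
    obtain ⟨z, hz, hzl⟩ := (hyJ l).2 hl
    exact nz_of_on (hf.an l) (mem_disc.mp hz) hzl)
  have hsupp : ∀ l, f z0 l ≠ 0 ↔ l ∈ J := fun l =>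
    ⟨fun hl => (hyJ l).1 ⟨z0, mem_disc.mpr hz0, hl⟩, fun hl => hgood ⟨l, hl⟩⟩
  have hnz : ∀ l, Nz (fun w => f w l) → f z0 l ≠ 0 := by
    intro l hl
    obtain ⟨z, hz, hzl⟩ := nz_on one_pos hl
    exact (hsupp l).2 ((hyJ l).1 ⟨z, mem_disc.mpr hz, hzl⟩)
  refine hbjk (h.no_orbit hFT hF hsupp hc (b := b) (fun e v => ?_) (hnz j hj) (hnz k hk))
  rw [wc_eq]
  exact hs e v z0 hz0

/-- entire curves -/
theorem TypI.no_entire (h : TypI I d a) {m : ℕ} {F : Fin m → MvPolynomial (Fin (n + 1)) ℂ}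
    (hFT : ∀ e, (F e).support ⊆ withPowers d a) (hF : GenCoeffs F (withPowers d a))
    {U : Set (Fin (n + 1))} {f : ℂ → Fin (n + 1) → ℂ}
    {J : Finset (Fin (n + 1))} (hyJ : ∀ j, (∃ z, f z j ≠ 0) ↔ j ∈ J)
    (hc : Spread I m J) : ¬ EntireCurve U F f := by
  intro hf
  obtain ⟨h1, h2⟩ := sin_curve hf
  refine h2 (h.extends hFT hF h1 (J := J) (fun j => ?_) hc)
  rw [← hyJ]
  constructor
  · rintro ⟨z, -, hz⟩
    exact ⟨_, hz⟩
  · rintro ⟨z, hz⟩
    obtain ⟨w, hw, hwz⟩ := sin_point z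
    exact ⟨w, hw, by rw [hwz]; exact hz⟩

end curves

end Pool.Agent.R869.Wd
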