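import Pool.Agent.R869.SSix

/-!
Optimal colourings of sets of variables.
-/

set_option autoImplicit false

namespace Pool.Agent.R869.Wd

open Finset

variable {n s : ℕ} {I : Fin s → Finset (Fin (n + 1))} {J : Finset (Fin (n + 1))}
  {c : Fin (n + 1) → ℤ}

open Classical in
/-- the elements of `J` with a colour of their own -/
noncomputable def sgl (J : Finset (Fin (n + 1))) (c : Fin (n + 1) → ℤ) : Finset (Fin (n + 1)) :=
  J.filter fun j => ∀ j' ∈ J, c j' = c j → j' = j

theorem mem_sgl {j : Fin (n + 1)} : j ∈ sgl J c ↔ j ∈ J ∧ ∀ j' ∈ J, c j' = c j → j' = j := by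
  unfold sgl
  rw [mem_filter]

/-- the excess of a colouring -/
noncomputable def exc (I : Fin s → Finset (Fin (n + 1))) (J : Finset (Fin (n + 1)))
    (c : Fin (n + 1) → ℤ) : ℤ :=
  2 * ((J.image c).card : ℤ) - ((sgl J c).card : ℤ) - ((crs I J c).card : ℤ)

open Classical in
theorem sum_min (hI : ∀ i, 2 ≤ (I i).card) (J : Finset (Fin (n + 1))) (c : Fin (n + 1) → ℤ) :
    ∑ v ∈ J.image c, min (1 + 1) ((J.filter fun j => c j = v).card + (cns I J c v).card) +
      (sgl J c).card = 2 * (J.image c).card := by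
  have h1 : (sgl J c).card =
      ∑ v ∈ J.image c, if (J.filter fun j => c j = v).card = 1 then 1 else 0 := by
    rw [← card_filter]
    refine card_bij (fun j _ => c j) (fun j hj => ?_) (fun j hj j' hj' h => ?_) fun v hv => ?_
    · obtain ⟨h2, h3⟩ := mem_sgl.1 hj
      refine mem_filter.2 ⟨mem_image_of_mem _ h2, card_eq_one.2 ⟨j, ?_⟩⟩
      ext x
      rw [mem_filter, mem_singleton]
      exact ⟨fun h4 => h3 x h4.1 h4.2, by rintro rfl; exact ⟨h2, rfl⟩⟩
    · exact (mem_sgl.1 hj').2 j (mem_sgl.1 hj).1 h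
    · obtain ⟨h2, h3⟩ := mem_filter.1 hv
      obtain ⟨j, hj⟩ := card_eq_one.1 h3
      have h4 : j ∈ J.filter fun j => c j = v := by rw [hj]; exact mem_singleton_self j
      obtain ⟨h5, h6⟩ := mem_filter.1 h4
      refine ⟨j, mem_sgl.2 ⟨h5, fun j' hj' h7 => ?_⟩, h6⟩
      have h8 : j' ∈ J.filter fun j => c j = v := mem_filter.2 ⟨hj', h7.trans h6⟩
      rw [hj] at h8
      exact mem_singleton.1 h8
  rw [h1, ← sum_add_distrib, card_eq_sum_ones, mul_sum]
  refine sum_congr rfl fun v hv => ?_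
  obtain ⟨j, hj, rfl⟩ := mem_image.1 hv
  have hpos : 0 < (J.filter fun j' => c j' = c j).card :=
    card_pos.2 ⟨j, mem_filter.2 ⟨hj, rfl⟩⟩
  split_ifs with h2
  · have h3 : (cns I J c (c j)).card = 0 := by
      rw [card_eq_zero, eq_empty_iff_forall_notMem]
      intro i hi
      obtain ⟨h4, h5⟩ := mem_cns.1 hi
      have h6 : I i ⊆ J.filter fun j' => c j' = c j := fun x hx =>
        mem_filter.2 ⟨h4 hx, h5 x hx⟩
      have h7 := card_le_card h6
      have h8 := hI i
      omega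
    rw [h2, h3]
    rfl
  · rw [min_eq_left (by omega)]
    rfl

/-- The condition for one equation and sets with at least two elements. -/
theorem spread_one (hI : ∀ i, 2 ≤ (I i).card) (J : Finset (Fin (n + 1))) :
    Spread I 1 J ↔ ∀ c : Fin (n + 1) → ℤ, (∃ j ∈ J, ∃ j' ∈ J, c j ≠ c j') → exc I J c ≤ 3 := by
  classical
  unfold Spread
  refine forall_congr' fun c => imp_congr_right fun _ => ?_
  have h1 := sum_min hI J c
  unfold exc
  have h2 : (∑ v ∈ J.image c, min (1 + 1) ((J.filter fun j => c j = v).card +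
      (cns I J c v).card) ≤ 1 * ((crs I J c).card + 2) + 1) ↔
      2 * ((J.image c).card : ℤ) - ((sgl J c).card : ℤ) - ((crs I J c).card : ℤ) ≤ 3 := by
    generalize (∑ v ∈ J.image c, min (1 + 1) ((J.filter fun j => c j = v).card +
      (cns I J c v).card)) = y at h1 ⊢
    omega
  rw [← h2]

/-- optimal colourings -/
structure Opt (I : Fin s → Finset (Fin (n + 1))) (J : Finset (Fin (n + 1)))
    (c : Fin (n + 1) → ℤ) : Prop where
  nc : ∃ j ∈ J, ∃ j' ∈ J, c j ≠ c j'
  four : 4 ≤ exc I J c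
  max : ∀ c' : Fin (n + 1) → ℤ, (∃ j ∈ J, ∃ j' ∈ J, c' j ≠ c' j') → exc I J c' ≤ exc I J c
  one : (sgl J c).card ≤ 1

theorem nc_of_card {c : Fin (n + 1) → ℤ} (h : 2 ≤ (J.image c).card) :
    ∃ j ∈ J, ∃ j' ∈ J, c j ≠ c j' := by
  obtain ⟨v, hv, v', hv', hne⟩ := one_lt_card.1 h
  obtain ⟨j, hj, rfl⟩ := mem_image.1 hv
  obtain ⟨j', hj', rfl⟩ := mem_image.1 hv'
  exact ⟨j, hj, j', hj', hne⟩

theorem exists_opt {c0 : Fin (n + 1) → ℤ} (h0 : ∃ j ∈ J, ∃ j' ∈ J, c0 j ≠ c0 j')
    (h4 : 4 ≤ exc I J c0) : ∃ c, Opt I J c := by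
  classical
  let P : ℤ → Prop := fun z => ∃ c : Fin (n + 1) → ℤ, (∃ j ∈ J, ∃ j' ∈ J, c j ≠ c j') ∧
    z = exc I J c * (n + 2) - (J.image c).card
  have hV : ∀ c : Fin (n + 1) → ℤ, (J.image c).card ≤ n + 1 := fun c =>
    card_image_le.trans ((card_le_univ J).trans (by rw [Fintype.card_fin]))
  obtain ⟨z, ⟨c, hc, rfl⟩, hz⟩ := Int.exists_greatest_of_bdd (P := P)
    ⟨2 * (n + 1) * (n + 2), by
      rintro z ⟨c, -, rfl⟩
      have h1 := hV c
      have h2 : exc I J c ≤ 2 * (n + 1) := by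
        unfold exc
        have : ((J.image c).card : ℤ) ≤ n + 1 := by exact_mod_cast h1
        linarith [Int.natCast_nonneg (sgl J c).card, Int.natCast_nonneg (crs I J c).card]
      have h3 : exc I J c * (n + 2) ≤ 2 * (n + 1) * (n + 2) :=
        mul_le_mul_of_nonneg_right h2 (by positivity)
      have h5 : (0 : ℤ) ≤ (J.image c).card := Int.natCast_nonneg _
      linarith⟩ ⟨_, c0, h0, rfl⟩
  have key : ∀ c' : Fin (n + 1) → ℤ, (∃ j ∈ J, ∃ j' ∈ J, c' j ≠ c' j') →
      exc I J c' * (n + 2) - (J.image c').card ≤ exc I J c * (n + 2) - (J.image c).card :=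
    fun c' hc' => hz _ ⟨c', hc', rfl⟩
  have hmax : ∀ c' : Fin (n + 1) → ℤ, (∃ j ∈ J, ∃ j' ∈ J, c' j ≠ c' j') →
      exc I J c' ≤ exc I J c := by
    intro c' hc'
    by_contra hcon
    push Not at hcon
    have h1 := key c' hc'
    have h2 : (exc I J c + 1) * (n + 2) ≤ exc I J c' * (n + 2) :=
      mul_le_mul_of_nonneg_right (by omega) (by positivity)
    have h3 : ((J.image c').card : ℤ) ≤ n + 1 := by exact_mod_cast hV c'
    have h5 : (0 : ℤ) ≤ (J.image c).card := Int.natCast_nonneg _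
    linarith
  have hfour : 4 ≤ exc I J c := h4.trans (hmax c0 h0)
  refine ⟨c, hc, hfour, hmax, ?_⟩
  by_contra hcon
  push Not at hcon
  obtain ⟨j, hj, j', hj', hne⟩ := one_lt_card.1 hcon
  obtain ⟨hjJ, hj1⟩ := mem_sgl.1 hj
  obtain ⟨hjJ', hj1'⟩ := mem_sgl.1 hj'
  have hcne : c j ≠ c j' := fun h => hne (hj1' j hjJ h)
  let c' : Fin (n + 1) → ℤ := Function.update c j' (c j)
  have hc'1 : c' j' = c j := Function.update_self ..
  have hc'2 : ∀ x, x ≠ j' → c' x = c x := fun x hx => Function.update_of_ne hx ..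
  have himg : J.image c' ⊆ (J.image c).erase (c j') := by
    intro v hv
    obtain ⟨x, hx, rfl⟩ := mem_image.1 hv
    by_cases hxj : x = j'
    · rw [hxj, hc'1]
      exact mem_erase.2 ⟨hcne, mem_image_of_mem _ hjJ⟩
    · rw [hc'2 x hxj]
      exact mem_erase.2 ⟨fun h => hxj (hj1' x hx h), mem_image_of_mem _ hx⟩
  have himg2 : (J.image c).erase (c j') ⊆ J.image c' := by
    intro v hv
    obtain ⟨h1, h2⟩ := mem_erase.1 hv
    obtain ⟨x, hx, rfl⟩ := mem_image.1 h2
    have hxj : x ≠ j' := fun h => h1 (by rw [h])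
    exact mem_image.2 ⟨x, hx, hc'2 x hxj⟩
  have hV' : (J.image c').card + 1 = (J.image c).card := by
    rw [subset_antisymm himg himg2]
    exact card_erase_add_one (mem_image_of_mem _ hjJ')
  have hsg : sgl J c' ⊆ ((sgl J c).erase j).erase j' := by
    intro x hx
    obtain ⟨hxJ, hx1⟩ := mem_sgl.1 hx
    have hxj' : x ≠ j' := by
      rintro rfl
      exact hne (hx1 j hjJ (by rw [hc'1, hc'2 j hne]))
    have hxj : x ≠ j := by
      rintro rfl
      exact hxj' (hx1 j' hjJ' (by rw [hc'1, hc'2 x hne])).symm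
    refine mem_erase.2 ⟨hxj', mem_erase.2 ⟨hxj, mem_sgl.2 ⟨hxJ, fun y hy hyx => ?_⟩⟩⟩
    have hyj : y ≠ j' := by
      rintro rfl
      exact hxj' (hj1' x hxJ hyx.symm)
    exact hx1 y hy (by rw [hc'2 y hyj, hc'2 x hxj', hyx])
  have hD' : (sgl J c').card + 2 ≤ (sgl J c).card := by
    have h1 := card_le_card hsg
    have h2 := card_erase_add_one hj
    have h3 := card_erase_add_one (mem_erase.2 ⟨hne.symm, hj'⟩ : j' ∈ (sgl J c).erase j)
    omega
  have hN' : (crs I J c').card ≤ (crs I J c).card := by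
    refine card_le_card fun i hi => ?_
    obtain ⟨h1, h2⟩ := mem_crs.1 hi
    refine mem_crs.2 ⟨h1, fun h3 => h2 fun x hx y hy => ?_⟩
    by_cases hxj : x = j'
    · have h5 : y = j' := hj1' y (h1 hy) (by rw [← hxj]; exact h3 y hy x hx)
      rw [hxj, h5]
    · have h5 : y ≠ j' := by
        rintro rfl
        exact hxj (hj1' x (h1 hx) (h3 x hx y hy))
      rw [hc'2 x hxj, hc'2 y h5]
      exact h3 x hx y hy
  have hexc : exc I J c ≤ exc I J c' := by
    unfold exc
    omega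
  have hnc' : ∃ j ∈ J, ∃ j' ∈ J, c' j ≠ c' j' := by
    apply nc_of_card
    unfold exc at hfour
    omega
  have h1 := key c' hnc'
  have h2 : exc I J c' = exc I J c := le_antisymm (hmax c' hnc') hexc
  rw [h2] at h1
  omega

/-- the blocks that are used as terms -/
theorem Opt.blocks (h : Opt I J c) : ∃ (B : Finset (Fin (n + 1))) (p : ℕ), sgl J c ⊆ B ∧
    B ⊆ J ∧ B.card ≤ (sgl J c).card + 1 ∧ (crs I J c).card + B.card = 2 * p ∧
    p + 2 ≤ (J.image c).card ∧ ∀ j ∈ B, ∀ j' ∈ B, c j = c j' → j = j' := by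
  classical
  have h4 := h.four
  have h1 := h.one
  unfold exc at h4
  have hsub : sgl J c ⊆ J := fun j hj => (mem_sgl.1 hj).1
  have hsg : ∀ j ∈ sgl J c, ∀ j' ∈ sgl J c, c j = c j' → j = j' := fun j hj j' hj' _ =>
    card_le_one.1 h1 j hj j' hj'
  rcases Nat.even_or_odd ((crs I J c).card + (sgl J c).card) with he | ho
  · obtain ⟨p, hp⟩ := he
    exact ⟨sgl J c, p, Subset.refl _, hsub, by omega, by omega, by omega, hsg⟩
  · obtain ⟨p, hp⟩ := ho
    obtain ⟨j1, hj1, hj1s⟩ : ∃ j1 ∈ J, j1 ∉ sgl J c := by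
      by_contra hcon
      push Not at hcon
      have h5 := card_le_card (show J ⊆ sgl J c from hcon)
      have h6 : (J.image c).card ≤ J.card := card_image_le
      omega
    refine ⟨insert j1 (sgl J c), p + 1, subset_insert _ _, ?_, ?_, ?_, by omega, ?_⟩
    · exact insert_subset hj1 hsub
    · exact card_insert_le _ _
    · rw [card_insert_of_notMem hj1s]
      omega
    · intro j hj j' hj' hjj
      rcases mem_insert.1 hj with h5 | h5
      · rcases mem_insert.1 hj' with h6 | h6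
        · rw [h5, h6]
        · exact (mem_sgl.1 h6).2 j (by rw [h5]; exact hj1) hjj
      · rcases mem_insert.1 hj' with h6 | h6
        · exact ((mem_sgl.1 h5).2 j' (by rw [h6]; exact hj1) hjj.symm).symm
        · exact hsg j h5 j' h6 hjj

end Pool.Agent.R869.Wd
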