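import Pool.Agent.R869.TComb

/-!
Optimal colourings: independence of the differences of the terms.
-/

set_option autoImplicit false

namespace Pool.Agent.R869.Wd

open Finset

variable {n s : ℕ} {I : Fin s → Finset (Fin (n + 1))} {J : Finset (Fin (n + 1))}
  {c : Fin (n + 1) → ℤ} {z0 : Fin s → Fin (n + 1) → ℝ}

/-- the pairs of powers with one colour -/
def Cls (J : Finset (Fin (n + 1))) (c : Fin (n + 1) → ℤ) :
    Set ((Fin s ⊕ Fin (n + 1)) × (Fin s ⊕ Fin (n + 1))) :=
  {x | ∃ j ∈ J, ∃ j' ∈ J, c j = c j' ∧ x = (Sum.inr j, Sum.inr j')}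

/-- the variables of a term -/
def tv (I : Fin s → Finset (Fin (n + 1))) (q : Fin s ⊕ Fin (n + 1)) : Finset (Fin (n + 1)) :=
  Sum.elim I (fun j => {j}) q

theorem span_cls_le (z0 : Fin s → Fin (n + 1) → ℝ) (J : Finset (Fin (n + 1)))
    (c : Fin (n + 1) → ℤ) :
    Module.finrank ℝ (Submodule.span ℝ (pv z0 '' Cls J c)) + (J.image c).card ≤ J.card := by
  classical
  have hv : ∀ v ∈ J.image c, ∃ j ∈ J, c j = v := fun v hv => mem_image.1 hv
  let jv : ℤ → Fin (n + 1) := fun v => if h : v ∈ J.image c then (hv v h).choose else 0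
  have hjv : ∀ v ∈ J.image c, jv v ∈ J ∧ c (jv v) = v := by
    intro v h
    have h2 : jv v = (hv v h).choose := dif_pos h
    rw [h2]
    exact (hv v h).choose_spec
  let G : Finset (Fin n → ℝ) := (J.filter fun j => jv (c j) ≠ j).image
    fun j => (ev j - ev (jv (c j)) : Fin n → ℝ)
  have hG : ∀ j ∈ J, (ev j - ev (jv (c j)) : Fin n → ℝ) ∈
      Submodule.span ℝ (G : Set (Fin n → ℝ)) := by
    intro j hj
    by_cases h : jv (c j) = j
    · rw [h, sub_self]
      exact Submodule.zero_mem _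
    · exact Submodule.subset_span (mem_coe.2 (mem_image.2 ⟨j, mem_filter.2 ⟨hj, h⟩, rfl⟩))
  have hle : Submodule.span ℝ (pv z0 '' Cls J c) ≤ Submodule.span ℝ (G : Set (Fin n → ℝ)) := by
    rw [Submodule.span_le]
    rintro _ ⟨_, ⟨j, hj, j', hj', hjj, rfl⟩, rfl⟩
    have h1 := Submodule.sub_mem _ (hG j hj) (hG j' hj')
    rw [hjj, sub_sub_sub_cancel_right] at h1
    exact h1
  have h1 := Submodule.finrank_mono hle
  have h2 : Module.finrank ℝ (Submodule.span ℝ (G : Set (Fin n → ℝ))) ≤ G.card :=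
    finrank_span_finset_le_card (R := ℝ) G
  have h3 : G.card ≤ (J.filter fun j => jv (c j) ≠ j).card := card_image_le
  have h4 : (J.filter fun j => jv (c j) = j).card + (J.filter fun j => ¬ jv (c j) = j).card =
    J.card := card_filter_add_card_filter_not _
  have h5 : (J.image c).card ≤ (J.filter fun j => jv (c j) = j).card := by
    refine card_le_card_of_injOn jv (fun v hv' => ?_) fun v hv' v' hv'' h => ?_
    · obtain ⟨h6, h7⟩ := hjv v hv'
      exact mem_coe.2 (mem_filter.2 ⟨h6, by rw [h7]⟩)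
    · rw [← (hjv v hv').2, ← (hjv v' hv'').2, h]
  have h6 : (J.filter fun j => jv (c j) ≠ j).card = (J.filter fun j => ¬ jv (c j) = j).card := rfl
  omega

theorem low_dim (H : Submodule ℝ (Fin n → ℝ)) (c' : Fin (n + 1) → ℤ)
    {J : Finset (Fin (n + 1))} (hJ : J.Nonempty)
    (hc : ∀ j ∈ J, ∀ j' ∈ J, c' j = c' j' → (ev j - ev j' : Fin n → ℝ) ∈ H) :
    J.card ≤ Module.finrank ℝ H + (J.image c').card := by
  classical
  obtain ⟨j0, hj0⟩ := hJ
  have hv : ∀ v ∈ J.image c', ∃ j ∈ J, c' j = v := fun v hv => mem_image.1 hv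
  let jv : ℤ → Fin (n + 1) := fun v => if h : v ∈ J.image c' then (hv v h).choose else j0
  have hjv : ∀ v ∈ J.image c', jv v ∈ J ∧ c' (jv v) = v := by
    intro v h
    have h2 : jv v = (hv v h).choose := dif_pos h
    rw [h2]
    exact (hv v h).choose_spec
  let G : Finset (Fin n → ℝ) := ((J.image c').erase (c' j0)).image
    (fun v => (ev (jv v) - ev j0 : Fin n → ℝ)) ∪ Jᶜ.image fun j => (ev j - ev j0 : Fin n → ℝ)
  have hall : ∀ j, (ev j - ev j0 : Fin n → ℝ) ∈
      H ⊔ Submodule.span ℝ (G : Set (Fin n → ℝ)) := by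
    intro j
    by_cases hj : j ∈ J
    · have hm : c' j ∈ J.image c' := mem_image_of_mem _ hj
      obtain ⟨h2, h3⟩ := hjv _ hm
      have h4 : (ev j - ev j0 : Fin n → ℝ) = (ev j - ev (jv (c' j))) + (ev (jv (c' j)) - ev j0) := by
        abel
      rw [h4]
      refine Submodule.add_mem _ (Submodule.mem_sup_left (hc _ hj _ h2 h3.symm)) ?_
      by_cases h5 : c' j = c' j0
      · exact Submodule.mem_sup_left (hc _ h2 _ hj0 (h3.trans h5))
      · refine Submodule.mem_sup_right (Submodule.subset_span ?_)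
        exact mem_coe.2 (mem_union_left _ (mem_image.2 ⟨c' j, mem_erase.2 ⟨h5, hm⟩, rfl⟩))
    · refine Submodule.mem_sup_right (Submodule.subset_span ?_)
      exact mem_coe.2 (mem_union_right _ (mem_image.2 ⟨j, mem_compl.2 hj, rfl⟩))
  have htop : H ⊔ Submodule.span ℝ (G : Set (Fin n → ℝ)) = ⊤ := by
    rw [eq_top_iff, ← ev_span, Submodule.span_le]
    rintro x ⟨j, j', rfl⟩
    have h2 := Submodule.sub_mem _ (hall j) (hall j')
    rwa [sub_sub_sub_cancel_right] at h2
  have h2 := Submodule.finrank_add_le_finrank_add_finrank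
    H (Submodule.span ℝ (G : Set (Fin n → ℝ)))
  rw [htop, finrank_top, Module.finrank_fin_fun] at h2
  have h3 : Module.finrank ℝ (Submodule.span ℝ (G : Set (Fin n → ℝ))) ≤ G.card :=
    finrank_span_finset_le_card (R := ℝ) G
  have h4 : G.card ≤ ((J.image c').erase (c' j0)).card + Jᶜ.card :=
    (card_union_le _ _).trans (Nat.add_le_add card_image_le card_image_le)
  have h5 := card_erase_add_one (mem_image_of_mem c' hj0)
  have h6 := card_compl_add_card J
  rw [Fintype.card_fin] at h6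
  omega

/-- **Independence.** -/
theorem Opt.indep (h : Opt I J c) (hz0 : Adm I z0)
    (hgen : ∀ p q : Fin n → Fin s ⊕ Fin (n + 1),
      (∃ z, Adm I z ∧ (dz p q z).det ≠ 0) → (dz p q z0).det ≠ 0)
    {B : Finset (Fin (n + 1))} {p : ℕ} (hsB : sgl J c ⊆ B) (hBJ : B ⊆ J)
    (hB1 : B.card ≤ (sgl J c).card + 1) (hp : p + 2 ≤ (J.image c).card)
    (e : Fin p ⊕ Fin p ≃ {q // q ∈ (crs I J c).disjSum B}) (cf : Fin p → ℝ)
    (hcf : ∑ l, cf l • pv z0 ((e (Sum.inl l)).1, (e (Sum.inr l)).1) ∈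
      Submodule.span ℝ (pv z0 '' Cls J c)) : cf = 0 := by
  classical
  by_contra hne
  let t : Fin p → Fin s ⊕ Fin (n + 1) := fun l => (e (Sum.inl l)).1
  let t' : Fin p → Fin s ⊕ Fin (n + 1) := fun l => (e (Sum.inr l)).1
  have hinj : ∀ x y, (e x).1 = (e y).1 → x = y := fun x y hxy => e.injective (Subtype.ext hxy)
  have htt : ∀ l l', t l = t l' → l = l' := fun l l' hl => Sum.inl.inj (hinj _ _ hl)
  have htt' : ∀ l l', t' l = t' l' → l = l' := fun l l' hl => Sum.inr.inj (hinj _ _ hl)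
  have htn : ∀ l l', t l ≠ t' l' := fun l l' hl => Sum.inl_ne_inr (hinj _ _ hl)
  let r : Fin p → (Fin s ⊕ Fin (n + 1)) × (Fin s ⊕ Fin (n + 1)) := fun l => (t l, t' l)
  let L : Finset (Fin p) := univ.filter fun l => cf l ≠ 0
  obtain ⟨l0, hl0⟩ : L.Nonempty := by
    by_contra hcon
    rw [not_nonempty_iff_eq_empty] at hcon
    apply hne
    funext l
    by_contra hl
    have h1 : l ∈ L := mem_filter.2 ⟨mem_univ _, hl⟩
    rw [hcon] at h1
    exact notMem_empty _ h1
  let S : Finset (Fin p) → Set ((Fin s ⊕ Fin (n + 1)) × (Fin s ⊕ Fin (n + 1))) := fun Q =>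
    Cls J c ∪ r '' (Q : Set (Fin p))
  have hSmono : ∀ Q Q' : Finset (Fin p), Q ⊆ Q' → S Q ⊆ S Q' := fun Q Q' hQ =>
    Set.union_subset_union_right _ (Set.image_mono (by exact_mod_cast hQ))
  let H : Submodule ℝ (Fin n → ℝ) := Submodule.span ℝ (pv z0 '' S L)
  have hSH : ∀ Q ⊆ L, Submodule.span ℝ (pv z0 '' S Q) ≤ H := fun Q hQ =>
    Submodule.span_mono (Set.image_mono (hSmono Q L hQ))
  have hclsS : ∀ Q, Submodule.span ℝ (pv z0 '' Cls J c) ≤ Submodule.span ℝ (pv z0 '' S Q) :=
    fun Q => Submodule.span_mono (Set.image_mono Set.subset_union_left)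
  -- each row is in the span of the others
  have hrow : ∀ l ∈ L, pv z0 (r l) ∈ Submodule.span ℝ (pv z0 '' S (L.erase l)) := by
    intro l hl
    have hcl : cf l ≠ 0 := (mem_filter.1 hl).2
    have h1 := add_sum_erase univ (fun l => cf l • pv z0 (r l)) (mem_univ l)
    have h2 : pv z0 (r l) = (cf l)⁻¹ • (∑ l, cf l • pv z0 (r l) -
        ∑ l' ∈ univ.erase l, cf l' • pv z0 (r l')) := by
      rw [← h1]
      simp only [add_sub_cancel_right]
      rw [inv_smul_smul₀ hcl]
    rw [h2]
    refine Submodule.smul_mem _ _ (Submodule.sub_mem _ (hclsS _ hcf) ?_)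
    refine Submodule.sum_mem _ fun l' hl' => ?_
    by_cases h3 : cf l' = 0
    · rw [h3, zero_smul]
      exact Submodule.zero_mem _
    · refine Submodule.smul_mem _ _ (Submodule.subset_span ⟨r l', Or.inr ⟨l', ?_, rfl⟩, rfl⟩)
      exact mem_coe.2 (mem_erase.2 ⟨(mem_erase.1 hl').1, mem_filter.2 ⟨mem_univ _, h3⟩⟩)
  -- the differences of the variables of one term
  have hterm : ∀ l ∈ L, ∀ q, (q = t l ∨ q = t' l) → ∀ j ∈ tv I q, ∀ j' ∈ tv I q,
      (ev j - ev j' : Fin n → ℝ) ∈ H := by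
    intro l hl q hq j hj j' hj'
    rcases q with i | j0
    · refine hSH _ (erase_subset l L) ?_
      rcases hq with hq | hq
      · refine fresh hz0 hgen i (t' l) (fun h5 => htn l l (hq.symm.trans h5.symm))
          (S (L.erase l)) ?_ ?_ j j' hj hj'
        · rintro x (⟨j, -, j', -, -, rfl⟩ | ⟨l', hl', rfl⟩)
          · exact ⟨Sum.inr_ne_inl, Sum.inr_ne_inl⟩
          · have h6 : l' ≠ l := (mem_erase.1 (mem_coe.1 hl')).1
            refine ⟨fun h5 => h6 (htt _ _ (h5.trans hq)), fun h5 => ?_⟩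
            exact htn l l' (hq.symm.trans h5.symm)
        · have h7 := hrow l hl
          rw [show r l = (t l, t' l) from rfl, ← hq] at h7
          exact h7
      · refine fresh hz0 hgen i (t l) (fun h5 => htn l l (h5.trans hq))
          (S (L.erase l)) ?_ ?_ j j' hj hj'
        · rintro x (⟨j, -, j', -, -, rfl⟩ | ⟨l', hl', rfl⟩)
          · exact ⟨Sum.inr_ne_inl, Sum.inr_ne_inl⟩
          · have h6 : l' ≠ l := (mem_erase.1 (mem_coe.1 hl')).1
            refine ⟨fun h5 => ?_, fun h5 => h6 (htt' _ _ (h5.trans hq))⟩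
            exact htn l' l (h5.trans hq)
        · have h7 := Submodule.neg_mem _ (hrow l hl)
          have h8 : pv z0 (Sum.inl i, t l) = -pv z0 (r l) := by
            rw [hq]
            unfold pv
            rw [neg_sub]
          rw [h8]
          exact h7
    · have h5 : j = j0 := mem_singleton.1 hj
      have h6 : j' = j0 := mem_singleton.1 hj'
      rw [h5, h6, sub_self]
      exact Submodule.zero_mem _
  have hvt : ∀ l ∈ L, ∀ q, (q = t l ∨ q = t' l) → ∀ j ∈ tv I q, vz z0 q - ev j ∈ H := by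
    intro l hl q hq j hj
    rcases q with i | j0
    · rw [vz_sum hz0]
      refine Submodule.sum_mem _ fun j' _ => ?_
      by_cases h5 : j' ∈ I i
      · exact Submodule.smul_mem _ _ (hterm l hl _ hq j' h5 j hj)
      · rw [(hz0 i).1 j' h5, zero_smul]
        exact Submodule.zero_mem _
    · have h5 : j = j0 := mem_singleton.1 hj
      rw [h5, vz_inr, sub_self]
      exact Submodule.zero_mem _
  have hcross : ∀ l ∈ L, ∀ j ∈ tv I (t l), ∀ j' ∈ tv I (t' l),
      (ev j - ev j' : Fin n → ℝ) ∈ H := by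
    intro l hl j hj j' hj'
    have h5 := hSH _ (erase_subset l L) (hrow l hl)
    have h6 := hvt l hl _ (Or.inl rfl) j hj
    have h7 := hvt l hl _ (Or.inr rfl) j' hj'
    have h8 : (ev j - ev j' : Fin n → ℝ) = pv z0 (r l) - (vz z0 (t l) - ev j) +
        (vz z0 (t' l) - ev j') := by
      change _ = (vz z0 (t l) - vz z0 (t' l)) - _ + _
      abel
    rw [h8]
    exact Submodule.add_mem _ (Submodule.sub_mem _ h5 h6) h7
  have hall : ∀ l ∈ L, ∀ q, (q = t l ∨ q = t' l) → ∀ q', (q' = t l ∨ q' = t' l) →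
      ∀ j ∈ tv I q, ∀ j' ∈ tv I q', (ev j - ev j' : Fin n → ℝ) ∈ H := by
    intro l hl q hq q' hq' j hj j' hj'
    rcases hq with rfl | rfl <;> rcases hq' with rfl | rfl
    · exact hterm l hl _ (Or.inl rfl) j hj j' hj'
    · exact hcross l hl j hj j' hj'
    · have h5 := Submodule.neg_mem _ (hcross l hl j' hj' j hj)
      rwa [neg_sub] at h5
    · exact hterm l hl _ (Or.inr rfl) j hj j' hj'
  -- the dimension
  have hdim : Module.finrank ℝ H + 1 ≤
      Module.finrank ℝ (Submodule.span ℝ (pv z0 '' Cls J c)) + L.card := by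
    let G : Finset (Fin n → ℝ) := (L.erase l0).image fun l => pv z0 (r l)
    have h5 : ∀ l ∈ L.erase l0, pv z0 (r l) ∈ Submodule.span ℝ (pv z0 '' Cls J c) ⊔
        Submodule.span ℝ (G : Set (Fin n → ℝ)) := fun l hl =>
      Submodule.mem_sup_right (Submodule.subset_span (mem_coe.2 (mem_image_of_mem _ hl)))
    have h6 : Submodule.span ℝ (pv z0 '' S (L.erase l0)) ≤
        Submodule.span ℝ (pv z0 '' Cls J c) ⊔ Submodule.span ℝ (G : Set (Fin n → ℝ)) := by
      rw [Submodule.span_le]
      rintro _ ⟨x, (hx | ⟨l, hl, rfl⟩), rfl⟩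
      · exact Submodule.mem_sup_left (Submodule.subset_span ⟨x, hx, rfl⟩)
      · exact h5 l (mem_coe.1 hl)
    have h7 : H ≤ Submodule.span ℝ (pv z0 '' Cls J c) ⊔
        Submodule.span ℝ (G : Set (Fin n → ℝ)) := by
      change Submodule.span ℝ (pv z0 '' S L) ≤ _
      rw [Submodule.span_le]
      rintro _ ⟨x, (hx | ⟨l, hl, rfl⟩), rfl⟩
      · exact Submodule.mem_sup_left (Submodule.subset_span ⟨x, hx, rfl⟩)
      · by_cases h8 : l = l0
        · rw [h8]
          exact h6 (hrow l0 hl0)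
        · exact h5 l (mem_erase.2 ⟨h8, mem_coe.1 hl⟩)
    have h8 := Submodule.finrank_mono h7
    have h9 := Submodule.finrank_add_le_finrank_add_finrank
      (Submodule.span ℝ (pv z0 '' Cls J c)) (Submodule.span ℝ (G : Set (Fin n → ℝ)))
    have h10 : Module.finrank ℝ (Submodule.span ℝ (G : Set (Fin n → ℝ))) ≤ G.card :=
      finrank_span_finset_le_card (R := ℝ) G
    have h11 : G.card ≤ (L.erase l0).card := card_image_le
    have h12 := card_erase_add_one hl0
    omega
  -- the coarser colouring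
  let st : Setoid (Fin (n + 1)) :=
    { r := fun j j' => (ev j - ev j' : Fin n → ℝ) ∈ H
      iseqv := ⟨fun j => by rw [sub_self]; exact Submodule.zero_mem _,
        fun {j j'} hj => by
          have h5 := Submodule.neg_mem _ hj
          rwa [neg_sub] at h5,
        fun {j j' j''} h5 h6 => by
          have h7 := Submodule.add_mem _ h5 h6
          rwa [sub_add_sub_cancel] at h7⟩ }
  let c' : Fin (n + 1) → ℤ := fun j => (((Quotient.mk st j).out : Fin (n + 1)).val : ℤ)
  have hc' : ∀ j j', c' j = c' j' ↔ (ev j - ev j' : Fin n → ℝ) ∈ H := by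
    intro j j'
    constructor
    · intro h5
      have h5' : (((Quotient.mk st j).out : Fin (n + 1)).val : ℤ) =
        (((Quotient.mk st j').out : Fin (n + 1)).val : ℤ) := h5
      have h6 : (Quotient.mk st j).out = (Quotient.mk st j').out := Fin.ext (by exact_mod_cast h5')
      have h7 : Quotient.mk st j = Quotient.mk st j' := by
        rw [← Quotient.out_eq (Quotient.mk st j), h6, Quotient.out_eq]
      exact Quotient.exact h7
    · intro h5
      have h7 : Quotient.mk st j = Quotient.mk st j' := Quotient.sound h5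
      simp only [c', h7]
  have hcoarse : ∀ j ∈ J, ∀ j' ∈ J, c j = c j' → c' j = c' j' := by
    intro j hj j' hj' h5
    rw [hc']
    exact Submodule.subset_span ⟨(Sum.inr j, Sum.inr j'), Or.inl ⟨j, hj, j', hj', h5, rfl⟩, rfl⟩
  have hJne : J.Nonempty := by
    obtain ⟨j, hj, -⟩ := h.nc
    exact ⟨j, hj⟩
  have hV := low_dim H c' hJne fun j _ j' _ h5 => (hc' j j').1 h5
  have hcl := span_cls_le z0 J c
  have hLp : L.card ≤ p := by
    have := card_le_univ L
    rwa [Fintype.card_fin] at this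
  -- the terms of the relation
  let A : Finset (Fin s) := univ.filter fun i => ∃ l ∈ L, t l = Sum.inl i ∨ t' l = Sum.inl i
  let Bp : Finset (Fin (n + 1)) :=
    univ.filter fun j => ∃ l ∈ L, t l = Sum.inr j ∨ t' l = Sum.inr j
  have hmem : ∀ l, t l ∈ (crs I J c).disjSum B ∧ t' l ∈ (crs I J c).disjSum B := fun l =>
    ⟨(e (Sum.inl l)).2, (e (Sum.inr l)).2⟩
  have hAc : A ⊆ crs I J c := by
    intro i hi
    obtain ⟨l, -, h5 | h5⟩ := (mem_filter.1 hi).2
    · have := (hmem l).1
      rw [h5, inl_mem_disjSum] at this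
      exact this
    · have := (hmem l).2
      rw [h5, inl_mem_disjSum] at this
      exact this
  have hBpB : Bp ⊆ B := by
    intro i hi
    obtain ⟨l, -, h5 | h5⟩ := (mem_filter.1 hi).2
    · have := (hmem l).1
      rw [h5, inr_mem_disjSum] at this
      exact this
    · have := (hmem l).2
      rw [h5, inr_mem_disjSum] at this
      exact this
  have hcount : 2 * L.card ≤ A.card + Bp.card := by
    have h5 : ((L.disjSum L).image fun x => (e x).1).card = 2 * L.card := by
      rw [card_image_of_injective _ (fun x y hxy => hinj x y hxy), card_disjSum]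
      ring
    rw [← h5, ← card_disjSum]
    refine card_le_card fun q hq => ?_
    obtain ⟨x, hx, rfl⟩ := mem_image.1 hq
    obtain ⟨l, hl, hlx⟩ : ∃ l ∈ L, (e x).1 = t l ∨ (e x).1 = t' l := by
      rcases x with l | l
      · exact ⟨l, inl_mem_disjSum.1 hx, Or.inl rfl⟩
      · exact ⟨l, inr_mem_disjSum.1 hx, Or.inr rfl⟩
    change (e x).1 ∈ A.disjSum Bp
    generalize (e x).1 = y at hlx ⊢
    rcases y with i | j
    · exact inl_mem_disjSum.2 (mem_filter.2 ⟨mem_univ _, l, hl, hlx.imp Eq.symm Eq.symm⟩)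
    · exact inr_mem_disjSum.2 (mem_filter.2 ⟨mem_univ _, l, hl, hlx.imp Eq.symm Eq.symm⟩)
  have hN : (crs I J c').card + A.card ≤ (crs I J c).card := by
    rw [← card_union_of_disjoint]
    · refine card_le_card (union_subset (fun i hi => ?_) hAc)
      obtain ⟨h5, h6⟩ := mem_crs.1 hi
      exact mem_crs.2 ⟨h5, fun h7 => h6 fun x hx y hy =>
        hcoarse x (h5 hx) y (h5 hy) (h7 x hx y hy)⟩
    · rw [disjoint_left]
      intro i hi hiA
      obtain ⟨h5, h6⟩ := mem_crs.1 hi
      obtain ⟨l, hl, h7⟩ := (mem_filter.1 hiA).2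
      refine h6 fun x hx y hy => (hc' x y).2 ?_
      exact hterm l hl (Sum.inl i) (h7.imp Eq.symm Eq.symm) x hx y hy
  have hsg : sgl J c' ⊆ sgl J c := by
    intro x hx
    obtain ⟨h5, h6⟩ := mem_sgl.1 hx
    exact mem_sgl.2 ⟨h5, fun y hy hyx => h6 y hy (hcoarse y hy x h5 hyx)⟩
  have hD := card_le_card hsg
  have hone := h.one
  have hBp := card_le_card hBpB
  have hD2 : 2 ≤ Bp.card → (sgl J c').card + 1 ≤ (sgl J c).card := by
    intro h2
    have h5 : Bp = B := eq_of_subset_of_card_le hBpB (by omega)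
    have h6 : (sgl J c).card = 1 := by omega
    obtain ⟨js, hjs⟩ := card_eq_one.1 h6
    have h7 : js ∈ sgl J c := by rw [hjs]; exact mem_singleton_self _
    have h8 : js ∈ Bp := by rw [h5]; exact hsB h7
    obtain ⟨h9, h10⟩ := mem_sgl.1 h7
    -- the partner
    have hpartner : ∀ q ∈ (crs I J c).disjSum B, q ≠ Sum.inr js →
        ∃ j' ∈ tv I q, j' ∈ J ∧ j' ≠ js := by
      rintro (i | j') hq hqj
      · obtain ⟨h11, h12⟩ := mem_crs.1 (inl_mem_disjSum.1 hq)
        by_contra hcon
        push Not at hcon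
        apply h12
        intro x hx y hy
        rw [hcon x hx (h11 hx), hcon y hy (h11 hy)]
      · refine ⟨j', mem_singleton_self _, hBJ (inr_mem_disjSum.1 hq), ?_⟩
        rintro rfl
        exact hqj rfl
    have hex : ∃ j' ∈ J, j' ≠ js ∧ (ev j' - ev js : Fin n → ℝ) ∈ H := by
      obtain ⟨l, hl, h11 | h11⟩ := (mem_filter.1 h8).2
      · obtain ⟨j', h12, h13, h14⟩ := hpartner (t' l) (hmem l).2 fun h12 =>
          htn l l (h11.trans h12.symm)
        exact ⟨j', h13, h14, hall l hl (t' l) (Or.inr rfl) (Sum.inr js) (Or.inl h11.symm) j' h12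
          js (mem_singleton_self _)⟩
      · obtain ⟨j', h12, h13, h14⟩ := hpartner (t l) (hmem l).1 fun h12 =>
          htn l l (h12.trans h11.symm)
        exact ⟨j', h13, h14, hall l hl (t l) (Or.inl rfl) (Sum.inr js) (Or.inr h11.symm) j' h12
          js (mem_singleton_self _)⟩
    obtain ⟨j', h11, h12, h13⟩ := hex
    have h14 : js ∉ sgl J c' := fun h15 => h12 ((mem_sgl.1 h15).2 j' h11 ((hc' j' js).2 h13))
    have h15 : sgl J c' ⊆ (sgl J c).erase js := fun x hx => mem_erase.2
      ⟨fun h16 => h14 (h16 ▸ hx), hsg hx⟩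
    have h16 := card_le_card h15
    have h17 := card_erase_add_one h7
    omega
  have hnc' : ∃ j ∈ J, ∃ j' ∈ J, c' j ≠ c' j' := nc_of_card (by omega)
  have hfin := h.max c' hnc'
  unfold exc at hfin
  have hLpos : 1 ≤ L.card := card_pos.2 ⟨l0, hl0⟩
  rcases Nat.lt_or_ge Bp.card 2 with h5 | h5
  · omega
  · have h6 := hD2 h5
    omega

end Pool.Agent.R869.Wd
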