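import Pool.Agent.R869.TTor

/-!
Orbits in hypersurfaces with typical monomials.
-/

set_option autoImplicit false

namespace Pool.Agent.R869.Wd

open Finset MvPolynomial Pool.Agent.W602.GT

variable {n s : ℕ} {I : Fin s → Finset (Fin (n + 1))} {d : ℕ} {a : Fin s → (Fin (n + 1) →₀ ℕ)}
  {J : Finset (Fin (n + 1))} {c : Fin (n + 1) → ℤ}

theorem ev_inj {j j' : Fin (n + 1)} (h : (ev j : Fin n → ℝ) = ev j') : j = j' := by
  have key : ∀ j j' : Fin (n + 1), (ev j : Fin n → ℝ) = ev j' → j ≠ Fin.last n → j = j' := by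
    intro j j' h hj
    obtain ⟨l, rfl⟩ := Fin.exists_castSucc_eq.2 hj
    have h1 := congrFun h l
    simp only [ev, if_true] at h1
    by_contra hne
    rw [if_neg (Ne.symm hne)] at h1
    exact one_ne_zero h1
  by_cases hj : j = Fin.last n
  · by_cases hj' : j' = Fin.last n
    · rw [hj, hj']
    · exact (key j' j h.symm hj').symm
  · exact key j j' h hj

/-- The monomials are different. -/
theorem TypI.expo_inj (h : TypI I d a) (hI : ∀ i, 2 ≤ (I i).card) :
    Function.Injective (expo d a) := by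
  classical
  have hsup : ∀ i, (a i).support = I i := fun i => subset_antisymm (h.mem i).1 fun j hj =>
    Finsupp.mem_support_iff.2 (h.coord i j hj)
  have h1 : ∀ i j, a i ≠ Finsupp.single j d := by
    intro i j hij
    have h2 := hsup i
    rw [hij, Finsupp.support_single_ne_zero _ h.pos.ne'] at h2
    have h3 := hI i
    rw [← h2, card_singleton] at h3
    omega
  have h2 : ∀ i i', a i = a i' → i = i' := by
    intro i i' hii
    by_contra hne
    obtain ⟨j, hj, j', hj', hjj⟩ := one_lt_card.1 (hI i)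
    have h3 := fresh (adm_scl h.pos h.mem) h.gen i (Sum.inl i')
      (fun h4 => hne (Sum.inl.inj h4).symm) ∅ (fun x hx => absurd hx (Set.notMem_empty x)) (by
        have h4 : pv (sclI d a) (Sum.inl i, Sum.inl i') = 0 := by
          funext l
          simp [pv, vz, sclI, hii]
        rw [h4]
        exact Submodule.zero_mem _) j j' hj hj'
    rw [Set.image_empty, Submodule.span_empty, Submodule.mem_bot, sub_eq_zero] at h3
    exact hjj (ev_inj h3)
  rintro (i | j) (i' | j') hq
  · rw [h2 i i' hq]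
  · exact absurd hq (h1 i j')
  · exact absurd hq.symm (h1 i' j)
  · have h3 : (Finsupp.single j d : Fin (n + 1) →₀ ℕ) = Finsupp.single j' d := hq
    rw [Finsupp.single_left_inj h.pos.ne'] at h3
    rw [h3]

/-- the part of a form in the variables of one colour -/
noncomputable def blk (I : Fin s → Finset (Fin (n + 1))) (d : ℕ)
    (a : Fin s → (Fin (n + 1) →₀ ℕ)) (F : MvPolynomial (Fin (n + 1)) ℂ)
    (J : Finset (Fin (n + 1))) (c : Fin (n + 1) → ℤ) (v : ℤ) : MvPolynomial (Fin (n + 1)) ℂ :=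
  ∑ i ∈ cns I J c v, monomial (a i) (F.coeff (a i)) +
    ∑ j ∈ J.filter (fun j => c j = v), monomial (Finsupp.single j d) (F.coeff (Finsupp.single j d))

theorem blk_hom (h : TypI I d a) (F : MvPolynomial (Fin (n + 1)) ℂ) (v : ℤ) :
    (blk I d a F J c v).IsHomogeneous d := by
  refine IsHomogeneous.add (IsHomogeneous.sum _ _ _ fun i _ => ?_)
    (IsHomogeneous.sum _ _ _ fun j _ => ?_)
  · apply isHomogeneous_monomial
    rw [Finsupp.degree_eq_sum]
    exact (h.mem i).2
  · apply isHomogeneous_monomial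
    exact Finsupp.degree_single _ _

theorem blk_coeff (h : TypI I d a) (hI : ∀ i, 2 ≤ (I i).card) (F : MvPolynomial (Fin (n + 1)) ℂ)
    {j : Fin (n + 1)} (hj : j ∈ J) :
    (blk I d a F J c (c j)).coeff (Finsupp.single j d) = F.coeff (Finsupp.single j d) := by
  classical
  have hinj := h.expo_inj hI
  unfold blk
  rw [coeff_add, coeff_sum, coeff_sum]
  simp only [coeff_monomial]
  rw [Finset.sum_eq_zero, zero_add, Finset.sum_eq_single_of_mem j]
  · rw [if_pos rfl]
  · exact mem_filter.2 ⟨hj, rfl⟩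
  · intro j' _ hjj
    rw [if_neg]
    intro h1
    exact hjj (Sum.inr.inj (hinj (a₁ := Sum.inr j') (a₂ := Sum.inr j) h1))
  · intro i _
    rw [if_neg]
    intro h1
    exact Sum.inl_ne_inr (hinj (a₁ := Sum.inl i) (a₂ := Sum.inr j) h1)

theorem prod_sgl (x : Fin (n + 1) → ℂ) (j : Fin (n + 1)) (d : ℕ) :
    ∏ k, x k ^ (Finsupp.single j d : Fin (n + 1) →₀ ℕ) k = x j ^ d := by
  classical
  rw [Finset.prod_eq_single j]
  · rw [Finsupp.single_eq_same]
  · intro k _ hk
    rw [Finsupp.single_eq_of_ne hk, pow_zero]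
  · exact fun h => absurd (mem_univ _) h

theorem sum_sgl {R : Type*} [CommRing R] (y : Fin (n + 1) → R) (j : Fin (n + 1)) (d : ℕ) :
    ∑ k, (((Finsupp.single j d : Fin (n + 1) →₀ ℕ) k : ℕ) : R) * y k = d * y j := by
  classical
  rw [Finset.sum_eq_single j]
  · rw [Finsupp.single_eq_same]
  · intro k _ hk
    rw [Finsupp.single_eq_of_ne hk, Nat.cast_zero, zero_mul]
  · exact fun h => absurd (mem_univ _) h

theorem eval_blk (F : MvPolynomial (Fin (n + 1)) ℂ) (v : ℤ) (x : Fin (n + 1) → ℂ) :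
    eval x (blk I d a F J c v) = ∑ i ∈ cns I J c v, F.coeff (a i) * ∏ j, x j ^ a i j +
      ∑ j ∈ J.filter (fun j => c j = v), F.coeff (Finsupp.single j d) * x j ^ d := by
  classical
  unfold blk
  rw [map_add, map_sum, map_sum]
  congr 1
  · refine Finset.sum_congr rfl fun i _ => ?_
    rw [eval_monomial, Finsupp.prod_fintype _ _ fun j => pow_zero _]
  · refine Finset.sum_congr rfl fun j _ => ?_
    rw [eval_monomial, Finsupp.prod_fintype _ _ fun j => pow_zero _, prod_sgl]

/-- **Orbits.** -/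
theorem TypI.orbit (h : TypI I d a) (hI : ∀ i, 2 ≤ (I i).card) (ho : Opt I J c)
    {F : MvPolynomial (Fin (n + 1)) ℂ} (hF : F.support = withPowers d a) :
    ∃ (x : Fin (n + 1) → ℂ) (b : Fin (n + 1) → ℤ), (∀ j, x j ≠ 0 ↔ j ∈ J) ∧
      (∃ j ∈ J, ∃ j' ∈ J, b j ≠ b j') ∧ ∀ v, val x (wc b v F) = 0 := by
  classical
  obtain ⟨B, p, hsB, hBJ, hB1, hBc, hp, hBinj⟩ := ho.blocks
  have hz0 : Adm I (sclI d a) := adm_scl h.pos h.mem
  have hinj := h.expo_inj hI
  have hco : ∀ q, F.coeff (expo d a q) ≠ 0 := fun q => by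
    rw [← mem_support_iff, hF]
    exact mem_withPowers.2 ⟨q, rfl⟩
  -- the terms in pairs
  have hcard : Fintype.card {q // q ∈ (crs I J c).disjSum B} = Fintype.card (Fin p ⊕ Fin p) := by
    rw [Fintype.card_coe, card_disjSum, Fintype.card_sum, Fintype.card_fin, hBc]
    ring
  let e : Fin p ⊕ Fin p ≃ {q // q ∈ (crs I J c).disjSum B} := (Fintype.equivOfCardEq hcard).symm
  let t : Fin p → Fin s ⊕ Fin (n + 1) := fun l => (e (Sum.inl l)).1
  let t' : Fin p → Fin s ⊕ Fin (n + 1) := fun l => (e (Sum.inr l)).1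
  have htJ : ∀ q ∈ (crs I J c).disjSum B, ∀ j, j ∉ J → expo d a q j = 0 := by
    rintro (i | j0) hq j hj
    · have h1 := (mem_crs.1 (inl_mem_disjSum.1 hq)).1
      exact Finsupp.notMem_support_iff.1 fun h2 => hj (h1 ((h.mem i).1 h2))
    · have h1 := hBJ (inr_mem_disjSum.1 hq)
      exact Finsupp.single_eq_of_ne (by rintro rfl; exact hj h1)
  -- weights
  obtain ⟨b, hbc, hbn, hbw⟩ := exists_weights (J := J) c hp (fun l => expo d a (t l))
    (fun l => expo d a (t' l)) (fun l j hj => ⟨htJ _ (e (Sum.inl l)).2 j hj,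
      htJ _ (e (Sum.inr l)).2 j hj⟩)
  -- the blocks
  have hblk : ∀ v ∈ J.image c, ∃ ξ : Fin (n + 1) → ℂ, (∀ j, ξ j ≠ 0) ∧
      ((∃ j ∈ B, c j = v) → eval ξ (blk I d a F J c v) ≠ 0) ∧
      ((¬ ∃ j ∈ B, c j = v) → eval ξ (blk I d a F J c v) = 0) := by
    intro v hv
    obtain ⟨j, hj, rfl⟩ := mem_image.1 hv
    by_cases hB : ∃ j' ∈ B, c j' = c j
    · have h1 : blk I d a F J c (c j) ≠ 0 := by
        intro h0
        have h2 := blk_coeff (c := c) h hI F hj
        rw [h0, coeff_zero] at h2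
        exact hco (Sum.inr j) h2.symm
      obtain ⟨ξ, h3, h4⟩ := torus_ne h1
      exact ⟨ξ, h3, fun _ => h4, fun h5 => absurd hB h5⟩
    · obtain ⟨j', hj', hjj, hcj⟩ : ∃ j' ∈ J, j' ≠ j ∧ c j' = c j := by
        by_contra hcon
        push Not at hcon
        exact hB ⟨j, hsB (mem_sgl.2 ⟨hj, fun y hy hyc =>
          by_contra fun h5 => hcon y hy h5 hyc⟩), rfl⟩
      obtain ⟨ξ, h3, h4⟩ := torus_zero (blk_hom (J := J) (c := c) h F (c j)) h.pos hjj
        (by rw [← hcj, blk_coeff h hI F hj']; exact hco (Sum.inr j'))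
        (by rw [blk_coeff h hI F hj]; exact hco (Sum.inr j))
      exact ⟨ξ, h3, fun h5 => absurd h5 hB, fun _ => h4⟩
  choose! ξs hξ1 hξ2 hξ3 using hblk
  let ξ : Fin (n + 1) → ℂ := fun j => if j ∈ J then ξs (c j) j else 1
  have hξJ : ∀ j ∈ J, ξ j = ξs (c j) j := fun j hj => if_pos hj
  have hξ : ∀ j, ξ j ≠ 0 := by
    intro j
    by_cases hj : j ∈ J
    · rw [hξJ j hj]
      exact hξ1 _ (mem_image_of_mem _ hj) j
    · simp only [ξ, if_neg hj]
      exact one_ne_zero
  -- the values of the terms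
  let ω : Fin s ⊕ Fin (n + 1) → ℂ := Sum.elim (fun i => F.coeff (a i) * ∏ j, ξ j ^ a i j)
    (fun j => eval (ξs (c j)) (blk I d a F J c (c j)))
  have hω : ∀ q ∈ (crs I J c).disjSum B, ω q ≠ 0 := by
    rintro (i | j) hq
    · exact mul_ne_zero (hco (Sum.inl i)) (prod_ne_zero_iff.2 fun j _ => pow_ne_zero _ (hξ j))
    · have hj := inr_mem_disjSum.1 hq
      exact hξ2 _ (mem_image_of_mem _ (hBJ hj)) ⟨j, hj, rfl⟩
  obtain ⟨y, hyc, hyl⟩ := exists_logs (I := I) h.pos a t t'
    (fun cf hcf => ho.indep hz0 h.gen hsB hBJ hB1 hp e cf hcf)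
    (fun l => Complex.log (-ω (t' l) / ω (t l)))
  let x : Fin (n + 1) → ℂ := fun j => if j ∈ J then Complex.exp (y j) * ξ j else 0
  have hxJ : ∀ j ∈ J, x j = Complex.exp (y j) * ξ j := fun j hj => if_pos hj
  have hx0 : ∀ j, j ∉ J → x j = 0 := fun j hj => if_neg hj
  refine ⟨x, b, fun j => ?_, hbn, fun v => ?_⟩
  · constructor
    · intro hj
      by_contra h1
      exact hj (hx0 j h1)
    · intro hj
      rw [hxJ j hj]
      exact mul_ne_zero (Complex.exp_ne_zero _) (hξ j)
  let E : Fin s ⊕ Fin (n + 1) → ℂ := fun q => ∑ j, (expo d a q j : ℂ) * y j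
  let g : ℤ → ℂ := fun w => if w = v then 1 else 0
  have hmon : ∀ i, I i ⊆ J → ∏ j, x j ^ a i j =
      Complex.exp (E (Sum.inl i)) * ∏ j, ξ j ^ a i j := by
    intro i hi
    have h1 : ∀ j, x j ^ a i j = Complex.exp ((a i j : ℂ) * y j) * ξ j ^ a i j := by
      intro j
      by_cases hj : j ∈ J
      · rw [hxJ j hj, mul_pow, ← Complex.exp_nat_mul]
      · have h2 : a i j = 0 := Finsupp.notMem_support_iff.1 fun h2 => hj (hi ((h.mem i).1 h2))
        rw [h2]
        simp
    rw [prod_congr rfl fun j _ => h1 j, prod_mul_distrib, ← Complex.exp_sum]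
    rfl
  have hmon0 : ∀ i, ¬ I i ⊆ J → ∏ j, x j ^ a i j = 0 := by
    intro i hi
    obtain ⟨j, hj, hjJ⟩ := not_subset.1 hi
    exact prod_eq_zero (mem_univ j) (by rw [hx0 j hjJ]; exact zero_pow (h.coord i j hj))
  let V : Fin s ⊕ Fin (n + 1) → ℂ := fun q =>
    g (wgt b (expo d a q)) * (F.coeff (expo d a q) * ∏ j, x j ^ expo d a q j)
  have hval : val x (wc b v F) = ∑ q, V q := by
    rw [val_wc, sum_filter, hF]
    have h1 : withPowers d a = univ.image (expo d a) := by
      ext α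
      rw [mem_withPowers]
      simp
    rw [h1, sum_image fun q _ q' _ hq => hinj hq]
    refine sum_congr rfl fun q _ => ?_
    change (if wgt b (expo d a q) = v then _ else _) = (if wgt b (expo d a q) = v then _ else _) * _
    split_ifs
    · rw [one_mul]
      rfl
    · rw [zero_mul]
  -- the colours
  let K : ℤ → ℂ := fun u => ∑ i ∈ cns I J c u, V (Sum.inl i) +
    ∑ j ∈ J.filter (fun j => c j = u), V (Sum.inr j)
  have hK : ∀ j0 ∈ J, K (c j0) = g (d * b j0) * (Complex.exp (d * y j0) *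
      eval (ξs (c j0)) (blk I d a F J c (c j0))) := by
    intro j0 hj0
    rw [eval_blk]
    simp only [K]
    rw [mul_add, mul_add, mul_sum, mul_sum, mul_sum, mul_sum]
    congr 1
    · refine sum_congr rfl fun i hi => ?_
      obtain ⟨h1, h2⟩ := mem_cns.1 hi
      have h3 : wgt b (expo d a (Sum.inl i)) = d * b j0 := by
        have h4 : ∀ j, ((a i j : ℕ) : ℤ) * b j = ((a i j : ℕ) : ℤ) * b j0 := by
          intro j
          by_cases hj : j ∈ I i
          · rw [hbc j (h1 hj) j0 hj0 (h2 j hj)]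
          · rw [Finsupp.notMem_support_iff.1 fun h5 => hj ((h.mem i).1 h5)]
            simp
        change ∑ j, ((a i j : ℕ) : ℤ) * b j = _
        rw [sum_congr rfl fun j _ => h4 j, ← sum_mul, ← (h.mem i).2]
        push_cast
        rfl
      have h5 : E (Sum.inl i) = d * y j0 := by
        have h4 : ∀ j, ((a i j : ℕ) : ℂ) * y j = ((a i j : ℕ) : ℂ) * y j0 := by
          intro j
          by_cases hj : j ∈ I i
          · rw [hyc j (h1 hj) j0 hj0 (h2 j hj)]
          · rw [Finsupp.notMem_support_iff.1 fun h5 => hj ((h.mem i).1 h5)]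
            simp
        change ∑ j, ((a i j : ℕ) : ℂ) * y j = _
        rw [sum_congr rfl fun j _ => h4 j, ← sum_mul, ← (h.mem i).2]
        push_cast
        rfl
      have h6 : ∏ j, ξ j ^ a i j = ∏ j, ξs (c j0) j ^ a i j := by
        refine prod_congr rfl fun j _ => ?_
        by_cases hj : j ∈ I i
        · rw [hξJ j (h1 hj), h2 j hj]
        · rw [Finsupp.notMem_support_iff.1 fun h5 => hj ((h.mem i).1 h5), pow_zero, pow_zero]
      change g (wgt b (expo d a (Sum.inl i))) * (F.coeff (a i) * ∏ j, x j ^ a i j) = _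
      rw [h3, hmon i h1, h5, h6]
      ring
    · refine sum_congr rfl fun j hj => ?_
      obtain ⟨h1, h2⟩ := mem_filter.1 hj
      change g (∑ k, (((Finsupp.single j d : Fin (n + 1) →₀ ℕ) k : ℕ) : ℤ) * b k) *
        (F.coeff (Finsupp.single j d) * ∏ k, x k ^ (Finsupp.single j d : Fin (n + 1) →₀ ℕ) k) = _
      rw [sum_sgl, prod_sgl, hxJ j h1, hbc j h1 j0 hj0 h2, hyc j h1 j0 hj0 h2, hξJ j h1, h2,
        mul_pow, ← Complex.exp_nat_mul]
      ring
  let Θ : Fin s ⊕ Fin (n + 1) → ℂ := fun q =>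
    g (wgt b (expo d a q)) * (Complex.exp (E q) * ω q)
  have hsum : ∑ q, V q = ∑ q ∈ (crs I J c).disjSum B, Θ q := by
    rw [Fintype.sum_sum_type, sum_disjSum]
    have h1 : ∑ i, V (Sum.inl i) = ∑ i ∈ crs I J c, V (Sum.inl i) +
        ∑ u ∈ J.image c, ∑ i ∈ cns I J c u, V (Sum.inl i) := by
      rw [← sum_biUnion, ← sum_union]
      · symm
        refine sum_subset (subset_univ _) fun i _ hi => ?_
        have h2 : ¬ I i ⊆ J := by
          intro h3
          apply hi
          rw [mem_union]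
          by_cases h4 : ∀ j ∈ I i, ∀ j' ∈ I i, c j = c j'
          · right
            obtain ⟨j, hj⟩ := h.ne i
            exact mem_biUnion.2 ⟨c j, mem_image_of_mem _ (h3 hj), mem_cns.2
              ⟨h3, fun j' hj' => h4 j' hj' j hj⟩⟩
          · left
            exact mem_crs.2 ⟨h3, h4⟩
        change g _ * (F.coeff (a i) * ∏ j, x j ^ a i j) = 0
        rw [hmon0 i h2, mul_zero, mul_zero]
      · rw [disjoint_left]
        intro i hi hi'
        obtain ⟨u, -, hu⟩ := mem_biUnion.1 hi'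
        refine (mem_crs.1 hi).2 fun j hj j' hj' => ?_
        rw [(mem_cns.1 hu).2 j hj, (mem_cns.1 hu).2 j' hj']
      · intro u _ u' _ huu
        change Disjoint (cns I J c u) (cns I J c u')
        rw [disjoint_left]
        intro i hi hi'
        obtain ⟨j, hj⟩ := h.ne i
        exact huu (((mem_cns.1 hi).2 j hj).symm.trans ((mem_cns.1 hi').2 j hj))
    have h2 : ∑ j, V (Sum.inr j) =
        ∑ u ∈ J.image c, ∑ j ∈ J.filter (fun j => c j = u), V (Sum.inr j) := by
      rw [sum_fiberwise_of_maps_to fun j hj => mem_image_of_mem c hj]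
      symm
      refine sum_subset (subset_univ _) fun j _ hj => ?_
      change g _ * (F.coeff (Finsupp.single j d) *
        ∏ k, x k ^ (Finsupp.single j d : Fin (n + 1) →₀ ℕ) k) = 0
      rw [prod_sgl, hx0 j hj, zero_pow h.pos.ne', mul_zero, mul_zero]
    rw [h1, h2, add_assoc, ← sum_add_distrib]
    congr 1
    · refine sum_congr rfl fun i hi => ?_
      change g (wgt b (expo d a (Sum.inl i))) * (F.coeff (a i) * ∏ j, x j ^ a i j) =
        g (wgt b (expo d a (Sum.inl i))) * (Complex.exp (E (Sum.inl i)) *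
          (F.coeff (a i) * ∏ j, ξ j ^ a i j))
      rw [hmon i (mem_crs.1 hi).1]
      ring
    · change ∑ u ∈ J.image c, K u = _
      have h3 : B.image c ⊆ J.image c := image_subset_image hBJ
      rw [← sum_subset h3, sum_image fun j hj j' hj' hjj => hBinj j hj j' hj' hjj]
      · refine sum_congr rfl fun j hj => ?_
        rw [hK j (hBJ hj)]
        change _ = g (∑ k, (((Finsupp.single j d : Fin (n + 1) →₀ ℕ) k : ℕ) : ℤ) * b k) *
          (Complex.exp (∑ k, (((Finsupp.single j d : Fin (n + 1) →₀ ℕ) k : ℕ) : ℂ) * y k) * _)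
        rw [sum_sgl, sum_sgl]
        rfl
      · intro u hu hu'
        obtain ⟨j, hj, rfl⟩ := mem_image.1 hu
        rw [hK j hj, hξ3 _ hu, mul_zero, mul_zero]
        rintro ⟨j', hj', h4⟩
        exact hu' (mem_image.2 ⟨j', hj', h4⟩)
  rw [hval, hsum, ← Finset.sum_coe_sort, ← Equiv.sum_comp e, Fintype.sum_sum_type,
    ← sum_add_distrib]
  refine sum_eq_zero fun l _ => ?_
  change Θ (t l) + Θ (t' l) = 0
  have h1 : E (t l) = Complex.log (-ω (t' l) / ω (t l)) + E (t' l) := hyl l
  have h2 : ω (t l) ≠ 0 := hω _ (e (Sum.inl l)).2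
  have h3 : ω (t' l) ≠ 0 := hω _ (e (Sum.inr l)).2
  simp only [Θ]
  rw [h1, Complex.exp_add, Complex.exp_log (div_ne_zero (neg_ne_zero.2 h3) h2), hbw l]
  field_simp
  ring

end Pool.Agent.R869.Wd
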