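import Pool.Agent.R869.TOrb
import Pool.Agent.R869.SDir

/-!
The criterion for the existence of entire curves is sharp for hypersurfaces.
-/

set_option autoImplicit false

open FF MvPolynomial Pool.Agent.W602.GT Pool.Agent.H159R3.GGLLog Pool.Agent.W603.BP

namespace Pool.Agent.R869.Wd

variable {n s : ℕ} {I : Fin s → Finset (Fin (n + 1))} {d : ℕ} {a : Fin s → (Fin (n + 1) →₀ ℕ)}

/-- orbits as entire curves -/
theorem curve_of_orbit {ι : Type} {F : ι → MvPolynomial (Fin (n + 1)) ℂ} {x : Fin (n + 1) → ℂ}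
    {b : Fin (n + 1) → ℤ} (h : OrbitIn F b x) {J : Finset (Fin (n + 1))}
    (hx : ∀ j, x j ≠ 0 ↔ j ∈ J) (hb : ∃ j ∈ J, ∃ j' ∈ J, b j ≠ b j') {U : Set (Fin (n + 1))}
    (hU : ∀ j ∈ U, j ∈ J) : ∃ f, EntireCurve U F f ∧ ∀ z j, f z j ≠ 0 ↔ j ∈ J := by
  obtain ⟨j, hj, j', hj', hjj⟩ := hb
  let f : ℂ → Fin (n + 1) → ℂ := fun z l => Complex.exp (b l * z) * x l
  have hf : ∀ z l, f z l ≠ 0 ↔ l ∈ J := fun z l => by
    rw [← hx]
    simp [f, Complex.exp_ne_zero]
  refine ⟨f, ⟨?_, fun z => ⟨fun h0 => ?_, fun l hl => (hf z l).2 (hU l hl), fun e => ?_⟩, ?_⟩, hf⟩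
  · rw [differentiable_pi]
    intro l
    exact ((differentiable_id.const_mul _).cexp).mul (differentiable_const _)
  · exact (hf z j).2 hj (congrFun h0 j)
  · have h1 := h (Complex.exp z) (Complex.exp_ne_zero z) e
    have h2 : f z = fun i => Complex.exp z ^ b i * x i := by
      funext l
      simp only [f]
      rw [← Complex.exp_int_mul]
    rw [h2]
    exact h1
  · by_contra hcon
    push Not at hcon
    -- the ratios are constant
    have hr : ∀ z w : ℂ, Complex.exp ((b j - b j') * (z - w)) = 1 := by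
      intro z w
      obtain ⟨c, hc⟩ := hcon z w
      have h1 := congrFun hc j
      have h2 := congrFun hc j'
      simp only [f, Pi.smul_apply, smul_eq_mul] at h1 h2
      have hxj := (hx j).2 hj
      have hxj' := (hx j').2 hj'
      have h3 : Complex.exp (b j * z) = c * Complex.exp (b j * w) :=
        mul_right_cancel₀ hxj (by rw [h1]; ring)
      have h4 : Complex.exp (b j' * z) = c * Complex.exp (b j' * w) :=
        mul_right_cancel₀ hxj' (by rw [h2]; ring)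
      have hc0 : c ≠ 0 := by
        rintro rfl
        rw [zero_mul] at h3
        exact Complex.exp_ne_zero _ h3
      have h5 : Complex.exp ((b j - b j') * (z - w)) = Complex.exp (b j * z) /
          Complex.exp (b j * w) * (Complex.exp (b j' * w) / Complex.exp (b j' * z)) := by
        rw [← Complex.exp_sub, ← Complex.exp_sub, ← Complex.exp_add]
        congr 1
        ring
      rw [h5, h3, h4]
      have h6 := Complex.exp_ne_zero (b j * w)
      have h7 := Complex.exp_ne_zero (b j' * w)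
      field_simp
    have hne : ((b j : ℂ) - b j') ≠ 0 := by
      rw [sub_ne_zero]
      exact_mod_cast hjj
    have h1 := hr (1 / (b j - b j')) 0
    rw [sub_zero, mul_one_div_cancel hne] at h1
    have h2 : Complex.exp 1 = ((Real.exp 1 : ℝ) : ℂ) := by
      rw [Complex.ofReal_exp, Complex.ofReal_one]
    rw [h2] at h1
    have h3 : Real.exp 1 = 1 := by exact_mod_cast h1
    have h4 := Real.add_one_lt_exp (one_ne_zero)
    rw [h3] at h4
    norm_num at h4

/-- **The strata.** -/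
theorem TypI.stratum (h : TypI I d a) (hI : ∀ i, 2 ≤ (I i).card)
    {F : MvPolynomial (Fin (n + 1)) ℂ} (hF : F.support = withPowers d a)
    (J : Finset (Fin (n + 1))) :
    [¬ Spread I 1 J,
      ∃ (x : Fin (n + 1) → ℂ) (b : Fin (n + 1) → ℤ), (∀ j, x j ≠ 0 ↔ j ∈ J) ∧
        (∃ j ∈ J, ∃ j' ∈ J, b j ≠ b j') ∧ OrbitIn (fun _ : Fin 1 => F) b x,
      ∃ f, EntireCurve ∅ (fun _ : Fin 1 => F) f ∧ ∀ z j, f z j ≠ 0 ↔ j ∈ J,
      ∃ f, EntireCurve ∅ (fun _ : Fin 1 => F) f ∧ ∀ j, (∃ z, f z j ≠ 0) ↔ j ∈ J].TFAE := by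
  have hFT : ∀ e : Fin 1, ((fun _ : Fin 1 => F) e).support ⊆ withPowers d a := fun _ => by
    rw [hF]
  tfae_have 1 → 2 := by
    intro hs
    rw [spread_one hI] at hs
    push Not at hs
    obtain ⟨c0, h0, h4⟩ := hs
    obtain ⟨c, hc⟩ := exists_opt (I := I) h0 (by omega)
    obtain ⟨x, b, hx, hb, hw⟩ := h.orbit hI hc hF
    exact ⟨x, b, hx, hb, orbitIn_of_wc fun _ v => hw v⟩
  tfae_have 2 → 3 := by
    rintro ⟨x, b, hx, hb, ho⟩
    exact curve_of_orbit ho hx hb fun j hj => absurd hj (Set.notMem_empty j)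
  tfae_have 3 → 4 := by
    rintro ⟨f, hf, hj⟩
    exact ⟨f, hf, fun j => ⟨fun ⟨z, hz⟩ => (hj z j).1 hz, fun h1 => ⟨0, (hj 0 j).2 h1⟩⟩⟩
  tfae_have 4 → 1 := by
    rintro ⟨f, hf, hj⟩ hs
    exact h.no_entire hFT (genCoeffs_one hF) hj hs hf
  tfae_finish

/-- **The sharp criterion.** -/
theorem TypI.sharp (h : TypI I d a) (hI : ∀ i, 2 ≤ (I i).card)
    {F : MvPolynomial (Fin (n + 1)) ℂ} (hF : F.support = withPowers d a)
    (U : Set (Fin (n + 1))) :
    (∃ f, EntireCurve U (fun _ : Fin 1 => F) f) ↔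
      ∃ J : Finset (Fin (n + 1)), (∀ j ∈ U, j ∈ J) ∧ ¬ Spread I 1 J := by
  classical
  constructor
  · rintro ⟨f, hf⟩
    refine ⟨Finset.univ.filter fun j => ∃ z, f z j ≠ 0, fun j hj => ?_, ?_⟩
    · exact Finset.mem_filter.2 ⟨Finset.mem_univ _, 0, (hf.2.1 0).2.1 j hj⟩
    · set J0 : Finset (Fin (n + 1)) := Finset.univ.filter fun j => ∃ z, f z j ≠ 0 with hJ0
      have key : (∃ f, EntireCurve ∅ (fun _ : Fin 1 => F) f ∧
          ∀ j, (∃ z, f z j ≠ 0) ↔ j ∈ J0) ↔
          ¬ Spread I 1 J0 := (h.stratum hI hF J0).out 3 0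
      exact key.1 ⟨f, ⟨hf.1, fun z => ⟨(hf.2.1 z).1,
        fun j hj => absurd hj (Set.notMem_empty j), (hf.2.1 z).2.2⟩, hf.2.2⟩,
        fun j => by simp [hJ0]⟩
  · rintro ⟨J, hU, hJ⟩
    obtain ⟨x, b, hx, hb, ho⟩ := ((h.stratum hI hF J).out 0 1).1 hJ
    obtain ⟨f, hf, -⟩ := curve_of_orbit ho hx hb hU
    exact ⟨f, hf⟩

end Pool.Agent.R869.Wd
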