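import Pool.Agent.R869.TInd
import Mathlib.NumberTheory.SiegelsLemma

/-!
Points of the torus, weights and logarithms.
-/

set_option autoImplicit false

namespace Pool.Agent.R869.Wd

open Finset MvPolynomial

variable {n s : ℕ}

theorem dual_of_indep {p : ℕ} (C : Submodule ℝ (Fin n → ℝ)) (v : Fin p → Fin n → ℝ)
    (h : ∀ cf : Fin p → ℝ, ∑ l, cf l • v l ∈ C → cf = 0) :
    ∃ φ : (Fin n → ℝ) →ₗ[ℝ] (Fin p → ℝ), (∀ x ∈ C, φ x = 0) ∧ ∀ l, φ (v l) = Pi.single l 1 := by
  classical
  let g : (Fin p → ℝ) →ₗ[ℝ] ((Fin n → ℝ) ⧸ C) := C.mkQ ∘ₗ (Fintype.linearCombination ℝ v)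
  have hg : LinearMap.ker g = ⊥ := by
    rw [LinearMap.ker_eq_bot']
    intro cf hcf
    apply h
    have h1 : C.mkQ (∑ l, cf l • v l) = 0 := by
      rw [← Fintype.linearCombination_apply]
      exact hcf
    rwa [Submodule.mkQ_apply, Submodule.Quotient.mk_eq_zero] at h1
  obtain ⟨g', hg'⟩ := LinearMap.exists_leftInverse_of_injective g hg
  refine ⟨g' ∘ₗ C.mkQ, fun x hx => ?_, fun l => ?_⟩
  · have h1 : C.mkQ x = 0 := by
      rw [Submodule.mkQ_apply, Submodule.Quotient.mk_eq_zero]
      exact hx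
    rw [LinearMap.comp_apply, h1, map_zero]
  · have h1 : g (Pi.single l 1) = C.mkQ (v l) := by
      change C.mkQ (Fintype.linearCombination ℝ v (Pi.single l 1)) = _
      rw [Fintype.linearCombination_apply_single, one_smul]
    rw [LinearMap.comp_apply, ← h1, ← LinearMap.comp_apply, hg', LinearMap.id_apply]

theorem vz_expo {d : ℕ} (hd : 0 < d) (a : Fin s → (Fin (n + 1) →₀ ℕ)) (q : Fin s ⊕ Fin (n + 1)) :
    vz (sclI d a) q = ∑ j, ((expo d a q j : ℝ) / d) • (ev j : Fin n → ℝ) := by
  have hd' : (d : ℝ) ≠ 0 := by exact_mod_cast hd.ne'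
  funext l
  rw [Finset.sum_apply]
  rcases q with i | j0
  · simp [vz, ev, sclI, expo]
  · simp only [vz, ev, expo, Sum.elim_inr, Pi.smul_apply, smul_eq_mul, mul_ite, mul_one, mul_zero]
    rw [Finset.sum_ite_eq' univ l.castSucc, if_pos (mem_univ _)]
    by_cases h : j0 = l.castSucc
    · rw [if_pos h, h, Finsupp.single_eq_same, div_self hd']
    · rw [if_neg h, Finsupp.single_eq_of_ne (Ne.symm h)]
      simp

/-- **Logarithms.** -/
theorem exists_logs {I : Fin s → Finset (Fin (n + 1))} {J : Finset (Fin (n + 1))}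
    {c : Fin (n + 1) → ℤ} {d : ℕ} (hd : 0 < d) (a : Fin s → (Fin (n + 1) →₀ ℕ)) {p : ℕ}
    (t t' : Fin p → Fin s ⊕ Fin (n + 1))
    (h : ∀ cf : Fin p → ℝ, ∑ l, cf l • pv (sclI d a) (t l, t' l) ∈
      Submodule.span ℝ (pv (sclI d a) '' Cls J c) → cf = 0) (T : Fin p → ℂ) :
    ∃ y : Fin (n + 1) → ℂ, (∀ j ∈ J, ∀ j' ∈ J, c j = c j' → y j = y j') ∧
      ∀ l, ∑ j, (expo d a (t l) j : ℂ) * y j = T l + ∑ j, (expo d a (t' l) j : ℂ) * y j := by
  classical
  have hd' : (d : ℝ) ≠ 0 := by exact_mod_cast hd.ne'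
  have hdc : (d : ℂ) ≠ 0 := by exact_mod_cast hd.ne'
  obtain ⟨φ, hφ1, hφ2⟩ := dual_of_indep _ _ h
  let y : Fin (n + 1) → ℂ := fun j => ∑ l, ((φ (ev j) l : ℝ) : ℂ) * T l / d
  have hE : ∀ q, ∑ j, (expo d a q j : ℂ) * y j = ∑ l, ((φ (vz (sclI d a) q) l : ℝ) : ℂ) * T l := by
    intro q
    rw [vz_expo hd a q]
    simp only [map_sum, map_smul, Finset.sum_apply, Pi.smul_apply, smul_eq_mul, y]
    push_cast
    simp only [Finset.mul_sum, Finset.sum_mul]
    rw [Finset.sum_comm]
    refine sum_congr rfl fun l _ => sum_congr rfl fun j _ => ?_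
    field_simp
  refine ⟨y, fun j hj j' hj' hjj => ?_, fun l => ?_⟩
  · have h1 : φ (ev j - ev j') = 0 :=
      hφ1 _ (Submodule.subset_span ⟨(Sum.inr j, Sum.inr j'), ⟨j, hj, j', hj', hjj, rfl⟩, rfl⟩)
    rw [map_sub, sub_eq_zero] at h1
    simp only [y, h1]
  · rw [hE, hE, ← sub_eq_iff_eq_add, ← sum_sub_distrib]
    have h1 : ∀ m, ((φ (vz (sclI d a) (t l)) m : ℝ) : ℂ) * T m -
        ((φ (vz (sclI d a) (t' l)) m : ℝ) : ℂ) * T m =
        (((Pi.single l 1 : Fin p → ℝ) m : ℝ) : ℂ) * T m := by
      intro m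
      rw [← hφ2 l]
      unfold pv
      rw [map_sub, Pi.sub_apply]
      push_cast
      ring
    rw [sum_congr rfl fun m _ => h1 m, Finset.sum_eq_single l]
    · rw [Pi.single_eq_same]
      simp
    · intro m _ hm
      rw [Pi.single_eq_of_ne hm]
      simp
    · exact fun h2 => absurd (mem_univ _) h2

/-- **Weights.** -/
theorem exists_weights {J : Finset (Fin (n + 1))} (c : Fin (n + 1) → ℤ) {p : ℕ}
    (hp : p + 2 ≤ (J.image c).card) (α α' : Fin p → (Fin (n + 1) →₀ ℕ))
    (hα : ∀ l j, j ∉ J → α l j = 0 ∧ α' l j = 0) :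
    ∃ b : Fin (n + 1) → ℤ, (∀ j ∈ J, ∀ j' ∈ J, c j = c j' → b j = b j') ∧
      (∃ j ∈ J, ∃ j' ∈ J, b j ≠ b j') ∧ ∀ l, wgt b (α l) = wgt b (α' l) := by
  classical
  let Col : Type := {v // v ∈ J.image c}
  have hcard : Fintype.card Col = (J.image c).card := Fintype.card_coe _
  obtain ⟨v0, hv0⟩ : (J.image c).Nonempty := card_pos.1 (by omega)
  let M : Matrix (Option (Fin p)) Col ℤ := fun x v => x.elim (if v = ⟨v0, hv0⟩ then 1 else 0)
    fun l => ∑ j ∈ J.filter (fun j => c j = v.1), ((α l j : ℤ) - (α' l j : ℤ))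
  obtain ⟨β, hβ0, hβ, -⟩ := Int.Matrix.exists_ne_zero_int_vec_norm_le M (by
    rw [hcard, Fintype.card_option, Fintype.card_fin]
    omega) (by rw [Fintype.card_option]; omega)
  have hβv0 : β ⟨v0, hv0⟩ = 0 := by
    have h1 := congrFun hβ none
    simp only [Matrix.mulVec, dotProduct, M, Option.elim, Pi.zero_apply, ite_mul, one_mul,
      zero_mul] at h1
    rw [Finset.sum_eq_single_of_mem (⟨v0, hv0⟩ : Col) (mem_univ _) (fun v _ hv => if_neg hv),
      if_pos rfl] at h1
    exact h1
  let b : Fin (n + 1) → ℤ := fun j => if h : c j ∈ J.image c then β ⟨c j, h⟩ else 0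
  have hb : ∀ j (hj : j ∈ J), b j = β ⟨c j, mem_image_of_mem _ hj⟩ := fun j hj => by
    simp only [b]
    rw [dif_pos (mem_image_of_mem _ hj)]
  refine ⟨b, fun j hj j' hj' hjj => ?_, ?_, fun l => ?_⟩
  · simp only [b, hjj]
  · obtain ⟨v, hv⟩ := Function.ne_iff.1 hβ0
    obtain ⟨j, hj, hjv⟩ := mem_image.1 v.2
    obtain ⟨j', hj', hjv'⟩ := mem_image.1 hv0
    refine ⟨j, hj, j', hj', ?_⟩
    rw [hb j hj, hb j' hj']
    have h1 : (⟨c j, mem_image_of_mem _ hj⟩ : Col) = v := Subtype.ext hjv
    have h2 : (⟨c j', mem_image_of_mem _ hj'⟩ : Col) = ⟨v0, hv0⟩ := Subtype.ext hjv'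
    rw [h1, h2, hβv0]
    exact hv
  · have h1 := congrFun hβ (some l)
    simp only [Matrix.mulVec, dotProduct, M, Option.elim, Pi.zero_apply] at h1
    have h2 : ∑ j ∈ J, ((α l j : ℤ) - (α' l j : ℤ)) * b j = 0 := by
      rw [← h1, ← sum_fiberwise_of_maps_to (g := c) (t := J.image c)
        (fun j hj => mem_image_of_mem _ hj)]
      rw [← Finset.sum_coe_sort (J.image c)]
      refine sum_congr rfl fun v _ => ?_
      rw [Finset.sum_mul]
      refine sum_congr rfl fun j hj => ?_
      obtain ⟨h3, h4⟩ := mem_filter.1 hj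
      rw [hb j h3]
      congr 2
      exact Subtype.ext h4
    have h3 : ∀ α : Fin (n + 1) →₀ ℕ, (∀ j, j ∉ J → α j = 0) →
        wgt b α = ∑ j ∈ J, (α j : ℤ) * b j := by
      intro α h
      unfold wgt
      rw [← sum_subset (subset_univ J)]
      intro j _ hj
      rw [h j hj]
      simp
    rw [h3 _ fun j hj => (hα l j hj).1, h3 _ fun j hj => (hα l j hj).2, ← sub_eq_zero,
      ← sum_sub_distrib, ← h2]
    exact sum_congr rfl fun j _ => by ring

/-- a point of the torus where a polynomial does not vanish -/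
theorem torus_ne {G : MvPolynomial (Fin (n + 1)) ℂ} (hG : G ≠ 0) :
    ∃ x : Fin (n + 1) → ℂ, (∀ i, x i ≠ 0) ∧ eval x G ≠ 0 := by
  classical
  by_contra hcon
  push Not at hcon
  have h1 : G * ∏ i, X i = 0 := by
    apply MvPolynomial.funext
    intro x
    rw [map_mul, map_prod, map_zero]
    simp only [eval_X]
    by_cases h : ∀ i, x i ≠ 0
    · rw [hcon x h, zero_mul]
    · push Not at h
      obtain ⟨i, hi⟩ := h
      rw [Finset.prod_eq_zero (mem_univ i) hi, mul_zero]
  rcases mul_eq_zero.1 h1 with h2 | h2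
  · exact hG h2
  · rw [Finset.prod_eq_zero_iff] at h2
    obtain ⟨i, -, hi⟩ := h2
    exact X_ne_zero i hi

theorem eval_axis {G : MvPolynomial (Fin (n + 1)) ℂ} {d : ℕ} (hG : G.IsHomogeneous d)
    (hd : 0 < d) (j : Fin (n + 1)) :
    eval (Pi.single j 1) G = G.coeff (Finsupp.single j d) := by
  classical
  rw [eval_eq]
  have h1 : ∀ α ∈ G.support, α ≠ Finsupp.single j d →
      G.coeff α * ∏ i ∈ α.support, (Pi.single j (1 : ℂ) : Fin (n + 1) → ℂ) i ^ α i = 0 := by
    intro α hα hne
    obtain ⟨i, hi, hij⟩ : ∃ i ∈ α.support, i ≠ j := by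
      by_contra hcon
      push Not at hcon
      apply hne
      have h2 : α.degree = d := by
        rw [Finsupp.degree_eq_weight_one]
        exact hG (mem_support_iff.1 hα)
      have h3 : α = Finsupp.single j (α j) := by
        ext i
        by_cases h : i = j
        · rw [h, Finsupp.single_eq_same]
        · rw [Finsupp.single_eq_of_ne h]
          by_contra h4
          exact h (hcon i (Finsupp.mem_support_iff.2 h4))
      have h4 : α.degree = α j := by
        conv_lhs => rw [h3]
        exact Finsupp.degree_single _ _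
      rw [h3, ← h4, h2]
    rw [Finset.prod_eq_zero hi, mul_zero]
    rw [Pi.single_eq_of_ne hij, zero_pow (Finsupp.mem_support_iff.1 hi)]
  by_cases h2 : Finsupp.single j d ∈ G.support
  · rw [Finset.sum_eq_single_of_mem _ h2 h1, Finsupp.support_single_ne_zero _ hd.ne',
      Finset.prod_singleton, Pi.single_eq_same, one_pow, mul_one]
  · rw [notMem_support_iff.1 h2]
    exact Finset.sum_eq_zero fun α hα => h1 α hα fun h3 => h2 (h3 ▸ hα)

/-- a point of the torus where a form with two powers vanishes -/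
theorem torus_zero {G : MvPolynomial (Fin (n + 1)) ℂ} {d : ℕ} (hG : G.IsHomogeneous d)
    (hd : 0 < d) {j j' : Fin (n + 1)} (hjj : j ≠ j') (hj : G.coeff (Finsupp.single j d) ≠ 0)
    (hj' : G.coeff (Finsupp.single j' d) ≠ 0) :
    ∃ x : Fin (n + 1) → ℂ, (∀ i, x i ≠ 0) ∧ eval x G = 0 := by
  classical
  -- the restriction to `x_j = 0`
  let G0 : MvPolynomial (Fin (n + 1)) ℂ := aeval (fun i => if i = j then 0 else X i) G
  have hG0e : ∀ x : Fin (n + 1) → ℂ, eval x G0 = eval (Function.update x j 0) G := by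
    intro x
    have h1 : ((eval x).comp
        (aeval (fun i => if i = j then (0 : MvPolynomial (Fin (n + 1)) ℂ) else
          X i)).toRingHom) = eval (Function.update x j 0) := by
      apply MvPolynomial.ringHom_ext
      · intro r
        simp
      · intro i
        by_cases h : i = j
        · subst h
          simp
        · simp [h, Function.update_of_ne h]
    exact DFunLike.congr_fun h1 G
  have hG0 : G0 ≠ 0 := by
    intro h0
    apply hj'
    rw [← eval_axis hG hd j']
    have h1 := hG0e (Pi.single j' 1)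
    rw [h0, map_zero] at h1
    have h2 : Function.update (Pi.single j' 1 : Fin (n + 1) → ℂ) j 0 = Pi.single j' 1 := by
      rw [Function.update_eq_self_iff, Pi.single_eq_of_ne hjj]
    rw [h2] at h1
    exact h1.symm
  obtain ⟨η, hη, hη0⟩ := torus_ne hG0
  rw [hG0e] at hη0
  -- the polynomial of one variable
  let g : Polynomial ℂ := aeval (fun i => if i = j then Polynomial.X else Polynomial.C (η i)) G
  have hge : ∀ T : ℂ, g.eval T = eval (Function.update η j T) G := by
    intro T
    have h1 : ((Polynomial.evalRingHom T).comp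
        (aeval (fun i => if i = j then (Polynomial.X : Polynomial ℂ) else
          Polynomial.C (η i))).toRingHom) = eval (Function.update η j T) := by
      apply MvPolynomial.ringHom_ext
      · intro r
        simp
      · intro i
        by_cases h : i = j
        · subst h
          simp
        · simp [h, Function.update_of_ne h]
    exact DFunLike.congr_fun h1 G
  have hgc : g.coeff d = G.coeff (Finsupp.single j d) := by
    simp only [g]
    rw [aeval_def, eval₂_eq', Polynomial.finsetSum_coeff]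
    have h1 : ∀ α ∈ G.support, ((algebraMap ℂ (Polynomial ℂ)) (G.coeff α) *
        ∏ i, (if i = j then (Polynomial.X : Polynomial ℂ) else Polynomial.C (η i)) ^ α i).coeff d
        = if α = Finsupp.single j d then G.coeff (Finsupp.single j d) else 0 := by
      intro α hα
      have h2 : α.degree = d := by
        rw [Finsupp.degree_eq_weight_one]
        exact hG (mem_support_iff.1 hα)
      rw [Finsupp.degree_eq_sum] at h2
      rw [← Finset.mul_prod_erase univ _ (mem_univ j), if_pos rfl]
      have h3 : ∏ i ∈ univ.erase j,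
          (if i = j then (Polynomial.X : Polynomial ℂ) else Polynomial.C (η i)) ^ α i =
          Polynomial.C (∏ i ∈ univ.erase j, η i ^ α i) := by
        rw [map_prod]
        refine prod_congr rfl fun i hi => ?_
        rw [if_neg (mem_erase.1 hi).1, map_pow]
      rw [h3, Polynomial.algebraMap_apply, Algebra.algebraMap_self, RingHom.id_apply,
        mul_comm (Polynomial.X ^ α j), ← mul_assoc, ← map_mul, Polynomial.coeff_C_mul_X_pow]
      rw [← Finset.add_sum_erase univ _ (mem_univ j)] at h2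
      by_cases h4 : d = α j
      · rw [if_pos h4]
        have h5 : ∀ i ∈ univ.erase j, α i = 0 := by
          have h6 : ∑ i ∈ univ.erase j, α i = 0 := by omega
          exact fun i hi => (Finset.sum_eq_zero_iff.1 h6) i hi
        have h6 : α = Finsupp.single j d := by
          ext i
          by_cases h7 : i = j
          · rw [h7, Finsupp.single_eq_same, ← h4]
          · rw [Finsupp.single_eq_of_ne h7]
            exact h5 i (mem_erase.2 ⟨h7, mem_univ _⟩)
        rw [if_pos h6, Finset.prod_eq_one, mul_one, h6]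
        intro i hi
        rw [h5 i hi, pow_zero]
      · rw [if_neg h4, if_neg]
        intro h5
        apply h4
        rw [h5, Finsupp.single_eq_same]
    rw [Finset.sum_congr rfl h1, Finset.sum_ite_eq' G.support]
    split_ifs with h2
    · rfl
    · exact (notMem_support_iff.1 h2).symm
  have hdeg : g.degree ≠ 0 := by
    intro h0
    have h1 := Polynomial.natDegree_eq_of_degree_eq_some (n := 0) (by rw [h0]; rfl)
    have h2 : g.coeff d = 0 := Polynomial.coeff_eq_zero_of_natDegree_lt (by omega)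
    rw [hgc] at h2
    exact hj h2
  obtain ⟨T, hT⟩ := IsAlgClosed.exists_root g hdeg
  rw [Polynomial.IsRoot.def, hge] at hT
  refine ⟨Function.update η j T, fun i => ?_, hT⟩
  by_cases h : i = j
  · rw [h, Function.update_self]
    rintro rfl
    exact hη0 hT
  · rw [Function.update_of_ne h]
    exact hη i

end Pool.Agent.R869.Wd
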