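import Pool.Agent.W603.LV.Blk

/-!
Trees of minimal relations between vectors without vanishing partial sums.
-/

set_option autoImplicit false
set_option linter.unusedSectionVars false

namespace Pool.Agent.R869

/-- A minimal relation between members of the family `g`. -/
structure Circ (k : Type*) {J V : Type*} [Field k] [AddCommGroup V] [Module k V] (g : J → V) where
  /-- the length -/
  m : ℕ
  /-- the members -/
  e : Fin (m + 1) → J
  /-- the members are distinct -/
  inj : Function.Injective e
  /-- the coefficients -/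
  c : Fin (m + 1) → k
  c_ne : ∀ i, c i ≠ 0
  rel : ∑ i, c i • g (e i) = 0
  li : LinearIndependent k
    (fun l => c ((Fin.last m).succAbove l) • g (e ((Fin.last m).succAbove l)))

/-- A system of minimal relations that connects all members of the family with the member `j0`. -/
structure Tree (k : Type*) {J V : Type*} [Field k] [AddCommGroup V] [Module k V] (g : J → V)
    (j0 : J) where
  /-- the relations -/
  C : J → Circ k g
  /-- the predecessors -/
  r : J → J
  /-- the distances -/
  dist : J → ℕ
  self : ∀ l, l ≠ j0 → ∃ i, (C l).e i = l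
  root : ∀ l, l ≠ j0 → ∃ i, (C l).e i = r l
  lt : ∀ l, l ≠ j0 → dist (r l) < dist l

section

variable {k J V : Type*} [Field k] [AddCommGroup V] [Module k V] [Fintype J]

/-- being in a common minimal relation -/
def Adj (k : Type*) {J V : Type*} [Field k] [AddCommGroup V] [Module k V] (g : J → V)
    (i j : J) : Prop := ∃ C : Circ k g, (∃ a, C.e a = i) ∧ ∃ b, C.e b = j

/-- a chain of minimal relations of given length -/
def Pth (k : Type*) {J V : Type*} [Field k] [AddCommGroup V] [Module k V] (g : J → V) (j0 : J) :
    ℕ → J → Prop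
  | 0, j => j = j0
  | n + 1, j => ∃ i, Adj k g j i ∧ Pth k g j0 n i

theorem exists_tree (g : J → V) (hs : ∑ j, g j = 0)
    (hn : ∀ S : Finset J, S.Nonempty → S ≠ Finset.univ → ∑ j ∈ S, g j ≠ 0) (j0 : J) :
    Nonempty (Tree k g j0) := by
  classical
  let R : J → J → Prop := Relation.EqvGen (Adj k g)
  have hRe : Equivalence R := Relation.EqvGen.is_equivalence _
  have h1 := Pool.Agent.W603.LV.class_sum (k := k) g R hRe (by
    intro m e he c hc hrel hli i j
    exact Relation.EqvGen.rel _ _ ⟨⟨m, e, he, c, hc, hrel, hli⟩, ⟨i, rfl⟩, ⟨j, rfl⟩⟩) _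
    (fun _ => 1) le_rfl (by simpa using hs) j0
  have h2 : (Finset.univ.filter fun j => R j0 j) = Finset.univ := by
    by_contra hne
    refine hn _ ⟨j0, Finset.mem_filter.2 ⟨Finset.mem_univ _, hRe.refl j0⟩⟩ hne ?_
    simpa using h1
  have hsymm : ∀ {i j}, Adj k g i j → Adj k g j i := by
    rintro i j ⟨C, h1, h2⟩
    exact ⟨C, h2, h1⟩
  have hex : ∀ i j, R i j → ((∃ n, Pth k g j0 n i) ↔ (∃ n, Pth k g j0 n j)) := by
    intro i j h
    induction h with
    | rel i j h =>
      constructor
      · rintro ⟨n, hn⟩
        exact ⟨n + 1, i, hsymm h, hn⟩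
      · rintro ⟨n, hn⟩
        exact ⟨n + 1, j, h, hn⟩
    | refl i => exact Iff.rfl
    | symm i j _ ih => exact ih.symm
    | trans i j l _ _ ih1 ih2 => exact ih1.trans ih2
  have hall : ∀ j, ∃ n, Pth k g j0 n j := by
    intro j
    have : j ∈ Finset.univ.filter fun j => R j0 j := by rw [h2]; exact Finset.mem_univ j
    exact (hex j0 j (Finset.mem_filter.1 this).2).1 ⟨0, rfl⟩
  have key : ∀ l, l ≠ j0 → ∃ (C : Circ k g) (r : J), (∃ i, C.e i = l) ∧ (∃ i, C.e i = r) ∧
      Nat.find (hall r) < Nat.find (hall l) := by
    intro l hl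
    have h3 := Nat.find_spec (hall l)
    cases h4 : Nat.find (hall l) with
    | zero =>
      rw [h4] at h3
      exact absurd h3 hl
    | succ n =>
      rw [h4] at h3
      obtain ⟨i, ⟨C, hC1, hC2⟩, hi⟩ := h3
      exact ⟨C, i, hC1, hC2, Nat.lt_succ_of_le (Nat.find_min' _ hi)⟩
  by_cases htriv : ∀ l, l = j0
  · -- only one member
    have h5 : g j0 = 0 := by
      rw [← hs]
      have : (Finset.univ : Finset J) = {j0} := by
        ext x
        simp [htriv x]
      rw [this, Finset.sum_singleton]
    have C0 : Circ k g := ⟨0, fun _ => j0, fun a b _ => Subsingleton.elim (α := Fin 1) a b, fun _ => 1,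
      fun _ => one_ne_zero, by simp [h5], by
        apply linearIndependent_empty_type⟩
    exact ⟨⟨fun _ => C0, fun _ => j0, fun _ => 0, fun l hl => absurd (htriv l) hl,
      fun l hl => absurd (htriv l) hl, fun l hl => absurd (htriv l) hl⟩⟩
  · push Not at htriv
    obtain ⟨l0, hl0⟩ := htriv
    obtain ⟨C0, _⟩ := key l0 hl0
    have key' : ∀ l, ∃ (C : Circ k g) (r : J), l ≠ j0 → (∃ i, C.e i = l) ∧ (∃ i, C.e i = r) ∧
        Nat.find (hall r) < Nat.find (hall l) := by
      intro l
      by_cases hl : l = j0
      · exact ⟨C0, j0, fun h => absurd hl h⟩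
      · obtain ⟨C, r, h⟩ := key l hl
        exact ⟨C, r, fun _ => h⟩
    choose C r h using key'
    exact ⟨⟨C, r, fun l => Nat.find (hall l), fun l hl => (h l hl).1, fun l hl => (h l hl).2.1,
      fun l hl => (h l hl).2.2⟩⟩

end

section

variable {k J V : Type*} [Field k] [AddCommGroup V] [Module k V] [Fintype J] [DecidableEq J]
  {g : J → V} {j0 : J}

/-- The variation along a tree is bounded by the sum of the variations in the relations. -/
theorem Tree.sum_ge (T : Tree k g j0) {α : Type*} [AddCommGroup α] [LinearOrder α]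
    [IsOrderedAddMonoid α] (t φ : J → α) (h0 : ∀ l, l ≠ j0 → 0 ≤ t l)
    (h1 : ∀ l, l ≠ j0 → φ l - φ (T.r l) ≤ t l) (j : J) :
    φ j - φ j0 ≤ ∑ l ∈ Finset.univ.erase j0, t l := by
  classical
  have key : ∀ (d : ℕ) (j : J), T.dist j ≤ d →
      φ j - φ j0 ≤ ∑ l ∈ (Finset.univ.erase j0).filter (fun l => T.dist l ≤ T.dist j), t l := by
    intro d
    induction d with
    | zero =>
      intro j hj
      by_cases hj0 : j = j0
      · subst hj0
        rw [sub_self]
        exact Finset.sum_nonneg fun l hl => h0 l (Finset.ne_of_mem_erase (Finset.mem_filter.1 hl).1)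
      · have := T.lt j hj0
        omega
    | succ d ih =>
      intro j hj
      by_cases hj0 : j = j0
      · subst hj0
        rw [sub_self]
        exact Finset.sum_nonneg fun l hl => h0 l (Finset.ne_of_mem_erase (Finset.mem_filter.1 hl).1)
      · have hlt := T.lt j hj0
        have h2 := ih (T.r j) (by omega)
        have h3 : insert j ((Finset.univ.erase j0).filter (fun l => T.dist l ≤ T.dist (T.r j)))
            ⊆ (Finset.univ.erase j0).filter (fun l => T.dist l ≤ T.dist j) := by
          intro l hl
          rw [Finset.mem_insert] at hl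
          rcases hl with rfl | hl
          · exact Finset.mem_filter.2 ⟨Finset.mem_erase.2 ⟨hj0, Finset.mem_univ _⟩, le_rfl⟩
          · rw [Finset.mem_filter] at hl ⊢
            exact ⟨hl.1, by omega⟩
        have h4 : j ∉ (Finset.univ.erase j0).filter (fun l => T.dist l ≤ T.dist (T.r j)) := by
          intro hc
          have := (Finset.mem_filter.1 hc).2
          omega
        have h5 := Finset.sum_le_sum_of_subset_of_nonneg (f := t) h3 (fun l hl _ =>
          h0 l (Finset.ne_of_mem_erase (Finset.mem_filter.1 hl).1))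
        rw [Finset.sum_insert h4] at h5
        refine le_trans ?_ h5
        have h6 := add_le_add (h1 j hj0) h2
        have h7 : φ j - φ (T.r j) + (φ (T.r j) - φ j0) = φ j - φ j0 := by abel
        rwa [h7] at h6
  refine (key _ j le_rfl).trans (Finset.sum_le_sum_of_subset_of_nonneg (Finset.filter_subset _ _)
    fun l hl _ => h0 l (Finset.ne_of_mem_erase hl))

end

end Pool.Agent.R869
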