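import Pool.Agent.R869.TTor

/-!
Optimal colourings of sets of variables: general sets of monomials.
-/

set_option autoImplicit false

namespace Pool.Agent.R869.Wd

open Finset

variable {n s : ℕ} {I : Fin s → Finset (Fin (n + 1))} {J : Finset (Fin (n + 1))}
  {c : Fin (n + 1) → ℤ}

open Classical in
/-- the colours of exactly one set -/
noncomputable def dfc (I : Fin s → Finset (Fin (n + 1))) (J : Finset (Fin (n + 1)))
    (c : Fin (n + 1) → ℤ) : Finset ℤ :=
  (J.image c).filter fun v => (cns I J c v).card = 1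

theorem mem_dfc {v : ℤ} : v ∈ dfc I J c ↔ v ∈ J.image c ∧ (cns I J c v).card = 1 := by
  unfold dfc
  rw [mem_filter]

/-- the excess of a colouring -/
noncomputable def exg (I : Fin s → Finset (Fin (n + 1))) (J : Finset (Fin (n + 1)))
    (c : Fin (n + 1) → ℤ) : ℤ :=
  2 * ((J.image c).card : ℤ) - ((dfc I J c).card : ℤ) - ((crs I J c).card : ℤ)

/-- optimal colourings -/
structure OptG (I : Fin s → Finset (Fin (n + 1))) (J : Finset (Fin (n + 1)))
    (c : Fin (n + 1) → ℤ) : Prop where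
  nc : ∃ j ∈ J, ∃ j' ∈ J, c j ≠ c j'
  four : 4 ≤ exg I J c
  max : ∀ c' : Fin (n + 1) → ℤ, (∃ j ∈ J, ∃ j' ∈ J, c' j ≠ c' j') → exg I J c' ≤ exg I J c
  one : (dfc I J c).card ≤ 1

theorem exists_optG (hI : ∀ i, (I i).Nonempty) {c0 : Fin (n + 1) → ℤ}
    (h0 : ∃ j ∈ J, ∃ j' ∈ J, c0 j ≠ c0 j') (h4 : 4 ≤ exg I J c0) : ∃ c, OptG I J c := by
  classical
  let P : ℤ → Prop := fun z => ∃ c : Fin (n + 1) → ℤ, (∃ j ∈ J, ∃ j' ∈ J, c j ≠ c j') ∧
    z = exg I J c * (n + 2) - (J.image c).card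
  have hV : ∀ c : Fin (n + 1) → ℤ, (J.image c).card ≤ n + 1 := fun c =>
    card_image_le.trans ((card_le_univ J).trans (by rw [Fintype.card_fin]))
  obtain ⟨z, ⟨c, hc, rfl⟩, hz⟩ := Int.exists_greatest_of_bdd (P := P)
    ⟨2 * (n + 1) * (n + 2), by
      rintro z ⟨c, -, rfl⟩
      have h1 := hV c
      have h2 : exg I J c ≤ 2 * (n + 1) := by
        unfold exg
        have : ((J.image c).card : ℤ) ≤ n + 1 := by exact_mod_cast h1
        linarith [Int.natCast_nonneg (dfc I J c).card, Int.natCast_nonneg (crs I J c).card]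
      have h3 : exg I J c * (n + 2) ≤ 2 * (n + 1) * (n + 2) :=
        mul_le_mul_of_nonneg_right h2 (by positivity)
      have h5 : (0 : ℤ) ≤ (J.image c).card := Int.natCast_nonneg _
      linarith⟩ ⟨_, c0, h0, rfl⟩
  have key : ∀ c' : Fin (n + 1) → ℤ, (∃ j ∈ J, ∃ j' ∈ J, c' j ≠ c' j') →
      exg I J c' * (n + 2) - (J.image c').card ≤ exg I J c * (n + 2) - (J.image c).card :=
    fun c' hc' => hz _ ⟨c', hc', rfl⟩
  have hmax : ∀ c' : Fin (n + 1) → ℤ, (∃ j ∈ J, ∃ j' ∈ J, c' j ≠ c' j') →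
      exg I J c' ≤ exg I J c := by
    intro c' hc'
    by_contra hcon
    push Not at hcon
    have h1 := key c' hc'
    have h2 : (exg I J c + 1) * (n + 2) ≤ exg I J c' * (n + 2) :=
      mul_le_mul_of_nonneg_right (by omega) (by positivity)
    have h3 : ((J.image c').card : ℤ) ≤ n + 1 := by exact_mod_cast hV c'
    have h5 : (0 : ℤ) ≤ (J.image c).card := Int.natCast_nonneg _
    linarith
  have hfour : 4 ≤ exg I J c := h4.trans (hmax c0 h0)
  refine ⟨c, hc, hfour, hmax, ?_⟩
  by_contra hcon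
  push Not at hcon
  obtain ⟨v, hv, v', hv', hne⟩ := one_lt_card.1 hcon
  obtain ⟨hvJ, hv1⟩ := mem_dfc.1 hv
  obtain ⟨hvJ', hv1'⟩ := mem_dfc.1 hv'
  let c' : Fin (n + 1) → ℤ := fun x => if c x = v' then v else c x
  have hc'1 : ∀ x, c x = v' → c' x = v := fun x hx => if_pos hx
  have hc'2 : ∀ x, c x ≠ v' → c' x = c x := fun x hx => if_neg hx
  have hc'3 : ∀ x y, c x = c y → c' x = c' y := fun x y hxy => by simp only [c', hxy]
  have himg : J.image c' ⊆ (J.image c).erase v' := by
    intro w hw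
    obtain ⟨x, hx, rfl⟩ := mem_image.1 hw
    by_cases hxj : c x = v'
    · rw [hc'1 x hxj]
      exact mem_erase.2 ⟨hne, hvJ⟩
    · rw [hc'2 x hxj]
      exact mem_erase.2 ⟨hxj, mem_image_of_mem _ hx⟩
  have himg2 : (J.image c).erase v' ⊆ J.image c' := by
    intro w hw
    obtain ⟨h1, h2⟩ := mem_erase.1 hw
    obtain ⟨x, hx, rfl⟩ := mem_image.1 h2
    exact mem_image.2 ⟨x, hx, hc'2 x h1⟩
  have hV' : (J.image c').card + 1 = (J.image c).card := by
    rw [subset_antisymm himg himg2]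
    exact card_erase_add_one hvJ'
  have hcns : ∀ w, w ≠ v → w ≠ v' → cns I J c' w = cns I J c w := by
    intro w hw hw'
    ext i
    rw [mem_cns, mem_cns]
    refine and_congr Iff.rfl (forall_congr' fun j => forall_congr' fun _ => ?_)
    by_cases hj : c j = v'
    · rw [hc'1 j hj, hj]
      exact ⟨fun h => absurd h.symm hw, fun h => absurd h.symm hw'⟩
    · rw [hc'2 j hj]
  have hbig : (cns I J c' v).card ≠ 1 := by
    have h1 : cns I J c v ∪ cns I J c v' ⊆ cns I J c' v := by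
      intro i hi
      rcases mem_union.1 hi with h | h
      · obtain ⟨h2, h3⟩ := mem_cns.1 h
        exact mem_cns.2 ⟨h2, fun j hj => by rw [hc'2 j (by rw [h3 j hj]; exact hne), h3 j hj]⟩
      · obtain ⟨h2, h3⟩ := mem_cns.1 h
        exact mem_cns.2 ⟨h2, fun j hj => hc'1 j (h3 j hj)⟩
    have h2 : Disjoint (cns I J c v) (cns I J c v') := by
      rw [disjoint_left]
      intro i hi hi'
      obtain ⟨j, hj⟩ := hI i
      exact hne (((mem_cns.1 hi).2 j hj).symm.trans ((mem_cns.1 hi').2 j hj))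
    have h3 := card_le_card h1
    rw [card_union_of_disjoint h2] at h3
    omega
  have hsg : dfc I J c' ⊆ ((dfc I J c).erase v).erase v' := by
    intro w hw
    obtain ⟨h1, h2⟩ := mem_dfc.1 hw
    obtain ⟨h3, h4⟩ := mem_erase.1 (himg h1)
    have h5 : w ≠ v := by
      rintro rfl
      exact hbig h2
    rw [hcns w h5 h3] at h2
    exact mem_erase.2 ⟨h3, mem_erase.2 ⟨h5, mem_dfc.2 ⟨h4, h2⟩⟩⟩
  have hD' : (dfc I J c').card + 2 ≤ (dfc I J c).card := by
    have h1 := card_le_card hsg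
    have h2 := card_erase_add_one hv
    have h3 := card_erase_add_one (mem_erase.2 ⟨hne.symm, hv'⟩ : v' ∈ (dfc I J c).erase v)
    omega
  have hN' : (crs I J c').card ≤ (crs I J c).card := by
    refine card_le_card fun i hi => ?_
    obtain ⟨h1, h2⟩ := mem_crs.1 hi
    exact mem_crs.2 ⟨h1, fun h3 => h2 fun x hx y hy => hc'3 x y (h3 x hx y hy)⟩
  have hexc : exg I J c ≤ exg I J c' := by
    unfold exg
    omega
  have hnc' : ∃ j ∈ J, ∃ j' ∈ J, c' j ≠ c' j' := by
    apply nc_of_card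
    unfold exg at hfour
    omega
  have h1 := key c' hnc'
  have h2 : exg I J c' = exg I J c := le_antisymm (hmax c' hnc') hexc
  rw [h2] at h1
  omega

/-- the terms of the sets in `J` -/
theorem card_terms (hI : ∀ i, (I i).Nonempty) :
    (univ.filter fun i => I i ⊆ J).card =
      (crs I J c).card + ∑ v ∈ J.image c, (cns I J c v).card := by
  classical
  rw [← card_biUnion, ← card_union_of_disjoint]
  · congr 1
    ext i
    rw [mem_filter, mem_union, mem_crs, mem_biUnion]
    constructor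
    · rintro ⟨-, h⟩
      by_cases h1 : ∀ j ∈ I i, ∀ j' ∈ I i, c j = c j'
      · right
        obtain ⟨j, hj⟩ := hI i
        exact ⟨c j, mem_image_of_mem _ (h hj), mem_cns.2 ⟨h, fun j' hj' => h1 j' hj' j hj⟩⟩
      · exact Or.inl ⟨h, h1⟩
    · rintro (⟨h, -⟩ | ⟨v, -, h⟩)
      · exact ⟨mem_univ _, h⟩
      · exact ⟨mem_univ _, (mem_cns.1 h).1⟩
  · rw [disjoint_left]
    intro i hi hi'
    obtain ⟨u, -, hu⟩ := mem_biUnion.1 hi'
    refine (mem_crs.1 hi).2 fun j hj j' hj' => ?_
    rw [(mem_cns.1 hu).2 j hj, (mem_cns.1 hu).2 j' hj']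
  · intro u _ u' _ huu
    change Disjoint (cns I J c u) (cns I J c u')
    rw [disjoint_left]
    intro i hi hi'
    obtain ⟨j, hj⟩ := hI i
    exact huu (((mem_cns.1 hi).2 j hj).symm.trans ((mem_cns.1 hi').2 j hj))

/-- the blocks that are used as terms -/
structure Blocks (I : Fin s → Finset (Fin (n + 1))) (J : Finset (Fin (n + 1)))
    (c : Fin (n + 1) → ℤ) (B : Finset (Fin (n + 1))) (p θ : ℕ) : Prop where
  sub : B ⊆ J
  inj : ∀ j ∈ B, ∀ j' ∈ B, c j = c j' → j = j'
  dfc : ∀ v ∈ dfc I J c, ∃ j ∈ B, c j = v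
  pos : ∀ j ∈ B, 1 ≤ (cns I J c (c j)).card
  card : B.card + θ ≤ (Wd.dfc I J c).card + 1
  num : (crs I J c).card + B.card = 2 * p + θ
  le : p + θ + 2 ≤ (J.image c).card
  one : θ ≤ 1
  two : θ = 1 → 1 ≤ p

theorem OptG.blocks (h : OptG I J c) (hI : ∀ i, (I i).Nonempty)
    (hJ : (univ.filter fun i => I i ⊆ J).card ≠ 1) : ∃ B p θ, Blocks I J c B p θ := by
  classical
  have h4 := h.four
  have h1 := h.one
  unfold exg at h4
  have hv : ∀ v ∈ J.image c, ∃ j ∈ J, c j = v := fun v hv => mem_image.1 hv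
  obtain ⟨j0, hj0, -⟩ := h.nc
  let jv : ℤ → Fin (n + 1) := fun v => if h : v ∈ J.image c then (hv v h).choose else j0
  have hjv : ∀ v ∈ J.image c, jv v ∈ J ∧ c (jv v) = v := by
    intro v h
    have h2 : jv v = (hv v h).choose := dif_pos h
    rw [h2]
    exact (hv v h).choose_spec
  -- sets of colours
  have key : ∀ (Q : Finset ℤ) (p θ : ℕ), dfc I J c ⊆ Q → Q ⊆ J.image c →
      (∀ v ∈ Q, 1 ≤ (cns I J c v).card) → Q.card + θ ≤ (dfc I J c).card + 1 →
      (crs I J c).card + Q.card = 2 * p + θ → p + θ + 2 ≤ (J.image c).card → θ ≤ 1 →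
      (θ = 1 → 1 ≤ p) → ∃ B p θ, Blocks I J c B p θ := by
    intro Q p θ h2 h3 h5 h6 h7 h8 h9 h10
    have hcard : (Q.image jv).card = Q.card := card_image_of_injOn fun v hv v' hv' h11 => by
      rw [← (hjv v (h3 hv)).2, ← (hjv v' (h3 hv')).2, h11]
    refine ⟨Q.image jv, p, θ, ?_, ?_, ?_, ?_, by rw [hcard]; exact h6, by rw [hcard]; exact h7, h8,
      h9, h10⟩
    · intro j hj
      obtain ⟨v, hv, rfl⟩ := mem_image.1 hj
      exact (hjv v (h3 hv)).1
    · intro j hj j' hj' h11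
      obtain ⟨v, hv, rfl⟩ := mem_image.1 hj
      obtain ⟨v', hv', rfl⟩ := mem_image.1 hj'
      rw [(hjv v (h3 hv)).2, (hjv v' (h3 hv')).2] at h11
      rw [h11]
    · intro v hv
      exact ⟨jv v, mem_image_of_mem _ (h2 hv), (hjv v (h3 (h2 hv))).2⟩
    · intro j hj
      obtain ⟨v, hv, rfl⟩ := mem_image.1 hj
      rw [(hjv v (h3 hv)).2]
      exact h5 v hv
  have hd1 : dfc I J c ⊆ J.image c := fun v hv => (mem_dfc.1 hv).1
  have hd2 : ∀ v ∈ dfc I J c, 1 ≤ (cns I J c v).card := fun v hv => by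
    rw [(mem_dfc.1 hv).2]
  rcases Nat.even_or_odd ((crs I J c).card + (dfc I J c).card) with he | ho
  · obtain ⟨p, hp⟩ := he
    exact key (dfc I J c) p 0 (Subset.refl _) hd1 hd2 (by omega) (by omega) (by omega) (by omega)
      (by omega)
  · obtain ⟨p, hp⟩ := ho
    by_cases hp1 : 1 ≤ p
    · exact key (dfc I J c) p 1 (Subset.refl _) hd1 hd2 (by omega) (by omega) (by omega) (by omega)
        (fun _ => hp1)
    · -- one term
      obtain ⟨v, hv, hv2⟩ : ∃ v ∈ J.image c, 2 ≤ (cns I J c v).card := by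
        by_contra hcon
        push Not at hcon
        have h5 := card_terms (J := J) (c := c) hI
        have h6 : ∑ v ∈ J.image c, (cns I J c v).card = (dfc I J c).card := by
          rw [dfc, card_filter]
          refine sum_congr rfl fun v hv => ?_
          have := hcon v hv
          split_ifs <;> omega
        apply hJ
        rw [h5, h6]
        omega
      have hvd : v ∉ dfc I J c := fun h5 => by
        rw [mem_dfc] at h5
        omega
      refine key (insert v (dfc I J c)) 1 0 (subset_insert _ _) ?_ ?_ ?_ ?_ (by omega) (by omega)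
        (by omega)
      · exact insert_subset hv hd1
      · intro w hw
        rcases mem_insert.1 hw with h5 | h5
        · rw [h5]
          omega
        · exact hd2 w h5
      · rw [card_insert_of_notMem hvd]
      · rw [card_insert_of_notMem hvd]
        omega

end Pool.Agent.R869.Wd
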