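import Pool.Agent.R869.USharp
import Pool.Agent.R869.SLoc

/-!
Consequences of the criterion for the existence of entire curves in hypersurfaces.
-/

set_option autoImplicit false

open FF MvPolynomial Pool.Agent.W602.GT Pool.Agent.H159R3.GGLLog Pool.Agent.W603.BP

namespace Pool.Agent.R869.Wd

variable {n s : ℕ} {I : Fin s → Finset (Fin (n + 1))} {d : ℕ} {a : Fin s → (Fin (n + 1) →₀ ℕ)}

/-- **The criterion for given vanishing coordinates.** -/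
theorem TypI.critJ (h : TypI I d a) {F : MvPolynomial (Fin (n + 1)) ℂ}
    (hF : F.support ⊆ withPowers d a) (U : Set (Fin (n + 1))) (J : Finset (Fin (n + 1))) :
    (∃ f, EntireCurve U (fun _ : Fin 1 => F) f ∧ ∀ j, (∃ z, f z j ≠ 0) ↔ j ∈ J) ↔
      (∀ j ∈ U, j ∈ J) ∧ Loose F J := by
  classical
  constructor
  · rintro ⟨f, hf, hJ⟩
    have key : (∃ f, EntireCurve ∅ (fun _ : Fin 1 => F) f ∧
        ∀ j, (∃ z, f z j ≠ 0) ↔ j ∈ J) ↔ Loose F J := (h.crit hF J).out 3 0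
    refine ⟨fun j hj => (hJ j).1 ⟨0, (hf.2.1 0).2.1 j hj⟩, key.1 ⟨f, ⟨hf.1, fun z =>
      ⟨(hf.2.1 z).1, fun j hj => absurd hj (Set.notMem_empty j), (hf.2.1 z).2.2⟩, hf.2.2⟩, hJ⟩⟩
  · rintro ⟨hU, hJ⟩
    obtain ⟨x, b, hx, hb, ho⟩ := ((h.crit hF J).out 0 1).1 hJ
    obtain ⟨f, hf, h1⟩ := curve_of_orbit ho hx hb hU
    exact ⟨f, hf, fun j => ⟨fun ⟨z, hz⟩ => (h1 z j).1 hz, fun h2 => ⟨0, (h1 0 j).2 h2⟩⟩⟩

/-- **The special sets of hypersurfaces.** -/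
theorem TypI.special1 (h : TypI I d a) {F : MvPolynomial (Fin (n + 1)) ℂ}
    (hF : F.support ⊆ withPowers d a)
    {U : Set (Fin (n + 1))} {x : Fin (n + 1) → ℂ} (hx : x ∈ SpH U (fun _ : Fin 1 => F)) :
    ∃ J : Finset (Fin (n + 1)), Loose F J ∧ (∀ j ∈ U, j ∈ J) ∧ ∀ j, x j ≠ 0 → j ∈ J := by
  classical
  by_contra hcon
  push Not at hcon
  have h1 : ∀ J : Finset (Fin (n + 1)), ∃ l, ((Loose F J ∧ ∀ j ∈ U, j ∈ J) → l ∉ J) ∧
      x l ≠ 0 := by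
    intro J
    by_cases hJ : Loose F J ∧ ∀ j ∈ U, j ∈ J
    · obtain ⟨l, hl, hlJ⟩ := hcon J hJ.1 hJ.2
      exact ⟨l, fun _ => hlJ, hl⟩
    · obtain ⟨l, hl⟩ := Function.ne_iff.1 hx.1.1
      exact ⟨l, fun h' => absurd h' hJ, hl⟩
  choose l hl hxl using h1
  have h2 := hx.2 (∏ J : Finset (Fin (n + 1)), X (l J)) ⟨_, IsHomogeneous.prod _ _ _
    fun J _ => isHomogeneous_X _ _⟩ fun f hf z => by
      let J0 : Finset (Fin (n + 1)) := Finset.univ.filter fun j => ∃ z, f z j ≠ 0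
      have hJ0 : ∀ j, (∃ z, f z j ≠ 0) ↔ j ∈ J0 := fun j => by simp [J0]
      obtain ⟨hU, hL⟩ := (h.critJ hF U J0).1 ⟨f, hf, hJ0⟩
      have h3 := hl J0 ⟨hL, hU⟩
      rw [map_prod]
      refine Finset.prod_eq_zero (Finset.mem_univ J0) ?_
      rw [eval_X]
      by_contra h4
      exact h3 ((hJ0 _).1 ⟨z, h4⟩)
  rw [map_prod, Finset.prod_eq_zero_iff] at h2
  obtain ⟨J, -, hJ⟩ := h2
  rw [eval_X] at hJ
  exact hxl J hJ

/-- no special points -/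
theorem TypI.spH_empty (h : TypI I d a) {F : MvPolynomial (Fin (n + 1)) ℂ}
    (hF : F.support ⊆ withPowers d a) (U : Set (Fin (n + 1))) :
    SpH U (fun _ : Fin 1 => F) = ∅ ↔ ∀ J : Finset (Fin (n + 1)), (∀ j ∈ U, j ∈ J) →
      ¬ Loose F J := by
  classical
  constructor
  · intro h0 J hU hJ
    obtain ⟨f, hf, -⟩ := (h.critJ hF U J).2 ⟨hU, hJ⟩
    have h1 : f 0 ∈ SpH U (fun _ : Fin 1 => F) := ⟨hf.2.1 0, fun P _ hP => hP f hf 0⟩
    rw [h0] at h1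
    exact h1
  · intro h0
    rw [Set.eq_empty_iff_forall_notMem]
    intro x hx
    obtain ⟨J, hJ, hU, -⟩ := h.special1 hF hx
    exact h0 J hU hJ

end Pool.Agent.R869.Wd
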