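import Pool.Agent.R869.UCor
import Pool.Agent.R869.WCptC

/-!
The criterion for hypersurfaces: entire curves, punctured discs, subvarieties, orbits.
-/

set_option autoImplicit false

open FF IntermediateField MvPolynomial Metric Pool.Agent.W602.GT Pool.Agent.H159R3.GGLLog
  Pool.Agent.W603.BP

namespace Pool.Agent.R869.Wd

variable {n : ℕ}

/-- the closure of an orbit, with its vanishing coordinates -/
theorem orbit_subvarJ {k : Type} [Field k] [CharZero k] [IsAlgClosed k] {ι : Type}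
    {U : Set (Fin (n + 1))} {F : ι → MvPolynomial (Fin (n + 1)) k}
    (hF : ∀ e, IsForm (F e)) {x : Fin (n + 1) → k} {b : Fin (n + 1) → ℤ}
    (h : DiagCurve U F x b) :
    ∃ (K : Type) (_ : Field K) (_ : Algebra k K) (y : Fin (n + 1) → K),
      SubVarU U F K 1 y ∧ ¬ LogGeneralType k K 1 (OffU U y) ∧ ∀ j, y j ≠ 0 ↔ x j ≠ 0 := by
  classical
  let F' : ι ⊕ {j // x j = 0} → MvPolynomial (Fin (n + 1)) k :=
    Sum.elim F fun j => X j.1
  have hF' : ∀ e, IsForm (F' e) := by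
    rintro (e | j)
    · exact hF e
    · exact ⟨1, isHomogeneous_X _ _⟩
  have h' : DiagCurve U F' x b := by
    refine ⟨fun t ht => ⟨(h.1 t ht).1, (h.1 t ht).2.1, ?_⟩, h.2⟩
    rintro (e | j)
    · exact (h.1 t ht).2.2 e
    · change aeval _ (X j.1 : MvPolynomial (Fin (n + 1)) k) = 0
      rw [aeval_X]
      simp only [j.2, mul_zero]
  obtain ⟨K, i1, i2, y, hy, hgt, htr⟩ := orbit_subvar hF' h'
  refine ⟨K, i1, i2, y, ⟨hy.ne, hy.unit, fun e => hy.mem (Sum.inl e), hy.gen, hy.dim⟩, hgt,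
    fun j => ⟨fun hj hx => ?_, fun hx hj => ?_⟩⟩
  · have h1 := hy.mem (Sum.inr ⟨j, hx⟩)
    change aeval y (X j : MvPolynomial (Fin (n + 1)) k) = 0 at h1
    rw [aeval_X] at h1
    exact hj h1
  · have h1 := htr (X j) ⟨1, isHomogeneous_X _ _⟩ (by
      change aeval y (X j : MvPolynomial (Fin (n + 1)) k) = 0
      rw [aeval_X]
      exact hj)
    change aeval x (X j : MvPolynomial (Fin (n + 1)) k) = 0 at h1
    rw [aeval_X] at h1
    exact hx h1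

/-- subvarieties and orbits -/
theorem orbit_of_subvar {k : Type} [Field k] [CharZero k] [IsAlgClosed k] {ι : Type}
    {U : Set (Fin (n + 1))} {F : ι → MvPolynomial (Fin (n + 1)) k} {s N : ℕ} (hC : Sys U F s N)
    {K : Type} [Field K] [Algebra k K] {w : ℕ} (hw : 0 < w) {y : Fin (n + 1) → K}
    (hy : SubVarU U F K w y) (hgt : ¬ LogGeneralType k K w (OffU U y)) :
    ∃ (x : Fin (n + 1) → k) (b : Fin (n + 1) → ℤ), (∀ j, x j ≠ 0 ↔ y j ≠ 0) ∧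
      (∃ j j', y j ≠ 0 ∧ y j' ≠ 0 ∧ b j ≠ b j') ∧ ∀ e v, val x (wc b v (F e)) = 0 := by
  classical
  have hgen : Algebra.IsAlgebraic (coords k y) K := by
    rw [hy.gen]
    infer_instance
  obtain ⟨b, i, i', hi, hi', hb, hwc⟩ := weights hC.form hC.pos hC.card hC.wide hC.num hw hy.dim
    hy.ne hgen hy.mem hy.unit hgt
  let H : MvPolynomial (Fin (n + 1)) k := ∏ j ∈ Finset.univ.filter (fun j => y j ≠ 0), X j
  have hH : aeval y H ≠ 0 := by
    simp only [H, map_prod, aeval_X]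
    exact Finset.prod_ne_zero_iff.2 fun j hj => (Finset.mem_filter.1 hj).2
  obtain ⟨x, hx, hx0⟩ := specialise y H hH
  simp only [H, map_prod, aeval_X] at hx
  refine ⟨x, b, fun j => ⟨fun hxj hyj => hxj ?_, fun hyj => ?_⟩, ⟨i, i', hi, hi', hb⟩,
    fun e v => hx0 _ (hwc e v)⟩
  · have h1 := hx0 (X j) (by rw [aeval_X]; exact hyj)
    rwa [aeval_X] at h1
  · exact Finset.prod_ne_zero_iff.1 hx j (Finset.mem_filter.2 ⟨Finset.mem_univ _, hyj⟩)

variable {s : ℕ} {I : Fin s → Finset (Fin (n + 1))} {d : ℕ} {a : Fin s → (Fin (n + 1) →₀ ℕ)}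

/-- **The criterion**: entire curves, punctured discs, subvarieties. -/
theorem TypI.critAll (h : TypI I d a) {F : MvPolynomial (Fin (n + 1)) ℂ}
    (hF : F.support ⊆ withPowers d a) {U : Set (Fin (n + 1))} {J : Finset (Fin (n + 1))}
    (hU : ∀ j ∈ U, j ∈ J) :
    [Loose F J,
      ∃ f, EntireCurve U (fun _ : Fin 1 => F) f ∧ ∀ j, (∃ z, f z j ≠ 0) ↔ j ∈ J,
      ∃ f, PCurve U (fun _ : Fin 1 => F) f ∧ ¬ Extends f ∧
        ∀ j, (∃ z ∈ ball (0 : ℂ) 1 \ {0}, f z j ≠ 0) ↔ j ∈ J,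
      ∃ (K : Type) (_ : Field K) (_ : Algebra ℂ K) (w : ℕ) (y : Fin (n + 1) → K), 1 ≤ w ∧
        SubVarU U (fun _ : Fin 1 => F) K w y ∧ (∀ j, y j ≠ 0 ↔ j ∈ J) ∧
        ¬ LogGeneralType ℂ K w (OffU U y)].TFAE := by
  classical
  have hFT : ∀ e : Fin 1, ((fun _ : Fin 1 => F) e).support ⊆ withPowers d a := fun _ => hF
  obtain ⟨s', N, hg⟩ := h.good
  have hC := hg.sys hFT U
  have key : (∃ (x : Fin (n + 1) → ℂ) (b : Fin (n + 1) → ℤ), (∀ j, x j ≠ 0 ↔ j ∈ J) ∧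
        (∃ j ∈ J, ∃ j' ∈ J, b j ≠ b j') ∧ OrbitIn (fun _ : Fin 1 => F) b x) ↔ Loose F J :=
    (h.crit hF J).out 1 0
  tfae_have 1 → 2 := by
    intro hJ
    obtain ⟨x, b, hx, hb, ho⟩ := key.2 hJ
    obtain ⟨f, hf, h1⟩ := curve_of_orbit ho hx hb hU
    exact ⟨f, hf, fun j => ⟨fun ⟨z, hz⟩ => (h1 z j).1 hz, fun h2 => ⟨0, (h1 0 j).2 h2⟩⟩⟩
  tfae_have 2 → 3 := by
    rintro ⟨f, hf, hJ⟩
    obtain ⟨h1, h2⟩ := sin_curve hf
    refine ⟨_, h1, h2, fun j => ?_⟩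
    rw [← hJ]
    constructor
    · rintro ⟨z, -, hz⟩
      exact ⟨_, hz⟩
    · rintro ⟨z, hz⟩
      obtain ⟨w, hw, hwz⟩ := sin_point z
      exact ⟨w, hw, by rw [hwz]; exact hz⟩
  tfae_have 3 → 1 := by
    rintro ⟨f, hf, hE, hJ⟩
    obtain ⟨x, b, hx, hb, hw⟩ := orbit_of_pcurve hC hf hE hJ
    exact key.1 ⟨x, b, hx, hb, orbitIn_of_wc hw⟩
  tfae_have 1 → 4 := by
    intro hJ
    obtain ⟨x, b, hx, ⟨j, hj, j', hj', hjj⟩, ho⟩ := key.2 hJ
    have hd : DiagCurve U (fun _ : Fin 1 => F) x b := by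
      refine ⟨fun t ht => ⟨fun h0 => ?_, fun l hl => mul_ne_zero (zpow_ne_zero _ ht)
        ((hx l).2 (hU l hl)), fun e => ?_⟩, j, j', (hx j).2 hj, (hx j').2 hj', hjj⟩
      · exact mul_ne_zero (zpow_ne_zero (b j) ht) ((hx j).2 hj) (congrFun h0 j)
      · rw [val_eval]
        exact ho t ht e
    obtain ⟨K, i1, i2, y, hy, hgt, hsupp⟩ := orbit_subvarJ hC.form hd
    exact ⟨K, i1, i2, 1, y, le_rfl, hy, fun l => (hsupp l).trans (hx l), hgt⟩
  tfae_have 4 → 1 := by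
    rintro ⟨K, _, _, w, y, hw, hy, hyJ, hgt⟩
    obtain ⟨x, b, hx, ⟨j, j', hj, hj', hjj⟩, hwc⟩ := orbit_of_subvar hC hw hy hgt
    exact key.1 ⟨x, b, fun l => (hx l).trans (hyJ l), ⟨j, (hyJ j).1 hj, j', (hyJ j').1 hj', hjj⟩,
      orbitIn_of_wc hwc⟩
  tfae_finish

end Pool.Agent.R869.Wd
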