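import Pool.Agent.R869.UCorK
import Pool.Agent.R869.SPtd

/-!
The criterion for hypersurfaces: heights of points over function fields.
-/

set_option autoImplicit false

open FF MvPolynomial Pool.Agent.W603.LV Pool.Agent.W603.PV
open Pool.Agent.W602.GT
open Pool.Agent.W603.CX (IsMap HasOrbit unbounded_orbit)

namespace Pool.Agent.R869.Wd

variable {n s : ℕ} {I : Fin s → Finset (Fin (n + 1))} {d : ℕ} {a : Fin s → (Fin (n + 1) →₀ ℕ)}

/-- **The criterion for heights.** -/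
theorem TypI.critHgt {k : Type} [Field k] [IsAlgClosed k] [CharZero k] (h : TypI I d a)
    {F : MvPolynomial (Fin (n + 1)) k} (hF : F.support ⊆ withPowers d a) {A : ℕ}
    (hA : HgtBound ∅ (fun _ : Fin 1 => F) A) {J : Finset (Fin (n + 1))} (hJ : J.Nonempty) :
    [Loose F J,
      ∃ (K : Type) (_ : Field K) (_ : Algebra k K) (w : ℕ) (y : Fin (n + 1) → K), 1 ≤ w ∧
        SubVar (fun _ : Fin 1 => F) K w y ∧ (∀ j, y j ≠ 0 ↔ j ∈ J) ∧ ¬ GeneralType k K w,
      ¬ ∃ B : ℤ, ∀ f : Fin (n + 1) → RatFunc k, (∀ j, f j ≠ 0 ↔ j ∈ J) → val f F = 0 →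
        pht k f ≤ B,
      ¬ ∀ (L : Type) [Field L] [Algebra k L] [IsFF k L] (f : Fin (n + 1) → L),
        (∀ j, f j ≠ 0 ↔ j ∈ J) → val f F = 0 → pht k f ≤ A * max (canDeg k L) 0].TFAE := by
  classical
  have hFT : ∀ e : Fin 1, ((fun _ : Fin 1 => F) e).support ⊆ withPowers d a := fun _ => hF
  have h12 := h.critSub hF (U := ∅) (J := J) fun j hj => absurd hj (Set.notMem_empty j)
  tfae_have 1 → 2 := by
    intro h1
    obtain ⟨K, i1, i2, w, y, hw, hy, hyJ, hgt⟩ := h12.1 h1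
    exact ⟨K, i1, i2, w, y, hw, subVar_iff.1 hy, hyJ, fun h2 => hgt ((general_iff y).2 h2)⟩
  tfae_have 2 → 1 := by
    rintro ⟨K, i1, i2, w, y, hw, hy, hyJ, hgt⟩
    exact h12.2 ⟨K, i1, i2, w, y, hw, subVar_iff.2 hy, hyJ, fun h2 => hgt ((general_iff y).1 h2)⟩
  tfae_have 1 → 3 := by
    rintro h1 ⟨B, hB⟩
    obtain ⟨x, b, hx, ⟨j, hj, j', hj', hjj⟩, hw⟩ := (h.critK hF J).1 h1
    let F' : Fin 1 ⊕ {l // l ∉ J} → MvPolynomial (Fin (n + 1)) k :=
      Sum.elim (fun _ => F) fun l => X l.1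
    have ho : HasOrbit (J : Set (Fin (n + 1))) F' := by
      refine ⟨x, b, fun t ht => ⟨?_, fun l hl => mul_ne_zero ((hx l).2 hl)
        (zpow_ne_zero _ ht), ?_⟩, j, j', (hx j).2 hj, (hx j').2 hj', hjj⟩
      · exact Function.ne_iff.2 ⟨j, mul_ne_zero ((hx j).2 hj) (zpow_ne_zero _ ht)⟩
      · rintro (e | l)
        · change eval _ F = 0
          have h3 := val_orbit (L := k) x b ht F hw
          rw [← coe_aeval_eq_eval]
          change aeval _ F = 0
          rw [← h3]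
          unfold val
          congr 2
          funext l
          exact mul_comm _ _
        · change eval _ (X l.1) = 0
          rw [eval_X]
          have h4 : x l.1 = 0 := by
            by_contra h5
            exact l.2 ((hx _).1 h5)
          simp only [h4, zero_mul]
    obtain ⟨f, hf, hlt⟩ := unbounded_orbit ho B
    refine absurd (hB f (fun l => ⟨fun hl => ?_, fun hl => (hf.2.2 l hl).1⟩)
      (hf.2.1 (Sum.inl 0))) (not_le.2 hlt)
    by_contra hlJ
    have h5 := hf.2.1 (Sum.inr ⟨l, hlJ⟩)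
    change aeval f (X l : MvPolynomial (Fin (n + 1)) k) = 0 at h5
    rw [aeval_X] at h5
    exact hl h5
  tfae_have 3 → 4 := by
    intro h3 h4
    exact h3 ⟨_, fun f hf h0 => h4 (RatFunc k) f hf h0⟩
  tfae_have 4 → 1 := by
    intro h4
    by_contra hL
    apply h4
    intro L _ _ _ f hf h0
    obtain ⟨j0, hj0⟩ := hJ
    have h5 := hA L ∅ f ⟨⟨j0, (hf j0).2 hj0⟩, fun _ => h0,
      fun j hj => absurd hj (Set.notMem_empty j)⟩ ?_
    · simpa using h5
    · rintro ⟨b, i, i', hi, hi', hb, hw⟩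
      exact hL (h.loose_of_orbit hF hf ⟨i, (hf i).1 hi, i', (hf i').1 hi', hb⟩ fun v => hw 0 v)
  tfae_finish

end Pool.Agent.R869.Wd
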