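import Mathlib.FieldTheory.IsAlgClosed.Classification
import Mathlib.Algebra.FreeAlgebra.Cardinality
import Mathlib.RingTheory.Localization.Cardinality
import Mathlib.Analysis.Complex.Polynomial.Basic
import Mathlib.Analysis.Real.Cardinality
import Mathlib.LinearAlgebra.Complex.FiniteDimensional

/-!
Finitely many elements of an algebraically closed field of characteristic zero lie in an
algebraically closed subfield which embeds into the complex numbers.
-/

set_option autoImplicit false

open Cardinal

namespace Pool.Agent.R869.Wd

theorem embed_complex (L : Type) [Field L] [CharZero L] (hL : #L ≤ ℵ₀) :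
    Nonempty (L →+* ℂ) := by
  classical
  let A : Type := MvPolynomial ℝ L
  let M : Type := AlgebraicClosure (FractionRing A)
  have hA : #A ≤ 𝔠 := by
    refine MvPolynomial.cardinalMk_le_max.trans ?_
    refine max_le (max_le (hL.trans aleph0_le_continuum) ?_) aleph0_le_continuum
    rw [mk_real]
  have hA' : 𝔠 ≤ #A := by
    rw [← mk_real]
    exact mk_le_of_injective (MvPolynomial.X_injective (R := L) (σ := ℝ))
  have hF : #(FractionRing A) = 𝔠 := by
    rw [Cardinal.mk_fractionRing]
    exact le_antisymm hA hA'
  have hM : #M = 𝔠 := by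
    refine le_antisymm ((Algebra.IsAlgebraic.cardinalMk_le_max (FractionRing A) M).trans ?_) ?_
    · rw [hF]
      exact max_le le_rfl aleph0_le_continuum
    · rw [← hF]
      exact mk_le_of_injective (algebraMap (FractionRing A) M).injective
  have hC : #ℂ = 𝔠 := mk_complex
  haveI : CharZero A := by infer_instance
  haveI : CharZero (FractionRing A) := by infer_instance
  haveI : CharZero M := charZero_of_injective_algebraMap (algebraMap (FractionRing A) M).injective
  have he : Nonempty (M ≃ ℂ) := Cardinal.eq.1 (hM.trans hC.symm)
  obtain ⟨e⟩ := IsAlgClosed.ringEquiv_of_equiv_of_charZero (K := M) (L := ℂ)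
    (by rw [hM]; exact aleph0_lt_continuum) he
  exact ⟨e.toRingHom.comp ((algebraMap (FractionRing A) M).comp
    ((algebraMap A (FractionRing A)).comp MvPolynomial.C))⟩

theorem small_field {k : Type} [Field k] [IsAlgClosed k] [CharZero k] (S : Set k)
    (hS : S.Finite) : ∃ (L : Type) (_ : Field L) (_ : IsAlgClosed L) (_ : CharZero L)
      (i : L →+* k) (_ : L →+* ℂ), S ⊆ Set.range i := by
  classical
  let R1 := Algebra.adjoin ℤ S
  have hR1 : #R1 ≤ ℵ₀ := by
    refine (Algebra.cardinalMk_adjoin_le ℤ S).trans (max_le (max_le (by simp) ?_) le_rfl)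
    exact hS.countable.le_aleph0
  let E : Type := FractionRing R1
  have hinj : Function.Injective (algebraMap R1 k) := Subtype.val_injective
  let g : E →+* k := IsFractionRing.lift (K := E) hinj
  letI : Algebra E k := g.toAlgebra
  let L : Type := AlgebraicClosure E
  have hE : #E ≤ ℵ₀ := by
    rw [Cardinal.mk_fractionRing]
    exact hR1
  have hL : #L ≤ ℵ₀ := by
    refine (Algebra.IsAlgebraic.cardinalMk_le_max E L).trans (max_le hE le_rfl)
  haveI : CharZero E := charZero_of_injective_ringHom (f := (algebraMap R1 E))
    (IsFractionRing.injective R1 E)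
  haveI : CharZero L := charZero_of_injective_algebraMap (algebraMap E L).injective
  let i : L →ₐ[E] k := IsAlgClosed.lift
  obtain ⟨σ⟩ := embed_complex L hL
  refine ⟨L, inferInstance, inferInstance, inferInstance, i.toRingHom, σ, fun x hx => ?_⟩
  refine ⟨algebraMap E L (algebraMap R1 E ⟨x, Algebra.subset_adjoin hx⟩), ?_⟩
  change i (algebraMap E L _) = x
  rw [AlgHom.commutes]
  change g (algebraMap R1 E _) = x
  rw [IsFractionRing.lift_algebraMap]
  rfl

end Pool.Agent.R869.Wd
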