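import Pool.Agent.R869.UCor2
import Pool.Agent.R869.ULef

/-!
The criterion for hypersurfaces over algebraically closed fields of characteristic zero.
-/

set_option autoImplicit false

open FF MvPolynomial Metric Pool.Agent.W602.GT

namespace Pool.Agent.R869.Wd

variable {n s : ℕ} {I : Fin s → Finset (Fin (n + 1))} {d : ℕ} {a : Fin s → (Fin (n + 1) →₀ ℕ)}

theorem loose_congr {R R' : Type} [CommSemiring R] [CommSemiring R']
    {F : MvPolynomial (Fin (n + 1)) R} {F' : MvPolynomial (Fin (n + 1)) R'}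
    (h : F.support = F'.support) (J : Finset (Fin (n + 1))) : Loose F J ↔ Loose F' J := by
  unfold Loose Splits monIn
  rw [h]

/-- orbits give colourings -/
theorem TypI.loose_of_orbit {k K : Type} [Field k] [Field K] [Algebra k K] (h : TypI I d a)
    {F : MvPolynomial (Fin (n + 1)) k} (hF : F.support ⊆ withPowers d a)
    {J : Finset (Fin (n + 1))} {x : Fin (n + 1) → K} {b : Fin (n + 1) → ℤ}
    (hx : ∀ j, x j ≠ 0 ↔ j ∈ J) (hb : ∃ j ∈ J, ∃ j' ∈ J, b j ≠ b j')
    (hw : ∀ v, val x (wc b v F) = 0) : Loose F J := by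
  classical
  let e : Fin F.support.card ≃ F.support := F.support.equivFin.symm
  let a' : Fin F.support.card → (Fin (n + 1) →₀ ℕ) := fun i => (e i).1
  have hinj : Function.Injective a' := fun i i' hii => e.injective (Subtype.ext hii)
  have ha' : ∀ i, a' i ∈ F.support := fun i => (e i).2
  have hsurj : ∀ α ∈ F.support, ∃ i, a' i = α := fun α hα =>
    ⟨e.symm ⟨α, hα⟩, by simp [a']⟩
  have hF' : F.support = Finset.univ.image a' := by
    ext α
    rw [Finset.mem_image]
    exact ⟨fun hα => (hsurj α hα).imp fun i hi => ⟨Finset.mem_univ _, hi⟩,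
      fun ⟨i, _, hi⟩ => hi ▸ ha' i⟩
  have h' : TypI (fun i => (a' i).support) d a' := h.sub (fun i => hF (ha' i)) hinj
  have hmem : ∀ i, a' i ∈ monIn F J ↔ (a' i).support ⊆ J := fun i => by
    unfold monIn
    rw [Finset.mem_filter]
    exact and_iff_right (ha' i)
  have hmon : ∀ α ∈ monIn F J, ∃ i, a' i = α := fun α hα => by
    unfold monIn at hα
    exact hsurj α (Finset.mem_filter.1 hα).1
  have c1 : (monIn F J).card = (Finset.univ.filter fun i => (a' i).support ⊆ J).card :=
    card_enum hinj (fun i => by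
      rw [hmem, Finset.mem_filter]
      exact ⟨fun h1 => ⟨Finset.mem_univ _, h1⟩, fun h1 => h1.2⟩) hmon
  have c2 : ∀ c : Fin (n + 1) → ℤ, ((monIn F J).filter fun α =>
      ¬ ∀ j ∈ α.support, ∀ j' ∈ α.support, c j = c j').card =
        (crs (fun i => (a' i).support) J c).card := fun c =>
    card_enum hinj (fun i => by
      rw [Finset.mem_filter, hmem, mem_crs]) fun α hα => hmon α (Finset.mem_filter.1 hα).1
  have c3 : ∀ (c : Fin (n + 1) → ℤ) (v : ℤ), ((monIn F J).filter fun α =>
      ∀ j ∈ α.support, c j = v).card = (cns (fun i => (a' i).support) J c v).card := fun c v =>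
    card_enum hinj (fun i => by
      rw [Finset.mem_filter, hmem, mem_cns]) fun α hα => hmon α (Finset.mem_filter.1 hα).1
  have c4 : ∀ c : Fin (n + 1) → ℤ, ((J.image c).filter fun v =>
      ((monIn F J).filter fun α => ∀ j ∈ α.support, c j = v).card = 1).card =
        (dfc (fun i => (a' i).support) J c).card := by
    intro c
    congr 1
    ext v
    rw [Finset.mem_filter, mem_dfc, ← c3]
  obtain ⟨h1, h2⟩ := h'.colour hinj hF' hx hb hw
  refine ⟨by rw [c1]; exact h1, b, hb, ?_⟩
  have h3 := c2 b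
  have h4 := c4 b
  unfold exg at h2
  rw [h3, h4]
  omega

/-- descent of the base field -/
theorem descend {k : Type} [Field k] [IsAlgClosed k] [CharZero k]
    (F : MvPolynomial (Fin (n + 1)) k) :
    ∃ (L : Type) (_ : Field L) (_ : IsAlgClosed L) (_ : CharZero L) (i : L →+* k) (_ : L →+* ℂ)
      (F0 : MvPolynomial (Fin (n + 1)) L), map i F0 = F := by
  classical
  obtain ⟨L, i1, i2, i3, i, σ, hS⟩ := small_field (k := k)
    (F.support.image fun α => F.coeff α : Finset k) (Finset.finite_toSet _)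
  have hc : ∀ α : Fin (n + 1) →₀ ℕ, ∃ c : L, i c = F.coeff α := by
    intro α
    by_cases hα : α ∈ F.support
    · exact hS (Finset.mem_coe.2 (Finset.mem_image_of_mem _ hα))
    · exact ⟨0, by rw [map_zero, notMem_support_iff.1 hα]⟩
  choose c hc using hc
  refine ⟨L, i1, i2, i3, i, σ, ∑ α ∈ F.support, monomial α (c α), ?_⟩
  rw [map_sum]
  conv_rhs => rw [← support_sum_monomial_coeff F]
  refine Finset.sum_congr rfl fun α _ => ?_
  rw [map_monomial, hc]

/-- **The criterion over algebraically closed fields.** -/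
theorem TypI.critK {k : Type} [Field k] [IsAlgClosed k] [CharZero k] (h : TypI I d a)
    {F : MvPolynomial (Fin (n + 1)) k} (hF : F.support ⊆ withPowers d a)
    (J : Finset (Fin (n + 1))) :
    Loose F J ↔ ∃ (x : Fin (n + 1) → k) (b : Fin (n + 1) → ℤ), (∀ j, x j ≠ 0 ↔ j ∈ J) ∧
      (∃ j ∈ J, ∃ j' ∈ J, b j ≠ b j') ∧ ∀ v, val x (wc b v F) = 0 := by
  classical
  constructor
  · intro hL
    obtain ⟨L, _, _, _, i, σ, F0, rfl⟩ := descend F
    have e1 : (map i F0).support = F0.support := support_map_of_injective _ i.injective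
    have e2 : (map σ F0).support = F0.support := support_map_of_injective _ σ.injective
    have hF' : (map σ F0).support ⊆ withPowers d a := by
      rw [e2, ← e1]
      exact hF
    have hL' : Loose (map σ F0) J := (loose_congr (e2.trans e1.symm) J).2 hL
    obtain ⟨x, b, hx, hb, ho⟩ := ((h.crit hF' J).out 0 1).1 hL'
    have hw : ∀ v, val x (wc b v (map σ F0)) = 0 := fun v => wc_of_orbit (fun t ht => by
      rw [val_eval]
      exact ho t ht 0) v
    letI : Algebra L ℂ := σ.toAlgebra
    have hval : ∀ v, aeval x (wc b v F0) = 0 := by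
      intro v
      have h1 := hw v
      rw [val_wc, e2] at h1
      have h2 := val_wc (k := L) x b v F0
      unfold val at h2
      rw [h2, ← h1]
      refine Finset.sum_congr rfl fun α _ => ?_
      rw [coeff_map]
      rfl
    obtain ⟨z, hz, hz0⟩ := specialise (k := L) x (∏ j ∈ J, X j) (by
      rw [map_prod]
      refine Finset.prod_ne_zero_iff.2 fun j hj => ?_
      rw [aeval_X]
      exact (hx j).2 hj)
    rw [map_prod, Finset.prod_ne_zero_iff] at hz
    refine ⟨fun j => i (z j), b, fun j => ⟨fun hj => ?_, fun hj => ?_⟩, hb, fun v => ?_⟩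
    · by_contra hjJ
      have h1 : x j = 0 := by
        by_contra h2
        exact hjJ ((hx j).1 h2)
      have h2 := hz0 (X j) (by rw [aeval_X]; exact h1)
      rw [aeval_X] at h2
      exact hj (by simp only [h2, map_zero])
    · have h1 := hz j hj
      rw [aeval_X] at h1
      exact (map_ne_zero i).2 h1
    · have h1 := hz0 _ (hval v)
      have h2 := val_wc (k := L) z b v F0
      unfold val at h2
      rw [h2] at h1
      rw [val_wc, e1]
      have h3 := congrArg i h1
      rw [map_sum, map_zero] at h3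
      rw [← h3]
      refine Finset.sum_congr rfl fun α _ => ?_
      rw [coeff_map, map_mul, map_prod]
      simp only [map_pow]
      rfl
  · rintro ⟨x, b, hx, hb, hw⟩
    exact h.loose_of_orbit hF hx hb hw

/-- **The criterion for subvarieties over algebraically closed fields.** -/
theorem TypI.critSub {k : Type} [Field k] [IsAlgClosed k] [CharZero k] (h : TypI I d a)
    {F : MvPolynomial (Fin (n + 1)) k} (hF : F.support ⊆ withPowers d a)
    {U : Set (Fin (n + 1))} {J : Finset (Fin (n + 1))} (hU : ∀ j ∈ U, j ∈ J) :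
    Loose F J ↔
      ∃ (K : Type) (_ : Field K) (_ : Algebra k K) (w : ℕ) (y : Fin (n + 1) → K), 1 ≤ w ∧
        SubVarU U (fun _ : Fin 1 => F) K w y ∧ (∀ j, y j ≠ 0 ↔ j ∈ J) ∧
        ¬ LogGeneralType k K w (OffU U y) := by
  classical
  have hFT : ∀ e : Fin 1, ((fun _ : Fin 1 => F) e).support ⊆ withPowers d a := fun _ => hF
  obtain ⟨s', N, hg⟩ := h.good
  have hC := hg.sys hFT U
  rw [h.critK hF J]
  constructor
  · rintro ⟨x, b, hx, ⟨j, hj, j', hj', hjj⟩, hw⟩
    obtain ⟨K, i1, i2, y, hy, hgt, hsupp⟩ := orbit_subvarJ hC.form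
      (diag_of_wc (U := U) (F := fun _ : Fin 1 => F) (fun l hl => (hx l).2 (hU l hl))
        (fun _ v => hw v) ⟨j, j', (hx j).2 hj, (hx j').2 hj', hjj⟩)
    exact ⟨K, i1, i2, 1, y, le_rfl, hy, fun l => (hsupp l).trans (hx l), hgt⟩
  · rintro ⟨K, _, _, w, y, hw, hy, hyJ, hgt⟩
    obtain ⟨x, b, hx, ⟨j, j', hj, hj', hjj⟩, hwc⟩ := orbit_of_subvar hC hw hy hgt
    exact ⟨x, b, fun l => (hx l).trans (hyJ l), ⟨j, (hyJ j).1 hj, j', (hyJ j').1 hj', hjj⟩,
      fun v => hwc 0 v⟩

end Pool.Agent.R869.Wd
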