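import Pool.Agent.R869.UComb

/-!
Optimal colourings, general sets of monomials: groups of terms and independence.
-/

set_option autoImplicit false

namespace Pool.Agent.R869.Wd

open Finset

variable {n s : ℕ} {I : Fin s → Finset (Fin (n + 1))} {J : Finset (Fin (n + 1))}
  {c : Fin (n + 1) → ℤ} {z0 : Fin s → Fin (n + 1) → ℝ}

/-- groups of terms: pairs, and at most one triple, if `θ = 1` -/
structure Grp {α : Type} [DecidableEq α] (It : Finset α) (γ : α → ℕ) (p θ : ℕ) : Prop where
  two : ∀ q ∈ It, ∃ q' ∈ It, q' ≠ q ∧ γ q' = γ q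
  size : ∀ M ⊆ It, M.card ≤ 2 * (M.image γ).card + θ
  num : (It.image γ).card = p

theorem exists_grp {α : Type} [DecidableEq α] (It : Finset α) {p θ : ℕ}
    (hc : It.card = 2 * p + θ) (h1 : θ ≤ 1) (h2 : θ = 1 → 1 ≤ p) : ∃ γ, Grp It γ p θ := by
  classical
  let idx : α → ℕ := fun q => if h : q ∈ It then (It.equivFin ⟨q, h⟩).val else 0
  have hidx : ∀ q (h : q ∈ It), idx q = (It.equivFin ⟨q, h⟩).val := fun q h => dif_pos h
  have hlt : ∀ q ∈ It, idx q < 2 * p + θ := fun q h => by
    rw [hidx q h, ← hc]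
    exact (It.equivFin ⟨q, h⟩).isLt
  have hinj : ∀ q ∈ It, ∀ q' ∈ It, idx q = idx q' → q = q' := by
    intro q h q' h' heq
    rw [hidx q h, hidx q' h'] at heq
    exact congrArg Subtype.val (It.equivFin.injective (Fin.ext heq))
  have hsurj : ∀ k, k < 2 * p + θ → ∃ q ∈ It, idx q = k := by
    intro k hk
    refine ⟨(It.equivFin.symm ⟨k, by rw [hc]; exact hk⟩).1, (It.equivFin.symm _).2, ?_⟩
    rw [hidx _ (It.equivFin.symm _).2]
    simp
  refine ⟨fun q => min (idx q / 2) (p - 1), ?_, ?_, ?_⟩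
  · intro q hq
    have h3 := hlt q hq
    have hp : 1 ≤ p := by
      rcases Nat.eq_zero_or_pos p with h | h
      · have h4 : θ ≠ 1 := fun h5 => by
          have := h2 h5
          omega
        omega
      · exact h
    obtain ⟨k, hk, hkq, hkk⟩ : ∃ k, k < 2 * p + θ ∧ k ≠ idx q ∧
        min (k / 2) (p - 1) = min (idx q / 2) (p - 1) := by
      rcases Nat.even_or_odd (idx q) with he | ho
      · obtain ⟨r, hr⟩ := he
        by_cases h4 : idx q < 2 * p
        · exact ⟨idx q + 1, by omega, by omega, by omega⟩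
        · exact ⟨2 * p - 1, by omega, by omega, by omega⟩
      · obtain ⟨r, hr⟩ := ho
        exact ⟨idx q - 1, by omega, by omega, by omega⟩
    obtain ⟨q', hq', rfl⟩ := hsurj k hk
    exact ⟨q', hq', fun h => hkq (by rw [h]), hkk⟩
  · intro M hM
    let M' := M.filter fun q => idx q < 2 * p
    have h3 : M.card ≤ M'.card + θ := by
      have h4 : (M.filter fun q => idx q < 2 * p).card +
        (M.filter fun q => ¬ idx q < 2 * p).card = M.card := card_filter_add_card_filter_not _
      have h5 : (M.filter fun q => ¬ idx q < 2 * p).card ≤ θ := by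
        have h6 : (M.filter fun q => ¬ idx q < 2 * p).card ≤ (Finset.Ico (2 * p) (2 * p + θ)).card := by
          refine card_le_card_of_injOn idx (fun q hq => ?_) fun q hq q' hq' h => ?_
          · obtain ⟨h7, h8⟩ := mem_filter.1 (mem_coe.1 hq)
            exact mem_coe.2 (mem_Ico.2 ⟨not_lt.1 h8, hlt q (hM h7)⟩)
          · exact hinj q (hM (mem_filter.1 (mem_coe.1 hq)).1) q'
              (hM (mem_filter.1 (mem_coe.1 hq')).1) h
        rw [Nat.card_Ico] at h6
        omega
      change M.card ≤ (M.filter fun q => idx q < 2 * p).card + θ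
      omega
    have h4 : M'.card ≤ 2 * (M'.image fun q => min (idx q / 2) (p - 1)).card := by
      refine card_le_mul_card_image _ _ fun k hk => ?_
      have h5 : (M'.filter fun x => min (idx x / 2) (p - 1) = k).card ≤
          ({2 * k, 2 * k + 1} : Finset ℕ).card := by
        refine card_le_card_of_injOn idx (fun q hq => ?_) fun q hq q' hq' h => ?_
        · obtain ⟨h7, h8⟩ := mem_filter.1 (mem_coe.1 hq)
          have h9 := (mem_filter.1 h7).2
          rw [mem_coe, mem_insert, mem_singleton]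
          omega
        · exact hinj q (hM (mem_filter.1 (mem_filter.1 (mem_coe.1 hq)).1).1) q'
            (hM (mem_filter.1 (mem_filter.1 (mem_coe.1 hq')).1).1) h
      exact h5.trans (card_le_two)
    have h5 : (M'.image fun q => min (idx q / 2) (p - 1)).card ≤
        (M.image fun q => min (idx q / 2) (p - 1)).card :=
      card_le_card (image_subset_image (filter_subset _ _))
    omega
  · have h3 : It.image (fun q => min (idx q / 2) (p - 1)) = range p := by
      ext k
      rw [mem_image, mem_range]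
      constructor
      · rintro ⟨q, hq, rfl⟩
        have h4 := hlt q hq
        have hp : 1 ≤ p := by
          rcases Nat.eq_zero_or_pos p with h | h
          · have h4 : θ ≠ 1 := fun h5 => by
              have := h2 h5
              omega
            omega
          · exact h
        omega
      · intro hk
        obtain ⟨q, hq, hqk⟩ := hsurj (2 * k) (by omega)
        exact ⟨q, hq, by rw [hqk]; omega⟩
    rw [h3, card_range]

theorem zero_sum_mem {α V : Type} [AddCommGroup V] [Module ℝ V] (M : Finset α)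
    (γ : α → ℕ) (g : α → ℝ) (f : α → V) (hg : ∀ l, ∑ q ∈ M with γ q = l, g q = 0) :
    ∑ q ∈ M, g q • f q ∈
      Submodule.span ℝ {x | ∃ q ∈ M, ∃ q' ∈ M, γ q = γ q' ∧ x = f q - f q'} := by
  classical
  rcases M.eq_empty_or_nonempty with rfl | ⟨q0, hq0⟩
  · rw [sum_empty]
    exact Submodule.zero_mem _
  have hr : ∀ l ∈ M.image γ, ∃ q ∈ M, γ q = l := fun l hl => mem_image.1 hl
  let r : ℕ → α := fun l => if h : l ∈ M.image γ then (hr l h).choose else q0
  have hrr : ∀ q ∈ M, r (γ q) ∈ M ∧ γ (r (γ q)) = γ q := by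
    intro q hq
    have h1 : γ q ∈ M.image γ := mem_image_of_mem _ hq
    have h2 : r (γ q) = (hr _ h1).choose := dif_pos h1
    rw [h2]
    exact (hr _ h1).choose_spec
  have h1 : ∑ q ∈ M, g q • f (r (γ q)) = 0 := by
    rw [← sum_fiberwise_of_maps_to (g := γ) (t := M.image γ) fun q hq => mem_image_of_mem γ hq]
    refine sum_eq_zero fun l _ => ?_
    have h2 : ∀ q ∈ M.filter (fun q => γ q = l), g q • f (r (γ q)) = g q • f (r l) :=
      fun q hq => by rw [(mem_filter.1 hq).2]
    rw [sum_congr rfl h2, ← sum_smul, hg l, zero_smul]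
  have h2 : ∑ q ∈ M, g q • f q = ∑ q ∈ M, g q • (f q - f (r (γ q))) := by
    simp only [smul_sub, sum_sub_distrib]
    rw [h1, sub_zero]
  rw [h2]
  refine Submodule.sum_mem _ fun q hq => Submodule.smul_mem _ _ (Submodule.subset_span ?_)
  exact ⟨q, hq, _, (hrr q hq).1, (hrr q hq).2.symm, rfl⟩

/-- **Independence.** -/
theorem OptG.indep (h : OptG I J c) (hz0 : Adm I z0)
    (hgen : ∀ p q : Fin n → Fin s ⊕ Fin (n + 1),
      (∃ z, Adm I z ∧ (dz p q z).det ≠ 0) → (dz p q z0).det ≠ 0)
    {B : Finset (Fin (n + 1))} {p θ : ℕ} (hB : Blocks I J c B p θ)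
    {γ : Fin s ⊕ Fin (n + 1) → ℕ} (hγ : Grp ((crs I J c).disjSum B) γ p θ)
    (cf : Fin s ⊕ Fin (n + 1) → ℝ)
    (hsum : ∀ l, ∑ q ∈ (crs I J c).disjSum B with γ q = l, cf q = 0)
    (hcf : ∑ q ∈ (crs I J c).disjSum B, cf q • vz z0 q ∈
      Submodule.span ℝ (pv z0 '' Cls J c)) : ∀ q ∈ (crs I J c).disjSum B, cf q = 0 := by
  classical
  set It := (crs I J c).disjSum B with hIt
  by_contra hne
  push Not at hne
  let L : Finset (Fin s ⊕ Fin (n + 1)) := It.filter fun q => cf q ≠ 0
  have hLIt : L ⊆ It := filter_subset _ _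
  obtain ⟨q00, hq00⟩ : L.Nonempty := by
    obtain ⟨q, hq, hq'⟩ := hne
    exact ⟨q, mem_filter.2 ⟨hq, hq'⟩⟩
  have hsumL : ∀ l, ∑ q ∈ L with γ q = l, cf q = 0 := by
    intro l
    rw [← hsum l]
    refine sum_subset (fun q hq => ?_) fun q hq hq' => ?_
    · obtain ⟨h1, h2⟩ := mem_filter.1 hq
      exact mem_filter.2 ⟨hLIt h1, h2⟩
    · obtain ⟨h1, h2⟩ := mem_filter.1 hq
      by_contra h3
      exact hq' (mem_filter.2 ⟨mem_filter.2 ⟨h1, h3⟩, h2⟩)
  have hcfL : ∑ q ∈ L, cf q • vz z0 q ∈ Submodule.span ℝ (pv z0 '' Cls J c) := by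
    have h1 : ∑ q ∈ L, cf q • vz z0 q = ∑ q ∈ It, cf q • vz z0 q := by
      refine sum_subset hLIt fun q hq hq' => ?_
      have h2 : cf q = 0 := by
        by_contra h3
        exact hq' (mem_filter.2 ⟨hq, h3⟩)
      rw [h2, zero_smul]
    rw [h1]
    exact hcf
  have hpart : ∀ q ∈ L, ∃ t ∈ L, t ≠ q ∧ γ t = γ q := by
    intro q hq
    by_contra hcon
    push Not at hcon
    have h1 : L.filter (fun t => γ t = γ q) = {q} := by
      ext t
      rw [mem_filter, mem_singleton]
      constructor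
      · rintro ⟨h2, h3⟩
        by_contra h4
        exact hcon t h2 h4 h3
      · rintro rfl
        exact ⟨hq, rfl⟩
    have h2 := hsumL (γ q)
    rw [h1, sum_singleton] at h2
    exact (mem_filter.1 hq).2 h2
  let S : Finset (Fin s ⊕ Fin (n + 1)) →
      Set ((Fin s ⊕ Fin (n + 1)) × (Fin s ⊕ Fin (n + 1))) := fun M =>
    Cls J c ∪ {x | x.1 ∈ M ∧ x.2 ∈ M ∧ γ x.1 = γ x.2}
  let H : Submodule ℝ (Fin n → ℝ) := Submodule.span ℝ (pv z0 '' S L)
  have hSH : ∀ M ⊆ L, Submodule.span ℝ (pv z0 '' S M) ≤ H := fun M hM =>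
    Submodule.span_mono (Set.image_mono (Set.union_subset_union_right _
      fun x hx => ⟨hM hx.1, hM hx.2.1, hx.2.2⟩))
  have hclsS : ∀ M, Submodule.span ℝ (pv z0 '' Cls J c) ≤ Submodule.span ℝ (pv z0 '' S M) :=
    fun M => Submodule.span_mono (Set.image_mono Set.subset_union_left)
  have hzs : ∀ M (g : Fin s ⊕ Fin (n + 1) → ℝ), (∀ l, ∑ q ∈ M with γ q = l, g q = 0) →
      ∑ q ∈ M, g q • vz z0 q ∈ Submodule.span ℝ (pv z0 '' S M) := by
    intro M g hg
    refine Submodule.span_mono ?_ (zero_sum_mem M γ g (vz z0) hg)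
    rintro x ⟨q, hq, q', hq', hqq, rfl⟩
    exact ⟨(q, q'), Or.inr ⟨hq, hq', hqq⟩, rfl⟩
  -- the members of the relation
  have hfr : ∀ q ∈ L, ∀ t ∈ L, t ≠ q → γ t = γ q →
      pv z0 (q, t) ∈ Submodule.span ℝ (pv z0 '' S (L.erase q)) := by
    intro q hq t ht htq hγt
    have hcq : cf q ≠ 0 := (mem_filter.1 hq).2
    have hte : t ∈ L.erase q := mem_erase.2 ⟨htq, ht⟩
    let g : Fin s ⊕ Fin (n + 1) → ℝ := fun q' => cf q' + if q' = t then cf q else 0
    have hg : ∀ l, ∑ q' ∈ L.erase q with γ q' = l, g q' = 0 := by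
      intro l
      rw [sum_filter]
      have h1 : ∀ q' ∈ L.erase q, (if γ q' = l then g q' else 0) =
          (if γ q' = l then cf q' else 0) + (if q' = t then (if γ t = l then cf q else 0) else 0) := by
        intro q' _
        simp only [g]
        by_cases h2 : q' = t
        · subst h2
          by_cases h3 : γ q' = l
          · simp [h3]
          · simp [h3]
        · simp [h2]
      rw [sum_congr rfl h1, sum_add_distrib, sum_ite_eq' (L.erase q) t, if_pos hte]
      have h2 := add_sum_erase L (fun q' => if γ q' = l then cf q' else 0) hq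
      have h3 : ∑ q' ∈ L, (if γ q' = l then cf q' else 0) = 0 := by
        rw [← sum_filter]
        exact hsumL l
      rw [h3] at h2
      rw [hγt]
      linarith
    have h1 : pv z0 (q, t) = (cf q)⁻¹ • (∑ q ∈ L, cf q • vz z0 q -
        ∑ q' ∈ L.erase q, g q' • vz z0 q') := by
      have h2 := add_sum_erase L (fun q' => cf q' • vz z0 q') hq
      have h3 : ∑ q' ∈ L.erase q, g q' • vz z0 q' =
          ∑ q' ∈ L.erase q, cf q' • vz z0 q' + cf q • vz z0 t := by
        simp only [g, add_smul, sum_add_distrib, ite_smul, zero_smul]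
        rw [sum_ite_eq' (L.erase q) t, if_pos hte]
      rw [h3, ← h2]
      have h4 : cf q • vz z0 q + ∑ x ∈ L.erase q, cf x • vz z0 x -
          (∑ q' ∈ L.erase q, cf q' • vz z0 q' + cf q • vz z0 t) = cf q • pv z0 (q, t) := by
        unfold pv
        rw [smul_sub]
        abel
      rw [h4, inv_smul_smul₀ hcq]
    rw [h1]
    exact Submodule.smul_mem _ _ (Submodule.sub_mem _ (hclsS _ hcfL) (hzs _ g hg))
  -- the differences of the variables of one term
  have hterm : ∀ q ∈ L, ∀ j ∈ tv I q, ∀ j' ∈ tv I q, (ev j - ev j' : Fin n → ℝ) ∈ H := by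
    intro q hq j hj j' hj'
    obtain ⟨t, ht, htq, hγt⟩ := hpart q hq
    rcases q with i | j0
    · refine hSH _ (erase_subset _ L) (fresh hz0 hgen i t htq (S (L.erase (Sum.inl i))) ?_
        (hfr _ hq t ht htq hγt) j j' hj hj')
      rintro x (⟨j, -, j', -, -, rfl⟩ | ⟨h1, h2, -⟩)
      · exact ⟨Sum.inr_ne_inl, Sum.inr_ne_inl⟩
      · exact ⟨(mem_erase.1 h1).1, (mem_erase.1 h2).1⟩
    · have h5 : j = j0 := mem_singleton.1 hj
      have h6 : j' = j0 := mem_singleton.1 hj'
      rw [h5, h6, sub_self]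
      exact Submodule.zero_mem _
  have hvt : ∀ q ∈ L, ∀ j ∈ tv I q, vz z0 q - ev j ∈ H := by
    intro q hq j hj
    rcases q with i | j0
    · rw [vz_sum hz0]
      refine Submodule.sum_mem _ fun j' _ => ?_
      by_cases h5 : j' ∈ I i
      · exact Submodule.smul_mem _ _ (hterm _ hq j' h5 j hj)
      · rw [(hz0 i).1 j' h5, zero_smul]
        exact Submodule.zero_mem _
    · have h5 : j = j0 := mem_singleton.1 hj
      rw [h5, vz_inr, sub_self]
      exact Submodule.zero_mem _
  have hpair : ∀ q ∈ L, ∀ q' ∈ L, γ q = γ q' → pv z0 (q, q') ∈ H := fun q hq q' hq' hqq =>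
    Submodule.subset_span ⟨(q, q'), Or.inr ⟨hq, hq', hqq⟩, rfl⟩
  have hall : ∀ q ∈ L, ∀ q' ∈ L, γ q = γ q' → ∀ j ∈ tv I q, ∀ j' ∈ tv I q',
      (ev j - ev j' : Fin n → ℝ) ∈ H := by
    intro q hq q' hq' hqq j hj j' hj'
    have h6 := hvt q hq j hj
    have h7 := hvt q' hq' j' hj'
    have h8 : (ev j - ev j' : Fin n → ℝ) = pv z0 (q, q') - (vz z0 q - ev j) +
        (vz z0 q' - ev j') := by
      change _ = (vz z0 q - vz z0 q') - _ + _
      abel
    rw [h8]
    exact Submodule.add_mem _ (Submodule.sub_mem _ (hpair q hq q' hq' hqq) h6) h7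
  -- the dimension
  have hrl : ∀ l ∈ L.image γ, ∃ q ∈ L, γ q = l := fun l hl => mem_image.1 hl
  let r : ℕ → Fin s ⊕ Fin (n + 1) := fun l =>
    if h : l ∈ L.image γ then (hrl l h).choose else q00
  have hr : ∀ l ∈ L.image γ, r l ∈ L ∧ γ (r l) = l := by
    intro l h1
    have h2 : r l = (hrl _ h1).choose := dif_pos h1
    rw [h2]
    exact (hrl _ h1).choose_spec
  have hrq : ∀ q ∈ L, r (γ q) ∈ L ∧ γ (r (γ q)) = γ q := fun q hq =>
    hr _ (mem_image_of_mem γ hq)
  have hdim : Module.finrank ℝ H + (L.image γ).card + 1 ≤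
      Module.finrank ℝ (Submodule.span ℝ (pv z0 '' Cls J c)) + L.card := by
    obtain ⟨q0, hq0, hrq0⟩ : ∃ q0 ∈ L, r (γ q0) ≠ q0 := by
      by_cases h1 : r (γ q00) = q00
      · obtain ⟨t, ht, htq, hγt⟩ := hpart q00 hq00
        exact ⟨t, ht, by rw [hγt, h1]; exact htq.symm⟩
      · exact ⟨q00, hq00, h1⟩
    let K0 := L.filter fun q => r (γ q) ≠ q
    let G : Finset (Fin n → ℝ) := (K0.erase q0).image fun q => pv z0 (q, r (γ q))
    have h5 : ∀ q ∈ K0.erase q0, pv z0 (q, r (γ q)) ∈ Submodule.span ℝ (pv z0 '' Cls J c) ⊔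
        Submodule.span ℝ (G : Set (Fin n → ℝ)) := fun l hl =>
      Submodule.mem_sup_right (Submodule.subset_span (mem_coe.2 (mem_image_of_mem _ hl)))
    have h6 : ∀ q ∈ L, q ≠ q0 → pv z0 (q, r (γ q)) ∈ Submodule.span ℝ (pv z0 '' Cls J c) ⊔
        Submodule.span ℝ (G : Set (Fin n → ℝ)) := by
      intro q hq hqq0
      by_cases h7 : r (γ q) = q
      · rw [h7]
        unfold pv
        rw [sub_self]
        exact Submodule.zero_mem _
      · exact h5 q (mem_erase.2 ⟨hqq0, mem_filter.2 ⟨hq, h7⟩⟩)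
    have h7 : ∑ q ∈ L, cf q • pv z0 (q, r (γ q)) ∈
        Submodule.span ℝ (pv z0 '' Cls J c) := by
      have h8 : ∑ q ∈ L, cf q • vz z0 (r (γ q)) = 0 := by
        rw [← sum_fiberwise_of_maps_to (g := γ) (t := L.image γ)
          fun q hq => mem_image_of_mem γ hq]
        refine sum_eq_zero fun l _ => ?_
        have h2 : ∀ q ∈ L.filter (fun q => γ q = l), cf q • vz z0 (r (γ q)) =
          cf q • vz z0 (r l) := fun q hq => by rw [(mem_filter.1 hq).2]
        rw [sum_congr rfl h2, ← sum_smul, hsumL l, zero_smul]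
      have h9 : ∑ q ∈ L, cf q • pv z0 (q, r (γ q)) = ∑ q ∈ L, cf q • vz z0 q := by
        unfold pv
        simp only [smul_sub, sum_sub_distrib]
        rw [h8, sub_zero]
      rw [h9]
      exact hcfL
    have h8 : pv z0 (q0, r (γ q0)) ∈ Submodule.span ℝ (pv z0 '' Cls J c) ⊔
        Submodule.span ℝ (G : Set (Fin n → ℝ)) := by
      have hcq : cf q0 ≠ 0 := (mem_filter.1 hq0).2
      have h9 := add_sum_erase L (fun q => cf q • pv z0 (q, r (γ q))) hq0
      have h10 : pv z0 (q0, r (γ q0)) = (cf q0)⁻¹ • (∑ q ∈ L, cf q • pv z0 (q, r (γ q)) -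
          ∑ q ∈ L.erase q0, cf q • pv z0 (q, r (γ q))) := by
        rw [← h9]
        simp only [add_sub_cancel_right]
        rw [inv_smul_smul₀ hcq]
      rw [h10]
      refine Submodule.smul_mem _ _ (Submodule.sub_mem _ (Submodule.mem_sup_left h7)
        (Submodule.sum_mem _ fun q hq => Submodule.smul_mem _ _ ?_))
      exact h6 q (mem_erase.1 hq).2 (mem_erase.1 hq).1
    have h9 : ∀ q ∈ L, pv z0 (q, r (γ q)) ∈ Submodule.span ℝ (pv z0 '' Cls J c) ⊔
        Submodule.span ℝ (G : Set (Fin n → ℝ)) := by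
      intro q hq
      by_cases h10 : q = q0
      · rw [h10]
        exact h8
      · exact h6 q hq h10
    have h10 : H ≤ Submodule.span ℝ (pv z0 '' Cls J c) ⊔
        Submodule.span ℝ (G : Set (Fin n → ℝ)) := by
      change Submodule.span ℝ (pv z0 '' S L) ≤ _
      rw [Submodule.span_le]
      rintro _ ⟨⟨q, q'⟩, (hx | ⟨hq, hq', hqq⟩), rfl⟩
      · exact Submodule.mem_sup_left (Submodule.subset_span ⟨_, hx, rfl⟩)
      · have h11 := Submodule.sub_mem _ (h9 q hq) (h9 q' hq')
        simp only at hqq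
        rw [← hqq] at h11
        have h12 : pv z0 (q, r (γ q)) - pv z0 (q', r (γ q)) = pv z0 (q, q') := by
          unfold pv
          exact sub_sub_sub_cancel_right _ _ _
        rw [h12] at h11
        exact h11
    have h11 := Submodule.finrank_mono h10
    have h12 := Submodule.finrank_add_le_finrank_add_finrank
      (Submodule.span ℝ (pv z0 '' Cls J c)) (Submodule.span ℝ (G : Set (Fin n → ℝ)))
    have h13 : Module.finrank ℝ (Submodule.span ℝ (G : Set (Fin n → ℝ))) ≤ G.card :=
      finrank_span_finset_le_card (R := ℝ) G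
    have h14 : G.card ≤ (K0.erase q0).card := card_image_le
    have h15 : (K0.erase q0).card + 1 = K0.card :=
      card_erase_add_one (mem_filter.2 ⟨hq0, hrq0⟩)
    have h16 : (L.filter fun q => r (γ q) = q).card + (L.filter fun q => ¬ r (γ q) = q).card =
      L.card := card_filter_add_card_filter_not _
    have h17 : (L.image γ).card ≤ (L.filter fun q => r (γ q) = q).card := by
      refine card_le_card_of_injOn r (fun l hl => ?_) fun l hl l' hl' h18 => ?_
      · obtain ⟨h18, h19⟩ := hr l (mem_coe.1 hl)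
        exact mem_coe.2 (mem_filter.2 ⟨h18, by rw [h19]⟩)
      · rw [← (hr l (mem_coe.1 hl)).2, ← (hr l' (mem_coe.1 hl')).2, h18]
    have h18 : K0.card = (L.filter fun q => ¬ r (γ q) = q).card := rfl
    omega
  -- the coarser colouring
  let st : Setoid (Fin (n + 1)) :=
    { r := fun j j' => (ev j - ev j' : Fin n → ℝ) ∈ H
      iseqv := ⟨fun j => by rw [sub_self]; exact Submodule.zero_mem _,
        fun {j j'} hj => by
          have h5 := Submodule.neg_mem _ hj
          rwa [neg_sub] at h5,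
        fun {j j' j''} h5 h6 => by
          have h7 := Submodule.add_mem _ h5 h6
          rwa [sub_add_sub_cancel] at h7⟩ }
  let c' : Fin (n + 1) → ℤ := fun j => (((Quotient.mk st j).out : Fin (n + 1)).val : ℤ)
  have hc' : ∀ j j', c' j = c' j' ↔ (ev j - ev j' : Fin n → ℝ) ∈ H := by
    intro j j'
    constructor
    · intro h5
      have h5' : (((Quotient.mk st j).out : Fin (n + 1)).val : ℤ) =
        (((Quotient.mk st j').out : Fin (n + 1)).val : ℤ) := h5
      have h6 : (Quotient.mk st j).out = (Quotient.mk st j').out := Fin.ext (by exact_mod_cast h5')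
      have h7 : Quotient.mk st j = Quotient.mk st j' := by
        rw [← Quotient.out_eq (Quotient.mk st j), h6, Quotient.out_eq]
      exact Quotient.exact h7
    · intro h5
      have h7 : Quotient.mk st j = Quotient.mk st j' := Quotient.sound h5
      simp only [c', h7]
  have hcoarse : ∀ j ∈ J, ∀ j' ∈ J, c j = c j' → c' j = c' j' := by
    intro j hj j' hj' h5
    rw [hc']
    exact Submodule.subset_span ⟨(Sum.inr j, Sum.inr j'), Or.inl ⟨j, hj, j', hj', h5, rfl⟩, rfl⟩
  have hJne : J.Nonempty := by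
    obtain ⟨j, hj, -⟩ := h.nc
    exact ⟨j, hj⟩
  have hV := low_dim H c' hJne fun j _ j' _ h5 => (hc' j j').1 h5
  have hcl := span_cls_le z0 J c
  -- the terms of the relation
  let A : Finset (Fin s) := univ.filter fun i => Sum.inl i ∈ L
  let Bp : Finset (Fin (n + 1)) := univ.filter fun j => Sum.inr j ∈ L
  have hAc : A ⊆ crs I J c := fun i hi => inl_mem_disjSum.1 (hLIt (mem_filter.1 hi).2)
  have hBpB : Bp ⊆ B := fun i hi => inr_mem_disjSum.1 (hLIt (mem_filter.1 hi).2)
  have hcount : L.card ≤ A.card + Bp.card := by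
    rw [← card_disjSum]
    refine card_le_card fun q hq => ?_
    rcases q with i | j
    · exact inl_mem_disjSum.2 (mem_filter.2 ⟨mem_univ _, hq⟩)
    · exact inr_mem_disjSum.2 (mem_filter.2 ⟨mem_univ _, hq⟩)
  have hN : (crs I J c').card + A.card ≤ (crs I J c).card := by
    rw [← card_union_of_disjoint]
    · refine card_le_card (union_subset (fun i hi => ?_) hAc)
      obtain ⟨h5, h6⟩ := mem_crs.1 hi
      exact mem_crs.2 ⟨h5, fun h7 => h6 fun x hx y hy =>
        hcoarse x (h5 hx) y (h5 hy) (h7 x hx y hy)⟩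
    · rw [disjoint_left]
      intro i hi hiA
      obtain ⟨h5, h6⟩ := mem_crs.1 hi
      exact h6 fun x hx y hy => (hc' x y).2 (hterm _ (mem_filter.1 hiA).2 x hx y hy)
  -- the groups meet no colour of exactly one term
  let T : Fin s ⊕ Fin (n + 1) → Finset (Fin s) :=
    Sum.elim (fun i => {i}) fun j => cns I J c (c j)
  have hT1 : ∀ q ∈ It, (T q).Nonempty := by
    rintro (i | j) hq
    · exact singleton_nonempty i
    · exact card_pos.1 (hB.pos j (inr_mem_disjSum.1 hq))
  have hT2 : ∀ q ∈ It, ∀ q' ∈ It, q ≠ q' → Disjoint (T q) (T q') := by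
    have hcm : ∀ i ∈ crs I J c, ∀ v, i ∉ cns I J c v := fun i hi v hv => (mem_crs.1 hi).2
      fun x hx y hy => by rw [(mem_cns.1 hv).2 x hx, (mem_cns.1 hv).2 y hy]
    rintro (i | j) hq (i' | j') hq' hne
    · change Disjoint ({i} : Finset (Fin s)) {i'}
      rw [disjoint_singleton]
      exact fun h5 => hne (by rw [h5])
    · change Disjoint ({i} : Finset (Fin s)) (cns I J c (c j'))
      rw [disjoint_singleton_left]
      exact hcm i (inl_mem_disjSum.1 hq) _
    · change Disjoint (cns I J c (c j)) ({i'} : Finset (Fin s))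
      rw [disjoint_singleton_right]
      exact hcm i' (inl_mem_disjSum.1 hq') _
    · change Disjoint (cns I J c (c j)) (cns I J c (c j'))
      rw [disjoint_left]
      intro i hi hi'
      by_cases hIi : (I i).Nonempty
      · obtain ⟨x, hx⟩ := hIi
        have h5 : c j = c j' := ((mem_cns.1 hi).2 x hx).symm.trans ((mem_cns.1 hi').2 x hx)
        exact hne (by rw [hB.inj j (inr_mem_disjSum.1 hq) j' (inr_mem_disjSum.1 hq') h5])
      · -- an empty set has no exponents
        rw [not_nonempty_iff_eq_empty] at hIi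
        have h5 := (hz0 i).2
        rw [sum_eq_zero fun x _ => (hz0 i).1 x (by rw [hIi]; exact notMem_empty x)] at h5
        exact absurd h5 zero_ne_one
  have htvJ : ∀ q ∈ It, tv I q ⊆ J := by
    rintro (i | j) hq
    · exact (mem_crs.1 (inl_mem_disjSum.1 hq)).1
    · exact singleton_subset_iff.2 (hB.sub (inr_mem_disjSum.1 hq))
  have htouch : ∀ w, (cns I J c' w).card = 1 → ∀ q ∈ L, ∀ k ∈ tv I q, c' k ≠ w := by
    intro w hw q hq k hk hkw
    obtain ⟨t, ht, htq, hγt⟩ := hpart q hq
    have h5 : ∀ q' ∈ L, γ q' = γ q → T q' ⊆ cns I J c' w := by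
      intro q' hq' hγ'
      have h6 : ∀ x ∈ tv I q', c' x = w := fun x hx => by
        rw [← hkw]
        exact (hc' x k).2 (hall q' hq' q hq hγ' x hx k hk)
      rcases q' with i | j
      · change ({i} : Finset (Fin s)) ⊆ _
        rw [singleton_subset_iff]
        exact mem_cns.2 ⟨htvJ _ (hLIt hq'), h6⟩
      · change cns I J c (c j) ⊆ _
        intro i hi
        obtain ⟨h7, h8⟩ := mem_cns.1 hi
        refine mem_cns.2 ⟨h7, fun x hx => ?_⟩
        rw [hcoarse x (h7 hx) j (hB.sub (inr_mem_disjSum.1 (hLIt hq'))) (h8 x hx)]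
        exact h6 j (mem_singleton_self j)
    have h6 := card_le_card (union_subset (h5 q hq rfl) (h5 t ht hγt))
    rw [card_union_of_disjoint (hT2 q (hLIt hq) t (hLIt ht) htq.symm), hw] at h6
    have h7 := card_pos.2 (hT1 q (hLIt hq))
    have h8 := card_pos.2 (hT1 t (hLIt ht))
    omega
  have hclass : ∀ w, (cns I J c' w).card = 1 → ∀ j ∈ J, ∀ j' ∈ J, c' j = w → c' j' = w →
      c j = c j' := by
    intro w hw j hj j' hj' h5 h6
    by_contra hcc
    let b : Fin (n + 1) → ℝ := fun x => if x ∈ J ∧ c x = c j then 1 else 0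
    have h7 : H ≤ LinearMap.ker (wf b) := by
      change Submodule.span ℝ (pv z0 '' S L) ≤ _
      rw [Submodule.span_le]
      have hwr : ∀ q ∈ L, wr z0 b q = 0 := by
        intro q hq
        have h8 : ∀ x ∈ tv I q, b x = 0 := by
          intro x hx
          simp only [b]
          rw [if_neg]
          rintro ⟨h9, h10⟩
          refine htouch w hw q hq x hx ?_
          rw [hcoarse x h9 j hj h10, h5]
        rcases q with i | j0
        · change ∑ x, z0 i x * b x = 0
          refine sum_eq_zero fun x _ => ?_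
          by_cases h9 : x ∈ I i
          · rw [h8 x h9, mul_zero]
          · rw [(hz0 i).1 x h9, zero_mul]
        · exact h8 j0 (mem_singleton_self j0)
      rintro _ ⟨⟨q, q'⟩, (⟨x, hx, y, hy, hxy, hqq⟩ | ⟨hq, hq', hqq⟩), rfl⟩
      · change wf b (pv z0 (q, q')) = 0
        rw [wf_pv hz0]
        rw [Prod.mk.injEq] at hqq
        rw [hqq.1, hqq.2]
        change b x - b y = 0
        simp only [b, hxy, hx, hy]
        exact sub_self _
      · change wf b (pv z0 (q, q')) = 0
        rw [wf_pv hz0, hwr q hq, hwr q' hq', sub_zero]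
    have h8 : (ev j - ev j' : Fin n → ℝ) ∈ H := (hc' j j').1 (by rw [h5, h6])
    have h9 := h7 h8
    rw [LinearMap.mem_ker] at h9
    have h10 : wf b (pv z0 (Sum.inr j, Sum.inr j')) = 0 := h9
    rw [wf_pv hz0] at h10
    change b j - b j' = 0 at h10
    simp only [b] at h10
    rw [if_pos ⟨hj, trivial⟩, if_neg (fun h11 => hcc h11.2.symm)] at h10
    norm_num at h10
  have hdv : ∀ w ∈ dfc I J c', ∃ j ∈ J, c' j = w := fun w hw =>
    mem_image.1 (mem_dfc.1 hw).1
  let jw : ℤ → Fin (n + 1) := fun w => if h : w ∈ dfc I J c' then (hdv w h).choose else 0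
  have hjw : ∀ w ∈ dfc I J c', jw w ∈ J ∧ c' (jw w) = w := by
    intro w h1
    have h2 : jw w = (hdv _ h1).choose := dif_pos h1
    rw [h2]
    exact (hdv _ h1).choose_spec
  have hmap : ∀ w ∈ dfc I J c', c (jw w) ∈ dfc I J c := by
    intro w hw
    obtain ⟨h5, h6⟩ := hjw w hw
    have h7 := (mem_dfc.1 hw).2
    refine mem_dfc.2 ⟨mem_image_of_mem _ h5, ?_⟩
    rw [← h7]
    congr 1
    ext i
    rw [mem_cns, mem_cns]
    constructor
    · rintro ⟨h8, h9⟩
      exact ⟨h8, fun x hx => by rw [hcoarse x (h8 hx) _ h5 (h9 x hx), h6]⟩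
    · rintro ⟨h8, h9⟩
      exact ⟨h8, fun x hx => hclass w h7 x (h8 hx) _ h5 (h9 x hx) h6⟩
  have hmapinj : ∀ w ∈ dfc I J c', ∀ w' ∈ dfc I J c', c (jw w) = c (jw w') → w = w' := by
    intro w hw w' hw' h5
    rw [← (hjw w hw).2, ← (hjw w' hw').2]
    exact hcoarse _ (hjw w hw).1 _ (hjw w' hw').1 h5
  have hD : (dfc I J c').card ≤ (dfc I J c).card :=
    card_le_card_of_injOn (fun w => c (jw w)) (fun w hw => hmap w hw)
      fun w hw w' hw' h5 => hmapinj w hw w' hw' h5
  have hone := h.one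
  have hBp := card_le_card hBpB
  have hBc := hB.card
  have hθ := hB.one
  have hD2 : 2 ≤ Bp.card + θ → (dfc I J c').card + 1 ≤ (dfc I J c).card := by
    intro h2
    have h5 : Bp = B := eq_of_subset_of_card_le hBpB (by omega)
    have h6 : (dfc I J c).card = 1 := by omega
    obtain ⟨v, hv⟩ := card_eq_one.1 h6
    have h7 : v ∈ dfc I J c := by rw [hv]; exact mem_singleton_self _
    obtain ⟨j, hj, hjv⟩ := hB.dfc v h7
    have h8 : Sum.inr j ∈ L := by
      rw [← h5] at hj
      exact (mem_filter.1 hj).2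
    have h9 : ∀ w ∈ dfc I J c', c (jw w) ∈ (dfc I J c).erase v := by
      intro w hw
      refine mem_erase.2 ⟨fun h10 => ?_, hmap w hw⟩
      refine htouch w (mem_dfc.1 hw).2 _ h8 j (mem_singleton_self j) ?_
      rw [← (hjw w hw).2]
      exact hcoarse j (hB.sub hj) _ (hjw w hw).1 (by rw [hjv, h10])
    have h10 : (dfc I J c').card ≤ ((dfc I J c).erase v).card :=
      card_le_card_of_injOn (fun w => c (jw w)) (fun w hw => h9 w hw)
        fun w hw w' hw' h5 => hmapinj w hw w' hw' h5
    have h11 := card_erase_add_one h7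
    omega
  -- the groups
  have hsize := hγ.size L hLIt
  have hgr : L.card + p ≤ It.card + (L.image γ).card := by
    have h5 : (It.image γ) \ (L.image γ) ⊆ (It \ L).image γ := by
      intro l hl
      obtain ⟨h6, h7⟩ := mem_sdiff.1 hl
      obtain ⟨q, hq, rfl⟩ := mem_image.1 h6
      exact mem_image_of_mem _ (mem_sdiff.2 ⟨hq, fun h8 => h7 (mem_image_of_mem _ h8)⟩)
    have h6 := (card_le_card h5).trans card_image_le
    have h7 := card_sdiff_add_card_eq_card hLIt
    have h8 := card_sdiff_add_card_eq_card (image_subset_image (f := γ) hLIt)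
    have h9 := hγ.num
    omega
  have hItc : It.card = 2 * p + θ := by
    rw [hIt, card_disjSum]
    exact hB.num
  have hle := hB.le
  have hnc' : ∃ j ∈ J, ∃ j' ∈ J, c' j ≠ c' j' := nc_of_card (by omega)
  have hfin := h.max c' hnc'
  unfold exg at hfin
  rcases Nat.lt_or_ge (Bp.card + θ) 2 with h5 | h5
  · omega
  · have h6 := hD2 h5
    omega

end Pool.Agent.R869.Wd
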