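import Pool.Agent.R869.UTor

/-!
Orbits in hypersurfaces with typical monomials: general sets of monomials.
-/

set_option autoImplicit false

namespace Pool.Agent.R869.Wd

open Finset MvPolynomial Pool.Agent.W602.GT

variable {n s : ℕ} {I : Fin s → Finset (Fin (n + 1))} {d : ℕ} {a : Fin s → (Fin (n + 1) →₀ ℕ)}
  {J : Finset (Fin (n + 1))} {c : Fin (n + 1) → ℤ}

/-- the part of a form in the variables of one colour -/
noncomputable def blg (I : Fin s → Finset (Fin (n + 1)))
    (a : Fin s → (Fin (n + 1) →₀ ℕ)) (F : MvPolynomial (Fin (n + 1)) ℂ)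
    (J : Finset (Fin (n + 1))) (c : Fin (n + 1) → ℤ) (v : ℤ) : MvPolynomial (Fin (n + 1)) ℂ :=
  ∑ i ∈ cns I J c v, monomial (a i) (F.coeff (a i))

theorem blg_coeff (hinj : Function.Injective a) (F : MvPolynomial (Fin (n + 1)) ℂ) {v : ℤ}
    {i : Fin s} (hi : i ∈ cns I J c v) : (blg I a F J c v).coeff (a i) = F.coeff (a i) := by
  classical
  unfold blg
  rw [coeff_sum, Finset.sum_eq_single_of_mem i hi]
  · rw [coeff_monomial, if_pos rfl]
  · intro i' _ hne
    rw [coeff_monomial, if_neg fun h => hne (hinj h)]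

theorem eval_blg (F : MvPolynomial (Fin (n + 1)) ℂ) (v : ℤ) (x : Fin (n + 1) → ℂ) :
    eval x (blg I a F J c v) = ∑ i ∈ cns I J c v, F.coeff (a i) * ∏ j, x j ^ a i j := by
  classical
  unfold blg
  rw [map_sum]
  refine Finset.sum_congr rfl fun i _ => ?_
  rw [eval_monomial, Finsupp.prod_fintype _ _ fun j => pow_zero _]

/-- **Orbits.** -/
theorem TypI.orbitG (h : TypI I d a) (hinj : Function.Injective a) (ho : OptG I J c)
    (hJ1 : (univ.filter fun i => I i ⊆ J).card ≠ 1)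
    {F : MvPolynomial (Fin (n + 1)) ℂ} (hF : F.support = univ.image a) :
    ∃ (x : Fin (n + 1) → ℂ) (b : Fin (n + 1) → ℤ), (∀ j, x j ≠ 0 ↔ j ∈ J) ∧
      (∃ j ∈ J, ∃ j' ∈ J, b j ≠ b j') ∧ ∀ v, val x (wc b v F) = 0 := by
  classical
  obtain ⟨B, p, θ, hB⟩ := ho.blocks h.ne hJ1
  have hz0 : Adm I (sclI d a) := adm_scl h.pos h.mem
  have hco : ∀ i, F.coeff (a i) ≠ 0 := fun i => by
    rw [← mem_support_iff, hF]
    exact mem_image_of_mem a (mem_univ i)
  set It := (crs I J c).disjSum B with hIt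
  have hItc : It.card = 2 * p + θ := by
    rw [hIt, card_disjSum]
    exact hB.num
  obtain ⟨γ, hγ⟩ := exists_grp It hItc hB.one hB.two
  obtain ⟨τ, hτ0, hτ⟩ := exists_tau hγ.two
  have htJ : ∀ q ∈ It, ∀ j, j ∉ J → expo d a q j = 0 := by
    rintro (i | j0) hq j hj
    · have h1 := (mem_crs.1 (inl_mem_disjSum.1 hq)).1
      exact Finsupp.notMem_support_iff.1 fun h2 => hj (h1 ((h.mem i).1 h2))
    · have h1 := hB.sub (inr_mem_disjSum.1 hq)
      exact Finsupp.single_eq_of_ne (by rintro rfl; exact hj h1)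
  -- weights
  obtain ⟨b, hbc, hbn, hbw⟩ := exists_weightsG (J := J) c It γ (by
    rw [hItc, hγ.num]
    have := hB.le
    omega) (expo d a) htJ
  -- the blocks
  have hblk : ∀ v ∈ J.image c, ∃ ξ : Fin (n + 1) → ℂ, (∀ j, ξ j ≠ 0) ∧
      ((∃ j ∈ B, c j = v) → eval ξ (blg I a F J c v) ≠ 0) ∧
      ((¬ ∃ j ∈ B, c j = v) → eval ξ (blg I a F J c v) = 0) := by
    intro v hv
    by_cases hBv : ∃ j ∈ B, c j = v
    · obtain ⟨j, hj, rfl⟩ := hBv
      obtain ⟨i, hi⟩ := card_pos.1 (hB.pos j hj)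
      have h1 : blg I a F J c (c j) ≠ 0 := by
        intro h0
        have h2 := blg_coeff hinj F hi
        rw [h0, coeff_zero] at h2
        exact hco i h2.symm
      obtain ⟨ξ, h3, h4⟩ := torus_ne h1
      exact ⟨ξ, h3, fun _ => h4, fun h5 => absurd ⟨j, hj, rfl⟩ h5⟩
    · rcases Nat.lt_trichotomy (cns I J c v).card 1 with h1 | h1 | h1
      · have h2 : cns I J c v = ∅ := card_eq_zero.1 (by omega)
        refine ⟨fun _ => 1, fun _ => one_ne_zero, fun h5 => absurd h5 hBv, fun _ => ?_⟩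
        rw [eval_blg, h2, sum_empty]
      · exact absurd (hB.dfc v (mem_dfc.2 ⟨hv, h1⟩)) hBv
      · obtain ⟨i, hi, i', hi', hne⟩ := one_lt_card.1 h1
        obtain ⟨ξ, h3, h4⟩ := torus_zeroG (G := blg I a F J c v) (α := a i) (β := a i')
          (mem_support_iff.2 (by rw [blg_coeff hinj F hi]; exact hco i))
          (mem_support_iff.2 (by rw [blg_coeff hinj F hi']; exact hco i'))
          (fun h5 => hne (hinj h5))
        exact ⟨ξ, h3, fun h5 => absurd h5 hBv, fun _ => h4⟩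
  choose! ξs hξ1 hξ2 hξ3 using hblk
  let ξ : Fin (n + 1) → ℂ := fun j => if j ∈ J then ξs (c j) j else 1
  have hξJ : ∀ j ∈ J, ξ j = ξs (c j) j := fun j hj => if_pos hj
  have hξ : ∀ j, ξ j ≠ 0 := by
    intro j
    by_cases hj : j ∈ J
    · rw [hξJ j hj]
      exact hξ1 _ (mem_image_of_mem _ hj) j
    · simp only [ξ, if_neg hj]
      exact one_ne_zero
  -- the values of the terms
  let ω : Fin s ⊕ Fin (n + 1) → ℂ := Sum.elim (fun i => F.coeff (a i) * ∏ j, ξ j ^ a i j)
    (fun j => eval (ξs (c j)) (blg I a F J c (c j)))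
  have hω : ∀ q ∈ It, ω q ≠ 0 := by
    rintro (i | j) hq
    · exact mul_ne_zero (hco i) (prod_ne_zero_iff.2 fun j _ => pow_ne_zero _ (hξ j))
    · have hj := inr_mem_disjSum.1 hq
      exact hξ2 _ (mem_image_of_mem _ (hB.sub hj)) ⟨j, hj, rfl⟩
  let T : Fin s ⊕ Fin (n + 1) → ℂ := fun q => Complex.log (τ q / ω q)
  obtain ⟨y, hyc, hyl⟩ := exists_logsG h.pos a It γ
    (fun cf hcf1 hcf2 => ho.indep hz0 h.gen hB hγ cf hcf1 hcf2) T
  let x : Fin (n + 1) → ℂ := fun j => if j ∈ J then Complex.exp (y j) * ξ j else 0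
  have hxJ : ∀ j ∈ J, x j = Complex.exp (y j) * ξ j := fun j hj => if_pos hj
  have hx0 : ∀ j, j ∉ J → x j = 0 := fun j hj => if_neg hj
  refine ⟨x, b, fun j => ?_, hbn, fun v => ?_⟩
  · constructor
    · intro hj
      by_contra h1
      exact hj (hx0 j h1)
    · intro hj
      rw [hxJ j hj]
      exact mul_ne_zero (Complex.exp_ne_zero _) (hξ j)
  let E : Fin s ⊕ Fin (n + 1) → ℂ := fun q => ∑ j, (expo d a q j : ℂ) * y j
  let g : ℤ → ℂ := fun w => if w = v then 1 else 0
  have hmon : ∀ i, I i ⊆ J → ∏ j, x j ^ a i j =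
      Complex.exp (E (Sum.inl i)) * ∏ j, ξ j ^ a i j := by
    intro i hi
    have h1 : ∀ j, x j ^ a i j = Complex.exp ((a i j : ℂ) * y j) * ξ j ^ a i j := by
      intro j
      by_cases hj : j ∈ J
      · rw [hxJ j hj, mul_pow, ← Complex.exp_nat_mul]
      · have h2 : a i j = 0 := Finsupp.notMem_support_iff.1 fun h2 => hj (hi ((h.mem i).1 h2))
        rw [h2]
        simp
    rw [prod_congr rfl fun j _ => h1 j, prod_mul_distrib, ← Complex.exp_sum]
    rfl
  have hmon0 : ∀ i, ¬ I i ⊆ J → ∏ j, x j ^ a i j = 0 := by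
    intro i hi
    obtain ⟨j, hj, hjJ⟩ := not_subset.1 hi
    exact prod_eq_zero (mem_univ j) (by rw [hx0 j hjJ]; exact zero_pow (h.coord i j hj))
  let V : Fin s → ℂ := fun i => g (wgt b (a i)) * (F.coeff (a i) * ∏ j, x j ^ a i j)
  have hval : val x (wc b v F) = ∑ i, V i := by
    rw [val_wc, sum_filter, hF, sum_image fun q _ q' _ hq => hinj hq]
    refine sum_congr rfl fun q _ => ?_
    change (if wgt b (a q) = v then _ else _) = (if wgt b (a q) = v then _ else _) * _
    split_ifs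
    · rw [one_mul]
      rfl
    · rw [zero_mul]
  -- the colours
  let K : ℤ → ℂ := fun u => ∑ i ∈ cns I J c u, V i
  have hK : ∀ j0 ∈ J, K (c j0) = g (d * b j0) * (Complex.exp (d * y j0) *
      eval (ξs (c j0)) (blg I a F J c (c j0))) := by
    intro j0 hj0
    rw [eval_blg]
    simp only [K]
    rw [mul_sum, mul_sum]
    refine sum_congr rfl fun i hi => ?_
    obtain ⟨h1, h2⟩ := mem_cns.1 hi
    have h3 : wgt b (a i) = d * b j0 := by
      have h4 : ∀ j, ((a i j : ℕ) : ℤ) * b j = ((a i j : ℕ) : ℤ) * b j0 := by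
        intro j
        by_cases hj : j ∈ I i
        · rw [hbc j (h1 hj) j0 hj0 (h2 j hj)]
        · rw [Finsupp.notMem_support_iff.1 fun h5 => hj ((h.mem i).1 h5)]
          simp
      change ∑ j, ((a i j : ℕ) : ℤ) * b j = _
      rw [sum_congr rfl fun j _ => h4 j, ← sum_mul, ← (h.mem i).2]
      push_cast
      rfl
    have h5 : E (Sum.inl i) = d * y j0 := by
      have h4 : ∀ j, ((a i j : ℕ) : ℂ) * y j = ((a i j : ℕ) : ℂ) * y j0 := by
        intro j
        by_cases hj : j ∈ I i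
        · rw [hyc j (h1 hj) j0 hj0 (h2 j hj)]
        · rw [Finsupp.notMem_support_iff.1 fun h5 => hj ((h.mem i).1 h5)]
          simp
      change ∑ j, ((a i j : ℕ) : ℂ) * y j = _
      rw [sum_congr rfl fun j _ => h4 j, ← sum_mul, ← (h.mem i).2]
      push_cast
      rfl
    have h6 : ∏ j, ξ j ^ a i j = ∏ j, ξs (c j0) j ^ a i j := by
      refine prod_congr rfl fun j _ => ?_
      by_cases hj : j ∈ I i
      · rw [hξJ j (h1 hj), h2 j hj]
      · rw [Finsupp.notMem_support_iff.1 fun h5 => hj ((h.mem i).1 h5), pow_zero, pow_zero]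
    change g (wgt b (a i)) * (F.coeff (a i) * ∏ j, x j ^ a i j) = _
    rw [h3, hmon i h1, h5, h6]
    ring
  let Θ : Fin s ⊕ Fin (n + 1) → ℂ := fun q =>
    g (wgt b (expo d a q)) * (Complex.exp (E q) * ω q)
  have hsum : ∑ i, V i = ∑ q ∈ It, Θ q := by
    rw [hIt, sum_disjSum]
    have h1 : ∑ i, V i = ∑ i ∈ crs I J c, V i +
        ∑ u ∈ J.image c, ∑ i ∈ cns I J c u, V i := by
      rw [← sum_biUnion, ← sum_union]
      · symm
        refine sum_subset (subset_univ _) fun i _ hi => ?_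
        have h2 : ¬ I i ⊆ J := by
          intro h3
          apply hi
          rw [mem_union]
          by_cases h4 : ∀ j ∈ I i, ∀ j' ∈ I i, c j = c j'
          · right
            obtain ⟨j, hj⟩ := h.ne i
            exact mem_biUnion.2 ⟨c j, mem_image_of_mem _ (h3 hj), mem_cns.2
              ⟨h3, fun j' hj' => h4 j' hj' j hj⟩⟩
          · left
            exact mem_crs.2 ⟨h3, h4⟩
        change g _ * (F.coeff (a i) * ∏ j, x j ^ a i j) = 0
        rw [hmon0 i h2, mul_zero, mul_zero]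
      · rw [disjoint_left]
        intro i hi hi'
        obtain ⟨u, -, hu⟩ := mem_biUnion.1 hi'
        refine (mem_crs.1 hi).2 fun j hj j' hj' => ?_
        rw [(mem_cns.1 hu).2 j hj, (mem_cns.1 hu).2 j' hj']
      · intro u _ u' _ huu
        change Disjoint (cns I J c u) (cns I J c u')
        rw [disjoint_left]
        intro i hi hi'
        obtain ⟨j, hj⟩ := h.ne i
        exact huu (((mem_cns.1 hi).2 j hj).symm.trans ((mem_cns.1 hi').2 j hj))
    rw [h1]
    congr 1
    · refine sum_congr rfl fun i hi => ?_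
      change g (wgt b (expo d a (Sum.inl i))) * (F.coeff (a i) * ∏ j, x j ^ a i j) =
        g (wgt b (expo d a (Sum.inl i))) * (Complex.exp (E (Sum.inl i)) *
          (F.coeff (a i) * ∏ j, ξ j ^ a i j))
      rw [hmon i (mem_crs.1 hi).1]
      ring
    · change ∑ u ∈ J.image c, K u = _
      have h3 : B.image c ⊆ J.image c := image_subset_image hB.sub
      rw [← sum_subset h3, sum_image fun j hj j' hj' hjj => hB.inj j hj j' hj' hjj]
      · refine sum_congr rfl fun j hj => ?_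
        rw [hK j (hB.sub hj)]
        change _ = g (∑ k, (((Finsupp.single j d : Fin (n + 1) →₀ ℕ) k : ℕ) : ℤ) * b k) *
          (Complex.exp (∑ k, (((Finsupp.single j d : Fin (n + 1) →₀ ℕ) k : ℕ) : ℂ) * y k) * _)
        rw [sum_sgl, sum_sgl]
        rfl
      · intro u hu hu'
        obtain ⟨j, hj, rfl⟩ := mem_image.1 hu
        rw [hK j hj, hξ3 _ hu, mul_zero, mul_zero]
        rintro ⟨j', hj', h4⟩
        exact hu' (mem_image.2 ⟨j', hj', h4⟩)
  rw [hval, hsum, ← sum_fiberwise_of_maps_to (g := γ) (t := It.image γ)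
    fun q hq => mem_image_of_mem γ hq]
  refine sum_eq_zero fun l hl => ?_
  obtain ⟨q0, hq0, rfl⟩ := mem_image.1 hl
  have h1 : ∀ q ∈ It.filter (fun q => γ q = γ q0), Θ q =
      (g (wgt b (expo d a q0)) * Complex.exp (E q0 - T q0)) * τ q := by
    intro q hq
    obtain ⟨hq1, hq2⟩ := mem_filter.1 hq
    have h2 : E q = T q + (E q0 - T q0) := by
      have h3 : E q - T q = E q0 - T q0 := hyl q hq1 q0 hq0 hq2
      rw [← h3]
      ring
    simp only [Θ]
    rw [h2, Complex.exp_add, hbw q hq1 q0 hq0 hq2,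
      Complex.exp_log (div_ne_zero (hτ0 q hq1) (hω q hq1))]
    have h4 := hω q hq1
    field_simp
  rw [sum_congr rfl h1, ← mul_sum, hτ, mul_zero]

end Pool.Agent.R869.Wd
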