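import Mathlib.Algebra.MvPolynomial.Basic

/-!
The combinatorial criterion for the existence of entire curves: definitions.
-/

set_option autoImplicit false

namespace Pool.Agent.R869.Wd

open MvPolynomial

variable {R : Type} [CommSemiring R] {n : ℕ}

open Classical in
/-- The exponent vectors of the monomials of `F` in the variables `x_j`, `j ∈ J`. -/
noncomputable def monIn (F : MvPolynomial (Fin (n + 1)) R) (J : Finset (Fin (n + 1))) :
    Finset (Fin (n + 1) →₀ ℕ) :=
  F.support.filter fun α => α.support ⊆ J

open Classical in
/-- There is a colouring `c` of the variables, with `V ≥ 2` colours on `J`, such that `N + D + 4 ≤ 2 V`,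
where `N` is the number of the monomials of `F` in the variables from `J` whose variables have
different colours, and `D` is the number of the colours on `J` for which exactly one monomial of `F`
in the variables from `J` has all its variables of this colour. -/
def Splits (F : MvPolynomial (Fin (n + 1)) R) (J : Finset (Fin (n + 1))) : Prop :=
  ∃ c : Fin (n + 1) → ℤ, (∃ j ∈ J, ∃ j' ∈ J, c j ≠ c j') ∧
    ((monIn F J).filter fun α => ¬ ∀ j ∈ α.support, ∀ j' ∈ α.support, c j = c j').card +
      ((J.image c).filter fun v =>
        ((monIn F J).filter fun α => ∀ j ∈ α.support, c j = v).card = 1).card + 4 ≤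
      2 * (J.image c).card

/-- `J` splits for `F`, and `F` does not have exactly one monomial in the variables from `J`. -/
def Loose (F : MvPolynomial (Fin (n + 1)) R) (J : Finset (Fin (n + 1))) : Prop :=
  (monIn F J).card ≠ 1 ∧ Splits F J

end Pool.Agent.R869.Wd
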