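import Pool.Agent.R869.UOrb
import Pool.Agent.R869.TSharp
import Pool.Agent.R869.USharpDefs

/-!
The criterion for the existence of entire curves in hypersurfaces with typical monomials.
-/

set_option autoImplicit false

open FF MvPolynomial Pool.Agent.W602.GT Pool.Agent.H159R3.GGLLog Pool.Agent.W603.BP
open Filter Metric Topology Pool.Agent.R869

namespace Pool.Agent.R869.Wd

section levels

open Finset

variable {n s : ℕ} {I : Fin s → Finset (Fin (n + 1))} {z0 : Fin s → Fin (n + 1) → ℝ}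

open Classical in
/-- **The colouring by the weights.** -/
theorem levelsG (hI : ∀ i, (I i).Nonempty) (hz0 : Adm I z0)
    (hgen : ∀ p q : Fin n → Fin s ⊕ Fin (n + 1),
      (∃ z, Adm I z ∧ (dz p q z).det ≠ 0) → (dz p q z0).det ≠ 0)
    (b : Fin (n + 1) → ℝ) (J : Finset (Fin (n + 1))) (hJ : ∃ j ∈ J, ∃ j' ∈ J, b j ≠ b j')
    (hlev : ∀ i, I i ⊆ J → ∃ i', I i' ⊆ J ∧ i' ≠ i ∧
      wr z0 b (Sum.inl i') = wr z0 b (Sum.inl i)) :
    (crs I J b).card + ((J.image b).filter fun v => (cns I J b v).card = 1).card + 4 ≤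
      2 * (J.image b).card := by
  have h0 := cross_le hz0 hgen b J hJ
  set Nc := crs I J b with hNc
  set Λ := (Nc.image fun i => wr z0 b (Sum.inl i)) \ J.image b with hΛ
  set Df := (J.image b).filter fun v => (cns I J b v).card = 1 with hDf
  let x : ℝ → ℕ := fun v => (Nc.filter fun i => wr z0 b (Sum.inl i) = v).card
  have hsum1 : ∀ i, ∑ j ∈ I i, z0 i j = 1 := by
    intro i
    rw [← (hz0 i).2]
    exact sum_subset (subset_univ _) fun j _ hj => (hz0 i).1 j hj
  have hconst : ∀ (i : Fin s) (v : ℝ), (∀ j ∈ I i, b j = v) → wr z0 b (Sum.inl i) = v := by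
    intro i v h
    change ∑ j, z0 i j * b j = v
    rw [← sum_subset (subset_univ (I i)) fun j _ hj => by rw [(hz0 i).1 j hj, zero_mul],
      sum_congr rfl fun j hj => by rw [h j hj], ← sum_mul, hsum1, one_mul]
  have hor : ∀ i, I i ⊆ J → i ∈ Nc ∨ (wr z0 b (Sum.inl i) ∈ J.image b ∧
      i ∈ cns I J b (wr z0 b (Sum.inl i))) := by
    intro i hi
    by_cases h1 : ∀ j ∈ I i, ∀ j' ∈ I i, b j = b j'
    · right
      obtain ⟨j1, hj1⟩ := hI i
      have h5 := hconst i (b j1) fun j hj => h1 j hj j1 hj1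
      rw [h5]
      exact ⟨mem_image_of_mem _ (hi hj1), mem_cns.2 ⟨hi, fun j hj => h1 j hj j1 hj1⟩⟩
    · exact Or.inl (mem_crs.2 ⟨hi, h1⟩)
  have h1 : ∀ v ∈ Df, 1 ≤ x v := by
    intro v hv
    obtain ⟨hv1, hv2⟩ := mem_filter.1 hv
    obtain ⟨i, hi⟩ := card_eq_one.1 hv2
    have hic : i ∈ cns I J b v := by rw [hi]; exact mem_singleton_self i
    obtain ⟨h3, h4⟩ := mem_cns.1 hic
    obtain ⟨i', h5, h6, h7⟩ := hlev i h3
    rw [hconst i v h4] at h7
    rcases hor i' h5 with h8 | ⟨-, h8⟩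
    · exact card_pos.2 ⟨i', mem_filter.2 ⟨h8, h7⟩⟩
    · rw [h7, hi] at h8
      exact absurd (mem_singleton.1 h8) h6
  have h2 : ∀ v ∈ Λ, 2 ≤ x v := by
    intro v hv
    obtain ⟨h3, h4⟩ := mem_sdiff.1 hv
    obtain ⟨i, hi, rfl⟩ := mem_image.1 h3
    have h5 : I i ⊆ J := (mem_crs.1 hi).1
    obtain ⟨i', h6, h7, h8⟩ := hlev i h5
    rcases hor i' h6 with h9 | ⟨h9, -⟩
    · have h10 : ({i, i'} : Finset (Fin s)) ⊆
          Nc.filter fun i' => wr z0 b (Sum.inl i') = wr z0 b (Sum.inl i) := by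
        intro k hk
        rcases mem_insert.1 hk with rfl | hk
        · exact mem_filter.2 ⟨hi, rfl⟩
        · rw [mem_singleton.1 hk]
          exact mem_filter.2 ⟨h9, h8⟩
      have h11 := card_le_card h10
      rw [card_pair h7.symm] at h11
      exact h11
    · rw [h8] at h9
      exact absurd h9 h4
  have h3 : ∑ v ∈ Df, x v + ∑ v ∈ Λ, x v ≤ Nc.card := by
    have hdis : Disjoint Df Λ := by
      rw [disjoint_left]
      intro v hv hv'
      exact (mem_sdiff.1 hv').2 (mem_filter.1 hv).1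
    rw [← sum_union hdis]
    have h4 : ∑ v ∈ Df ∪ Λ, x v =
        ((Df ∪ Λ).biUnion fun v => Nc.filter fun i => wr z0 b (Sum.inl i) = v).card := by
      rw [card_biUnion]
      intro v _ v' _ hvv
      change Disjoint (Nc.filter fun i => wr z0 b (Sum.inl i) = v)
        (Nc.filter fun i => wr z0 b (Sum.inl i) = v')
      rw [disjoint_left]
      intro i h5 h6
      exact hvv ((mem_filter.1 h5).2.symm.trans (mem_filter.1 h6).2)
    rw [h4]
    exact card_le_card (biUnion_subset.2 fun v _ => filter_subset _ _)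
  have h4 := sum_le_sum h1
  rw [sum_const, smul_eq_mul, mul_one] at h4
  have h5 := sum_le_sum h2
  rw [sum_const, smul_eq_mul] at h5
  omega

end levels

variable {n s : ℕ} {I : Fin s → Finset (Fin (n + 1))} {d : ℕ} {a : Fin s → (Fin (n + 1) →₀ ℕ)}

/-- Sub-families of typical families are typical. -/
theorem TypI.sub (h : TypI I d a) {s' : ℕ} {a' : Fin s' → (Fin (n + 1) →₀ ℕ)}
    (ha' : ∀ i, a' i ∈ withPowers d a) (hinj : Function.Injective a') :
    TypI (fun i => (a' i).support) d a' := by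
  classical
  have hex : ∀ i, ∃ q, expo d a q = a' i := fun i => mem_withPowers.1 (ha' i)
  choose qq hqq using hex
  have hsupI : ∀ i, (a i).support = I i := fun i => Finset.Subset.antisymm (h.mem i).1
    fun j hj => Finsupp.mem_support_iff.2 (h.coord i j hj)
  have hsum : ∀ i, ∑ j, a' i j = d := by
    intro i
    rw [← hqq]
    rcases qq i with i0 | j0
    · exact (h.mem i0).2
    · change ∑ j, (Finsupp.single j0 d : Fin (n + 1) →₀ ℕ) j = d
      rw [Finset.sum_eq_single j0, Finsupp.single_eq_same]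
      · intro j _ hj
        rw [Finsupp.single_eq_of_ne hj]
      · exact fun h1 => absurd (Finset.mem_univ _) h1
  let σ : Fin s' ⊕ Fin (n + 1) → Fin s ⊕ Fin (n + 1) := Sum.elim qq Sum.inr
  have hσ : ∀ x, expo d a (σ x) = expo d a' x := by
    rintro (i | j)
    · exact hqq i
    · rfl
  refine ⟨fun i => ?_, fun i => ⟨Finset.Subset.refl _, hsum i⟩, ?_, h.pos, fun i j hj =>
    Finsupp.mem_support_iff.1 hj, ?_⟩
  · rw [Finset.nonempty_iff_ne_empty]
    intro h0
    rw [Finsupp.support_eq_empty] at h0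
    have h1 := hsum i
    rw [h0] at h1
    have h2 := h.pos
    simp at h1
    omega
  · obtain ⟨s'', N, hg⟩ := h.good
    refine ⟨s'', N, hg.mono fun α hα => ?_⟩
    obtain ⟨x, rfl⟩ := mem_withPowers.1 hα
    exact mem_withPowers.2 ⟨σ x, hσ x⟩
  · rintro p q ⟨z', hz', hdet⟩
    let z : Fin s → Fin (n + 1) → ℝ := fun i0 =>
      if h1 : ∃ i, qq i = Sum.inl i0 then z' h1.choose else sclI d a i0
    have hzc : ∀ i i0, qq i = Sum.inl i0 → z i0 = z' i := by
      intro i i0 hi
      have h1 : ∃ i, qq i = Sum.inl i0 := ⟨i, hi⟩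
      have h2 : z i0 = z' h1.choose := dif_pos h1
      rw [h2]
      congr 1
      apply hinj
      rw [← hqq, ← hqq, h1.choose_spec, hi]
    have hz : Adm I z := by
      intro i0
      by_cases h1 : ∃ i, qq i = Sum.inl i0
      · obtain ⟨i, hi⟩ := h1
        rw [hzc i i0 hi]
        have h2 : (a' i).support = I i0 := by
          rw [← hqq, hi, ← hsupI]
          rfl
        refine ⟨fun j hj => (hz' i).1 j ?_, (hz' i).2⟩
        change j ∉ (a' i).support
        rw [h2]
        exact hj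
      · have h2 : z i0 = sclI d a i0 := dif_neg h1
        rw [h2]
        exact adm_scl h.pos h.mem i0
    have hv1 : ∀ x, vz z (σ x) = vz z' x := by
      rintro (i | j)
      · change vz z (qq i) = vz z' (Sum.inl i)
        rcases hi : qq i with i0 | j0
        · funext l
          simp only [vz, Sum.elim_inl]
          rw [hzc i i0 hi]
        · funext l
          simp only [vz, Sum.elim_inl, Sum.elim_inr]
          have h2 : (a' i).support = {j0} := by
            rw [← hqq, hi]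
            exact Finsupp.support_single_ne_zero _ h.pos.ne'
          have h3 : ∀ j, j ≠ j0 → z' i j = 0 := fun j hj => (hz' i).1 j (by
            change j ∉ (a' i).support
            rw [h2]
            exact fun h4 => hj (Finset.mem_singleton.1 h4))
          have h4 : z' i j0 = 1 := by
            rw [← (hz' i).2, Finset.sum_eq_single j0 (fun j _ hj => h3 j hj)
              fun h5 => absurd (Finset.mem_univ _) h5]
          by_cases h5 : j0 = l.castSucc
          · rw [if_pos h5, ← h5, h4]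
          · rw [if_neg h5, h3 _ (Ne.symm h5)]
      · rfl
    have hv2 : ∀ x, vz (sclI d a) (σ x) = vz (sclI d a') x := by
      intro x
      rw [vz_expo h.pos, vz_expo h.pos, hσ]
    have h1 : dz (σ ∘ p) (σ ∘ q) z = dz p q z' := by
      ext l j
      simp only [dz, Matrix.of_apply, Function.comp_apply, hv1]
    have h2 : dz (σ ∘ p) (σ ∘ q) (sclI d a) = dz p q (sclI d a') := by
      ext l j
      simp only [dz, Matrix.of_apply, Function.comp_apply, hv2]
    rw [← h2]
    exact h.gen _ _ ⟨z, hz, by rw [h1]; exact hdet⟩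

/-- curves and orbits -/
theorem orbit_of_pcurve {ι : Type} {F : ι → MvPolynomial (Fin (n + 1)) ℂ} {s N : ℕ}
    {U : Set (Fin (n + 1))} (hC : Sys U F s N) {g : ℂ → Fin (n + 1) → ℂ}
    (h1 : PCurve U F g) (h2 : ¬ Extends g) {J : Finset (Fin (n + 1))}
    (hgJ : ∀ j, (∃ z ∈ ball (0 : ℂ) 1 \ {0}, g z j ≠ 0) ↔ j ∈ J) :
    ∃ (x : Fin (n + 1) → ℂ) (b : Fin (n + 1) → ℤ), (∀ j, x j ≠ 0 ↔ j ∈ J) ∧
      (∃ j ∈ J, ∃ j' ∈ J, b j ≠ b j') ∧ ∀ e v, val x (wc b v (F e)) = 0 := by
  obtain ⟨b, j, k, hj, hk, hbjk, hs⟩ := pcurve hC g h1 h2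
  obtain ⟨z0, hz0, hgood⟩ := good_point (fun (l : J) w => g w l) (fun l => h1.an _) (by
    rintro ⟨l, hl⟩
    obtain ⟨z, hz, hzl⟩ := (hgJ l).2 hl
    exact nz_of_on (h1.an l) (mem_disc.mp hz) hzl)
  have hsupp : ∀ l, g z0 l ≠ 0 ↔ l ∈ J := fun l =>
    ⟨fun hl => (hgJ l).1 ⟨z0, mem_disc.mpr hz0, hl⟩, fun hl => hgood ⟨l, hl⟩⟩
  have hnz : ∀ l, Nz (fun w => g w l) → l ∈ J := by
    intro l hl
    obtain ⟨z, hz, hzl⟩ := nz_on one_pos hl
    exact (hgJ l).1 ⟨z, mem_disc.mpr hz, hzl⟩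
  refine ⟨g z0, b, hsupp, ⟨j, hnz j hj, k, hnz k hk, hbjk⟩, fun e v => ?_⟩
  rw [wc_eq]
  exact hs e v z0 hz0

/-- entire curves and orbits -/
theorem orbit_of_curve {ι : Type} {F : ι → MvPolynomial (Fin (n + 1)) ℂ} {s N : ℕ}
    {U : Set (Fin (n + 1))} (hC : Sys U F s N) {f : ℂ → Fin (n + 1) → ℂ}
    (hf : EntireCurve U F f) {J : Finset (Fin (n + 1))} (hyJ : ∀ j, (∃ z, f z j ≠ 0) ↔ j ∈ J) :
    ∃ (x : Fin (n + 1) → ℂ) (b : Fin (n + 1) → ℤ), (∀ j, x j ≠ 0 ↔ j ∈ J) ∧
      (∃ j ∈ J, ∃ j' ∈ J, b j ≠ b j') ∧ ∀ e v, val x (wc b v (F e)) = 0 := by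
  obtain ⟨h1, h2⟩ := sin_curve hf
  refine orbit_of_pcurve hC h1 h2 fun j => ?_
  rw [← hyJ]
  constructor
  · rintro ⟨z, -, hz⟩
    exact ⟨_, hz⟩
  · rintro ⟨z, hz⟩
    obtain ⟨w, hw, hwz⟩ := sin_point z
    exact ⟨w, hw, by rw [hwz]; exact hz⟩

/-- **Orbits and colourings**, all monomials of the family. -/
theorem TypI.colour {k K : Type} [Field k] [Field K] [Algebra k K] (h : TypI I d a)
    (hinj : Function.Injective a)
    {F : MvPolynomial (Fin (n + 1)) k} (hF : F.support = Finset.univ.image a)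
    {x : Fin (n + 1) → K} {b : Fin (n + 1) → ℤ} {J : Finset (Fin (n + 1))}
    (hx : ∀ j, x j ≠ 0 ↔ j ∈ J) (hb : ∃ j ∈ J, ∃ j' ∈ J, b j ≠ b j')
    (hw : ∀ v, val x (wc b v F) = 0) :
    (Finset.univ.filter fun i => I i ⊆ J).card ≠ 1 ∧ 4 ≤ exg I J b := by
  classical
  have hd' : (d : ℝ) ≠ 0 := by exact_mod_cast h.pos.ne'
  have hmon : ∀ i, I i ⊆ J → ∏ j, x j ^ a i j ≠ 0 := fun i hi =>
    Finset.prod_ne_zero_iff.2 fun j _ => by
      by_cases hj : j ∈ J
      · exact pow_ne_zero _ ((hx j).2 hj)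
      · rw [Finsupp.notMem_support_iff.1 fun h2 => hj (hi ((h.mem i).1 h2)), pow_zero]
        exact one_ne_zero
  have hmon0 : ∀ i, ¬ I i ⊆ J → ∏ j, x j ^ a i j = 0 := by
    intro i hi
    obtain ⟨j, hj, hjJ⟩ := Finset.not_subset.1 hi
    refine Finset.prod_eq_zero (Finset.mem_univ j) ?_
    have h1 : x j = 0 := by
      by_contra h2
      exact hjJ ((hx j).1 h2)
    rw [h1]
    exact zero_pow (h.coord i j hj)
  have hpart : ∀ i, I i ⊆ J → ∃ i', I i' ⊆ J ∧ i' ≠ i ∧ wgt b (a i') = wgt b (a i) := by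
    intro i hi
    have h1 := hw (wgt b (a i))
    rw [val_wc, Finset.sum_filter, hF, Finset.sum_image fun q _ q' _ hq => hinj hq] at h1
    by_contra hcon
    push Not at hcon
    rw [Finset.sum_eq_single i] at h1
    · rw [if_pos (show ∑ j, ((a i j : ℕ) : ℤ) * b j = wgt b (a i) from rfl)] at h1
      refine mul_ne_zero ?_ (hmon i hi) h1
      have h2 : a i ∈ F.support := by
        rw [hF]
        exact Finset.mem_image_of_mem a (Finset.mem_univ i)
      exact (map_ne_zero (algebraMap k K)).2 (mem_support_iff.1 h2)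
    · intro i' _ hne
      by_cases h2 : I i' ⊆ J
      · exact if_neg (hcon i' h2 hne)
      · rw [hmon0 i' h2, mul_zero]
        split_ifs <;> rfl
    · exact fun h2 => absurd (Finset.mem_univ _) h2
  constructor
  · intro h1
    obtain ⟨i, hi⟩ := Finset.card_eq_one.1 h1
    have h2 : i ∈ Finset.univ.filter fun i => I i ⊆ J := by
      rw [hi]
      exact Finset.mem_singleton_self i
    obtain ⟨i', h3, h4, -⟩ := hpart i (Finset.mem_filter.1 h2).2
    have h5 : i' ∈ Finset.univ.filter fun i => I i ⊆ J :=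
      Finset.mem_filter.2 ⟨Finset.mem_univ _, h3⟩
    rw [hi] at h5
    exact h4 (Finset.mem_singleton.1 h5)
  · let b' : Fin (n + 1) → ℝ := fun j => (b j : ℝ)
    obtain ⟨j, hj, j', hj', hjj⟩ := hb
    have h3 := levelsG h.ne (adm_scl h.pos h.mem) h.gen b' J
      ⟨j, hj, j', hj', fun h' => hjj (Int.cast_injective (α := ℝ) h')⟩ (by
        intro i hi
        obtain ⟨i', h4, h5, h6⟩ := hpart i hi
        refine ⟨i', h4, h5, ?_⟩
        have h7 : ((wgt b (expo d a (Sum.inl i')) : ℤ) : ℝ) =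
            ((wgt b (expo d a (Sum.inl i)) : ℤ) : ℝ) := by
          exact_mod_cast h6
        rw [wgt_wr h.pos, wgt_wr h.pos] at h7
        exact mul_left_cancel₀ hd' h7)
    have e1 : crs I J b' = crs I J b := by
      ext i
      rw [mem_crs, mem_crs]
      refine and_congr Iff.rfl (not_congr (forall_congr' fun j => forall_congr' fun _ =>
        forall_congr' fun j' => forall_congr' fun _ => ?_))
      change (b j : ℝ) = b j' ↔ b j = b j'
      exact_mod_cast Iff.rfl
    have e2 : J.image b' = (J.image b).image (fun z : ℤ => (z : ℝ)) := by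
      rw [Finset.image_image]
      rfl
    have e3 : ∀ v : ℤ, cns I J b' (v : ℝ) = cns I J b v := by
      intro v
      ext i
      rw [mem_cns, mem_cns]
      refine and_congr Iff.rfl (forall_congr' fun j => forall_congr' fun _ => ?_)
      change (b j : ℝ) = v ↔ b j = v
      exact_mod_cast Iff.rfl
    have e4 : (J.image b').card = (J.image b).card := by
      rw [e2]
      exact Finset.card_image_of_injective _ Int.cast_injective
    have e5 : (dfc I J b).card ≤
        ((J.image b').filter fun v => (cns I J b' v).card = 1).card := by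
      refine Finset.card_le_card_of_injOn (fun z : ℤ => (z : ℝ)) (fun v hv => ?_)
        fun v _ v' _ hvv => Int.cast_injective hvv
      obtain ⟨h4, h5⟩ := mem_dfc.1 (Finset.mem_coe.1 hv)
      refine Finset.mem_coe.2 (Finset.mem_filter.2 ⟨?_, ?_⟩)
      · rw [e2]
        exact Finset.mem_image_of_mem _ h4
      · rw [e3]
        exact h5
    rw [e1, e4] at h3
    unfold exg
    omega

theorem card_enum {s' : ℕ} {a' : Fin s' → (Fin (n + 1) →₀ ℕ)} (hinj : Function.Injective a')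
    {A : Finset (Fin (n + 1) →₀ ℕ)} {B : Finset (Fin s')} (h1 : ∀ i, a' i ∈ A ↔ i ∈ B)
    (h2 : ∀ α ∈ A, ∃ i, a' i = α) : A.card = B.card := by
  classical
  rw [← Finset.card_image_of_injective B hinj]
  congr 1
  ext α
  rw [Finset.mem_image]
  constructor
  · intro h
    obtain ⟨i, rfl⟩ := h2 α h
    exact ⟨i, (h1 i).1 h, rfl⟩
  · rintro ⟨i, hi, rfl⟩
    exact (h1 i).2 hi

/-- **The criterion.** -/
theorem TypI.crit (h : TypI I d a) {F : MvPolynomial (Fin (n + 1)) ℂ}
    (hF : F.support ⊆ withPowers d a) (J : Finset (Fin (n + 1))) :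
    [Loose F J,
      ∃ (x : Fin (n + 1) → ℂ) (b : Fin (n + 1) → ℤ), (∀ j, x j ≠ 0 ↔ j ∈ J) ∧
        (∃ j ∈ J, ∃ j' ∈ J, b j ≠ b j') ∧ OrbitIn (fun _ : Fin 1 => F) b x,
      ∃ f, EntireCurve ∅ (fun _ : Fin 1 => F) f ∧ ∀ z j, f z j ≠ 0 ↔ j ∈ J,
      ∃ f, EntireCurve ∅ (fun _ : Fin 1 => F) f ∧ ∀ j, (∃ z, f z j ≠ 0) ↔ j ∈ J].TFAE := by
  classical
  -- the family of the monomials of `F`
  let e : Fin F.support.card ≃ F.support := F.support.equivFin.symm
  let a' : Fin F.support.card → (Fin (n + 1) →₀ ℕ) := fun i => (e i).1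
  have hinj : Function.Injective a' := fun i i' hii => e.injective (Subtype.ext hii)
  have ha' : ∀ i, a' i ∈ F.support := fun i => (e i).2
  have hsurj : ∀ α ∈ F.support, ∃ i, a' i = α := fun α hα =>
    ⟨e.symm ⟨α, hα⟩, by simp [a']⟩
  have hF' : F.support = Finset.univ.image a' := by
    ext α
    rw [Finset.mem_image]
    exact ⟨fun hα => (hsurj α hα).imp fun i hi => ⟨Finset.mem_univ _, hi⟩,
      fun ⟨i, _, hi⟩ => hi ▸ ha' i⟩
  have h' : TypI (fun i => (a' i).support) d a' := h.sub (fun i => hF (ha' i)) hinj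
  have hmem : ∀ i, a' i ∈ monIn F J ↔ (a' i).support ⊆ J := fun i => by
    unfold monIn
    rw [Finset.mem_filter]
    exact and_iff_right (ha' i)
  have hmon : ∀ α ∈ monIn F J, ∃ i, a' i = α := fun α hα => by
    unfold monIn at hα
    exact hsurj α (Finset.mem_filter.1 hα).1
  have c1 : (monIn F J).card = (Finset.univ.filter fun i => (a' i).support ⊆ J).card :=
    card_enum hinj (fun i => by
      rw [hmem, Finset.mem_filter]
      exact ⟨fun h1 => ⟨Finset.mem_univ _, h1⟩, fun h1 => h1.2⟩) hmon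
  have c2 : ∀ c : Fin (n + 1) → ℤ, ((monIn F J).filter fun α =>
      ¬ ∀ j ∈ α.support, ∀ j' ∈ α.support, c j = c j').card =
        (crs (fun i => (a' i).support) J c).card := fun c =>
    card_enum hinj (fun i => by
      rw [Finset.mem_filter, hmem, mem_crs]) fun α hα => hmon α (Finset.mem_filter.1 hα).1
  have c3 : ∀ (c : Fin (n + 1) → ℤ) (v : ℤ), ((monIn F J).filter fun α =>
      ∀ j ∈ α.support, c j = v).card = (cns (fun i => (a' i).support) J c v).card := fun c v =>
    card_enum hinj (fun i => by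
      rw [Finset.mem_filter, hmem, mem_cns]) fun α hα => hmon α (Finset.mem_filter.1 hα).1
  have c4 : ∀ c : Fin (n + 1) → ℤ, ((J.image c).filter fun v =>
      ((monIn F J).filter fun α => ∀ j ∈ α.support, c j = v).card = 1).card =
        (dfc (fun i => (a' i).support) J c).card := by
    intro c
    congr 1
    ext v
    rw [Finset.mem_filter, mem_dfc, ← c3]
  have hSp : Splits F J ↔ ∃ c : Fin (n + 1) → ℤ, (∃ j ∈ J, ∃ j' ∈ J, c j ≠ c j') ∧
      4 ≤ exg (fun i => (a' i).support) J c := by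
    unfold Splits
    refine exists_congr fun c => and_congr Iff.rfl ?_
    have h1 := c2 c
    have h2 := c4 c
    unfold exg
    constructor
    · intro h3
      have h4 : (crs (fun i => (a' i).support) J c).card +
          (dfc (fun i => (a' i).support) J c).card + 4 ≤ 2 * (J.image c).card := by
        rw [← h1, ← h2]
        exact h3
      omega
    · intro h3
      have h4 : (crs (fun i => (a' i).support) J c).card +
          (dfc (fun i => (a' i).support) J c).card + 4 ≤ 2 * (J.image c).card := by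
        omega
      rw [← h1, ← h2] at h4
      exact h4
  have hFT : ∀ e : Fin 1, ((fun _ : Fin 1 => F) e).support ⊆ withPowers d a := fun _ => hF
  tfae_have 1 → 2 := by
    rintro ⟨h1, h2⟩
    obtain ⟨c0, h0, h4⟩ := hSp.1 h2
    obtain ⟨c, hc⟩ := exists_optG h'.ne h0 h4
    rw [c1] at h1
    obtain ⟨x, b, hx, hb, hw⟩ := h'.orbitG hinj hc h1 hF'
    exact ⟨x, b, hx, hb, orbitIn_of_wc fun _ v => hw v⟩
  tfae_have 2 → 3 := by
    rintro ⟨x, b, hx, hb, ho⟩
    exact curve_of_orbit ho hx hb fun j hj => absurd hj (Set.notMem_empty j)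
  tfae_have 3 → 4 := by
    rintro ⟨f, hf, hj⟩
    exact ⟨f, hf, fun j => ⟨fun ⟨z, hz⟩ => (hj z j).1 hz, fun h1 => ⟨0, (hj 0 j).2 h1⟩⟩⟩
  tfae_have 4 → 1 := by
    rintro ⟨f, hf, hj⟩
    obtain ⟨s', N, hg⟩ := h.good
    obtain ⟨x, b, hx, hb, hw⟩ := orbit_of_curve (hg.sys hFT ∅) hf hj
    obtain ⟨h1, h2⟩ := h'.colour hinj hF' hx hb fun v => hw 0 v
    refine ⟨by rw [c1]; exact h1, hSp.2 ⟨b, hb, h2⟩⟩
  tfae_finish

/-- **The criterion for open subsets.** -/
theorem TypI.critU (h : TypI I d a) {F : MvPolynomial (Fin (n + 1)) ℂ}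
    (hF : F.support ⊆ withPowers d a) (U : Set (Fin (n + 1))) :
    (∃ f, EntireCurve U (fun _ : Fin 1 => F) f) ↔
      ∃ J : Finset (Fin (n + 1)), (∀ j ∈ U, j ∈ J) ∧ Loose F J := by
  classical
  constructor
  · rintro ⟨f, hf⟩
    refine ⟨Finset.univ.filter fun j => ∃ z, f z j ≠ 0, fun j hj => ?_, ?_⟩
    · exact Finset.mem_filter.2 ⟨Finset.mem_univ _, 0, (hf.2.1 0).2.1 j hj⟩
    · set J0 : Finset (Fin (n + 1)) := Finset.univ.filter fun j => ∃ z, f z j ≠ 0 with hJ0
      have key : (∃ f, EntireCurve ∅ (fun _ : Fin 1 => F) f ∧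
          ∀ j, (∃ z, f z j ≠ 0) ↔ j ∈ J0) ↔ Loose F J0 := (h.crit hF J0).out 3 0
      exact key.1 ⟨f, ⟨hf.1, fun z => ⟨(hf.2.1 z).1,
        fun j hj => absurd hj (Set.notMem_empty j), (hf.2.1 z).2.2⟩, hf.2.2⟩,
        fun j => by simp [hJ0]⟩
  · rintro ⟨J, hU, hJ⟩
    obtain ⟨x, b, hx, hb, ho⟩ := ((h.crit hF J).out 0 1).1 hJ
    obtain ⟨f, hf, -⟩ := curve_of_orbit ho hx hb hU
    exact ⟨f, hf⟩

end Pool.Agent.R869.Wd
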