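import Pool.Agent.R869.UInd
import Pool.Agent.R869.TOrb

/-!
Points of the torus, weights and logarithms, for groups of terms.
-/

set_option autoImplicit false

namespace Pool.Agent.R869.Wd

open Finset MvPolynomial

variable {n s : ℕ}

theorem root_ne_zero {g : Polynomial ℂ} {k l : ℕ} (hk : g.coeff k ≠ 0) (hl : g.coeff l ≠ 0)
    (hkl : k ≠ l) : ∃ T : ℂ, T ≠ 0 ∧ g.eval T = 0 := by
  have hg : g ≠ 0 := by
    rintro rfl
    exact hk (Polynomial.coeff_zero k)
  obtain ⟨q, hq, hdvd⟩ := Polynomial.exists_eq_pow_rootMultiplicity_mul_and_not_dvd g hg 0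
  rw [Polynomial.C_0, sub_zero] at hq hdvd
  rw [Polynomial.X_dvd_iff] at hdvd
  have hdeg : q.degree ≠ 0 := by
    intro h0
    have h1 := Polynomial.eq_C_of_degree_eq_zero h0
    have h2 : ∀ m, m ≠ Polynomial.rootMultiplicity 0 g → g.coeff m = 0 := by
      intro m hm
      rw [hq, h1, mul_comm, Polynomial.coeff_C_mul_X_pow, if_neg hm]
    rcases eq_or_ne k (Polynomial.rootMultiplicity 0 g) with h3 | h3
    · exact hl (h2 l fun h4 => hkl (h3.trans h4.symm))
    · exact hk (h2 k h3)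
  obtain ⟨T, hT⟩ := IsAlgClosed.exists_root q hdeg
  refine ⟨T, ?_, ?_⟩
  · rintro rfl
    rw [Polynomial.IsRoot.def, ← Polynomial.coeff_zero_eq_eval_zero] at hT
    exact hdvd hT
  · rw [hq, Polynomial.eval_mul, hT.eq_zero, mul_zero]

/-- a point of the torus where a polynomial with two monomials vanishes -/
theorem torus_zeroG {G : MvPolynomial (Fin (n + 1)) ℂ} {α β : Fin (n + 1) →₀ ℕ}
    (hα : α ∈ G.support) (hβ : β ∈ G.support) (hne : α ≠ β) :
    ∃ x : Fin (n + 1) → ℂ, (∀ i, x i ≠ 0) ∧ eval x G = 0 := by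
  classical
  obtain ⟨j, hj⟩ : ∃ j, α j ≠ β j := by
    by_contra hcon
    push Not at hcon
    exact hne (Finsupp.ext hcon)
  let Cf : ℕ → MvPolynomial (Fin (n + 1)) ℂ := fun k =>
    ∑ δ ∈ G.support with δ j = k, monomial δ (G.coeff δ)
  have hCf : ∀ δ ∈ G.support, Cf (δ j) ≠ 0 := by
    intro δ hδ h0
    have h1 : (Cf (δ j)).coeff δ = G.coeff δ := by
      simp only [Cf]
      rw [coeff_sum, Finset.sum_eq_single_of_mem δ
        (show δ ∈ G.support.filter (fun δ' => δ' j = δ j) from mem_filter.2 ⟨hδ, rfl⟩)]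
      · rw [coeff_monomial, if_pos rfl]
      · intro δ' _ hne'
        rw [coeff_monomial, if_neg hne']
    rw [h0, coeff_zero] at h1
    exact mem_support_iff.1 hδ h1.symm
  obtain ⟨η, hη, hη0⟩ := torus_ne (mul_ne_zero (hCf α hα) (hCf β hβ))
  rw [map_mul] at hη0
  let g : Polynomial ℂ := aeval (fun i => if i = j then Polynomial.X else Polynomial.C (η i)) G
  have hge : ∀ T : ℂ, g.eval T = eval (Function.update η j T) G := by
    intro T
    have h1 : ((Polynomial.evalRingHom T).comp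
        (aeval (fun i => if i = j then (Polynomial.X : Polynomial ℂ) else
          Polynomial.C (η i))).toRingHom) = eval (Function.update η j T) := by
      apply MvPolynomial.ringHom_ext
      · intro r
        simp
      · intro i
        by_cases h : i = j
        · subst h
          simp
        · simp [h, Function.update_of_ne h]
    exact DFunLike.congr_fun h1 G
  have hgc : ∀ k, g.coeff k * η j ^ k = eval η (Cf k) := by
    intro k
    simp only [g, Cf]
    rw [aeval_def, eval₂_eq', Polynomial.finsetSum_coeff, map_sum, sum_filter, sum_mul]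
    refine sum_congr rfl fun δ _ => ?_
    rw [← Finset.mul_prod_erase univ _ (mem_univ j), if_pos rfl]
    have h3 : ∏ i ∈ univ.erase j,
        (if i = j then (Polynomial.X : Polynomial ℂ) else Polynomial.C (η i)) ^ δ i =
        Polynomial.C (∏ i ∈ univ.erase j, η i ^ δ i) := by
      rw [map_prod]
      refine prod_congr rfl fun i hi => ?_
      rw [if_neg (mem_erase.1 hi).1, map_pow]
    rw [h3, Polynomial.algebraMap_apply, Algebra.algebraMap_self, RingHom.id_apply,
      mul_comm (Polynomial.X ^ δ j), ← mul_assoc, ← map_mul, Polynomial.coeff_C_mul_X_pow]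
    by_cases h4 : δ j = k
    · rw [if_pos h4, if_pos h4.symm, eval_monomial, Finsupp.prod_fintype _ _ fun j => pow_zero _,
        ← Finset.mul_prod_erase univ _ (mem_univ j), h4]
      ring
    · rw [if_neg h4, if_neg (Ne.symm h4), zero_mul]
  have hc : ∀ k, eval η (Cf k) ≠ 0 → g.coeff k ≠ 0 := fun k hk h0 => hk (by
    rw [← hgc, h0, zero_mul])
  obtain ⟨T, hT0, hT⟩ := root_ne_zero (hc _ (left_ne_zero_of_mul hη0))
    (hc _ (right_ne_zero_of_mul hη0)) hj
  rw [hge] at hT
  refine ⟨Function.update η j T, fun i => ?_, hT⟩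
  by_cases h : i = j
  · rw [h, Function.update_self]
    exact hT0
  · rw [Function.update_of_ne h]
    exact hη i

/-- **Logarithms.** -/
theorem exists_logsG {J : Finset (Fin (n + 1))}
    {c : Fin (n + 1) → ℤ} {d : ℕ} (hd : 0 < d) (a : Fin s → (Fin (n + 1) →₀ ℕ))
    (It : Finset (Fin s ⊕ Fin (n + 1))) (γ : Fin s ⊕ Fin (n + 1) → ℕ)
    (h : ∀ cf : Fin s ⊕ Fin (n + 1) → ℝ, (∀ l, ∑ q ∈ It with γ q = l, cf q = 0) →
      ∑ q ∈ It, cf q • vz (sclI d a) q ∈
        Submodule.span ℝ (pv (sclI d a) '' Cls J c) → ∀ q ∈ It, cf q = 0)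
    (T : Fin s ⊕ Fin (n + 1) → ℂ) :
    ∃ y : Fin (n + 1) → ℂ, (∀ j ∈ J, ∀ j' ∈ J, c j = c j' → y j = y j') ∧
      ∀ q ∈ It, ∀ q' ∈ It, γ q = γ q' → ∑ j, (expo d a q j : ℂ) * y j - T q =
        ∑ j, (expo d a q' j : ℂ) * y j - T q' := by
  classical
  have hdc : (d : ℂ) ≠ 0 := by exact_mod_cast hd.ne'
  set C := Submodule.span ℝ (pv (sclI d a) '' Cls J c) with hC
  let Z : Submodule ℝ (Fin s ⊕ Fin (n + 1) → ℝ) :=
    { carrier := {cf | (∀ q, q ∉ It → cf q = 0) ∧ ∀ l, ∑ q ∈ It with γ q = l, cf q = 0}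
      add_mem' := by
        rintro f g ⟨h1, h2⟩ ⟨h3, h4⟩
        refine ⟨fun q hq => ?_, fun l => ?_⟩
        · rw [Pi.add_apply, h1 q hq, h3 q hq, add_zero]
        · simp only [Pi.add_apply, sum_add_distrib]
          rw [h2, h4, add_zero]
      zero_mem' := ⟨fun _ _ => rfl, fun l => by simp⟩
      smul_mem' := by
        rintro r f ⟨h1, h2⟩
        refine ⟨fun q hq => ?_, fun l => ?_⟩
        · rw [Pi.smul_apply, h1 q hq, smul_zero]
        · simp only [Pi.smul_apply, smul_eq_mul]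
          rw [← mul_sum, h2, mul_zero] }
  let g0 : (Fin s ⊕ Fin (n + 1) → ℝ) →ₗ[ℝ] (Fin n → ℝ) :=
    ∑ q ∈ It, (LinearMap.proj q : (Fin s ⊕ Fin (n + 1) → ℝ) →ₗ[ℝ] ℝ).smulRight
      (vz (sclI d a) q : Fin n → ℝ)
  have hg0 : ∀ cf, g0 cf = ∑ q ∈ It, cf q • vz (sclI d a) q := by
    intro cf
    simp only [g0]
    rw [LinearMap.sum_apply]
    rfl
  let g : Z →ₗ[ℝ] ((Fin n → ℝ) ⧸ C) := C.mkQ ∘ₗ g0 ∘ₗ Z.subtype
  have hg : LinearMap.ker g = ⊥ := by
    rw [LinearMap.ker_eq_bot']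
    rintro ⟨cf, hcf1, hcf2⟩ hz
    have h1 : C.mkQ (∑ q ∈ It, cf q • vz (sclI d a) q) = 0 := by
      rw [← hg0]
      exact hz
    rw [Submodule.mkQ_apply, Submodule.Quotient.mk_eq_zero] at h1
    have h2 := h cf hcf2 h1
    apply Subtype.ext
    funext q
    by_cases hq : q ∈ It
    · exact h2 q hq
    · exact hcf1 q hq
  obtain ⟨g', hg'⟩ := LinearMap.exists_leftInverse_of_injective g hg
  let φ : (Fin n → ℝ) →ₗ[ℝ] (Fin s ⊕ Fin (n + 1) → ℝ) := Z.subtype ∘ₗ g' ∘ₗ C.mkQ
  have hφ1 : ∀ x ∈ C, φ x = 0 := by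
    intro x hx
    have h1 : C.mkQ x = 0 := by
      rw [Submodule.mkQ_apply, Submodule.Quotient.mk_eq_zero]
      exact hx
    change Z.subtype (g' (C.mkQ x)) = 0
    rw [h1, map_zero, map_zero]
  have hφ2 : ∀ q ∈ It, ∀ q' ∈ It, γ q = γ q' →
      φ (vz (sclI d a) q - vz (sclI d a) q') = Pi.single q 1 - Pi.single q' 1 := by
    intro q hq q' hq' hqq
    have hmem : (Pi.single q 1 - Pi.single q' 1 : Fin s ⊕ Fin (n + 1) → ℝ) ∈ Z := by
      refine ⟨fun r hr => ?_, fun l => ?_⟩
      · rw [Pi.sub_apply, Pi.single_eq_of_ne (fun h1 => hr (by rw [h1]; exact hq)),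
          Pi.single_eq_of_ne (fun h1 => hr (by rw [h1]; exact hq')), sub_self]
      · simp only [Pi.sub_apply, sum_sub_distrib]
        simp only [Pi.single_apply]
        rw [sum_ite_eq', sum_ite_eq', sub_eq_zero]
        simp only [mem_filter, hq, hq', hqq, true_and]
    have h1 : g ⟨_, hmem⟩ = C.mkQ (vz (sclI d a) q - vz (sclI d a) q') := by
      change C.mkQ (g0 (Pi.single q 1 - Pi.single q' 1)) = _
      rw [hg0]
      congr 1
      simp only [Pi.sub_apply, sub_smul, sum_sub_distrib]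
      congr 1
      · rw [Finset.sum_eq_single_of_mem q hq, Pi.single_eq_same, one_smul]
        intro r _ hr
        rw [Pi.single_eq_of_ne hr, zero_smul]
      · rw [Finset.sum_eq_single_of_mem q' hq', Pi.single_eq_same, one_smul]
        intro r _ hr
        rw [Pi.single_eq_of_ne hr, zero_smul]
    change Z.subtype (g' (C.mkQ _)) = _
    rw [← h1, ← LinearMap.comp_apply g' g, hg', LinearMap.id_apply]
    rfl
  let y : Fin (n + 1) → ℂ := fun j => ∑ l, ((φ (ev j) l : ℝ) : ℂ) * T l / d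
  have hE : ∀ q, ∑ j, (expo d a q j : ℂ) * y j = ∑ l, ((φ (vz (sclI d a) q) l : ℝ) : ℂ) * T l := by
    intro q
    rw [vz_expo hd a q]
    simp only [map_sum, map_smul, Finset.sum_apply, Pi.smul_apply, smul_eq_mul, y]
    push_cast
    simp only [Finset.mul_sum, Finset.sum_mul]
    rw [Finset.sum_comm]
    refine sum_congr rfl fun l _ => sum_congr rfl fun j _ => ?_
    field_simp
  refine ⟨y, fun j hj j' hj' hjj => ?_, fun q hq q' hq' hqq => ?_⟩
  · have h1 : φ (ev j - ev j') = 0 :=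
      hφ1 _ (Submodule.subset_span ⟨(Sum.inr j, Sum.inr j'), ⟨j, hj, j', hj', hjj, rfl⟩, rfl⟩)
    rw [map_sub, sub_eq_zero] at h1
    simp only [y, h1]
  · rw [hE, hE, sub_eq_sub_iff_sub_eq_sub, ← sum_sub_distrib]
    have h1 : ∀ m, ((φ (vz (sclI d a) q) m : ℝ) : ℂ) * T m -
        ((φ (vz (sclI d a) q') m : ℝ) : ℂ) * T m =
        (((Pi.single q 1 : Fin s ⊕ Fin (n + 1) → ℝ) m : ℝ) : ℂ) * T m -
        (((Pi.single q' 1 : Fin s ⊕ Fin (n + 1) → ℝ) m : ℝ) : ℂ) * T m := by
      intro m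
      have h2 := congrFun (hφ2 q hq q' hq' hqq) m
      rw [map_sub, Pi.sub_apply, Pi.sub_apply] at h2
      rw [← sub_mul, ← sub_mul, ← Complex.ofReal_sub, h2, Complex.ofReal_sub]
    rw [sum_congr rfl fun m _ => h1 m, sum_sub_distrib]
    congr 1
    · rw [Finset.sum_eq_single q]
      · rw [Pi.single_eq_same]
        simp
      · intro m _ hm
        rw [Pi.single_eq_of_ne hm]
        simp
      · exact fun h2 => absurd (mem_univ _) h2
    · rw [Finset.sum_eq_single q']
      · rw [Pi.single_eq_same]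
        simp
      · intro m _ hm
        rw [Pi.single_eq_of_ne hm]
        simp
      · exact fun h2 => absurd (mem_univ _) h2

/-- **Weights.** -/
theorem exists_weightsG {J : Finset (Fin (n + 1))} (c : Fin (n + 1) → ℤ) {α : Type}
    [DecidableEq α] (It : Finset α) (γ : α → ℕ)
    (hp : It.card + 2 ≤ (J.image c).card + (It.image γ).card) (f : α → (Fin (n + 1) →₀ ℕ))
    (hf : ∀ q ∈ It, ∀ j, j ∉ J → f q j = 0) :
    ∃ b : Fin (n + 1) → ℤ, (∀ j ∈ J, ∀ j' ∈ J, c j = c j' → b j = b j') ∧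
      (∃ j ∈ J, ∃ j' ∈ J, b j ≠ b j') ∧
      ∀ q ∈ It, ∀ q' ∈ It, γ q = γ q' → wgt b (f q) = wgt b (f q') := by
  classical
  let Col : Type := {v // v ∈ J.image c}
  let Gr : Type := {l // l ∈ It.image γ}
  let Rw : Type := {q // q ∈ It}
  have hcard : Fintype.card Col = (J.image c).card := Fintype.card_coe _
  have hcard2 : Fintype.card Gr = (It.image γ).card := Fintype.card_coe _
  have hcard3 : Fintype.card Rw = It.card := Fintype.card_coe _
  have hle : (It.image γ).card ≤ It.card := card_image_le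
  obtain ⟨v0, hv0⟩ : (J.image c).Nonempty := card_pos.1 (by omega)
  let M : Matrix (Option Rw) (Col ⊕ Gr) ℤ := fun x v => x.elim
    (Sum.elim (fun v => if v = ⟨v0, hv0⟩ then 1 else 0) (fun _ => 0) v)
    fun q => Sum.elim (fun v => ∑ j ∈ J.filter (fun j => c j = v.1), (f q.1 j : ℤ))
      (fun l => if l = (⟨γ q.1, mem_image_of_mem γ q.2⟩ : Gr) then -1 else 0) v
  obtain ⟨x, hx0, hx, -⟩ := Int.Matrix.exists_ne_zero_int_vec_norm_le M (by
    rw [Fintype.card_option, Fintype.card_sum, hcard, hcard2, hcard3]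
    omega) (by rw [Fintype.card_option]; omega)
  have h0 : x (Sum.inl ⟨v0, hv0⟩) = 0 := by
    have h1 := congrFun hx none
    simp only [Matrix.mulVec, dotProduct, M, Option.elim, Pi.zero_apply] at h1
    rw [Fintype.sum_sum_type] at h1
    simp only [Sum.elim_inl, Sum.elim_inr, ite_mul, one_mul, zero_mul, sum_const_zero,
      add_zero] at h1
    rw [Finset.sum_eq_single_of_mem (⟨v0, hv0⟩ : Col) (mem_univ _) (fun v _ hv => if_neg hv),
      if_pos rfl] at h1
    exact h1
  let b : Fin (n + 1) → ℤ := fun j => if h : c j ∈ J.image c then x (Sum.inl ⟨c j, h⟩) else 0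
  have hb : ∀ j (hj : j ∈ J), b j = x (Sum.inl ⟨c j, mem_image_of_mem _ hj⟩) := fun j hj => by
    simp only [b]
    rw [dif_pos (mem_image_of_mem _ hj)]
  have hw : ∀ q (hq : q ∈ It), wgt b (f q) = x (Sum.inr ⟨γ q, mem_image_of_mem γ hq⟩) := by
    intro q hq
    have h1 := congrFun hx (some ⟨q, hq⟩)
    simp only [Matrix.mulVec, dotProduct, M, Option.elim, Pi.zero_apply] at h1
    rw [Fintype.sum_sum_type] at h1
    simp only [Sum.elim_inl, Sum.elim_inr, ite_mul, neg_mul, one_mul, zero_mul] at h1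
    rw [Finset.sum_eq_single_of_mem (⟨γ q, mem_image_of_mem γ hq⟩ : Gr) (mem_univ _)
      (fun v _ hv => if_neg hv), if_pos rfl, ← sub_eq_add_neg, sub_eq_zero] at h1
    rw [← h1]
    have h2 : wgt b (f q) = ∑ j ∈ J, (f q j : ℤ) * b j := by
      unfold wgt
      rw [← sum_subset (subset_univ J)]
      intro j _ hj
      rw [hf q hq j hj]
      simp
    rw [h2, ← sum_fiberwise_of_maps_to (g := c) (t := J.image c)
        (fun j hj => mem_image_of_mem _ hj), ← Finset.sum_coe_sort (J.image c)]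
    refine sum_congr rfl fun v _ => ?_
    rw [Finset.sum_mul]
    refine sum_congr rfl fun j hj => ?_
    obtain ⟨h3, h4⟩ := mem_filter.1 hj
    rw [hb j h3]
    congr 2
    exact congrArg Sum.inl (Subtype.ext h4)
  refine ⟨b, fun j hj j' hj' hjj => ?_, ?_, fun q hq q' hq' hqq => ?_⟩
  · simp only [b, hjj]
  · by_contra hcon
    push Not at hcon
    obtain ⟨j', hj', hjv'⟩ := mem_image.1 hv0
    have hbz : ∀ j ∈ J, b j = 0 := by
      intro j hj
      rw [hcon j hj j' hj', hb j' hj']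
      have h2 : (⟨c j', mem_image_of_mem _ hj'⟩ : Col) = ⟨v0, hv0⟩ := Subtype.ext hjv'
      rw [h2, h0]
    apply hx0
    funext z
    rcases z with v | l
    · obtain ⟨j, hj, hjv⟩ := mem_image.1 v.2
      have h1 := hbz j hj
      rw [hb j hj] at h1
      have h2 : (⟨c j, mem_image_of_mem _ hj⟩ : Col) = v := Subtype.ext hjv
      rw [h2] at h1
      exact h1
    · obtain ⟨q, hq, hql⟩ := mem_image.1 l.2
      have h1 := hw q hq
      have h2 : (⟨γ q, mem_image_of_mem γ hq⟩ : Gr) = l := Subtype.ext hql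
      rw [h2] at h1
      rw [Pi.zero_apply, ← h1]
      unfold wgt
      refine sum_eq_zero fun j _ => ?_
      by_cases hj : j ∈ J
      · rw [hbz j hj, mul_zero]
      · rw [hf q hq j hj]
        simp
  · rw [hw q hq, hw q' hq']
    congr 2
    exact Subtype.ext hqq

/-- nonzero numbers with sum zero on each group -/
theorem exists_tau {α : Type} [DecidableEq α] {It : Finset α} {γ : α → ℕ}
    (h2 : ∀ q ∈ It, ∃ q' ∈ It, q' ≠ q ∧ γ q' = γ q) :
    ∃ τ : α → ℂ, (∀ q ∈ It, τ q ≠ 0) ∧ ∀ l, ∑ q ∈ It with γ q = l, τ q = 0 := by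
  classical
  rcases It.eq_empty_or_nonempty with rfl | ⟨q0, hq0⟩
  · exact ⟨fun _ => 0, fun q hq => absurd hq (notMem_empty q), fun l => by simp⟩
  have hr : ∀ l ∈ It.image γ, ∃ q ∈ It, γ q = l := fun l hl => mem_image.1 hl
  let r : ℕ → α := fun l => if h : l ∈ It.image γ then (hr l h).choose else q0
  have hrr : ∀ q ∈ It, r (γ q) ∈ It ∧ γ (r (γ q)) = γ q := by
    intro q hq
    have h1 : γ q ∈ It.image γ := mem_image_of_mem _ hq
    have h2 : r (γ q) = (hr _ h1).choose := dif_pos h1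
    rw [h2]
    exact (hr _ h1).choose_spec
  refine ⟨fun q => if q = r (γ q) then -((((It.filter fun q' => γ q' = γ q).erase q).card : ℕ) : ℂ)
    else 1, fun q hq => ?_, fun l => ?_⟩
  · simp only
    split_ifs with h3
    · rw [neg_ne_zero, Nat.cast_ne_zero, ← Nat.pos_iff_ne_zero, card_pos]
      obtain ⟨q', hq', hne, hγ⟩ := h2 q hq
      exact ⟨q', mem_erase.2 ⟨hne, mem_filter.2 ⟨hq', hγ⟩⟩⟩
    · exact one_ne_zero
  · rcases (It.filter fun q => γ q = l).eq_empty_or_nonempty with h3 | ⟨q, hq⟩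
    · rw [h3, sum_empty]
    obtain ⟨h4, rfl⟩ := mem_filter.1 hq
    obtain ⟨h5, h6⟩ := hrr q h4
    have h7 : r (γ q) ∈ It.filter fun q' => γ q' = γ q := mem_filter.2 ⟨h5, h6⟩
    rw [← add_sum_erase _ _ h7]
    have h8 : ∀ q' ∈ (It.filter fun q' => γ q' = γ q).erase (r (γ q)),
        (if q' = r (γ q') then -((((It.filter fun q'' => γ q'' = γ q').erase q').card : ℕ) : ℂ)
          else 1) = 1 := by
      intro q' hq'
      obtain ⟨h9, h10⟩ := mem_erase.1 hq'
      rw [(mem_filter.1 h10).2, if_neg h9]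
    rw [sum_congr rfl h8, h6, if_pos rfl, sum_const, nsmul_eq_mul, mul_one]
    exact neg_add_cancel _

end Pool.Agent.R869.Wd
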