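import Pool.Agent.R869.BMain
import Pool.Agent.W603.PV.Main

/-!
Relations with cofactors over function fields: the local geometry.
-/

set_option autoImplicit false

open FF MvPolynomial Pool.Agent.W603.LV Pool.Agent.W603.PV Pool.Agent.W603.GR Pool.Agent.W602.GT

namespace Pool.Agent.R869

section

variable {k F L : Type} [Field k] [Field F] [Field L] [Algebra k L] [Algebra F L] {n : ℕ}

/-- the total pole order of finitely many coefficients -/
noncomputable def er (P : Place k L) (S : Finset F) : ℤ :=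
  ∑ c ∈ S, max (-P.ord (algebraMap F L c)) 0

theorem er_nonneg (P : Place k L) (S : Finset F) : 0 ≤ er P S :=
  Finset.sum_nonneg fun _ _ => le_max_right _ _

theorem er_ge (P : Place k L) {S : Finset F} {c : F} (hc : c ∈ S) :
    Ge P (-er P S) (algebraMap F L c) := by
  right
  have h1 : max (-P.ord (algebraMap F L c)) 0 ≤ er P S :=
    Finset.single_le_sum (f := fun c => max (-P.ord (algebraMap F L c)) 0)
      (fun _ _ => le_max_right _ _) hc
  have h2 := le_max_left (-P.ord (algebraMap F L c)) 0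
  linarith

theorem ge_formc (P : Place k L) (f : Fin (n + 1) → L) {H : MvPolynomial (Fin (n + 1)) F} {d : ℕ}
    (hH : H.IsHomogeneous d) {c : ℤ}
    (hc : ∀ α ∈ H.support, Ge P (-c) (algebraMap F L (H.coeff α))) :
    Ge P (d * pord P f - c) (aeval f H) := by
  rw [aeval_def, eval₂_eq']
  refine Ge.sum _ _ fun α hα => ?_
  have h1 := (hc α hα).mul (Ge.prod Finset.univ (fun a => f a ^ α a) (fun a => α a * pord P f)
    (fun a _ => (ge_pord P f a).pow (α a)))
  refine h1.mono (le_of_eq ?_)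
  have h2 : ∑ a, α a = d := by
    have := hH (mem_support_iff.1 hα)
    rw [← this, Finsupp.weight_apply, Finsupp.sum_fintype _ _ (by simp)]
    simp
  rw [← Finset.sum_mul]
  have h3 : ((∑ a, (α a : ℤ)) : ℤ) = d := by exact_mod_cast h2
  rw [h3]
  ring

theorem ge_regc (P : Place k L) {f : Fin (n + 1) → L} (hf : ∀ j, Ge P 0 (f j))
    {H : MvPolynomial (Fin (n + 1)) F} {c : ℤ}
    (hc : ∀ α ∈ H.support, Ge P (-c) (algebraMap F L (H.coeff α))) :
    Ge P (-c) (aeval f H) := by
  rw [aeval_def, eval₂_eq']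
  refine Ge.sum _ _ fun α hα => ?_
  have h1 := (hc α hα).mul (Ge.prod Finset.univ (fun a => f a ^ α a) (fun _ => 0)
    (fun a _ => by simpa using (hf a).pow (α a)))
  simpa using h1

variable {p : Ideal (MvPolynomial (Fin (n + 1)) F)} {Q : MvPolynomial (Fin (n + 1)) F} {q : ℕ}
  {J : Type} [Fintype J]

namespace CoRel

variable (C : CoRel p Q q J)

/-- The forms `b l` for the members `l` of `J1` have no common zeros over the algebraic closure. -/
def Base : Prop := ∀ x : Fin (n + 1) → AlgebraicClosure F, x ≠ 0 → (∀ H ∈ p, aeval x H = 0) →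
  ∃ l ∈ C.J1, aeval x (C.b l) ≠ 0

theorem base_mem (hb : C.Base) (i : Fin (n + 1)) :
    ∃ (M : ℕ) (g : J → MvPolynomial (Fin (n + 1)) F),
      (X i : MvPolynomial (Fin (n + 1)) F) ^ M - ∑ l ∈ C.J1, g l * C.b l ∈ p := by
  classical
  have h1 : (X i : MvPolynomial (Fin (n + 1)) F) ∈
      vanishingIdeal F (zeroLocus (AlgebraicClosure F) (p ⊔ Ideal.span (C.b '' C.J1))) := by
    intro x hx
    rw [aeval_X]
    by_contra h0
    have hx0 : x ≠ 0 := fun h => h0 (by rw [h]; rfl)
    obtain ⟨l, hl, h3⟩ := hb x hx0 fun H hH => hx H (Ideal.mem_sup_left hH)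
    exact h3 (hx _ (Ideal.mem_sup_right (Ideal.subset_span ⟨l, hl, rfl⟩)))
  rw [vanishingIdeal_zeroLocus_eq_radical] at h1
  obtain ⟨M, hM⟩ := h1
  obtain ⟨h, hh, z, hz, hsum⟩ := Submodule.mem_sup.1 hM
  obtain ⟨g, hg⟩ := (Submodule.mem_span_image_finset_iff_exists_fun' _).1 hz
  refine ⟨M, g, ?_⟩
  have e : (X i : MvPolynomial (Fin (n + 1)) F) ^ M - ∑ l ∈ C.J1, g l * C.b l = h := by
    rw [← hsum, ← hg]
    simp only [smul_eq_mul]
    ring
  rw [e]
  exact hh

end CoRel

/-- all coefficients of `H` belong to `S` -/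
def CoefIn (S : Finset F) (H : MvPolynomial (Fin (n + 1)) F) : Prop :=
  ∀ α ∈ H.support, H.coeff α ∈ S

theorem CoefIn.mono {S S' : Finset F} {H : MvPolynomial (Fin (n + 1)) F} (h : CoefIn S H)
    (hS : S ⊆ S') : CoefIn S' H := fun α hα => hS (h α hα)

open Classical in
/-- the set of the coefficients -/
noncomputable def cf (H : MvPolynomial (Fin (n + 1)) F) : Finset F := H.support.image H.coeff

theorem coefIn_cf (H : MvPolynomial (Fin (n + 1)) F) : CoefIn (cf H) H := by
  classical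
  intro α hα
  exact Finset.mem_image.2 ⟨α, hα, rfl⟩

/-- `S` contains the coefficients of the data of the relation. -/
structure Good (C : CoRel p Q q J) (S : Finset F) : Prop where
  a : ∀ l, CoefIn S (C.a l)
  b : ∀ l, CoefIn S (C.b l)
  u : ∀ l, CoefIn S (C.u l)
  unit : ∀ l, ∃ (χ : MvPolynomial (Fin (n + 1)) F) (c r : ℕ), χ.IsHomogeneous c ∧
    C.d l + c = r * q ∧ C.u l * χ - Q ^ r ∈ p ∧ CoefIn S χ
  base : ∀ i, ∃ (M : ℕ) (g : J → MvPolynomial (Fin (n + 1)) F),
    (X i : MvPolynomial (Fin (n + 1)) F) ^ M - ∑ l ∈ C.J1, g l * C.b l ∈ p ∧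
    ∀ l, CoefIn S (g l)

theorem exists_good (C : CoRel p Q q J) (hb : C.Base) : ∃ S, Good C S := by
  classical
  choose χ c r h1 h2 h3 using C.unit
  choose M g hg using C.base_mem hb
  refine ⟨(Finset.univ.biUnion fun l => cf (C.a l) ∪ cf (C.b l) ∪ cf (C.u l) ∪ cf (χ l)) ∪
    Finset.univ.biUnion fun i => Finset.univ.biUnion fun l => cf (g i l), ?_, ?_, ?_, ?_, ?_⟩
  · intro l
    refine (coefIn_cf _).mono fun x hx => Finset.mem_union_left _
      (Finset.mem_biUnion.2 ⟨l, Finset.mem_univ _, ?_⟩)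
    simp only [Finset.mem_union]
    exact Or.inl (Or.inl (Or.inl hx))
  · intro l
    refine (coefIn_cf _).mono fun x hx => Finset.mem_union_left _
      (Finset.mem_biUnion.2 ⟨l, Finset.mem_univ _, ?_⟩)
    simp only [Finset.mem_union]
    exact Or.inl (Or.inl (Or.inr hx))
  · intro l
    refine (coefIn_cf _).mono fun x hx => Finset.mem_union_left _
      (Finset.mem_biUnion.2 ⟨l, Finset.mem_univ _, ?_⟩)
    simp only [Finset.mem_union]
    exact Or.inl (Or.inr hx)
  · intro l
    refine ⟨χ l, c l, r l, h1 l, h2 l, h3 l, ?_⟩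
    refine (coefIn_cf _).mono fun x hx => Finset.mem_union_left _
      (Finset.mem_biUnion.2 ⟨l, Finset.mem_univ _, ?_⟩)
    simp only [Finset.mem_union]
    exact Or.inr hx
  · intro i
    refine ⟨M i, g i, hg i, fun l => ?_⟩
    refine (coefIn_cf _).mono fun x hx => Finset.mem_union_right _
      (Finset.mem_biUnion.2 ⟨i, Finset.mem_univ _, Finset.mem_biUnion.2 ⟨l, Finset.mem_univ _, hx⟩⟩)

theorem CoefIn.ge {S : Finset F} {H : MvPolynomial (Fin (n + 1)) F} (h : CoefIn S H)
    (P : Place k L) : ∀ α ∈ H.support, Ge P (-er P S) (algebraMap F L (H.coeff α)) :=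
  fun α hα => er_ge P (h α hα)

theorem CoefIn.ord {S : Finset F} {H : MvPolynomial (Fin (n + 1)) F} (h : CoefIn S H)
    (P : Place k L) {y : Fin (n + 1) → L} {d : ℕ} (hH : H.IsHomogeneous d) (h0 : val y H ≠ 0) :
    d * pord P y - er P S ≤ P.ord (val y H) :=
  (ge_formc P y hH (h.ge P)).resolve_left h0

variable {C : CoRel p Q q J} {S : Finset F}

theorem Good.base_ord (hG : Good C S) (hp : IsHomog p) {y : Fin (n + 1) → L} (hy0 : y ≠ 0)
    (hy : ∀ H ∈ p, val y H = 0) (hb : ∀ l, val y (C.b l) ≠ 0) (P : Place k L) :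
    ∃ l ∈ C.J1, P.ord (val y (C.b l)) ≤ C.m l * pord P y + er P S := by
  by_contra hcon
  push Not at hcon
  obtain ⟨j0, hj0⟩ := Function.ne_iff.1 hy0
  obtain ⟨i0, h0, hi0⟩ := exists_pord P ⟨j0, hj0⟩
  set y' : Fin (n + 1) → L := fun j => (y i0)⁻¹ * y j with hy'
  have hreg : ∀ i, Ge P 0 (y' i) := by
    intro i
    by_cases hi : y i = 0
    · left
      simp only [hy']
      rw [hi, mul_zero]
    · right
      simp only [hy']
      rw [P.ord_mul (inv_ne_zero h0) hi, P.ord_inv]
      have := pord_le P hi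
      linarith
  have hb' : ∀ l ∈ C.J1, Ge P (er P S + 1) (val y' (C.b l)) := by
    intro l hl
    right
    have e1 : val y' (C.b l) = (y i0)⁻¹ ^ C.m l * val y (C.b l) := by
      unfold val
      rw [hy', aeval_scale (C.homb l)]
    have h3 := hcon l hl
    rw [e1, P.ord_mul (pow_ne_zero _ (inv_ne_zero h0)) (hb l), P.ord_pow, P.ord_inv, hi0]
    linarith
  obtain ⟨M, g, hM, hg⟩ := hG.base i0
  have h5 : val y' (∑ l ∈ C.J1, g l * C.b l) = 1 := by
    have h8 : val y' ((X i0 : MvPolynomial (Fin (n + 1)) F) ^ M - ∑ l ∈ C.J1, g l * C.b l) = 0 :=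
      val_scale_mem hp hy _ hM
    unfold val at h8 ⊢
    rw [map_sub, map_pow, aeval_X, sub_eq_zero] at h8
    rw [← h8]
    simp only [hy']
    rw [inv_mul_cancel₀ h0, one_pow]
  have h6 : Ge P 1 (val y' (∑ l ∈ C.J1, g l * C.b l)) := by
    unfold val
    rw [map_sum]
    refine Ge.sum _ _ fun l hl => ?_
    rw [map_mul]
    have h7 := (ge_regc P hreg ((hg l).ge P)).mul (hb' l hl)
    refine h7.mono ?_
    linarith
  rw [h5] at h6
  rcases h6 with h6 | h6
  · exact one_ne_zero h6
  · rw [P.ord_one] at h6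
    omega

theorem Good.unit_ord (hG : Good C S) {y : Fin (n + 1) → L}
    (hy : ∀ H ∈ p, val y H = 0) (hoff : val y Q ≠ 0) (P : Place k L)
    (hP : P ∉ meets (k := k) Q q y) (hS : er P S = 0) (l : J) :
    P.ord (val y (C.u l)) = C.d l * pord P y := by
  have hQo : P.ord (val y Q) ≤ q * pord P y := by
    by_contra hcon
    push Not at hcon
    exact hP hcon
  obtain ⟨χ, c, r, hχ, hc, hu, hχS⟩ := hG.unit l
  have hu' : val y (C.u l) * val y χ = val y Q ^ r := by
    have h2 := hy _ hu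
    unfold val at h2 ⊢
    rw [map_sub, map_mul, map_pow] at h2
    exact sub_eq_zero.1 h2
  have hune : val y (C.u l) * val y χ ≠ 0 := by
    rw [hu']
    exact pow_ne_zero _ hoff
  have h3 : P.ord (val y (C.u l)) + P.ord (val y χ) ≤ r * (q * pord P y) := by
    rw [← P.ord_mul (left_ne_zero_of_mul hune) (right_ne_zero_of_mul hune), hu', P.ord_pow]
    exact mul_le_mul_of_nonneg_left hQo (Nat.cast_nonneg _)
  have h4 := (hG.u l).ord P (C.homu l) (left_ne_zero_of_mul hune)
  have h5 := hχS.ord P hχ (right_ne_zero_of_mul hune)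
  rw [hS, sub_zero] at h4 h5
  have h6 : ((C.d l : ℤ) + c) * pord P y = r * (q * pord P y) := by
    have h7 : ((C.d l : ℤ) + c) = r * q := by exact_mod_cast hc
    rw [h7]
    ring
  linarith

end

end Pool.Agent.R869
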