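import Pool.Agent.R869.VGeo
import Pool.Agent.R869.QForms

/-!
Relations with cofactors over function fields: Vojta's height inequality.
-/

set_option autoImplicit false

open FF MvPolynomial Pool.Agent.W603.LV Pool.Agent.W603.PV Pool.Agent.W603.GR Pool.Agent.W602.GT

namespace Pool.Agent.R869

variable {k F L : Type} [Field k] [Field F] [Field L] [Algebra k L] [Algebra F L] {n : ℕ}
  {p : Ideal (MvPolynomial (Fin (n + 1)) F)} {Q : MvPolynomial (Fin (n + 1)) F} {q : ℕ}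
  {J : Type} [Fintype J]

namespace CoRel

variable (C : CoRel p Q q J) [DecidableEq J] {y : Fin (n + 1) → L} {j0 : J}
  (t : Tree k (C.T y) j0)

/-- the loss of degree -/
noncomputable def lossF : ℕ :=
  ∑ l ∈ C.J1, C.δ l + ∑ l, t.cJ l * C.δ l + LLs (Fintype.card J) * ∑ l, (C.m l + C.δ l)

/-- the twisting factor -/
noncomputable def PhiF : L :=
  (∏ l ∈ C.J1, val y (C.a l)) * (∏ l, val y (C.a l) ^ LLs (Fintype.card J)) /
    ((∏ l, val y (C.b l) ^ (t.cJ l * C.N l - LLs (Fintype.card J))) *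
      ∏ l, val y (C.u l) ^ t.cJ l)

theorem PhiF_ne (h : ∀ l, val y (C.a l) ≠ 0 ∧ val y (C.u l) ≠ 0 ∧ val y (C.b l) ≠ 0) :
    C.PhiF t ≠ 0 := by
  unfold PhiF
  refine div_ne_zero (mul_ne_zero ?_ ?_) (mul_ne_zero ?_ ?_)
  · exact Finset.prod_ne_zero_iff.2 fun l _ => (h l).1
  · exact Finset.prod_ne_zero_iff.2 fun l _ => pow_ne_zero _ (h l).1
  · exact Finset.prod_ne_zero_iff.2 fun l _ => pow_ne_zero _ (h l).2.2
  · exact Finset.prod_ne_zero_iff.2 fun l _ => pow_ne_zero _ (h l).2.1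

theorem PhiF_ord (P : Place k L) (ha : ∀ l, val y (C.a l) ≠ 0) (hb : ∀ l, val y (C.b l) ≠ 0)
    (hu : ∀ l, val y (C.u l) ≠ 0) (hNL : ∀ l, LLs (Fintype.card J) ≤ C.N l) :
    P.ord (C.PhiF t) = ∑ l ∈ C.J1, P.ord (val y (C.a l)) +
      LLs (Fintype.card J) * ∑ l, P.ord (val y (C.a l)) -
      ∑ l, (t.cJ l : ℤ) * (C.N l * P.ord (val y (C.b l))) +
      LLs (Fintype.card J) * ∑ l, P.ord (val y (C.b l)) -
      ∑ l, (t.cJ l : ℤ) * P.ord (val y (C.u l)) := by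
  have h1 : (∏ l ∈ C.J1, val y (C.a l)) ≠ 0 := Finset.prod_ne_zero_iff.2 fun l _ => ha l
  have h2 : (∏ l, val y (C.a l) ^ LLs (Fintype.card J)) ≠ 0 :=
    Finset.prod_ne_zero_iff.2 fun l _ => pow_ne_zero _ (ha l)
  have h3 : (∏ l, val y (C.b l) ^ (t.cJ l * C.N l - LLs (Fintype.card J))) ≠ 0 :=
    Finset.prod_ne_zero_iff.2 fun l _ => pow_ne_zero _ (hb l)
  have h4 : (∏ l, val y (C.u l) ^ t.cJ l) ≠ 0 :=
    Finset.prod_ne_zero_iff.2 fun l _ => pow_ne_zero _ (hu l)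
  unfold PhiF
  rw [P.ord_div (mul_ne_zero h1 h2) (mul_ne_zero h3 h4), P.ord_mul h1 h2, P.ord_mul h3 h4,
    ord_prod' P _ _ fun l _ => ha l, ord_prod' P _ _ fun l _ => pow_ne_zero _ (ha l),
    ord_prod' P _ _ fun l _ => pow_ne_zero _ (hb l),
    ord_prod' P _ _ fun l _ => pow_ne_zero _ (hu l)]
  have e1 : ∑ l, P.ord (val y (C.a l) ^ LLs (Fintype.card J)) =
      LLs (Fintype.card J) * ∑ l, P.ord (val y (C.a l)) := by
    rw [Finset.mul_sum]
    exact Finset.sum_congr rfl fun l _ => P.ord_pow _ _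
  have e2 : ∑ l, P.ord (val y (C.b l) ^ (t.cJ l * C.N l - LLs (Fintype.card J))) =
      ∑ l, (t.cJ l : ℤ) * (C.N l * P.ord (val y (C.b l))) -
      LLs (Fintype.card J) * ∑ l, P.ord (val y (C.b l)) := by
    rw [Finset.mul_sum, ← Finset.sum_sub_distrib]
    refine Finset.sum_congr rfl fun l _ => ?_
    have hle : LLs (Fintype.card J) ≤ t.cJ l * C.N l :=
      (hNL l).trans (Nat.le_mul_of_pos_left _ (t.one_le_cJ l))
    rw [P.ord_pow, Nat.cast_sub hle]
    push_cast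
    ring
  have e3 : ∑ l, P.ord (val y (C.u l) ^ t.cJ l) = ∑ l, (t.cJ l : ℤ) * P.ord (val y (C.u l)) :=
    Finset.sum_congr rfl fun l _ => P.ord_pow _ _
  rw [e1, e2, e3]
  ring

/-- the main estimate -/
theorem estF {S : Finset F} (hG : Good C S) (hp : IsHomog p) (hs : 2 ≤ Fintype.card J)
    (hy : GPt C y) (hN0 : ∀ l, C.N l ≠ 0) (hNL : ∀ l, LLs (Fintype.card J) ≤ C.N l)
    (hloss : C.lossF t ≤ C.e) {P : Place k L} {E : Derivation k L L} {ε : ℤ}
    (hW : ∀ l (i : Fin ((t.C l).m + 1)),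
      Ge P (∑ b, P.ord (C.T y ((t.C l).e (i.succAbove b))) - ε * tri (t.C l).m) (WK E (t.C l))) :
    Ge P (-((C.e - C.lossF t : ℕ) * pord P y) + LLs (Fintype.card J) *
      (∑ l, (P.ord (val y (C.a l)) - C.δ l * pord P y) +
      ∑ l, (P.ord (val y (C.b l)) - C.m l * pord P y)) - ε * wtT t -
      (∑ l, t.cJ l + Fintype.card J + ∑ l, C.N l : ℕ) * er P S)
      (C.PhiF t * FK t E) := by
  have hT := C.T_ne hs hy.no
  have hne : ∀ l, val y (C.a l) ≠ 0 ∧ val y (C.u l) ≠ 0 ∧ val y (C.b l) ≠ 0 := by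
    intro l
    have h1 := hT l
    rw [C.T_eq] at h1
    refine ⟨left_ne_zero_of_mul (left_ne_zero_of_mul h1),
      right_ne_zero_of_mul (left_ne_zero_of_mul h1), fun h0 => right_ne_zero_of_mul h1 ?_⟩
    rw [h0, zero_pow (hN0 l)]
  obtain ⟨j, hj, hbj⟩ := hG.base_ord hp hy.ne hy.mem (fun l => (hne l).2.2) P
  have h1 := (ge_ord P (C.PhiF t)).mul (FK_ge t hW j)
  refine h1.mono ?_
  rw [C.PhiF_ord t P (fun l => (hne l).1) (fun l => (hne l).2.2) (fun l => (hne l).2.1) hNL]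
  set μ := pord P y with hμ
  set c := er P S with hc
  have hc0 : 0 ≤ c := er_nonneg P S
  have hTo : ∀ l, P.ord (C.T y l) = P.ord (val y (C.a l)) + P.ord (val y (C.u l)) +
      C.N l * P.ord (val y (C.b l)) := by
    intro l
    rw [C.T_eq, P.ord_mul (mul_ne_zero (hne l).1 (hne l).2.1) (pow_ne_zero _ (hne l).2.2),
      P.ord_mul (hne l).1 (hne l).2.1, P.ord_pow]
  have hsumT : ∑ l, (t.cJ l : ℤ) * P.ord (C.T y l) = ∑ l, (t.cJ l : ℤ) * P.ord (val y (C.a l)) +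
      ∑ l, (t.cJ l : ℤ) * P.ord (val y (C.u l)) +
      ∑ l, (t.cJ l : ℤ) * (C.N l * P.ord (val y (C.b l))) := by
    rw [← Finset.sum_add_distrib, ← Finset.sum_add_distrib]
    exact Finset.sum_congr rfl fun l _ => by rw [hTo]; ring
  have hul : P.ord (val y (C.u j)) = 0 := by
    rw [C.one j hj]
    unfold val
    rw [map_one, P.ord_one]
  have hd : C.d j = 0 := by
    have h2 := C.homu j
    rw [C.one j hj] at h2
    exact IsHomogeneous.inj_right h2 (isHomogeneous_one (Fin (n + 1)) F) one_ne_zero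
  have he : (C.e : ℤ) = C.δ j + C.N j * C.m j := by
    rw [← C.deg j, hd]
    push_cast
    ring
  have hκ : ((C.e - C.lossF t : ℕ) : ℤ) = C.e - (∑ l ∈ C.J1, (C.δ l : ℤ) +
      ∑ l, (t.cJ l : ℤ) * C.δ l + LLs (Fintype.card J) * (∑ l, (C.m l : ℤ) + ∑ l, (C.δ l : ℤ))) := by
    rw [Nat.cast_sub hloss]
    unfold lossF
    push_cast
    rw [Finset.sum_add_distrib]
  have ha : ∀ l, 0 ≤ P.ord (val y (C.a l)) - C.δ l * μ + c := by
    intro l
    have := (hG.a l).ord P (C.homa l) (hne l).1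
    linarith
  have s1 : P.ord (val y (C.a j)) - C.δ j * μ + c ≤
      ∑ l ∈ C.J1, P.ord (val y (C.a l)) - (∑ l ∈ C.J1, (C.δ l : ℤ)) * μ +
      (Fintype.card J : ℤ) * c := by
    have h2 := Finset.single_le_sum
      (f := fun l => P.ord (val y (C.a l)) - C.δ l * μ + c) (fun l _ => ha l) hj
    rw [Finset.sum_add_distrib, Finset.sum_sub_distrib, ← Finset.sum_mul, Finset.sum_const,
      nsmul_eq_mul] at h2
    have h3 : (C.J1.card : ℤ) * c ≤ (Fintype.card J : ℤ) * c :=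
      mul_le_mul_of_nonneg_right (by exact_mod_cast Finset.card_le_univ _) hc0
    linarith
  have s2 : 0 ≤ ∑ l, (t.cJ l : ℤ) * P.ord (val y (C.a l)) -
      (∑ l, (t.cJ l : ℤ) * C.δ l) * μ + (∑ l, (t.cJ l : ℤ)) * c := by
    rw [Finset.sum_mul, Finset.sum_mul, ← Finset.sum_sub_distrib, ← Finset.sum_add_distrib]
    refine Finset.sum_nonneg fun l _ => ?_
    have := mul_nonneg (Nat.cast_nonneg (t.cJ l) : (0 : ℤ) ≤ t.cJ l) (ha l)
    linarith
  have s3 : (C.N j : ℤ) * P.ord (val y (C.b j)) ≤ C.N j * (C.m j * μ) + (∑ l, (C.N l : ℤ)) * c := by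
    have h2 := mul_le_mul_of_nonneg_left hbj (Nat.cast_nonneg (C.N j) : (0 : ℤ) ≤ C.N j)
    have h3 : (C.N j : ℤ) ≤ ∑ l, (C.N l : ℤ) :=
      Finset.single_le_sum (f := fun l => (C.N l : ℤ)) (fun _ _ => Nat.cast_nonneg _)
        (Finset.mem_univ j)
    have h4 := mul_le_mul_of_nonneg_right h3 hc0
    linarith
  push_cast
  rw [hsumT, hTo j, hul, hκ, he, Finset.sum_sub_distrib, Finset.sum_sub_distrib,
    ← Finset.sum_mul, ← Finset.sum_mul]
  nlinarith [s1, s2, s3]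

end CoRel

end Pool.Agent.R869
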