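import Pool.Agent.R869.VMain

/-!
Relations with cofactors over function fields: Vojta's height inequality, the conclusion.
-/

set_option autoImplicit false

open FF MvPolynomial Pool.Agent.W603.LV Pool.Agent.W603.PV Pool.Agent.W603.GR Pool.Agent.W602.GT

namespace Pool.Agent.R869

variable {k F L : Type} [Field k] [Field F] [Field L] [Algebra k L] [Algebra F L] {n : ℕ}
  {p : Ideal (MvPolynomial (Fin (n + 1)) F)} {Q : MvPolynomial (Fin (n + 1)) F} {q : ℕ}
  {J : Type} [Fintype J]

namespace CoRel

variable (C : CoRel p Q q J)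

/-- the constant in the error term -/
def errC : ℕ := (Fintype.card J - 1) * (Fintype.card J - 1) + 1 + Fintype.card J + ∑ l, C.N l +
  LLs (Fintype.card J) * (2 * Fintype.card J + 1)

variable [DecidableEq J] {y : Fin (n + 1) → L} {j0 : J} (t : Tree k (C.T y) j0)

open Classical in
theorem local_F [IsAlgClosed k] [CharZero k] [IsFF k L] {S : Finset F} (hG : Good C S)
    (hp : IsHomog p) (hs : 2 ≤ Fintype.card J)
    (hy : GPt C y) (hN0 : ∀ l, C.N l ≠ 0) (hNL : ∀ l, LLs (Fintype.card J) ≤ C.N l)
    (hloss : C.lossF t ≤ C.e) {D : Derivation k L L} (hD : D ≠ 0) (P : Place k L) :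
    -((C.e - C.lossF t : ℕ) * pord P y) + wtT t * vo P D -
      (if P ∈ meets (k := k) Q q y then (wtT t : ℤ) else 0) - C.errC * er P S ≤
      P.ord (C.PhiF t * FK t D) := by
  have hT := C.T_ne hs hy.no
  have hne : ∀ l, val y (C.a l) ≠ 0 ∧ val y (C.u l) ≠ 0 ∧ val y (C.b l) ≠ 0 := by
    intro l
    have h1 := hT l
    rw [C.T_eq] at h1
    refine ⟨left_ne_zero_of_mul (left_ne_zero_of_mul h1),
      right_ne_zero_of_mul (left_ne_zero_of_mul h1), fun h0 => right_ne_zero_of_mul h1 ?_⟩
    rw [h0, zero_pow (hN0 l)]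
  set π := unif P with hπd
  have hπ : P.ord π = 1 := ord_unif P
  have hπ0 : π ≠ 0 := by
    intro h
    rw [h, P.ord_zero] at hπ; omega
  have hu0 : D π ≠ 0 := der_pi_ne_zero hD P hπ
  set u := D π with hu
  set E : Derivation k L L := u⁻¹ • D with hEd
  have hE1 : E π = 1 := by
    rw [hEd, Derivation.coe_smul, Pi.smul_apply, smul_eq_mul, ← hu, inv_mul_cancel₀ hu0]
  have hDE : D = u • E := by
    rw [hEd, smul_smul, mul_inv_cancel₀ hu0, one_smul]
  have hreg : DerReg P E := fun f hf => by
    rw [reg_iff_ge] at hf ⊢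
    exact der_reg P hπ E hE1 hf
  have hpole : ∀ x : L, x ≠ 0 → Ge P (-1) (E x / x) := by
    intro x hx
    obtain ⟨v, hv, hv0, -, hlog⟩ := logder_eq P E hπ hx
    rw [hlog]
    have h1 : Ge P (-1) (E v / v) := (ge_logder_reg hreg hv hv0).mono (by omega)
    have h2 : Ge P (-1) ((P.ord x : L) * (E π / π)) := by
      rw [hE1]
      have h3 := (Ge.intCast (P := P) (P.ord x)).mul (ge_div hπ0 Ge.one)
      rw [hπ] at h3
      simpa using h3
    exact h1.add h2
  have hFK : FK t D = u ^ wtT t * FK t E := by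
    rw [hDE, FK_smul]
  have hFD : FK t D ≠ 0 := FK_ne t fun h hh => const_of_der hD hh
  have hFE : FK t E ≠ 0 := by
    intro h
    rw [hFK, h, mul_zero] at hFD
    exact hFD rfl
  have hPhi := C.PhiF_ne t hne
  have hord : P.ord (C.PhiF t * FK t D) = wtT t * vo P D + P.ord (C.PhiF t * FK t E) := by
    have e : C.PhiF t * FK t D = u ^ wtT t * (C.PhiF t * FK t E) := by
      rw [hFK]; ring
    rw [e, P.ord_mul (pow_ne_zero _ hu0) (mul_ne_zero hPhi hFE), P.ord_pow]
    rfl
  rw [hord]
  set μ := pord P y with hμ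
  set c := er P S with hc
  have hc0 : 0 ≤ c := er_nonneg P S
  have ha : ∀ l, 0 ≤ P.ord (val y (C.a l)) - C.δ l * μ + c := fun l => by
    have := (hG.a l).ord P (C.homa l) (hne l).1
    linarith
  have hb : ∀ l, 0 ≤ P.ord (val y (C.b l)) - C.m l * μ + c := fun l => by
    have := (hG.b l).ord P (C.homb l) (hne l).2.2
    linarith
  set A := ∑ l, (P.ord (val y (C.a l)) - C.δ l * μ) + ∑ l, (P.ord (val y (C.b l)) - C.m l * μ)
    with hA
  have hA0 : 0 ≤ A + (2 * Fintype.card J : ℕ) * c := by
    have h1 := Finset.sum_nonneg fun l (_ : l ∈ Finset.univ) => ha l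
    have h2 := Finset.sum_nonneg fun l (_ : l ∈ Finset.univ) => hb l
    rw [Finset.sum_add_distrib, Finset.sum_const, Finset.card_univ, nsmul_eq_mul] at h1 h2
    push_cast
    linarith
  have hwL : (wtT t : ℤ) ≤ LLs (Fintype.card J) := by
    exact_mod_cast (t.tri_total : wtT t ≤ LLs (Fintype.card J))
  have hcJ : ((∑ l, t.cJ l : ℕ) : ℤ) ≤
      (((Fintype.card J - 1) * (Fintype.card J - 1) + 1 : ℕ) : ℤ) := by
    exact_mod_cast t.cJ_total
  set K1 : ℤ := ((∑ l, t.cJ l + Fintype.card J + ∑ l, C.N l : ℕ) : ℤ) with hK1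
  have hK : K1 + LLs (Fintype.card J) * (2 * Fintype.card J + 1 : ℕ) ≤ (C.errC : ℤ) := by
    rw [hK1]
    unfold errC
    push_cast at hcJ ⊢
    linarith
  set LL : ℤ := (LLs (Fintype.card J) : ℤ) with hLL
  have hLL0 : 0 ≤ LL := Nat.cast_nonneg _
  have hw0 : (0 : ℤ) ≤ wtT t := Nat.cast_nonneg _
  have hKc := mul_le_mul_of_nonneg_right hK hc0
  have h1 := (C.estF t hG hp hs hy hN0 hNL hloss (P := P) (E := E) (ε := 1)
    (fun l i => WK_log hpole (t.C l) i)).resolve_left (mul_ne_zero hPhi hFE)
  rw [one_mul, ← hμ, ← hc, ← hK1, ← hLL, ← hA] at h1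
  have hLA := mul_le_mul_of_nonneg_left hA0 hLL0
  rw [mul_zero] at hLA
  by_cases hcz : c = 0
  · rw [hcz] at h1 hLA ⊢
    simp only [mul_zero, sub_zero, add_zero] at h1 hLA ⊢
    by_cases hmt : P ∈ meets (k := k) Q q y
    · rw [if_pos hmt]
      linarith
    · rw [if_neg hmt]
      rw [hcz] at hA0
      simp only [mul_zero, add_zero] at hA0
      by_cases hall : A = 0
      · have ha' : ∀ l, 0 ≤ P.ord (val y (C.a l)) - C.δ l * μ := fun l => by
          have := ha l
          rw [hcz] at this
          linarith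
        have hb' : ∀ l, 0 ≤ P.ord (val y (C.b l)) - C.m l * μ := fun l => by
          have := hb l
          rw [hcz] at this
          linarith
        have hAs := Finset.sum_nonneg fun l (_ : l ∈ Finset.univ) => ha' l
        have hBs := Finset.sum_nonneg fun l (_ : l ∈ Finset.univ) => hb' l
        have hA00 : ∑ l, (P.ord (val y (C.a l)) - C.δ l * μ) = 0 := by linarith
        have hB00 : ∑ l, (P.ord (val y (C.b l)) - C.m l * μ) = 0 := by linarith
        have hA1 := (Finset.sum_eq_zero_iff_of_nonneg fun l _ => ha' l).1 hA00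
        have hB1 := (Finset.sum_eq_zero_iff_of_nonneg fun l _ => hb' l).1 hB00
        have hTo : ∀ l, P.ord (C.T y l) = C.e * μ := by
          intro l
          have h2 := hA1 l (Finset.mem_univ l)
          have h3 := hB1 l (Finset.mem_univ l)
          have h4 := hG.unit_ord hy.mem hy.off P hmt hcz l
          rw [C.T_eq, P.ord_mul (mul_ne_zero (hne l).1 (hne l).2.1) (pow_ne_zero _ (hne l).2.2),
            P.ord_mul (hne l).1 (hne l).2.1, P.ord_pow, h4]
          have h5 : P.ord (val y (C.a l)) = C.δ l * μ := by linarith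
          have h6 : P.ord (val y (C.b l)) = C.m l * μ := by linarith
          rw [h5, h6, ← C.deg l]
          push_cast
          ring
        have h2 := (C.estF t hG hp hs hy hN0 hNL hloss (P := P) (E := E) (ε := 0)
          (fun l i => by
            rw [zero_mul, sub_zero]
            exact WK_reg hreg (hT j0) (fun j => by rw [hTo, hTo]) (t.C l) i)).resolve_left
            (mul_ne_zero hPhi hFE)
        rw [zero_mul, sub_zero, ← hμ, ← hc, hcz, mul_zero, sub_zero, ← hA, hall, mul_zero,
          add_zero] at h2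
        linarith
      · have h2 : 1 ≤ A := by omega
        have h3 : LL * 1 ≤ LL * A := mul_le_mul_of_nonneg_left h2 hLL0
        linarith
  · have h2 : 1 ≤ c := by omega
    have h3 : LL * 1 ≤ LL * c := mul_le_mul_of_nonneg_left h2 hLL0
    have h4 : 0 ≤ (if P ∈ meets (k := k) Q q y then (wtT t : ℤ) else 0) := by
      split_ifs
      · exact hw0
      · exact le_rfl
    push_cast at hLA hKc
    nlinarith

end CoRel

end Pool.Agent.R869
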