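import Mathlib.LinearAlgebra.Dimension.StrongRankCondition
import Mathlib.LinearAlgebra.Basis.VectorSpace
import Mathlib.RingTheory.Localization.Integer
import Mathlib.LinearAlgebra.FiniteDimensional.Basic
import Mathlib.LinearAlgebra.Dimension.Constructions
import Mathlib.Tactic

/-!
Families of integer vectors: linear algebra.
-/

set_option autoImplicit false

namespace Pool.Agent.R869.Wd

open Module

/-- common denominators -/
theorem clear_den {κ : Type*} [Finite κ] (v : κ → ℚ) :
    ∃ (M : ℕ) (a : κ → ℤ), 0 < M ∧ ∀ l, (a l : ℚ) = M * v l := by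
  obtain ⟨M, hM⟩ := IsLocalization.exist_integer_multiples_of_finite (nonZeroDivisors ℤ) v
  choose a ha using hM
  have hM0 : (M : ℤ) ≠ 0 := nonZeroDivisors.coe_ne_zero M
  have ha' : ∀ l, (a l : ℚ) = ((M : ℤ) : ℚ) * v l := by
    intro l
    have h1 := ha l
    rw [Algebra.smul_def] at h1
    exact h1
  refine ⟨(M : ℤ).natAbs, fun l => (M : ℤ).sign * a l, Int.natAbs_pos.2 hM0, fun l => ?_⟩
  have h2 : (((M : ℤ).natAbs : ℕ) : ℚ) = ((M : ℤ).sign : ℚ) * ((M : ℤ) : ℚ) := by
    have h3 := Int.sign_mul_self_eq_natAbs (M : ℤ)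
    have h4 : (((M : ℤ).sign * (M : ℤ) : ℤ) : ℚ) = (((M : ℤ).natAbs : ℤ) : ℚ) := by rw [h3]
    rw [Int.cast_mul, Int.cast_natCast] at h4
    exact h4.symm
  rw [h2]
  push_cast
  rw [ha']
  ring

/-- relations between integer vectors from their annihilators -/
theorem span_rel {N r : ℕ} (δ : Fin r → Fin N → ℤ) (i j : Fin N)
    (h : ∀ u : Fin N → ℤ, (∀ l, ∑ x, δ l x * u x = 0) → u i = u j) :
    ∃ (M0 : ℕ) (c : Fin r → ℤ), 0 < M0 ∧
      ∀ x, (M0 : ℤ) * ((if x = i then 1 else 0) - (if x = j then 1 else 0)) =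
        ∑ l, c l * δ l x := by
  classical
  let v : Fin r → (Fin N → ℚ) := fun l x => (δ l x : ℚ)
  let t : Fin N → ℚ := Pi.single i 1 - Pi.single j 1
  have ht : t ∈ Submodule.span ℚ (Set.range v) := by
    by_contra hcon
    obtain ⟨φ, hφ, hφ2⟩ := Submodule.exists_le_ker_of_notMem hcon
    have hsum : ∀ z : Fin N → ℚ, φ z = ∑ x, z x * φ (Pi.single x 1) := by
      intro z
      conv_lhs => rw [← Finset.univ_sum_single z]
      rw [map_sum]
      refine Finset.sum_congr rfl fun x _ => ?_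
      have : (Pi.single x (z x) : Fin N → ℚ) = z x • Pi.single x 1 := by
        rw [← Pi.single_smul, smul_eq_mul, mul_one]
      rw [this, map_smul, smul_eq_mul]
    obtain ⟨M, u, hM, hu⟩ := clear_den fun x => φ (Pi.single x 1)
    have h1 := h u (fun l => by
      have h2 : φ (v l) = 0 := hφ2 (Submodule.subset_span ⟨l, rfl⟩)
      rw [hsum] at h2
      have h3 : ((∑ x, δ l x * u x : ℤ) : ℚ) = 0 := by
        push_cast
        have : ∀ x, (δ l x : ℚ) * u x = M * (v l x * φ (Pi.single x 1)) := fun x => by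
          rw [hu]
          ring
        rw [Finset.sum_congr rfl fun x _ => this x, ← Finset.mul_sum, h2, mul_zero]
      exact_mod_cast h3)
    apply hφ
    have h4 : (M : ℚ) * φ t = 0 := by
      have h5 : φ t = φ (Pi.single i 1) - φ (Pi.single j 1) := map_sub _ _ _
      rw [h5, mul_sub, ← hu, ← hu, h1, sub_self]
    exact (mul_eq_zero.1 h4).resolve_left (by exact_mod_cast hM.ne')
  rw [Submodule.mem_span_range_iff_exists_fun] at ht
  obtain ⟨c, hc⟩ := ht
  obtain ⟨M, a, hM, ha⟩ := clear_den c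
  refine ⟨M, a, hM, fun x => ?_⟩
  have h1 := congrFun hc x
  simp only [Finset.sum_apply, Pi.smul_apply, smul_eq_mul] at h1
  have h2 : t x = (if x = i then 1 else 0) - (if x = j then 1 else 0) := by
    simp only [t, Pi.sub_apply, Pi.single_apply]
  rw [h2] at h1
  have h3 : (((M : ℤ) * ((if x = i then 1 else 0) - (if x = j then 1 else 0)) : ℤ) : ℚ) =
      ((∑ l, a l * δ l x : ℤ) : ℚ) := by
    push_cast
    rw [← h1, Finset.mul_sum]
    refine Finset.sum_congr rfl fun l _ => ?_
    rw [ha]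
    simp only [v]
    ring
  exact_mod_cast h3

/-- Among integer vectors with sum zero there are at most `n` with the same annihilator. -/
theorem exists_family {n : ℕ} {κ : Type*} (δ : κ → Fin (n + 1) → ℤ) (h0 : ∀ a, ∑ x, δ a x = 0) :
    ∃ (r : ℕ) (f : Fin r → κ), r ≤ n ∧ ∀ u : Fin (n + 1) → ℤ,
      (∀ l, ∑ x, δ (f l) x * u x = 0) → ∀ a, ∑ x, δ a x * u x = 0 := by
  classical
  let t : κ → (Fin n → ℚ) := fun a x => (δ a x.succ : ℚ)
  obtain ⟨f, hf, hspan, -⟩ := Submodule.exists_fun_fin_finrank_span_eq ℚ (Set.range t)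
  have hr : finrank ℚ (Submodule.span ℚ (Set.range t)) ≤ n := by
    have := Submodule.finrank_le (Submodule.span ℚ (Set.range t))
    rwa [Module.finrank_fin_fun] at this
  choose g hg using hf
  refine ⟨_, g, hr, fun u hu a => ?_⟩
  -- the linear functional
  let ψ : (Fin n → ℚ) →ₗ[ℚ] ℚ :=
    { toFun := fun z => ∑ x : Fin n, z x * ((u x.succ : ℚ) - u 0)
      map_add' := fun z z' => by
        simp only [Pi.add_apply, add_mul, Finset.sum_add_distrib]
      map_smul' := fun c z => by
        simp only [Pi.smul_apply, smul_eq_mul, RingHom.id_apply, Finset.mul_sum]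
        exact Finset.sum_congr rfl fun x _ => by ring }
  have hψ : ∀ a, ψ (t a) = ((∑ x, δ a x * u x : ℤ) : ℚ) := by
    intro a
    have h1 := h0 a
    rw [Fin.sum_univ_succ] at h1 ⊢
    have h2 : δ a 0 = - ∑ x : Fin n, δ a x.succ := by linarith
    rw [h2]
    push_cast
    change ∑ x : Fin n, (δ a x.succ : ℚ) * ((u x.succ : ℚ) - u 0) = _
    simp only [mul_sub, Finset.sum_sub_distrib, ← Finset.sum_mul]
    ring
  have h1 : ∀ z ∈ Submodule.span ℚ (Set.range f), ψ z = 0 := by
    intro z hz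
    have h2 : Submodule.span ℚ (Set.range f) ≤ LinearMap.ker ψ := by
      rw [Submodule.span_le]
      rintro _ ⟨l, rfl⟩
      rw [SetLike.mem_coe, LinearMap.mem_ker, ← hg l, hψ]
      exact_mod_cast hu l
    exact h2 hz
  have h2 := h1 (t a) (by
    rw [hspan]
    exact Submodule.subset_span ⟨a, rfl⟩)
  rw [hψ] at h2
  exact_mod_cast h2

end Pool.Agent.R869.Wd
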