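import Pool.Agent.R869.WComb
import Pool.Agent.R869.WLin
import Pool.Agent.R869.BTop
import Pool.Agent.W602.GT.PsDefs

/-!
Wide families of minimal relations between monomials: pluricanonical forms.
-/

set_option autoImplicit false

open FF MvPolynomial Pool.Agent.W603.LV Pool.Agent.W602.GT

namespace Pool.Agent.R869.Wd

variable {k K : Type} [Field k] [Field K] [Algebra k K] {n : ℕ}

/-- monomials -/
def mon (y : Fin (n + 1) → K) (α : Fin (n + 1) →₀ ℕ) : K := ∏ j, y j ^ α j

theorem mon_ne {y : Fin (n + 1) → K} {α : Fin (n + 1) →₀ ℕ} (h : ∀ j, y j = 0 → α j = 0) :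
    mon y α ≠ 0 := by
  unfold mon
  refine Finset.prod_ne_zero_iff.2 fun j _ => ?_
  by_cases hj : y j = 0
  · rw [h j hj, pow_zero]
    exact one_ne_zero
  · exact pow_ne_zero _ hj

theorem mon_ord (P : Place k K) {y : Fin (n + 1) → K} {α : Fin (n + 1) →₀ ℕ}
    (h : ∀ j, y j = 0 → α j = 0) : P.ord (mon y α) = wgt (fun j => P.ord (y j)) α := by
  unfold mon wgt
  rw [ord_prod' P _ _ fun j hj => Finset.prod_ne_zero_iff.1 (mon_ne h) j hj]
  exact Finset.sum_congr rfl fun j _ => P.ord_pow _ _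

/-- a wide family of minimal relations between the monomials in `y` -/
structure Fam (k : Type) {K : Type} [Field k] [Field K] [Algebra k K] {n : ℕ}
    (y : Fin (n + 1) → K) (s L : ℕ) where
  I : Finset (Fin (n + 1))
  ne : I.Nonempty
  r : ℕ
  G : Fin r → Circ k (mon y)
  a : ∀ l, Fin ((G l).m + 1)
  b : ∀ l, Fin ((G l).m + 1)
  d : Fin r → ℕ
  M : ℕ
  deg : ∀ l i, ∑ j, (G l).e i j = d l
  supp : ∀ l i j, j ∉ I → (G l).e i j = 0
  pos : 0 < s
  size : ∀ l, (G l).m + 1 ≤ s
  tot : ∑ l, tri (G l).m ≤ L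
  full : ∀ i ∈ I, ∀ j ∈ I, ∃ (M0 : ℕ) (c : Fin r → ℤ), 0 < M0 ∧ (∀ l, |c l| ≤ M) ∧
    ∀ x, (M0 : ℤ) * ((if x = i then 1 else 0) - (if x = j then 1 else 0)) =
      ∑ l, c l * (((G l).e (a l) x : ℤ) - (G l).e (b l) x)
  hI : ∀ j, j ∈ I ↔ y j ≠ 0

namespace Fam

variable {y : Fin (n + 1) → K} {s L : ℕ} (A : Fam k y s L)

/-- the family of exponent vectors -/
def comb : Comb n s L where
  I := A.I
  ne := A.ne
  r := A.r
  m := fun l => (A.G l).m
  e := fun l => (A.G l).e
  a := A.a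
  b := A.b
  d := A.d
  M := A.M
  deg := A.deg
  supp := A.supp
  pos := A.pos
  size := A.size
  tot := A.tot
  full := A.full

theorem supp' (l : Fin A.r) (i : Fin ((A.G l).m + 1)) (j : Fin (n + 1)) (hj : y j = 0) :
    (A.G l).e i j = 0 := A.supp l i j fun h => (A.hI j).1 h hj

theorem T_ne (l : Fin A.r) (i : Fin ((A.G l).m + 1)) : mon y ((A.G l).e i) ≠ 0 :=
  mon_ne fun j hj => A.supp' l i j hj

/-- the product of the Wronskians -/
noncomputable def GK (E : Derivation k K K) : K := ∏ l, WK E (A.G l) ^ A.comb.D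

/-- the weight -/
def wt : ℕ := A.comb.D * ∑ l, tri (A.G l).m

theorem GK_smul (δ : K) (D : Derivation k K K) : A.GK (δ • D) = δ ^ A.wt * A.GK D := by
  unfold GK wt
  have h1 : ∀ l, WK (δ • D) (A.G l) ^ A.comb.D =
      δ ^ (A.comb.D * tri (A.G l).m) * WK D (A.G l) ^ A.comb.D := by
    intro l
    rw [WK_smul, mul_pow, ← pow_mul, mul_comm (tri (A.G l).m)]
  rw [Finset.prod_congr rfl fun l _ => h1 l, Finset.prod_mul_distrib, Finset.prod_pow_eq_pow_sum,
    Finset.mul_sum]

theorem GK_ne {D : Derivation k K K} (hc : ∀ h, D h = 0 → ∃ c : k, h = algebraMap k K c) :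
    A.GK D ≠ 0 := Finset.prod_ne_zero_iff.2 fun l _ => pow_ne_zero _ (WK_ne hc (A.G l))

/-- the order of the product of the Wronskians -/
theorem GK_ge {P : Place k K} {E : Derivation k K K} {ε : ℤ}
    (h : ∀ l (i : Fin ((A.G l).m + 1)),
      Ge P (∑ b, P.ord (mon y ((A.G l).e (i.succAbove b))) - ε * tri (A.G l).m) (WK E (A.G l)))
    (p : ∀ l, Fin ((A.G l).m + 1)) :
    Ge P (A.comb.D * (∑ l, (∑ i, wgt (fun j => P.ord (y j)) ((A.G l).e i) -
      wgt (fun j => P.ord (y j)) ((A.G l).e (p l)))) - ε * A.wt) (A.GK E) := by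
  by_cases h0 : A.GK E = 0
  · exact Or.inl h0
  have hW : ∀ l, WK E (A.G l) ≠ 0 := by
    intro l hl
    apply h0
    unfold GK
    refine Finset.prod_eq_zero (Finset.mem_univ l) ?_
    rw [hl, zero_pow A.comb.D_pos.ne']
  right
  unfold GK
  rw [ord_prod' P _ _ fun l _ => pow_ne_zero _ (hW l)]
  have h1 : ∀ l, (∑ i, wgt (fun j => P.ord (y j)) ((A.G l).e i) -
      wgt (fun j => P.ord (y j)) ((A.G l).e (p l))) - ε * tri (A.G l).m ≤
      P.ord (WK E (A.G l)) := by
    intro l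
    have h2 := (h l (p l)).resolve_left (hW l)
    refine le_trans (le_of_eq ?_) h2
    rw [Fin.sum_univ_succAbove _ (p l)]
    have h3 : ∀ b, P.ord (mon y ((A.G l).e ((p l).succAbove b))) =
        wgt (fun j => P.ord (y j)) ((A.G l).e ((p l).succAbove b)) := fun b =>
      mon_ord P fun j hj => A.supp' l _ j hj
    rw [Finset.sum_congr rfl fun b _ => h3 b]
    ring
  have h2 : ∀ l, (A.comb.D : ℤ) * ((∑ i, wgt (fun j => P.ord (y j)) ((A.G l).e i) -
      wgt (fun j => P.ord (y j)) ((A.G l).e (p l))) - ε * tri (A.G l).m) ≤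
      P.ord (WK E (A.G l) ^ A.comb.D) := by
    intro l
    rw [P.ord_pow]
    exact mul_le_mul_of_nonneg_left (h1 l) (Nat.cast_nonneg _)
  have h3 := Finset.sum_le_sum fun l (_ : l ∈ Finset.univ) => h2 l
  refine le_trans (le_of_eq ?_) h3
  have h4 : ∀ x : Fin A.r → ℤ, (A.comb.D : ℤ) * ∑ l, x l - ε * A.wt =
      ∑ l, (A.comb.D : ℤ) * (x l - ε * tri (A.G l).m) := by
    intro x
    rw [← Finset.mul_sum, Finset.sum_sub_distrib, ← Finset.mul_sum]
    unfold wt
    push_cast
    ring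
  exact h4 _

/-- the twisting factor -/
noncomputable def Phi : K := (∏ j, y j ^ A.comb.cs j)⁻¹

theorem Phi_aux : (∏ j, y j ^ A.comb.cs j) ≠ 0 := by
  refine Finset.prod_ne_zero_iff.2 fun j _ => ?_
  by_cases hj : y j = 0
  · have h1 : A.comb.cs j = 0 := A.comb.cs_zero fun h => (A.hI j).1 h hj
    rw [h1, pow_zero]
    exact one_ne_zero
  · exact pow_ne_zero _ hj

theorem Phi_ord (P : Place k K) : P.ord A.Phi = - ∑ j, (A.comb.cs j : ℤ) * P.ord (y j) := by
  unfold Phi
  rw [P.ord_inv, ord_prod' P _ _ fun j hj => Finset.prod_ne_zero_iff.1 A.Phi_aux j hj]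
  congr 1
  exact Finset.sum_congr rfl fun j _ => P.ord_pow _ _

/-- the estimate without loss -/
theorem est0 {P : Place k K} {i0 : Fin (n + 1)} (h0 : y i0 ≠ 0) {E : Derivation k K K}
    (hW : ∀ l (i : Fin ((A.G l).m + 1)),
      Ge P (∑ b, P.ord (mon y ((A.G l).e (i.succAbove b))) - 0 * tri (A.G l).m) (WK E (A.G l)))
    {H : K} (hH : Ge P (A.I.card * P.ord (y i0)) H) : Ge P 0 (H * A.Phi * A.GK E) := by
  have hex : ∀ l, ∃ p : Fin ((A.G l).m + 1), ∀ i,
      wgt (fun j => P.ord (y j)) ((A.G l).e p) ≤ wgt (fun j => P.ord (y j)) ((A.G l).e i) := by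
    intro l
    obtain ⟨p, -, hp⟩ := Finset.exists_min_image Finset.univ
      (fun i => wgt (fun j => P.ord (y j)) ((A.G l).e i)) ⟨0, Finset.mem_univ _⟩
    exact ⟨p, fun i => hp i (Finset.mem_univ i)⟩
  choose p hp using hex
  have h1 := (hH.mul (ge_ord P A.Phi)).mul (A.GK_ge hW p)
  refine h1.mono ?_
  rw [A.Phi_ord]
  have h2 := A.comb.core0 (fun j => P.ord (y j)) (μ := P.ord (y i0)) ⟨i0, (A.hI i0).2 h0, rfl⟩
    (fun l => wgt (fun j => P.ord (y j)) ((A.G l).e (p l))) fun l i => hp l i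
  have h3 : (0 : ℤ) ≤ (A.I.card : ℤ) * P.ord (y i0) - ∑ j, (A.comb.cs j : ℤ) * P.ord (y j) +
      (A.comb.D : ℤ) * ∑ l, (∑ i, wgt (fun j => P.ord (y j)) ((A.G l).e i) -
        wgt (fun j => P.ord (y j)) ((A.G l).e (p l))) := h2
  rw [zero_mul, sub_zero]
  linarith

/-- the estimate with loss -/
theorem est1 {P : Place k K} {i0 : Fin (n + 1)} (h0 : y i0 ≠ 0) {E : Derivation k K K}
    (hW : ∀ l (i : Fin ((A.G l).m + 1)),
      Ge P (∑ b, P.ord (mon y ((A.G l).e (i.succAbove b))) - 1 * tri (A.G l).m) (WK E (A.G l)))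
    (hX : ((s * L + 1 : ℕ) : ℤ) ≤ A.comb.X fun j => P.ord (y j))
    {H : K} (hH : Ge P (A.I.card * P.ord (y i0)) H) : Ge P 0 (H * A.Phi * A.GK E) := by
  have hex : ∀ l, ∃ p : Fin ((A.G l).m + 1), ∀ i,
      wgt (fun j => P.ord (y j)) ((A.G l).e p) ≤ wgt (fun j => P.ord (y j)) ((A.G l).e i) := by
    intro l
    obtain ⟨p, -, hp⟩ := Finset.exists_min_image Finset.univ
      (fun i => wgt (fun j => P.ord (y j)) ((A.G l).e i)) ⟨0, Finset.mem_univ _⟩
    exact ⟨p, fun i => hp i (Finset.mem_univ i)⟩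
  choose p hp using hex
  have h1 := (hH.mul (ge_ord P A.Phi)).mul (A.GK_ge hW p)
  refine h1.mono ?_
  rw [A.Phi_ord]
  have h2 := A.comb.core1 (fun j => P.ord (y j)) (μ := P.ord (y i0)) ⟨i0, (A.hI i0).2 h0, rfl⟩
    (fun l => wgt (fun j => P.ord (y j)) ((A.G l).e (p l))) (fun l i => hp l i) hX
  have h3 : (A.wt : ℤ) ≤ (A.I.card : ℤ) * P.ord (y i0) - ∑ j, (A.comb.cs j : ℤ) * P.ord (y j) +
      (A.comb.D : ℤ) * ∑ l, (∑ i, wgt (fun j => P.ord (y j)) ((A.G l).e i) -
        wgt (fun j => P.ord (y j)) ((A.G l).e (p l))) := h2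
  linarith

/-- the ratios of the monomials -/
def rts : Set K := {x | ∃ l i j, x = mon y ((A.G l).e i) / mon y ((A.G l).e j)}

theorem rts_alg (hgen : Algebra.IsAlgebraic (coords k y) K) :
    Algebra.IsAlgebraic (IntermediateField.adjoin k A.rts) K := by
  by_contra halg
  set F := IntermediateField.adjoin k A.rts with hF
  obtain ⟨i, j, hj, hg⟩ := exists_transc hgen F halg
  by_cases hi : y i = 0
  · rw [hi, zero_div] at hg
    exact hg isAlgebraic_zero
  obtain ⟨M0, c, hM0, -, h⟩ := A.full i ((A.hI i).2 hi) j ((A.hI j).2 hj)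
  apply hg
  -- a power of the ratio
  have hq : ∀ l, mon y ((A.G l).e (A.a l)) / mon y ((A.G l).e (A.b l)) =
      ∏ x, (y x) ^ (((A.G l).e (A.a l) x : ℤ) - (A.G l).e (A.b l) x) := by
    intro l
    unfold mon
    rw [← Finset.prod_div_distrib]
    refine Finset.prod_congr rfl fun x _ => ?_
    by_cases hx : y x = 0
    · rw [A.supp' l _ x hx, A.supp' l _ x hx]
      simp
    · rw [zpow_sub₀ hx, zpow_natCast, zpow_natCast]
  have hpw : (y i / y j) ^ M0 =
      ∏ l, (mon y ((A.G l).e (A.a l)) / mon y ((A.G l).e (A.b l))) ^ c l := by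
    have e1 : ∏ l, (mon y ((A.G l).e (A.a l)) / mon y ((A.G l).e (A.b l))) ^ c l =
        ∏ x, (y x) ^ (∑ l, c l * (((A.G l).e (A.a l) x : ℤ) - (A.G l).e (A.b l) x)) := by
      rw [Finset.prod_congr rfl fun l _ => by rw [hq l, ← Finset.prod_zpow], Finset.prod_comm]
      refine Finset.prod_congr rfl fun x _ => ?_
      by_cases hx : y x = 0
      · have h1 : ∀ l, (((A.G l).e (A.a l) x : ℤ) - (A.G l).e (A.b l) x) = 0 := fun l => by
          rw [A.supp' l _ x hx, A.supp' l _ x hx]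
          simp
        simp only [h1, mul_zero, Finset.sum_const_zero, zpow_zero, one_zpow, Finset.prod_const_one]
      · have h2 : ∀ S : Finset (Fin A.r), ∏ l ∈ S,
            ((y x) ^ (((A.G l).e (A.a l) x : ℤ) - (A.G l).e (A.b l) x)) ^ c l =
            (y x) ^ (∑ l ∈ S, c l * (((A.G l).e (A.a l) x : ℤ) - (A.G l).e (A.b l) x)) := by
          intro S
          induction S using Finset.induction_on with
          | empty => simp
          | insert l S hl ih =>
            rw [Finset.prod_insert hl, Finset.sum_insert hl, ih, zpow_add₀ hx, ← zpow_mul,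
              mul_comm (c l)]
        exact h2 Finset.univ
    rw [e1]
    have e2 : ∀ x, (y x) ^ (∑ l, c l * (((A.G l).e (A.a l) x : ℤ) - (A.G l).e (A.b l) x)) =
        (if x = i then (y x) ^ M0 else 1) / (if x = j then (y x) ^ M0 else 1) := by
      intro x
      rw [← h x]
      by_cases hxi : x = i
      · by_cases hxj : x = j
        · rw [if_pos hxi, if_pos hxj, if_pos hxi, if_pos hxj, sub_self, mul_zero, zpow_zero,
            div_self (pow_ne_zero _ (by rw [hxi]; exact hi))]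
        · rw [if_pos hxi, if_neg hxj, if_pos hxi, if_neg hxj, sub_zero, mul_one, zpow_natCast,
            div_one]
      · by_cases hxj : x = j
        · rw [if_neg hxi, if_pos hxj, if_neg hxi, if_pos hxj, zero_sub, mul_neg, mul_one, zpow_neg,
            zpow_natCast, one_div]
        · rw [if_neg hxi, if_neg hxj, if_neg hxi, if_neg hxj, sub_self, mul_zero, zpow_zero,
            div_one]
    rw [Finset.prod_congr rfl fun x _ => e2 x, Finset.prod_div_distrib,
      Finset.prod_ite_eq' Finset.univ i, Finset.prod_ite_eq' Finset.univ j]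
    simp only [Finset.mem_univ, if_true]
    rw [div_pow]
  have hmem : (y i / y j) ^ M0 ∈ F := by
    rw [hpw]
    refine prod_mem fun l _ => zpow_mem ?_ _
    exact IntermediateField.subset_adjoin k _ ⟨l, _, _, rfl⟩
  have h1 : IsAlgebraic F ((y i / y j) ^ M0) := by
    have := isAlgebraic_algebraMap (R := F) (A := K) ⟨_, hmem⟩
    exact this
  exact h1.of_pow hM0

end Fam

end Pool.Agent.R869.Wd
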