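import Pool.Agent.R869.WAlg

/-!
Wide families of minimal relations between monomials: log general type.
-/

set_option autoImplicit false

open FF MvPolynomial Pool.Agent.W603.LV Pool.Agent.W602.GT
open Pool.Agent.W603.GR (exists_min)

namespace Pool.Agent.R869.Wd

variable {k K : Type} [Field k] [Field K] [Algebra k K] {n : ℕ}

namespace Fam

variable {y : Fin (n + 1) → K} {s L : ℕ} (A : Fam k y s L)

theorem lgt [IsAlgClosed k] [CharZero k] {w : ℕ} (hw : 0 < w) (htr : Algebra.trdeg k K = w)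
    (hgen : Algebra.IsAlgebraic (coords k y) K) {U : Set (Fin (n + 1))} (hU : ∀ j ∈ U, y j ≠ 0)
    (hwide : ∀ u : Fin (n + 1) → ℤ, (∃ i ∈ A.I, ∃ j ∈ A.I, u i ≠ u j) →
      (∀ i ∈ U, ∀ j ∈ A.I, u i ≤ u j) → ((s * L + 1 : ℕ) : ℤ) ≤ A.comb.X u) :
    LogGeneralType k K w (OffU U y) := by
  classical
  obtain ⟨i1, hi1⟩ := A.ne
  have hy1 : y i1 ≠ 0 := (A.hI i1).1 hi1
  have hy0 : y ≠ 0 := fun h => hy1 (congrFun h i1)
  obtain ⟨tb, htb, htb2⟩ := basis_in htr A.rts (A.rts_alg hgen)
  choose la ia ib hab using htb2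
  -- the coordinates
  obtain ⟨sb, hsb, hs2⟩ := basis_in htr _ (alg_mono (coords_eq (k := k) y hy1) hgen)
  choose σ hσ using hs2
  have hσ' : ∀ i, sb i = y (i1.succAbove (σ i)) / y i1 := fun i => (hσ i).symm
  -- the derivation
  obtain ⟨lam, hlam⟩ := exists_lam k w
  obtain ⟨D0, hD0⟩ := exists_der tb htb (fun j => algebraMap k K (lam j) * tb j)
  have ht0 : ∀ j, tb j ≠ 0 := fun j => by
    rw [hab]
    exact div_ne_zero (A.T_ne _ _) (A.T_ne _ _)
  have hconst : ∀ h, D0 h = 0 → ∃ c : k, h = algebraMap k K c := fun h hh =>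
    const_of_der tb htb lam hlam D0 hD0 hh
  have hpt : (∏ j, tb j) ≠ 0 := Finset.prod_ne_zero_iff.2 fun j _ => ht0 j
  have hGK : A.GK D0 ≠ 0 := A.GK_ne hconst
  set N := A.wt with hN
  have hpos : 0 < N := by
    rw [Nat.pos_iff_ne_zero]
    intro h0
    have h1 : ∑ l, tri (A.G l).m = 0 := by
      have h2 : A.comb.D * ∑ l, tri (A.G l).m = 0 := h0
      exact (Nat.mul_eq_zero.1 h2).resolve_left A.comb.D_pos.ne'
    have h2 := (Finset.sum_eq_zero_iff.1 h1) (la ⟨0, hw⟩) (Finset.mem_univ _)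
    have h3 : (A.G (la ⟨0, hw⟩)).m ≤ 1 := by
      by_contra hcon
      rw [tri, Finset.sum_eq_zero_iff] at h2
      have := h2 ⟨1, by omega⟩ (Finset.mem_univ _)
      simp at this
    set l := la ⟨0, hw⟩ with hl
    obtain ⟨c, hc⟩ := ratio_const (k := k) h3 (cmem (A.G l))
      (fun i => smul_ne_zero ((A.G l).c_ne i) (A.T_ne l i)) (cmem_sum (A.G l)) (ia ⟨0, hw⟩)
      (ib ⟨0, hw⟩)
    have h4 := htb.1.transcendental ⟨0, hw⟩
    apply h4
    have ca := (A.G l).c_ne (ia ⟨0, hw⟩)
    have cb := (A.G l).c_ne (ib ⟨0, hw⟩)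
    have ca' : algebraMap k K ((A.G l).c (ia ⟨0, hw⟩)) ≠ 0 := (map_ne_zero _).2 ca
    have cb' : algebraMap k K ((A.G l).c (ib ⟨0, hw⟩)) ≠ 0 := (map_ne_zero _).2 cb
    have h5 : tb ⟨0, hw⟩ = algebraMap k K (c * (A.G l).c (ib ⟨0, hw⟩) /
        (A.G l).c (ia ⟨0, hw⟩)) := by
      unfold cmem at hc
      rw [Algebra.smul_def, Algebra.smul_def] at hc
      rw [hab, map_div₀, map_mul, ← hc]
      have hr := A.T_ne l (ib ⟨0, hw⟩)
      field_simp
      exact mul_div_cancel_right₀ _ hr
    rw [h5]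
    exact isAlgebraic_algebraMap _
  set κ := A.I.card with hκ
  have hκ0 : 0 < κ := Finset.card_pos.2 A.ne
  let H : Fin (w + 1) → K :=
    Fin.cases (y i1 ^ κ) fun i => y (i1.succAbove (σ i)) * y i1 ^ (κ - 1)
  have hH0 : H 0 = y i1 ^ κ := rfl
  have hHs : ∀ i : Fin w, H i.succ = sb i * H 0 := by
    intro i
    change y (i1.succAbove (σ i)) * y i1 ^ (κ - 1) = sb i * y i1 ^ κ
    rw [hσ' i]
    obtain ⟨κ', hκ'⟩ : ∃ κ', κ = κ' + 1 := ⟨κ - 1, by omega⟩
    rw [hκ', Nat.add_sub_cancel, pow_succ]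
    field_simp
  have hHge : ∀ (P : Place k K) (i0 : Fin (n + 1)), (∀ i, y i ≠ 0 → P.ord (y i0) ≤ P.ord (y i)) →
      ∀ j, Ge P (κ * P.ord (y i0)) (H j) := by
    intro P i0 hmin j
    have hyc : ∀ i, Ge P (P.ord (y i0)) (y i) := fun i => by
      by_cases h : y i = 0
      · exact Or.inl h
      · exact Or.inr (hmin i h)
    refine Fin.cases ?_ (fun i => ?_) j
    · exact (hyc i1).pow κ
    · change Ge P (κ * P.ord (y i0)) (y (i1.succAbove (σ i)) * y i1 ^ (κ - 1))
      refine ((hyc _).mul ((hyc i1).pow (κ - 1))).mono (le_of_eq ?_)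
      rw [Nat.cast_sub (by omega : 1 ≤ κ)]
      push_cast
      ring
  have hPhi : A.Phi ≠ 0 := inv_ne_zero A.Phi_aux
  let g : Fin (w + 1) → K := fun j => H j * A.Phi * A.GK D0 / (∏ j, tb j) ^ N
  have hg0 : g 0 ≠ 0 := div_ne_zero (mul_ne_zero (mul_ne_zero (pow_ne_zero _ hy1) hPhi) hGK)
    (pow_ne_zero _ hpt)
  have hgs : ∀ i : Fin w, g i.succ / g 0 = sb i := by
    intro i
    change H i.succ * A.Phi * A.GK D0 / (∏ j, tb j) ^ N /
      (H 0 * A.Phi * A.GK D0 / (∏ j, tb j) ^ N) = sb i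
    rw [hHs]
    have : H 0 ≠ 0 := pow_ne_zero _ hy1
    field_simp
  have hkey : ∀ (D : Fin w → Derivation k K K) (j : Fin (w + 1)),
      form tb N (g j) D = H j * A.Phi * A.GK (con tb lam D) := by
    intro D j
    have h1 : con tb lam D = (lmat tb D).det • D0 := by
      apply der_ext tb htb
      intro l
      rw [con_t tb lam D ht0 l, Derivation.coe_smul, Pi.smul_apply, hD0, smul_eq_mul]
      ring
    have h2 : (Matrix.of fun i j => D i (tb j)).det = (∏ j, tb j) * (lmat tb D).det := by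
      rw [← Matrix.det_mul_row]
      congr 1
      ext i j
      simp only [Matrix.of_apply, lmat]
      have := ht0 j
      field_simp
    unfold form
    rw [h1, A.GK_smul, h2, mul_pow, ← hN]
    simp only [g]
    field_simp
  refine ⟨htr, N, hpos, fun j => form tb N (g j), fun j => form_pluri tb N (g j), ?_, ?_, ?_⟩
  · -- logarithmic poles
    intro P _ j D hD
    obtain ⟨i0, h0, hmin⟩ := exists_min P hy0
    change P.Reg (form tb N (g j) D)
    rw [hkey, reg_iff_ge]
    have hE : ∀ x : K, x ≠ 0 → Ge P (-0) (con tb lam D x / x) := fun x hx => by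
      rw [neg_zero]
      exact con_log tb lam D hD x
    exact A.est0 h0 (E := con tb lam D) (fun l i => WK_log hE (A.G l) i) (hHge P i0 hmin j)
  · -- regularity
    intro P _ hP j D hD
    obtain ⟨i0, h0, hmin⟩ := exists_min P hy0
    change P.Reg (form tb N (g j) D)
    rw [hkey, reg_iff_ge]
    by_cases hall : ∃ i ∈ A.I, ∃ j ∈ A.I, P.ord (y i) ≠ P.ord (y j)
    · have hE : ∀ x : K, x ≠ 0 → Ge P (-1) (con tb lam D x / x) := fun x hx =>
        con_pole tb lam D hD ht0 hx
      refine A.est1 h0 (E := con tb lam D) (fun l i => WK_log hE (A.G l) i)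
        (hwide _ hall fun i hi j hj => ?_) (hHge P i0 hmin j)
      unfold OffU at hP
      push Not at hP
      exact hP i hi j ((A.hI j).1 hj)
    · push Not at hall
      -- all monomials in a relation have the same order
      have hTo : ∀ l (i : Fin ((A.G l).m + 1)),
          P.ord (mon y ((A.G l).e i)) = A.d l * P.ord (y i1) := by
        intro l i
        rw [mon_ord P fun j hj => A.supp' l i j hj]
        unfold wgt
        have h1 : ∀ j, (((A.G l).e i) j : ℤ) * P.ord (y j) =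
            (((A.G l).e i) j : ℤ) * P.ord (y i1) := by
          intro j
          by_cases hj : j ∈ A.I
          · rw [hall j hj i1 hi1]
          · rw [A.supp l i j hj, Nat.cast_zero, zero_mul, zero_mul]
        rw [Finset.sum_congr rfl fun j _ => h1 j, ← Finset.sum_mul]
        congr 1
        exact_mod_cast A.deg l i
      have ht0' : ∀ j, P.ord (tb j) = 0 := by
        intro j
        rw [hab, P.ord_div (A.T_ne _ _) (A.T_ne _ _), hTo, hTo, sub_self]
      have hE := con_reg tb lam D hD ht0 ht0'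
      refine A.est0 h0 (E := con tb lam D) (fun l i => ?_) (hHge P i0 hmin j)
      rw [zero_mul, sub_zero]
      -- restrict to the members of the relation
      have h1 := WK_reg (T := fun i : Fin ((A.G l).m + 1) => mon y ((A.G l).e i)) hE
        (A.T_ne l 0) (fun i => by rw [hTo, hTo])
        ⟨(A.G l).m, id, Function.injective_id, (A.G l).c, (A.G l).c_ne, (A.G l).rel, (A.G l).li⟩ i
      exact h1
  · obtain ⟨D, hD⟩ := exists_dual htb
    have hf : ∀ j, form tb N (g j) D = g j := fun j => by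
      unfold form
      rw [hD, Matrix.det_one, one_pow, mul_one]
    refine ⟨D, by change form tb N (g 0) D ≠ 0; rw [hf]; exact hg0, ?_⟩
    simp only [hf, hgs]
    exact hsb.1

end Fam

end Pool.Agent.R869.Wd
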