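import Mathlib.Algebra.Ring.Basic
import Mathlib.Data.Finsupp.Basic
import Mathlib.Algebra.BigOperators.Fin

/-!
Weights of exponent vectors.
-/

set_option autoImplicit false

namespace Pool.Agent.R869.Wd

/-- the weight of the exponent vector `α`, where `x_j` has weight `u j` -/
def wgt {R : Type*} [CommRing R] {m : ℕ} (u : Fin m → R) (α : Fin m →₀ ℕ) : R :=
  ∑ j, (α j : R) * u j

end Pool.Agent.R869.Wd
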