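import Pool.Agent.R869.Tree2
import Pool.Agent.R869.WWgt
import Mathlib.Algebra.Order.BigOperators.Ring.Finset
import Mathlib.Data.Nat.Factorial.Basic

/-!
Wide families of exponent vectors: the numerical estimates.
-/

set_option autoImplicit false

namespace Pool.Agent.R869.Wd

open Pool.Agent.R869

variable {n : ℕ}

/-- families of exponent vectors with distinguished members whose differences generate all
differences of the coordinate vectors, up to torsion -/
structure Comb (n s L : ℕ) where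
  I : Finset (Fin (n + 1))
  ne : I.Nonempty
  r : ℕ
  m : Fin r → ℕ
  e : ∀ l, Fin (m l + 1) → (Fin (n + 1) →₀ ℕ)
  a : ∀ l, Fin (m l + 1)
  b : ∀ l, Fin (m l + 1)
  d : Fin r → ℕ
  M : ℕ
  deg : ∀ l i, ∑ j, e l i j = d l
  supp : ∀ l i j, j ∉ I → e l i j = 0
  pos : 0 < s
  size : ∀ l, m l + 1 ≤ s
  tot : ∑ l, tri (m l) ≤ L
  full : ∀ i ∈ I, ∀ j ∈ I, ∃ (M0 : ℕ) (c : Fin r → ℤ), 0 < M0 ∧ (∀ l, |c l| ≤ M) ∧
    ∀ x, (M0 : ℤ) * ((if x = i then 1 else 0) - (if x = j then 1 else 0)) =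
      ∑ l, c l * ((e l (a l) x : ℤ) - e l (b l) x)

namespace Comb

variable {s L : ℕ} (C : Comb n s L)

/-- the width -/
def X {R : Type*} [CommRing R] [LinearOrder R] (u : Fin (n + 1) → R) : R :=
  ∑ l, |wgt u (C.e l (C.a l)) - wgt u (C.e l (C.b l))|

section

variable {R : Type*} [CommRing R] [LinearOrder R] [IsStrictOrderedRing R]

theorem X_nonneg (u : Fin (n + 1) → R) : 0 ≤ C.X u := Finset.sum_nonneg fun _ _ => abs_nonneg _

theorem diff_le (u : Fin (n + 1) → R) {i j : Fin (n + 1)} (hi : i ∈ C.I) (hj : j ∈ C.I) :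
    u i - u j ≤ C.M * C.X u := by
  obtain ⟨M0, c, hM0, hc, h⟩ := C.full i hi j hj
  have hX := C.X_nonneg u
  rcases le_or_gt (u i - u j) 0 with h0 | h0
  · exact h0.trans (mul_nonneg (Nat.cast_nonneg _) hX)
  have h1 : (M0 : R) * (u i - u j) = ∑ l, (c l : R) *
      (wgt u (C.e l (C.a l)) - wgt u (C.e l (C.b l))) := by
    have h2 : ∀ x, (M0 : R) * ((if x = i then 1 else 0) - (if x = j then 1 else 0)) =
        ∑ l, (c l : R) * ((C.e l (C.a l) x : R) - C.e l (C.b l) x) := by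
      intro x
      have h3 := congrArg (Int.cast : ℤ → R) (h x)
      push_cast at h3
      exact h3
    have h4 : ∑ x, ((M0 : R) * ((if x = i then 1 else 0) - (if x = j then 1 else 0))) * u x =
        (M0 : R) * (u i - u j) := by
      have h5 : ∀ x, ((M0 : R) * ((if x = i then 1 else 0) - (if x = j then 1 else 0))) * u x =
          M0 * ((if x = i then u x else 0) - (if x = j then u x else 0)) := by
        intro x
        split_ifs <;> ring
      rw [Finset.sum_congr rfl fun x _ => h5 x, ← Finset.mul_sum, Finset.sum_sub_distrib,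
        Finset.sum_ite_eq' Finset.univ i, Finset.sum_ite_eq' Finset.univ j]
      simp
    rw [← h4, Finset.sum_congr rfl fun x _ => by rw [h2 x, Finset.sum_mul], Finset.sum_comm]
    refine Finset.sum_congr rfl fun l _ => ?_
    unfold wgt
    rw [← Finset.sum_sub_distrib, Finset.mul_sum]
    exact Finset.sum_congr rfl fun x _ => by ring
  have h2 : (M0 : R) * (u i - u j) ≤ C.M * C.X u := by
    rw [h1]
    unfold X
    rw [Finset.mul_sum]
    refine Finset.sum_le_sum fun l _ => ?_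
    refine (le_abs_self _).trans ?_
    rw [abs_mul]
    refine mul_le_mul_of_nonneg_right ?_ (abs_nonneg _)
    have h3 : ((|c l| : ℤ) : R) ≤ ((C.M : ℤ) : R) := by exact_mod_cast hc l
    push_cast at h3
    exact h3
  refine le_trans ?_ h2
  have h3 : (1 : R) ≤ M0 := by exact_mod_cast hM0
  exact le_mul_of_one_le_left h0.le h3

end

/-- the multiplier -/
def D1 : ℕ := (n + 1) * C.M * (s * L + 1) + 1

/-- the common exponent -/
def D : ℕ := s.factorial * C.D1

/-- the lower bound for the weights -/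
def q0 : ℕ := (s - 1).factorial * C.D1

/-- the weights -/
def q (l : Fin C.r) : ℕ := C.D / (C.m l + 1)

theorem D_pos : 0 < C.D := Nat.mul_pos (Nat.factorial_pos _) (Nat.succ_pos _)

theorem q_mul (l : Fin C.r) : C.q l * (C.m l + 1) = C.D := by
  unfold q
  apply Nat.div_mul_cancel
  unfold D
  exact Dvd.dvd.mul_right (Nat.dvd_factorial (Nat.succ_pos _) (C.size l)) _

theorem D_eq : C.D = s * C.q0 := by
  unfold D q0
  obtain ⟨t, rfl⟩ : ∃ t, s = t + 1 := ⟨s - 1, by have := C.pos; omega⟩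
  rw [Nat.factorial_succ, Nat.add_sub_cancel, mul_assoc]

theorem q0_le (l : Fin C.r) : C.q0 ≤ C.q l := by
  have h1 := C.q_mul l
  rw [C.D_eq] at h1
  have h2 := C.size l
  by_contra hcon
  push Not at hcon
  have h3 : C.q l * (C.m l + 1) < C.q0 * (C.m l + 1) :=
    Nat.mul_lt_mul_of_pos_right hcon (Nat.succ_pos _)
  have h4 : C.q0 * (C.m l + 1) ≤ C.q0 * s := Nat.mul_le_mul_left _ h2
  rw [h1, mul_comm s] at h3
  exact absurd (lt_of_lt_of_le h3 h4) (lt_irrefl _)

theorem q0_ge : (n + 1) * C.M * (s * L + 1) ≤ C.q0 := by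
  unfold q0 D1
  exact le_trans (Nat.le_succ _) (Nat.le_mul_of_pos_left _ (Nat.factorial_pos _))

/-- the exponents -/
def cs (j : Fin (n + 1)) : ℕ :=
  ∑ l, C.q l * C.m l * ∑ i, C.e l i j + if j ∈ C.I then 1 else 0

theorem cs_zero {j : Fin (n + 1)} (hj : j ∉ C.I) : C.cs j = 0 := by
  unfold cs
  rw [if_neg hj, add_zero]
  refine Finset.sum_eq_zero fun l _ => ?_
  rw [Finset.sum_eq_zero fun i _ => C.supp l i j hj, mul_zero]

section

variable {R : Type*} [CommRing R] [LinearOrder R] [IsStrictOrderedRing R]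

/-- The main inequality. -/
theorem core (u : Fin (n + 1) → R) {μ : R} (hμ : ∃ i ∈ C.I, u i = μ)
    (mn : Fin C.r → R) (hmn : ∀ l i, mn l ≤ wgt u (C.e l i)) :
    ((C.q0 : R) - (n + 1) * C.M) * C.X u ≤ C.I.card * μ - ∑ j, (C.cs j : R) * u j +
      C.D * ∑ l, (∑ i, wgt u (C.e l i) - mn l) := by
  have hX := C.X_nonneg u
  have h1 : ∑ j, (C.cs j : R) * u j = ∑ l, (C.q l * C.m l : R) * ∑ i, wgt u (C.e l i) +
      ∑ j ∈ C.I, u j := by
    have e1 : ∀ j, (C.cs j : R) * u j = ∑ l, (C.q l * C.m l : R) * ∑ i, (C.e l i j : R) * u j +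
        if j ∈ C.I then u j else 0 := by
      intro j
      unfold cs
      push_cast
      rw [add_mul, Finset.sum_mul]
      congr 1
      · refine Finset.sum_congr rfl fun l _ => ?_
        rw [mul_assoc, Finset.sum_mul]
      · split_ifs <;> ring
    rw [Finset.sum_congr rfl fun j _ => e1 j, Finset.sum_add_distrib]
    congr 1
    · rw [Finset.sum_comm]
      refine Finset.sum_congr rfl fun l _ => ?_
      rw [← Finset.mul_sum, Finset.sum_comm]
      rfl
    · rw [← Finset.sum_filter, Finset.filter_mem_eq_inter, Finset.univ_inter]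
  have h2 : ∑ j ∈ C.I, u j - C.I.card * μ ≤ (n + 1) * C.M * C.X u := by
    obtain ⟨i0, hi0, rfl⟩ := hμ
    have e1 : ∑ j ∈ C.I, u j - C.I.card * u i0 = ∑ j ∈ C.I, (u j - u i0) := by
      rw [Finset.sum_sub_distrib, Finset.sum_const, nsmul_eq_mul]
    rw [e1]
    have e2 : ∑ j ∈ C.I, (u j - u i0) ≤ ∑ _j ∈ C.I, C.M * C.X u :=
      Finset.sum_le_sum fun j hj => C.diff_le u hj hi0
    refine e2.trans ?_
    rw [Finset.sum_const, nsmul_eq_mul, ← mul_assoc]
    refine mul_le_mul_of_nonneg_right (mul_le_mul_of_nonneg_right ?_ (Nat.cast_nonneg _)) hX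
    have h3 := Finset.card_le_univ C.I
    rw [Fintype.card_fin] at h3
    exact_mod_cast h3
  have h3 : ∀ l, (C.q0 : R) * |wgt u (C.e l (C.a l)) - wgt u (C.e l (C.b l))| ≤
      C.D * (∑ i, wgt u (C.e l i) - mn l) - (C.q l * C.m l : R) * ∑ i, wgt u (C.e l i) := by
    intro l
    have e1 : (C.D : R) = C.q l * (C.m l + 1) := by
      have := C.q_mul l
      rw [← this]
      push_cast
      ring
    have e2 : ∑ i, (wgt u (C.e l i) - mn l) = ∑ i, wgt u (C.e l i) - (C.m l + 1) * mn l := by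
      rw [Finset.sum_sub_distrib, Finset.sum_const, Finset.card_univ, Fintype.card_fin,
        nsmul_eq_mul]
      push_cast
      ring
    have e3 : C.D * (∑ i, wgt u (C.e l i) - mn l) - (C.q l * C.m l : R) * ∑ i, wgt u (C.e l i) =
        C.q l * ∑ i, (wgt u (C.e l i) - mn l) := by
      rw [e1, e2]
      ring
    rw [e3]
    have e4 : |wgt u (C.e l (C.a l)) - wgt u (C.e l (C.b l))| ≤
        ∑ i, (wgt u (C.e l i) - mn l) := by
      have hnn : ∀ i ∈ Finset.univ, 0 ≤ wgt u (C.e l i) - mn l := fun i _ =>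
        sub_nonneg.2 (hmn l i)
      rw [abs_le]
      constructor
      · have h5 := Finset.single_le_sum hnn (Finset.mem_univ (C.b l))
        have h6 := hmn l (C.a l)
        linarith
      · have h5 := Finset.single_le_sum hnn (Finset.mem_univ (C.a l))
        have h6 := hmn l (C.b l)
        linarith
    refine mul_le_mul ?_ e4 (abs_nonneg _) (Nat.cast_nonneg _)
    exact_mod_cast C.q0_le l
  have h4 := Finset.sum_le_sum fun l (_ : l ∈ Finset.univ) => h3 l
  rw [← Finset.mul_sum, Finset.sum_sub_distrib, ← Finset.mul_sum] at h4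
  have h5 : ((C.q0 : R) - (n + 1) * C.M) * C.X u = C.q0 * C.X u - (n + 1) * C.M * C.X u := by ring
  rw [h1, h5]
  unfold X at h2 ⊢
  linarith

theorem core0 (u : Fin (n + 1) → R) {μ : R} (hμ : ∃ i ∈ C.I, u i = μ)
    (mn : Fin C.r → R) (hmn : ∀ l i, mn l ≤ wgt u (C.e l i)) :
    0 ≤ C.I.card * μ - ∑ j, (C.cs j : R) * u j +
      C.D * ∑ l, (∑ i, wgt u (C.e l i) - mn l) := by
  refine le_trans (mul_nonneg ?_ (C.X_nonneg u)) (C.core u hμ mn hmn)
  have h1 : (n + 1) * C.M ≤ C.q0 :=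
    le_trans (Nat.le_mul_of_pos_right _ (Nat.succ_pos _)) C.q0_ge
  have h2 : (((n + 1) * C.M : ℕ) : R) ≤ C.q0 := by exact_mod_cast h1
  push_cast at h2
  linarith

theorem core1 (u : Fin (n + 1) → ℤ) {μ : ℤ} (hμ : ∃ i ∈ C.I, u i = μ)
    (mn : Fin C.r → ℤ) (hmn : ∀ l i, mn l ≤ wgt u (C.e l i)) (hX : (s * L + 1 : ℕ) ≤ C.X u) :
    ((C.D * ∑ l, tri (C.m l) : ℕ) : ℤ) ≤ C.I.card * μ - ∑ j, (C.cs j : ℤ) * u j +
      C.D * ∑ l, (∑ i, wgt u (C.e l i) - mn l) := by
  refine le_trans ?_ (C.core u hμ mn hmn)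
  have h1 := C.q0_ge
  have h2 : (((n + 1) * C.M * (s * L + 1) : ℕ) : ℤ) ≤ C.q0 := by exact_mod_cast h1
  have h3 : ((C.D * ∑ l, tri (C.m l) : ℕ) : ℤ) ≤ s * C.q0 * L := by
    rw [C.D_eq]
    exact_mod_cast Nat.mul_le_mul_left _ C.tot
  refine h3.trans ?_
  push_cast at h2 hX
  have h4 : (0 : ℤ) ≤ (n + 1) * C.M := by positivity
  have h5 : ((C.q0 : ℤ) - (n + 1) * C.M) * (s * L + 1) ≤
      ((C.q0 : ℤ) - (n + 1) * C.M) * C.X u := by
    refine mul_le_mul_of_nonneg_left hX ?_
    have h6 : (0 : ℤ) ≤ s * L := by positivity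
    nlinarith
  nlinarith

/-- the total of the exponents -/
theorem cs_total : ∑ j, C.cs j + C.D * ∑ l, C.d l =
    C.I.card + C.D * ∑ l, (C.m l + 1) * C.d l := by
  have h1 : ∑ j, C.cs j = ∑ l, C.q l * C.m l * ((C.m l + 1) * C.d l) + C.I.card := by
    unfold cs
    rw [Finset.sum_add_distrib]
    congr 1
    · rw [Finset.sum_comm]
      refine Finset.sum_congr rfl fun l _ => ?_
      rw [← Finset.mul_sum, Finset.sum_comm, Finset.sum_congr rfl fun i _ => C.deg l i,
        Finset.sum_const, Finset.card_univ, Fintype.card_fin, smul_eq_mul]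
    · rw [← Finset.sum_filter, Finset.filter_mem_eq_inter, Finset.univ_inter]
      simp
  rw [h1, Finset.mul_sum, Finset.mul_sum]
  have h2 : ∀ l, C.q l * C.m l * ((C.m l + 1) * C.d l) + C.D * C.d l =
      C.D * ((C.m l + 1) * C.d l) := by
    intro l
    rw [← C.q_mul l]
    ring
  have h3 : ∑ l, C.q l * C.m l * ((C.m l + 1) * C.d l) + ∑ l, C.D * C.d l =
      ∑ l, C.D * ((C.m l + 1) * C.d l) := by
    rw [← Finset.sum_add_distrib]
    exact Finset.sum_congr rfl fun l _ => h2 l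
  omega

end

end Comb

end Pool.Agent.R869.Wd
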