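import Pool.Agent.R869.WDefs
import Pool.Agent.R869.WComb
import Pool.Agent.R869.WLin
import Pool.Agent.R869.Tree2

/-!
Selection of families of minimal relations.
-/

set_option autoImplicit false

open MvPolynomial Pool.Agent.W602.GT

namespace Pool.Agent.R869.Wd

variable {k V : Type*} [Field k] [AddCommGroup V] [Module k V]

/-- If the parts of a relation of equal weight are not relations, then there is a minimal relation
with members of different weight. -/
theorem exists_circ {J : Type} (T : J → V) (S : Finset J) (c : J → k) (hc : ∀ α ∈ S, c α ≠ 0)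
    (hrel : ∑ α ∈ S, c α • T α = 0) (wt : J → ℤ) (v : ℤ)
    (hno : ∑ α ∈ S.filter (fun α => wt α = v), c α • T α ≠ 0) :
    ∃ (G : Circ k T), (∀ i, G.e i ∈ S) ∧ ∃ a b, wt (G.e a) ≠ wt (G.e b) := by
  classical
  by_contra hcon
  push Not at hcon
  let g : S → V := fun α => c α • T α
  let R : S → S → Prop := fun α β => wt α = wt β
  have hRe : Equivalence R := ⟨fun _ => rfl, fun h => h.symm, fun h h' => h.trans h'⟩
  have h1 := Pool.Agent.W603.LV.class_sum (k := k) g R hRe (by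
    intro m e he c' hc' hrel' hli i j
    have hG := hcon ⟨m, fun i => (e i : J), fun a b h => he (Subtype.ext h), fun i => c' i * c (e i),
      fun i => mul_ne_zero (hc' i) (hc _ (e i).2), by
        rw [← hrel']
        exact Finset.sum_congr rfl fun i _ => by rw [mul_smul], by
        have : (fun l => (c' ((Fin.last m).succAbove l) * c (e ((Fin.last m).succAbove l))) •
            T (e ((Fin.last m).succAbove l))) =
            fun l => c' ((Fin.last m).succAbove l) • g (e ((Fin.last m).succAbove l)) := by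
          funext l
          rw [mul_smul]
        rw [this]
        exact hli⟩ (fun i => (e i).2) i j
    exact hG) _ (fun _ => 1) le_rfl (by
      simp only [one_smul, g]
      rw [Finset.sum_coe_sort S (fun α => c α • T α)]
      exact hrel)
  obtain ⟨β, hβ, -⟩ := Finset.exists_ne_zero_of_sum_ne_zero hno
  rw [Finset.mem_filter] at hβ
  apply hno
  have h2 := h1 ⟨β, hβ.1⟩
  simp only [one_smul, g, R] at h2
  rw [← h2, Finset.sum_filter, Finset.sum_filter, ← Finset.sum_coe_sort S]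
  refine Finset.sum_congr rfl fun α _ => ?_
  rw [hβ.2]
  by_cases h : wt α = v
  · rw [if_pos h, if_pos h.symm]
  · rw [if_neg h, if_neg fun h' => h h'.symm]

theorem exp_total {k : Type} [Field k] {n : ℕ} {G : MvPolynomial (Fin (n + 1)) k} (hG : IsForm G) :
    ∃ d, ∀ α ∈ G.support, ∑ j, α j = d := by
  obtain ⟨d, hd⟩ := hG
  refine ⟨d, fun α hα => ?_⟩
  have h2 := hd (MvPolynomial.mem_support_iff.1 hα)
  rw [← h2]
  simp [Finsupp.weight_apply, Finsupp.sum_fintype]

/-- The selection. -/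
theorem select {k : Type} [Field k] [Module k V] {n : ℕ} {ι : Type} {s : ℕ}
    (T : (Fin (n + 1) →₀ ℕ) → V) (F : ι → MvPolynomial (Fin (n + 1)) k) (hF : ∀ e, IsForm (F e))
    (hs : ∀ e, (F e).support.card ≤ s) (I : Finset (Fin (n + 1)))
    (hrel : ∀ e, ∑ α ∈ (F e).support.filter (fun α => ∀ j, j ∉ I → α j = 0),
      (F e).coeff α • T α = 0)
    (hno : ∀ b : Fin (n + 1) → ℤ, (∃ i ∈ I, ∃ j ∈ I, b i ≠ b j) → ∃ e v,
      ∑ α ∈ ((F e).support.filter (fun α => ∀ j, j ∉ I → α j = 0)).filter (fun α => wgt b α = v),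
        (F e).coeff α • T α ≠ 0) :
    ∃ (r : ℕ) (G : Fin r → Circ k T) (a b : ∀ l, Fin ((G l).m + 1)) (e : Fin r → ι), r ≤ n ∧
      (∀ l i, (G l).e i ∈ (F (e l)).support ∧ ∀ j, j ∉ I → (G l).e i j = 0) ∧
      (∀ l, (G l).m + 1 ≤ s) ∧
      (∀ u : Fin (n + 1) → ℤ, (∃ i ∈ I, ∃ j ∈ I, u i ≠ u j) →
        0 < ∑ l, |wgt u ((G l).e (a l)) - wgt u ((G l).e (b l))|) ∧
      ∃ M : ℕ, ∀ i ∈ I, ∀ j ∈ I, ∃ (M0 : ℕ) (c : Fin r → ℤ), 0 < M0 ∧ (∀ l, |c l| ≤ M) ∧
        ∀ x, (M0 : ℤ) * ((if x = i then 1 else 0) - (if x = j then 1 else 0)) =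
          ∑ l, c l * (((G l).e (a l) x : ℤ) - (G l).e (b l) x) := by
  classical
  let κ : Type _ := {x : Σ G : Circ k T, Fin (G.m + 1) × Fin (G.m + 1) //
    ∃ e, ∀ i, x.1.e i ∈ (F e).support ∧ ∀ j, j ∉ I → x.1.e i j = 0}
  let δ : κ → Fin (n + 1) → ℤ := fun x j => (x.1.1.e x.1.2.1 j : ℤ) - x.1.1.e x.1.2.2 j
  have h0 : ∀ a, ∑ x, δ a x = 0 := by
    intro a
    obtain ⟨e, he⟩ := a.2
    obtain ⟨d, hd⟩ := exp_total (hF e)
    simp only [δ]
    rw [Finset.sum_sub_distrib, ← Nat.cast_sum, ← Nat.cast_sum, hd _ (he _).1, hd _ (he _).1,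
      sub_self]
  obtain ⟨r, f, hr, hf⟩ := exists_family δ h0
  have hdw : ∀ (a : κ) (u : Fin (n + 1) → ℤ), ∑ x, δ a x * u x =
      wgt u (a.1.1.e a.1.2.1) - wgt u (a.1.1.e a.1.2.2) := by
    intro a u
    unfold wgt
    rw [← Finset.sum_sub_distrib]
    exact Finset.sum_congr rfl fun x _ => by simp only [δ, sub_mul]
  -- the annihilator
  have hann : ∀ u : Fin (n + 1) → ℤ, (∀ l, ∑ x, δ (f l) x * u x = 0) →
      ∀ i ∈ I, ∀ j ∈ I, u i = u j := by
    intro u hu
    by_contra hcon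
    push Not at hcon
    obtain ⟨i, hi, j, hj, hij⟩ := hcon
    obtain ⟨e, v, hev⟩ := hno u ⟨i, hi, j, hj, hij⟩
    obtain ⟨G, hG, a, b, hab⟩ := exists_circ T _ (fun α => (F e).coeff α) (fun α hα =>
      mem_support_iff.1 (Finset.mem_filter.1 hα).1) (hrel e) (fun α => wgt u α) v hev
    have h1 := hf u hu ⟨⟨G, a, b⟩, e, fun i => ⟨(Finset.mem_filter.1 (hG i)).1,
      (Finset.mem_filter.1 (hG i)).2⟩⟩
    rw [hdw] at h1
    exact hab (sub_eq_zero.1 h1)
  have hfe : ∀ l, ∃ e, ∀ i, (f l).1.1.e i ∈ (F e).support ∧ ∀ j, j ∉ I → (f l).1.1.e i j = 0 :=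
    fun l => (f l).2
  choose e he using hfe
  have hpair : ∀ i j, ∃ (M0 : ℕ) (c : Fin r → ℤ), i ∈ I → j ∈ I → 0 < M0 ∧
      ∀ x, (M0 : ℤ) * ((if x = i then 1 else 0) - (if x = j then 1 else 0)) =
        ∑ l, c l * δ (f l) x := by
    intro i j
    by_cases hij : i ∈ I ∧ j ∈ I
    · obtain ⟨M0, c, h1, h2⟩ := span_rel (fun l => δ (f l)) i j fun u hu =>
        hann u hu i hij.1 j hij.2
      exact ⟨M0, c, fun _ _ => ⟨h1, h2⟩⟩
    · exact ⟨0, fun _ => 0, fun hi hj => absurd ⟨hi, hj⟩ hij⟩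
  choose M0 c hM0 using hpair
  refine ⟨r, fun l => (f l).1.1, fun l => (f l).1.2.1, fun l => (f l).1.2.2, e, hr, he, ?_, ?_,
    ∑ i, ∑ j, ∑ l, (c i j l).natAbs, ?_⟩
  · intro l
    have h1 : Fintype.card (Fin ((f l).1.1.m + 1)) ≤ (F (e l)).support.card := by
      rw [← Fintype.card_coe (F (e l)).support]
      refine Fintype.card_le_of_injective (fun i => ⟨(f l).1.1.e i, (he l i).1⟩) ?_
      intro i j hij
      exact (f l).1.1.inj (congrArg Subtype.val hij)
    rw [Fintype.card_fin] at h1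
    exact h1.trans (hs _)
  · rintro u ⟨i, hi, j, hj, hij⟩
    rw [← not_le]
    intro hle
    apply hij
    refine hann u (fun l => ?_) i hi j hj
    rw [hdw]
    have h1 : ∑ l, |wgt u ((f l).1.1.e (f l).1.2.1) - wgt u ((f l).1.1.e (f l).1.2.2)| = 0 :=
      le_antisymm hle (Finset.sum_nonneg fun _ _ => abs_nonneg _)
    have h2 := (Finset.sum_eq_zero_iff_of_nonneg fun _ _ => abs_nonneg _).1 h1 l
      (Finset.mem_univ l)
    exact abs_eq_zero.1 h2
  · intro i hi j hj
    refine ⟨M0 i j, c i j, (hM0 i j hi hj).1, fun l => ?_, (hM0 i j hi hj).2⟩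
    have h1 : (c i j l).natAbs ≤ ∑ i, ∑ j, ∑ l, (c i j l).natAbs := by
      refine le_trans ?_ (Finset.single_le_sum (f := fun i => ∑ j, ∑ l, (c i j l).natAbs)
        (fun _ _ => Nat.zero_le _) (Finset.mem_univ i))
      refine le_trans ?_ (Finset.single_le_sum (f := fun j => ∑ l, (c i j l).natAbs)
        (fun _ _ => Nat.zero_le _) (Finset.mem_univ j))
      exact Finset.single_le_sum (f := fun l => (c i j l).natAbs) (fun _ _ => Nat.zero_le _)
        (Finset.mem_univ l)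
    rw [Int.abs_eq_natAbs]
    exact_mod_cast h1

end Pool.Agent.R869.Wd
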