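import Pool.Agent.R869.WAlg2
import Pool.Agent.R869.WSel
import Pool.Agent.W602.GT.Ps

/-!
Subvarieties of varieties given by wide systems of forms: log general type or one-parameter groups.
-/

set_option autoImplicit false

open FF MvPolynomial Pool.Agent.W603.LV Pool.Agent.W602.GT

namespace Pool.Agent.R869.Wd

variable {k K : Type} [Field k] [Field K] [Algebra k K] {n : ℕ} {ι : Type}

theorem tri_le_mul {r n s : ℕ} (hr : r ≤ n) (m : Fin r → ℕ) (hm : ∀ l, m l + 1 ≤ s) :
    ∑ l, tri (m l) ≤ n * tri (s - 1) := by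
  calc ∑ l, tri (m l) ≤ ∑ _l : Fin r, tri (s - 1) :=
        Finset.sum_le_sum fun l _ => tri_mono (by have := hm l; omega)
    _ = r * tri (s - 1) := by rw [Finset.sum_const, Finset.card_univ, Fintype.card_fin, smul_eq_mul]
    _ ≤ _ := Nat.mul_le_mul_right _ hr

theorem val_supp {y : Fin (n + 1) → K} {I : Finset (Fin (n + 1))} (hI : ∀ j, j ∈ I ↔ y j ≠ 0)
    (S : Finset (Fin (n + 1) →₀ ℕ)) (c : (Fin (n + 1) →₀ ℕ) → k) :
    ∑ α ∈ S, algebraMap k K (c α) * ∏ j, y j ^ α j =
      ∑ α ∈ S.filter (fun α => ∀ j, j ∉ I → α j = 0), c α • mon y α := by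
  classical
  rw [Finset.sum_filter]
  refine Finset.sum_congr rfl fun α _ => ?_
  split_ifs with h
  · rw [Algebra.smul_def]
    rfl
  · push Not at h
    obtain ⟨j, hj, hα⟩ := h
    have h1 : y j = 0 := by
      by_contra h0
      exact hj ((hI j).2 h0)
    rw [Finset.prod_eq_zero (Finset.mem_univ j) (by rw [h1, zero_pow hα]), mul_zero]

/-- **Wide systems.** A subvariety of the open part `x_j ≠ 0` (`j` in `U`) of a variety given by a
wide system of forms is of log general type, or the variety is preserved at its generic point by a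
diagonal one-parameter group. -/
theorem weights [IsAlgClosed k] [CharZero k] {U : Set (Fin (n + 1))}
    {F : ι → MvPolynomial (Fin (n + 1)) k} {s N : ℕ} (hF : ∀ e, IsForm (F e))
    (hs1 : 1 ≤ s) (hs : ∀ e, (F e).support.card ≤ s) (hW : Wide U F N)
    (hN : s * (n * tri (s - 1)) < N)
    {w : ℕ} (hw : 0 < w) (htr : Algebra.trdeg k K = w) {y : Fin (n + 1) → K} (hy : y ≠ 0)
    (hgen : Algebra.IsAlgebraic (coords k y) K) (hyF : ∀ e, val y (F e) = 0)
    (hyU : ∀ j ∈ U, y j ≠ 0) (hgt : ¬ LogGeneralType k K w (OffU U y)) :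
    ∃ (b : Fin (n + 1) → ℤ) (i i' : Fin (n + 1)), y i ≠ 0 ∧ y i' ≠ 0 ∧ b i ≠ b i' ∧
      ∀ e v, val y (wc b v (F e)) = 0 := by
  classical
  by_contra hcon
  push Not at hcon
  apply hgt
  set I : Finset (Fin (n + 1)) := Finset.univ.filter fun j => y j ≠ 0 with hIdef
  have hI : ∀ j, j ∈ I ↔ y j ≠ 0 := fun j => by simp [hIdef]
  obtain ⟨i1, hi1⟩ := Function.ne_iff.1 hy
  obtain ⟨r, G, a, b, e, hr, hG, hm, hpos, M, hM⟩ := select (mon y) F hF hs I (fun e => by
    rw [← val_supp (k := k) hI, ← val_eq_sum]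
    exact hyF e) (by
    rintro b ⟨i, hi, j, hj, hij⟩
    obtain ⟨e, v, h⟩ := hcon b i j ((hI i).1 hi) ((hI j).1 hj) hij
    refine ⟨e, v, ?_⟩
    rw [Finset.filter_filter]
    rw [val_wc, val_supp (k := k) hI, Finset.filter_filter] at h
    have e1 : (F e).support.filter (fun α => (∀ j, j ∉ I → α j = 0) ∧ wgt b α = v) =
        (F e).support.filter (fun α => (∑ j, (α j : ℤ) * b j = v) ∧ ∀ j, j ∉ I → α j = 0) := by
      refine Finset.filter_congr fun α _ => ?_
      constructor
      · rintro ⟨h1, h2⟩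
        exact ⟨h2, h1⟩
      · rintro ⟨h1, h2⟩
        exact ⟨h2, h1⟩
    rw [e1]
    exact h)
  have hdeg : ∀ l, ∃ d, ∀ α ∈ (F (e l)).support, ∑ j, α j = d := fun l => exp_total (hF (e l))
  choose d hd using hdeg
  let A : Fam k y s (n * tri (s - 1)) :=
    { I := I
      ne := ⟨i1, (hI i1).2 hi1⟩
      r := r
      G := G
      a := a
      b := b
      d := d
      M := M
      deg := fun l i => hd l _ (hG l i).1
      supp := fun l i j hj => (hG l i).2 j hj
      pos := hs1
      size := hm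
      tot := tri_le_mul hr _ hm
      full := hM
      hI := hI }
  refine A.lgt hw htr hgen hyU fun u hu hu2 => ?_
  have h1 := hW (I : Set (Fin (n + 1))) r e (fun l => (G l).e (a l)) (fun l => (G l).e (b l))
    (fun j hj => (hI j).2 (hyU j hj)) hr (fun l => ⟨(hG l _).1, (hG l _).1, fun j hj =>
      ⟨(hG l _).2 j hj, (hG l _).2 j hj⟩⟩) hpos u hu hu2
  refine le_trans ?_ h1
  exact_mod_cast hN

end Pool.Agent.R869.Wd
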