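import Pool.Agent.R869.WDelC
import Pool.Agent.TH466.QG.Open
import Pool.Agent.TH466.QG.Top

/-!
Irreducible components of the projective varieties given by wide systems of forms: they are of
general type or ruled.
-/

set_option autoImplicit false
set_option linter.overlappingInstances false

open MvPolynomial Filter Metric Topology Pool.Agent.W602.GT

namespace Pool.Agent.R869.Wd

section

variable {k : Type} [Field k] {n : ℕ} {ι : Type}

theorem componentU_of {F : ι → MvPolynomial (Fin (n + 1)) k} {K : Type} [Field K] [Algebra k K]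
    {y : Fin (n + 1) → K} (h : IsComponent F y) : IsComponentU ∅ F y := by
  obtain ⟨H, hH, hHy, hcone⟩ := h
  refine ⟨H, hH, hHy, fun x hx hxH => hcone x ?_ hxH⟩
  rw [← cone_iff]
  exact hx

theorem weights_of_not_gt [IsAlgClosed k] [CharZero k] {F : ι → MvPolynomial (Fin (n + 1)) k}
    {s N : ℕ} (hC : Sys ∅ F s N) {K : Type} [Field K] [Algebra k K] {w : ℕ} (hw : 1 ≤ w)
    {y : Fin (n + 1) → K} (hy : SubVar F K w y) (hgt : ¬ GeneralType k K w) :
    ∃ (b : Fin (n + 1) → ℤ) (i i' : Fin (n + 1)), y i ≠ 0 ∧ y i' ≠ 0 ∧ b i ≠ b i' ∧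
      ∀ e v, val y (wc b v (F e)) = 0 := by
  have hgen : Algebra.IsAlgebraic (coords k y) K := by
    rw [hy.gen]
    infer_instance
  exact weights hC.form hC.pos hC.card hC.wide hC.num hw hy.dim hy.ne hgen hy.mem
    (fun j hj => absurd hj (Set.notMem_empty j)) fun h => hgt ((general_iff y).1 h)

/-- **Components of wide projective varieties are of general type or ruled.** -/
theorem general_or_ruled [IsAlgClosed k] [CharZero k] {F : ι → MvPolynomial (Fin (n + 1)) k}
    {s N : ℕ} (hC : Sys ∅ F s N) {K : Type} [Field K] [Algebra k K] {w : ℕ} (hw : 1 ≤ w)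
    {y : Fin (n + 1) → K} (hy : SubVar F K w y) (hcomp : IsComponent F y) :
    [GeneralType k K w, ¬ Ruled k K, Psef k K w (fun _ => False),
      ∀ b : Fin (n + 1) → ℤ, Acts ∅ k y b → ∀ i i', y i ≠ 0 → y i' ≠ 0 → b i = b i'].TFAE := by
  have hyU : SubVarU ∅ F K w y := subVar_iff.2 hy
  have hU := componentU_of hcomp
  tfae_have 1 → 3 := fun h => psef_of_kodGe (kod_of_general h)
  tfae_have 3 → 2 := by
    rintro h ⟨C, σ, h1, h2⟩
    exact not_psef_of hy.dim C h1 h2 h
  tfae_have 2 → 1 := by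
    intro h
    by_contra hgt
    obtain ⟨b, i, i', hi, hi', hb, hwc⟩ := weights_of_not_gt hC hw hy hgt
    exact h (Pool.Agent.TH466.QG.ruled_of_weights hy hcomp hi hi' hb hwc)
  tfae_have 1 ↔ 4 := by
    rw [← general_iff y]
    exact lgt_iff_acts hC hw hyU hU
  tfae_finish

end

section

open Pool.Agent.H159R3.GGLLog Pool.Agent.W603.BP

/-- holomorphic maps from the punctured disc with an essential singularity to the open parts of
hypersurfaces with dominated monomials: a partial sum of the terms vanishes -/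
theorem curve_sum {n : ℕ} {F : MvPolynomial (Fin (n + 1)) ℂ} {d δ : ℕ}
    {v : (Fin (n + 1) →₀ ℕ) → Fin (n + 1)} (hd : F.IsHomogeneous d) (hv : Dominates F δ v)
    (hN : 2 * δ + n * ((n + 1) * (n * (n - 1) / 2)) < d) (U : Set (Fin (n + 1)))
    (f : ℂ → Fin (n + 1) → ℂ) (hf : PCurve U (fun _ : Unit => F) f) (hE : ¬ Extends f) :
    ∃ S : Set (Fin (n + 1)), S.Nonempty ∧ (∀ j ∈ S, ∃ z ∈ PB 1, f z j ≠ 0) ∧
      (∃ j, j ∉ S ∧ ∃ z ∈ PB 1, f z j ≠ 0) ∧ ∀ z ∈ PB 1, eval (f z) (part F v S) = 0 := by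
  classical
  obtain ⟨b, i, i', hi, hi', hb, hs⟩ := pcurve (sys_of_dominated (U := U) hd hv.dominated hN)
    f hf hE
  have hNz : ∀ g : ℂ → ℂ, AnalyticOnNhd ℂ g (PB 1) → ¬ Nz g → ∀ z ∈ PB 1, g z = 0 := by
    intro g hg h z hz
    by_contra h0
    exact h (nz_of_on hg hz h0)
  -- the family of functions
  let G : Fin (n + 1) ⊕ Finset (Fin (n + 1)) → ℂ → ℂ := Sum.elim
    (fun (j : Fin (n + 1)) (w : ℂ) => f w j)
    (fun (S : Finset (Fin (n + 1))) (w : ℂ) => eval (f w) (part F v (S : Set (Fin (n + 1)))))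
  have hGan : ∀ a, AnalyticOnNhd ℂ (G a) (PB 1) := by
    rintro (j | S)
    · exact hf.an j
    · exact eval_an hf.an _
  let g : Fin (n + 1) ⊕ Finset (Fin (n + 1)) → ℂ → ℂ := fun a =>
    if Nz (G a) then G a else fun _ => 1
  have hone : Nz (fun _ : ℂ => (1 : ℂ)) :=
    nz_of_on (z := 1 / 2) analyticOnNhd_const (by
      rw [← mem_disc]
      constructor
      · simp
        norm_num
      · simp) one_ne_zero
  obtain ⟨z0, hz0, hgood⟩ := good_point g (by
      intro a
      simp only [g]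
      split_ifs
      · exact hGan a
      · exact analyticOnNhd_const)
    (by
      intro a
      simp only [g]
      split_ifs with h
      · exact h
      · exact hone)
  have hcoord : ∀ j, Nz (fun w => f w j) ↔ f z0 j ≠ 0 := by
    intro j
    constructor
    · intro h
      have h1 := hgood (Sum.inl j)
      have h2 : Nz (G (Sum.inl j)) := h
      simp only [g, if_pos h2] at h1
      exact h1
    · intro h
      exact nz_of_on (hf.an j) hz0 h
  obtain ⟨S, h3, h4, ⟨t, ht, ht0⟩, h5⟩ := sum_of_weights hd hv (by omega)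
    ((hcoord i).1 hi) ((hcoord i').1 hi') hb (fun e => by
      rw [wc_eq]
      exact hs () e z0 hz0)
  refine ⟨S, h3, fun j hj => ⟨z0, hz0, h4 j hj⟩, ⟨t, ht, z0, hz0, ht0⟩, ?_⟩
  refine hNz _ (eval_an hf.an _) fun h6 => ?_
  have h7 := hgood (Sum.inr (Set.toFinite S).toFinset)
  have h8 : G (Sum.inr (Set.toFinite S).toFinset) = fun w => eval (f w) (part F v S) := by
    simp only [G, Sum.elim_inr, Set.Finite.coe_toFinset]
  simp only [g, h8, if_pos h6] at h7
  apply h7
  rw [← val_eval]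
  exact h5

/-- **Entire curves in hypersurfaces with dominated monomials satisfy a vanishing partial sum.** -/
theorem entire_sum {n : ℕ} {F : MvPolynomial (Fin (n + 1)) ℂ} {d δ : ℕ}
    {v : (Fin (n + 1) →₀ ℕ) → Fin (n + 1)} (hd : F.IsHomogeneous d) (hv : Dominates F δ v)
    (hN : 2 * δ + n * ((n + 1) * (n * (n - 1) / 2)) < d) (U : Set (Fin (n + 1)))
    (f : ℂ → Fin (n + 1) → ℂ) (hf : EntireCurve U (fun _ : Unit => F) f) :
    ∃ S : Set (Fin (n + 1)), S.Nonempty ∧ (∀ j ∈ S, ∃ z, f z j ≠ 0) ∧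
      (∃ j, j ∉ S ∧ ∃ z, f z j ≠ 0) ∧ ∀ z, eval (f z) (part F v S) = 0 := by
  obtain ⟨h1, h2⟩ := sin_curve hf
  obtain ⟨S, h3, h4, ⟨t, ht, z, -, hz⟩, h5⟩ := curve_sum hd hv hN U _ h1 h2
  refine ⟨S, h3, fun j hj => ?_, ⟨t, ht, _, hz⟩, fun z => ?_⟩
  · obtain ⟨z, -, hz⟩ := h4 j hj
    exact ⟨_, hz⟩
  · obtain ⟨w, hw, hwz⟩ := sin_point z
    have h6 := h5 w (mem_disc.mp hw)
    rwa [hwz] at h6

end

end Pool.Agent.R869.Wd
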