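import Pool.Agent.R869.WHgt2
import Pool.Agent.R869.WProj
import Pool.Agent.W603.CX.Groupless
import Pool.Agent.W602.GT.Four

/-!
Heights of the points of wide systems over function fields of one variable: orbits, components.
-/

set_option autoImplicit false

open FF MvPolynomial Pool.Agent.W603.LV Pool.Agent.W603.PV Pool.Agent.W602.GT

namespace Pool.Agent.R869.Wd

theorem cstC_lt {n s N : ℕ} (hs : 1 ≤ s) (h : s * (n * Pool.Agent.R869.tri (s - 1)) < N) :
    cstC n s < N := by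
  unfold cstC
  rcases Nat.lt_or_ge s 2 with h1 | h1
  · have h2 : s = 1 := by omega
    subst h2
    have h3 : Pool.Agent.R869.tri (1 - 1) = 0 := rfl
    rw [h3] at h ⊢
    omega
  · exact lt_of_le_of_lt (Nat.mul_le_mul_right _ h1) h

/-- uniform bound -/
theorem unif {n : ℕ} {ι : Type} [Finite ι] (U : Set (Fin (n + 1)))
    (T : ι → Finset (Fin (n + 1) →₀ ℕ)) {s N : ℕ} (hs1 : 1 ≤ s) (hs : ∀ e, (T e).card ≤ s)
    (hW : WideT U T N) (hN : cstC n s < N) :
    ∃ A : ℕ, ∀ (k : Type) [Field k] [IsAlgClosed k] [CharZero k]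
      (F : ι → MvPolynomial (Fin (n + 1)) k), (∀ e, (F e).support ⊆ T e) → (∀ e, IsForm (F e)) →
        ∀ (K : Type) [Field K] [Algebra k K] [IsFF k K] (S : Finset (Place k K))
          (f : Fin (n + 1) → K), Pool.Agent.W603.CX.IsMap U F S f →
          (¬ ∃ (b : Fin (n + 1) → ℤ) (i i' : Fin (n + 1)), f i ≠ 0 ∧ f i' ≠ 0 ∧ b i ≠ b i' ∧
            ∀ e v, val f (wc b v (F e)) = 0) → pht k f ≤ A * max (canDeg k K + S.card) 0 := by
  classical
  have := Fintype.ofFinite ι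
  obtain ⟨M, hM⟩ := exists_cstFor (Finset.univ.biUnion T)
  refine ⟨M * (cstC n s * (1 + cstC n s)), ?_⟩
  intro k _ _ _ F hFT hF K _ _ _ S f hf hno
  exact height_main (Finset.univ.biUnion T)
    (fun e => (hFT e).trans (Finset.subset_biUnion_of_mem T (Finset.mem_univ e))) hM hF hs1
    (fun e => (Finset.card_le_card (hFT e)).trans (hs e)) (wide_of_wideT hW hFT) hN S f hf.1
    hf.2.1 hf.2.2 hno

section

variable {k : Type} [Field k] [IsAlgClosed k] [CharZero k] {n : ℕ} {ι : Type}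
  {U : Set (Fin (n + 1))} {F : ι → MvPolynomial (Fin (n + 1)) k}

omit [CharZero k] in
/-- vanishing parts yield an orbit, outside a hypersurface that does not contain the point -/
theorem orbit_of_parts {K : Type} [Field K] [Algebra k K] {y : Fin (n + 1) → K}
    (hyU : ∀ j ∈ U, y j ≠ 0) {b : Fin (n + 1) → ℤ} {i i' : Fin (n + 1)} (hi : y i ≠ 0)
    (hi' : y i' ≠ 0) (hb : b i ≠ b i') (hwc : ∀ e v, val y (wc b v (F e)) = 0)
    {G : MvPolynomial (Fin (n + 1)) k} (hG : val y G ≠ 0) :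
    ∃ x, DiagCurve U F x b ∧ val x G ≠ 0 ∧
      ∀ H : MvPolynomial (Fin (n + 1)) k, val y H = 0 → val x H = 0 := by
  classical
  let H : MvPolynomial (Fin (n + 1)) k := G * (MvPolynomial.X i * MvPolynomial.X i') *
    ∏ j ∈ Finset.univ.filter (fun j => j ∈ U), MvPolynomial.X j
  have hH : MvPolynomial.aeval y H ≠ 0 := by
    simp only [H, map_mul, map_prod, MvPolynomial.aeval_X]
    refine mul_ne_zero (mul_ne_zero hG (mul_ne_zero hi hi')) ?_
    exact Finset.prod_ne_zero_iff.2 fun j hj => hyU j (Finset.mem_filter.1 hj).2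
  obtain ⟨x, hx, hx0⟩ := specialise y H hH
  simp only [H, map_mul, map_prod, MvPolynomial.aeval_X] at hx
  have h1 := left_ne_zero_of_mul hx
  have h2 := right_ne_zero_of_mul hx
  have h3 := right_ne_zero_of_mul h1
  refine ⟨x, diag_of_wc (fun j hj => ?_) (fun e v => hx0 _ (hwc e v))
    ⟨i, i', left_ne_zero_of_mul h3, right_ne_zero_of_mul h3, hb⟩, left_ne_zero_of_mul h1,
    fun H hH => hx0 H hH⟩
  exact Finset.prod_ne_zero_iff.1 h2 j (Finset.mem_filter.2 ⟨Finset.mem_univ _, hj⟩)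

omit [IsAlgClosed k] [CharZero k] in
theorem diag_iff_orbit : (∃ x b, DiagCurve U F x b) ↔ Pool.Agent.W603.CX.HasOrbit U F := by
  have e : ∀ (x : Fin (n + 1) → k) (b : Fin (n + 1) → ℤ) (t : k),
      (fun j => x j * t ^ b j) = fun j => t ^ b j * x j := fun x b t =>
    funext fun j => mul_comm _ _
  constructor
  · rintro ⟨x, b, hd, i, i', hi, hi', hb⟩
    refine ⟨x, b, fun t ht => ?_, i, i', hi, hi', hb⟩
    have h1 := hd t ht
    rw [← e] at h1
    exact ⟨h1.1, h1.2.1, fun e => by rw [← val_eval']; exact h1.2.2 e⟩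
  · rintro ⟨x, b, hd, i, i', hi, hi', hb⟩
    refine ⟨x, b, fun t ht => ?_, i, i', hi, hi', hb⟩
    have h1 := hd t ht
    rw [e] at h1
    exact ⟨h1.1, h1.2.1, fun e => by rw [val_eval']; exact h1.2.2 e⟩

omit [CharZero k] in
theorem no_parts (h : ¬ Pool.Agent.W603.CX.HasOrbit U F) {K : Type} [Field K] [Algebra k K]
    {y : Fin (n + 1) → K} (hyU : ∀ j ∈ U, y j ≠ 0) :
    ¬ ∃ (b : Fin (n + 1) → ℤ) (i i' : Fin (n + 1)), y i ≠ 0 ∧ y i' ≠ 0 ∧ b i ≠ b i' ∧
      ∀ e v, val y (wc b v (F e)) = 0 := by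
  rintro ⟨b, i, i', hi, hi', hb, hwc⟩
  obtain ⟨x, hx, -⟩ := orbit_of_parts (G := 1) hyU hi hi' hb hwc (by
    unfold val
    rw [map_one]
    exact one_ne_zero)
  exact h (diag_iff_orbit.1 ⟨x, b, hx⟩)

omit [IsAlgClosed k] [CharZero k] in
theorem orbits_const_iff : Pool.Agent.W603.CX.OrbitsConstant F ↔
    ¬ Pool.Agent.W603.CX.HasOrbit ∅ F := by
  constructor
  · rintro h ⟨x, b, hxb, j, l, hj, hl, hne⟩
    exact hne (h x b (fun t ht i => (hxb t ht).2.2 i) j l hj hl)
  · intro h x b hxb j l hj hl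
    by_contra hne
    refine h ⟨x, b, fun t ht => ⟨?_, ?_, fun i => hxb t ht i⟩, j, l, hj, hl, hne⟩
    · exact Function.ne_iff.2 ⟨j, mul_ne_zero hj (zpow_ne_zero _ ht)⟩
    · exact fun j hj => absurd hj (Set.notMem_empty j)

/-- Lang's criterion for wide systems -/
theorem gm_iff {s N : ℕ} (hC : Sys ∅ F s N) :
    [AllGeneralType F, ∀ P, ¬ GmCurve F P, Pool.Agent.W603.CX.OrbitsConstant F].TFAE := by
  tfae_have 1 → 2 := by
    intro h P hP
    obtain ⟨K, _, _, y, hy, hgt⟩ := sub_of_gm hC.form hP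
    exact hgt (h K 1 y le_rfl hy)
  tfae_have 2 → 3 := by
    intro h
    rw [orbits_const_iff]
    intro ho
    obtain ⟨x, b, hd⟩ := diag_iff_orbit.2 ho
    obtain ⟨P, hP, -⟩ := gm_of_diag hC.form hd
    exact h P hP
  tfae_have 3 → 1 := by
    intro h K _ _ w y hw hy
    by_contra hgt
    exact no_parts (orbits_const_iff.1 h) (fun j hj => absurd hj (Set.notMem_empty j))
      (weights_of_not_gt hC hw hy hgt)
  tfae_finish

end

end Pool.Agent.R869.Wd
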