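import Pool.Agent.R869.WDens3
import Pool.Agent.R869.WHgt3

/-!
Systems of forms with monomials in almost all sets of monomials.
-/

set_option autoImplicit false

open FF MvPolynomial Pool.Agent.W603.LV Pool.Agent.W603.PV Pool.Agent.W602.GT

namespace Pool.Agent.R869.Wd

/-- a set of exponent vectors of degree `d` is wide enough -/
structure Good {n : ℕ} (T : Finset (Fin (n + 1) →₀ ℕ)) (s N : ℕ) : Prop where
  deg : ∃ d, ∀ α ∈ T, ∑ j, α j = d
  pos : 1 ≤ s
  card : T.card ≤ s
  wide : WideT ∅ (fun _ : Unit => T) N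
  num : s * (n * Pool.Agent.R869.tri (s - 1)) < N

theorem isForm_of_deg {k : Type} [Field k] {n d : ℕ} {G : MvPolynomial (Fin (n + 1)) k}
    (h : ∀ α ∈ G.support, ∑ j, α j = d) : G.IsHomogeneous d := by
  intro α hα
  have h1 := h α (mem_support_iff.2 hα)
  rw [← h1]
  simp [Finsupp.weight_apply, Finsupp.sum_fintype]

theorem Good.form {n s N : ℕ} {T : Finset (Fin (n + 1) →₀ ℕ)} (hT : Good T s N) {k : Type}
    [Field k] {G : MvPolynomial (Fin (n + 1)) k} (hG : G.support ⊆ T) : IsForm G := by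
  obtain ⟨d, hd⟩ := hT.deg
  exact ⟨d, isForm_of_deg fun α hα => hd α (hG hα)⟩

theorem Good.wideT {n s N : ℕ} {T : Finset (Fin (n + 1) →₀ ℕ)} (hT : Good T s N) {ι : Type}
    (U : Set (Fin (n + 1))) : WideT U (fun _ : ι => T) N :=
  fun I r _e α β _ h2 h3 h4 u h5 _ => hT.wide I r (fun _ => ()) α β (Set.empty_subset _) h2 h3 h4 u h5
    fun i hi => absurd hi (Set.notMem_empty i)

theorem Good.sys {n s N : ℕ} {T : Finset (Fin (n + 1) →₀ ℕ)} (hT : Good T s N) {k : Type}
    [Field k] {ι : Type} {F : ι → MvPolynomial (Fin (n + 1)) k} (hF : ∀ e, (F e).support ⊆ T)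
    (U : Set (Fin (n + 1))) : Sys U F s N where
  form := fun e => hT.form (hF e)
  pos := hT.pos
  card := fun e => (Finset.card_le_card (hF e)).trans hT.card
  wide := wide_of_wideT (hT.wideT U) hF
  num := hT.num

theorem Good.mono {n s N : ℕ} {T T' : Finset (Fin (n + 1) →₀ ℕ)} (hT : Good T s N)
    (h : T' ⊆ T) : Good T' s N where
  deg := by
    obtain ⟨d, hd⟩ := hT.deg
    exact ⟨d, fun α hα => hd α (h hα)⟩
  pos := hT.pos
  card := (Finset.card_le_card h).trans hT.card
  wide := fun I r e α β h1 h2 h3 => hT.wide I r e α β h1 h2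
    fun l => ⟨h (h3 l).1, h (h3 l).2.1, (h3 l).2.2⟩
  num := hT.num

theorem sum_single {n d : ℕ} (j : Fin (n + 1)) : ∑ i, (Finsupp.single j d) i = d := by
  simp [Finsupp.single_apply]

theorem deg_withPowers {n s d : ℕ} {a : Fin s → (Fin (n + 1) →₀ ℕ)} (ha : a ∈ Tuples n s d) :
    ∀ α ∈ withPowers d a, ∑ j, α j = d := by
  intro α hα
  obtain ⟨p | j, rfl⟩ := mem_withPowers.1 hα
  · exact ha p
  · exact sum_single j

/-- **Almost all sets of monomials.** -/
theorem almost_good {n s : ℕ} {P : ℕ → (Fin s → (Fin (n + 1) →₀ ℕ)) → Prop}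
    (h : ∀ d a, a ∈ Tuples n s d → (∃ s' N, Good (withPowers d a) s' N) → P d a) :
    AlmostAll n s P := by
  refine (almost_wide n s ((s + (n + 1)) * (n * Pool.Agent.R869.tri (s + (n + 1) - 1)) + 1)).mono
    (d1 := 0) fun d a _ ha hw => h d a ha ⟨s + (n + 1),
      (s + (n + 1)) * (n * Pool.Agent.R869.tri (s + (n + 1) - 1)) + 1, ?_⟩
  exact { deg := ⟨d, deg_withPowers ha⟩
          pos := by omega
          card := card_withPowers d a
          wide := hw
          num := Nat.lt_succ_self _ }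

/-- the uniform height bound -/
theorem Good.unif {n s N : ℕ} {T : Finset (Fin (n + 1) →₀ ℕ)} (hT : Good T s N) :
    ∃ A : ℕ, ∀ (k : Type) [Field k] [IsAlgClosed k] [CharZero k] (ι : Type)
      (F : ι → MvPolynomial (Fin (n + 1)) k), (∀ e, (F e).support ⊆ T) →
        ∀ (U : Set (Fin (n + 1))) (K : Type) [Field K] [Algebra k K] [IsFF k K]
          (S : Finset (Place k K)) (f : Fin (n + 1) → K), Pool.Agent.W603.CX.IsMap U F S f →
          (¬ ∃ (b : Fin (n + 1) → ℤ) (i i' : Fin (n + 1)), f i ≠ 0 ∧ f i' ≠ 0 ∧ b i ≠ b i' ∧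
            ∀ e v, val f (wc b v (F e)) = 0) → pht k f ≤ A * max (canDeg k K + S.card) 0 := by
  classical
  obtain ⟨M, hM⟩ := exists_cstFor T
  refine ⟨M * (cstC n s * (1 + cstC n s)), ?_⟩
  intro k _ _ _ ι F hFT U K _ _ _ S f hf hno
  have hC := hT.sys hFT U
  exact height_main T hFT hM hC.form hC.pos hC.card hC.wide (cstC_lt hC.pos hC.num) S f hf.1
    hf.2.1 hf.2.2 hno

end Pool.Agent.R869.Wd
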