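import Pool.Agent.R869.WComb
import Pool.Agent.R869.WLin
import Pool.Agent.R869.ACirc
import Pool.Agent.R869.ACore

/-!
Wide families of minimal relations between monomials in functions near infinity.
-/

set_option autoImplicit false

namespace Pool.Agent.R869.Wd

open Filter Metric Real Set Topology Pool.Agent.H159R3.NV Pool.Agent.W602.NC Pool.Agent.W602.TL
  Pool.Agent.W603.BP Pool.Agent.W601.PH Pool.Agent.TH152.HY Pool.Agent.R869

variable {n : ℕ}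

/-- monomials in the functions with index in `I` -/
def monI (I : Finset (Fin (n + 1))) (f : ℂ → Fin (n + 1) → ℂ) (α : Fin (n + 1) →₀ ℕ) (z : ℂ) : ℂ :=
  ∏ j ∈ I, f z j ^ α j

/-- a wide family of minimal relations between monomials in functions near infinity -/
structure FamA (r0 : ℝ) (n s L : ℕ) where
  f : ℂ → Fin (n + 1) → ℂ
  U : Set (Fin (n + 1))
  f_an : ∀ i, AnalyticOnNhd ℂ (fun z => f z i) (Ext r0)
  f_ne : ∀ z ∈ Ext r0, f z ≠ 0
  f_U : ∀ i ∈ U, ∀ z ∈ Ext r0, f z i ≠ 0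
  I : Finset (Fin (n + 1))
  hI : ∀ i, i ∈ I ↔ ∃ z ∈ Ext r0, f z i ≠ 0
  ne : I.Nonempty
  r : ℕ
  G : Fin r → Circ ℂ (rst r0 (monI I f))
  a : ∀ l, Fin ((G l).m + 1)
  b : ∀ l, Fin ((G l).m + 1)
  d : Fin r → ℕ
  M : ℕ
  deg : ∀ l i, ∑ j, (G l).e i j = d l
  supp : ∀ l i j, j ∉ I → (G l).e i j = 0
  pos : 0 < s
  size : ∀ l, (G l).m + 1 ≤ s
  tot : ∑ l, tri (G l).m ≤ L
  full : ∀ i ∈ I, ∀ j ∈ I, ∃ (M0 : ℕ) (c : Fin r → ℤ), 0 < M0 ∧ (∀ l, |c l| ≤ M) ∧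
    ∀ x, (M0 : ℤ) * ((if x = i then 1 else 0) - (if x = j then 1 else 0)) =
      ∑ l, c l * (((G l).e (a l) x : ℤ) - (G l).e (b l) x)

namespace FamA

variable {r0 : ℝ} {s L : ℕ} (A : FamA r0 n s L)

/-- the family of exponent vectors -/
def comb : Comb n s L where
  I := A.I
  ne := A.ne
  r := A.r
  m := fun l => (A.G l).m
  e := fun l => (A.G l).e
  a := A.a
  b := A.b
  d := A.d
  M := A.M
  deg := A.deg
  supp := A.supp
  pos := A.pos
  size := A.size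
  tot := A.tot
  full := A.full

theorem T_an (α : Fin (n + 1) →₀ ℕ) : AnalyticOnNhd ℂ (monI A.I A.f α) (Ext r0) := fun z hz =>
  Finset.analyticAt_fun_prod _ fun i _ => (A.f_an i z hz).fun_pow _

/-- the auxiliary function -/
noncomputable def P0 (z : ℂ) : ℂ := ∏ l, WC (monI A.I A.f) (A.G l) z ^ A.comb.D

theorem P0_an : AnalyticOnNhd ℂ A.P0 (Ext r0) := fun z hz =>
  Finset.analyticAt_fun_prod _ fun l _ => (WC_an A.T_an (A.G l) z hz).fun_pow _

theorem P0_ne (hr0 : 0 < r0) : ∃ z ∈ Ext r0, A.P0 z ≠ 0 := by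
  obtain ⟨h1, z, hz, h2⟩ := prod_ne hr0 Finset.univ (fun l => WC (monI A.I A.f) (A.G l))
    (fun l _ => WC_an A.T_an _) fun l _ => WC_ne hr0 A.T_an _
  refine ⟨z, hz, ?_⟩
  unfold P0
  exact Finset.prod_ne_zero_iff.2 fun l _ => pow_ne_zero _
    (Finset.prod_ne_zero_iff.1 h2 l (Finset.mem_univ l))

/-- the order of a monomial -/
theorem T_ord {z : ℂ} (hz : z ∈ Ext r0) (a : {i // i ∈ A.I} → ℕ)
    (ha : ∀ i : {i // i ∈ A.I}, analyticOrderAt (fun z => A.f z i.1) z = a i)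
    (α : Fin (n + 1) →₀ ℕ) :
    analyticOrderAt (monI A.I A.f α) z = ((∑ i : {i // i ∈ A.I}, α i.1 * a i : ℕ) : ℕ∞) := by
  have e : monI A.I A.f α = fun z => ∏ i : {i // i ∈ A.I}, (fun z => A.f z i.1) z ^ α i.1 := by
    funext w
    unfold monI
    rw [← Finset.prod_coe_sort]
  rw [e]
  have h1 := analyticOrder_prod (z := z) Finset.univ (fun (i : {i // i ∈ A.I}) z => A.f z i.1 ^ α i.1)
    (fun i _ => (A.f_an i.1 z hz).fun_pow _)
  rw [h1]
  have h2 : ∀ i : {i // i ∈ A.I}, analyticOrderAt (fun z => A.f z i.1 ^ α i.1) z =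
      ((α i.1 * a i : ℕ) : ℕ∞) := by
    intro i
    have e2 : (fun z => A.f z i.1 ^ α i.1) = (fun z => A.f z i.1) ^ α i.1 := rfl
    rw [e2, analyticOrderAt_pow (A.f_an i.1 z hz), ha, nsmul_eq_mul]
    push_cast
    rfl
  rw [Finset.sum_congr rfl fun i _ => h2 i]
  push_cast
  rfl

theorem order_main (hr0 : 0 < r0)
    (hwide : ∀ u : Fin (n + 1) → ℤ, (∃ i ∈ A.I, ∃ j ∈ A.I, u i ≠ u j) →
      (∀ i ∈ A.U, ∀ j ∈ A.I, u i ≤ u j) → ((s * L + 1 : ℕ) : ℤ) ≤ A.comb.X u)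
    {z : ℂ} (hz : z ∈ Ext r0) (a : {i // i ∈ A.I} → ℕ)
    (ha : ∀ i : {i // i ∈ A.I}, analyticOrderAt (fun z => A.f z i.1) z = a i) :
    ((∑ i : {i // i ∈ A.I}, A.comb.cs i.1 * a i : ℕ) : ℕ∞) ≤ analyticOrderAt A.P0 z := by
  classical
  by_cases hall : ∀ i, a i = 0
  · rw [Finset.sum_eq_zero fun i _ => by rw [hall i, mul_zero]]
    simp
  push Not at hall
  obtain ⟨i2, hi2⟩ := hall
  -- a coordinate that does not vanish
  obtain ⟨i1, hi1⟩ := Function.ne_iff.1 (A.f_ne z hz)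
  have hi1I : i1 ∈ A.I := (A.hI i1).2 ⟨z, hz, hi1⟩
  have hzero : ∀ i (hi : i ∈ A.I), A.f z i ≠ 0 → a ⟨i, hi⟩ = 0 := by
    intro i hi h
    have h1 := (A.f_an i z hz).analyticOrderAt_eq_zero.mpr h
    rw [ha ⟨i, hi⟩] at h1
    exact_mod_cast h1
  let u : Fin (n + 1) → ℤ := fun i => if h : i ∈ A.I then (a ⟨i, h⟩ : ℤ) else 0
  have hu : ∀ i (hi : i ∈ A.I), u i = a ⟨i, hi⟩ := fun i hi => dif_pos hi
  have hun : ∀ i, 0 ≤ u i := by
    intro i
    by_cases hi : i ∈ A.I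
    · rw [hu i hi]
      exact Nat.cast_nonneg _
    · rw [show u i = 0 from dif_neg hi]
  have hsumI : ∀ g : Fin (n + 1) → ℕ, ∑ j, (g j : ℤ) * u j =
      ((∑ i : {i // i ∈ A.I}, g i.1 * a i : ℕ) : ℤ) := by
    intro g
    rw [← Finset.sum_subset (Finset.subset_univ A.I) (fun j _ hj => by
      rw [show u j = 0 from dif_neg hj, mul_zero]), ← Finset.sum_coe_sort A.I]
    push_cast
    exact Finset.sum_congr rfl fun i _ => by rw [hu i.1 i.2]
  have hwgt : ∀ α : Fin (n + 1) →₀ ℕ, wgt u α =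
      ((∑ i : {i // i ∈ A.I}, α i.1 * a i : ℕ) : ℤ) := fun α => hsumI fun j => α j
  have hex : ∀ l, ∃ p : Fin ((A.G l).m + 1), ∀ i,
      wgt u ((A.G l).e p) ≤ wgt u ((A.G l).e i) := by
    intro l
    obtain ⟨p, -, hp⟩ := Finset.exists_min_image Finset.univ
      (fun i => wgt u ((A.G l).e i)) ⟨0, Finset.mem_univ _⟩
    exact ⟨p, fun i => hp i (Finset.mem_univ i)⟩
  choose p hp using hex
  have hX := hwide u ⟨i1, hi1I, i2.1, i2.2, by
    rw [hu i1 hi1I, hzero i1 hi1I hi1, hu i2.1 i2.2]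
    exact_mod_cast hi2.symm⟩ (fun i hi j _ => by
      have hiI : i ∈ A.I := (A.hI i).2 ⟨z, hz, A.f_U i hi z hz⟩
      rw [hu i hiI, hzero i hiI (A.f_U i hi z hz)]
      exact hun j)
  have h2 := A.comb.core1 u (μ := 0) ⟨i1, hi1I, by
    rw [hu i1 hi1I, hzero i1 hi1I hi1, Nat.cast_zero]⟩
    (fun l => wgt u ((A.G l).e (p l))) (fun l i => hp l i) hX
  -- the orders of the Wronskians
  have hw := fun l => AData.fin_ord hr0 (WC_an A.T_an (A.G l)) (WC_ne hr0 A.T_an (A.G l)) hz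
  choose w hw using hw
  have h3 : ∀ l, (∑ i, wgt u ((A.G l).e i) - wgt u ((A.G l).e (p l))) ≤ w l + tri (A.G l).m := by
    intro l
    have h4 := WC_order A.T_an (A.G l) hz (fun α => ∑ i : {i // i ∈ A.I}, α i.1 * a i)
      (fun α => (A.T_ord hz a ha α).ge) (p l)
    rw [hw] at h4
    have h5 : ∑ b, (∑ i : {i // i ∈ A.I}, ((A.G l).e ((p l).succAbove b)) i.1 * a i) ≤
        w l + tri (A.G l).m := by exact_mod_cast h4
    rw [Fin.sum_univ_succAbove _ (p l), add_sub_cancel_left]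
    rw [Finset.sum_congr rfl fun b _ => hwgt ((A.G l).e ((p l).succAbove b)), ← Nat.cast_sum]
    exact_mod_cast h5
  have h6 : analyticOrderAt A.P0 z = ((A.comb.D * ∑ l, w l : ℕ) : ℕ∞) := by
    have e : A.P0 = fun z => ∏ l, WC (monI A.I A.f) (A.G l) z ^ A.comb.D := rfl
    rw [e, analyticOrder_prod (z := z) Finset.univ
      (fun l z => WC (monI A.I A.f) (A.G l) z ^ A.comb.D)
      (fun l _ => (WC_an A.T_an (A.G l) z hz).fun_pow _)]
    have h7 : ∀ l, analyticOrderAt (fun z => WC (monI A.I A.f) (A.G l) z ^ A.comb.D) z =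
        ((A.comb.D * w l : ℕ) : ℕ∞) := by
      intro l
      have e2 : (fun z => WC (monI A.I A.f) (A.G l) z ^ A.comb.D) =
        WC (monI A.I A.f) (A.G l) ^ A.comb.D := rfl
      rw [e2, analyticOrderAt_pow (WC_an A.T_an (A.G l) z hz), hw, nsmul_eq_mul]
      push_cast
      rfl
    rw [Finset.sum_congr rfl fun l _ => h7 l, Finset.mul_sum]
    push_cast
    rfl
  rw [h6]
  have h8 : (A.comb.D : ℤ) * ∑ l, (∑ i, wgt u ((A.G l).e i) - wgt u ((A.G l).e (p l))) ≤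
      A.comb.D * (∑ l, (w l : ℤ) + ∑ l, (tri (A.G l).m : ℤ)) := by
    refine mul_le_mul_of_nonneg_left ?_ (Nat.cast_nonneg _)
    rw [← Finset.sum_add_distrib]
    exact Finset.sum_le_sum fun l _ => h3 l
  have h9 : ((A.comb.D * ∑ l, tri (A.G l).m : ℕ) : ℤ) ≤ (A.I.card : ℤ) * 0 -
      ∑ j, (A.comb.cs j : ℤ) * u j +
      A.comb.D * ∑ l, (∑ i, wgt u ((A.G l).e i) - wgt u ((A.G l).e (p l))) := h2
  rw [hsumI] at h9
  have h10 : ((∑ i : {i // i ∈ A.I}, A.comb.cs i.1 * a i : ℕ) : ℤ) ≤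
      ((A.comb.D * ∑ l, w l : ℕ) : ℤ) := by
    push_cast at h8 h9 ⊢
    linarith
  exact_mod_cast h10

end FamA

end Pool.Agent.R869.Wd
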