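import Pool.Agent.R869.WAn
import Pool.Agent.R869.AExt

/-!
Wide families of minimal relations between monomials in functions near infinity: the pointwise
bound and the conclusion.
-/

set_option autoImplicit false

namespace Pool.Agent.R869.Wd

open Filter Metric Real Set Topology Pool.Agent.H159R3.NV Pool.Agent.W602.NC Pool.Agent.W602.TL
  Pool.Agent.W603.BP Pool.Agent.W601.PH Pool.Agent.TH152.HY Pool.Agent.R869

variable {n : ℕ}

namespace FamA

variable {r0 : ℝ} {s L : ℕ} (A : FamA r0 n s L)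

/-- the functions -/
def Uf (i : {i // i ∈ A.I}) (z : ℂ) : ℂ := A.f z i.1

theorem mon_ne {z : ℂ} (h : ∀ i ∈ A.I, A.f z i ≠ 0) (α : Fin (n + 1) →₀ ℕ) :
    monI A.I A.f α z ≠ 0 := Finset.prod_ne_zero_iff.2 fun i hi => pow_ne_zero _ (h i hi)

/-- products of calm quotients -/
theorem calm_prod {z : ℂ} {B : ℝ} {w : ℂ}
    (g : (j : Fin (n + 1)) → ℂ → ℂ) (S : Finset (Fin (n + 1)))
    (hg : ∀ j ∈ S, ‖g j w‖ ≤ B * ‖g j z‖) (α : Fin (n + 1) →₀ ℕ) :
    ∏ j ∈ S, ‖g j w‖ ^ α j ≤ B ^ (∑ j ∈ S, α j) * ∏ j ∈ S, ‖g j z‖ ^ α j := by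
  rw [← Finset.prod_pow_eq_pow_sum, ← Finset.prod_mul_distrib]
  refine Finset.prod_le_prod (fun j _ => by positivity) fun j hj => ?_
  rw [← mul_pow]
  exact pow_le_pow_left₀ (norm_nonneg _) (hg j hj) _

/-- quotients of monomials of the same degree are calm -/
theorem calm_mon {z : ℂ} {ε B : ℝ} (hB : 1 ≤ B) (h : CalmI A.Uf z ε B) {α β : Fin (n + 1) →₀ ℕ}
    {d : ℕ} (hα : ∑ j ∈ A.I, α j = d) (hβ : ∑ j ∈ A.I, β j = d) {w : ℂ}
    (hw : w ∈ closedBall z ε) :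
    ‖monI A.I A.f β w / monI A.I A.f α w‖ ≤ B ^ (2 * d) *
      ‖monI A.I A.f β z / monI A.I A.f α z‖ := by
  obtain ⟨i0, hi0⟩ := A.ne
  have hf : ∀ v ∈ closedBall z ε, ∀ i ∈ A.I, A.f v i ≠ 0 := fun v hv i hi => h.1 ⟨i, hi⟩ v hv
  have hzm : z ∈ closedBall z ε := by
    have h1 : dist w z ≤ ε := hw
    exact mem_closedBall_self (dist_nonneg.trans h1)
  have key : ∀ v ∈ closedBall z ε, monI A.I A.f β v / monI A.I A.f α v =
      (∏ j ∈ A.I, (A.f v j / A.f v i0) ^ β j) * ∏ j ∈ A.I, (A.f v i0 / A.f v j) ^ α j := by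
    intro v hv
    have h0 := hf v hv i0 hi0
    have e1 : ∏ j ∈ A.I, (A.f v j / A.f v i0) ^ β j = monI A.I A.f β v / A.f v i0 ^ d := by
      unfold monI
      simp only [div_pow]
      rw [Finset.prod_div_distrib, Finset.prod_pow_eq_pow_sum, hβ]
    have e2 : ∏ j ∈ A.I, (A.f v i0 / A.f v j) ^ α j = A.f v i0 ^ d / monI A.I A.f α v := by
      unfold monI
      simp only [div_pow]
      rw [Finset.prod_div_distrib, Finset.prod_pow_eq_pow_sum, hα]
    rw [e1, e2]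
    have h1 : monI A.I A.f α v ≠ 0 := A.mon_ne (hf v hv) α
    field_simp
  rw [key w hw, key z hzm, norm_mul, norm_mul, norm_prod, norm_prod, norm_prod, norm_prod]
  simp only [norm_pow]
  have h1 := calm_prod (fun j v => A.f v j / A.f v i0) A.I
    (fun j hj => h.2 ⟨i0, hi0⟩ ⟨j, hj⟩ w hw) β
  have h2 := calm_prod (fun j v => A.f v i0 / A.f v j) A.I
    (fun j hj => h.2 ⟨j, hj⟩ ⟨i0, hi0⟩ w hw) α
  rw [hβ] at h1
  rw [hα] at h2
  calc _ ≤ (B ^ d * ∏ j ∈ A.I, ‖A.f z j / A.f z i0‖ ^ β j) *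
        (B ^ d * ∏ j ∈ A.I, ‖A.f z i0 / A.f z j‖ ^ α j) :=
        mul_le_mul h1 h2 (by positivity) (by positivity)
    _ = _ := by rw [two_mul, pow_add]; ring

/-- the relation with its own index set -/
def own (l : Fin A.r) : Circ ℂ (rst r0 fun i : Fin ((A.G l).m + 1) => monI A.I A.f ((A.G l).e i)) where
  m := (A.G l).m
  e := id
  inj := Function.injective_id
  c := (A.G l).c
  c_ne := (A.G l).c_ne
  rel := (A.G l).rel
  li := (A.G l).li

theorem own_eq (l : Fin A.r) : WC (fun i : Fin ((A.G l).m + 1) => monI A.I A.f ((A.G l).e i))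
    (A.own l) = WC (monI A.I A.f) (A.G l) := rfl

/-- the constant -/
noncomputable def Cc : ℝ := A.comb.D * ∑ l, Real.log (KC (A.own l))

theorem Cc_nonneg : 0 ≤ A.Cc := mul_nonneg (Nat.cast_nonneg _)
  (Finset.sum_nonneg fun l _ => Real.log_nonneg (one_le_KC _))

/-- the exponent of the loss -/
def Nn : ℕ := A.comb.D * ∑ l, (A.G l).m * (A.G l).m * (2 * A.d l + 1)

theorem W_log {z : ℂ} {ε B : ℝ} (hε : 0 < ε) (hε1 : ε ≤ 1) (hB : 1 ≤ B)
    (hball : closedBall z ε ⊆ Ext r0) (hcalm : CalmI A.Uf z ε B) (l : Fin A.r)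
    (hW : WC (monI A.I A.f) (A.G l) z ≠ 0) (i : Fin ((A.G l).m + 1)) :
    Real.log ‖WC (monI A.I A.f) (A.G l) z‖ ≤ Real.log (KC (A.own l)) +
      ((A.G l).m * (A.G l).m * (2 * A.d l + 1) : ℕ) * Real.log (B / ε) +
      ∑ b, Real.log ‖monI A.I A.f ((A.G l).e (i.succAbove b)) z‖ := by
  have hf : ∀ v ∈ closedBall z ε, ∀ i ∈ A.I, A.f v i ≠ 0 := fun v hv i hi => hcalm.1 ⟨i, hi⟩ v hv
  have hd : ∀ i, ∑ j ∈ A.I, (A.G l).e i j = A.d l := by
    intro i
    rw [← A.deg l i]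
    exact Finset.sum_subset (Finset.subset_univ _) fun j _ hj => A.supp l i j hj
  have h1 := WC_log (T := fun i : Fin ((A.G l).m + 1) => monI A.I A.f ((A.G l).e i))
    (fun i => A.T_an _) (A.own l) (z := z) (ε := ε) (B := B ^ (2 * A.d l)) (one_le_pow₀ hB) hε hε1
    hball (fun j w hw => A.mon_ne (hf w hw) _)
    (fun i j w hw => A.calm_mon hB hcalm (hd i) (hd j) hw) hW i
  have h2 : Real.log (B ^ (2 * A.d l) / ε) ≤ (2 * A.d l + 1 : ℕ) * Real.log (B / ε) := by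
    rw [← Real.log_pow]
    refine Real.log_le_log (by positivity) ?_
    rw [div_pow]
    have e1 : B ^ (2 * A.d l) ≤ B ^ (2 * A.d l + 1) := pow_le_pow_right₀ hB (Nat.le_succ _)
    have e2 : ε ^ (2 * A.d l + 1) ≤ ε := pow_le_of_le_one hε.le hε1 (Nat.succ_ne_zero _)
    exact div_le_div₀ (by positivity) e1 (by positivity) e2
  have h3 := mul_le_mul_of_nonneg_left h2
    (Nat.cast_nonneg ((A.G l).m * (A.G l).m) : (0 : ℝ) ≤ ((A.G l).m * (A.G l).m : ℕ))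
  have h4 : Real.log ‖WC (monI A.I A.f) (A.G l) z‖ - Real.log (KC (A.own l)) -
      (((A.G l).m * (A.G l).m : ℕ) : ℝ) * Real.log (B ^ (2 * A.d l) / ε) ≤
      ∑ b, Real.log ‖monI A.I A.f ((A.G l).e (i.succAbove b)) z‖ := h1
  push_cast at h3 h4 ⊢
  linarith

theorem log_mon {z : ℂ} (hf : ∀ i ∈ A.I, A.f z i ≠ 0) {α : Fin (n + 1) →₀ ℕ} :
    Real.log ‖monI A.I A.f α z‖ =
      wgt (fun i => if i ∈ A.I then Real.log ‖A.f z i‖ else 0) α := by
  unfold monI wgt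
  rw [norm_prod, Real.log_prod fun i hi => norm_ne_zero_iff.2 (pow_ne_zero _ (hf i hi)),
    ← Finset.sum_subset (Finset.subset_univ A.I) fun j _ hj => by simp only [if_neg hj, mul_zero]]
  refine Finset.sum_congr rfl fun i hi => ?_
  simp only [if_pos hi]
  rw [norm_pow, Real.log_pow]

/-- the pointwise bound -/
theorem point_main {z : ℂ} {ε B : ℝ} (hε : 0 < ε) (hε1 : ε ≤ 1) (hB : 1 ≤ B)
    (hball : closedBall z ε ⊆ Ext r0) (hcalm : CalmI A.Uf z ε B) (S : ℝ)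
    (hS1 : ∀ i, ‖A.Uf i z‖ ≤ S) (hS : ∃ i, ‖A.Uf i z‖ = S) :
    ‖A.P0 z‖ * S ^ A.I.card ≤ Real.exp A.Cc * (B / ε) ^ A.Nn *
      ∏ i : {i // i ∈ A.I}, ‖A.Uf i z‖ ^ A.comb.cs i.1 := by
  classical
  have hzm : z ∈ closedBall z ε := mem_closedBall_self hε.le
  have hBε : 0 < B / ε := by positivity
  have hUz : ∀ i, 0 < ‖A.Uf i z‖ := fun i => norm_pos_iff.mpr (hcalm.1 i z hzm)
  have hprod : 0 < ∏ i : {i // i ∈ A.I}, ‖A.Uf i z‖ ^ A.comb.cs i.1 :=
    Finset.prod_pos fun i _ => pow_pos (hUz i) _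
  have hf : ∀ i ∈ A.I, A.f z i ≠ 0 := fun i hi => hcalm.1 ⟨i, hi⟩ z hzm
  by_cases hP : A.P0 z = 0
  · rw [hP, norm_zero, zero_mul]
    positivity
  have hW : ∀ l, WC (monI A.I A.f) (A.G l) z ≠ 0 := by
    intro l h0
    apply hP
    unfold P0
    exact Finset.prod_eq_zero (Finset.mem_univ l) (by rw [h0, zero_pow A.comb.D_pos.ne'])
  obtain ⟨i1, hi1⟩ := hS
  have hS0 : 0 < S := hi1 ▸ hUz i1
  set v : Fin (n + 1) → ℝ := fun i => if i ∈ A.I then Real.log ‖A.f z i‖ else 0 with hv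
  have hvI : ∀ i ∈ A.I, v i = Real.log ‖A.f z i‖ := fun i hi => if_pos hi
  have hex : ∀ l, ∃ p : Fin ((A.G l).m + 1), ∀ i,
      wgt v ((A.G l).e i) ≤ wgt v ((A.G l).e p) := by
    intro l
    obtain ⟨p, -, hp⟩ := Finset.exists_max_image Finset.univ
      (fun i => wgt v ((A.G l).e i)) ⟨0, Finset.mem_univ _⟩
    exact ⟨p, fun i => hp i (Finset.mem_univ i)⟩
  choose p hp using hex
  have hneg : ∀ α : Fin (n + 1) →₀ ℕ, wgt (fun j => - v j) α = - wgt v α := by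
    intro α
    unfold wgt
    rw [← Finset.sum_neg_distrib]
    exact Finset.sum_congr rfl fun j _ => by ring
  have h1 := A.comb.core0 (fun j => - v j) (μ := - Real.log S) ⟨i1.1, i1.2, by
    change - v i1.1 = _
    rw [hvI i1.1 i1.2]
    have : ‖A.f z i1.1‖ = S := hi1
    rw [this]⟩
    (fun l => - wgt v ((A.G l).e (p l))) (fun l i => by
      rw [hneg]
      exact neg_le_neg (hp l i))
  have h2 : (A.I.card : ℝ) * Real.log S + A.comb.D * ∑ l, (∑ i, wgt v ((A.G l).e i) -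
      wgt v ((A.G l).e (p l))) ≤ ∑ j, (A.comb.cs j : ℝ) * v j := by
    have e1 : ∑ j, (A.comb.cs j : ℝ) * (- v j) = - ∑ j, (A.comb.cs j : ℝ) * v j := by
      rw [← Finset.sum_neg_distrib]
      exact Finset.sum_congr rfl fun j _ => by ring
    have e2 : ∑ l : Fin A.r, (∑ i, wgt (fun j => - v j) ((A.G l).e i) -
        - wgt v ((A.G l).e (p l))) =
        - ∑ l, (∑ i, wgt v ((A.G l).e i) - wgt v ((A.G l).e (p l))) := by
      rw [← Finset.sum_neg_distrib]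
      refine Finset.sum_congr rfl fun l _ => ?_
      rw [Finset.sum_congr rfl fun i _ => hneg ((A.G l).e i), Finset.sum_neg_distrib]
      ring
    have h3 : (0 : ℝ) ≤ (A.I.card : ℝ) * (- Real.log S) - ∑ j, (A.comb.cs j : ℝ) * (- v j) +
        A.comb.D * ∑ l : Fin A.r, (∑ i, wgt (fun j => - v j) ((A.G l).e i) -
        - wgt v ((A.G l).e (p l))) := h1
    rw [e1, e2] at h3
    linarith
  have h3 : ∀ l, Real.log ‖WC (monI A.I A.f) (A.G l) z‖ ≤ Real.log (KC (A.own l)) +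
      ((A.G l).m * (A.G l).m * (2 * A.d l + 1) : ℕ) * Real.log (B / ε) +
      (∑ i, wgt v ((A.G l).e i) - wgt v ((A.G l).e (p l))) := by
    intro l
    have h4 := A.W_log hε hε1 hB hball hcalm l (hW l) (p l)
    have h5 : ∑ b, Real.log ‖monI A.I A.f ((A.G l).e ((p l).succAbove b)) z‖ =
        ∑ i, wgt v ((A.G l).e i) - wgt v ((A.G l).e (p l)) := by
      rw [Fin.sum_univ_succAbove _ (p l), add_sub_cancel_left]
      exact Finset.sum_congr rfl fun b _ => A.log_mon hf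
    rw [h5] at h4
    exact h4
  have h4 : (A.comb.D : ℝ) * ∑ l, Real.log ‖WC (monI A.I A.f) (A.G l) z‖ ≤
      A.Cc + A.Nn * Real.log (B / ε) +
      A.comb.D * ∑ l, (∑ i, wgt v ((A.G l).e i) - wgt v ((A.G l).e (p l))) := by
    have h5 := mul_le_mul_of_nonneg_left (Finset.sum_le_sum fun l (_ : l ∈ Finset.univ) => h3 l)
      (Nat.cast_nonneg A.comb.D : (0 : ℝ) ≤ A.comb.D)
    refine h5.trans (le_of_eq ?_)
    rw [Finset.sum_add_distrib, Finset.sum_add_distrib, ← Finset.sum_mul]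
    unfold Cc Nn
    push_cast
    ring
  have hlogP : Real.log ‖A.P0 z‖ = A.comb.D * ∑ l, Real.log ‖WC (monI A.I A.f) (A.G l) z‖ := by
    unfold P0
    rw [norm_prod, Real.log_prod fun l _ => norm_ne_zero_iff.2 (pow_ne_zero _ (hW l)),
      Finset.mul_sum]
    exact Finset.sum_congr rfl fun l _ => by rw [norm_pow, Real.log_pow]
  have hlogU : Real.log (∏ i : {i // i ∈ A.I}, ‖A.Uf i z‖ ^ A.comb.cs i.1) =
      ∑ j, (A.comb.cs j : ℝ) * v j := by
    rw [Real.log_prod (fun i _ => (pow_pos (hUz i) _).ne')]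
    rw [← Finset.sum_subset (Finset.subset_univ A.I) (fun j _ hj => by
      rw [show v j = 0 from if_neg hj, mul_zero]), ← Finset.sum_coe_sort A.I]
    refine Finset.sum_congr rfl fun i _ => ?_
    rw [Real.log_pow, hvI i.1 i.2]
    rfl
  have hpos1 : 0 < ‖A.P0 z‖ * S ^ A.I.card :=
    mul_pos (norm_pos_iff.2 hP) (pow_pos hS0 _)
  rw [← Real.log_le_log_iff hpos1 (by positivity), Real.log_mul (norm_ne_zero_iff.2 hP)
    (pow_ne_zero _ hS0.ne'), Real.log_pow, Real.log_mul (by positivity) hprod.ne',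
    Real.log_mul (by positivity) (by positivity), Real.log_exp, Real.log_pow, hlogP, hlogU]
  linarith

/-- The main analytic statement. -/
theorem main (hr0 : 0 < r0)
    (hwide : ∀ u : Fin (n + 1) → ℤ, (∃ i ∈ A.I, ∃ j ∈ A.I, u i ≠ u j) →
      (∀ i ∈ A.U, ∀ j ∈ A.I, u i ≤ u j) → ((s * L + 1 : ℕ) : ℤ) ≤ A.comb.X u)
    (i i0 : Fin (n + 1)) (hi : i ∈ A.I) (hi0 : i0 ∈ A.I) :
    ∃ R : ℂ → ℂ, MeromorphicAt (fun w => R w⁻¹) 0 ∧ ∃ R0 : ℝ, ∀ z, R0 < ‖z‖ →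
      A.f z i = R z * A.f z i0 := by
  classical
  obtain ⟨z1, hz1, hz1P⟩ := A.P0_ne hr0
  have h := ext_fin (ι := {i // i ∈ A.I}) hr0 (fun i => A.comb.cs i.1) (κ := A.I.card)
    (Nn := A.Nn) (Finset.card_pos.2 A.ne) (C1 := Real.exp A.Cc) (Real.one_le_exp A.Cc_nonneg)
    (U := A.Uf) (fun i => A.f_an i.1) (fun i => (A.hI i.1).1 i.2) (P := A.P0) A.P0_an
    ⟨z1, hz1, hz1P⟩ (fun z hz a ha => A.order_main hr0 hwide hz a ha)
    (fun z ε B hε hε1 hB hball hcalm S hS1 hS => A.point_main hε hε1 hB hball hcalm S hS1 hS)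
    ⟨i0, hi0⟩ ⟨i, hi⟩
  exact h

end FamA

end Pool.Agent.R869.Wd
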