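import Pool.Agent.R869.WFive
import Pool.Agent.W602.GT.KAct

/-!
Irreducible components of the varieties given by wide systems of forms.
-/

set_option autoImplicit false

namespace Pool.Agent.R869.Wd

open FF MvPolynomial Pool.Agent.H159R3.GGLLog
  Pool.Agent.W602.GT Pool.Agent.W603.BP Pool.Agent.R869

variable {k : Type} [Field k] {n : ℕ} {ι : Type} {U : Set (Fin (n + 1))}

/-- the product of the partial sums of the forms which do not vanish at `y` -/
noncomputable def excC [Fintype ι] (F : ι → MvPolynomial (Fin (n + 1)) k) {K : Type} [Field K]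
    [Algebra k K] (y : Fin (n + 1) → K) : MvPolynomial (Fin (n + 1)) k :=
  open Classical in
  ∏ e, ∏ A ∈ (F e).support.powerset,
    if val y (∑ α ∈ A, monomial α ((F e).coeff α)) = 0 then 1
    else ∑ α ∈ A, monomial α ((F e).coeff α)

theorem excC_form [Fintype ι] {F : ι → MvPolynomial (Fin (n + 1)) k} (hF : ∀ e, IsForm (F e))
    {K : Type} [Field K] [Algebra k K] (y : Fin (n + 1) → K) : IsForm (excC F y) := by
  classical
  choose d hd using hF
  have h1 : ∀ e, ∀ A ∈ (F e).support.powerset, ∃ m, IsHomogeneous (R := k)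
      (if val y (∑ α ∈ A, monomial α ((F e).coeff α)) = 0 then 1
        else ∑ α ∈ A, monomial α ((F e).coeff α)) m := by
    intro e A hA
    split_ifs
    · exact ⟨0, isHomogeneous_one _ _⟩
    · refine ⟨d e, IsHomogeneous.sum _ _ _ fun α hα => ?_⟩
      refine isHomogeneous_monomial _ ?_
      have h2 := hd e (mem_support_iff.1 (Finset.mem_powerset.1 hA hα))
      rw [← h2]
      rw [Finsupp.weight_apply, Finsupp.sum, Finsupp.degree_apply]
      exact Finset.sum_congr rfl fun j _ => by simp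
  have h2 : ∀ e, ∃ m, IsHomogeneous (R := k) (∏ A ∈ (F e).support.powerset,
      if val y (∑ α ∈ A, monomial α ((F e).coeff α)) = 0 then 1
        else ∑ α ∈ A, monomial α ((F e).coeff α)) m := by
    intro e
    have h3 : ∀ A : Finset (Fin (n + 1) →₀ ℕ), ∃ m : ℕ, A ∈ (F e).support.powerset →
      IsHomogeneous (R := k) (if val y (∑ α ∈ A, monomial α ((F e).coeff α)) = 0 then 1
        else ∑ α ∈ A, monomial α ((F e).coeff α)) m := by
      intro A
      by_cases h : A ∈ (F e).support.powerset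
      · obtain ⟨m, hm⟩ := h1 e A h
        exact ⟨m, fun _ => hm⟩
      · exact ⟨0, fun h' => absurd h' h⟩
    choose m hm using h3
    exact ⟨_, IsHomogeneous.prod _ _ m hm⟩
  choose m hm using h2
  exact ⟨_, IsHomogeneous.prod _ _ m fun e _ => hm e⟩

theorem excC_ne [Fintype ι] (F : ι → MvPolynomial (Fin (n + 1)) k) {K : Type} [Field K]
    [Algebra k K] (y : Fin (n + 1) → K) : val y (excC F y) ≠ 0 := by
  classical
  unfold excC val
  rw [map_prod]
  refine Finset.prod_ne_zero_iff.2 fun e _ => ?_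
  rw [map_prod]
  refine Finset.prod_ne_zero_iff.2 fun A _ => ?_
  split_ifs with h
  · rw [map_one]
    exact one_ne_zero
  · exact h

theorem excC_sub [Fintype ι] {F : ι → MvPolynomial (Fin (n + 1)) k} {K : Type} [Field K]
    [Algebra k K] {y : Fin (n + 1) → K} {L : Type} [Field L] [Algebra k L]
    {z : Fin (n + 1) → L} (hz : val z (excC F y) ≠ 0) (e : ι) (b : Fin (n + 1) → ℤ) (v : ℤ)
    (h : val z (wc b v (F e)) = 0) : val y (wc b v (F e)) = 0 := by
  classical
  by_contra hne
  apply hz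
  unfold excC val
  rw [map_prod]
  refine Finset.prod_eq_zero (Finset.mem_univ e) ?_
  rw [map_prod]
  refine Finset.prod_eq_zero (i := (F e).support.filter (fun α => ∑ j, (α j : ℤ) * b j = v))
    (Finset.mem_powerset.2 (Finset.filter_subset _ _)) ?_
  have h1 : (∑ α ∈ (F e).support.filter (fun α => ∑ j, (α j : ℤ) * b j = v),
      monomial α ((F e).coeff α)) = wc b v (F e) := rfl
  rw [h1, if_neg (show ¬ (aeval y) (wc b v (F e)) = 0 from hne)]
  exact h

/-- the coordinates of a point of `X` outside `H` vanish where those of the component vanish -/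
theorem supp_comp [IsAlgClosed k] {F : ι → MvPolynomial (Fin (n + 1)) k} {K : Type} [Field K]
    [Algebra k K] {y : Fin (n + 1) → K} {H : MvPolynomial (Fin (n + 1)) k}
    (hH : ∀ x ∈ ConeU U F, val x H ≠ 0 → x ∈ VarPts k y) {L : Type} [Field L] [Algebra k L]
    {z : Fin (n + 1) → L} (hz0 : z ≠ 0) (hzU : ∀ j ∈ U, z j ≠ 0) (hzF : ∀ e, val z (F e) = 0)
    (hzH : val z H ≠ 0) {G : MvPolynomial (Fin (n + 1)) k} (hG : IsForm G)
    (hyG : val y G = 0) : val z G = 0 := by
  have h1 : val z (H * G) = 0 := by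
    refine val_of_cone (U := U) hz0 hzU hzF ?_
    intro x hx
    rw [val_mul]
    by_cases h0 : val x H = 0
    · rw [h0, zero_mul]
    · rw [(hH x hx h0).2 G hG hyG, mul_zero]
  rw [val_mul] at h1
  exact (mul_eq_zero.1 h1).resolve_left hzH

theorem supp_comp' [IsAlgClosed k] {F : ι → MvPolynomial (Fin (n + 1)) k} {K : Type} [Field K]
    [Algebra k K] {y : Fin (n + 1) → K} {H : MvPolynomial (Fin (n + 1)) k}
    (hH : ∀ x ∈ ConeU U F, val x H ≠ 0 → x ∈ VarPts k y) {L : Type} [Field L] [Algebra k L]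
    {z : Fin (n + 1) → L} (hz0 : z ≠ 0) (hzU : ∀ j ∈ U, z j ≠ 0) (hzF : ∀ e, val z (F e) = 0)
    (hzH : val z H ≠ 0) {i : Fin (n + 1)} (hi : z i ≠ 0) : y i ≠ 0 := by
  intro h0
  apply hi
  have h1 := supp_comp hH hz0 hzU hzF hzH (G := X i) ⟨1, isHomogeneous_X _ _⟩ (by
    unfold val
    rw [aeval_X]
    exact h0)
  unfold val at h1
  rwa [aeval_X] at h1

/-- components with diagonal actions are not of log general type -/
theorem comp_not_lgt [IsAlgClosed k] [CharZero k] {F : ι → MvPolynomial (Fin (n + 1)) k}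
    {K : Type} [Field K] [Algebra k K] {w : ℕ} {y : Fin (n + 1) → K} (hy : SubVarU U F K w y)
    (hcomp : IsComponentU U F y) {b : Fin (n + 1) → ℤ} {i i' : Fin (n + 1)} (hi : y i ≠ 0)
    (hi' : y i' ≠ 0) (hb : b i ≠ b i') (hwc : ∀ e v, val y (wc b v (F e)) = 0) :
    ¬ LogGeneralType k K w (OffU U y) :=
  orb_not_gt hy.gen b hi hi' hb hy.unit fun G hG h0 v => ideal_hom hy hcomp hwc G hG h0 v

/-- **Strong Lang conjecture for components of wide systems.** -/
theorem strong_of_lgt [IsAlgClosed k] [CharZero k] [Finite ι]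
    {F : ι → MvPolynomial (Fin (n + 1)) k} {s N : ℕ} (hC : Sys U F s N)
    {K : Type} [Field K] [Algebra k K] {w : ℕ} {y : Fin (n + 1) → K} (hy : SubVarU U F K w y)
    (hcomp : IsComponentU U F y) (hgt : LogGeneralType k K w (OffU U y)) :
    ∃ G : MvPolynomial (Fin (n + 1)) k, IsForm G ∧ val y G ≠ 0 ∧
      ∀ (L : Type) [Field L] [Algebra k L] (t : ℕ) (z : Fin (n + 1) → L), 1 ≤ t →
        SubVarU U F L t z → val z G ≠ 0 → LogGeneralType k L t (OffU U z) := by
  have := Fintype.ofFinite ι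
  obtain ⟨H, hHf, hHy, hH⟩ := hcomp
  obtain ⟨d1, hd1⟩ := hHf
  obtain ⟨d2, hd2⟩ := excC_form hC.form y
  refine ⟨H * excC F y, ⟨_, hd1.mul hd2⟩, ?_, ?_⟩
  · rw [val_mul]
    exact mul_ne_zero hHy (excC_ne F y)
  · intro L _ _ t z ht hz hzG
    rw [val_mul] at hzG
    have hzH := left_ne_zero_of_mul hzG
    by_contra hcon
    have hgen : Algebra.IsAlgebraic (coords k z) L := by
      rw [hz.gen]
      infer_instance
    obtain ⟨b, i, i', hi, hi', hb, hwc⟩ := weights hC.form hC.pos hC.card hC.wide hC.num ht hz.dim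
      hz.ne hgen hz.mem hz.unit hcon
    exact comp_not_lgt hy ⟨H, ⟨d1, hd1⟩, hHy, hH⟩ (supp_comp' hH hz.ne hz.unit hz.mem hzH hi)
      (supp_comp' hH hz.ne hz.unit hz.mem hzH hi') hb
      (fun e v => excC_sub (right_ne_zero_of_mul hzG) e b v (hwc e v)) hgt

/-- log general type in terms of diagonal actions -/
theorem lgt_iff_acts [IsAlgClosed k] [CharZero k]
    {F : ι → MvPolynomial (Fin (n + 1)) k} {s N : ℕ} (hC : Sys U F s N)
    {K : Type} [Field K] [Algebra k K] {w : ℕ} (hw : 1 ≤ w) {y : Fin (n + 1) → K}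
    (hy : SubVarU U F K w y) (hcomp : IsComponentU U F y) :
    LogGeneralType k K w (OffU U y) ↔
      ∀ b : Fin (n + 1) → ℤ, Acts U k y b → ∀ i i', y i ≠ 0 → y i' ≠ 0 → b i = b i' := by
  constructor
  · intro hgt b hb i i' hi hi'
    by_contra hne
    refine orb_not_gt hy.gen b hi hi' hne hy.unit (fun G hG h0 v => ?_) hgt
    -- the ideal is homogeneous
    have hkey : ∀ x : Fin (n + 1) → k, x ∈ PtsU U k y → val x (wc b v G) = 0 := by
      intro x hx
      exact wc_of_orbit (fun t ht => (hb t ht x hx).1.2 G hG h0) v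
    -- the points of the variety are dense
    by_contra hcon
    let R : MvPolynomial (Fin (n + 1)) k := wc b v G * X i *
      ∏ j ∈ (Set.toFinite U).toFinset, X j
    have hR : aeval y R ≠ 0 := by
      simp only [R, map_mul, map_prod, aeval_X]
      refine mul_ne_zero (mul_ne_zero hcon hi) ?_
      exact Finset.prod_ne_zero_iff.2 fun j hj => hy.unit j ((Set.Finite.mem_toFinset _).1 hj)
    obtain ⟨x, hx, hx0⟩ := specialise y R hR
    simp only [R, map_mul, map_prod, aeval_X] at hx
    have h1 := left_ne_zero_of_mul hx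
    refine left_ne_zero_of_mul h1 (hkey x ⟨⟨fun h0' => ?_, fun G' _ h' => hx0 _ h'⟩, fun j hj => ?_⟩)
    · exact right_ne_zero_of_mul h1 (congrFun h0' i)
    · exact Finset.prod_ne_zero_iff.1 (right_ne_zero_of_mul hx) j
        ((Set.Finite.mem_toFinset _).2 hj)
  · intro h
    by_contra hgt
    have hgen : Algebra.IsAlgebraic (coords k y) K := by
      rw [hy.gen]
      infer_instance
    obtain ⟨b, i, i', hi, hi', hb, hwc⟩ := weights hC.form hC.pos hC.card hC.wide hC.num hw hy.dim
      hy.ne hgen hy.mem hy.unit hgt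
    exact hb (h b (acts_of_hom fun G hG h0 v => ideal_hom hy hcomp hwc G hG h0 v) i i' hi hi')

end Pool.Agent.R869.Wd
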