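import Pool.Agent.R869.WWgt
import Pool.Agent.W602.GT.SpDefs

/-!
Systems of forms with wide differences of exponents.
-/

set_option autoImplicit false

namespace Pool.Agent.R869.Wd

/-- The system of forms `F` is `N`-wide, relative to the set `U` of variables. Let `I` be a set of
variables that contains `U`, and consider at most `n` pairs `α l`, `β l` of (exponents of) monomials
in the variables of `I` which occur in the same form. If the sum of the segments from `α l` to `β l`
has positive width in all directions `u` (the integer vectors that are not constant on `I`), then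
its width in all directions `u` that are minimal on `U` is at least `N`. So the lattice widths of
these sums of segments are `0` or at least `N`, if `U` is empty. -/
def Wide {k : Type} [Field k] {n : ℕ} {ι : Type} (U : Set (Fin (n + 1)))
    (F : ι → MvPolynomial (Fin (n + 1)) k) (N : ℕ) : Prop :=
  ∀ (I : Set (Fin (n + 1))) (r : ℕ) (e : Fin r → ι) (α β : Fin r → (Fin (n + 1) →₀ ℕ)),
    U ⊆ I → r ≤ n →
    (∀ l, α l ∈ (F (e l)).support ∧ β l ∈ (F (e l)).support ∧
      ∀ j, j ∉ I → α l j = 0 ∧ β l j = 0) →
    (∀ u : Fin (n + 1) → ℤ, (∃ i ∈ I, ∃ j ∈ I, u i ≠ u j) →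
      0 < ∑ l, |wgt u (α l) - wgt u (β l)|) →
    ∀ u : Fin (n + 1) → ℤ, (∃ i ∈ I, ∃ j ∈ I, u i ≠ u j) → (∀ i ∈ U, ∀ j ∈ I, u i ≤ u j) →
      (N : ℤ) ≤ ∑ l, |wgt u (α l) - wgt u (β l)|

end Pool.Agent.R869.Wd
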