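import Pool.Agent.R869.WSm

/-!
Hypersurfaces given by forms with dominating variables: final form.
-/

set_option autoImplicit false

open MvPolynomial Pool.Agent.W602.GT

namespace Pool.Agent.R869.Wd

/-- The Zariski closure in `X = {F = 0}` of the set of the degenerate points. -/
def ZDeg {k : Type} [Field k] {n : ℕ} (F : MvPolynomial (Fin (n + 1)) k)
    (v : (Fin (n + 1) →₀ ℕ) → Fin (n + 1)) : Set (Fin (n + 1) → k) :=
  {x | x ∈ Cone (fun _ : Unit => F) ∧ ∀ G : MvPolynomial (Fin (n + 1)) k, IsForm G →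
    (∀ x' ∈ Degenerate F v, val x' G = 0) → val x G = 0}

section

variable {k : Type} [Field k] [IsAlgClosed k] [CharZero k] {n : ℕ}
  {F : MvPolynomial (Fin (n + 1)) k} {d δ : ℕ} {v : (Fin (n + 1) →₀ ℕ) → Fin (n + 1)}

theorem spAlg_deg (hd : F.IsHomogeneous d) (hv : Dominates F δ v)
    (hN : 2 * δ + n * ((n + 1) * (n * (n - 1) / 2)) < d) :
    SpAlg (fun _ : Unit => F) = ZDeg F v ∧ SpGm (fun _ : Unit => F) = ZDeg F v := by
  have h1 := special_orb (sys_of_dominated (U := ∅) hd hv.dominated hN)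
  have h2 := spOrb_degenerate hd hv (by omega)
  exact ⟨h1.1.trans h2, h1.2.trans h2⟩

theorem deg_ne (hd : F.IsHomogeneous d) (hv : Dominates F δ v) (hd1 : 1 < d)
    (hN : 2 * δ + n * ((n + 1) * (n * (n - 1) / 2)) < d)
    (hcard : F.support.card = n + 1) (hF : Irreducible F) :
    ZDeg F v ≠ Cone (fun _ : Unit => F) := by
  intro heq
  obtain ⟨x, hx, hne⟩ := excH_ne hd hv hd1 hcard hF
  rw [← (spAlg_deg hd hv hN).1] at heq
  rw [← heq] at hx
  apply hne
  refine hx.2 _ (excH_form hd) fun K _ _ w y hw hy hgt => ?_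
  by_contra h0
  apply hgt
  exact (general_iff y).1 (lgt_of_excH hd hv hN hw (subVar_iff.2 hy) h0)

theorem gt_generic (hd : F.IsHomogeneous d) (hv : Dominates F δ v) (hd1 : 1 < d)
    (hN : 2 * δ + n * ((n + 1) * (n * (n - 1) / 2)) < d)
    (hcard : F.support.card = n + 1) (hF : Irreducible F) {U : Set (Fin (n + 1))} {K : Type}
    [Field K] [Algebra k K] {w : ℕ} (hw : 1 ≤ w) {y : Fin (n + 1) → K}
    (hy : SubVarU U (fun _ : Unit => F) K w y)
    (hgen : ∀ G : MvPolynomial (Fin (n + 1)) k, IsForm G → val y G = 0 →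
      ∀ x ∈ Cone (fun _ : Unit => F), val x G = 0) : LogGeneralType k K w (OffU U y) := by
  refine lgt_of_excH hd hv hN hw hy fun h0 => ?_
  obtain ⟨x, hx, hne⟩ := excH_ne hd hv hd1 hcard hF
  exact hne (hgen _ (excH_form hd) h0 x hx)

theorem gt_or_deg (hd : F.IsHomogeneous d) (hv : Dominates F δ v)
    (hN : 2 * δ + n * ((n + 1) * (n * (n - 1) / 2)) < d) {K : Type} [Field K] [Algebra k K]
    {w : ℕ} (hw : 1 ≤ w) {y : Fin (n + 1) → K} (hy : SubVar (fun _ : Unit => F) K w y)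
    (hgt : ¬ GeneralType k K w) : ∃ S : Set (Fin (n + 1)), S.Nonempty ∧ (∀ j ∈ S, y j ≠ 0) ∧
      (∃ j, j ∉ S ∧ y j ≠ 0) ∧ val y (part F v S) = 0 := by
  by_contra hcon
  push Not at hcon
  exact hgt ((general_iff y).1 (lgt_of_nondeg hd hv hN hw (subVar_iff.2 hy)
    fun S hS hS1 hS2 => hcon S hS hS1 hS2))

end

theorem spHol_deg {n : ℕ} {F : MvPolynomial (Fin (n + 1)) ℂ} {d δ : ℕ}
    {v : (Fin (n + 1) →₀ ℕ) → Fin (n + 1)} (hd : F.IsHomogeneous d) (hv : Dominates F δ v)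
    (hN : 2 * δ + n * ((n + 1) * (n * (n - 1) / 2)) < d) :
    Pool.Agent.H159R3.GGLLog.SpH ∅ (fun _ : Unit => F) = ZDeg F v ∧
      Pool.Agent.Y190.AN.SpCg ∅ (fun _ : Unit => F) = ZDeg F v ∧
      Pool.Agent.W603.BP.SpP ∅ (fun _ : Unit => F) = ZDeg F v := by
  have h1 := special_hol (sys_of_dominated (U := ∅) hd hv.dominated hN)
  have h2 := spOrb_degenerate hd hv (by omega)
  exact ⟨h1.1.trans h2, h1.2.1.trans h2, h1.2.2.trans h2⟩

end Pool.Agent.R869.Wd
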