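import Pool.Agent.R869.WDel

/-!
Open parts of hypersurfaces given by forms with dominating variables.
-/

set_option autoImplicit false

open MvPolynomial Filter Metric Topology Pool.Agent.W602.GT Pool.Agent.H159R3.GGLLog
  Pool.Agent.W603.BP

namespace Pool.Agent.R869.Wd

theorem excH_zero {k : Type} [Field k] {n : ℕ} {F : MvPolynomial (Fin (n + 1)) k}
    {v : (Fin (n + 1) →₀ ℕ) → Fin (n + 1)} {K : Type} [Field K] [Algebra k K]
    {y : Fin (n + 1) → K} {S : Set (Fin (n + 1))} (hS : S.Nonempty) (hS2 : ∃ j, j ∉ S)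
    (h0 : val y (part F v S) = 0) : val y (excH F v) = 0 := by
  classical
  unfold excH val
  rw [map_mul]
  refine mul_eq_zero_of_right _ ?_
  rw [map_prod]
  refine Finset.prod_eq_zero (i := (Set.toFinite S).toFinset) ?_ ?_
  · simp only [Finset.mem_filter, Finset.mem_univ, true_and]
    obtain ⟨s, hs⟩ := hS
    obtain ⟨t, ht⟩ := hS2
    exact ⟨⟨s, (Set.Finite.mem_toFinset _).2 hs⟩, t, fun h => ht ((Set.Finite.mem_toFinset _).1 h)⟩
  · rw [Set.Finite.coe_toFinset]
    exact h0

/-- holomorphic maps from the punctured disc to the open parts -/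
theorem picard_hyp {n : ℕ} {F : MvPolynomial (Fin (n + 1)) ℂ} {d δ : ℕ}
    {v : (Fin (n + 1) →₀ ℕ) → Fin (n + 1)} (hd : F.IsHomogeneous d) (hv : Dominates F δ v)
    (hN : 2 * δ + n * ((n + 1) * (n * (n - 1) / 2)) < d) (U : Set (Fin (n + 1)))
    (f : ℂ → Fin (n + 1) → ℂ) (hf : PCurve U (fun _ : Unit => F) f)
    (hne : ∃ z ∈ ball (0 : ℂ) 1 \ {0}, eval (f z) (excH F v) ≠ 0) : Extends f := by
  obtain ⟨z1, hz1, hG⟩ := hne
  by_contra hE
  obtain ⟨b, i, i', hi, hi', hb, hs⟩ := pcurve (sys_of_dominated (U := U) hd hv.dominated hN)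
    f hf hE
  have hz1' : z1 ∈ PB 1 := mem_disc.mp hz1
  have hGn : Nz (fun w => eval (f w) (excH F v)) := nz_of_on (eval_an hf.an _) hz1' hG
  obtain ⟨z0, hz0, hgood⟩ := good_point
    (fun a : Fin 3 => fun w => if a = 0 then f w i
      else if a = 1 then f w i' else eval (f w) (excH F v))
    (by
      intro a
      fin_cases a
      · exact hf.an i
      · exact hf.an i'
      · exact eval_an hf.an _)
    (by
      intro a
      fin_cases a
      · exact hi
      · exact hi'
      · exact hGn)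
  have h0 : f z0 i ≠ 0 := hgood 0
  have h1 : f z0 i' ≠ 0 := hgood 1
  have h2 : eval (f z0) (excH F v) ≠ 0 := hgood 2
  obtain ⟨S, h3, -, ⟨t, ht, -⟩, h5⟩ := sum_of_weights hd hv (by omega) h0 h1 hb (fun e => by
    rw [wc_eq]
    exact hs () e z0 hz0)
  apply h2
  rw [← val_eval]
  exact excH_zero h3 ⟨t, ht⟩ h5

end Pool.Agent.R869.Wd
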