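import Mathlib.LinearAlgebra.Matrix.ToLinearEquiv
import Mathlib.LinearAlgebra.Matrix.Adjugate
import Mathlib.Analysis.SpecialFunctions.Pow.Real
import Mathlib.Data.Fin.Tuple.Basic

/-!
The number of the lattice points at which a function that is affine in each variable is small.
-/

set_option autoImplicit false

namespace Pool.Agent.R869.Wd

open Finset

/-- affine in each variable -/
def SepAff {κ : Type} [DecidableEq κ] (f : (κ → ℝ) → ℝ) : Prop :=
  ∀ x j, ∃ a b : ℝ, ∀ t : ℝ, f (Function.update x j t) = a + t * b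

/-- the number of the integers at which an affine function is small -/
theorem count_one (d : ℕ) (hd : 0 < d) {a b η ζ : ℝ} (hζ : 0 < ζ) (hη : 0 ≤ η) (hb : ζ < |b|) :
    ((univ.filter fun t : Fin (d + 1) => |a + ((t : ℕ) : ℝ) / d * b| ≤ η).card : ℝ) ≤
      2 * η * d / ζ + 1 := by
  have hd' : (0 : ℝ) < d := by exact_mod_cast hd
  have hpos : 0 ≤ 2 * η * d / ζ := by positivity
  set S := univ.filter fun t : Fin (d + 1) => |a + ((t : ℕ) : ℝ) / d * b| ≤ η with hS
  rcases S.eq_empty_or_nonempty with h | h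
  · rw [h]
    simp only [card_empty, Nat.cast_zero]
    linarith
  · obtain ⟨t0, ht0, hmin⟩ := S.exists_min_image (fun t => (t : ℕ)) h
    have h1 : S.card ≤ (Icc (t0 : ℕ) ((t0 : ℕ) + ⌊2 * η * d / ζ⌋₊)).card := by
      refine card_le_card_of_injOn (fun t => (t : ℕ)) (fun t ht => ?_)
        (fun x _ y _ hxy => Fin.ext hxy)
      rw [coe_Icc, Set.mem_Icc]
      refine ⟨hmin t ht, ?_⟩
      have h2 : ((t : ℕ) : ℝ) - (t0 : ℕ) ≤ 2 * η * d / ζ := by
        have h3 := (mem_filter.1 ht).2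
        have h4 := (mem_filter.1 ht0).2
        have h5 : |(((t : ℕ) : ℝ) - (t0 : ℕ)) / d * b| ≤ 2 * η := by
          have e : (((t : ℕ) : ℝ) - (t0 : ℕ)) / d * b = (a + ((t : ℕ) : ℝ) / d * b) -
            (a + ((t0 : ℕ) : ℝ) / d * b) := by ring
          rw [e]
          refine (abs_sub _ _).trans ?_
          linarith
        have h6 : (0 : ℝ) ≤ ((t : ℕ) : ℝ) - (t0 : ℕ) := by
          have := hmin t ht
          have h7 : ((t0 : ℕ) : ℝ) ≤ (t : ℕ) := by exact_mod_cast this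
          linarith
        rw [abs_mul, abs_div, abs_of_nonneg h6, abs_of_pos hd'] at h5
        have h7 : (((t : ℕ) : ℝ) - (t0 : ℕ)) / d * ζ ≤ 2 * η :=
          (mul_le_mul_of_nonneg_left hb.le (div_nonneg h6 hd'.le)).trans h5
        rw [le_div_iff₀ hζ]
        have h8 : (((t : ℕ) : ℝ) - (t0 : ℕ)) / d * ζ * d = (((t : ℕ) : ℝ) - (t0 : ℕ)) * ζ := by
          field_simp
        rw [← h8]
        exact mul_le_mul_of_nonneg_right h7 hd'.le
      have h3 : (t : ℕ) - (t0 : ℕ) ≤ ⌊2 * η * d / ζ⌋₊ := by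
        rw [Nat.le_floor_iff hpos, Nat.cast_sub (hmin t ht)]
        exact h2
      change (t : ℕ) ≤ (t0 : ℕ) + ⌊2 * η * d / ζ⌋₊
      omega
    rw [Nat.card_Icc] at h1
    have h2 : S.card ≤ ⌊2 * η * d / ζ⌋₊ + 1 := by omega
    have h3 : (S.card : ℝ) ≤ ⌊2 * η * d / ζ⌋₊ + 1 := by exact_mod_cast h2
    have h4 := Nat.floor_le hpos
    linarith

theorem card_cons (m d : ℕ) (P : (Fin (m + 1) → Fin (d + 1)) → Prop) [DecidablePred P] :
    ((univ.filter P).card : ℝ) = ∑ y : Fin m → Fin (d + 1),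
      ((univ.filter fun t : Fin (d + 1) => P (Fin.cons t y)).card : ℝ) := by
  have h1 : (univ.filter P).card = ∑ y : Fin m → Fin (d + 1),
      (univ.filter fun t : Fin (d + 1) => P (Fin.cons t y)).card := by
    simp only [card_filter]
    rw [← Fintype.sum_prod_type_right (f := fun z : Fin (d + 1) × (Fin m → Fin (d + 1)) =>
      if P (Fin.cons z.1 z.2) then 1 else 0)]
    exact (Fintype.sum_equiv (Fin.consEquiv fun _ => Fin (d + 1)) _ _ fun z => rfl).symm
  rw [h1, Nat.cast_sum]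

/-- the number of the lattice points at which a function that is affine in each variable is small -/
theorem count_fin : ∀ (m : ℕ) (f : (Fin m → ℝ) → ℝ), SepAff f → (∃ x, f x ≠ 0) → ∀ ε : ℝ, 0 < ε →
    ∃ η : ℝ, 0 < η ∧ ∃ d0 : ℕ, ∀ d : ℕ, d0 ≤ d →
      ((univ.filter fun x : Fin m → Fin (d + 1) =>
        |f (fun j => ((x j : ℕ) : ℝ) / d)| ≤ η).card : ℝ) ≤ ε * (d + 1) ^ m
  | 0, f, _, ⟨x, hx⟩, ε, hε => by
    refine ⟨|f x| / 2, by positivity, 0, fun d _ => ?_⟩
    rw [filter_false_of_mem]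
    · simp only [card_empty, Nat.cast_zero, pow_zero, mul_one]
      exact hε.le
    · intro y _
      rw [Subsingleton.elim (fun j => ((y j : ℕ) : ℝ) / d) x, not_le]
      have := abs_pos.2 hx
      linarith
  | m + 1, f, hf, ⟨x, hx⟩, ε, hε => by
    obtain ⟨A, hA⟩ : ∃ A : (Fin m → ℝ) → ℝ, A = fun y => f (Fin.cons 0 y) := ⟨_, rfl⟩
    obtain ⟨B, hB⟩ : ∃ B : (Fin m → ℝ) → ℝ, B = fun y => f (Fin.cons 1 y) - f (Fin.cons 0 y) :=
      ⟨_, rfl⟩
    have hcons : ∀ (c : ℝ) (y : Fin m → ℝ) (j : Fin m) (t : ℝ),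
        (Fin.cons c (Function.update y j t) : Fin (m + 1) → ℝ) =
          Function.update (Fin.cons c y : Fin (m + 1) → ℝ) j.succ t := fun c y j t =>
      Fin.cons_update (α := fun _ => ℝ) c y j t
    have hAa : SepAff A := by
      intro y j
      obtain ⟨a, b, h⟩ := hf (Fin.cons 0 y) j.succ
      exact ⟨a, b, fun t => by rw [hA]; simp only; rw [hcons, h]⟩
    have hBa : SepAff B := by
      intro y j
      obtain ⟨a, b, h⟩ := hf (Fin.cons 0 y) j.succ
      obtain ⟨a', b', h'⟩ := hf (Fin.cons 1 y) j.succ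
      exact ⟨a' - a, b' - b, fun t => by
        rw [hB]
        simp only
        rw [hcons, hcons, h, h']
        ring⟩
    have hAB : ∀ t y, f (Fin.cons t y) = A y + t * B y := by
      intro t y
      obtain ⟨a, b, h⟩ := hf (Fin.cons 0 y) 0
      have h' : ∀ t : ℝ, f (Fin.cons t y) = a + t * b := by
        intro t
        rw [← h t, Fin.update_cons_zero]
      rw [hA, hB]
      simp only
      rw [h' t, h' 0, h' 1]
      ring
    have hx' : f x = A (Fin.tail x) + x 0 * B (Fin.tail x) := by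
      rw [← hAB, Fin.cons_self_tail]
    have hcast : ∀ (d : ℕ) (t : Fin (d + 1)) (y : Fin m → Fin (d + 1)),
        (fun j => ((((Fin.cons t y : Fin (m + 1) → Fin (d + 1)) j : Fin (d + 1)) : ℕ) : ℝ) / d) =
          (Fin.cons (((t : ℕ) : ℝ) / d) (fun j => ((y j : ℕ) : ℝ) / d) : Fin (m + 1) → ℝ) := by
      intro d t y
      funext j
      refine Fin.cases ?_ (fun j => ?_) j
      · rw [Fin.cons_zero, Fin.cons_zero]
      · rw [Fin.cons_succ, Fin.cons_succ]
    by_cases hB0 : ∃ y, B y ≠ 0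
    · obtain ⟨ζ, hζ, d1, h1⟩ := count_fin m B hBa hB0 (ε / 2) (by positivity)
      refine ⟨ζ * ε / 8, by positivity, max d1 (max 1 ⌈4 / ε⌉₊), fun d hd => ?_⟩
      have hd1 : d1 ≤ d := (le_max_left _ _).trans hd
      have hd2 : 1 ≤ d := (le_max_left _ _).trans ((le_max_right _ _).trans hd)
      have hd3 : ⌈4 / ε⌉₊ ≤ d := (le_max_right _ _).trans ((le_max_right _ _).trans hd)
      have hd4 : 4 / ε ≤ d := (Nat.le_ceil _).trans (by exact_mod_cast hd3)
      have hd5 : 4 ≤ d * ε := by rwa [div_le_iff₀ hε] at hd4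
      have hd' : (0 : ℝ) < d := by exact_mod_cast hd2
      rw [card_cons]
      have h2 : ∀ y : Fin m → Fin (d + 1), ((univ.filter fun t : Fin (d + 1) =>
          |f (fun j => ((((Fin.cons t y : Fin (m + 1) → Fin (d + 1)) j : Fin (d + 1)) : ℕ) : ℝ) /
            d)| ≤ ζ * ε / 8).card : ℝ) ≤
          (if |B (fun j => ((y j : ℕ) : ℝ) / d)| ≤ ζ then ((d : ℝ) + 1) else 0) +
            (ε * d / 4 + 1) := by
        intro y
        by_cases hy : |B (fun j => ((y j : ℕ) : ℝ) / d)| ≤ ζ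
        · rw [if_pos hy]
          have h3 : ((univ.filter fun t : Fin (d + 1) =>
            |f (fun j => ((((Fin.cons t y : Fin (m + 1) → Fin (d + 1)) j : Fin (d + 1)) : ℕ) : ℝ) /
              d)| ≤ ζ * ε / 8).card : ℝ) ≤ (d : ℝ) + 1 := by
            have h4 := card_filter_le (univ : Finset (Fin (d + 1))) (fun t : Fin (d + 1) =>
              |f (fun j => ((((Fin.cons t y : Fin (m + 1) → Fin (d + 1)) j : Fin (d + 1)) : ℕ) :
                ℝ) / d)| ≤ ζ * ε / 8)
            rw [card_univ, Fintype.card_fin] at h4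
            exact_mod_cast h4
          have h5 : 0 ≤ ε * d / 4 + 1 := by positivity
          linarith
        · rw [if_neg hy, zero_add]
          push Not at hy
          have h3 := count_one d hd2 (a := A (fun j => ((y j : ℕ) : ℝ) / d)) (η := ζ * ε / 8) hζ
            (by positivity) hy
          simp only [hcast, hAB]
          refine h3.trans (le_of_eq ?_)
          field_simp
          ring
      refine (Finset.sum_le_sum fun y _ => h2 y).trans ?_
      rw [Finset.sum_add_distrib, Finset.sum_const, card_univ, Fintype.card_fun, Fintype.card_fin,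
        Fintype.card_fin, nsmul_eq_mul]
      have h3 : ∑ y : Fin m → Fin (d + 1), (if |B (fun j => ((y j : ℕ) : ℝ) / d)| ≤ ζ then
          ((d : ℝ) + 1) else 0) = ((univ.filter fun y : Fin m → Fin (d + 1) =>
            |B (fun j => ((y j : ℕ) : ℝ) / d)| ≤ ζ).card : ℝ) * (d + 1) := by
        rw [← Finset.sum_filter, Finset.sum_const, nsmul_eq_mul]
      rw [h3]
      have h4 := mul_le_mul_of_nonneg_right (h1 d hd1) (by positivity : (0 : ℝ) ≤ d + 1)
      have h5 : (0 : ℝ) ≤ (d + 1) ^ m := by positivity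
      have h6 : ε * d / 4 + 1 ≤ ε / 2 * (d + 1) := by
        have : d * ε = ε * d := mul_comm _ _
        nlinarith
      have h7 := mul_le_mul_of_nonneg_left h6 h5
      push_cast
      calc _ ≤ ε / 2 * (d + 1) ^ m * (d + 1) + (d + 1) ^ m * (ε / 2 * (d + 1)) :=
            add_le_add h4 h7
        _ = ε * (d + 1) ^ (m + 1) := by ring
    · push Not at hB0
      have hA0 : ∃ y, A y ≠ 0 := ⟨Fin.tail x, fun h => hx (by rw [hx', h, hB0, mul_zero, add_zero])⟩
      obtain ⟨η, hη, d1, h1⟩ := count_fin m A hAa hA0 ε hε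
      refine ⟨η, hη, d1, fun d hd => ?_⟩
      rw [card_cons]
      simp only [hcast, hAB, hB0, mul_zero, add_zero]
      have h2 : ∀ y : Fin m → Fin (d + 1), ((univ.filter fun _t : Fin (d + 1) =>
          |A (fun j => ((y j : ℕ) : ℝ) / d)| ≤ η).card : ℝ) =
          (if |A (fun j => ((y j : ℕ) : ℝ) / d)| ≤ η then ((d : ℝ) + 1) else 0) := by
        intro y
        split_ifs with h
        · rw [filter_true_of_mem fun _ _ => h, card_univ, Fintype.card_fin]
          push_cast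
          rfl
        · rw [filter_false_of_mem fun _ _ => h, card_empty, Nat.cast_zero]
      rw [Finset.sum_congr rfl fun y _ => h2 y, ← Finset.sum_filter, Finset.sum_const, nsmul_eq_mul]
      have h4 := mul_le_mul_of_nonneg_right (h1 d hd) (by positivity : (0 : ℝ) ≤ d + 1)
      refine h4.trans (le_of_eq ?_)
      ring

theorem count_type {κ : Type} [Fintype κ] [DecidableEq κ] (f : (κ → ℝ) → ℝ) (hf : SepAff f)
    (hf0 : ∃ x, f x ≠ 0) {ε : ℝ} (hε : 0 < ε) :
    ∃ η : ℝ, 0 < η ∧ ∃ d0 : ℕ, ∀ d : ℕ, d0 ≤ d →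
      ((univ.filter fun x : κ → Fin (d + 1) =>
        |f (fun j => ((x j : ℕ) : ℝ) / d)| ≤ η).card : ℝ) ≤ ε * (d + 1) ^ Fintype.card κ := by
  classical
  let e := Fintype.equivFin κ
  have hg : SepAff fun y : Fin (Fintype.card κ) → ℝ => f (fun j => y (e j)) := by
    intro y i
    obtain ⟨a, b, h⟩ := hf (fun j => y (e j)) (e.symm i)
    refine ⟨a, b, fun t => ?_⟩
    rw [← h t]
    refine congrArg f (funext fun j => ?_)
    by_cases hj : j = e.symm i
    · subst hj
      simp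
    · rw [Function.update_of_ne hj, Function.update_of_ne]
      rintro rfl
      exact hj (e.symm_apply_apply j).symm
  obtain ⟨x, hx⟩ := hf0
  obtain ⟨η, hη, d0, h⟩ := count_fin _ _ hg ⟨fun i => x (e.symm i), by simpa using hx⟩ ε hε
  refine ⟨η, hη, d0, fun d hd => le_trans (le_of_eq ?_) (h d hd)⟩
  norm_cast
  refine card_bij (fun x _ => fun i => x (e.symm i)) (fun x hx => ?_) (fun x _ y _ hxy => ?_)
    (fun y hy => ⟨fun j => y (e j), ?_, ?_⟩)
  · rw [mem_filter] at hx ⊢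
    refine ⟨mem_univ _, ?_⟩
    simpa using hx.2
  · funext j
    have := congrFun hxy (e j)
    simpa using this
  · rw [mem_filter] at hy ⊢
    exact ⟨mem_univ _, hy.2⟩
  · funext i
    simp

/-- finitely many functions -/
theorem count_family {κ Θ : Type} [Fintype κ] [DecidableEq κ] [Fintype Θ]
    (f : Θ → (κ → ℝ) → ℝ) (hf : ∀ θ, SepAff (f θ)) {ε : ℝ} (hε : 0 < ε) :
    ∃ η : ℝ, 0 < η ∧ ∃ d0 : ℕ, ∀ d : ℕ, d0 ≤ d →
      (Set.ncard {x : κ → Fin (d + 1) | ∃ θ, (∃ z, f θ z ≠ 0) ∧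
        |f θ (fun j => ((x j : ℕ) : ℝ) / d)| ≤ η} : ℝ) ≤ ε * (d + 1) ^ Fintype.card κ := by
  classical
  have h1 : ∀ θ, ∃ η : ℝ, 0 < η ∧ ∃ d0 : ℕ, (∃ z, f θ z ≠ 0) → ∀ d : ℕ, d0 ≤ d →
      ((univ.filter fun x : κ → Fin (d + 1) =>
        |f θ (fun j => ((x j : ℕ) : ℝ) / d)| ≤ η).card : ℝ) ≤
          ε / (Fintype.card Θ + 1) * (d + 1) ^ Fintype.card κ := by
    intro θ
    by_cases h : ∃ z, f θ z ≠ 0
    · obtain ⟨η, hη, d0, h2⟩ := count_type (f θ) (hf θ) h
        (ε := ε / (Fintype.card Θ + 1)) (by positivity)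
      exact ⟨η, hη, d0, fun _ => h2⟩
    · exact ⟨1, one_pos, 0, fun h' => absurd h' h⟩
  choose η hη d0 h2 using h1
  obtain ⟨η0, hη0, hle⟩ : ∃ η0 : ℝ, 0 < η0 ∧ ∀ θ, η0 ≤ η θ := by
    by_cases hΘ : Nonempty Θ
    · obtain ⟨θ0, -, h⟩ := exists_min_image univ η ⟨Classical.arbitrary Θ, mem_univ _⟩
      exact ⟨η θ0, hη θ0, fun θ => h θ (mem_univ _)⟩
    · exact ⟨1, one_pos, fun θ => absurd ⟨θ⟩ hΘ⟩
  refine ⟨η0, hη0, ∑ θ, d0 θ, fun d hd => ?_⟩
  have h3 : {x : κ → Fin (d + 1) | ∃ θ, (∃ z, f θ z ≠ 0) ∧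
        |f θ (fun j => ((x j : ℕ) : ℝ) / d)| ≤ η0} ⊆
      ((univ.filter fun θ : Θ => ∃ z, f θ z ≠ 0).biUnion fun θ =>
        univ.filter fun x : κ → Fin (d + 1) =>
          |f θ (fun j => ((x j : ℕ) : ℝ) / d)| ≤ η θ : Finset (κ → Fin (d + 1))) := by
    rintro x ⟨θ, h4, h5⟩
    rw [mem_coe, mem_biUnion]
    exact ⟨θ, mem_filter.2 ⟨mem_univ _, h4⟩, mem_filter.2 ⟨mem_univ _, h5.trans (hle θ)⟩⟩
  have h4 := Set.ncard_le_ncard h3 (finite_toSet _)
  rw [Set.ncard_coe_finset] at h4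
  have h5 : ((((univ.filter fun θ : Θ => ∃ z, f θ z ≠ 0).biUnion fun θ =>
        univ.filter fun x : κ → Fin (d + 1) =>
          |f θ (fun j => ((x j : ℕ) : ℝ) / d)| ≤ η θ).card : ℕ) : ℝ) ≤
      ∑ θ ∈ univ.filter fun θ : Θ => ∃ z, f θ z ≠ 0,
        ((univ.filter fun x : κ → Fin (d + 1) =>
          |f θ (fun j => ((x j : ℕ) : ℝ) / d)| ≤ η θ).card : ℝ) := by
    exact_mod_cast card_biUnion_le
  have h6 : ∑ θ ∈ univ.filter fun θ : Θ => ∃ z, f θ z ≠ 0,
        ((univ.filter fun x : κ → Fin (d + 1) =>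
          |f θ (fun j => ((x j : ℕ) : ℝ) / d)| ≤ η θ).card : ℝ) ≤
      ∑ θ ∈ univ.filter fun θ : Θ => ∃ z, f θ z ≠ 0,
        ε / (Fintype.card Θ + 1) * (d + 1) ^ Fintype.card κ := by
    refine sum_le_sum fun θ hθ => h2 θ (mem_filter.1 hθ).2 d ?_
    exact (single_le_sum (f := d0) (fun _ _ => Nat.zero_le _) (mem_univ θ)).trans hd
  have h7 : ∑ θ ∈ univ.filter fun θ : Θ => ∃ z, f θ z ≠ 0,
        ε / (Fintype.card Θ + 1) * ((d : ℝ) + 1) ^ Fintype.card κ ≤
      ε * (d + 1) ^ Fintype.card κ := by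
    rw [sum_const, nsmul_eq_mul]
    have h8 : ((univ.filter fun θ : Θ => ∃ z, f θ z ≠ 0).card : ℝ) ≤ Fintype.card Θ := by
      exact_mod_cast card_le_univ _
    have h9 : ((univ.filter fun θ : Θ => ∃ z, f θ z ≠ 0).card : ℝ) *
        (ε / (Fintype.card Θ + 1)) ≤ ε := by
      rw [mul_div_assoc', div_le_iff₀ (by positivity)]
      nlinarith
    rw [← mul_assoc]
    exact mul_le_mul_of_nonneg_right h9 (by positivity)
  have h8 : (Set.ncard {x : κ → Fin (d + 1) | ∃ θ, (∃ z, f θ z ≠ 0) ∧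
        |f θ (fun j => ((x j : ℕ) : ℝ) / d)| ≤ η0} : ℝ) ≤
      ((((univ.filter fun θ : Θ => ∃ z, f θ z ≠ 0).biUnion fun θ =>
        univ.filter fun x : κ → Fin (d + 1) =>
          |f θ (fun j => ((x j : ℕ) : ℝ) / d)| ≤ η θ).card : ℕ) : ℝ) := by
    exact_mod_cast h4
  exact h8.trans (h5.trans (h6.trans h7))

end Pool.Agent.R869.Wd
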