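import Mathlib.Data.Finsupp.Basic
import Mathlib.Data.Set.Card
import Mathlib.Topology.Algebra.Order.Field
import Mathlib.Topology.Instances.Real.Lemmas

/-!
Almost all tuples of exponent vectors: definitions.
-/

set_option autoImplicit false

namespace Pool.Agent.R869.Wd

/-- The tuples of `s` exponent vectors of degree `d`, of monomials in `n + 1` variables. -/
def Tuples (n s d : ℕ) : Set (Fin s → (Fin (n + 1) →₀ ℕ)) := {a | ∀ i, ∑ j, a i j = d}

/-- Almost all tuples of `s` monomials of large degree in `n + 1` variables have the property `P`: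
the proportion of those among the tuples of `s` monomials of degree `d` tends to `1` for
`d → ∞`. -/
def AlmostAll (n s : ℕ) (P : ℕ → (Fin s → (Fin (n + 1) →₀ ℕ)) → Prop) : Prop :=
  Filter.Tendsto (fun d : ℕ => (({a | a ∈ Tuples n s d ∧ P d a}.ncard : ℝ) /
    ((Tuples n s d).ncard : ℝ))) Filter.atTop (nhds 1)

/-- The set of the exponent vectors `a i` and of the exponent vectors of `x_j ^ d`. -/
noncomputable def withPowers {n s : ℕ} (d : ℕ) (a : Fin s → (Fin (n + 1) →₀ ℕ)) :
    Finset (Fin (n + 1) →₀ ℕ) :=
  Finset.univ.image a ∪ Finset.univ.image fun j => Finsupp.single j d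

end Pool.Agent.R869.Wd
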