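import Pool.Agent.R869.WAlg3
import Pool.Agent.R869.BCirc
import Pool.Agent.W603.PV.Hgt

/-!
Heights of the points of wide systems over function fields of one variable.
-/

set_option autoImplicit false

open FF MvPolynomial Pool.Agent.W603.LV Pool.Agent.W603.PV Pool.Agent.W602.GT

namespace Pool.Agent.R869.Wd

/-- A system of sets of exponent vectors is `N`-wide, relative to the set `U` of variables; see
`Wide`. -/
def WideT {n : ℕ} {ι : Type} (U : Set (Fin (n + 1))) (T : ι → Finset (Fin (n + 1) →₀ ℕ))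
    (N : ℕ) : Prop :=
  ∀ (I : Set (Fin (n + 1))) (r : ℕ) (e : Fin r → ι) (α β : Fin r → (Fin (n + 1) →₀ ℕ)),
    U ⊆ I → r ≤ n →
    (∀ l, α l ∈ T (e l) ∧ β l ∈ T (e l) ∧ ∀ j, j ∉ I → α l j = 0 ∧ β l j = 0) →
    (∀ u : Fin (n + 1) → ℤ, (∃ i ∈ I, ∃ j ∈ I, u i ≠ u j) →
      0 < ∑ l, |wgt u (α l) - wgt u (β l)|) →
    ∀ u : Fin (n + 1) → ℤ, (∃ i ∈ I, ∃ j ∈ I, u i ≠ u j) → (∀ i ∈ U, ∀ j ∈ I, u i ≤ u j) →
      (N : ℤ) ≤ ∑ l, |wgt u (α l) - wgt u (β l)|

theorem wide_of_wideT {k : Type} [Field k] {n : ℕ} {ι : Type} {U : Set (Fin (n + 1))}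
    {T : ι → Finset (Fin (n + 1) →₀ ℕ)} {N : ℕ} (hT : WideT U T N)
    {F : ι → MvPolynomial (Fin (n + 1)) k} (hF : ∀ e, (F e).support ⊆ T e) : Wide U F N :=
  fun I r e α β h1 h2 h3 h4 => hT I r e α β h1 h2
    (fun l => ⟨hF _ (h3 l).1, hF _ (h3 l).2.1, (h3 l).2.2⟩) h4

theorem wideT_of_wide {k : Type} [Field k] {n : ℕ} {ι : Type} {U : Set (Fin (n + 1))}
    {F : ι → MvPolynomial (Fin (n + 1)) k} {N : ℕ} (hW : Wide U F N) :
    WideT U (fun e => (F e).support) N := hW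

section circ

variable {k K : Type} [Field k] [Field K] [Algebra k K] [CharZero k] [IsFF k K] [IsAlgClosed k]

/-- The height inequality for minimal relations, with truncated counting. -/
theorem circ_hgt {m : ℕ} (f : Fin (m + 1) → K) (hf0 : ∀ i, f i ≠ 0) (hsum : ∑ i, f i = 0)
    (hlin : LinearIndependent k (fun l => f ((Fin.last m).succAbove l)))
    (Z : Finset (Place k K)) (hZ : ∀ P ∉ Z, ∀ i j, P.ord (f i) = P.ord (f j))
    (i j : Fin (m + 1)) : hgt k (f i / f j) ≤ tri m * (canDeg k K + Z.card) := by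
  classical
  obtain ⟨D, hD⟩ := exists_der (k := k) (K := K)
  have hW := wr_ne_zero hD _ hlin
  set W := wr D (fun l => f ((Fin.last m).succAbove l)) with hWd
  have hmin : ∀ P : Place k K, ∃ i0, ∀ i, P.ord (f i0) ≤ P.ord (f i) := by
    intro P
    obtain ⟨i0, -, h⟩ := Finset.exists_min_image Finset.univ (fun i => P.ord (f i))
      ⟨0, Finset.mem_univ _⟩
    exact ⟨i0, fun i => h i (Finset.mem_univ _)⟩
  choose i0 hi0 using hmin
  set μ : Place k K → ℤ := fun P => P.ord (f (i0 P)) with hμ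
  obtain ⟨T1, hT1⟩ := exists_supp (k := k) Finset.univ f
  obtain ⟨T2, hT2⟩ := exists_supp (k := k) (Finset.univ : Finset (Fin 1)) ![W]
  set T : Finset (Place k K) := T1 ∪ T2 ∪ (vo_finite hD).toFinset ∪ Z with hT
  have hTf : ∀ i, ∀ P : Place k K, P.ord (f i) ≠ 0 → P ∈ T := by
    intro i P hP
    have := hT1 i (Finset.mem_univ _) P hP
    simp [hT, this]
  have hTW : ∀ P : Place k K, P.ord W ≠ 0 → P ∈ T := by
    intro P hP
    have := hT2 0 (Finset.mem_univ _) P hP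
    simp [hT, this]
  have hTv : ∀ P : Place k K, vo P D ≠ 0 → P ∈ T := by
    intro P hP
    simp [hT, hP]
  have hST : Z ⊆ T := by
    intro P hP
    simp [hT, hP]
  set H : ℤ := - ∑ P ∈ T, μ P with hH
  have hsumf : ∀ i, ∑ P ∈ T, P.ord (f i) = 0 := fun i => sum_ord_finset _ T (hTf i)
  have hloc : ∀ P ∈ T, Pool.Agent.W603.LV.tri m * vo P D + ∑ i, P.ord (f i) - μ P -
      (if P ∈ Z then Pool.Agent.W603.LV.tri m else 0) ≤ P.ord W := by
    intro P _
    refine local_est P hD f hf0 hsum hW (μ P) (hi0 P) (i0 P) rfl _ ?_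
    by_cases hPS : P ∈ Z
    · left; rw [if_pos hPS]
    · right
      rw [if_neg hPS]
      have h1 : (Finset.univ.filter fun i => μ P < P.ord (f i)) = ∅ := by
        rw [Finset.filter_eq_empty_iff]
        intro i _
        rw [hμ]
        exact not_lt.2 (hZ P hPS i (i0 P)).le
      rw [h1, Finset.card_empty, Nat.cast_zero, mul_zero]
  have h1 := Finset.sum_le_sum hloc
  rw [sum_ord_finset W T hTW] at h1
  have h2 : ∑ P ∈ T, (Pool.Agent.W603.LV.tri m * vo P D + ∑ i, P.ord (f i) - μ P -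
      (if P ∈ Z then Pool.Agent.W603.LV.tri m else 0)) =
      Pool.Agent.W603.LV.tri m * (- canDeg k K) + H - Pool.Agent.W603.LV.tri m * Z.card := by
    rw [Finset.sum_sub_distrib, Finset.sum_sub_distrib, Finset.sum_add_distrib, ← Finset.mul_sum,
      canDeg_finset hD T hTv, Finset.sum_comm, Finset.sum_congr rfl fun i _ => hsumf i]
    have h3 : ∑ P ∈ T, (if P ∈ Z then Pool.Agent.W603.LV.tri m else 0) =
        Pool.Agent.W603.LV.tri m * Z.card := by
      rw [← Finset.sum_filter, Finset.filter_mem_eq_inter, Finset.inter_eq_right.2 hST,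
        Finset.sum_const, nsmul_eq_mul, mul_comm]
    rw [h3, hH]
    simp only [Finset.sum_const_zero, add_zero]
    ring
  rw [h2] at h1
  have h8 : H ≤ tri m * (canDeg k K + Z.card) := by
    rw [← tri_cast]
    linarith
  refine le_trans ?_ h8
  have hij : ∀ P : Place k K, P.ord (f i / f j) ≠ 0 → P ∈ T := by
    intro P hP
    by_contra hcon
    apply hP
    have h9 : P.ord (f i) = 0 := by
      by_contra h; exact hcon (hTf i P h)
    have h10 : P.ord (f j) = 0 := by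
      by_contra h; exact hcon (hTf j P h)
    rw [P.ord_div (hf0 i) (hf0 j), h9, h10]; rfl
  rw [hgt_finset _ T hij]
  have h9 : ∑ P ∈ T, (P.ord (f j) - μ P) = H := by
    rw [Finset.sum_sub_distrib, hsumf, hH]; ring
  rw [← h9]
  refine Finset.sum_le_sum fun P _ => ?_
  rw [P.ord_div (hf0 i) (hf0 j)]
  have := hi0 P i
  have := hi0 P j
  simp only [hμ]
  omega


/-- the sum of the absolute values of the orders -/
theorem sum_abs {g : K} (T : Finset (Place k K)) (hT : ∀ P, P.ord g ≠ 0 → P ∈ T) :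
    ∑ P ∈ T, |P.ord g| = 2 * hgt k g := by
  rw [hgt_finset g T hT, Finset.mul_sum]
  have h1 : ∑ P ∈ T, |P.ord g| = ∑ P ∈ T, (2 * max (-P.ord g) 0 + P.ord g) := by
    refine Finset.sum_congr rfl fun P _ => ?_
    rcases le_total 0 (P.ord g) with h | h
    · rw [abs_of_nonneg h, max_eq_right (by omega)]
      ring
    · rw [abs_of_nonpos h, max_eq_left (by omega)]
      ring
  rw [h1, Finset.sum_add_distrib, sum_ord_finset g T hT, add_zero]

end circ

section unif

/-- the constant for a family of pairs -/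
theorem exists_cst {n r : ℕ} (I : Finset (Fin (n + 1))) (α β : Fin r → (Fin (n + 1) →₀ ℕ))
    (hpos : ∀ u : Fin (n + 1) → ℤ, (∃ i ∈ I, ∃ j ∈ I, u i ≠ u j) →
      0 < ∑ l, |wgt u (α l) - wgt u (β l)|) :
    ∃ M : ℕ, ∀ (u : Fin (n + 1) → ℤ), ∀ i ∈ I, ∀ j ∈ I,
      u i - u j ≤ M * ∑ l, |wgt u (α l) - wgt u (β l)| := by
  classical
  have hpair : ∀ i j, ∃ M : ℕ, i ∈ I → j ∈ I → ∀ u : Fin (n + 1) → ℤ,
      u i - u j ≤ M * ∑ l, |wgt u (α l) - wgt u (β l)| := by
    intro i j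
    by_cases hij : i ∈ I ∧ j ∈ I
    · have hdw : ∀ (l : Fin r) (u : Fin (n + 1) → ℤ),
          ∑ x, ((α l x : ℤ) - (β l x : ℤ)) * u x = wgt u (α l) - wgt u (β l) := by
        intro l u
        unfold wgt
        rw [← Finset.sum_sub_distrib]
        exact Finset.sum_congr rfl fun x _ => by rw [sub_mul]
      obtain ⟨M0, c, hM0, hc⟩ := span_rel (fun l x => ((α l x : ℤ) - (β l x : ℤ))) i j (by
        intro u hu
        by_contra hne
        have h1 := hpos u ⟨i, hij.1, j, hij.2, hne⟩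
        rw [Finset.sum_eq_zero fun l _ => by rw [← hdw, hu l, abs_zero]] at h1
        exact lt_irrefl _ h1)
      refine ⟨∑ l, (c l).natAbs, fun _ _ u => ?_⟩
      have h1 : (M0 : ℤ) * (u i - u j) = ∑ l, c l * (wgt u (α l) - wgt u (β l)) := by
        have h2 : (M0 : ℤ) * (u i - u j) = ∑ x, ((M0 : ℤ) *
            ((if x = i then 1 else 0) - (if x = j then 1 else 0))) * u x := by
          simp only [mul_sub, sub_mul, Finset.sum_sub_distrib, mul_ite, mul_one, mul_zero,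
            ite_mul, zero_mul, Finset.sum_ite_eq', Finset.mem_univ, if_true]
        rw [h2, Finset.sum_congr rfl fun x _ => by rw [hc x]]
        simp only [Finset.sum_mul]
        rw [Finset.sum_comm]
        refine Finset.sum_congr rfl fun l _ => ?_
        rw [← hdw, Finset.mul_sum]
        exact Finset.sum_congr rfl fun x _ => by ring
      have h3 : ∑ l, c l * (wgt u (α l) - wgt u (β l)) ≤
          ((∑ l, (c l).natAbs : ℕ) : ℤ) * ∑ l, |wgt u (α l) - wgt u (β l)| := by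
        rw [Finset.mul_sum]
        refine Finset.sum_le_sum fun l _ => ?_
        have h4 : |c l| ≤ ((∑ l, (c l).natAbs : ℕ) : ℤ) := by
          have h5 := Finset.single_le_sum (f := fun l => (c l).natAbs) (fun _ _ => Nat.zero_le _)
            (Finset.mem_univ l)
          rw [Int.abs_eq_natAbs]
          exact_mod_cast h5
        calc c l * (wgt u (α l) - wgt u (β l)) ≤ |c l * (wgt u (α l) - wgt u (β l))| :=
              le_abs_self _
          _ = |c l| * |wgt u (α l) - wgt u (β l)| := abs_mul _ _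
          _ ≤ _ := mul_le_mul_of_nonneg_right h4 (abs_nonneg _)
      rcases le_or_gt (u i - u j) 0 with h6 | h6
      · exact h6.trans (mul_nonneg (Nat.cast_nonneg _) (Finset.sum_nonneg fun _ _ => abs_nonneg _))
      · have h7 : (1 : ℤ) ≤ M0 := by exact_mod_cast hM0
        have h8 : u i - u j ≤ M0 * (u i - u j) := by nlinarith
        rw [h1] at h8
        exact h8.trans h3
    · exact ⟨0, fun hi hj => absurd ⟨hi, hj⟩ hij⟩
  choose M hM using hpair
  refine ⟨∑ i, ∑ j, M i j, fun u i hi j hj => (hM i j hi hj u).trans ?_⟩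
  refine mul_le_mul_of_nonneg_right ?_ (Finset.sum_nonneg fun _ _ => abs_nonneg _)
  have h1 : M i j ≤ ∑ j, M i j := Finset.single_le_sum (f := fun j => M i j)
    (fun _ _ => Nat.zero_le _) (Finset.mem_univ j)
  have h2 : ∑ j, M i j ≤ ∑ i, ∑ j, M i j := Finset.single_le_sum (f := fun i => ∑ j, M i j)
    (fun _ _ => Nat.zero_le _) (Finset.mem_univ i)
  exact_mod_cast h1.trans h2

/-- `M` bounds the coordinates in terms of the weights of the families of pairs -/
def CstFor {n : ℕ} (S : Finset (Fin (n + 1) →₀ ℕ)) (M : ℕ) : Prop :=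
  ∀ (I : Finset (Fin (n + 1))) (r : ℕ) (α β : Fin r → (Fin (n + 1) →₀ ℕ)), r ≤ n →
    (∀ l, α l ∈ S ∧ β l ∈ S) → (∀ u : Fin (n + 1) → ℤ, (∃ i ∈ I, ∃ j ∈ I, u i ≠ u j) →
      0 < ∑ l, |wgt u (α l) - wgt u (β l)|) →
    ∀ (u : Fin (n + 1) → ℤ), ∀ i ∈ I, ∀ j ∈ I,
      u i - u j ≤ M * ∑ l, |wgt u (α l) - wgt u (β l)|

theorem exists_cstFor {n : ℕ} (S : Finset (Fin (n + 1) →₀ ℕ)) : ∃ M, CstFor S M := by
  classical
  let τ := Finset (Fin (n + 1)) × (Σ r : Fin (n + 1), (Fin r → S) × (Fin r → S))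
  have h1 : ∀ t : τ, ∃ M : ℕ, (∀ u : Fin (n + 1) → ℤ, (∃ i ∈ t.1, ∃ j ∈ t.1, u i ≠ u j) →
      0 < ∑ l, |wgt u (t.2.2.1 l) - wgt u (t.2.2.2 l)|) →
      ∀ (u : Fin (n + 1) → ℤ), ∀ i ∈ t.1, ∀ j ∈ t.1,
        u i - u j ≤ M * ∑ l, |wgt u (t.2.2.1 l) - wgt u (t.2.2.2 l)| := by
    intro t
    by_cases h : ∀ u : Fin (n + 1) → ℤ, (∃ i ∈ t.1, ∃ j ∈ t.1, u i ≠ u j) →
      0 < ∑ l, |wgt u (t.2.2.1 l) - wgt u (t.2.2.2 l)|
    · obtain ⟨M, hM⟩ := exists_cst t.1 (fun l => (t.2.2.1 l : Fin (n + 1) →₀ ℕ))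
        (fun l => (t.2.2.2 l : Fin (n + 1) →₀ ℕ)) h
      exact ⟨M, fun _ => hM⟩
    · exact ⟨0, fun h' => absurd h' h⟩
  choose M hM using h1
  refine ⟨∑ t, M t, fun I r α β hr hS hpos u i hi j hj => ?_⟩
  let t : τ := ⟨I, ⟨r, by omega⟩, fun l => ⟨α l, (hS l).1⟩, fun l => ⟨β l, (hS l).2⟩⟩
  refine (hM t hpos u i hi j hj).trans ?_
  refine mul_le_mul_of_nonneg_right ?_ (Finset.sum_nonneg fun _ _ => abs_nonneg _)
  have h2 : M t ≤ ∑ t, M t := Finset.single_le_sum (fun _ _ => Nat.zero_le _) (Finset.mem_univ t)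
  exact_mod_cast h2

end unif

end Pool.Agent.R869.Wd
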