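import Pool.Agent.R869.WDens
import Pool.Agent.R869.WHgt
import Pool.Agent.R869.WDensDefs

/-!
Typical sets of exponent vectors are wide.
-/

set_option autoImplicit false

namespace Pool.Agent.R869.Wd

open Finset

section det

variable {n s : ℕ}

/-- the first coordinates of the exponent vectors, divided by the degree -/
def vr (x : Fin s × Fin n → ℝ) (p : Fin s ⊕ Fin (n + 1)) (j : Fin n) : ℝ :=
  Sum.elim (fun i => x (i, j)) (fun l => if l = j.castSucc then 1 else 0) p

/-- the matrix of the differences -/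
def dm (p q : Fin n → Fin s ⊕ Fin (n + 1)) (x : Fin s × Fin n → ℝ) : Matrix (Fin n) (Fin n) ℝ :=
  Matrix.of fun l j => vr x (p l) j - vr x (q l) j

theorem vr_aff (p : Fin s ⊕ Fin (n + 1)) (x : Fin s × Fin n → ℝ) (i : Fin s) (j : Fin n) :
    ∃ β : ℝ, ∀ t : ℝ, vr (Function.update x (i, j) t) p j = vr (Function.update x (i, j) 0) p j +
      t * β := by
  rcases p with i' | l
  · by_cases h : i' = i
    · subst h
      exact ⟨1, fun t => by simp [vr]⟩
    · refine ⟨0, fun t => ?_⟩
      have h1 : (i', j) ≠ (i, j) := fun h' => h (congrArg Prod.fst h')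
      simp [vr, Function.update_of_ne h1]
  · exact ⟨0, fun t => by simp [vr]⟩

theorem vr_of_ne (p : Fin s ⊕ Fin (n + 1)) (x : Fin s × Fin n → ℝ) (i : Fin s) (j j' : Fin n)
    (h : j' ≠ j) (t : ℝ) : vr (Function.update x (i, j) t) p j' = vr x p j' := by
  rcases p with i' | l
  · have h1 : (i', j') ≠ (i, j) := fun h' => h (congrArg Prod.snd h')
    simp [vr, Function.update_of_ne h1]
  · simp [vr]

theorem sepAff_det (p q : Fin n → Fin s ⊕ Fin (n + 1)) : SepAff fun x => (dm p q x).det := by
  rintro x ⟨i, j⟩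
  have h1 : ∀ l, ∃ β : ℝ, ∀ t : ℝ, vr (Function.update x (i, j) t) (p l) j -
      vr (Function.update x (i, j) t) (q l) j = (vr (Function.update x (i, j) 0) (p l) j -
        vr (Function.update x (i, j) 0) (q l) j) + t * β := by
    intro l
    obtain ⟨β1, h1⟩ := vr_aff (p l) x i j
    obtain ⟨β2, h2⟩ := vr_aff (q l) x i j
    exact ⟨β1 - β2, fun t => by rw [h1, h2]; ring⟩
  choose β hβ using h1
  refine ⟨((dm p q x).updateCol j fun l => vr (Function.update x (i, j) 0) (p l) j -
    vr (Function.update x (i, j) 0) (q l) j).det, ((dm p q x).updateCol j β).det, fun t => ?_⟩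
  have h2 : dm p q (Function.update x (i, j) t) = (dm p q x).updateCol j
      ((fun l => vr (Function.update x (i, j) 0) (p l) j -
        vr (Function.update x (i, j) 0) (q l) j) + t • β) := by
    ext l j'
    by_cases h : j' = j
    · subst h
      rw [Matrix.updateCol_self]
      simp only [dm, Matrix.of_apply, Pi.add_apply, Pi.smul_apply, smul_eq_mul]
      exact hβ l t
    · rw [Matrix.updateCol_ne h]
      simp only [dm, Matrix.of_apply]
      rw [vr_of_ne _ _ _ _ _ h, vr_of_ne _ _ _ _ _ h]
  change (dm p q (Function.update x (i, j) t)).det = _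
  rw [h2, Matrix.det_updateCol_add, Matrix.det_updateCol_smul]

end det

/-- the exponent vectors -/
noncomputable def expo {n s : ℕ} (d : ℕ) (a : Fin s → (Fin (n + 1) →₀ ℕ)) :
    Fin s ⊕ Fin (n + 1) → (Fin (n + 1) →₀ ℕ) :=
  Sum.elim a fun j => Finsupp.single j d

theorem mem_withPowers {n s d : ℕ} {a : Fin s → (Fin (n + 1) →₀ ℕ)} {α : Fin (n + 1) →₀ ℕ} :
    α ∈ withPowers d a ↔ ∃ p, expo d a p = α := by
  unfold withPowers
  rw [mem_union, mem_image, mem_image]
  constructor
  · rintro (⟨i, -, h⟩ | ⟨j, -, h⟩)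
    · exact ⟨Sum.inl i, h⟩
    · exact ⟨Sum.inr j, h⟩
  · rintro ⟨i | j, h⟩
    · exact Or.inl ⟨i, mem_univ _, h⟩
    · exact Or.inr ⟨j, mem_univ _, h⟩

theorem card_withPowers {n s : ℕ} (d : ℕ) (a : Fin s → (Fin (n + 1) →₀ ℕ)) :
    (withPowers d a).card ≤ s + (n + 1) := by
  unfold withPowers
  refine (card_union_le _ _).trans (Nat.add_le_add ?_ ?_)
  · exact card_image_le.trans (by rw [card_univ, Fintype.card_fin])
  · exact card_image_le.trans (by rw [card_univ, Fintype.card_fin])

/-- the scaled coordinates -/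
noncomputable def scl {n s : ℕ} (d : ℕ) (a : Fin s → (Fin (n + 1) →₀ ℕ)) : Fin s × Fin n → ℝ :=
  fun ij => (a ij.1 ij.2.castSucc : ℝ) / d

theorem expo_vr {n s d : ℕ} (hd : 0 < d) (a : Fin s → (Fin (n + 1) →₀ ℕ))
    (p : Fin s ⊕ Fin (n + 1)) (j : Fin n) :
    (expo d a p j.castSucc : ℝ) = d * vr (scl d a) p j := by
  have hd' : (d : ℝ) ≠ 0 := by exact_mod_cast hd.ne'
  rcases p with i | l
  · simp only [expo, Sum.elim_inl, vr, scl]
    field_simp
  · simp only [expo, Sum.elim_inr, vr]
    by_cases h : l = j.castSucc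
    · subst h
      simp
    · rw [Finsupp.single_eq_of_ne' h, if_neg h]
      simp

/-- **Typical sets of exponent vectors are wide.** -/
theorem wide_of_typical {n s d N : ℕ} {η : ℝ} (hd : 0 < d) (hN : N ≤ d)
    (hη : n.factorial * (N : ℝ) ≤ η * d)
    {a : Fin s → (Fin (n + 1) →₀ ℕ)} (ha : ∀ i, ∑ j, a i j = d) (hpos : ∀ i j, a i j ≠ 0)
    (hdet : ∀ p q : Fin n → Fin s ⊕ Fin (n + 1), (dm p q (scl d a)).det = 0 ∨
      η < |(dm p q (scl d a)).det|) : WideT ∅ (fun _ : Unit => withPowers d a) N := by
  classical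
  have hd' : (0 : ℝ) < d := by exact_mod_cast hd
  intro I r e α β _ hr hmem hp u hu _
  choose P hP using fun l => mem_withPowers.1 (hmem l).1
  choose Q hQ using fun l => mem_withPowers.1 (hmem l).2.1
  by_cases hI : I = Set.univ
  · subst hI
    -- the matrix
    let P' : Fin n → Fin s ⊕ Fin (n + 1) := fun l =>
      if h : (l : ℕ) < r then P ⟨l, h⟩ else Sum.inr 0
    let Q' : Fin n → Fin s ⊕ Fin (n + 1) := fun l =>
      if h : (l : ℕ) < r then Q ⟨l, h⟩ else Sum.inr 0
    let Δ : Matrix (Fin n) (Fin n) ℤ := Matrix.of fun l j =>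
      (expo d a (P' l) j.castSucc : ℤ) - expo d a (Q' l) j.castSucc
    have hsum : ∀ p, ∑ j, expo d a p j = d := by
      rintro (i | l)
      · exact ha i
      · simp [expo, Finsupp.single_apply]
    -- weights in terms of the matrix
    have hw : ∀ (u : Fin (n + 1) → ℤ) (l : Fin n), wgt u (expo d a (P' l)) -
        wgt u (expo d a (Q' l)) = (Δ.mulVec fun j => u j.castSucc - u (Fin.last n)) l := by
      intro u l
      have h1 : ∀ p, wgt u (expo d a p) = ∑ j : Fin n, (expo d a p j.castSucc : ℤ) *
          (u j.castSucc - u (Fin.last n)) + d * u (Fin.last n) := by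
        intro p
        have h2 := hsum p
        rw [Fin.sum_univ_castSucc] at h2
        unfold wgt
        rw [Fin.sum_univ_castSucc]
        have h3 : ((∑ j : Fin n, expo d a p j.castSucc + expo d a p (Fin.last n) : ℕ) : ℤ) = d := by
          exact_mod_cast h2
        push_cast at h3
        rw [← h3]
        simp only [mul_sub, sum_sub_distrib, ← sum_mul]
        ring
      rw [h1, h1]
      simp only [Matrix.mulVec, dotProduct, Δ, Matrix.of_apply, sub_mul, sum_sub_distrib]
      ring
    have hwl : ∀ (u : Fin (n + 1) → ℤ) (l : Fin r), wgt u (α l) - wgt u (β l) =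
        (Δ.mulVec fun j => u j.castSucc - u (Fin.last n)) ⟨l, lt_of_lt_of_le l.2 hr⟩ := by
      intro u l
      rw [← hw]
      have h1 : P' ⟨l, lt_of_lt_of_le l.2 hr⟩ = P l := by
        simp only [P']
        rw [dif_pos l.2]
      have h2 : Q' ⟨l, lt_of_lt_of_le l.2 hr⟩ = Q l := by
        simp only [Q']
        rw [dif_pos l.2]
      rw [h1, h2, hP, hQ]
    -- the determinant is not zero
    have hdet0 : Δ.det ≠ 0 := by
      intro h0
      obtain ⟨v, hv, hv0⟩ := Matrix.exists_mulVec_eq_zero_iff.2 h0
      obtain ⟨j0, hj0⟩ := Function.ne_iff.1 hv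
      let u0 : Fin (n + 1) → ℤ := Fin.snoc (α := fun _ => ℤ) v 0
      have hu0 : (fun j : Fin n => u0 j.castSucc - u0 (Fin.last n)) = v := by
        funext j
        simp only [u0, Fin.snoc_castSucc, Fin.snoc_last, sub_zero]
      have h1 := hp u0 ⟨j0.castSucc, Set.mem_univ _, Fin.last n, Set.mem_univ _, by
        have h2 := congrFun hu0 j0
        intro h3
        rw [h3, sub_self] at h2
        exact hj0 h2.symm⟩
      rw [sum_eq_zero fun l _ => by rw [hwl, hu0, hv0]; simp] at h1
      exact lt_irrefl _ h1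
    -- the real matrix
    have hΔr : ∀ l j, (Δ l j : ℝ) = d * dm P' Q' (scl d a) l j := by
      intro l j
      simp only [Δ, dm, Matrix.of_apply]
      push_cast
      rw [expo_vr hd, expo_vr hd]
      ring
    set Mr := dm P' Q' (scl d a) with hMr
    have hmap : Δ.map (fun z : ℤ => (z : ℝ)) = (d : ℝ) • Mr := by
      ext l j
      rw [Matrix.map_apply, hΔr, Matrix.smul_apply, smul_eq_mul]
    have hdetr : (Δ.det : ℝ) = d ^ n * Mr.det := by
      have h1 : (Δ.det : ℝ) = (Δ.map (fun z : ℤ => (z : ℝ))).det := by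
        have := Int.cast_det (R := ℝ) Δ
        exact this
      rw [h1, hmap, Matrix.det_smul, Fintype.card_fin]
    have hMr0 : Mr.det ≠ 0 := by
      intro h0
      rw [h0, mul_zero] at hdetr
      exact hdet0 (by exact_mod_cast hdetr)
    have hbig : η < |Mr.det| := (hdet P' Q').resolve_left hMr0
    -- Cramer's rule
    let u' : Fin n → ℤ := fun j => u j.castSucc - u (Fin.last n)
    obtain ⟨j0, hj0⟩ : ∃ j0, u' j0 ≠ 0 := by
      by_contra hcon
      push Not at hcon
      obtain ⟨i, -, j, -, hij⟩ := hu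
      have h1 : ∀ i, u i = u (Fin.last n) := by
        intro i
        refine Fin.lastCases rfl (fun i => ?_) i
        have := hcon i
        simp only [u'] at this
        omega
      exact hij ((h1 i).trans (h1 j).symm)
    obtain ⟨C, hC⟩ : ∃ C : ℤ, C = ∑ l, |wgt u (α l) - wgt u (β l)| := ⟨_, rfl⟩
    have hC0 : 0 ≤ C := hC ▸ sum_nonneg fun _ _ => abs_nonneg _
    rw [← hC]
    have hcl : ∀ l : Fin n, |(Δ.mulVec u') l| ≤ C := by
      intro l
      by_cases h : (l : ℕ) < r
      · have h1 := hwl u ⟨l, h⟩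
        have h2 : (⟨l, lt_of_lt_of_le h hr⟩ : Fin n) = l := rfl
        change _ = (Δ.mulVec u') l at h1
        rw [← h1, hC]
        exact single_le_sum (f := fun l => |wgt u (α l) - wgt u (β l)|)
          (fun _ _ => abs_nonneg _) (mem_univ _)
      · rw [← hw]
        have h1 : P' l = Sum.inr 0 := dif_neg h
        have h2 : Q' l = Sum.inr 0 := dif_neg h
        rw [h1, h2, sub_self, abs_zero]
        exact hC0
    let c : Fin n → ℝ := Mr.mulVec fun j => (u' j : ℝ)
    have hc : ∀ l, |c l| ≤ C / d := by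
      intro l
      have h1 : c l = ((Δ.mulVec u') l : ℝ) / d := by
        simp only [c, Matrix.mulVec, dotProduct]
        push_cast
        rw [sum_div]
        refine sum_congr rfl fun j _ => ?_
        rw [hΔr]
        field_simp
      rw [h1, abs_div, abs_of_pos hd']
      refine div_le_div_of_nonneg_right ?_ hd'.le
      exact_mod_cast hcl l
    have hcr : Mr.det * (u' j0 : ℝ) = (Mr.updateCol j0 c).det := by
      rw [← Matrix.cramer_apply, Matrix.cramer_eq_adjugate_mulVec, Matrix.mulVec_mulVec,
        Matrix.adjugate_mul, Matrix.smul_mulVec, Matrix.one_mulVec, Pi.smul_apply, smul_eq_mul]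
    have hu1 : (1 : ℝ) ≤ |(u' j0 : ℝ)| := by
      have := Int.one_le_abs hj0
      exact_mod_cast this
    have hMe : ∀ l j, |Mr l j| ≤ 1 := by
      intro l j
      have h1 : ∀ p, 0 ≤ vr (scl d a) p j ∧ vr (scl d a) p j ≤ 1 := by
        rintro (i | l')
        · simp only [vr, Sum.elim_inl, scl]
          refine ⟨by positivity, ?_⟩
          rw [div_le_one hd']
          have h2 : a i j.castSucc ≤ d := by
            rw [← ha i]
            exact single_le_sum (f := fun j => a i j) (fun _ _ => Nat.zero_le _) (mem_univ _)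
          exact_mod_cast h2
        · simp only [vr, Sum.elim_inr]
          split_ifs <;> norm_num
      simp only [hMr, dm, Matrix.of_apply]
      rw [abs_le]
      have h2 := h1 (P' l)
      have h3 := h1 (Q' l)
      constructor <;> linarith [h2.1, h2.2, h3.1, h3.2]
    have hC1 : 0 < C := by
      rcases hC0.lt_or_eq with h | h
      · exact h
      · exfalso
        have h1 : c = 0 := by
          funext l
          have h2 := hc l
          rw [← h] at h2
          simp only [Int.cast_zero, zero_div] at h2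
          exact abs_eq_zero.1 (le_antisymm h2 (abs_nonneg _))
        have h3 : (Mr.updateCol j0 c).det = 0 := Matrix.det_eq_zero_of_column_eq_zero j0
          (fun l => by rw [Matrix.updateCol_self, h1]; rfl)
        rw [h3] at hcr
        rcases mul_eq_zero.1 hcr with h2 | h2
        · exact hMr0 h2
        · exact hj0 (by exact_mod_cast h2)
    have hCr : (0 : ℝ) < (C : ℝ) / d := div_pos (by exact_mod_cast hC1) hd'
    have hsplit : c = ((C : ℝ) / d) • (fun l => c l / ((C : ℝ) / d)) := by
      funext l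
      rw [Pi.smul_apply, smul_eq_mul, mul_div_cancel₀ _ hCr.ne']
    have hle : |(Mr.updateCol j0 c).det| ≤ (C : ℝ) / d * n.factorial := by
      rw [hsplit, Matrix.det_updateCol_smul, abs_mul, abs_of_pos hCr]
      refine mul_le_mul_of_nonneg_left ?_ hCr.le
      have h1 := Matrix.det_le (A := Mr.updateCol j0 fun l => c l / ((C : ℝ) / d))
        (abv := AbsoluteValue.abs) (x := 1) (by
          intro l j
          change |_| ≤ (1 : ℝ)
          by_cases h : j = j0
          · subst h
            rw [Matrix.updateCol_self, abs_div, abs_of_pos hCr, div_le_one hCr]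
            exact hc l
          · rw [Matrix.updateCol_ne h]
            exact hMe l j)
      rw [one_pow, Fintype.card_fin, nsmul_eq_mul, mul_one] at h1
      exact h1
    have h1 : |Mr.det| ≤ (C : ℝ) / d * n.factorial := by
      refine le_trans ?_ hle
      rw [← hcr, abs_mul]
      nlinarith [abs_nonneg Mr.det]
    have h2 : η < (C : ℝ) / d * n.factorial := lt_of_lt_of_le hbig h1
    have h3 : (n.factorial : ℝ) * N < n.factorial * C := by
      refine lt_of_le_of_lt hη ?_
      have h4 := mul_lt_mul_of_pos_right h2 hd'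
      refine lt_of_lt_of_eq h4 ?_
      field_simp
    have h4 : (N : ℝ) < C := lt_of_mul_lt_mul_left h3 (by positivity)
    exact_mod_cast h4.le
  · -- only pure powers
    obtain ⟨j1, hj1⟩ : ∃ j1, j1 ∉ I := by
      by_contra hcon
      push Not at hcon
      exact hI (Set.eq_univ_of_forall hcon)
    have hpow : ∀ (p : Fin s ⊕ Fin (n + 1)), expo d a p j1 = 0 →
        ∃ j, ∀ u : Fin (n + 1) → ℤ, wgt u (expo d a p) = d * u j := by
      rintro (i | l) h
      · exact absurd h (hpos i j1)
      · refine ⟨l, fun u => ?_⟩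
        unfold wgt
        simp [expo, Finsupp.single_apply]
    have h1 : ∀ l, ∃ j, ∀ u : Fin (n + 1) → ℤ, wgt u (α l) = d * u j := fun l => by
      rw [← hP l]
      exact hpow _ (by rw [hP l]; exact ((hmem l).2.2 j1 hj1).1)
    have h2 : ∀ l, ∃ j, ∀ u : Fin (n + 1) → ℤ, wgt u (β l) = d * u j := fun l => by
      rw [← hQ l]
      exact hpow _ (by rw [hQ l]; exact ((hmem l).2.2 j1 hj1).2)
    choose x hx using h1
    choose z hz using h2
    have h3 := hp u hu
    simp only [hx, hz] at h3 ⊢
    have h4 : ∀ l, |(d : ℤ) * u (x l) - d * u (z l)| = d * |u (x l) - u (z l)| := by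
      intro l
      rw [← mul_sub, abs_mul, Nat.abs_cast]
    rw [sum_congr rfl fun l _ => h4 l, ← mul_sum] at h3 ⊢
    have h5 : 0 < ∑ l, |u (x l) - u (z l)| := by
      by_contra hcon
      push Not at hcon
      have h6 : (0 : ℤ) ≤ d := Nat.cast_nonneg _
      nlinarith
    have h6 : (N : ℤ) ≤ d := by exact_mod_cast hN
    nlinarith

end Pool.Agent.R869.Wd
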