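import Pool.Agent.R869.WTor
import Pool.Agent.R869.UCorK

/-!
Maps from one given one-dimensional complex torus to wide projective varieties.
-/

set_option autoImplicit false

namespace Pool.Agent.R869.Wd

open MvPolynomial Filter Topology Set
open scoped LinearAlgebra.Projectivization PeriodPair
open Pool.Agent.TH182.TC Pool.Agent.W602.GT Pool.Agent.W603.BP Pool.Agent.H159R3.GGLLog

variable {N : ℕ} {ι : Type}

/-- a rational curve composed with a Weierstrass function; the proof is that of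
`Pool.Agent.TH182.TC.no_rational` -/
theorem elliptic_of_rationalL (L : PeriodPair) {F : ι → MvPolynomial (Fin (N + 1)) ℂ}
    (hF : ∀ i, ∃ d, (F i).IsHomogeneous d)
    (P : Fin (N + 1) → Polynomial ℂ) (hP : ∀ t, ∃ j, (P j).eval t ≠ 0)
    (hPF : ∀ t i, eval (fun j => (P j).eval t) (F i) = 0) :
    ∃ g : ℂ → PS N, Holo g ∧ (∀ z, OnX F (g z)) ∧
      (∀ z, g (z + L.ω₁) = g z) ∧ (∀ z, g (z + L.ω₂) = g z) ∧
      ∀ z ∉ (L.lattice : Set ℂ), ∃ h, g z =
        Projectivization.mk ℂ (fun j => (P j).eval (℘[L] z)) h := by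
  classical
  set d := Finset.univ.sup fun j => (P j).natDegree with hd
  have hdj : ∀ j, (P j).natDegree ≤ d := fun j => Finset.le_sup (f := fun j => (P j).natDegree) (Finset.mem_univ j)
  let H : ℂ → ℂ → Fin (N + 1) → ℂ := fun s t j => hom d (P j) s t
  have hH : ∀ s t, s ≠ 0 → H s t = s ^ d • fun j => (P j).eval (t / s) := by
    intro s t hs
    funext j
    exact hom_eval (hdj j) hs t
  have hHne : ∀ s t, s ≠ 0 → H s t ≠ 0 := by
    intro s t hs h0
    obtain ⟨j, hj⟩ := hP (t / s)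
    have h1 := congrFun h0 j
    rw [hH s t hs] at h1
    exact (mul_ne_zero (pow_ne_zero d hs) hj) h1
  -- some coefficient of degree d is nonzero
  have hlead : ∃ j, (P j).coeff d ≠ 0 := by
    obtain ⟨j, -, hj⟩ := Finset.exists_mem_eq_sup (Finset.univ : Finset (Fin (N + 1)))
      Finset.univ_nonempty (fun j => (P j).natDegree)
    rw [← hd] at hj
    by_cases hd0 : d = 0
    · obtain ⟨l, hl⟩ := hP 0
      refine ⟨l, ?_⟩
      have h1 : (P l).natDegree = 0 := Nat.le_zero.mp (hd0 ▸ hdj l)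
      rw [hd0]
      rw [Polynomial.eq_C_of_natDegree_eq_zero h1, Polynomial.eval_C] at hl
      exact hl
    · refine ⟨j, ?_⟩
      rw [hj]
      intro h
      rw [Polynomial.coeff_natDegree, Polynomial.leadingCoeff_eq_zero] at h
      rw [h, Polynomial.natDegree_zero] at hj
      exact hd0 hj
  have hH0 : ∀ t, t ≠ 0 → H 0 t ≠ 0 := by
    intro t ht h0
    obtain ⟨j, hj⟩ := hlead
    have h1 := congrFun h0 j
    change hom d (P j) 0 t = 0 at h1
    rw [hom_zero] at h1
    exact (mul_ne_zero hj (pow_ne_zero d ht)) h1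
  have hcont : ∀ t, Continuous fun s => H s t := by
    intro t
    refine continuous_pi fun j => ?_
    change Continuous fun s => ∑ i ∈ Finset.range (d + 1), (P j).coeff i * t ^ i * s ^ (d - i)
    fun_prop
  have hHF : ∀ s t i, eval (H s t) (F i) = 0 := by
    intro s t i
    obtain ⟨e, he⟩ := hF i
    have h1 : ∀ s, s ≠ 0 → eval (H s t) (F i) = 0 := by
      intro s hs
      rw [hH s t hs, eval_smul_of_homog he, hPF, mul_zero]
    have h2 : Continuous fun s => eval (H s t) (F i) :=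
      (MvPolynomial.continuous_eval (F i)).comp (hcont t)
    have h3 : (fun s => eval (H s t) (F i)) = fun _ => 0 :=
      h2.ext_on (dense_compl_singleton (0 : ℂ)) continuous_const (fun s hs => h1 s hs)
    exact congrFun h3 s
  -- the map
  let v : ℂ → Fin (N + 1) → ℂ := fun z => if z ∈ L.lattice then H 0 1 else H 1 (℘[L] z)
  have hv : ∀ z, v z ≠ 0 := by
    intro z
    simp only [v]
    split_ifs
    · exact hH0 1 one_ne_zero
    · exact hHne _ _ one_ne_zero
  let g : ℂ → PS N := fun z => Projectivization.mk ℂ (v z) (hv z)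
  have hgX : ∀ z, OnX F (g z) := by
    intro z
    rw [onX_mk hF]
    intro i
    simp only [v]
    split_ifs <;> exact hHF _ _ _
  have hHan : ∀ (a b : ℂ → ℂ) (z : ℂ), AnalyticAt ℂ a z → AnalyticAt ℂ b z →
      AnalyticAt ℂ (fun w => H (a w) (b w)) z := by
    intro a b z ha hb
    rw [analyticAt_pi_iff]
    intro j
    change AnalyticAt ℂ (fun w => ∑ i ∈ Finset.range (d + 1),
      (P j).coeff i * b w ^ i * a w ^ (d - i)) z
    apply Finset.analyticAt_fun_sum
    intro i _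
    exact (analyticAt_const.fun_mul (hb.fun_pow i)).fun_mul (ha.fun_pow _)
  have hgh : Holo g := by
    intro z
    by_cases hz : z ∈ L.lattice
    · let a : ℂ → ℂ := fun w => (w - z) ^ 2
      let c : ℂ → ℂ := fun w => (w - z) ^ 2 * ℘[L - z] w + 1 - (w - z) ^ 2 / z ^ 2
      have ha : AnalyticAt ℂ a z := by
        change AnalyticAt ℂ (fun w => (w - z) ^ 2) z
        fun_prop
      have hc : AnalyticAt ℂ c z := by
        have h1 : AnalyticAt ℂ ℘[L - z] z := L.analyticAt_weierstrassPExcept z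
        have h2 : AnalyticAt ℂ (fun w : ℂ => (w - z) ^ 2 / z ^ 2) z := by
          have : AnalyticAt ℂ (fun w : ℂ => (w - z) ^ 2 * (z ^ 2)⁻¹) z := by fun_prop
          simpa only [div_eq_mul_inv] using this
        change AnalyticAt ℂ (fun w => (w - z) ^ 2 * ℘[L - z] w + 1 - (w - z) ^ 2 / z ^ 2) z
        fun_prop
      refine ⟨fun w => H (a w) (c w), hHan a c z ha hc, ?_⟩
      filter_upwards [L.compl_lattice_sdiff_singleton_mem_nhds z] with w hw
      by_cases hwz : w = z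
      · subst hwz
        have h1 : a w = 0 := by simp [a]
        have h2 : c w = 1 := by simp [c]
        have h3 : H (a w) (c w) = v w := by
          rw [h1, h2]
          simp only [v, if_pos hz]
        refine ⟨by rw [h3]; exact hv w, ?_⟩
        simp only [g, h3]
      · have hwL : w ∉ L.lattice := fun h => hw ⟨h, hwz⟩
        have h1 : a w ≠ 0 := pow_ne_zero 2 (sub_ne_zero.mpr hwz)
        have h2 : c w = a w * ℘[L] w := by
          have := L.ite_eq_one_sub_sq_mul_weierstrassP z hz w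
          rw [if_neg hwz] at this
          exact this.symm
        have h3 : H (a w) (c w) ≠ 0 := hHne _ _ h1
        refine ⟨h3, ?_⟩
        simp only [g]
        rw [Projectivization.mk_eq_mk_iff']
        refine ⟨(a w ^ d)⁻¹, ?_⟩
        simp only [v, if_neg hwL]
        rw [hH _ _ h1, hH _ _ one_ne_zero, h2, smul_smul, inv_mul_cancel₀ (pow_ne_zero d h1),
          one_pow, div_one, mul_div_cancel_left₀ _ h1]
    · refine ⟨fun w => H 1 (℘[L] w), hHan _ _ z analyticAt_const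
        (L.analyticOnNhd_weierstrassP z hz), ?_⟩
      have hopen : ((L.lattice : Set ℂ)ᶜ) ∈ 𝓝 z := L.isClosed_lattice.isOpen_compl.mem_nhds hz
      filter_upwards [hopen] with w hw
      have h3 : v w = H 1 (℘[L] w) := if_neg hw
      refine ⟨hHne _ _ one_ne_zero, ?_⟩
      simp only [g, h3]
  have hper : ∀ l ∈ L.lattice, ∀ z, g (z + l) = g z := by
    intro l hl z
    have h1 : v (z + l) = v z := by
      simp only [v]
      have h2 : z + l ∈ L.lattice ↔ z ∈ L.lattice := by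
        constructor
        · intro h
          have := L.lattice.sub_mem h hl
          rwa [add_sub_cancel_right] at this
        · intro h
          exact L.lattice.add_mem h hl
      simp only [h2]
      rw [L.weierstrassP_add_coe z ⟨l, hl⟩]
    simp only [g, h1]
  refine ⟨g, hgh, hgX, hper _ L.ω₁_mem_lattice, hper _ L.ω₂_mem_lattice, fun z hz => ?_⟩
  have h4 : v z = fun j => (P j).eval (℘[L] z) := by
    have h5 : v z = H 1 (℘[L] z) := if_neg hz
    rw [h5, hH _ _ one_ne_zero]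
    funext j
    rw [Pi.smul_apply, one_pow, one_smul, div_one]
  have h6 : (fun j => (P j).eval (℘[L] z)) ≠ 0 := by
    rw [← h4]
    exact hv z
  refine ⟨h6, ?_⟩
  simp only [g, h4]


/-- `f` is the vector of homogeneous coordinates, entire functions without common zeros, of a
nonconstant holomorphic map from the complex torus `ℂ / L` to `X = {F = 0}`. -/
def EMap (L : PeriodPair) (F : ι → MvPolynomial (Fin (N + 1)) ℂ) (f : ℂ → Fin (N + 1) → ℂ) :
    Prop :=
  Differentiable ℂ f ∧ (∀ z, f z ≠ 0) ∧ (∀ z e, eval (f z) (F e) = 0) ∧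
    (∀ z, ∃ c : ℂ, f (z + L.ω₁) = c • f z) ∧ (∀ z, ∃ c : ℂ, f (z + L.ω₂) = c • f z) ∧
      ∃ z w, ∀ c : ℂ, f z ≠ c • f w

theorem EMap.entire {L : PeriodPair} {F : ι → MvPolynomial (Fin (N + 1)) ℂ}
    {f : ℂ → Fin (N + 1) → ℂ} (h : EMap L F f) : EntireCurve ∅ F f :=
  ⟨h.1, fun z => ⟨h.2.1 z, fun j hj => absurd hj (Set.notMem_empty j), fun e => h.2.2.1 z e⟩,
    h.2.2.2.2.2⟩

open Pool.Agent.Y190.OP in
/-- holomorphic maps from the plane to the projective space have lifts -/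
theorem lift_of_holo {g : ℂ → PS N} (hg : Holo g) : ∃ f : ℂ → Fin (N + 1) → ℂ,
    Differentiable ℂ f ∧ (∀ z, f z ≠ 0) ∧ ∀ z, ∃ c : ℂ, c ≠ 0 ∧ f z = c • (g z).rep := by
  have hH : HolP univ fun t => Phi (g t).rep := by
    intro t0 _
    obtain ⟨ψ, hψ, hev⟩ := hg t0
    have h2 : ∀ᶠ t in 𝓝 t0, AnalyticAt ℂ ψ t := hψ.eventually_analyticAt
    obtain ⟨V, hVsub, hV, hzV⟩ := _root_.mem_nhds_iff.1 (h2.and hev)
    refine ⟨V, fun t => ψ t, hV, hzV, fun t ht =>
      (hVsub ht).1.differentiableAt.differentiableWithinAt, fun t ht => ?_⟩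
    obtain ⟨h4, h5⟩ := (hVsub ht).2
    refine ⟨h4, ?_⟩
    change Phi (g t).rep = Phi (ψ t)
    rw [h5]
    obtain ⟨a, ha⟩ := Projectivization.exists_smul_eq_mk_rep ℂ _ h4
    have ha' : (Projectivization.mk ℂ _ h4).rep = (a : ℂ) • ψ t := ha.symm
    rw [ha', Phi_smul a.ne_zero]
  obtain ⟨f, hf, hf0, hfφ⟩ := zero_free hH
  exact ⟨f, hf, hf0, fun t => Phi_inj (Projectivization.rep_nonzero _) (hf0 t) (hfφ t)⟩

/-- an orbit gives maps from all one-dimensional complex tori -/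
theorem emap_of_orbit {F : ι → MvPolynomial (Fin (N + 1)) ℂ} (hF : ∀ e, IsForm (F e))
    (L : PeriodPair) {x : Fin (N + 1) → ℂ} {b : Fin (N + 1) → ℤ} {J : Finset (Fin (N + 1))}
    (hx : ∀ j, x j ≠ 0 ↔ j ∈ J) (hb : ∃ j ∈ J, ∃ j' ∈ J, b j ≠ b j') (ho : OrbitIn F b x)
    {G : MvPolynomial (Fin (N + 1)) ℂ} (hG : IsForm G) (hGx : eval x G ≠ 0) :
    ∃ f, EMap L F f ∧ (∀ j, (∃ z, f z j ≠ 0) ↔ j ∈ J) ∧ ∃ z, eval (f z) G ≠ 0 := by
  classical
  obtain ⟨j1, hj1, j2, hj2, hjj⟩ := hb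
  obtain ⟨j0, hj0, hmin⟩ := J.exists_min_image b ⟨j1, hj1⟩
  let P : Fin (N + 1) → Polynomial ℂ := fun j =>
    if j ∈ J then Polynomial.C (x j) * Polynomial.X ^ (b j - b j0).toNat else 0
  have hPt : ∀ t : ℂ, t ≠ 0 → (fun j => (P j).eval t) = t ^ (-b j0) • fun j => t ^ b j * x j := by
    intro t ht
    funext j
    simp only [P, Pi.smul_apply, smul_eq_mul]
    by_cases hj : j ∈ J
    · rw [if_pos hj, Polynomial.eval_mul, Polynomial.eval_C, Polynomial.eval_pow,
        Polynomial.eval_X]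
      have h1 : ((b j - b j0).toNat : ℤ) = b j - b j0 :=
        Int.toNat_of_nonneg (sub_nonneg.2 (hmin j hj))
      rw [← zpow_natCast, h1, ← mul_assoc, ← zpow_add₀ ht, mul_comm]
      congr 2
      ring
    · rw [if_neg hj, Polynomial.eval_zero]
      have h2 : x j = 0 := by
        by_contra h3
        exact hj ((hx j).1 h3)
      rw [h2, mul_zero, mul_zero]
  have hP : ∀ t, ∃ j, (P j).eval t ≠ 0 := by
    intro t
    refine ⟨j0, ?_⟩
    simp only [P]
    rw [if_pos hj0, sub_self, Int.toNat_zero, pow_zero, mul_one, Polynomial.eval_C]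
    exact (hx j0).2 hj0
  have hPF : ∀ t i, eval (fun j => (P j).eval t) (F i) = 0 := by
    intro t i
    obtain ⟨d, hd⟩ := hF i
    have h0 : Polynomial.X * MvPolynomial.aeval P (F i) = 0 := by
      apply Polynomial.funext
      intro t
      rw [Polynomial.eval_mul, Polynomial.eval_X, eval_polyN, Polynomial.eval_zero]
      by_cases ht : t = 0
      · rw [ht, zero_mul]
      · rw [hPt t ht, eval_smul_of_homog hd, ho t ht i, mul_zero, mul_zero]
    rw [← eval_polyN, (mul_eq_zero.1 h0).resolve_left Polynomial.X_ne_zero, Polynomial.eval_zero]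
  obtain ⟨g, hgh, hgX, hg1, hg2, hgP⟩ := elliptic_of_rationalL L (F := F) hF P hP hPF
  obtain ⟨f, hf, hf0, hfg⟩ := lift_of_holo hgh
  have hfP : ∀ z ∉ (L.lattice : Set ℂ), ∃ c : ℂ, c ≠ 0 ∧ f z = c • fun j => (P j).eval (℘[L] z) := by
    intro z hz
    obtain ⟨h1, h2⟩ := hgP z hz
    obtain ⟨c, hc, h3⟩ := hfg z
    obtain ⟨u, hu⟩ := Projectivization.exists_smul_eq_mk_rep ℂ _ h1
    refine ⟨c * u, mul_ne_zero hc u.ne_zero, ?_⟩
    rw [h3, h2, ← hu, mul_smul]
    rfl
  have hSinf : (℘[L] '' (L.lattice : Set ℂ)ᶜ).Infinite := infinite_range L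
  -- points where a given polynomial does not vanish
  have hpt : ∀ Q : Polynomial ℂ, Q ≠ 0 → ∃ z ∉ (L.lattice : Set ℂ), Q.eval (℘[L] z) ≠ 0 := by
    intro Q hQ
    by_contra hcon
    push Not at hcon
    apply hQ
    apply Polynomial.eq_zero_of_infinite_isRoot
    refine hSinf.mono ?_
    rintro _ ⟨z, hz, rfl⟩
    exact hcon z hz
  have hPne : ∀ j ∈ J, P j ≠ 0 := by
    intro j hj h0
    have h1 : (P j).eval 1 = 0 := by rw [h0, Polynomial.eval_zero]
    simp only [P] at h1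
    rw [if_pos hj, Polynomial.eval_mul, Polynomial.eval_C, Polynomial.eval_pow,
      Polynomial.eval_X, one_pow, mul_one] at h1
    exact (hx j).2 hj h1
  have hper : ∀ ω : ℂ, (∀ z, g (z + ω) = g z) → ∀ z, ∃ c : ℂ, f (z + ω) = c • f z := by
    intro ω hω z
    obtain ⟨c, hc, h1⟩ := hfg z
    obtain ⟨c', hc', h2⟩ := hfg (z + ω)
    refine ⟨c' * c⁻¹, ?_⟩
    rw [h1, h2, hω z, smul_smul, mul_assoc, inv_mul_cancel₀ hc, mul_one]
  refine ⟨f, ⟨hf, hf0, fun z e => ?_, hper _ hg1, hper _ hg2, ?_⟩, fun j => ⟨?_, fun hj => ?_⟩, ?_⟩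
  · obtain ⟨c, hc, h1⟩ := hfg z
    obtain ⟨d, hd⟩ := hF e
    rw [h1, eval_smul_of_homog hd, hgX z e, mul_zero]
  · -- not constant
    by_contra hcon
    push Not at hcon
    have key : ∀ z ∉ (L.lattice : Set ℂ), ∀ w ∉ (L.lattice : Set ℂ),
        (P j1).eval (℘[L] z) * (P j2).eval (℘[L] w) =
          (P j2).eval (℘[L] z) * (P j1).eval (℘[L] w) := by
      intro z hz w hw
      obtain ⟨c, hc, h1⟩ := hfP z hz
      obtain ⟨c', hc', h2⟩ := hfP w hw
      obtain ⟨r, hr⟩ := hcon z w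
      rw [h1, h2] at hr
      have e1 := congrFun hr j1
      have e2 := congrFun hr j2
      simp only [Pi.smul_apply, smul_eq_mul] at e1 e2
      apply mul_left_cancel₀ (mul_ne_zero hc hc')
      linear_combination c' * (P j2).eval (℘[L] w) * e1 - c' * (P j1).eval (℘[L] w) * e2
    have h3 : ∀ w ∉ (L.lattice : Set ℂ),
        Polynomial.C ((P j2).eval (℘[L] w)) * P j1 = Polynomial.C ((P j1).eval (℘[L] w)) * P j2 := by
      intro w hw
      by_contra hne
      obtain ⟨z, hz, h4⟩ := hpt _ (sub_ne_zero.2 hne)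
      apply h4
      rw [Polynomial.eval_sub, Polynomial.eval_mul, Polynomial.eval_mul, Polynomial.eval_C,
        Polynomial.eval_C]
      linear_combination key z hz w hw
    obtain ⟨w, hw, hw2⟩ := hpt (P j1 * P j2) (mul_ne_zero (hPne j1 hj1) (hPne j2 hj2))
    rw [Polynomial.eval_mul] at hw2
    have h5 := h3 w hw
    have h6 := congrArg Polynomial.natDegree h5
    rw [Polynomial.natDegree_C_mul (right_ne_zero_of_mul hw2),
      Polynomial.natDegree_C_mul (left_ne_zero_of_mul hw2)] at h6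
    simp only [P] at h6
    rw [if_pos hj1, if_pos hj2, Polynomial.natDegree_C_mul_X_pow _ _ ((hx j1).2 hj1),
      Polynomial.natDegree_C_mul_X_pow _ _ ((hx j2).2 hj2)] at h6
    have h7 : ((b j1 - b j0).toNat : ℤ) = b j1 - b j0 :=
      Int.toNat_of_nonneg (sub_nonneg.2 (hmin j1 hj1))
    have h8 : ((b j2 - b j0).toNat : ℤ) = b j2 - b j0 :=
      Int.toNat_of_nonneg (sub_nonneg.2 (hmin j2 hj2))
    omega
  · rintro ⟨z, hz⟩
    by_contra hj
    have h1 : (fun z => f z j) = fun _ => 0 := by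
      have hc1 : Continuous fun z => f z j := (continuous_apply j).comp hf.continuous
      have hden : Dense ((L.lattice : Set ℂ)ᶜ) := by
        have hcount : (L.lattice : Set ℂ).Countable := by
          have : Countable L.lattice := by infer_instance
          exact Set.countable_coe_iff.1 this
        exact hcount.dense_compl ℂ
      refine hc1.ext_on hden continuous_const fun w hw => ?_
      obtain ⟨c, hc, h2⟩ := hfP w hw
      change f w j = 0
      rw [h2]
      simp only [Pi.smul_apply, P]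
      rw [if_neg hj, Polynomial.eval_zero, smul_zero]
    exact hz (congrFun h1 z)
  · obtain ⟨z, hz, h1⟩ := hpt (P j) (hPne j hj)
    obtain ⟨c, hc, h2⟩ := hfP z hz
    refine ⟨z, ?_⟩
    rw [h2]
    exact mul_ne_zero hc h1
  · have hQ : MvPolynomial.aeval P G ≠ 0 := by
      intro h0
      have h1 := eval_polyN P G 1
      rw [h0, Polynomial.eval_zero, hPt 1 one_ne_zero] at h1
      simp only [one_zpow, one_mul, one_smul] at h1
      exact hGx h1.symm
    obtain ⟨z, hz, h1⟩ := hpt _ hQ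
    obtain ⟨c, hc, h2⟩ := hfP z hz
    obtain ⟨d, hd⟩ := hG
    refine ⟨z, ?_⟩
    rw [h2, eval_smul_of_homog hd, ← eval_polyN]
    exact mul_ne_zero (pow_ne_zero _ hc) h1

/-- an orbit through a general point of an entire curve -/
theorem orbit_through {F : ι → MvPolynomial (Fin (N + 1)) ℂ} {s M : ℕ} {U : Set (Fin (N + 1))}
    (hC : Sys U F s M) {f : ℂ → Fin (N + 1) → ℂ} (hf : EntireCurve U F f)
    {J : Finset (Fin (N + 1))} (hJ : ∀ j, (∃ z, f z j ≠ 0) ↔ j ∈ J)
    {G : MvPolynomial (Fin (N + 1)) ℂ} {z1 : ℂ} (hG : eval (f z1) G ≠ 0) :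
    ∃ (x : Fin (N + 1) → ℂ) (b : Fin (N + 1) → ℤ), (∀ j, x j ≠ 0 ↔ j ∈ J) ∧
      (∃ j ∈ J, ∃ j' ∈ J, b j ≠ b j') ∧ OrbitIn F b x ∧ eval x G ≠ 0 := by
  classical
  obtain ⟨hp1, hp2⟩ := sin_curve hf
  obtain ⟨b, j, k, hj, hk, hbjk, hs⟩ := pcurve hC _ hp1 hp2
  obtain ⟨w1, hw1, hwz1⟩ := sin_point z1
  obtain ⟨z0, hz0, hgood⟩ := good_point (fun (l : Option J) w =>
      l.elim (eval (f (Complex.sin w⁻¹)) G) fun l => f (Complex.sin w⁻¹) l) (by
    rintro (_ | l)
    · exact eval_an hp1.an G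
    · exact hp1.an l) (by
    rintro (_ | ⟨l, hl⟩)
    · exact nz_of_on (eval_an hp1.an G) (mem_disc.mp hw1) (by rw [hwz1]; exact hG)
    · obtain ⟨z, hz⟩ := (hJ l).2 hl
      obtain ⟨w, hw, hwz⟩ := sin_point z
      exact nz_of_on (hp1.an l) (mem_disc.mp hw) (by rw [hwz]; exact hz))
  have hsupp : ∀ l, f (Complex.sin z0⁻¹) l ≠ 0 ↔ l ∈ J := fun l =>
    ⟨fun hl => (hJ l).1 ⟨_, hl⟩, fun hl => hgood (some ⟨l, hl⟩)⟩
  have hnz : ∀ l, Nz (fun w => f (Complex.sin w⁻¹) l) → l ∈ J := by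
    intro l hl
    obtain ⟨z, hz, hzl⟩ := nz_on one_pos hl
    exact (hJ l).1 ⟨_, hzl⟩
  refine ⟨f (Complex.sin z0⁻¹), b, hsupp, ⟨j, hnz j hj, k, hnz k hk, hbjk⟩,
    orbitIn_of_wc fun e v => ?_, hgood none⟩
  rw [wc_eq]
  exact hs e v z0 hz0

/-- The Zariski closure in `X = {F = 0}` of the union of the images of the nonconstant holomorphic
maps from the complex torus `ℂ / L` to `X`. -/
def SpE (L : PeriodPair) (F : ι → MvPolynomial (Fin (N + 1)) ℂ) : Set (Fin (N + 1) → ℂ) :=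
  {x | x ∈ Pts ∅ F ∧ ∀ G : MvPolynomial (Fin (N + 1)) ℂ, (∃ d, G.IsHomogeneous d) →
    (∀ f, EMap L F f → ∀ z, eval (f z) G = 0) → eval x G = 0}

/-- **One torus.** -/
theorem spE_eq {F : ι → MvPolynomial (Fin (N + 1)) ℂ} {s M : ℕ} (hC : Sys ∅ F s M)
    (L : PeriodPair) : SpE L F = SpH ∅ F ∧
      ((∀ f, ¬ EMap L F f) ↔ ∀ f, ¬ EntireCurve ∅ F f) := by
  classical
  have key : ∀ f, EntireCurve ∅ F f → ∀ G : MvPolynomial (Fin (N + 1)) ℂ, IsForm G → ∀ z1,
      eval (f z1) G ≠ 0 → ∃ f', EMap L F f' ∧ ∃ z, eval (f' z) G ≠ 0 := by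
    intro f hf G hG z1 hz1
    obtain ⟨x, b, hx, hb, ho, hGx⟩ := orbit_through hC hf
      (J := Finset.univ.filter fun j => ∃ z, f z j ≠ 0) (fun j => by simp) hz1
    obtain ⟨f', h1, -, h2⟩ := emap_of_orbit hC.form L hx hb ho hG hGx
    exact ⟨f', h1, h2⟩
  refine ⟨Set.Subset.antisymm ?_ ?_, fun h f hf => ?_, fun h f hf => h f hf.entire⟩
  · rintro x ⟨hx, h⟩
    exact ⟨hx, fun G hG hGv => h G hG fun f hf z => hGv f hf.entire z⟩
  · rintro x ⟨hx, h⟩
    refine ⟨hx, fun G hG hGv => h G hG fun f hf z => ?_⟩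
    by_contra hne
    obtain ⟨f', h1, z', h2⟩ := key f hf G hG z hne
    exact h2 (hGv f' h1 z')
  · obtain ⟨f', h1, -⟩ := key f hf 1 ⟨0, isHomogeneous_one _ _⟩ 0 (by
      rw [map_one]
      exact one_ne_zero)
    exact h f' h1

variable {s : ℕ} {I : Fin s → Finset (Fin (N + 1))} {d : ℕ} {a : Fin s → (Fin (N + 1) →₀ ℕ)}

/-- **The criterion for one torus.** -/
theorem TypI.critE (h : TypI I d a) {F : MvPolynomial (Fin (N + 1)) ℂ}
    (hF : F.support ⊆ withPowers d a) (L : PeriodPair) (J : Finset (Fin (N + 1))) :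
    Loose F J ↔ ∃ f, EMap L (fun _ : Fin 1 => F) f ∧ ∀ j, (∃ z, f z j ≠ 0) ↔ j ∈ J := by
  have h1 : Loose F J ↔ ∃ (x : Fin (N + 1) → ℂ) (b : Fin (N + 1) → ℤ), (∀ j, x j ≠ 0 ↔ j ∈ J) ∧
      (∃ j ∈ J, ∃ j' ∈ J, b j ≠ b j') ∧ OrbitIn (fun _ : Fin 1 => F) b x := (h.crit hF J).out 0 1
  have h2 : Loose F J ↔ ∃ f, EntireCurve ∅ (fun _ : Fin 1 => F) f ∧
      ∀ j, (∃ z, f z j ≠ 0) ↔ j ∈ J := (h.crit hF J).out 0 3
  constructor
  · intro hJ
    obtain ⟨x, b, hx, hb, ho⟩ := h1.1 hJ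
    obtain ⟨s', M, hg⟩ := h.good
    have hC := hg.sys (F := fun _ : Fin 1 => F) (fun _ => hF) ∅
    obtain ⟨f, h3, h4, -⟩ := emap_of_orbit hC.form L hx hb ho (G := 1)
      ⟨0, isHomogeneous_one _ _⟩ (by rw [map_one]; exact one_ne_zero)
    exact ⟨f, h3, h4⟩
  · rintro ⟨f, hf, hJ⟩
    exact h2.2 ⟨f, hf.entire, hJ⟩

end Pool.Agent.R869.Wd
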