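import Pool.Agent.R869.WSel
import Pool.Agent.W602.GT.PsDefs
import Mathlib.LinearAlgebra.Matrix.Gershgorin
import Mathlib.LinearAlgebra.Matrix.NonsingularInverse

/-!
Examples of wide systems of forms.
-/

set_option autoImplicit false

open MvPolynomial Pool.Agent.W602.GT

namespace Pool.Agent.R869.Wd

variable {k : Type} [Field k] {n : ℕ} {ι : Type}

/-- Systems of forms whose exponents in the variables outside `U` are divisible by large numbers. -/
theorem wide_of_powSparse {U : Set (Fin (n + 1))} {F : ι → MvPolynomial (Fin (n + 1)) k} {s N : ℕ}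
    (hF : ∀ e, IsPowSparse U s N (F e)) : Wide U F N := by
  classical
  intro I r e α β hU _ hαβ hpos u hu huU
  have h0 := hpos u hu
  obtain ⟨l, -, hl⟩ := Finset.exists_ne_zero_of_sum_ne_zero h0.ne'
  have hle : |wgt u (α l) - wgt u (β l)| ≤ ∑ l, |wgt u (α l) - wgt u (β l)| :=
    Finset.single_le_sum (f := fun l => |wgt u (α l) - wgt u (β l)|) (fun _ _ => abs_nonneg _)
      (Finset.mem_univ l)
  refine le_trans ?_ hle
  obtain ⟨hform, -, N', hN', hdvd⟩ := hF (e l)
  obtain ⟨d, hd⟩ := exp_total hform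
  obtain ⟨μ, hμ⟩ : ∃ μ : ℤ, ∀ j ∈ U, u j = μ := by
    by_cases hUne : ∃ j0, j0 ∈ U
    · obtain ⟨j0, hj0⟩ := hUne
      exact ⟨u j0, fun j hj => le_antisymm (huU j hj j0 (hU hj0)) (huU j0 hj0 j (hU hj))⟩
    · exact ⟨0, fun j hj => absurd ⟨j, hj⟩ hUne⟩
  have h1 : wgt u (α l) - wgt u (β l) = ∑ j, ((α l j : ℤ) - β l j) * (u j - μ) := by
    have h2 : ∑ j, ((α l j : ℤ) - β l j) * μ = 0 := by
      rw [← Finset.sum_mul, Finset.sum_sub_distrib, ← Nat.cast_sum, ← Nat.cast_sum,
        hd _ (hαβ l).1, hd _ (hαβ l).2.1, sub_self, zero_mul]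
    unfold wgt
    have h3 : ∑ j, ((α l j : ℤ) - β l j) * (u j - μ) =
        ∑ j, ((α l j : ℤ) * u j - (β l j : ℤ) * u j) - ∑ j, ((α l j : ℤ) - β l j) * μ := by
      rw [← Finset.sum_sub_distrib]
      exact Finset.sum_congr rfl fun j _ => by ring
    rw [h3, h2, sub_zero, Finset.sum_sub_distrib]
  have h2 : (N' : ℤ) ∣ wgt u (α l) - wgt u (β l) := by
    rw [h1]
    refine Finset.dvd_sum fun j _ => ?_
    by_cases hj : j ∈ U
    · rw [hμ j hj, sub_self, mul_zero]
      exact dvd_zero _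
    · refine Dvd.dvd.mul_right (dvd_sub ?_ ?_) _
      · exact_mod_cast hdvd _ (hαβ l).1 j hj
      · exact_mod_cast hdvd _ (hαβ l).2.1 j hj
  have h3 : (N' : ℤ) ≤ |wgt u (α l) - wgt u (β l)| :=
    Int.le_of_dvd (abs_pos.2 fun h => hl (by rw [h, abs_zero])) ((dvd_abs _ _).2 h2)
  have h4 : (N : ℤ) ≤ N' := by exact_mod_cast hN'
  exact h4.trans h3

/-- Each monomial of the form `F` has degree at most `δ` in the variables other than a dominating
variable, and the dominating variables of different monomials are different. For example the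
homogeneous invertible polynomials whose exponents in the dominating variables are at least
`d - δ`, such as the sums of Fermat polynomials, chains and loops, `δ = 1`. -/
def Dominated (F : MvPolynomial (Fin (n + 1)) k) (δ : ℕ) : Prop :=
  ∃ v : (Fin (n + 1) →₀ ℕ) → Fin (n + 1), Set.InjOn v F.support ∧
    ∀ α ∈ F.support, ∑ j, α j ≤ α (v α) + δ

/-- integer solutions of dominated systems of equations -/
theorem solve {N : ℕ} (A : Fin N → Fin N → ℤ)
    (hA : ∀ i, ∑ j ∈ Finset.univ.erase i, |A i j| < |A i i|) (z : Fin N → ℤ) :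
    ∃ (M : ℕ) (u : Fin N → ℤ), 0 < M ∧ ∀ i, ∑ j, A i j * u j = M * z i := by
  classical
  let B : Matrix (Fin N) (Fin N) ℚ := Matrix.of fun i j => (A i j : ℚ)
  have hB : B.det ≠ 0 := by
    apply det_ne_zero_of_sum_row_lt_diag
    intro i
    have h1 : ∀ j, ‖B i j‖ = ((|A i j| : ℤ) : ℝ) := by
      intro j
      change ‖((A i j : ℤ) : ℚ)‖ = _
      rw [Int.norm_cast_rat, Int.norm_eq_abs, Int.cast_abs]
    rw [Finset.sum_congr rfl fun j _ => h1 j, h1 i]
    exact_mod_cast hA i
  let x : Fin N → ℚ := B⁻¹.mulVec fun i => (z i : ℚ)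
  have hx : B.mulVec x = fun i => (z i : ℚ) := by
    have h2 : IsUnit B.det := isUnit_iff_ne_zero.2 hB
    simp only [x]
    rw [Matrix.mulVec_mulVec, Matrix.mul_nonsing_inv _ h2, Matrix.one_mulVec]
  obtain ⟨M, u, hM, hu⟩ := clear_den x
  refine ⟨M, u, hM, fun i => ?_⟩
  have h3 := congrFun hx i
  have h4 : ((∑ j, A i j * u j : ℤ) : ℚ) = ((M * z i : ℤ) : ℚ) := by
    push_cast
    rw [← h3]
    simp only [Matrix.mulVec, dotProduct, Finset.mul_sum]
    refine Finset.sum_congr rfl fun j _ => ?_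
    rw [hu]
    change (A i j : ℚ) * (M * x j) = M * ((A i j : ℚ) * x j)
    ring
  exact_mod_cast h4

/-- **Forms with dominating variables are wide.** -/
theorem wide_of_dominated {U : Set (Fin (n + 1))} {F : MvPolynomial (Fin (n + 1)) k} {d δ N : ℕ}
    (hd : F.IsHomogeneous d) (hF : Dominated F δ) (hN : N + 2 * δ ≤ d) (hN0 : 0 < N) :
    Wide U (fun _ : Unit => F) N := by
  classical
  obtain ⟨v, hv, hdom⟩ := hF
  have hdeg : ∀ α ∈ F.support, ∑ j, α j = d := by
    intro α hα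
    have h2 := hd (MvPolynomial.mem_support_iff.1 hα)
    rw [← h2]
    simp [Finsupp.weight_apply, Finsupp.sum_fintype]
  intro I r e α β hUI hr hαβ hpos u hu _
  -- the matrix
  have hmat : ∀ (w : Fin (n + 1) → Fin (n + 1) →₀ ℕ) (S : Set (Fin (n + 1)))
      (_ : ∀ j ∈ S, w j ∈ F.support ∧ v (w j) = j) (z : Fin (n + 1) → ℤ),
      ∃ (M : ℕ) (u : Fin (n + 1) → ℤ), 0 < M ∧ (∀ j ∈ S, wgt u (w j) = M * z j) ∧
        ∀ j, j ∉ S → u j = M * z j := by
    intro w S hw z
    let A : Fin (n + 1) → Fin (n + 1) → ℤ := fun i j =>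
      if i ∈ S then (w i j : ℤ) else if i = j then 1 else 0
    have hA : ∀ i, ∑ j ∈ Finset.univ.erase i, |A i j| < |A i i| := by
      intro i
      by_cases hi : i ∈ S
      · have h1 : ∀ j, A i j = (w i j : ℤ) := fun j => if_pos hi
        simp only [h1, Nat.abs_cast]
        have h2 := hdom _ (hw i hi).1
        have h3 := hdeg _ (hw i hi).1
        rw [(hw i hi).2] at h2
        have h4 : w i i + ∑ j ∈ Finset.univ.erase i, w i j = ∑ j, w i j :=
          Finset.add_sum_erase Finset.univ (fun j => w i j) (Finset.mem_univ i)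
        have h5 : ∑ j ∈ Finset.univ.erase i, w i j < w i i := by omega
        exact_mod_cast h5
      · have h1 : ∀ j, A i j = if i = j then 1 else 0 := fun j => if_neg hi
        simp only [h1]
        rw [Finset.sum_eq_zero fun j hj => by
          rw [if_neg (Finset.ne_of_mem_erase hj).symm, abs_zero]]
        simp
    obtain ⟨M, u, hM, hu⟩ := solve A hA z
    refine ⟨M, u, hM, fun j hj => ?_, fun j hj => ?_⟩
    · rw [← hu j]
      unfold wgt
      refine Finset.sum_congr rfl fun x _ => ?_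
      simp only [A, if_pos hj]
    · rw [← hu j]
      simp only [A, if_neg hj, ite_mul, one_mul, zero_mul, Finset.sum_ite_eq, Finset.mem_univ,
        if_true]
  -- monomials of `F` in the variables of `I`
  have hsup : ∀ l, (∀ x ∈ F.support, (x = α l ∨ x = β l) → ∀ j, j ∉ I → x j = 0) := by
    rintro l x _ (rfl | rfl) j hj
    · exact ((hαβ l).2.2 j hj).1
    · exact ((hαβ l).2.2 j hj).2
  have hvI : ∀ x ∈ F.support, (∀ j, j ∉ I → x j = 0) → v x ∈ I := by
    intro x hx hxI
    by_contra h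
    have h1 := hdom x hx
    rw [hdeg x hx, hxI _ h] at h1
    omega
  have hconst : ∀ (u : Fin (n + 1) → ℤ) (x : Fin (n + 1) →₀ ℕ), x ∈ F.support →
      (∀ j, j ∉ I → x j = 0) → ∀ c : ℤ, (∀ j ∈ I, u j = c) → wgt u x = d * c := by
    intro u x hx hxI c hc
    unfold wgt
    have h1 : ∀ j, (x j : ℤ) * u j = (x j : ℤ) * c := by
      intro j
      by_cases hj : j ∈ I
      · rw [hc j hj]
      · rw [hxI j hj, Nat.cast_zero, zero_mul, zero_mul]
    rw [Finset.sum_congr rfl fun j _ => by rw [show ((x j : ℕ) : ℤ) * u j = (x j : ℤ) * c from h1 j],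
      ← Finset.sum_mul, ← Nat.cast_sum, hdeg x hx]
  have hann : ∀ u : Fin (n + 1) → ℤ, (∀ l, wgt u (α l) = wgt u (β l)) →
      ∃ c, ∀ j ∈ I, u j = c := by
    intro u h
    by_contra hcon
    push Not at hcon
    have hne : ∃ i ∈ I, ∃ j ∈ I, u i ≠ u j := by
      obtain ⟨i, hi, _⟩ := hcon 0
      obtain ⟨j, hj, hij⟩ := hcon (u i)
      exact ⟨i, hi, j, hj, hij.symm⟩
    have h1 := hpos u hne
    rw [Finset.sum_eq_zero fun l _ => by rw [h l, sub_self, abs_zero]] at h1
    exact lt_irrefl _ h1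
  -- there is a pair
  obtain ⟨l0, -, -⟩ := Finset.exists_ne_zero_of_sum_ne_zero (hpos u hu).ne'
  have hd0 : (d : ℤ) ≠ 0 := by
    have : 0 < d := by omega
    exact_mod_cast this.ne'
  -- all variables of `I` dominate
  have hlead : ∀ j ∈ I, ∃ x ∈ F.support, (∀ i, i ∉ I → x i = 0) ∧ v x = j := by
    intro j0 hj0
    by_contra hcon
    push Not at hcon
    have hw : ∀ j, ∃ x : Fin (n + 1) →₀ ℕ,
        (∃ x ∈ F.support, (∀ i, i ∉ I → x i = 0) ∧ v x = j) →
        (x ∈ F.support ∧ (∀ i, i ∉ I → x i = 0) ∧ v x = j) := by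
      intro j
      by_cases h : ∃ x ∈ F.support, (∀ i, i ∉ I → x i = 0) ∧ v x = j
      · obtain ⟨x, hx⟩ := h
        exact ⟨x, fun _ => hx⟩
      · exact ⟨0, fun h' => absurd h' h⟩
    choose w hw using hw
    obtain ⟨M, u', hM, h1, h2⟩ := hmat w
      {j | ∃ x ∈ F.support, (∀ i, i ∉ I → x i = 0) ∧ v x = j}
      (fun j hj => ⟨(hw j hj).1, (hw j hj).2.2⟩) (fun j => if j = j0 then 1 else 0)
    have hz : ∀ x ∈ F.support, (∀ i, i ∉ I → x i = 0) → wgt u' x = 0 := by
      intro x hx hxI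
      have h3 : ∃ x' ∈ F.support, (∀ i, i ∉ I → x' i = 0) ∧ v x' = v x := ⟨x, hx, hxI, rfl⟩
      have h4 : w (v x) = x := hv (hw _ h3).1 hx (hw _ h3).2.2
      have h5 := h1 (v x) h3
      rw [h4, if_neg (hcon x hx hxI), mul_zero] at h5
      exact h5
    obtain ⟨c, hc⟩ := hann u' fun l => by
      rw [hz _ (hαβ l).1 fun j hj => ((hαβ l).2.2 j hj).1,
        hz _ (hαβ l).2.1 fun j hj => ((hαβ l).2.2 j hj).2]
    have h3 : u' j0 = M := by
      have := h2 j0 (by
        rintro ⟨x, hx, hxI, hxj⟩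
        exact hcon x hx hxI hxj)
      rw [if_pos rfl, mul_one] at this
      exact this
    have h4 := hconst u' (α l0) (hαβ l0).1 (fun j hj => ((hαβ l0).2.2 j hj).1) c hc
    rw [hz _ (hαβ l0).1 fun j hj => ((hαβ l0).2.2 j hj).1] at h4
    have h5 : c = 0 := (mul_eq_zero.1 h4.symm).resolve_left hd0
    have h6 := hc j0 hj0
    rw [h3, h5] at h6
    have : (M : ℤ) ≠ 0 := by exact_mod_cast hM.ne'
    exact this h6
  have hw : ∀ j, ∃ x : Fin (n + 1) →₀ ℕ, j ∈ I →
      (x ∈ F.support ∧ (∀ i, i ∉ I → x i = 0) ∧ v x = j) := by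
    intro j
    by_cases h : j ∈ I
    · obtain ⟨x, hx⟩ := hlead j h
      exact ⟨x, fun _ => hx⟩
    · exact ⟨0, fun h' => absurd h' h⟩
  choose w hw using hw
  have hwv : ∀ x ∈ F.support, (∀ i, i ∉ I → x i = 0) → w (v x) = x := by
    intro x hx hxI
    have h1 := hw (v x) (hvI x hx hxI)
    exact hv h1.1 hx h1.2.2
  -- a minimal and a maximal value
  obtain ⟨i1, hi1, i2, hi2, h12⟩ := hu
  have hfin : (Finset.univ.filter fun j => j ∈ I).Nonempty := ⟨i1, by simp [hi1]⟩
  obtain ⟨a, ha, hamin⟩ := Finset.exists_min_image _ u hfin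
  obtain ⟨b, hb, hbmax⟩ := Finset.exists_max_image _ u hfin
  have haI : a ∈ I := (Finset.mem_filter.1 ha).2
  have hbI : b ∈ I := (Finset.mem_filter.1 hb).2
  have hamin' : ∀ j ∈ I, u a ≤ u j := fun j hj => hamin j (by simp [hj])
  have hbmax' : ∀ j ∈ I, u j ≤ u b := fun j hj => hbmax j (by simp [hj])
  have hab : 1 ≤ u b - u a := by
    have h1 := hamin' i1 hi1
    have h2 := hamin' i2 hi2
    have h3 := hbmax' i1 hi1
    have h4 := hbmax' i2 hi2
    omega
  -- the difference of the weights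
  have hdiff : (N : ℤ) ≤ wgt u (w b) - wgt u (w a) := by
    have h1 : ∀ x ∈ F.support, (∀ i, i ∉ I → x i = 0) →
        wgt u x = ∑ j, (x j : ℤ) * (u j - u a) + d * u a := by
      intro x hx _
      unfold wgt
      simp only [mul_sub, Finset.sum_sub_distrib]
      rw [← Finset.sum_mul, ← Nat.cast_sum, hdeg x hx]
      ring
    rw [h1 _ (hw b hbI).1 (hw b hbI).2.1, h1 _ (hw a haI).1 (hw a haI).2.1]
    have h2 : ((w b b : ℕ) : ℤ) * (u b - u a) ≤ ∑ j, (w b j : ℤ) * (u j - u a) := by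
      refine Finset.single_le_sum (f := fun j => (w b j : ℤ) * (u j - u a)) (fun j _ => ?_)
        (Finset.mem_univ b)
      by_cases hj : j ∈ I
      · exact mul_nonneg (Nat.cast_nonneg _) (sub_nonneg.2 (hamin' j hj))
      · rw [(hw b hbI).2.1 j hj, Nat.cast_zero, zero_mul]
    have h3 : ∑ j, (w a j : ℤ) * (u j - u a) ≤
        ((∑ j ∈ Finset.univ.erase a, w a j : ℕ) : ℤ) * (u b - u a) := by
      rw [← Finset.add_sum_erase Finset.univ _ (Finset.mem_univ a), sub_self, mul_zero, zero_add,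
        Nat.cast_sum, Finset.sum_mul]
      refine Finset.sum_le_sum fun j _ => ?_
      by_cases hj : j ∈ I
      · exact mul_le_mul_of_nonneg_left (sub_le_sub_right (hbmax' j hj) _) (Nat.cast_nonneg _)
      · rw [(hw a haI).2.1 j hj, Nat.cast_zero, zero_mul, zero_mul]
    have h4 := hdom _ (hw b hbI).1
    have h5 := hdom _ (hw a haI).1
    rw [(hw b hbI).2.2, hdeg _ (hw b hbI).1] at h4
    rw [(hw a haI).2.2] at h5
    have h6 : w a a + ∑ j ∈ Finset.univ.erase a, w a j = ∑ j, w a j :=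
      Finset.add_sum_erase Finset.univ (fun j => w a j) (Finset.mem_univ a)
    have h7 : ((∑ j ∈ Finset.univ.erase a, w a j : ℕ) : ℤ) ≤ δ := by
      have : ∑ j ∈ Finset.univ.erase a, w a j ≤ δ := by omega
      exact_mod_cast this
    have h8 : (N : ℤ) + δ ≤ (w b b : ℤ) := by
      have : N + δ ≤ w b b := by omega
      exact_mod_cast this
    have h9 : (0 : ℤ) ≤ N := Nat.cast_nonneg _
    have h10 : (0 : ℤ) ≤ δ := Nat.cast_nonneg _
    nlinarith
  refine hdiff.trans ?_
  -- every threshold is crossed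
  have hcross : ∀ t : ℤ, wgt u (w a) ≤ t → t < wgt u (w b) → ∃ l,
      min (wgt u (α l)) (wgt u (β l)) ≤ t ∧ t < max (wgt u (α l)) (wgt u (β l)) := by
    intro t hta htb
    by_contra hcon
    push Not at hcon
    obtain ⟨M, u', hM, h1, -⟩ := hmat w I (fun j hj => ⟨(hw j hj).1, (hw j hj).2.2⟩)
      (fun j => if wgt u (w j) ≤ t then 1 else 0)
    have hz : ∀ x ∈ F.support, (∀ i, i ∉ I → x i = 0) →
        wgt u' x = if wgt u x ≤ t then (M : ℤ) else 0 := by
      intro x hx hxI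
      have h5 := h1 (v x) (hvI x hx hxI)
      rw [hwv x hx hxI] at h5
      rw [h5]
      split_ifs <;> simp
    obtain ⟨c, hc⟩ := hann u' fun l => by
      rw [hz _ (hαβ l).1 fun j hj => ((hαβ l).2.2 j hj).1,
        hz _ (hαβ l).2.1 fun j hj => ((hαβ l).2.2 j hj).2]
      have h3 := hcon l
      by_cases h4 : wgt u (α l) ≤ t
      · have h5 := h3 (le_trans (min_le_left _ _) h4)
        rw [if_pos h4, if_pos ((le_max_right _ _).trans h5)]
      · rw [if_neg h4, if_neg]
        intro h5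
        have h6 := h3 (le_trans (min_le_right _ _) h5)
        exact h4 ((le_max_left _ _).trans h6)
    have h2 := hz _ (hw a haI).1 (hw a haI).2.1
    have h3 := hz _ (hw b hbI).1 (hw b hbI).2.1
    rw [if_pos hta, hconst u' _ (hw a haI).1 (hw a haI).2.1 c hc] at h2
    rw [if_neg (not_le.2 htb), hconst u' _ (hw b hbI).1 (hw b hbI).2.1 c hc] at h3
    rw [h3] at h2
    have : (M : ℤ) ≠ 0 := by exact_mod_cast hM.ne'
    exact this h2.symm
  -- counting
  have hsub : Finset.Ico (wgt u (w a)) (wgt u (w b)) ⊆ Finset.univ.biUnion fun l =>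
      Finset.Ico (min (wgt u (α l)) (wgt u (β l))) (max (wgt u (α l)) (wgt u (β l))) := by
    intro t ht
    rw [Finset.mem_Ico] at ht
    obtain ⟨l, hl1, hl2⟩ := hcross t ht.1 ht.2
    exact Finset.mem_biUnion.2 ⟨l, Finset.mem_univ l, Finset.mem_Ico.2 ⟨hl1, hl2⟩⟩
  have hcard := (Finset.card_le_card hsub).trans Finset.card_biUnion_le
  simp only [Int.card_Ico, max_sub_min_eq_abs] at hcard
  have h1 : wgt u (w b) - wgt u (w a) ≤ ((wgt u (w b) - wgt u (w a)).toNat : ℤ) :=
    Int.self_le_toNat _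
  have h2 : (((wgt u (w b) - wgt u (w a)).toNat : ℕ) : ℤ) ≤
      ((∑ l, |wgt u (β l) - wgt u (α l)|.toNat : ℕ) : ℤ) := by exact_mod_cast hcard
  refine h1.trans (h2.trans (le_of_eq ?_))
  push_cast
  refine Finset.sum_congr rfl fun l _ => ?_
  rw [Int.toNat_of_nonneg (abs_nonneg _), abs_sub_comm]

end Pool.Agent.R869.Wd
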