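import Pool.Agent.R869.WAn2
import Pool.Agent.R869.WSel
import Pool.Agent.R869.WAlg3
import Pool.Agent.R869.CMain
import Pool.Agent.W602.GT.PsFin

/-!
Holomorphic curves in varieties given by wide systems of forms.
-/

set_option autoImplicit false

namespace Pool.Agent.R869.Wd

open MvPolynomial Filter Metric Topology Pool.Agent.H159R3.GGLLog Pool.Agent.H159R3.NV
  Pool.Agent.W602.GT Pool.Agent.W603.BP Pool.Agent.R869 Pool.Agent.TH152.HY

variable {n : ℕ} {ι : Type} {U : Set (Fin (n + 1))}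

/-- the assumption on the system -/
structure Sys {k : Type} [Field k] (U : Set (Fin (n + 1))) (F : ι → MvPolynomial (Fin (n + 1)) k)
    (s N : ℕ) : Prop where
  form : ∀ e, IsForm (F e)
  pos : 1 ≤ s
  card : ∀ e, (F e).support.card ≤ s
  wide : Wide U F N
  num : s * (n * tri (s - 1)) < N

theorem eval_supp {I : Finset (Fin (n + 1))} (x : Fin (n + 1) → ℂ) (hI : ∀ j, j ∉ I → x j = 0)
    (S : Finset (Fin (n + 1) →₀ ℕ)) (c : (Fin (n + 1) →₀ ℕ) → ℂ) :
    ∑ α ∈ S, c α * ∏ j, x j ^ α j =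
      ∑ α ∈ S.filter (fun α => ∀ j, j ∉ I → α j = 0), c α * ∏ j ∈ I, x j ^ α j := by
  classical
  rw [Finset.sum_filter]
  refine Finset.sum_congr rfl fun α _ => ?_
  split_ifs with h
  · rw [← Finset.prod_subset (Finset.subset_univ I) fun j _ hj => by rw [h j hj, pow_zero]]
  · push Not at h
    obtain ⟨j, hj, hα⟩ := h
    rw [Finset.prod_eq_zero (Finset.mem_univ j) (by rw [hI j hj, zero_pow hα]), mul_zero]

/-- A holomorphic map from the punctured disc with an essential singularity yields a one-parameter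
group. -/
theorem pcurve {F : ι → MvPolynomial (Fin (n + 1)) ℂ} {s N : ℕ} (hC : Sys U F s N)
    (f : ℂ → Fin (n + 1) → ℂ) (hf : PCurve U F f) (hE : ¬ Extends f) :
    ∃ (b : Fin (n + 1) → ℤ) (j k : Fin (n + 1)), Nz (fun w => f w j) ∧ Nz (fun w => f w k) ∧
      b j ≠ b k ∧ ∀ i (v : ℤ), ∀ z ∈ PB 1, eval (f z) (sub (F i)
        ((F i).support.filter (fun α => ∑ j, (α j : ℤ) * b j = v))) = 0 := by
  classical
  by_contra hcon
  push Not at hcon
  apply hE
  have hfa := hf.an
  have hX : ∀ w ∈ PB 1, f w ∈ Pts U F := fun w hw => hf.2 w (mem_disc.mpr hw)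
  have hmem : ∀ z ∈ Ext 1, z⁻¹ ∈ PB 1 := fun z hz => inv_mem_PB one_pos (by
    rw [inv_one]; exact hz)
  set g : ℂ → Fin (n + 1) → ℂ := fun z => f z⁻¹ with hg
  have hga : ∀ i, AnalyticOnNhd ℂ (fun z => g z i) (Ext 1) := by
    intro i z hz
    have hz0 : z ≠ 0 := ext_ne_zero zero_le_one hz
    exact (hfa i _ (hmem z hz)).comp (analyticAt_inv hz0)
  set I : Finset (Fin (n + 1)) := Finset.univ.filter fun i => ∃ z ∈ Ext 1, g z i ≠ 0 with hIdef
  have hI : ∀ i, i ∈ I ↔ ∃ z ∈ Ext 1, g z i ≠ 0 := fun i => by simp [hIdef]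
  have hI0 : ∀ i, i ∉ I → ∀ z ∈ Ext 1, g z i = 0 := by
    intro i hi z hz
    by_contra h
    exact hi ((hI i).2 ⟨z, hz, h⟩)
  have hIN : ∀ i ∈ I, Nz (fun w => f w i) := by
    intro i hi
    obtain ⟨z, hz, h⟩ := (hI i).1 hi
    exact nz_of_on (hfa i) (hmem z hz) h
  obtain ⟨z1, hz1⟩ := Ext_nonempty 1
  have hne : I.Nonempty := by
    obtain ⟨i, hi⟩ := Function.ne_iff.1 (hX _ (hmem z1 hz1)).1
    exact ⟨i, (hI i).2 ⟨z1, hz1, hi⟩⟩
  obtain ⟨r, G, a, b, e, hr, hG, hm, hpos, M, hM⟩ := select (V := Ext 1 → ℂ) (rst 1 (monI I g)) F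
    hC.form hC.card I (fun e => by
      funext ⟨z, hz⟩
      simp only [Finset.sum_apply, Pi.smul_apply, smul_eq_mul, rst, Pi.zero_apply, monI]
      rw [← eval_supp (g z) (fun j hj => hI0 j hj z hz), ← eval_eq']
      exact (hX _ (hmem z hz)).2.2 e) (by
      rintro b ⟨i, hi, j, hj, hij⟩
      obtain ⟨e, v, z, hz, h⟩ := hcon b i j (hIN i hi) (hIN j hj) hij
      refine ⟨e, v, fun h0 => h ?_⟩
      have hzE : z⁻¹ ∈ Ext 1 := by simpa using inv_mem_Ext hz
      have h1 := congrFun h0 ⟨z⁻¹, hzE⟩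
      simp only [Finset.sum_apply, Pi.smul_apply, smul_eq_mul, rst, Pi.zero_apply, monI] at h1
      have h2 : f z = g z⁻¹ := by
        simp only [hg, inv_inv]
      rw [h2, eval_sub', eval_supp (g z⁻¹) (fun j hj => hI0 j hj z⁻¹ hzE), ← h1,
        Finset.filter_filter, Finset.filter_filter]
      refine Finset.sum_congr (Finset.filter_congr fun α _ => ?_) fun _ _ => rfl
      constructor
      · rintro ⟨h1, h2⟩
        exact ⟨h2, h1⟩
      · rintro ⟨h1, h2⟩
        exact ⟨h2, h1⟩)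
  have hdeg : ∀ l, ∃ d, ∀ α ∈ (F (e l)).support, ∑ j, α j = d := fun l =>
    exp_total (hC.form (e l))
  choose d hd using hdeg
  let A : FamA 1 n s (n * tri (s - 1)) :=
    { f := g
      U := U
      f_an := hga
      f_ne := fun z hz => (hX _ (hmem z hz)).1
      f_U := fun i hi z hz => (hX _ (hmem z hz)).2.1 i hi
      I := I
      hI := hI
      ne := hne
      r := r
      G := G
      a := a
      b := b
      d := d
      M := M
      deg := fun l i => hd l _ (hG l i).1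
      supp := fun l i j hj => (hG l i).2 j hj
      pos := hC.pos
      size := hm
      tot := tri_le_mul hr _ hm
      full := hM }
  have hmain := A.main one_pos fun u hu hu2 => by
    have h1 := hC.wide (I : Set (Fin (n + 1))) r e (fun l => (G l).e (a l))
      (fun l => (G l).e (b l)) (fun j hj => (hI j).2 ⟨z1, hz1, (hX _ (hmem z1 hz1)).2.1 j hj⟩) hr
      (fun l => ⟨(hG l _).1, (hG l _).1, fun j hj =>
        ⟨(hG l _).2 j hj, (hG l _).2 j hj⟩⟩) hpos u hu hu2
    refine le_trans ?_ h1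
    exact_mod_cast hC.num
  have hP : ∀ j, Pun (fun w => f w j) := fun j => on_pun one_pos (hfa j)
  apply extends_of f hfa fun w hw => (hX w hw).1
  intro i i0 hi hi0
  have hmemI : ∀ i, Nz (fun w => f w i) → i ∈ I := by
    intro i hi
    obtain ⟨w, hw, hwne⟩ := nz_on one_pos hi
    refine (hI i).2 ⟨w⁻¹, by simpa using inv_mem_Ext hw, ?_⟩
    simpa [hg] using hwne
  obtain ⟨R, hR, R0, hRe⟩ := hmain i i0 (hmemI i hi) (hmemI i0 hi0)
  refine ⟨fun w => R w⁻¹, hR, ev_iff.2 ⟨(max R0 1)⁻¹, by positivity, fun w hw => ?_⟩⟩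
  have h2 := hRe w⁻¹ (by
    have h3 := inv_mem_Ext hw
    rw [inv_inv] at h3
    exact lt_of_le_of_lt (le_max_left _ _) h3)
  have h3 : ∀ i, A.f w⁻¹ i = f w i := fun i => by
    change f (w⁻¹)⁻¹ i = f w i
    rw [inv_inv]
  rw [h3, h3] at h2
  exact h2

/-- if all one-parameter groups that preserve `X` act trivially then `X` is pseudo-Picard
hyperbolic -/
theorem picard_of_trivial [Finite ι] {F : ι → MvPolynomial (Fin (n + 1)) ℂ} {s N : ℕ}
    (hC : Sys U F s N) (hirr : Irred U F)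
    (h : ∀ b : Fin (n + 1) → ℤ, Preserves U b F → ActsTrivially U b F) : PseudoPicard U F := by
  classical
  have := Fintype.ofFinite ι
  refine ⟨exc U F, exc_hom U F hC.form, exc_ne U F hirr, ?_⟩
  rintro f hf ⟨z1, hz1, hG⟩
  by_contra hE
  obtain ⟨b, j, k, hj, hk, hbjk, hs⟩ := pcurve hC f hf hE
  have hz1' : z1 ∈ PB 1 := mem_disc.mp hz1
  have hpres : Preserves U b F := by
    intro x hx t ht
    apply orbit_mem hx _ ht
    intro i v
    exact exc_sub U F (f z1) hG i _ (Finset.filter_subset _ _) (hs i v z1 hz1') x hx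
  obtain ⟨z, hz, hgood⟩ := good_point (fun a : Fin 2 => fun w => f w (if a = 0 then j else k))
    (fun a => hf.an _) (by
      intro a
      fin_cases a
      · exact hj
      · exact hk)
  have h0 : f z j ≠ 0 := hgood 0
  have h1 : f z k ≠ 0 := hgood 1
  obtain ⟨c, hc⟩ := h b hpres (f z) (hf.2 z (mem_disc.mpr hz)) 2 two_ne_zero
  have h2 : ∀ l, f z l ≠ 0 → (2 : ℂ) ^ b l = c := by
    intro l hl
    have h3 := congrFun hc l
    simp only [Pi.smul_apply, smul_eq_mul] at h3
    rw [mul_comm] at h3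
    exact mul_right_cancel₀ hl h3
  exact hbjk (two_pow_inj ((h2 j h0).trans (h2 k h1).symm))

/-- a torus curve through a point of an essential punctured curve -/
theorem torusCurve_of_p {F : ι → MvPolynomial (Fin (n + 1)) ℂ} {s N : ℕ} (hC : Sys U F s N)
    (f : ℂ → Fin (n + 1) → ℂ) (hf : PCurve U F f) (hE : ¬ Extends f)
    (G : MvPolynomial (Fin (n + 1)) ℂ) (z1 : ℂ) (hz1 : z1 ∈ ball (0 : ℂ) 1 \ {0})
    (hG : eval (f z1) G ≠ 0) : ∃ v, TorusCurve U F v ∧ eval (v 1) G ≠ 0 := by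
  obtain ⟨b, j, k, hj, hk, hbjk, hs⟩ := pcurve hC f hf hE
  have hGn : Nz (fun w => eval (f w) G) := nz_of_on (eval_an hf.an G) (mem_disc.mp hz1) hG
  obtain ⟨z0, hz0, hgood⟩ := good_point
    (fun a : Fin 3 => fun w => if a = 0 then f w j else if a = 1 then f w k else eval (f w) G)
    (by
      intro a
      fin_cases a
      · exact hf.an j
      · exact hf.an k
      · exact eval_an hf.an G)
    (by
      intro a
      fin_cases a
      · exact hj
      · exact hk
      · exact hGn)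
  have h0 : f z0 j ≠ 0 := hgood 0
  have h1 : f z0 k ≠ 0 := hgood 1
  have h2 : eval (f z0) G ≠ 0 := hgood 2
  have hX : f z0 ∈ Pts U F := hf.2 z0 (mem_disc.mpr hz0)
  refine ⟨fun t j => f z0 j * t ^ b j,
    ⟨fun j => (Pool.Agent.H159R3.Exp.Laur.const _).mul (Pool.Agent.H159R3.Exp.Laur.zpow _), ?_, ?_⟩, ?_⟩
  · intro t ht
    exact orbit_mem hX (fun i v => hs i v z0 hz0) ht
  · refine ⟨2, 1, two_ne_zero, one_ne_zero, fun c hc => ?_⟩
    have h3 : ∀ l, f z0 l ≠ 0 → (2 : ℂ) ^ b l = c := by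
      intro l hl
      have h4 := congrFun hc l
      simp only [Pi.smul_apply, smul_eq_mul, one_zpow, mul_one] at h4
      rw [mul_comm] at h4
      exact mul_right_cancel₀ hl h4
    exact hbjk (two_pow_inj ((h3 j h0).trans (h3 k h1).symm))
  · simpa using h2

/-- the closures of the essential punctured curves, of the entire curves, and of the algebraic tori
coincide -/
theorem special_picard {F : ι → MvPolynomial (Fin (n + 1)) ℂ} {s N : ℕ} (hC : Sys U F s N) :
    SpP U F = SpH U F ∧ SpH U F = SpT U F := by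
  have h1 : ∀ x, x ∈ SpT U F → x ∈ SpH U F := by
    rintro x ⟨hx, h⟩
    refine ⟨hx, fun G hG hf => h G hG fun v hv t ht => ?_⟩
    have := hf _ hv.entire (Complex.log t)
    simpa only [Complex.exp_log ht] using this
  have h2 : ∀ x, x ∈ SpH U F → x ∈ SpP U F := by
    rintro x ⟨hx, h⟩
    refine ⟨hx, fun G hG hf => h G hG fun f hfc z => ?_⟩
    obtain ⟨h3, h4⟩ := sin_curve hfc
    obtain ⟨w, hw, hwz⟩ := sin_point z
    have := hf _ h3 h4 w hw
    rwa [hwz] at this
  have h3 : ∀ x, x ∈ SpP U F → x ∈ SpT U F := by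
    rintro x ⟨hx, h⟩
    refine ⟨hx, fun G hG hv => h G hG fun f hf hE z hz => ?_⟩
    by_contra hz2
    obtain ⟨v, hv', hv1⟩ := torusCurve_of_p hC f hf hE G z hz hz2
    exact hv1 (hv v hv' 1 one_ne_zero)
  exact ⟨Set.Subset.antisymm (fun x hx => h1 x (h3 x hx)) h2,
    Set.Subset.antisymm (fun x hx => h3 x (h2 x hx)) h1⟩

end Pool.Agent.R869.Wd
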