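import Pool.Agent.R869.WEx
import Pool.Agent.R869.WTop

/-!
Examples of wide systems of forms: hypersurfaces given by forms with dominating variables.
-/

set_option autoImplicit false

open MvPolynomial Pool.Agent.W602.GT

namespace Pool.Agent.R869.Wd

variable {k : Type} [Field k] {n : ℕ}

/-- the number of monomials -/
theorem card_of_dominated {F : MvPolynomial (Fin (n + 1)) k} {δ : ℕ} (hF : Dominated F δ) :
    F.support.card ≤ n + 1 := by
  obtain ⟨v, hv, -⟩ := hF
  have := Finset.card_le_card_of_injOn v (s := F.support) (t := Finset.univ)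
    (fun _ _ => Finset.mem_univ _) hv
  simpa using this

theorem tri_choose (s : ℕ) : tri (s - 1) = (s - 1) * (s - 2) / 2 := by
  rw [tri_eq, Finset.sum_range_id]
  congr 2

/-- forms with dominating variables satisfy the assumptions -/
theorem sys_of_dominated {U : Set (Fin (n + 1))} {F : MvPolynomial (Fin (n + 1)) k} {d δ : ℕ}
    (hd : F.IsHomogeneous d) (hF : Dominated F δ)
    (hN : 2 * δ + n * ((n + 1) * (n * (n - 1) / 2)) < d) :
    Sys U (fun _ : Unit => F) (n + 1) (d - 2 * δ) where
  form := fun _ => ⟨d, hd⟩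
  pos := Nat.succ_pos n
  card := fun _ => card_of_dominated hF
  wide := wide_of_dominated hd hF (by omega) (by omega)
  num := by
    have h1 : tri (n + 1 - 1) = n * (n - 1) / 2 := by
      have := tri_choose (n + 1)
      simpa using this
    rw [h1]
    have h2 : (n + 1) * (n * (n * (n - 1) / 2)) = n * ((n + 1) * (n * (n - 1) / 2)) := by ring
    rw [h2]
    omega

/-- The sums of Fermat polynomials, chains and loops. -/
noncomputable def chainLoop (c : Fin (n + 1) → k) (σ : Fin (n + 1) → Fin (n + 1)) (d : ℕ) :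
    MvPolynomial (Fin (n + 1)) k :=
  ∑ i, C (c i) * (X i ^ (d - 1) * X (σ i))

theorem chainLoop_hom (c : Fin (n + 1) → k) (σ : Fin (n + 1) → Fin (n + 1)) {d : ℕ} (hd : 1 ≤ d) :
    (chainLoop c σ d).IsHomogeneous d := by
  unfold chainLoop
  refine IsHomogeneous.sum _ _ _ fun i _ => ?_
  have h1 := (isHomogeneous_C (Fin (n + 1)) (c i)).mul
    ((isHomogeneous_X_pow (R := k) i (d - 1)).mul (isHomogeneous_X k (σ i)))
  have h2 : 0 + (d - 1 + 1) = d := by omega
  rwa [h2] at h1

theorem chainLoop_support (c : Fin (n + 1) → k) (σ : Fin (n + 1) → Fin (n + 1)) (d : ℕ)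
    {α : Fin (n + 1) →₀ ℕ} (hα : α ∈ (chainLoop c σ d).support) :
    ∃ i, α = Finsupp.single i (d - 1) + Finsupp.single (σ i) 1 := by
  classical
  unfold chainLoop at hα
  obtain ⟨i, -, hi⟩ := Finset.mem_biUnion.1 (support_sum hα)
  refine ⟨i, ?_⟩
  have h1 : (C (c i) * (X i ^ (d - 1) * X (σ i)) : MvPolynomial (Fin (n + 1)) k) =
      monomial (Finsupp.single i (d - 1) + Finsupp.single (σ i) 1) (c i) := by
    rw [X_pow_eq_monomial, X, monomial_mul, C_mul_monomial]
    simp
  rw [h1] at hi
  exact Finset.mem_singleton.1 (support_monomial_subset hi)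

theorem chainLoop_dominated (c : Fin (n + 1) → k) (σ : Fin (n + 1) → Fin (n + 1)) {d : ℕ}
    (hd : 3 ≤ d) : Dominated (chainLoop c σ d) 1 := by
  classical
  have hval : ∀ i j, (Finsupp.single i (d - 1) + Finsupp.single (σ i) 1 :
      Fin (n + 1) →₀ ℕ) j = (if i = j then d - 1 else 0) + if σ i = j then 1 else 0 := by
    intro i j
    rw [Finsupp.add_apply, Finsupp.single_apply, Finsupp.single_apply]
  have hex : ∀ α : Fin (n + 1) →₀ ℕ, ∃ i : Fin (n + 1), (∃ i, d - 1 ≤ α i) → d - 1 ≤ α i := by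
    intro α
    by_cases h : ∃ i, d - 1 ≤ α i
    · obtain ⟨i, hi⟩ := h
      exact ⟨i, fun _ => hi⟩
    · exact ⟨0, fun h' => absurd h' h⟩
  choose v hv using hex
  have hvi : ∀ i, v (Finsupp.single i (d - 1) + Finsupp.single (σ i) 1) = i := by
    intro i
    have h1 := hv (Finsupp.single i (d - 1) + Finsupp.single (σ i) 1) ⟨i, by
      rw [hval, if_pos rfl]
      omega⟩
    by_contra hne
    rw [hval, if_neg (Ne.symm hne)] at h1
    split_ifs at h1 <;> omega
  refine ⟨v, ?_, ?_⟩
  · intro α hα β hβ hαβ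
    obtain ⟨i, rfl⟩ := chainLoop_support c σ d hα
    obtain ⟨j, rfl⟩ := chainLoop_support c σ d hβ
    rw [hvi, hvi] at hαβ
    rw [hαβ]
  · intro α hα
    obtain ⟨i, rfl⟩ := chainLoop_support c σ d hα
    rw [hvi]
    have h1 : ∑ j, (Finsupp.single i (d - 1) + Finsupp.single (σ i) 1 : Fin (n + 1) →₀ ℕ) j =
        d - 1 + 1 := by
      rw [Finset.sum_congr rfl fun j _ => hval i j, Finset.sum_add_distrib,
        Finset.sum_ite_eq, Finset.sum_ite_eq]
      simp
    rw [h1, hval, if_pos rfl]
    omega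

end Pool.Agent.R869.Wd
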