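import Pool.Agent.R869.WAlm

/-!
Hypersurfaces with the monomials `x_j ^ d` and almost all further monomials: orbits.
-/

set_option autoImplicit false

open MvPolynomial Pool.Agent.W602.GT

namespace Pool.Agent.R869.Wd

section comb

variable {n s : ℕ}

/-- the representative of a class -/
noncomputable def rp (κ : Fin s ⊕ Fin (n + 1) → ℤ) (c : ℤ) : Fin s ⊕ Fin (n + 1) :=
  open Classical in
  if c = κ (Sum.inr (Fin.last n)) then Sum.inr (Fin.last n)
  else if h : ∃ j, κ (Sum.inr j) = c then Sum.inr h.choose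
  else if h : ∃ i, κ (Sum.inl i) = c then Sum.inl h.choose
  else Sum.inr (Fin.last n)

theorem rp_spec (κ : Fin s ⊕ Fin (n + 1) → ℤ) (p : Fin s ⊕ Fin (n + 1)) :
    κ (rp κ (κ p)) = κ p := by
  classical
  unfold rp
  split_ifs with h1 h2 h3
  · exact h1.symm
  · exact h2.choose_spec
  · exact h3.choose_spec
  · exfalso
    rcases p with i | j
    · exact h3 ⟨i, rfl⟩
    · exact h2 ⟨j, rfl⟩

theorem rp_last (κ : Fin s ⊕ Fin (n + 1) → ℤ) :
    rp κ (κ (Sum.inr (Fin.last n))) = Sum.inr (Fin.last n) := by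
  unfold rp
  rw [if_pos rfl]

theorem rp_inr (κ : Fin s ⊕ Fin (n + 1) → ℤ) (j : Fin (n + 1)) :
    ∃ l, rp κ (κ (Sum.inr j)) = Sum.inr l := by
  classical
  unfold rp
  split_ifs with h1 h2 h3
  · exact ⟨_, rfl⟩
  · exact ⟨_, rfl⟩
  · exact absurd ⟨j, rfl⟩ h2
  · exact ⟨_, rfl⟩

/-- Pairs in the same class with a determinant which is not identically zero. -/
theorem exists_pairs {m : ℕ} (hns : n ≤ m * (s + 2)) (κ : Fin s ⊕ Fin (n + 1) → ℤ)
    (hκ : ∀ p, m + 1 ≤ (Finset.univ.filter fun p' => κ p' = κ p).card) :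
    ∃ p q : Fin n → Fin s ⊕ Fin (n + 1), (∀ l, κ (p l) = κ (q l)) ∧
      ∃ z, (dm p q z).det ≠ 0 := by
  classical
  let ρ : Fin s ⊕ Fin (n + 1) → Fin s ⊕ Fin (n + 1) := fun p => rp κ (κ p)
  have hρκ : ∀ p, κ (ρ p) = κ p := rp_spec κ
  have hρρ : ∀ p, ρ (ρ p) = ρ p := fun p => by
    change rp κ (κ (ρ p)) = rp κ (κ p)
    rw [hρκ]
  have hρl : ρ (Sum.inr (Fin.last n)) = Sum.inr (Fin.last n) := rp_last κ
  have hρr : ∀ j, ∃ l, ρ (Sum.inr j) = Sum.inr l := rp_inr κ
  have hcls : ∀ p p', κ p = κ p' → ρ p = ρ p' := fun p p' h => by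
    change rp κ (κ p) = rp κ (κ p')
    rw [h]
  -- counting
  have hXY : m * (Finset.univ.filter fun p => ρ p = p).card ≤
      (Finset.univ.filter fun p => ¬ ρ p = p).card := by
    rw [Finset.card_eq_sum_card_fiberwise (s := Finset.univ.filter fun p => ¬ ρ p = p)
      (t := Finset.univ.filter fun p => ρ p = p) (f := ρ) (fun p _ =>
        Finset.mem_coe.2 (Finset.mem_filter.2 ⟨Finset.mem_univ _, hρρ p⟩)), mul_comm,
      ← smul_eq_mul]
    refine Finset.card_nsmul_le_sum _ _ _ fun r hr => ?_
    have hr := (Finset.mem_filter.1 hr).2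
    have h1 := hκ r
    have h2 : (Finset.univ.filter fun p' => κ p' = κ r) ⊆ insert r
        ((Finset.univ.filter fun p => ¬ ρ p = p).filter fun p => ρ p = r) := by
      intro p' hp'
      have hp' := (Finset.mem_filter.1 hp').2
      rw [Finset.mem_insert]
      by_cases h : p' = r
      · exact Or.inl h
      · right
        have h3 : ρ p' = r := by rw [hcls _ _ hp', hr]
        rw [Finset.mem_filter, Finset.mem_filter]
        exact ⟨⟨Finset.mem_univ _, fun h4 => h (by rw [← h4, h3])⟩, h3⟩
    have h3 := (Finset.card_le_card h2).trans (Finset.card_insert_le _ _)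
    omega
  let E' := Finset.univ.filter fun j : Fin n => ρ (Sum.inr j.castSucc) = Sum.inr j.castSucc
  let B := Finset.univ.filter fun i : Fin s => ¬ ρ (Sum.inl i) = Sum.inl i
  have hEB : E'.card ≤ B.card := by
    have e1 : (Finset.univ.filter fun p => ρ p = p).card =
        (Finset.univ.filter fun i : Fin s => ρ (Sum.inl i) = Sum.inl i).card + (E'.card + 1) := by
      simp only [Finset.card_filter, E', Fintype.sum_sum_type]
      rw [Fin.sum_univ_castSucc, hρl, if_pos rfl]
    have e2 : (Finset.univ.filter fun p => ¬ ρ p = p).card = B.card +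
        (Finset.univ.filter fun j : Fin n => ¬ ρ (Sum.inr j.castSucc) =
          Sum.inr j.castSucc).card := by
      simp only [Finset.card_filter, B, Fintype.sum_sum_type]
      rw [Fin.sum_univ_castSucc, hρl, if_neg (not_not.2 rfl), add_zero]
    have e3 := Finset.card_filter_add_card_filter_not (s := (Finset.univ : Finset (Fin s)))
      (fun i : Fin s => ρ (Sum.inl i) = Sum.inl i)
    have e4 := Finset.card_filter_add_card_filter_not (s := (Finset.univ : Finset (Fin n)))
      (fun j : Fin n => ρ (Sum.inr j.castSucc) = Sum.inr j.castSucc)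
    rw [Finset.card_univ, Fintype.card_fin] at e3 e4
    have e5 : E'.card = (Finset.univ.filter fun j : Fin n => ρ (Sum.inr j.castSucc) =
      Sum.inr j.castSucc).card := rfl
    have e6 : B.card = (Finset.univ.filter fun i : Fin s => ¬ ρ (Sum.inl i) = Sum.inl i).card := rfl
    by_contra hcon
    push Not at hcon
    have h1 : s + 2 ≤ (Finset.univ.filter fun p => ρ p = p).card := by omega
    have h2 := Nat.mul_le_mul_left m h1
    omega
  obtain ⟨e⟩ : Nonempty (E' ↪ B) := Function.Embedding.nonempty_of_card_le (by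
    rw [Fintype.card_coe, Fintype.card_coe]
    exact hEB)
  let p : Fin n → Fin s ⊕ Fin (n + 1) := fun j =>
    if h : j ∈ E' then Sum.inl (e ⟨j, h⟩ : Fin s) else Sum.inr j.castSucc
  let q : Fin n → Fin s ⊕ Fin (n + 1) := fun j => ρ (p j)
  let v0 : Fin s ⊕ Fin (n + 1) → Fin n → ℝ := fun p c =>
    Sum.elim (fun _ => 0) (fun l => if l = c.castSucc then 1 else 0) p
  let z : Fin s × Fin n → ℝ := fun ic =>
    if h : ∃ j : E', (e j : Fin s) = ic.1 then v0 (ρ (Sum.inl ic.1)) ic.2 +
      (if ic.2 = (h.choose : Fin n) then 1 else 0) else 0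
  refine ⟨p, q, fun l => (hρκ _).symm, z, ?_⟩
  -- the entries
  have hrow1 : ∀ (j : Fin n) (hj : j ∈ E') (c : Fin n), dm p q z j c = if c = j then 1 else 0 := by
    intro j hj c
    have hpj : p j = Sum.inl (e ⟨j, hj⟩ : Fin s) := dif_pos hj
    set i : Fin s := (e ⟨j, hj⟩ : Fin s) with hi
    have hex : ∃ j' : E', (e j' : Fin s) = i := ⟨⟨j, hj⟩, rfl⟩
    have hch : (hex.choose : Fin n) = j := by
      have h1 := hex.choose_spec
      have h2 : hex.choose = ⟨j, hj⟩ := e.injective (Subtype.ext h1)
      rw [h2]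
    have hz1 : z (i, c) = v0 (ρ (Sum.inl i)) c + (if c = j then 1 else 0) := by
      change (if h : ∃ j : E', (e j : Fin s) = i then v0 (ρ (Sum.inl i)) c +
        (if c = (h.choose : Fin n) then 1 else 0) else 0) = _
      rw [dif_pos hex, hch]
    have hz2 : vr z (ρ (Sum.inl i)) c = v0 (ρ (Sum.inl i)) c := by
      rcases hr : ρ (Sum.inl i) with r | l
      · -- the root is not in the range of `e`
        have hr2 : ρ (Sum.inl r) = Sum.inl r := by
          rw [← hr, hρρ]
        change z (r, c) = 0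
        change (if h : ∃ j : E', (e j : Fin s) = r then v0 (ρ (Sum.inl r)) c +
          (if c = (h.choose : Fin n) then 1 else 0) else 0) = 0
        rw [dif_neg]
        rintro ⟨j', hj'⟩
        have h1 := (Finset.mem_filter.1 (e j').2).2
        rw [hj'] at h1
        exact h1 hr2
      · rfl
    simp only [dm, Matrix.of_apply]
    change vr z (p j) c - vr z (ρ (p j)) c = _
    rw [hpj, hz2]
    change z (i, c) - _ = _
    rw [hz1]
    ring
  have hrow2 : ∀ (j : Fin n), j ∉ E' → ∃ l : Fin (n + 1), ρ (Sum.inr l) = Sum.inr l ∧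
      ∀ c, dm p q z j c = (if c = j then 1 else 0) - (if l = c.castSucc then 1 else 0) := by
    intro j hj
    have hpj : p j = Sum.inr j.castSucc := dif_neg hj
    obtain ⟨l, hl⟩ := hρr j.castSucc
    refine ⟨l, by rw [← hl, hρρ], fun c => ?_⟩
    simp only [dm, Matrix.of_apply]
    change vr z (p j) c - vr z (ρ (p j)) c = _
    rw [hpj, hl]
    simp only [vr, Sum.elim_inr, Fin.castSucc_inj]
    by_cases h : j = c
    · subst h
      simp
    · have h' : ¬ c = j := fun h' => h h'.symm
      simp only [if_neg h, if_neg h']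
  intro h0
  obtain ⟨v, hv, hv0⟩ := Matrix.exists_mulVec_eq_zero_iff.2 h0
  apply hv
  have hE : ∀ j ∈ E', v j = 0 := by
    intro j hj
    have h1 := congrFun hv0 j
    simp only [Matrix.mulVec, dotProduct, Pi.zero_apply, hrow1 j hj, ite_mul, one_mul,
      zero_mul, Finset.sum_ite_eq', Finset.mem_univ, if_true] at h1
    exact h1
  funext j
  by_cases hj : j ∈ E'
  · exact hE j hj
  · obtain ⟨l, hl, hrow⟩ := hrow2 j hj
    have h1 := congrFun hv0 j
    simp only [Matrix.mulVec, dotProduct, Pi.zero_apply, hrow, sub_mul, ite_mul, one_mul,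
      zero_mul, Finset.sum_sub_distrib, Finset.sum_ite_eq', Finset.mem_univ, if_true] at h1
    revert hl h1
    refine Fin.lastCases (fun _ h1 => ?_) (fun l hl h1 => ?_) l
    · rw [Finset.sum_eq_zero fun c _ => by
        rw [if_neg (Fin.castSucc_lt_last c).ne'], sub_zero] at h1
      exact h1
    · have hlE : l ∈ E' := Finset.mem_filter.2 ⟨Finset.mem_univ _, hl⟩
      simp only [Fin.castSucc_inj, Finset.sum_ite_eq, Finset.mem_univ, if_true] at h1
      rw [hE l hlE, sub_zero] at h1
      exact h1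

end comb

section orbits

variable {n s d : ℕ} {a : Fin s → (Fin (n + 1) →₀ ℕ)}

theorem wgt_expo (ha : ∀ i, ∑ j, a i j = d) (b : Fin (n + 1) → ℤ) (p : Fin s ⊕ Fin (n + 1)) :
    wgt b (expo d a p) = ∑ j : Fin n, (expo d a p j.castSucc : ℤ) *
      (b j.castSucc - b (Fin.last n)) + d * b (Fin.last n) := by
  have h2 : ∑ j, expo d a p j = d := by
    rcases p with i | l
    · exact ha i
    · exact sum_single l
  rw [Fin.sum_univ_castSucc] at h2
  unfold wgt
  rw [Fin.sum_univ_castSucc]
  have h3 : ((∑ j : Fin n, expo d a p j.castSucc + expo d a p (Fin.last n) : ℕ) : ℤ) = d := by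
    exact_mod_cast h2
  push_cast at h3
  rw [← h3]
  simp only [mul_sub, Finset.sum_sub_distrib, ← Finset.sum_mul]
  ring

/-- Generic exponent vectors: a nonconstant direction has, on some vector, a weight with a small
class. -/
theorem generic_const {m : ℕ} (hd : 0 < d) (ha : ∀ i, ∑ j, a i j = d) (hns : n ≤ m * (s + 2))
    (hgen : ∀ p q : Fin n → Fin s ⊕ Fin (n + 1), (∃ z, (dm p q z).det ≠ 0) →
      (dm p q (scl d a)).det ≠ 0) (b : Fin (n + 1) → ℤ)
    (hb : ∀ p, m + 1 ≤ (Finset.univ.filter fun p' => wgt b (expo d a p') =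
      wgt b (expo d a p)).card) (i j : Fin (n + 1)) :
    b i = b j := by
  classical
  have hd' : (d : ℝ) ≠ 0 := by exact_mod_cast hd.ne'
  obtain ⟨p, q, hpq, hz⟩ := exists_pairs hns (fun p => wgt b (expo d a p)) hb
  have hdet := hgen p q hz
  by_contra hij
  apply hdet
  refine Matrix.exists_mulVec_eq_zero_iff.1 ⟨fun j => ((b j.castSucc - b (Fin.last n) : ℤ) : ℝ),
    fun h0 => hij ?_, ?_⟩
  · have h1 : ∀ i, b i = b (Fin.last n) := by
      intro i
      refine Fin.lastCases rfl (fun i => ?_) i
      have := congrFun h0 i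
      simp only [Pi.zero_apply, Int.cast_eq_zero] at this
      omega
    exact (h1 i).trans (h1 j).symm
  · funext l
    have h1 := hpq l
    simp only [wgt_expo ha] at h1
    have h2 : ∑ j : Fin n, ((expo d a (p l) j.castSucc : ℝ) - expo d a (q l) j.castSucc) *
        ((b j.castSucc - b (Fin.last n) : ℤ) : ℝ) = 0 := by
      have h3 : ∑ j : Fin n, (((expo d a (p l) j.castSucc : ℤ) - expo d a (q l) j.castSucc) *
          (b j.castSucc - b (Fin.last n))) = 0 := by
        simp only [sub_mul, Finset.sum_sub_distrib] at h1 ⊢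
        linarith
      exact_mod_cast congrArg (Int.cast (R := ℝ)) h3
    simp only [Matrix.mulVec, dotProduct, dm, Matrix.of_apply, Pi.zero_apply]
    have h4 : ∀ j : Fin n, (vr (scl d a) (p l) j - vr (scl d a) (q l) j) *
        ((b j.castSucc - b (Fin.last n) : ℤ) : ℝ) =
        (((expo d a (p l) j.castSucc : ℝ) - expo d a (q l) j.castSucc) *
        ((b j.castSucc - b (Fin.last n) : ℤ) : ℝ)) / d := by
      intro j
      rw [expo_vr hd, expo_vr hd]
      field_simp
    rw [Finset.sum_congr rfl fun j _ => h4 j, ← Finset.sum_div, h2, zero_div]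

variable {k K : Type} [Field k] [Field K] [Algebra k K]

/-- The coefficients of the forms `F e` at any `m` elements of `T` are linearly independent, where
`m` is the number of the forms. -/
def GenCoeffs {m : ℕ} (F : Fin m → MvPolynomial (Fin (n + 1)) k)
    (T : Finset (Fin (n + 1) →₀ ℕ)) : Prop :=
  ∀ S : Finset (Fin (n + 1) →₀ ℕ), S ⊆ T → S.card ≤ m →
    LinearIndependent k (fun α : S => fun e => (F e).coeff α)

theorem genCoeffs_one {F : MvPolynomial (Fin (n + 1)) k} {T : Finset (Fin (n + 1) →₀ ℕ)}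
    (hF : F.support = T) : GenCoeffs (fun _ : Fin 1 => F) T := by
  intro S hS hc
  rcases Nat.lt_or_ge S.card 1 with h | h
  · have h1 : S = ∅ := by
      rw [← Finset.card_eq_zero]
      omega
    subst h1
    exact linearIndependent_empty_type
  · obtain ⟨α, rfl⟩ := Finset.card_eq_one.1 (le_antisymm hc h)
    have hα : F.coeff α ≠ 0 := by
      rw [← mem_support_iff, hF]
      exact hS (Finset.mem_singleton_self α)
    have hsub : Subsingleton (({α} : Finset (Fin (n + 1) →₀ ℕ)) : Type) :=
      ⟨fun x z => Subtype.ext ((Finset.mem_singleton.1 x.2).trans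
        (Finset.mem_singleton.1 z.2).symm)⟩
    refine LinearIndependent.of_subsingleton ⟨α, Finset.mem_singleton_self α⟩ fun h0 => ?_
    exact hα (congrFun h0 0)

/-- a vanishing relation of vectors in general position -/
theorem rel_zero {m : ℕ} {S : Type} [Fintype S] {c : S → Fin m → k}
    (hc : LinearIndependent k c) {x : S → K} (h : ∀ e, ∑ α, algebraMap k K (c α e) * x α = 0)
    (β : S) : x β = 0 := by
  classical
  obtain ⟨g, hg⟩ := LinearMap.exists_leftInverse_of_injective (Fintype.linearCombination k c) (by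
    rw [LinearMap.ker_eq_bot']
    intro g hg
    funext β
    refine Fintype.linearIndependent_iff.1 hc g ?_ β
    rw [← hg, Fintype.linearCombination_apply])
  have h1 : ∀ α, g (c α) = Pi.single α 1 := by
    intro α
    have h2 := LinearMap.congr_fun hg (Pi.single α 1)
    rw [LinearMap.comp_apply, Fintype.linearCombination_apply_single, one_smul,
      LinearMap.id_apply] at h2
    exact h2
  have h2 : ∀ α, ∑ e, c α e * g (Pi.single e 1) β = (if α = β then 1 else 0) := by
    intro α
    have h3 : g (c α) = ∑ e, c α e • g (Pi.single e 1) := by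
      conv_lhs => rw [← (Pi.basisFun k (Fin m)).sum_repr (c α)]
      rw [map_sum]
      refine Finset.sum_congr rfl fun e _ => ?_
      rw [map_smul, Pi.basisFun_apply, Pi.basisFun_repr]
    have h4 := congrFun (h1 α) β
    rw [h3, Finset.sum_apply] at h4
    simp only [Pi.smul_apply, smul_eq_mul] at h4
    rw [h4, Pi.single_apply]
    by_cases h5 : α = β
    · rw [if_pos h5, if_pos h5.symm]
    · rw [if_neg h5, if_neg fun h => h5 h.symm]
  have h3 : x β = ∑ e, algebraMap k K (g (Pi.single e 1) β) *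
      ∑ α, algebraMap k K (c α e) * x α := by
    simp only [Finset.mul_sum]
    rw [Finset.sum_comm]
    have h4 : ∀ α, ∑ e, algebraMap k K (g (Pi.single e 1) β) * (algebraMap k K (c α e) * x α) =
        algebraMap k K (if α = β then 1 else 0) * x α := by
      intro α
      rw [← h2 α, map_sum, Finset.sum_mul]
      refine Finset.sum_congr rfl fun e _ => ?_
      rw [map_mul]
      ring
    rw [Finset.sum_congr rfl fun α _ => h4 α]
    simp
  rw [h3]
  exact Finset.sum_eq_zero fun e _ => by rw [h e, mul_zero]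

open Classical in
/-- the classes of the terms of vanishing parts -/
theorem partner {m : ℕ} {F : Fin m → MvPolynomial (Fin (n + 1)) k}
    {T : Finset (Fin (n + 1) →₀ ℕ)} (hFT : ∀ e, (F e).support ⊆ T) (hF : GenCoeffs F T)
    {y : Fin (n + 1) → K} {b : Fin (n + 1) → ℤ} (h : ∀ e v, val y (wc b v (F e)) = 0)
    {α : Fin (n + 1) →₀ ℕ} (hα : α ∈ T) (hy : ∀ j, y j = 0 → α j = 0) :
    m + 1 ≤ (T.filter fun α' => wgt b α' = wgt b α ∧ ∀ j, y j = 0 → α' j = 0).card := by
  classical
  by_contra hcon
  push Not at hcon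
  set S := T.filter fun α' => wgt b α' = wgt b α ∧ ∀ j, y j = 0 → α' j = 0 with hS
  have hαS : α ∈ S := Finset.mem_filter.2 ⟨hα, rfl, hy⟩
  have hli := hF S (Finset.filter_subset _ _) (by omega)
  refine mon_ne hy (rel_zero hli (x := fun β : S => mon y β) (fun e => ?_) ⟨α, hαS⟩)
  have h1 := h e (wgt b α)
  rw [val_wc] at h1
  rw [Finset.sum_coe_sort S fun β => algebraMap k K ((F e).coeff β) * mon y β, ← h1]
  -- compare the sums
  have e1 : ∑ β ∈ (F e).support with ∑ j, (β j : ℤ) * b j = wgt b α,
      algebraMap k K ((F e).coeff β) * ∏ j, y j ^ β j =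
      ∑ β ∈ T with ∑ j, (β j : ℤ) * b j = wgt b α,
        algebraMap k K ((F e).coeff β) * ∏ j, y j ^ β j := by
    refine Finset.sum_subset (Finset.filter_subset_filter _ (hFT e)) fun β hβ hβ2 => ?_
    have h2 : β ∉ (F e).support := fun h2 =>
      hβ2 (Finset.mem_filter.2 ⟨h2, (Finset.mem_filter.1 hβ).2⟩)
    rw [notMem_support_iff.1 h2, map_zero, zero_mul]
  rw [e1]
  refine Finset.sum_subset (fun β hβ => ?_) fun β hβ hβ2 => ?_
  · rw [hS, Finset.mem_filter] at hβ
    exact Finset.mem_filter.2 ⟨hβ.1, hβ.2.1⟩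
  · obtain ⟨h2, h3⟩ := Finset.mem_filter.1 hβ
    have h4 : ¬ ∀ j, y j = 0 → β j = 0 := fun h4 => hβ2 (by
      rw [hS, Finset.mem_filter]
      exact ⟨h2, h3, h4⟩)
    push Not at h4
    obtain ⟨j, hj, hj2⟩ := h4
    change algebraMap k K ((F e).coeff β) * mon y β = 0
    unfold mon
    rw [Finset.prod_eq_zero (Finset.mem_univ j) (by rw [hj, zero_pow hj2]), mul_zero]

/-- **No orbits in the torus.** -/
theorem no_orbit_torus {m : ℕ} (hd : 0 < d) (ha : ∀ i, ∑ j, a i j = d) (hns : n ≤ m * (s + 2))
    (hgen : ∀ p q : Fin n → Fin s ⊕ Fin (n + 1), (∃ z, (dm p q z).det ≠ 0) →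
      (dm p q (scl d a)).det ≠ 0) {F : Fin m → MvPolynomial (Fin (n + 1)) k}
    (hFT : ∀ e, (F e).support ⊆ withPowers d a) (hF : GenCoeffs F (withPowers d a))
    {y : Fin (n + 1) → K} (hy : ∀ j, y j ≠ 0)
    {b : Fin (n + 1) → ℤ} (h : ∀ e v, val y (wc b v (F e)) = 0) (i j : Fin (n + 1)) :
    b i = b j := by
  classical
  refine generic_const hd ha hns hgen b (fun p => ?_) i j
  refine (partner hFT hF h (α := expo d a p) (mem_withPowers.2 ⟨p, rfl⟩)
    fun j hj => absurd hj (hy j)).trans ?_
  have h1 : ((withPowers d a).filter fun α' => wgt b α' = wgt b (expo d a p) ∧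
      ∀ j, y j = 0 → α' j = 0) ⊆ (Finset.univ.filter fun p' => wgt b (expo d a p') =
        wgt b (expo d a p)).image (expo d a) := by
    intro α' hα'
    obtain ⟨h2, h3, -⟩ := Finset.mem_filter.1 hα'
    obtain ⟨p', rfl⟩ := mem_withPowers.1 h2
    exact Finset.mem_image_of_mem _ (Finset.mem_filter.2 ⟨Finset.mem_univ _, h3⟩)
  exact (Finset.card_le_card h1).trans Finset.card_image_le

/-- **No orbits in small dimension.** -/
theorem no_orbit_small {m : ℕ} (hd : 0 < d) (ha : ∀ i, ∑ j, a i j = d)
    (hns : n ≤ m * (s + 2)) (hn : n ≤ 2 * m + 1)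
    (hpos : ∀ i j, a i j ≠ 0)
    (hgen : ∀ p q : Fin n → Fin s ⊕ Fin (n + 1), (∃ z, (dm p q z).det ≠ 0) →
      (dm p q (scl d a)).det ≠ 0) {F : Fin m → MvPolynomial (Fin (n + 1)) k}
    (hFT : ∀ e, (F e).support ⊆ withPowers d a) (hF : GenCoeffs F (withPowers d a))
    {y : Fin (n + 1) → K}
    {b : Fin (n + 1) → ℤ} (h : ∀ e v, val y (wc b v (F e)) = 0) {i i' : Fin (n + 1)}
    (hi : y i ≠ 0) (hi' : y i' ≠ 0) : b i = b i' := by
  classical
  by_cases hy : ∀ j, y j ≠ 0
  · exact no_orbit_torus hd ha hns hgen hFT hF hy h i i'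
  · push Not at hy
    obtain ⟨j0, hj0⟩ := hy
    by_contra hne
    have hd' : (d : ℤ) ≠ 0 := by exact_mod_cast hd.ne'
    have key : ∀ j, y j ≠ 0 →
        m + 1 ≤ (Finset.univ.filter fun j' => y j' ≠ 0 ∧ b j' = b j).card := by
      intro j hj
      refine (partner hFT hF h (α := Finsupp.single j d)
        (mem_withPowers.2 ⟨Sum.inr j, rfl⟩) fun l hl => by
          rw [Finsupp.single_eq_of_ne]
          rintro rfl
          exact hj hl).trans ?_
      have hw : ∀ l, wgt b (Finsupp.single l d) = d * b l := by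
        intro l
        unfold wgt
        simp [Finsupp.single_apply]
      have h1 : ((withPowers d a).filter fun α' => wgt b α' = wgt b (Finsupp.single j d) ∧
          ∀ j, y j = 0 → α' j = 0) ⊆ (Finset.univ.filter fun j' => y j' ≠ 0 ∧ b j' = b j).image
            fun j' => Finsupp.single j' d := by
        intro α' hα'
        obtain ⟨h2, h3, h4⟩ := Finset.mem_filter.1 hα'
        obtain ⟨p' | j', rfl⟩ := mem_withPowers.1 h2
        · exact absurd (h4 j0 hj0) (hpos p' j0)
        · refine Finset.mem_image_of_mem (fun j' => Finsupp.single j' d)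
            (Finset.mem_filter.2 ⟨Finset.mem_univ _, fun h => ?_, ?_⟩)
          · have := h4 j' h
            simp only [expo, Sum.elim_inr, Finsupp.single_eq_same] at this
            omega
          · change wgt b (Finsupp.single j' d) = _ at h3
            rw [hw, hw] at h3
            exact mul_left_cancel₀ hd' h3
      exact (Finset.card_le_card h1).trans Finset.card_image_le
    have k1 := key i hi
    have k2 := key i' hi'
    have hdis : Disjoint (Finset.univ.filter fun j' => y j' ≠ 0 ∧ b j' = b i)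
        (Finset.univ.filter fun j' => y j' ≠ 0 ∧ b j' = b i') := by
      rw [Finset.disjoint_left]
      intro j h1 h2
      exact hne ((Finset.mem_filter.1 h1).2.2.symm.trans (Finset.mem_filter.1 h2).2.2)
    have hj0n : j0 ∉ (Finset.univ.filter fun j' => y j' ≠ 0 ∧ b j' = b i) ∪
        (Finset.univ.filter fun j' => y j' ≠ 0 ∧ b j' = b i') := by
      rw [Finset.mem_union, Finset.mem_filter, Finset.mem_filter]
      rintro (h1 | h1)
      · exact h1.2.1 hj0
      · exact h1.2.1 hj0
    have h5 := Finset.card_le_univ (insert j0 ((Finset.univ.filter fun j' => y j' ≠ 0 ∧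
      b j' = b i) ∪ (Finset.univ.filter fun j' => y j' ≠ 0 ∧ b j' = b i')))
    rw [Finset.card_insert_of_notMem hj0n, Finset.card_union_of_disjoint hdis,
      Fintype.card_fin] at h5
    omega

end orbits

end Pool.Agent.R869.Wd
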