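import Pool.Agent.W602.GT.PsOrb

/-!
The closure of the union of the orbits of diagonal one-parameter groups in a projective variety.
-/

set_option autoImplicit false

namespace Pool.Agent.R869.Wd

open Pool.Agent.W602.GT

/-- The Zariski closure in `X = {F = 0}` of the union of the one-dimensional orbits of diagonal
one-parameter groups which are contained in `X` (as a cone). -/
def SpOrb {k : Type} [Field k] {n : ℕ} {ι : Type} (F : ι → MvPolynomial (Fin (n + 1)) k) :
    Set (Fin (n + 1) → k) :=
  {x | x ∈ Cone F ∧ ∀ G : MvPolynomial (Fin (n + 1)) k, IsForm G →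
    (∀ (x' : Fin (n + 1) → k) (b : Fin (n + 1) → ℤ), DiagCurve ∅ F x' b → val x' G = 0) →
      val x G = 0}

end Pool.Agent.R869.Wd
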