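import Pool.Agent.R869.WFive
import Pool.Agent.R869.WLociDefs
import Pool.Agent.W602.GT.Cls
import Pool.Agent.Y190.AN.Cg

/-!
The special loci of projective varieties given by wide systems of forms.
-/

set_option autoImplicit false

namespace Pool.Agent.R869.Wd

open FF IntermediateField MvPolynomial Pool.Agent.H159R3.GGLLog
  Pool.Agent.W602.GT Pool.Agent.W603.BP Pool.Agent.R869

section

variable {k : Type} [Field k] {n : ℕ} {ι : Type}

theorem offU_empty {K : Type} [Field K] [Algebra k K] (y : Fin (n + 1) → K) :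
    OffU ∅ y = fun _ : Place k K => False := by
  funext P
  simp [OffU]

theorem log_of_general {K : Type} [Field K] [Algebra k K] {w : ℕ} (h : GeneralType k K w)
    (Bd : Place k K → Prop) : LogGeneralType k K w Bd := by
  obtain ⟨htr, N, hN, ω, h1, h2, h3⟩ := h
  refine ⟨htr, N, hN, ω, h1, fun P hP j D hD => h2 P hP j D fun i f hf => ?_,
    fun P hP _ => h2 P hP, h3⟩
  have h4 : P.Reg (D i f / f) := hD i f
  by_cases hf0 : f = 0
  · left
    rw [hf0, map_zero]
  · by_cases hd : D i f = 0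
    · exact Or.inl hd
    · right
      rcases h4 with h4 | h4
      · exact absurd ((div_eq_zero_iff.1 h4).resolve_right hf0) hd
      · rcases hf with hf | hf
        · exact absurd hf hf0
        · rw [P.ord_div hd hf0] at h4
          linarith

theorem general_iff {K : Type} [Field K] [Algebra k K] {w : ℕ} (y : Fin (n + 1) → K) :
    LogGeneralType k K w (OffU ∅ y) ↔ GeneralType k K w := by
  rw [offU_empty]
  exact ⟨general_of_log, fun h => log_of_general h _⟩

theorem subVar_iff {F : ι → MvPolynomial (Fin (n + 1)) k} {K : Type} [Field K] [Algebra k K]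
    {w : ℕ} {y : Fin (n + 1) → K} : SubVarU ∅ F K w y ↔ SubVar F K w y :=
  ⟨fun h => ⟨h.ne, h.mem, h.gen, h.dim⟩,
    fun h => ⟨h.ne, fun j hj => absurd hj (Set.notMem_empty j), h.mem, h.gen, h.dim⟩⟩

theorem cone_iff {F : ι → MvPolynomial (Fin (n + 1)) k} : ConeU ∅ F = Cone F := by
  ext x
  simp [ConeU, Cone]

theorem spAlgU_empty (F : ι → MvPolynomial (Fin (n + 1)) k) : SpAlgU ∅ F = SpAlg F := by
  ext x
  unfold SpAlgU SpAlg
  rw [cone_iff]
  refine and_congr_right fun _ => forall_congr' fun G => imp_congr_right fun _ => ?_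
  refine imp_congr_left (forall_congr' fun K => forall_congr' fun _ => forall_congr' fun _ =>
    forall_congr' fun w => forall_congr' fun y => imp_congr_right fun _ => ?_)
  rw [subVar_iff, general_iff]

variable [CharZero k] [IsAlgClosed k]

theorem special_orb {F : ι → MvPolynomial (Fin (n + 1)) k} {s N : ℕ} (hC : Sys ∅ F s N) :
    SpAlg F = SpOrb F ∧ SpGm F = SpOrb F := by
  have h1 : SpOrb F ⊆ SpGm F := by
    rintro x ⟨hx, h⟩
    refine ⟨hx, fun G hG hP => h G hG fun x' b hd => ?_⟩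
    obtain ⟨P, hP1, hP2⟩ := gm_of_diag hC.form hd
    have := hP P hP1 1 one_ne_zero
    rwa [hP2] at this
  have h2 : SpGm F ⊆ SpAlg F := gm_sub_alg hC.form
  have h3 : SpAlg F ⊆ SpOrb F := by
    rintro x ⟨hx, h⟩
    refine ⟨hx, fun G hG hd => h G hG ?_⟩
    intro K _ _ w y hw hy hgt
    by_contra hne
    obtain ⟨x', b, hdc, hx'⟩ := closure_orbits hC hw (subVar_iff.2 hy)
      (fun h => hgt ((general_iff y).1 h)) hne
    exact hx' (hd x' b hdc)
  exact ⟨Set.Subset.antisymm h3 (h1.trans h2), Set.Subset.antisymm (h2.trans h3) h1⟩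

end

variable {n : ℕ} {ι : Type}

theorem special_hol {F : ι → MvPolynomial (Fin (n + 1)) ℂ} {s N : ℕ} (hC : Sys ∅ F s N) :
    SpH ∅ F = SpOrb F ∧ Pool.Agent.Y190.AN.SpCg ∅ F = SpOrb F ∧ SpP ∅ F = SpOrb F := by
  obtain ⟨⟨h1, h2, -⟩, -⟩ := five hC
  have h3 := (special_orb hC).1
  rw [spAlgU_empty, h3] at h1
  exact ⟨h1.symm, by rw [Pool.Agent.Y190.AN.spCg_eq, ← h1], by rw [h2, ← h1]⟩

end Pool.Agent.R869.Wd
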