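import Pool.Agent.R869.WEx2
import Pool.Agent.R869.WLoci

/-!
Hypersurfaces given by forms with dominating variables: the explicit exceptional locus.
-/

set_option autoImplicit false

open MvPolynomial Pool.Agent.W602.GT

namespace Pool.Agent.R869.Wd

variable {k : Type} [Field k] {n : ℕ}

/-- `v` assigns to each monomial of the form `F` a dominating variable: the degree of the monomial
in the other variables is at most `δ`; the dominating variables of different monomials are
different. -/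
structure Dominates (F : MvPolynomial (Fin (n + 1)) k) (δ : ℕ)
    (v : (Fin (n + 1) →₀ ℕ) → Fin (n + 1)) : Prop where
  inj : Set.InjOn v F.support
  dom : ∀ α ∈ F.support, ∑ j, α j ≤ α (v α) + δ

open Classical in
/-- The sum of the terms of `F` with dominating variables in `S`. -/
noncomputable def part (F : MvPolynomial (Fin (n + 1)) k) (v : (Fin (n + 1) →₀ ℕ) → Fin (n + 1))
    (S : Set (Fin (n + 1))) : MvPolynomial (Fin (n + 1)) k :=
  ∑ α ∈ F.support with v α ∈ S, monomial α (F.coeff α)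

/-- The points of `X = {F = 0}` at which the terms with dominating variables in some set `S` of
variables, which is not empty and does not contain all the nonzero coordinates, have the sum zero,
where the variables in `S` are nonzero. -/
def Degenerate (F : MvPolynomial (Fin (n + 1)) k) (v : (Fin (n + 1) →₀ ℕ) → Fin (n + 1)) :
    Set (Fin (n + 1) → k) :=
  {x | x ∈ Cone (fun _ : Unit => F) ∧ ∃ S : Set (Fin (n + 1)), S.Nonempty ∧ (∀ j ∈ S, x j ≠ 0) ∧
    (∃ j, j ∉ S ∧ x j ≠ 0) ∧ val x (part F v S) = 0}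

theorem exp_deg {F : MvPolynomial (Fin (n + 1)) k} {d : ℕ} (hd : F.IsHomogeneous d) :
    ∀ α ∈ F.support, ∑ j, α j = d := by
  intro α hα
  have h2 := hd (mem_support_iff.1 hα)
  rw [← h2]
  simp [Finsupp.weight_apply, Finsupp.sum_fintype]

section

variable {F : MvPolynomial (Fin (n + 1)) k} {d δ : ℕ} {v : (Fin (n + 1) →₀ ℕ) → Fin (n + 1)}

/-- prescribed weights -/
theorem solve_dom (hd : F.IsHomogeneous d) (hv : Dominates F δ v) (h2 : 2 * δ < d)
    (w : Fin (n + 1) → Fin (n + 1) →₀ ℕ) (S : Set (Fin (n + 1)))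
    (hw : ∀ j ∈ S, w j ∈ F.support ∧ v (w j) = j) (z : Fin (n + 1) → ℤ) :
    ∃ (M : ℕ) (u : Fin (n + 1) → ℤ), 0 < M ∧ (∀ j ∈ S, wgt u (w j) = M * z j) ∧
      ∀ j, j ∉ S → u j = M * z j := by
  classical
  let A : Fin (n + 1) → Fin (n + 1) → ℤ := fun i j =>
    if i ∈ S then (w i j : ℤ) else if i = j then 1 else 0
  have hA : ∀ i, ∑ j ∈ Finset.univ.erase i, |A i j| < |A i i| := by
    intro i
    by_cases hi : i ∈ S
    · have h1 : ∀ j, A i j = (w i j : ℤ) := fun j => if_pos hi
      simp only [h1, Nat.abs_cast]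
      have h2 := hv.dom _ (hw i hi).1
      have h3 := exp_deg hd _ (hw i hi).1
      rw [(hw i hi).2] at h2
      have h4 : w i i + ∑ j ∈ Finset.univ.erase i, w i j = ∑ j, w i j :=
        Finset.add_sum_erase Finset.univ (fun j => w i j) (Finset.mem_univ i)
      have h5 : ∑ j ∈ Finset.univ.erase i, w i j < w i i := by omega
      exact_mod_cast h5
    · have h1 : ∀ j, A i j = if i = j then 1 else 0 := fun j => if_neg hi
      simp only [h1]
      rw [Finset.sum_eq_zero fun j hj => by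
        rw [if_neg (Finset.ne_of_mem_erase hj).symm, abs_zero]]
      simp
  obtain ⟨M, u, hM, hu⟩ := solve A hA z
  refine ⟨M, u, hM, fun j hj => ?_, fun j hj => ?_⟩
  · rw [← hu j]
    unfold wgt
    refine Finset.sum_congr rfl fun x _ => ?_
    simp only [A, if_pos hj]
  · rw [← hu j]
    simp only [A, if_neg hj, ite_mul, one_mul, zero_mul, Finset.sum_ite_eq, Finset.mem_univ,
      if_true]

/-- equal weights are constant -/
theorem const_dom (hd : F.IsHomogeneous d) (hv : Dominates F δ v) (h2 : 2 * δ < d)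
    (w : Fin (n + 1) → Fin (n + 1) →₀ ℕ) (I : Set (Fin (n + 1)))
    (hw : ∀ j ∈ I, w j ∈ F.support ∧ v (w j) = j ∧ ∀ i, i ∉ I → w j i = 0)
    {b : Fin (n + 1) → ℤ} {c : ℤ} (hb : ∀ j ∈ I, wgt b (w j) = c) {i i' : Fin (n + 1)}
    (hi : i ∈ I) (hi' : i' ∈ I) : b i = b i' := by
  classical
  have hfin : (Finset.univ.filter fun j => j ∈ I).Nonempty := ⟨i, by simp [hi]⟩
  obtain ⟨m, hm, hmin⟩ := Finset.exists_min_image _ b hfin
  obtain ⟨a, ha, hmax⟩ := Finset.exists_max_image _ b hfin
  have hmI : m ∈ I := (Finset.mem_filter.1 hm).2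
  have haI : a ∈ I := (Finset.mem_filter.1 ha).2
  have hmin' : ∀ j ∈ I, b m ≤ b j := fun j hj => hmin j (by simp [hj])
  have hmax' : ∀ j ∈ I, b j ≤ b a := fun j hj => hmax j (by simp [hj])
  have h1 : ∀ j ∈ I, wgt b (w j) = ∑ l, (w j l : ℤ) * (b l - b m) + d * b m := by
    intro j hj
    unfold wgt
    simp only [mul_sub, Finset.sum_sub_distrib]
    rw [← Finset.sum_mul, ← Nat.cast_sum, exp_deg hd _ (hw j hj).1]
    ring
  have h3 : ((w a a : ℕ) : ℤ) * (b a - b m) ≤ ∑ l, (w a l : ℤ) * (b l - b m) := by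
    refine Finset.single_le_sum (f := fun l => (w a l : ℤ) * (b l - b m)) (fun l _ => ?_)
      (Finset.mem_univ a)
    by_cases hl : l ∈ I
    · exact mul_nonneg (Nat.cast_nonneg _) (sub_nonneg.2 (hmin' l hl))
    · rw [(hw a haI).2.2 l hl, Nat.cast_zero, zero_mul]
  have h4 : ∑ l, (w m l : ℤ) * (b l - b m) ≤
      ((∑ l ∈ Finset.univ.erase m, w m l : ℕ) : ℤ) * (b a - b m) := by
    rw [← Finset.add_sum_erase Finset.univ _ (Finset.mem_univ m), sub_self, mul_zero, zero_add,
      Nat.cast_sum, Finset.sum_mul]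
    refine Finset.sum_le_sum fun l _ => ?_
    by_cases hl : l ∈ I
    · exact mul_le_mul_of_nonneg_left (sub_le_sub_right (hmax' l hl) _) (Nat.cast_nonneg _)
    · rw [(hw m hmI).2.2 l hl, Nat.cast_zero, zero_mul, zero_mul]
  have h5 := hv.dom _ (hw a haI).1
  have h6 := hv.dom _ (hw m hmI).1
  rw [(hw a haI).2.1, exp_deg hd _ (hw a haI).1] at h5
  rw [(hw m hmI).2.1] at h6
  have h7 : w m m + ∑ l ∈ Finset.univ.erase m, w m l = ∑ l, w m l :=
    Finset.add_sum_erase Finset.univ (fun l => w m l) (Finset.mem_univ m)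
  have h8 : ((∑ l ∈ Finset.univ.erase m, w m l : ℕ) : ℤ) ≤ δ := by
    have : ∑ l ∈ Finset.univ.erase m, w m l ≤ δ := by omega
    exact_mod_cast this
  have h9 : (d : ℤ) - δ ≤ (w a a : ℤ) := by
    have : d ≤ w a a + δ := h5
    have : (d : ℤ) ≤ (w a a : ℤ) + δ := by exact_mod_cast this
    linarith
  have h10 : wgt b (w a) = wgt b (w m) := (hb a haI).trans (hb m hmI).symm
  rw [h1 a haI, h1 m hmI] at h10
  have h11 : b a - b m ≤ 0 := by
    by_contra hcon
    push Not at hcon
    have h12 : ((d : ℤ) - δ) * (b a - b m) ≤ δ * (b a - b m) := by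
      have e1 := mul_le_mul_of_nonneg_right h9 hcon.le
      have e2 := mul_le_mul_of_nonneg_right h8 hcon.le
      linarith
    have h13 : (2 : ℤ) * δ < d := by exact_mod_cast h2
    nlinarith
  have e1 := hmin' i hi
  have e2 := hmax' i hi
  have e3 := hmin' i' hi'
  have e4 := hmax' i' hi'
  omega

variable {K : Type} [Field K] [Algebra k K]

theorem val_filter (y : Fin (n + 1) → K) (p : (Fin (n + 1) →₀ ℕ) → Prop) [DecidablePred p] :
    val y (∑ α ∈ F.support with p α, monomial α (F.coeff α)) =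
      ∑ α ∈ F.support, if p α then algebraMap k K (F.coeff α) * ∏ j, y j ^ α j else 0 := by
  unfold val
  rw [map_sum, Finset.sum_filter]
  refine Finset.sum_congr rfl fun α _ => ?_
  split_ifs
  · rw [aeval_monomial, Finsupp.prod_fintype _ _ fun i => pow_zero _]
  · rfl

theorem val_all (y : Fin (n + 1) → K) :
    val y F = ∑ α ∈ F.support, algebraMap k K (F.coeff α) * ∏ j, y j ^ α j := by
  classical
  have h := val_filter (F := F) y (fun _ => True)
  simp only [if_true, Finset.filter_true] at h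
  rw [← h]
  congr 1
  exact F.as_sum

theorem dom_pos (hd : F.IsHomogeneous d) (hv : Dominates F δ v) (h2 : 2 * δ < d)
    {α : Fin (n + 1) →₀ ℕ} (hα : α ∈ F.support) : 0 < α (v α) := by
  have h1 := hv.dom α hα
  rw [exp_deg hd α hα] at h1
  omega

theorem term_supp {y : Fin (n + 1) → K} {α : Fin (n + 1) →₀ ℕ}
    (h : algebraMap k K (F.coeff α) * ∏ j, y j ^ α j ≠ 0) {j : Fin (n + 1)} (hj : α j ≠ 0) :
    y j ≠ 0 := by
  intro h0
  apply h
  rw [Finset.prod_eq_zero (Finset.mem_univ j) (by rw [h0, zero_pow hj]), mul_zero]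

/-- weights give vanishing partial sums -/
theorem sum_of_weights (hd : F.IsHomogeneous d) (hv : Dominates F δ v) (h2 : 2 * δ < d)
    {y : Fin (n + 1) → K} {b : Fin (n + 1) → ℤ} {i i' : Fin (n + 1)} (hi : y i ≠ 0)
    (hi' : y i' ≠ 0) (hb : b i ≠ b i') (hwc : ∀ e, val y (wc b e F) = 0) :
    ∃ S : Set (Fin (n + 1)), S.Nonempty ∧ (∀ j ∈ S, y j ≠ 0) ∧ (∃ j, j ∉ S ∧ y j ≠ 0) ∧
      val y (part F v S) = 0 := by
  classical
  by_cases hcase : ∃ j0, y j0 ≠ 0 ∧ ∀ α ∈ F.support, v α = j0 →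
      algebraMap k K (F.coeff α) * ∏ j, y j ^ α j = 0
  · obtain ⟨j0, hj0, h0⟩ := hcase
    refine ⟨{j0}, ⟨j0, rfl⟩, ?_, ?_, ?_⟩
    · rintro j rfl
      exact hj0
    · by_cases h : i = j0
      · refine ⟨i', ?_, hi'⟩
        rintro rfl
        exact hb (by rw [h])
      · exact ⟨i, h, hi⟩
    · unfold part
      rw [val_filter]
      refine Finset.sum_eq_zero fun α hα => ?_
      split_ifs with h
      · exact h0 α hα h
      · rfl
  · push Not at hcase
    have hw : ∀ j, ∃ α : Fin (n + 1) →₀ ℕ, y j ≠ 0 → (α ∈ F.support ∧ v α = j ∧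
        algebraMap k K (F.coeff α) * ∏ l, y l ^ α l ≠ 0) := by
      intro j
      by_cases h : y j = 0
      · exact ⟨0, fun h' => absurd h h'⟩
      · obtain ⟨α, h1, h2, h3⟩ := hcase j h
        exact ⟨α, fun _ => ⟨h1, h2, h3⟩⟩
    choose w hw using hw
    refine ⟨{j | y j ≠ 0 ∧ wgt b (w j) = wgt b (w i)}, ⟨i, hi, rfl⟩, fun j hj => hj.1, ?_, ?_⟩
    · by_contra hcon
      push Not at hcon
      refine hb (const_dom (w := w) hd hv h2 {j | y j ≠ 0} (fun j hj => ⟨(hw j hj).1, (hw j hj).2.1,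
        fun l hl => ?_⟩) (b := b) (c := wgt b (w i)) (fun j hj => ?_) hi hi')
      · by_contra h
        exact hl (term_supp (hw j hj).2.2 h)
      · by_contra h
        exact hj (hcon j fun h' => h h'.2)
    · refine Eq.trans ?_ (hwc (wgt b (w i)))
      unfold part wc
      rw [val_filter, val_filter]
      refine Finset.sum_congr rfl fun α hα => ?_
      by_cases h0 : algebraMap k K (F.coeff α) * ∏ l, y l ^ α l = 0
      · rw [h0]
        simp
      · have h3 : y (v α) ≠ 0 := term_supp h0 (dom_pos hd hv h2 hα).ne'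
        have h4 : w (v α) = α := hv.inj (hw _ h3).1 hα (hw _ h3).2.1
        have h5 : v α ∈ {j | y j ≠ 0 ∧ wgt b (w j) = wgt b (w i)} ↔
            ∑ j, (α j : ℤ) * b j = wgt b (w i) := by
          constructor
          · rintro ⟨-, h⟩
            rw [h4] at h
            exact h
          · intro h
            refine ⟨h3, ?_⟩
            rw [h4]
            exact h
        by_cases h6 : ∑ j, (α j : ℤ) * b j = wgt b (w i)
        · rw [if_pos h6, if_pos (h5.2 h6)]
        · rw [if_neg h6, if_neg fun h => h6 (h5.1 h)]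

/-- vanishing partial sums give weights -/
theorem weights_of_sum (hd : F.IsHomogeneous d) (hv : Dominates F δ v) (h2 : 2 * δ < d)
    {y : Fin (n + 1) → K} (hF : val y F = 0) {S : Set (Fin (n + 1))} (hS : S.Nonempty)
    (hS1 : ∀ j ∈ S, y j ≠ 0) (hS2 : ∃ j, j ∉ S ∧ y j ≠ 0) (hpart : val y (part F v S) = 0) :
    ∃ (b : Fin (n + 1) → ℤ) (i i' : Fin (n + 1)), y i ≠ 0 ∧ y i' ≠ 0 ∧ b i ≠ b i' ∧
      ∀ e, val y (wc b e F) = 0 := by
  classical
  have hd0 : (d : ℤ) ≠ 0 := by
    have : 0 < d := by omega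
    exact_mod_cast this.ne'
  have hcw : ∀ (u : Fin (n + 1) → ℤ) (c : ℤ) (α : Fin (n + 1) →₀ ℕ), α ∈ F.support →
      algebraMap k K (F.coeff α) * ∏ l, y l ^ α l ≠ 0 → (∀ j, y j ≠ 0 → u j = c) →
      wgt u α = d * c := by
    intro u c α hα hne hu
    unfold wgt
    have h1 : ∀ j, (α j : ℤ) * u j = (α j : ℤ) * c := by
      intro j
      by_cases hj : α j = 0
      · rw [hj, Nat.cast_zero, zero_mul, zero_mul]
      · rw [hu j (term_supp hne hj)]
    rw [Finset.sum_congr rfl fun j _ => h1 j, ← Finset.sum_mul, ← Nat.cast_sum, exp_deg hd α hα]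
  obtain ⟨s0, hs0⟩ := hS
  obtain ⟨t0, ht0, hyt0⟩ := hS2
  have hst : s0 ≠ t0 := fun h => ht0 (h ▸ hs0)
  by_cases hcase : ∃ j0, y j0 ≠ 0 ∧ ∀ α ∈ F.support, v α = j0 →
      algebraMap k K (F.coeff α) * ∏ j, y j ^ α j = 0
  · obtain ⟨j0, hj0, h0⟩ := hcase
    have hw : ∀ j, ∃ α : Fin (n + 1) →₀ ℕ, (∃ α ∈ F.support, v α = j ∧
        algebraMap k K (F.coeff α) * ∏ l, y l ^ α l ≠ 0) → (α ∈ F.support ∧ v α = j ∧
        algebraMap k K (F.coeff α) * ∏ l, y l ^ α l ≠ 0) := by
      intro j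
      by_cases h : ∃ α ∈ F.support, v α = j ∧ algebraMap k K (F.coeff α) * ∏ l, y l ^ α l ≠ 0
      · obtain ⟨α, h1⟩ := h
        exact ⟨α, fun _ => h1⟩
      · exact ⟨0, fun h' => absurd h' h⟩
    choose w hw using hw
    obtain ⟨M, u, hM, hu1, hu2⟩ := solve_dom hd hv h2 w
      {j | ∃ α ∈ F.support, v α = j ∧ algebraMap k K (F.coeff α) * ∏ l, y l ^ α l ≠ 0}
      (fun j hj => ⟨(hw j hj).1, (hw j hj).2.1⟩) (fun j => if j = j0 then 1 else 0)
    have hj0S : j0 ∉ {j | ∃ α ∈ F.support, v α = j ∧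
        algebraMap k K (F.coeff α) * ∏ l, y l ^ α l ≠ 0} := by
      rintro ⟨α, hα, h1, h3⟩
      exact h3 (h0 α hα h1)
    have hM0 : (M : ℤ) ≠ 0 := by exact_mod_cast hM.ne'
    have huj : u j0 = M := by
      rw [hu2 j0 hj0S, if_pos rfl, mul_one]
    -- nonzero terms have weight zero
    have hz : ∀ α ∈ F.support, algebraMap k K (F.coeff α) * ∏ l, y l ^ α l ≠ 0 →
        wgt u α = 0 := by
      intro α hα hne
      have h3 : ∃ β ∈ F.support, v β = v α ∧ algebraMap k K (F.coeff β) * ∏ l, y l ^ β l ≠ 0 :=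
        ⟨α, hα, rfl, hne⟩
      have h4 : w (v α) = α := hv.inj (hw _ h3).1 hα (hw _ h3).2.1
      have h5 := hu1 (v α) h3
      rw [h4, if_neg, mul_zero] at h5
      · exact h5
      · intro h6
        exact hne (h0 α hα h6)
    obtain ⟨i', hi', hne⟩ : ∃ i', y i' ≠ 0 ∧ u j0 ≠ u i' := by
      by_contra hcon
      push Not at hcon
      rw [huj] at hcon
      obtain ⟨j, hj, hjj⟩ : ∃ j, y j ≠ 0 ∧ j ≠ j0 := by
        by_cases h : s0 = j0
        · exact ⟨t0, hyt0, fun h' => hst (h.trans h'.symm)⟩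
        · exact ⟨s0, hS1 s0 hs0, h⟩
      by_cases hjS : ∃ α ∈ F.support, v α = j ∧
          algebraMap k K (F.coeff α) * ∏ l, y l ^ α l ≠ 0
      · have h3 := hcw u M (w j) (hw j hjS).1 (hw j hjS).2.2 fun l hl => (hcon l hl).symm
        rw [hz _ (hw j hjS).1 (hw j hjS).2.2] at h3
        exact (mul_ne_zero hd0 hM0) h3.symm
      · have h3 := hu2 j hjS
        rw [if_neg hjj, mul_zero] at h3
        exact hM0 ((hcon j hj).trans h3)
    refine ⟨u, j0, i', hj0, hi', hne, fun e => ?_⟩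
    unfold wc
    rw [val_filter]
    by_cases he : e = 0
    · refine Eq.trans (Finset.sum_congr rfl fun α hα => ?_) ((val_all y).symm.trans hF)
      by_cases h3 : algebraMap k K (F.coeff α) * ∏ l, y l ^ α l = 0
      · rw [h3]
        simp
      · have h4 := hz α hα h3
        unfold wgt at h4
        rw [if_pos (by rw [h4, he])]
    · refine Finset.sum_eq_zero fun α hα => ?_
      by_cases h3 : algebraMap k K (F.coeff α) * ∏ l, y l ^ α l = 0
      · rw [h3]
        simp
      · have h4 := hz α hα h3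
        unfold wgt at h4
        rw [if_neg (by rw [h4]; exact fun h => he h.symm)]
  · push Not at hcase
    have hw : ∀ j, ∃ α : Fin (n + 1) →₀ ℕ, y j ≠ 0 → (α ∈ F.support ∧ v α = j ∧
        algebraMap k K (F.coeff α) * ∏ l, y l ^ α l ≠ 0) := by
      intro j
      by_cases h : y j = 0
      · exact ⟨0, fun h' => absurd h h'⟩
      · obtain ⟨α, h1, h2, h3⟩ := hcase j h
        exact ⟨α, fun _ => ⟨h1, h2, h3⟩⟩
    choose w hw using hw
    obtain ⟨M, u, hM, hu1, -⟩ := solve_dom hd hv h2 w {j | y j ≠ 0}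
      (fun j hj => ⟨(hw j hj).1, (hw j hj).2.1⟩) (fun j => if j ∈ S then 1 else 0)
    have hM0 : (M : ℤ) ≠ 0 := by exact_mod_cast hM.ne'
    have hz : ∀ α ∈ F.support, algebraMap k K (F.coeff α) * ∏ l, y l ^ α l ≠ 0 →
        wgt u α = if v α ∈ S then (M : ℤ) else 0 := by
      intro α hα hne
      have h3 : y (v α) ≠ 0 := term_supp hne (dom_pos hd hv h2 hα).ne'
      have h4 : w (v α) = α := hv.inj (hw _ h3).1 hα (hw _ h3).2.1
      have h5 := hu1 (v α) h3
      rw [h4] at h5
      rw [h5]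
      split_ifs <;> simp
    obtain ⟨i, i', hi, hi', hne⟩ : ∃ i i', y i ≠ 0 ∧ y i' ≠ 0 ∧ u i ≠ u i' := by
      by_contra hcon
      push Not at hcon
      have h3 := hcw u (u s0) (w s0) (hw s0 (hS1 s0 hs0)).1 (hw s0 (hS1 s0 hs0)).2.2
        fun l hl => hcon l s0 hl (hS1 s0 hs0)
      have h4 := hcw u (u s0) (w t0) (hw t0 hyt0).1 (hw t0 hyt0).2.2
        fun l hl => hcon l s0 hl (hS1 s0 hs0)
      rw [hz _ (hw s0 (hS1 s0 hs0)).1 (hw s0 (hS1 s0 hs0)).2.2, (hw s0 (hS1 s0 hs0)).2.1,
        if_pos hs0] at h3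
      rw [hz _ (hw t0 hyt0).1 (hw t0 hyt0).2.2, (hw t0 hyt0).2.1, if_neg ht0] at h4
      exact hM0 (h3.trans h4.symm)
    refine ⟨u, i, i', hi, hi', hne, fun e => ?_⟩
    unfold part at hpart
    rw [val_filter] at hpart
    rw [val_all] at hF
    unfold wc
    rw [val_filter]
    by_cases he : e = M
    · refine Eq.trans (Finset.sum_congr rfl fun α hα => ?_) hpart
      by_cases h3 : algebraMap k K (F.coeff α) * ∏ l, y l ^ α l = 0
      · rw [h3]
        simp
      · have h4 := hz α hα h3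
        unfold wgt at h4
        rw [h4, he]
        by_cases h5 : v α ∈ S
        · simp only [if_pos h5, if_true]
        · rw [if_neg h5, if_neg h5, if_neg (Ne.symm hM0)]
    · by_cases he0 : e = 0
      · have h6 : ∑ α ∈ F.support, (if ∑ j, (α j : ℤ) * u j = e then
            algebraMap k K (F.coeff α) * ∏ j, y j ^ α j else 0) =
            ∑ α ∈ F.support, algebraMap k K (F.coeff α) * ∏ j, y j ^ α j -
            ∑ α ∈ F.support, (if v α ∈ S then
              algebraMap k K (F.coeff α) * ∏ j, y j ^ α j else 0) := by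
          rw [← Finset.sum_sub_distrib]
          refine Finset.sum_congr rfl fun α hα => ?_
          by_cases h3 : algebraMap k K (F.coeff α) * ∏ l, y l ^ α l = 0
          · rw [h3]
            simp
          · have h4 := hz α hα h3
            unfold wgt at h4
            rw [h4, he0]
            by_cases h5 : v α ∈ S
            · rw [if_pos h5, if_pos h5, if_neg hM0, sub_self]
            · rw [if_neg h5, if_neg h5, if_pos rfl, sub_zero]
        rw [h6, hF, hpart, sub_zero]
      · refine Finset.sum_eq_zero fun α hα => ?_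
        by_cases h3 : algebraMap k K (F.coeff α) * ∏ l, y l ^ α l = 0
        · rw [h3]
          simp
        · have h4 := hz α hα h3
          unfold wgt at h4
          rw [h4]
          by_cases h5 : v α ∈ S
          · rw [if_pos h5, if_neg fun h => he h.symm]
          · rw [if_neg h5, if_neg fun h => he0 h.symm]

end

end Pool.Agent.R869.Wd
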