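import Pool.Agent.R869.WHyp
import Pool.Agent.R869.WCptC

/-!
Hypersurfaces given by forms with dominating variables: the special sets.
-/

set_option autoImplicit false

open MvPolynomial Pool.Agent.W602.GT

namespace Pool.Agent.R869.Wd

variable {k : Type} [Field k] {n : ℕ}

theorem Dominates.dominated {F : MvPolynomial (Fin (n + 1)) k} {δ : ℕ}
    {v : (Fin (n + 1) →₀ ℕ) → Fin (n + 1)} (h : Dominates F δ v) : Dominated F δ :=
  ⟨v, h.inj, h.dom⟩

section

variable {F : MvPolynomial (Fin (n + 1)) k} {d δ : ℕ} {v : (Fin (n + 1) →₀ ℕ) → Fin (n + 1)}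

/-- the points on diagonal orbits are the degenerate points -/
theorem degenerate_iff [Infinite k] (hd : F.IsHomogeneous d) (hv : Dominates F δ v)
    (h2 : 2 * δ < d) (x : Fin (n + 1) → k) :
    x ∈ Degenerate F v ↔ ∃ b, DiagCurve ∅ (fun _ : Unit => F) x b := by
  constructor
  · rintro ⟨hx, S, hS, hS1, hS2, hpart⟩
    obtain ⟨b, i, i', hi, hi', hb, hwc⟩ := weights_of_sum hd hv h2 (hx.2 ()) hS hS1 hS2 hpart
    exact ⟨b, diag_of_wc (fun j hj => absurd hj (Set.notMem_empty j)) (fun _ e => hwc e)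
      ⟨i, i', hi, hi', hb⟩⟩
  · rintro ⟨b, hb, i, i', hi, hi', hbi⟩
    have h1 := hb 1 one_ne_zero
    simp only [one_zpow, one_mul] at h1
    have h3 : x ∈ Cone (fun _ : Unit => F) := ⟨h1.1, h1.2.2⟩
    exact ⟨h3, sum_of_weights hd hv h2 hi hi' hbi fun e =>
      wc_of_orbit (fun t ht => (hb t ht).2.2 ()) e⟩

theorem spOrb_degenerate [Infinite k] (hd : F.IsHomogeneous d) (hv : Dominates F δ v)
    (h2 : 2 * δ < d) : SpOrb (fun _ : Unit => F) = {x | x ∈ Cone (fun _ : Unit => F) ∧
      ∀ G : MvPolynomial (Fin (n + 1)) k, IsForm G → (∀ x' ∈ Degenerate F v, val x' G = 0) →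
        val x G = 0} := by
  ext x
  constructor
  · rintro ⟨hx, h⟩
    exact ⟨hx, fun G hG h1 => h G hG fun x' b hb =>
      h1 x' ((degenerate_iff hd hv h2 x').2 ⟨b, hb⟩)⟩
  · rintro ⟨hx, h⟩
    refine ⟨hx, fun G hG h1 => h G hG fun x' hx' => ?_⟩
    obtain ⟨b, hb⟩ := (degenerate_iff hd hv h2 x').1 hx'
    exact h1 x' b hb

/-- subvarieties which are not of log general type are degenerate -/
theorem lgt_of_nondeg [IsAlgClosed k] [CharZero k] (hd : F.IsHomogeneous d)
    (hv : Dominates F δ v) (hN : 2 * δ + n * ((n + 1) * (n * (n - 1) / 2)) < d)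
    {U : Set (Fin (n + 1))} {K : Type} [Field K] [Algebra k K] {w : ℕ} (hw : 1 ≤ w)
    {y : Fin (n + 1) → K} (hy : SubVarU U (fun _ : Unit => F) K w y)
    (h : ∀ S : Set (Fin (n + 1)), S.Nonempty → (∀ j ∈ S, y j ≠ 0) → (∃ j, j ∉ S ∧ y j ≠ 0) →
      val y (part F v S) ≠ 0) : LogGeneralType k K w (OffU U y) := by
  by_contra hgt
  have hC := sys_of_dominated (U := U) hd hv.dominated hN
  have hgen : Algebra.IsAlgebraic (coords k y) K := by
    rw [hy.gen]
    infer_instance
  obtain ⟨b, i, i', hi, hi', hb, hwc⟩ := weights hC.form hC.pos hC.card hC.wide hC.num hw hy.dim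
    hy.ne hgen hy.mem hy.unit hgt
  obtain ⟨S, h1, h3, h4, h5⟩ := sum_of_weights hd hv (by omega) hi hi' hb (hwc ())
  exact h S h1 h3 h4 h5

theorem dvd_of_vanish [IsAlgClosed k] {G : MvPolynomial (Fin (n + 1)) k} (hF : Irreducible F)
    (h : ∀ x : Fin (n + 1) → k, aeval x F = 0 → aeval x G = 0) : F ∣ G := by
  have hprime : (Ideal.span {F}).IsPrime := (Ideal.span_singleton_prime hF.ne_zero).2 hF.prime
  have h1 := MvPolynomial.IsPrime.vanishingIdeal_zeroLocus (K := k) (Ideal.span {F})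
  have h2 : G ∈ vanishingIdeal k (zeroLocus k (Ideal.span {F})) := by
    intro x hx
    exact h x (hx F (Ideal.mem_span_singleton_self F))
  rw [h1] at h2
  exact Ideal.mem_span_singleton.1 h2

theorem part_hom (hd : F.IsHomogeneous d) (S : Set (Fin (n + 1))) :
    (part F v S).IsHomogeneous d := by
  classical
  unfold part
  refine IsHomogeneous.sum _ _ _ fun α hα => isHomogeneous_monomial _ ?_
  have h2 := hd (mem_support_iff.1 (Finset.mem_filter.1 hα).1)
  rw [← h2]
  rw [Finsupp.weight_apply, Finsupp.sum, Finsupp.degree_apply]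
  exact Finset.sum_congr rfl fun j _ => by simp

theorem part_coeff (S : Set (Fin (n + 1))) {α : Fin (n + 1) →₀ ℕ} (hα : α ∈ F.support) :
    (v α ∈ S → (part F v S).coeff α = F.coeff α) ∧ (v α ∉ S → (part F v S).coeff α = 0) := by
  classical
  unfold part
  rw [coeff_sum]
  simp only [coeff_monomial]
  rw [Finset.sum_ite_eq']
  constructor
  · intro h
    exact if_pos (Finset.mem_filter.2 ⟨hα, h⟩)
  · intro h
    refine if_neg ?_
    rw [Finset.mem_filter]
    exact fun h' => h h'.2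

theorem not_dvd_part (hd : F.IsHomogeneous d) (hv : Dominates F δ v)
    (hcard : F.support.card = n + 1) {S : Set (Fin (n + 1))} (hS : S.Nonempty)
    (hS2 : ∃ j, j ∉ S) : ¬ F ∣ part F v S := by
  classical
  have hsurj : ∀ j, ∃ α ∈ F.support, v α = j := by
    intro j
    have h1 : F.support.image v = Finset.univ := by
      apply Finset.eq_univ_of_card
      rw [Finset.card_image_of_injOn hv.inj, hcard, Fintype.card_fin]
    have h2 : j ∈ F.support.image v := by rw [h1]; exact Finset.mem_univ j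
    obtain ⟨α, h3, h4⟩ := Finset.mem_image.1 h2
    exact ⟨α, h3, h4⟩
  rintro ⟨Q, hQ⟩
  obtain ⟨s0, hs0⟩ := hS
  obtain ⟨t0, ht0⟩ := hS2
  obtain ⟨α, hα, hvα⟩ := hsurj s0
  obtain ⟨β, hβ, hvβ⟩ := hsurj t0
  have hF0 : F ≠ 0 := by
    rintro rfl
    simp at hα
  have hα1 := (part_coeff (v := v) S hα).1 (by rw [hvα]; exact hs0)
  have hβ1 := (part_coeff (v := v) S hβ).2 (by rw [hvβ]; exact ht0)
  have hp0 : part F v S ≠ 0 := by
    intro h0
    rw [h0, coeff_zero] at hα1
    exact mem_support_iff.1 hα hα1.symm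
  have hQ0 : Q ≠ 0 := by
    rintro rfl
    exact hp0 (by rw [hQ, mul_zero])
  have h1 : (F * Q).totalDegree = F.totalDegree + Q.totalDegree :=
    totalDegree_mul_of_isDomain hF0 hQ0
  rw [← hQ, (part_hom hd S).totalDegree hp0, hd.totalDegree hF0] at h1
  have h2 : Q.totalDegree = 0 := by omega
  rw [totalDegree_eq_zero_iff_eq_C] at h2
  rw [h2, mul_comm] at hQ
  rw [hQ, coeff_C_mul] at hα1 hβ1
  have h3 : coeff 0 Q = 0 := (mul_eq_zero.1 hβ1).resolve_right (mem_support_iff.1 hβ)
  rw [h3, zero_mul] at hα1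
  exact mem_support_iff.1 hα hα1.symm

theorem not_dvd_X (hd : F.IsHomogeneous d) (hd1 : 1 < d) (j : Fin (n + 1)) : ¬ F ∣ X j := by
  rintro ⟨Q, hQ⟩
  have hX : (X j : MvPolynomial (Fin (n + 1)) k) ≠ 0 := X_ne_zero j
  have hF0 : F ≠ 0 := by
    rintro rfl
    exact hX (by rw [hQ, zero_mul])
  have hQ0 : Q ≠ 0 := by
    rintro rfl
    exact hX (by rw [hQ, mul_zero])
  have h1 : (F * Q).totalDegree = F.totalDegree + Q.totalDegree :=
    totalDegree_mul_of_isDomain hF0 hQ0
  rw [← hQ, totalDegree_X, hd.totalDegree hF0] at h1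
  omega

open Classical in
/-- the product of the variables and of the nontrivial partial sums -/
noncomputable def excH (F : MvPolynomial (Fin (n + 1)) k)
    (v : (Fin (n + 1) →₀ ℕ) → Fin (n + 1)) : MvPolynomial (Fin (n + 1)) k :=
  (∏ j, X j) * ∏ S : Finset (Fin (n + 1)) with S.Nonempty ∧ ∃ j, j ∉ S, part F v (S : Set _)

theorem excH_form (hd : F.IsHomogeneous d) : IsForm (excH F v) := by
  classical
  unfold excH
  refine ⟨_, (IsHomogeneous.prod _ _ (fun _ => 1) fun j _ => isHomogeneous_X _ _).mul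
    (IsHomogeneous.prod _ _ (fun _ => d) fun S _ => part_hom hd _)⟩

/-- subvarieties outside the exceptional hypersurface are of log general type -/
theorem lgt_of_excH [IsAlgClosed k] [CharZero k] (hd : F.IsHomogeneous d)
    (hv : Dominates F δ v) (hN : 2 * δ + n * ((n + 1) * (n * (n - 1) / 2)) < d)
    {U : Set (Fin (n + 1))} {K : Type} [Field K] [Algebra k K] {w : ℕ} (hw : 1 ≤ w)
    {y : Fin (n + 1) → K} (hy : SubVarU U (fun _ : Unit => F) K w y) (hne : val y (excH F v) ≠ 0) :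
    LogGeneralType k K w (OffU U y) := by
  classical
  refine lgt_of_nondeg hd hv hN hw hy fun S hS hS1 hS2 h0 => hne ?_
  unfold excH val
  rw [map_mul]
  refine mul_eq_zero_of_right _ ?_
  rw [map_prod]
  refine Finset.prod_eq_zero (i := (Set.toFinite S).toFinset) ?_ ?_
  · simp only [Finset.mem_filter, Finset.mem_univ, true_and]
    obtain ⟨s, hs⟩ := hS
    obtain ⟨t, ht, -⟩ := hS2
    exact ⟨⟨s, (Set.Finite.mem_toFinset _).2 hs⟩, t, fun h => ht ((Set.Finite.mem_toFinset _).1 h)⟩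
  · rw [Set.Finite.coe_toFinset]
    exact h0

/-- the exceptional hypersurface does not contain `X` -/
theorem excH_ne [IsAlgClosed k] (hd : F.IsHomogeneous d) (hv : Dominates F δ v) (hd1 : 1 < d)
    (hcard : F.support.card = n + 1) (hF : Irreducible F) :
    ∃ x ∈ Cone (fun _ : Unit => F), val x (excH F v) ≠ 0 := by
  classical
  by_contra hcon
  push Not at hcon
  have h1 : F ∣ excH F v := by
    refine dvd_of_vanish hF fun x hx => ?_
    by_cases hx0 : x = 0
    · unfold excH
      rw [map_mul, map_prod, Finset.prod_eq_zero (Finset.mem_univ (0 : Fin (n + 1))), zero_mul]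
      rw [aeval_X, hx0]
      rfl
    · exact hcon x ⟨hx0, fun _ => hx⟩
  unfold excH at h1
  rcases hF.prime.dvd_or_dvd h1 with h2 | h2
  · obtain ⟨j, -, h3⟩ := hF.prime.exists_mem_finset_dvd h2
    exact not_dvd_X hd hd1 j h3
  · obtain ⟨S, hS, h3⟩ := hF.prime.exists_mem_finset_dvd h2
    obtain ⟨h4, t, ht⟩ := (Finset.mem_filter.1 hS).2
    exact not_dvd_part hd hv hcard (by exact_mod_cast h4) ⟨t, by exact_mod_cast ht⟩ h3

end

end Pool.Agent.R869.Wd
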