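import Pool.Agent.R869.WLoci
import Pool.Agent.R869.WSix
import Pool.Agent.Y190.OP.Open

/-!
Wide projective varieties: hyperbolicity, general type and rational curves.
-/

set_option autoImplicit false

open FF MvPolynomial Pool.Agent.W603.LV Pool.Agent.W603.PV
open Pool.Agent.W602.GT Pool.Agent.W603.BP Pool.Agent.H159R3.GGLLog
open Pool.Agent.W603.CX (AlgHyperbolic BoundedOnCurves OrbitsConstant IsMap HasOrbit)
open Pool.Agent.Y190.PH (Brody)
open Metric Set

namespace Pool.Agent.R869.Wd

/-- There are no nonconstant morphisms from the projective line to `X = {F = 0}`: all morphisms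
`t ↦ (P_0 (t) : … : P_n (t))`, with polynomials `P_i`, are constant. -/
def NoRationalCurves {k : Type} [Field k] {n : ℕ} {ι : Type}
    (F : ι → MvPolynomial (Fin (n + 1)) k) : Prop :=
  ∀ P : Fin (n + 1) → Polynomial k, (∀ e, aeval P (F e) = 0) → ∀ (i j : Fin (n + 1)) (t u : k),
    (P i).eval t * (P j).eval u = (P j).eval t * (P i).eval u

/-- Every holomorphic map from the punctured disc to `X = {F = 0}` extends to the disc. -/
def PicardHyperbolic {n : ℕ} {ι : Type} (F : ι → MvPolynomial (Fin (n + 1)) ℂ) : Prop :=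
  ∀ f : ℂ → Fin (n + 1) → ℂ, DifferentiableOn ℂ f (ball 0 1 \ {0}) →
    (∀ z ∈ ball (0 : ℂ) 1 \ {0}, f z ≠ 0 ∧ ∀ i, eval (f z) (F i) = 0) → Extends f

section

variable {k : Type} [Field k] [IsAlgClosed k] [CharZero k] {n : ℕ} {ι : Type}
  {F : ι → MvPolynomial (Fin (n + 1)) k}

theorem rational_iff {s N : ℕ} (hC : Sys ∅ F s N) {A : ℕ} (hA : HgtBound ∅ F A) :
    (∀ P, ¬ GmCurve F P) ↔ NoRationalCurves F := by
  have hinf : Infinite k := inferInstance
  constructor
  · intro h P hP i j t u
    have h6 := six hC hA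
    have halg : AlgHyperbolic A F := (h6.out 0 4).2 h
    by_cases hi0 : P i = 0
    · rw [hi0]; simp
    by_cases hj0 : P j = 0
    · rw [hj0]; simp
    have hinj : Function.Injective (algebraMap (Polynomial k) (RatFunc k)) :=
      RatFunc.algebraMap_injective k
    let f : Fin (n + 1) → RatFunc k := fun i => algebraMap (Polynomial k) (RatFunc k) (P i)
    have hi : f i ≠ 0 := fun h0 => hi0 (hinj (by rw [map_zero]; exact h0))
    have hj : f j ≠ 0 := fun h0 => hj0 (hinj (by rw [map_zero]; exact h0))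
    have h1 := halg (RatFunc k) f ⟨i, hi⟩ fun e => by
      have h2 : aeval f (F e) = algebraMap (Polynomial k) (RatFunc k) (aeval P (F e)) :=
        (MvPolynomial.aeval_algebraMap_apply (RatFunc k) P (F e))
      rw [h2, hP e, map_zero]
    rw [Pool.Agent.Y216.canDeg_ratFunc] at h1
    norm_num at h1
    have h2 := Pool.Agent.W603.CX.hgt_le_pht (k := k) f hi hj
    obtain ⟨c, hc⟩ := const_of_hgt (k := k) (f := f i / f j) (by omega)
    have h3 : P i = Polynomial.C c * P j := by
      apply hinj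
      rw [map_mul]
      have h4 : algebraMap (Polynomial k) (RatFunc k) (Polynomial.C c) =
          algebraMap k (RatFunc k) c := by
        rw [IsScalarTower.algebraMap_apply k (Polynomial k) (RatFunc k)]
        rfl
      rw [h4]
      change f i = _ * f j
      first
        | rw [← hc]; field_simp
        | rw [hc]; field_simp
    rw [h3]
    simp only [Polynomial.eval_mul, Polynomial.eval_C]
    ring
  · intro h P hP
    have h1 : ∀ e, aeval P (F e) = 0 := by
      intro e
      obtain ⟨R, hR1, hR2⟩ := val_poly P (F e)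
      have h0 : R = 0 := poly_zero fun t ht => by rw [hR1]; exact hP.mem t ht e
      apply RatFunc.algebraMap_injective k
      rw [map_zero]
      have h2 : algebraMap (Polynomial k) (RatFunc k) (aeval P (F e)) =
          aeval (fun i => algebraMap (Polynomial k) (RatFunc k) (P i)) (F e) :=
        (MvPolynomial.aeval_algebraMap_apply (RatFunc k) P (F e)).symm
      rw [h2]
      change val _ (F e) = 0
      rw [← hR2, h0, map_zero]
    obtain ⟨t, u, ht, hu, hli⟩ := hP.nonconst
    rw [LinearIndependent.pair_iff] at hli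
    obtain ⟨j, hj⟩ := Function.ne_iff.1 (hP.ne u hu)
    have h3 := hli ((P j).eval u) (-(P j).eval t) (by
      funext i
      simp only [Pi.add_apply, Pi.smul_apply, smul_eq_mul, Pi.zero_apply]
      linear_combination h P h1 i j t u)
    exact hj h3.1

end

variable {n : ℕ} {ι : Type} {F : ι → MvPolynomial (Fin (n + 1)) ℂ}

theorem brody_iff : SpH ∅ F = ∅ ↔ Brody F := by
  constructor
  · intro h f hf hf0 hfF z w
    by_contra hcon
    push Not at hcon
    have hcurve : EntireCurve ∅ F f := ⟨hf, fun z => ⟨hf0 z,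
      fun j hj => absurd hj (Set.notMem_empty j), fun e => hfF z e⟩, z, w, hcon⟩
    have h1 : f z ∈ SpH ∅ F := ⟨⟨hf0 z, fun j hj => absurd hj (Set.notMem_empty j), fun e =>
      hfF z e⟩, fun G _ hG' => hG' f hcurve z⟩
    rw [h] at h1
    exact h1
  · intro h
    rw [Set.eq_empty_iff_forall_notMem]
    rintro x ⟨-, hx⟩
    have h1 := hx 1 ⟨0, isHomogeneous_one _ _⟩ fun f hf z => by
      exfalso
      obtain ⟨h1, h2, z1, z2, h3⟩ := hf
      obtain ⟨s, hs⟩ := h f h1 (fun z => (h2 z).1) (fun z => (h2 z).2.2) z1 z2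
      exact h3 s hs
    rw [map_one] at h1
    exact one_ne_zero h1

theorem picard_iff : SpP ∅ F = ∅ ↔ PicardHyperbolic F := by
  constructor
  · intro h f hf hfF
    by_contra hE
    have hc : PCurve ∅ F f := ⟨hf, fun z hz => ⟨(hfF z hz).1,
      fun j hj => absurd hj (Set.notMem_empty j), (hfF z hz).2⟩⟩
    have hz : (1 / 2 : ℂ) ∈ ball (0 : ℂ) 1 \ {0} := mem_disc.2 ⟨by norm_num, by
      rw [norm_div, norm_one]
      norm_num⟩
    have h1 : f (1 / 2) ∈ SpP ∅ F := ⟨hc.2 _ hz, fun G _ hG => hG f hc hE _ hz⟩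
    rw [h] at h1
    exact h1
  · intro h
    rw [Set.eq_empty_iff_forall_notMem]
    rintro x ⟨-, hx⟩
    have h1 := hx 1 ⟨0, isHomogeneous_one _ _⟩ fun f hf hE => absurd (h f hf.1 fun z hz =>
      ⟨(hf.2 z hz).1, (hf.2 z hz).2.2⟩) hE
    rw [map_one] at h1
    exact one_ne_zero h1

theorem gm_empty_iff : SpGm F = ∅ ↔ ∀ P, ¬ GmCurve F P := by
  constructor
  · intro h P hP
    have h1 : (fun i => (P i).eval 1) ∈ SpGm F :=
      ⟨⟨hP.ne 1 one_ne_zero, hP.mem 1 one_ne_zero⟩, fun G _ hG => hG P hP 1 one_ne_zero⟩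
    rw [h] at h1
    exact h1
  · intro h
    rw [Set.eq_empty_iff_forall_notMem]
    rintro x ⟨-, hx⟩
    have h1 := hx 1 ⟨0, isHomogeneous_one _ _⟩ fun P hP => absurd hP (h P)
    unfold val at h1
    rw [map_one] at h1
    exact one_ne_zero h1

/-- **Lang's conjectures for wide projective varieties.** -/
theorem lang_tfae {s N : ℕ} (hC : Sys ∅ F s N) {A : ℕ} (hA : HgtBound ∅ F A) :
    [Brody F, AllGeneralType F, PicardHyperbolic F, AlgHyperbolic A F, BoundedOnCurves F,
      NoRationalCurves F, ∀ P, ¬ GmCurve F P, OrbitsConstant F].TFAE := by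
  have h6 := six hC hA
  obtain ⟨e1, -, e2⟩ := special_hol hC
  have e3 := (special_orb hC).2
  tfae_have 1 ↔ 7 := by rw [← brody_iff, e1, ← e3, gm_empty_iff]
  tfae_have 3 ↔ 7 := by rw [← picard_iff, e2, ← e3, gm_empty_iff]
  tfae_have 6 ↔ 7 := (rational_iff hC hA).symm
  tfae_have 2 ↔ 7 := h6.out 5 4
  tfae_have 4 ↔ 7 := h6.out 0 4
  tfae_have 5 ↔ 7 := h6.out 2 4
  tfae_have 8 ↔ 7 := h6.out 3 4
  tfae_finish

end Pool.Agent.R869.Wd
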