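import Pool.Agent.R869.WSix
import Pool.Agent.Y190.AH.Tf
import Pool.Agent.W856.RG.ORB

/-!
Irreducible components of wide quasi-projective varieties: heights.
-/

set_option autoImplicit false

open FF MvPolynomial Pool.Agent.W603.LV Pool.Agent.W603.PV
open Pool.Agent.W602.GT
open Pool.Agent.Y190.AH (MapX van LinB EulB zeroInf)

namespace Pool.Agent.R869.Wd

variable {k : Type} [Field k] [IsAlgClosed k] [CharZero k] {n : ℕ} {ι : Type}
  {F : ι → MvPolynomial (Fin (n + 1)) k} {U : Set (Fin (n + 1))}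

/-- An orbit gives morphisms of unbounded degree from the multiplicative group. -/
theorem orbit_mapX {x : Fin (n + 1) → k} {b : Fin (n + 1) → ℤ} (hd : DiagCurve U F x b)
    {G : MvPolynomial (Fin (n + 1)) k} (hG : val x G ≠ 0) (B : ℤ) :
    ∃ f : Fin (n + 1) → RatFunc k,
      MapX U F (zeroInf k) f ∧ val f G ≠ 0 ∧ B < pht k f := by
  classical
  have hinf : Infinite k := inferInstance
  obtain ⟨T, hTd⟩ : ∃ T : RatFunc k, T = RatFunc.X := ⟨_, rfl⟩
  have hTt : Transcendental k T := hTd ▸ RatFunc.transcendental_X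
  have hT0 : T ≠ 0 := by rw [hTd]; exact RatFunc.X_ne_zero
  have hT1 : 1 ≤ hgt k T := by
    by_contra hcon
    obtain ⟨c, hc⟩ := const_of_hgt (k := k) (f := T) (by omega)
    exact hTt (hc ▸ isAlgebraic_algebraMap c)
  have hT1t : Transcendental k (T - 1) := by
    intro h
    apply hTt
    have h1 : T = (T - 1) + algebraMap k (RatFunc k) 1 := by rw [map_one]; ring
    rw [h1]
    exact h.add (isAlgebraic_algebraMap _)
  obtain ⟨c, hc⟩ := Pool.Agent.W856.RG.Orb.exists_zero (k := k) hT1t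
  obtain ⟨hX, i, i', hi, hi', hb⟩ := hd
  have hx1 := hX 1 one_ne_zero
  have hwc : ∀ e v, val x (wc b v (F e)) = 0 := fun e v =>
    wc_of_orbit (fun t ht => (hX t ht).2.2 e) v
  have hxU : ∀ j ∈ U, x j ≠ 0 := fun j hj => by
    have := hx1.2.1 j hj
    simpa using this
  have hZ : ∀ P ∉ zeroInf k, P.ord T = 0 := by
    intro P hP
    by_contra h
    apply hP
    unfold zeroInf
    rw [hTd] at h
    simpa using h
  obtain ⟨q, hq⟩ : ∃ q : ℕ, q = (B + 1).toNat + 1 := ⟨_, rfl⟩
  have hTq : T ^ q ≠ 0 := pow_ne_zero _ hT0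
  let f : Fin (n + 1) → RatFunc k := fun j => (T ^ q) ^ b j * algebraMap k (RatFunc k) (x j)
  have hf0 : ∀ j, x j ≠ 0 → f j ≠ 0 := fun j hj =>
    mul_ne_zero (zpow_ne_zero _ hTq) ((map_ne_zero _).2 hj)
  have hfz : ∀ j, f j ≠ 0 → x j ≠ 0 := by
    intro j hj h0
    apply hj
    change (T ^ q) ^ b j * algebraMap k (RatFunc k) (x j) = 0
    rw [h0, map_zero, mul_zero]
  refine ⟨f, ⟨⟨i, hf0 i hi⟩, fun e => ?_, fun j hj => ⟨hf0 j (hxU j hj), fun P hP => ?_⟩⟩, ?_, ?_⟩
  · refine val_orbit (L := RatFunc k) (fun j => algebraMap k (RatFunc k) (x j)) b hTq (F e)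
      fun v => ?_
    have h1 : val (fun j => algebraMap k (RatFunc k) (x j)) (wc b v (F e)) =
        algebraMap k (RatFunc k) (val x (wc b v (F e))) := by
      unfold val
      exact (MvPolynomial.aeval_algebraMap_apply (RatFunc k) x _)
    rw [h1, hwc e v, map_zero]
  · have hPT : P.ord T = 0 := hZ P hP
    have h1 : ∀ m', x m' ≠ 0 → P.ord (f m') = 0 := by
      intro m' hm'
      change P.ord ((T ^ q) ^ b m' * algebraMap k (RatFunc k) (x m')) = 0
      rw [P.ord_mul (zpow_ne_zero _ hTq) ((map_ne_zero _).2 hm'), P.ord_const hm',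
        P.ord_zpow, P.ord_pow, hPT]
      ring
    obtain ⟨m', hm', h2⟩ := exists_pord P (f := f) ⟨i, hf0 i hi⟩
    rw [← h2, h1 m' (hfz m' hm'), h1 j (hxU j hj)]
  · -- the value at `1`
    intro h0
    -- powers of `T`
    have hge : ∀ m : ℤ, Ge c 1 (T ^ m - 1) := by
      have hcT : Ge c 1 (T - 1) := Or.inr hc
      have hcT0 : c.ord T = 0 := by
        by_contra hne
        have h1 : Ge c 1 (T - 1) := hcT
        rcases lt_or_gt_of_ne hne with h2 | h2
        · have h3 : Ge c 0 T := by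
            have h4 : T = (T - 1) + 1 := by ring
            rw [h4]
            exact (h1.mono (by norm_num)).add Ge.one
          rcases h3 with h3 | h3
          · exact hT0 h3
          · omega
        · have h3 : Ge c 1 (T : RatFunc k) := Or.inr h2
          have h4 : Ge c 1 (1 : RatFunc k) := by
            have h5 : (1 : RatFunc k) = T - (T - 1) := by ring
            rw [h5, sub_eq_add_neg]
            exact h3.add h1.neg
          rcases h4 with h4 | h4
          · exact one_ne_zero h4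
          · rw [c.ord_one] at h4
            omega
      have hnat : ∀ m : ℕ, Ge c 1 (T ^ m - 1) := by
        intro m
        induction m with
        | zero => rw [pow_zero, sub_self]; exact Ge.zero
        | succ m ih =>
          have h1 : T ^ (m + 1) - 1 = (T ^ m - 1) * T + (T - 1) := by ring
          rw [h1]
          refine Ge.add ?_ hcT
          have h2 := ih.mul (Or.inr (le_of_eq hcT0.symm) : Ge c 0 T)
          simpa using h2
      intro m
      rcases Int.eq_nat_or_neg m with ⟨m', rfl | rfl⟩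
      · rw [zpow_natCast]; exact hnat m'
      · have h1 : T ^ (-(m' : ℤ)) - 1 = -((T ^ m' - 1) * (T ^ m')⁻¹) := by
          rw [zpow_neg, zpow_natCast]
          have := pow_ne_zero m' hT0
          field_simp
          ring
        rw [h1]
        refine Ge.neg ?_
        have h2 : Ge c 0 (T ^ m')⁻¹ := Or.inr (by rw [c.ord_inv, c.ord_pow, hcT0]; simp)
        have h3 := (hnat m').mul h2
        simpa using h3
    have hfc : ∀ j, Ge c 1 (f j - algebraMap k (RatFunc k) (x j)) := by
      intro j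
      have h1 : f j - algebraMap k (RatFunc k) (x j) =
          (T ^ ((q : ℤ) * b j) - 1) * algebraMap k (RatFunc k) (x j) := by
        change (T ^ q) ^ b j * algebraMap k (RatFunc k) (x j) - _ = _
        rw [← zpow_natCast T q, ← zpow_mul]
        ring
      rw [h1]
      have h2 := (hge ((q : ℤ) * b j)).mul (Ge.const (P := c) (x j))
      simpa using h2
    have hf00 : ∀ j, Ge c 0 (f j) := by
      intro j
      have h3 : f j = (f j - algebraMap k (RatFunc k) (x j)) + algebraMap k (RatFunc k) (x j) := by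
        ring
      rw [h3]
      exact ((hfc j).mono (by norm_num)).add (Ge.const _)
    have h3 := red_mvaeval c hf00 hfc G
    rw [show aeval f G = 0 from h0, zero_sub] at h3
    have h4 := h3.neg
    rw [neg_neg] at h4
    apply hG
    rw [val_eval']
    rcases h4 with h5 | h5
    · exact (map_eq_zero _).1 h5
    · by_contra h6
      rw [c.ord_const h6] at h5
      omega
  · -- the degree
    refine lt_of_lt_of_le ?_ (Pool.Agent.W603.CX.hgt_le_pht f (hf0 i hi) (hf0 i' hi'))
    have h1 : f i / f i' = (x i / x i') • T ^ ((q : ℤ) * (b i - b i')) := by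
      change (T ^ q) ^ b i * algebraMap k (RatFunc k) (x i) /
        ((T ^ q) ^ b i' * algebraMap k (RatFunc k) (x i')) = _
      rw [Algebra.smul_def, map_div₀, ← zpow_natCast T q, ← zpow_mul, ← zpow_mul, mul_sub,
        zpow_sub₀ hT0]
      have h2 : algebraMap k (RatFunc k) (x i') ≠ 0 := (map_ne_zero _).2 hi'
      have h3 : T ^ ((q : ℤ) * b i') ≠ 0 := zpow_ne_zero _ hT0
      field_simp
    have h2 : hgt k (f i / f i') = hgt k (T ^ ((q : ℤ) * (b i - b i'))) := by
      rw [h1]
      exact hgt_congr fun P => ord_smul P (div_ne_zero hi hi') _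
    rw [h2, hgt_zpow hT0, abs_mul]
    have h3 : 1 ≤ |b i - b i'| := Int.one_le_abs (sub_ne_zero.2 hb)
    have h4 : |(q : ℤ)| = q := Nat.abs_cast _
    rw [h4]
    have h5 : B < (q : ℤ) := by omega
    have h6 : (q : ℤ) * 1 ≤ (q : ℤ) * |b i - b i'| := mul_le_mul_of_nonneg_left h3 (by positivity)
    have h7 : (q : ℤ) * |b i - b i'| * 1 ≤ (q : ℤ) * |b i - b i'| * hgt k T :=
      mul_le_mul_of_nonneg_left hT1 (by positivity)
    linarith

theorem orbit_map {x : Fin (n + 1) → k} {b : Fin (n + 1) → ℤ} (hd : DiagCurve U F x b)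
    {G : MvPolynomial (Fin (n + 1)) k} (hG : val x G ≠ 0) :
    ∃ S : Finset (Place k (RatFunc k)), ∀ B : ℤ, ∃ f : Fin (n + 1) → RatFunc k,
      MapX U F S f ∧ val f G ≠ 0 ∧ B < pht k f := ⟨zeroInf k, orbit_mapX hd hG⟩

/-- Outside of a proper closed subset, for every affine curve the degrees of the morphisms from it
to the variety `V = {x_j ≠ 0, j in U}` with generic point `y` are bounded. -/
def PBddV (k : Type) [Field k] (U : Set (Fin (n + 1))) {K : Type} [Field K] [Algebra k K]
    (y : Fin (n + 1) → K) : Prop :=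
  ∃ G : MvPolynomial (Fin (n + 1)) k, IsForm G ∧ val y G ≠ 0 ∧
    ∀ (L : Type) [Field L] [Algebra k L] [IsFF k L] (S : Finset (Place k L)), ∃ B : ℤ,
      ∀ f : Fin (n + 1) → L, MapX U (van (k := k) y) S f → val f G ≠ 0 → pht k f ≤ B

/-- the linear bound -/
theorem comp_lin [Finite ι] (hF : ∀ e, IsForm (F e)) {A : ℕ} (hA : HgtBound U F A)
    {K : Type} [Field K] [Algebra k K] {w : ℕ} {y : Fin (n + 1) → K} (hy : SubVarU U F K w y)
    (hcomp : IsComponentU U F y) (hgt : LogGeneralType k K w (OffU U y)) : LinB k U y := by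
  have := Fintype.ofFinite ι
  refine ⟨excC F y, excC_form hF y, excC_ne F y, A, fun L _ _ _ S f hf hfG => ?_⟩
  refine hA L S f ⟨hf.1, fun e => hf.2.1 ⟨F e, hF e, hy.mem e⟩, hf.2.2⟩ ?_
  rintro ⟨b, i, i', hi, hi', hb, hwc⟩
  have hsupp : ∀ j, f j ≠ 0 → y j ≠ 0 := by
    intro j hj h0
    apply hj
    have h1 := hf.2.1 ⟨X j, ⟨1, isHomogeneous_X _ _⟩, by
      unfold val
      rw [aeval_X]
      exact h0⟩
    change val f (X j) = 0 at h1
    unfold val at h1
    rwa [aeval_X] at h1
  exact comp_not_lgt hy hcomp (hsupp i hi) (hsupp i' hi') hb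
    (fun e v => excC_sub hfG e b v (hwc e v)) hgt

/-- orbits through the general points of a component with an action -/
theorem orbit_of_acts {K : Type} [Field K] [Algebra k K] {y : Fin (n + 1) → K}
    (hyU : ∀ j ∈ U, y j ≠ 0) {b : Fin (n + 1) → ℤ} {i i' : Fin (n + 1)} (hi : y i ≠ 0)
    (hi' : y i' ≠ 0) (hb : b i ≠ b i') (hact : Acts U k y b)
    {G : MvPolynomial (Fin (n + 1)) k} (hG : val y G ≠ 0) :
    ∃ x, DiagCurve U (van (k := k) y) x b ∧ val x G ≠ 0 := by
  classical
  let R : MvPolynomial (Fin (n + 1)) k := G * (X i * X i') *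
    ∏ j ∈ (Set.toFinite U).toFinset, X j
  have hR : aeval y R ≠ 0 := by
    simp only [R, map_mul, map_prod, aeval_X]
    refine mul_ne_zero (mul_ne_zero hG (mul_ne_zero hi hi')) ?_
    exact Finset.prod_ne_zero_iff.2 fun j hj => hyU j ((Set.Finite.mem_toFinset _).1 hj)
  obtain ⟨x, hx, hx0⟩ := specialise y R hR
  simp only [R, map_mul, map_prod, aeval_X] at hx
  have h1 := left_ne_zero_of_mul hx
  have h3 := right_ne_zero_of_mul h1
  have hxU : x ∈ PtsU U k y := by
    refine ⟨⟨fun h0' => left_ne_zero_of_mul h3 (congrFun h0' i), fun G' _ h' => hx0 _ h'⟩,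
      fun j hj => ?_⟩
    exact Finset.prod_ne_zero_iff.1 (right_ne_zero_of_mul hx) j
      ((Set.Finite.mem_toFinset _).2 hj)
  refine ⟨x, ⟨fun t ht => ?_, i, i', left_ne_zero_of_mul h3, right_ne_zero_of_mul h3, hb⟩,
    left_ne_zero_of_mul h1⟩
  have h4 := hact t ht x hxU
  exact ⟨h4.1.1, h4.2, fun e => h4.1.2 e.1 e.2.1 e.2.2⟩

theorem acts_of_bdd {K : Type} [Field K] [Algebra k K] {y : Fin (n + 1) → K}
    (hyU : ∀ j ∈ U, y j ≠ 0) (h : PBddV k U y)
    (b : Fin (n + 1) → ℤ) (hact : Acts U k y b) (i i' : Fin (n + 1)) (hi : y i ≠ 0)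
    (hi' : y i' ≠ 0) : b i = b i' := by
  by_contra hb
  obtain ⟨G, -, hGy, h1⟩ := h
  obtain ⟨x, hx, hxG⟩ := orbit_of_acts hyU hi hi' hb hact hGy
  obtain ⟨S, hS⟩ := orbit_map hx hxG
  obtain ⟨B, hB⟩ := h1 (RatFunc k) S
  obtain ⟨f, hf, hfG, hlt⟩ := hS B
  exact absurd (hB f hf hfG) (not_le.2 hlt)

/-- **Log general type and degrees of curves.** -/
theorem log_tfae [Finite ι] {s N : ℕ} (hC : Sys U F s N) {A : ℕ} (hA : HgtBound U F A)
    {K : Type} [Field K] [Algebra k K] {w : ℕ} (hw : 1 ≤ w) {y : Fin (n + 1) → K}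
    (hy : SubVarU U F K w y) (hcomp : IsComponentU U F y) :
    [LogGeneralType k K w (OffU U y), LinB k U y, EulB k U y, PBddV k U y, StronglyLgt U k y,
      ∀ b : Fin (n + 1) → ℤ, Acts U k y b → ∀ i i', y i ≠ 0 → y i' ≠ 0 → b i = b i'].TFAE := by
  tfae_have 1 → 2 := comp_lin hC.form hA hy hcomp
  tfae_have 2 → 3 := by
    rintro ⟨G, hG, hGy, B, hB⟩
    exact ⟨G, hG, hGy, fun z => B * max z 0, fun L _ _ _ S f hf hfG => hB L S f hf hfG⟩
  tfae_have 3 → 4 := by
    rintro ⟨G, hG, hGy, β, hB⟩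
    exact ⟨G, hG, hGy, fun L _ _ _ S => ⟨_, fun f hf hfG => hB L S f hf hfG⟩⟩
  tfae_have 4 → 6 := fun h b hb i i' hi hi' => acts_of_bdd hy.unit h b hb i i' hi hi'
  tfae_have 6 → 1 := (lgt_iff_acts hC hw hy hcomp).2
  tfae_have 1 → 5 := strongly_of_lgt hC hy hcomp
  tfae_have 5 → 1 := lgt_of_strongly hw hy
  tfae_finish

end Pool.Agent.R869.Wd
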