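import Pool.Agent.R869.WSix
import Pool.Agent.Y216.Point
import Pool.Agent.Y221.PB.Neg

/-!
Irreducible components of wide projective varieties: heights and pointed maps.
-/

set_option autoImplicit false

open FF MvPolynomial Pool.Agent.W603.LV Pool.Agent.W603.PV Pool.Agent.W602.RG
open Pool.Agent.W602.GT
open Pool.Agent.Y216 (OnVar CurveBound pointed_of_bound canDeg_ratFunc const_of_hgt)
open Pool.Agent.Y221.PB (PseudoBounded bounded_of_curve not_geom not_bdd rat_of_ruled)
open scoped LinearAlgebra.Projectivization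

namespace Pool.Agent.R869.Wd

variable {k : Type} [Field k] [IsAlgClosed k] [CharZero k] {n : ℕ} {ι : Type}
  {F : ι → MvPolynomial (Fin (n + 1)) k}

/-- points of a component of general type, outside a hypersurface, have no vanishing parts -/
theorem comp_no_parts [Fintype ι] {K : Type} [Field K] [Algebra k K] {w : ℕ}
    {y : Fin (n + 1) → K} (hy : SubVar F K w y) (hcomp : IsComponent F y)
    (hgt : GeneralType k K w) {L : Type} [Field L] [Algebra k L] {f : Fin (n + 1) → L}
    (hf : OnVar k y f) (hfG : val f (excC F y) ≠ 0) :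
    ¬ ∃ (b : Fin (n + 1) → ℤ) (i i' : Fin (n + 1)), f i ≠ 0 ∧ f i' ≠ 0 ∧ b i ≠ b i' ∧
      ∀ e v, val f (wc b v (F e)) = 0 := by
  rintro ⟨b, i, i', hi, hi', hb, hwc⟩
  have hsupp : ∀ j, f j ≠ 0 → y j ≠ 0 := by
    intro j hj h0
    apply hj
    have h1 := hf.2 (X j) ⟨1, isHomogeneous_X _ _⟩ (by
      unfold val
      rw [aeval_X]
      exact h0)
    unfold val at h1
    rwa [aeval_X] at h1
  exact comp_not_lgt (subVar_iff.2 hy) (componentU_of hcomp) (hsupp i hi) (hsupp i' hi') hb
    (fun e v => excC_sub hfG e b v (hwc e v)) ((general_iff y).2 hgt)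

theorem curve_comp [Finite ι] (hF : ∀ e, IsForm (F e)) {A : ℕ} (hA : HgtBound ∅ F A)
    {K : Type} [Field K] [Algebra k K] {w : ℕ} {y : Fin (n + 1) → K} (hy : SubVar F K w y)
    (hcomp : IsComponent F y) (hgt : GeneralType k K w) : CurveBound k y := by
  have := Fintype.ofFinite ι
  refine ⟨excC F y, excC_form hF y, excC_ne F y, A, fun L _ _ _ f hf hfG => ?_⟩
  have h1 := hA L ∅ f (isMap_empty ∅ hf.1 fun e => hf.2 _ (hF e) (hy.mem e))
    (comp_no_parts hy hcomp hgt hf hfG)
  simpa using h1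

/-- **General type, heights, pointed maps.** -/
theorem pgh_tfae [Finite ι] {s N : ℕ} (hC : Sys ∅ F s N) {A : ℕ} (hA : HgtBound ∅ F A)
    {K : Type} [Field K] [Algebra k K] {w : ℕ} (hw : 1 ≤ w) {y : Fin (n + 1) → K}
    (hy : SubVar F K w y) (hcomp : IsComponent F y) :
    [GeneralType k K w, PseudoGeomHyp k y, PseudoBounded k y, CurveBound k y,
      Psef k K w (fun _ => False), ¬ Ruled k K,
      ∀ b : Fin (n + 1) → ℤ, Acts ∅ k y b → ∀ i i', y i ≠ 0 → y i' ≠ 0 → b i = b i'].TFAE := by
  have h := general_or_ruled hC hw hy hcomp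
  tfae_have 1 → 4 := curve_comp hC.form hA hy hcomp
  tfae_have 4 → 2 := fun h => pointed_of_bound h
  tfae_have 4 → 3 := fun h => bounded_of_curve h
  tfae_have 2 → 6 := fun h hR => not_geom (fun G hG hGx => rat_of_ruled hR hy.ne hy.gen hG hGx) h
  tfae_have 3 → 6 := fun h hR => not_bdd (fun G hG hGx => rat_of_ruled hR hy.ne hy.gen hG hGx) h
  tfae_have 1 ↔ 6 := h.out 0 1
  tfae_have 1 ↔ 5 := h.out 0 2
  tfae_have 1 ↔ 7 := h.out 0 3
  tfae_finish

/-- **Pointed maps**, outside the same closed subset as the bound for the degrees. -/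
theorem pointed_at {K : Type} [Field K] [Algebra k K] {y : Fin (n + 1) → K}
    {G : MvPolynomial (Fin (n + 1)) k} (hGf : IsForm G) {B : ℕ}
    (hB : ∀ (L : Type) [Field L] [Algebra k L] [IsFF k L] (f : Fin (n + 1) → L), OnVar k y f →
      val f G ≠ 0 → pht k f ≤ B * max (canDeg k L) 0)
    (L : Type) [Field L] [Algebra k L] [IsFF k L] (c : Place k L)
    (x : Fin (n + 1) → k) (hx : x ∈ VarPts k y) (hxG : val x G ≠ 0) :
    (PointedMaps y c x).Finite := by
  classical
  by_contra hfin
  have hinf : (PointedMaps y c x).Infinite := hfin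
  obtain ⟨j0, hj0⟩ := Function.ne_iff.1 hx.1
  have hj0 : x j0 ≠ 0 := hj0
  set M : Set (Fin (n + 1) → L) := {f | f j0 = 1 ∧ (∀ H : MvPolynomial (Fin (n + 1)) k, IsForm H →
    val y H = 0 → val f H = 0) ∧ HasValue c x f} with hM
  have hMinf : M.Infinite := by
    intro hMfin
    obtain ⟨φ0, -⟩ := hinf.nonempty
    let g : (Fin (n + 1) → L) → ℙ L (Fin (n + 1) → L) := fun f =>
      if h : f ≠ 0 then Projectivization.mk L f h else φ0
    refine hinf ((hMfin.image g).subset ?_)
    rintro φ ⟨f, hf, hmap, hval, rfl⟩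
    have hfne : ∃ j, f j ≠ 0 := Function.ne_iff.1 hf
    have hfj0 := Pool.Agent.W273.RG.FNW.hv_ne hfne hval hj0
    have hc0 : (f j0)⁻¹ ≠ 0 := inv_ne_zero hfj0
    have hf' : (fun j => (f j0)⁻¹ * f j) ≠ 0 := by
      intro h0
      have := congrFun h0 j0
      simp only [Pi.zero_apply] at this
      exact (mul_ne_zero hc0 hfj0) this
    refine ⟨fun j => (f j0)⁻¹ * f j, ⟨inv_mul_cancel₀ hfj0, ?_,
      Pool.Agent.W273.RG.FNW.hv_scale hfne hval hc0⟩, ?_⟩
    · intro H hH hyH
      have h3 := hmap H hH hyH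
      obtain ⟨e, he⟩ := hH
      rw [val_smul he, h3, mul_zero]
    · change (if h : (fun j => (f j0)⁻¹ * f j) ≠ 0 then
        Projectivization.mk L (fun j => (f j0)⁻¹ * f j) h else φ0) = _
      rw [dif_pos hf', Projectivization.mk_eq_mk_iff']
      exact ⟨(f j0)⁻¹, by funext j; rfl⟩
  have hvalues : ∀ f ∈ M, ∀ j, f j = algebraMap k L (x j / x j0) ∨
      0 < c.ord (f j - algebraMap k L (x j / x j0)) := by
    rintro f ⟨hf0, hmap, hval⟩ j
    have hp := Pool.Agent.W273.RG.FNW.pord_zero hval hj0 hf0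
    have hxj0 : algebraMap k L (x j0) ≠ 0 := (map_ne_zero _).2 hj0
    have e : algebraMap k L (x j0) * f j - algebraMap k L (x j) * f j0 =
        algebraMap k L (x j0) * (f j - algebraMap k L (x j / x j0)) := by
      rw [hf0, map_div₀]
      field_simp
    rcases hval j0 j with h3 | h3
    · left
      rw [e] at h3
      exact sub_eq_zero.1 ((mul_eq_zero.1 h3).resolve_left hxj0)
    · by_cases h4 : f j - algebraMap k L (x j / x j0) = 0
      · left; exact sub_eq_zero.1 h4
      · right
        rw [e, c.ord_mul hxj0 h4, c.ord_const hj0, zero_add, hp] at h3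
        exact h3
  -- the form `G` at the point `x`
  obtain ⟨d, hd⟩ := hGf
  have hG1 : MvPolynomial.eval (fun j => x j / x j0) G ≠ 0 := by
    intro h5
    apply hxG
    have h6 : x = fun j => x j0 * (x j / x j0) := by
      funext j
      field_simp
    rw [h6, val_smul hd]
    have h7 : val (fun j => x j / x j0) G = eval (fun j => x j / x j0) G := by
      unfold Pool.Agent.W602.GT.val
      rw [MvPolynomial.aeval_def, MvPolynomial.eval₂_eq', MvPolynomial.eval_eq']
      rfl
    rw [h7, h5, mul_zero]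
  have hbound : ∀ f ∈ M, pht k f ≤ B * max (canDeg k L) 0 := by
    intro f hf
    obtain ⟨hf0, hmap, hval⟩ := hf
    refine hB L f ⟨⟨j0, by rw [hf0]; exact one_ne_zero⟩, hmap⟩ fun h0 => ?_
    have h1 : ∀ j, Ge c 1 (f j - algebraMap k L (x j / x j0)) := by
      intro j
      rcases hvalues f ⟨hf0, hmap, hval⟩ j with h | h
      · left; rw [h, sub_self]
      · right; omega
    have h2 : ∀ j, Ge c 0 (f j) := by
      intro j
      have h3 : f j = (f j - algebraMap k L (x j / x j0)) + algebraMap k L (x j / x j0) := by ring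
      rw [h3]
      exact ((h1 j).mono (by norm_num)).add (Ge.const _)
    have h3 := red_mvaeval c h2 h1 G
    rw [show aeval f G = 0 from h0, zero_sub] at h3
    have h4 := h3.neg
    rw [neg_neg] at h4
    exact hG1 (const_zero c h4)
  have hhgt : ∀ f ∈ M, ∀ j, hgt k (f j) ≤ B * max (canDeg k L) 0 := by
    intro f hf j
    have h5 := hbound f hf
    by_cases h0 : f j = 0
    · have h7 : hgt k (f j) = 0 := by
        rw [h0]
        exact hgt_algebraic (k := k) (K := L) (f := 0) isAlgebraic_zero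
      rw [h7]
      positivity
    · have h6 := Pool.Agent.W603.CX.hgt_le_pht (k := k) f (j := j) (l := j0) h0
        (by rw [hf.1]; exact one_ne_zero)
      rw [hf.1, div_one] at h6
      exact h6.trans h5
  -- bend and break
  let z : ℕ ↪ M := hMinf.natEmbedding M
  obtain ⟨g, ⟨j1, hj1⟩, hg1, hg2⟩ := Pool.Agent.TH152.BB.bb_val Pool.Agent.TH152.BB.bb_all c
    (fun m => (z m : Fin (n + 1) → L)) (fun j => x j / x j0) (B * max (canDeg k L) 0)
    (fun a b hab => z.injective (Subtype.ext hab)) (fun m j => hvalues _ (z m).2 j)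
    (fun m j => hhgt _ (z m).2 j)
  have hg0 : g j0 = 1 := by
    have h1 := hg1 (X j0 - 1) (fun m => by
      rw [map_sub, aeval_X, map_one, (z m).2.1, sub_self])
    rw [map_sub, aeval_X, map_one] at h1
    exact sub_eq_zero.1 h1
  have hgne : ∃ j, g j ≠ 0 := ⟨j0, by rw [hg0]; exact one_ne_zero⟩
  have h1 := hB (RatFunc k) g ⟨hgne, fun H hH hyH => hg1 H fun m => (z m).2.2.1 H hH hyH⟩
    (fun h0 => hG1 (hg2 G h0))
  rw [canDeg_ratFunc] at h1
  apply hj1
  apply Pool.Agent.Y216.const_of_hgt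
  by_cases h0 : g j1 = 0
  · rw [h0]
    exact (hgt_algebraic (k := k) (K := RatFunc k) (f := 0) isAlgebraic_zero).le
  · have h2 := Pool.Agent.W603.CX.hgt_le_pht (k := k) g (j := j1) (l := j0) h0
      (by rw [hg0]; exact one_ne_zero)
    rw [hg0, div_one] at h2
    simpa using h2.trans h1

end Pool.Agent.R869.Wd
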