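import Pool.Agent.R869.WLog
import Pool.Agent.Y190.PH.Ptd

/-!
The finiteness of pointed maps implies that the orbits do not cover the variety.
-/

set_option autoImplicit false

set_option linter.unusedSectionVars false

open FF MvPolynomial Pool.Agent.W603.LV Pool.Agent.W603.PV
open Pool.Agent.W602.GT
open Pool.Agent.Y190.AH (MapX van LinB EulB)
open Pool.Agent.Y190.PH

open scoped LaurentPolynomial

namespace Pool.Agent.R869.Wd

theorem lin_ind_T {α : ℂ} (hα : α ≠ 0) {m : ℤ} (hm : m ≠ 0) :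
    LinearIndependent ℂ fun r : ℕ =>
      (LaurentPolynomial.C α * LaurentPolynomial.T ((r : ℤ) * m) : ℂ[T;T⁻¹]) := by
  classical
  rw [linearIndependent_iff']
  intro s g hg r hr
  have h1 : ∀ i : ℕ, ∀ v : ℤ, (LaurentPolynomial.C α * LaurentPolynomial.T v : ℂ[T;T⁻¹]).coeff
      ((i : ℤ) * m) = if (i : ℤ) * m = v then α else 0 := by
    intro i v
    rw [← LaurentPolynomial.single_eq_C_mul_T]
    rw [AddMonoidAlgebra.coeff_single, Finsupp.single_apply]
    by_cases h : (i : ℤ) * m = v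
    · rw [if_pos h, if_pos h.symm]
    · rw [if_neg h, if_neg (Ne.symm h)]
  have h2 := congrArg (fun p : ℂ[T;T⁻¹] => p.coeff ((r : ℤ) * m)) hg
  simp only [AddMonoidAlgebra.coeff_sum, AddMonoidAlgebra.coeff_smul, Finsupp.coe_finsetSum,
    Finset.sum_apply, Finsupp.smul_apply, h1, AddMonoidAlgebra.coeff_zero, Finsupp.coe_zero,
    Pi.zero_apply, smul_eq_mul] at h2
  rw [Finset.sum_eq_single r] at h2
  · rw [if_pos rfl] at h2
    exact (mul_eq_zero.1 h2).resolve_right hα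
  · intro i _ hi
    rw [if_neg, mul_zero]
    intro h
    have h3 := mul_right_cancel₀ hm h
    exact hi (by exact_mod_cast h3.symm)
  · exact fun h => absurd hr h

variable {N : ℕ} {K : Type} [Field K] [Algebra ℂ K]

/-- an orbit and pointed maps -/
theorem orbit_pointed {U : Set (Fin (N + 1))} {j0 : Fin (N + 1)} (hj0 : j0 ∈ U)
    {y : Fin (N + 1) → K} (hyU : ∀ j ∈ U, y j ≠ 0) {x : Fin (N + 1) → ℂ} {b : Fin (N + 1) → ℤ}
    (hx : DiagCurve U (van (k := ℂ) y) x b)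
    {J : Ideal (CoordRing U y)} {ξ : CoordRing U y →ₐ[ℂ] ℂ} (hξ : ¬ J ≤ RingHom.ker ξ)
    (hxv : ∀ (i j : Fin (N + 1)) (hj : j ∈ U), ξ (gen y i hj) = x i * (x j)⁻¹)
    (hP : Pool.Agent.Y193.PointedBounded (CoordRing U y) J) : False := by
  classical
  have hinf : Infinite ℂ := inferInstance
  obtain ⟨hX, i1, i2, hi1, hi2, hb⟩ := hx
  have hcone := hX 1 one_ne_zero
  have hxU : ∀ j ∈ U, x j ≠ 0 := fun j hj => by
    have := hcone.2.1 j hj
    simpa using this
  have hwc : ∀ e v, val x (wc b v (van (k := ℂ) y e)) = 0 := fun e v =>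
    wc_of_orbit (fun t ht => (hX t ht).2.2 e) v
  obtain ⟨i, hi, hbi⟩ : ∃ i, x i ≠ 0 ∧ b i ≠ b j0 := by
    by_cases h : b i1 = b j0
    · exact ⟨i2, hi2, fun h' => hb (h.trans h'.symm)⟩
    · exact ⟨i1, hi1, h⟩
  let f : ℕ → Fin (N + 1) → ℂ[T;T⁻¹] := fun r i =>
    LaurentPolynomial.T ((r : ℤ) * b i) * LaurentPolynomial.C (x i)
  have hfV : ∀ r, OnV y (f r) := by
    intro r G hG hGy
    let L := FractionRing ℂ[T;T⁻¹]
    have hinj : Function.Injective (algebraMap ℂ[T;T⁻¹] L) := IsFractionRing.injective _ _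
    let T1 : L := algebraMap ℂ[T;T⁻¹] L (LaurentPolynomial.T (r : ℤ))
    have hTu : ∀ m : ℤ, algebraMap ℂ[T;T⁻¹] L (LaurentPolynomial.T m) *
        algebraMap ℂ[T;T⁻¹] L (LaurentPolynomial.T (-m)) = 1 := by
      intro m
      rw [← map_mul, ← LaurentPolynomial.T_add, add_neg_cancel, LaurentPolynomial.T_zero, map_one]
    have hT1 : T1 ≠ 0 := left_ne_zero_of_mul (by rw [hTu]; exact one_ne_zero)
    have hTz : ∀ m : ℤ, algebraMap ℂ[T;T⁻¹] L (LaurentPolynomial.T ((r : ℤ) * m)) = T1 ^ m := by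
      have hnat : ∀ m : ℕ, algebraMap ℂ[T;T⁻¹] L (LaurentPolynomial.T ((r : ℤ) * m)) =
          T1 ^ m := by
        intro m
        rw [← map_pow, LaurentPolynomial.T_pow, mul_comm]
      intro m
      rcases Int.eq_nat_or_neg m with ⟨m', rfl | rfl⟩
      · rw [hnat, zpow_natCast]
      · rw [zpow_neg, zpow_natCast, ← hnat, mul_neg]
        exact eq_inv_of_mul_eq_one_right (hTu _)
    have h1 : algebraMap ℂ[T;T⁻¹] L (MvPolynomial.aeval (f r) G) =
        val (fun j => T1 ^ b j * (algebraMap ℂ L (x j))) G := by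
      unfold val
      have h2 : (IsScalarTower.toAlgHom ℂ ℂ[T;T⁻¹] L).comp (MvPolynomial.aeval (f r)) =
          MvPolynomial.aeval (fun j => T1 ^ b j * (algebraMap ℂ L (x j))) := by
        apply MvPolynomial.algHom_ext
        intro i
        rw [AlgHom.comp_apply, MvPolynomial.aeval_X, MvPolynomial.aeval_X]
        change algebraMap ℂ[T;T⁻¹] L (LaurentPolynomial.T ((r : ℤ) * b i) *
          LaurentPolynomial.C (x i)) = _
        rw [map_mul, hTz]
        congr 1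
      rw [← h2]
      rfl
    apply hinj
    rw [h1, map_zero]
    refine val_orbit (L := L) (fun j => algebraMap ℂ L (x j)) b hT1 G fun v => ?_
    have h3 : val (fun j => algebraMap ℂ L (x j)) (wc b v G) =
        algebraMap ℂ L (val x (wc b v G)) := by
      unfold val
      exact (MvPolynomial.aeval_algebraMap_apply L x _)
    have h5 : val x (wc b v G) = 0 := hwc ⟨G, hG, hGy⟩ v
    rw [h3, h5, map_zero]
  let u : ℕ → Fin (N + 1) → ℂ[T;T⁻¹] := fun r j =>
    LaurentPolynomial.T (-((r : ℤ) * b j)) * LaurentPolynomial.C (x j)⁻¹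
  have hu : ∀ r, ∀ j ∈ U, f r j * u r j = 1 := by
    intro r j hj
    have h3 : (LaurentPolynomial.C (x j) : ℂ[T;T⁻¹]) * LaurentPolynomial.C (x j)⁻¹ = 1 := by
      rw [← map_mul, mul_inv_cancel₀ (hxU j hj), map_one]
    have h4 : (LaurentPolynomial.T ((r : ℤ) * b j) : ℂ[T;T⁻¹]) *
        LaurentPolynomial.T (-((r : ℤ) * b j)) = 1 := by
      rw [← LaurentPolynomial.T_add, add_neg_cancel, LaurentPolynomial.T_zero]
    simp only [f, u]
    linear_combination (LaurentPolynomial.T ((r : ℤ) * b j) : ℂ[T;T⁻¹]) *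
      LaurentPolynomial.T (-((r : ℤ) * b j)) * h3 + h4
  choose φ hφ using fun r => exists_hom hyU (hfV r) (hu r)
  have hevC : ∀ z : ℂ, evOne (LaurentPolynomial.C z) = z := fun z => evOne.commutes z
  have hevf : ∀ r i, evOne (f r i) = x i := by
    intro r i
    simp only [f]
    rw [map_mul evOne, hevC, evOne_T, one_mul]
  have hevu : ∀ r, ∀ j ∈ U, evOne (u r j) = (x j)⁻¹ := by
    intro r j hj
    have h1 := congrArg evOne (hu r j hj)
    rw [map_mul, map_one, hevf] at h1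
    exact eq_inv_of_mul_eq_one_right h1
  have hcomp : ∀ r, evOne.comp (φ r) = ξ := by
    intro r
    refine AlgHom.ext_of_eq_adjoin (S := CoordRing U y) rfl ?_
    rintro _ ⟨i, j, hj, rfl⟩
    change evOne (φ r ⟨y i / y j, _⟩) = _
    rw [hφ r i j hj, map_mul evOne, hevf, hevu r j hj]
    exact (hxv i j hj).symm
  have hfd := hP ℂ[T;T⁻¹] evOne ξ hξ (gen y i hj0)
  have hval : ∀ r : ℕ, φ r (gen y i hj0) = LaurentPolynomial.C (x i * (x j0)⁻¹) *
      LaurentPolynomial.T ((r : ℤ) * (b i - b j0)) := by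
    intro r
    have h1 := hφ r i j0 hj0 (gen y i hj0).2
    change φ r (gen y i hj0) = _ at h1
    rw [h1]
    simp only [f, u]
    rw [mul_sub, sub_eq_add_neg, LaurentPolynomial.T_add, map_mul LaurentPolynomial.C]
    ring
  have hli := lin_ind_T (α := x i * (x j0)⁻¹) (m := b i - b j0)
    (mul_ne_zero hi (inv_ne_zero (hxU j0 hj0))) (sub_ne_zero.2 hbi)
  let W := Submodule.span ℂ {b : ℂ[T;T⁻¹] | ∃ φ : CoordRing U y →ₐ[ℂ] ℂ[T;T⁻¹],
    evOne.comp φ = ξ ∧ φ (gen y i hj0) = b}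
  have hmem : ∀ r : ℕ, (LaurentPolynomial.C (x i * (x j0)⁻¹) *
      LaurentPolynomial.T ((r : ℤ) * (b i - b j0)) : ℂ[T;T⁻¹]) ∈ W := by
    intro r
    rw [← hval]
    exact Submodule.subset_span ⟨φ r, hcomp _, rfl⟩
  have hW : FiniteDimensional ℂ W := hfd
  have hli2 : LinearIndependent ℂ (fun r : ℕ => (⟨_, hmem r⟩ : W)) := by
    refine LinearIndependent.of_comp W.subtype ?_
    exact hli
  exact absurd hli2 (Module.Finite.not_linearIndependent_of_infinite _)

/-- **The conditions on curves, pointed maps, boundedness and log general type.** -/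
theorem ptd_tfae {U : Set (Fin (N + 1))} (hU : U.Nonempty) {ι : Type} [Finite ι]
    {F : ι → MvPolynomial (Fin (N + 1)) ℂ} {s M : ℕ} (hC : Sys U F s M) {A : ℕ}
    (hA : HgtBound U F A) {w : ℕ} (hw : 1 ≤ w) {y : Fin (N + 1) → K}
    (hy : SubVarU U F K w y) (hcomp : IsComponentU U F y) :
    [LogGeneralType ℂ K w (OffU U y), BrodyV U y, PicardV U y,
      ∃ J : Ideal (CoordRing U y), J ≠ ⊥ ∧ Pool.Agent.Y193.FinitePointedMaps (CoordRing U y) J,
      ∃ J : Ideal (CoordRing U y), J ≠ ⊥ ∧ Pool.Agent.Y193.BoundedModulo (CoordRing U y) J,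
      LinB ℂ U y, StronglyLgt U ℂ y,
      ∀ b : Fin (N + 1) → ℤ, Acts U ℂ y b → ∀ i i', y i ≠ 0 → y i' ≠ 0 → b i = b i'].TFAE := by
  classical
  have hyU := hy.unit
  obtain ⟨j0, hj0⟩ := id hU
  have h4 := four_comp hC hw hy hcomp
  have h6 := log_tfae hC hA hw hy hcomp
  tfae_have 1 ↔ 2 := h4.out 0 2
  tfae_have 1 ↔ 3 := h4.out 0 1
  tfae_have 1 ↔ 6 := h6.out 0 1
  tfae_have 1 ↔ 7 := h6.out 0 4
  tfae_have 1 ↔ 8 := h6.out 0 5
  tfae_have 6 → 5 := fun h => bounded_of_lin hU hyU h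
  tfae_have 5 → 4 := fun ⟨J, hJ, h⟩ => ⟨J, hJ, Pool.Agent.Y193.finite_of_pointed
    (Pool.Agent.Y193.pointed_of_bounded h)⟩
  tfae_have 4 → 8 := by
    rintro ⟨J, hJ, h⟩ b hact i i' hi hi'
    have hP := Pool.Agent.Y193.pointed_of_finite h
    by_contra hb
    obtain ⟨g, hgJ, hg0⟩ := Submodule.exists_mem_ne_zero_of_ne_bot hJ
    obtain ⟨U', e, P, hU', hPf, hPy, hPr⟩ := rep_elt hyU g
    have hmy : Pool.Agent.Y190.PH.mon U' y ≠ 0 :=
      (mon_unit U' (u := fun j => (y j)⁻¹) fun j hj =>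
        mul_inv_cancel₀ (hyU j ((hU' j).1 hj))).ne_zero
    have hPy0 : val y P ≠ 0 := by
      rw [hPy]
      exact mul_ne_zero (pow_ne_zero _ hmy) (fun h0 => hg0 (Subtype.ext h0))
    obtain ⟨x, hx, hxG⟩ := orbit_of_acts hyU hi hi' hb hact hPy0
    have hcone := hx.1 1 one_ne_zero
    have hx1 : (fun j => (1 : ℂ) ^ b j * x j) = x := by
      funext j
      rw [one_zpow, one_mul]
    rw [hx1] at hcone
    have hinv : ∀ j ∈ U, x j * (x j)⁻¹ = 1 := fun j hj =>
      mul_inv_cancel₀ (hcone.2.1 j hj)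
    obtain ⟨ξ, hξ⟩ := exists_hom (U := U) (y := y) hyU (R := ℂ) (f := x)
      (u := fun j => (x j)⁻¹)
      (fun G hG hGy => hcone.2.2 ⟨G, hG, hGy⟩) hinv
    have hξJ : ¬ J ≤ RingHom.ker ξ := by
      intro hle
      have h1 := hPr ℂ x (fun j => (x j)⁻¹) hinv ξ hξ
      have h2 : ξ g = 0 := hle hgJ
      rw [h2, mul_zero] at h1
      exact hxG h1
    exact orbit_pointed hj0 hyU hx hξJ (fun i j hj => hξ i j hj _) hP
  tfae_finish

end Pool.Agent.R869.Wd
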