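import Pool.Agent.R869.WHyp2
import Pool.Agent.TH214.RM.Irr

/-!
Smooth hypersurfaces with few monomials.
-/

set_option autoImplicit false

open MvPolynomial Pool.Agent.W602.GT

namespace Pool.Agent.R869.Wd

variable {k : Type} [Field k] {n : ℕ}

/-- the hypersurface `{F = 0}` is nonsingular -/
def NonSing (F : MvPolynomial (Fin (n + 1)) k) : Prop :=
  ∀ x : Fin (n + 1) → k, (∀ i, aeval x (pderiv i F) = 0) → x = 0

theorem irreducible_of_nonSing [IsAlgClosed k] (hn : 2 ≤ n) {F : MvPolynomial (Fin (n + 1)) k}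
    {d : ℕ} (hd : 1 ≤ d) (hF : F.IsHomogeneous d) (hsm : NonSing F) : Irreducible F := by
  obtain ⟨m, rfl⟩ : ∃ m, n = m + 1 := ⟨n - 1, by omega⟩
  refine Pool.Agent.TH214.RM.irreducible_of_smooth (n := m) (by omega) F d hd hF fun i => ?_
  rw [← MvPolynomial.vanishingIdeal_zeroLocus_eq_radical (K := k)]
  intro x hx
  have h1 : x = 0 := hsm x fun j => hx _ (Ideal.subset_span ⟨j, rfl⟩)
  rw [aeval_X, h1]
  rfl

/-- monomials of nonsingular hypersurfaces -/
theorem exists_lead {F : MvPolynomial (Fin (n + 1)) k} {d : ℕ} (hd : 2 ≤ d)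
    (hF : F.IsHomogeneous d) (hsm : NonSing F) (j : Fin (n + 1)) :
    ∃ i, Finsupp.single j (d - 1) + Finsupp.single i 1 ∈ F.support := by
  classical
  by_contra hcon
  push Not at hcon
  have h1 : (Pi.single j 1 : Fin (n + 1) → k) = 0 := by
    apply hsm
    intro i
    rw [F.as_sum, map_sum, map_sum]
    refine Finset.sum_eq_zero fun α hα => ?_
    rw [pderiv_monomial, aeval_monomial]
    by_cases h0 : α i = 0
    · rw [h0, Nat.cast_zero, mul_zero, map_zero, zero_mul]
    · -- another variable divides the monomial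
      have h2 : ∃ l, l ≠ j ∧ (α - Finsupp.single i 1 : Fin (n + 1) →₀ ℕ) l ≠ 0 := by
        by_contra hno
        push Not at hno
        apply hcon i
        have h3 : α = Finsupp.single j (d - 1) + Finsupp.single i 1 := by
          have h4 : ∀ l, α l =
              (α - Finsupp.single i 1 + Finsupp.single i 1 : Fin (n + 1) →₀ ℕ) l := by
            intro l
            rw [Finsupp.add_apply, Finsupp.tsub_apply, Finsupp.single_apply]
            split_ifs with h
            · subst h
              omega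
            · omega
          have h5 : α - Finsupp.single i 1 =
              Finsupp.single j ((α - Finsupp.single i 1 : Fin (n + 1) →₀ ℕ) j) := by
            ext l
            rw [Finsupp.single_apply]
            split_ifs with h
            · rw [h]
            · exact hno l fun h' => h h'.symm
          have h6 : α = α - Finsupp.single i 1 + Finsupp.single i 1 := Finsupp.ext h4
          have h7 := exp_deg hF α hα
          rw [h6, h5] at h7
          have h8 : ∑ l, (Finsupp.single j ((α - Finsupp.single i 1 : Fin (n + 1) →₀ ℕ) j) +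
              Finsupp.single i 1 : Fin (n + 1) →₀ ℕ) l =
              (α - Finsupp.single i 1 : Fin (n + 1) →₀ ℕ) j + 1 := by
            simp only [Finsupp.add_apply, Finset.sum_add_distrib, Finsupp.single_apply,
              Finset.sum_ite_eq, Finset.mem_univ, if_true]
          rw [h8] at h7
          rw [h6, h5]
          congr 2
          omega
        rw [← h3]
        exact hα
      obtain ⟨l, hl, hl0⟩ := h2
      rw [Finsupp.prod_fintype _ _ fun i => pow_zero _, Finset.prod_eq_zero (Finset.mem_univ l),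
        mul_zero]
      rw [Pi.single_eq_of_ne hl, zero_pow hl0]
  have h2 := congrFun h1 j
  rw [Pi.single_eq_same] at h2
  exact one_ne_zero h2

/-- nonsingular hypersurfaces with at most `n + 1` monomials -/
theorem dominates_of_nonSing {F : MvPolynomial (Fin (n + 1)) k} {d : ℕ} (hd : 3 ≤ d)
    (hF : F.IsHomogeneous d) (hsm : NonSing F) (hcard : F.support.card ≤ n + 1) :
    (∃ v, Dominates F 1 v) ∧ F.support.card = n + 1 := by
  classical
  choose σ hσ using exists_lead (by omega : 2 ≤ d) hF hsm
  have hval : ∀ i j, (Finsupp.single i (d - 1) + Finsupp.single (σ i) 1 :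
      Fin (n + 1) →₀ ℕ) j = (if i = j then d - 1 else 0) + if σ i = j then 1 else 0 := by
    intro i j
    rw [Finsupp.add_apply, Finsupp.single_apply, Finsupp.single_apply]
  have hinj : Function.Injective fun i : Fin (n + 1) =>
      (Finsupp.single i (d - 1) + Finsupp.single (σ i) 1 : Fin (n + 1) →₀ ℕ) := by
    intro i j hij
    by_contra hne
    have h1 : (Finsupp.single i (d - 1) + Finsupp.single (σ i) 1 : Fin (n + 1) →₀ ℕ) i =
      (Finsupp.single j (d - 1) + Finsupp.single (σ j) 1 : Fin (n + 1) →₀ ℕ) i :=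
      DFunLike.congr_fun hij i
    rw [hval, hval, if_pos rfl, if_neg (Ne.symm hne)] at h1
    split_ifs at h1 <;> omega
  have h1 : (Finset.univ.image fun i : Fin (n + 1) =>
      (Finsupp.single i (d - 1) + Finsupp.single (σ i) 1 : Fin (n + 1) →₀ ℕ)) ⊆ F.support := by
    intro α hα
    obtain ⟨i, -, rfl⟩ := Finset.mem_image.1 hα
    exact hσ i
  have h2 : (Finset.univ.image fun i : Fin (n + 1) =>
      (Finsupp.single i (d - 1) + Finsupp.single (σ i) 1 : Fin (n + 1) →₀ ℕ)).card = n + 1 := by
    rw [Finset.card_image_of_injective _ hinj, Finset.card_univ, Fintype.card_fin]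
  have h3 := Finset.eq_of_subset_of_card_le h1 (by rw [h2]; exact hcard)
  refine ⟨?_, by rw [← h3, h2]⟩
  have hex : ∀ α : Fin (n + 1) →₀ ℕ, ∃ i : Fin (n + 1), (∃ i, d - 1 ≤ α i) → d - 1 ≤ α i := by
    intro α
    by_cases h : ∃ i, d - 1 ≤ α i
    · obtain ⟨i, hi⟩ := h
      exact ⟨i, fun _ => hi⟩
    · exact ⟨0, fun h' => absurd h' h⟩
  choose v hv using hex
  have hvi : ∀ i, v (Finsupp.single i (d - 1) + Finsupp.single (σ i) 1) = i := by
    intro i
    have h1 := hv (Finsupp.single i (d - 1) + Finsupp.single (σ i) 1) ⟨i, by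
      rw [hval, if_pos rfl]
      omega⟩
    by_contra hne
    rw [hval, if_neg (Ne.symm hne)] at h1
    split_ifs at h1 <;> omega
  refine ⟨v, ?_, ?_⟩
  · intro α hα β hβ hαβ
    rw [← h3, Finset.coe_image] at hα hβ
    obtain ⟨i, -, rfl⟩ := hα
    obtain ⟨j, -, rfl⟩ := hβ
    simp only [hvi] at hαβ
    rw [hαβ]
  · intro α hα
    rw [← h3] at hα
    obtain ⟨i, -, rfl⟩ := Finset.mem_image.1 hα
    rw [hvi]
    have h1 : ∑ j, (Finsupp.single i (d - 1) + Finsupp.single (σ i) 1 : Fin (n + 1) →₀ ℕ) j =
        d - 1 + 1 := by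
      rw [Finset.sum_congr rfl fun j _ => hval i j, Finset.sum_add_distrib,
        Finset.sum_ite_eq, Finset.sum_ite_eq]
      simp
    rw [h1, hval, if_pos rfl]
    omega

/-- the Klein hypersurfaces, and more generally sums of loops and Fermat polynomials, are
nonsingular -/
theorem nonSing_loop [CharZero k] {c : Fin (n + 1) → k} (hc : ∀ i, c i ≠ 0)
    (σ : Equiv.Perm (Fin (n + 1))) {d : ℕ} (hd : 3 ≤ d) : NonSing (chainLoop c σ d) := by
  classical
  intro x hx
  -- the derivatives
  let t : Fin (n + 1) → k := fun i => c i * x i ^ (d - 1) * x (σ i)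
  have hder : ∀ l, aeval x (pderiv l (chainLoop c σ d)) =
      c l * ((d - 1 : ℕ) * x l ^ (d - 2)) * x (σ l) + c (σ.symm l) * x (σ.symm l) ^ (d - 1) := by
    intro l
    unfold chainLoop
    rw [map_sum, map_sum]
    have h1 : ∀ i, aeval x (pderiv l (C (c i) * (X i ^ (d - 1) * X (σ i)))) =
        (if i = l then c l * ((d - 1 : ℕ) * x l ^ (d - 2)) * x (σ l) else 0) +
        (if i = σ.symm l then c (σ.symm l) * x (σ.symm l) ^ (d - 1) else 0) := by
      intro i
      rw [Derivation.leibniz, Derivation.leibniz, Derivation.leibniz_pow, pderiv_C, pderiv_X,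
        pderiv_X]
      have e1 : i = σ.symm l ↔ σ i = l := by
        rw [Equiv.eq_symm_apply]
      have e2 : (d - 1 - 1 : ℕ) = d - 2 := by omega
      simp only [smul_zero, add_zero, smul_eq_mul, map_add, map_mul, map_pow, aeval_X, aeval_C,
        nsmul_eq_mul, map_natCast, Algebra.algebraMap_self, RingHom.id_apply, e2]
      by_cases h2 : i = l
      · subst h2
        by_cases h3 : σ i = i
        · have h4 : σ.symm i = i := by rw [Equiv.symm_apply_eq, h3]
          simp [Pi.single_apply, h3, h4]
          ring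
        · have h4 : ¬ i = σ.symm i := fun h => h3 (e1.1 h)
          simp [Pi.single_apply, h3, h4]
          ring
      · by_cases h3 : σ i = l
        · have h4 : i = σ.symm l := e1.2 h3
          have h5 : ¬ σ.symm l = l := fun h => h2 (h4.trans h)
          simp [h5, h4, Pi.single_apply]
        · have h4 : ¬ i = σ.symm l := fun h => h3 (e1.1 h)
          simp [h2, h3, h4, Pi.single_apply]
    rw [Finset.sum_congr rfl fun i _ => h1 i, Finset.sum_add_distrib, Finset.sum_ite_eq',
      Finset.sum_ite_eq', if_pos (Finset.mem_univ _), if_pos (Finset.mem_univ _)]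
  have hrel : ∀ l, (d - 1 : ℕ) * t l + t (σ.symm l) = 0 := by
    intro l
    have h1 := hx l
    rw [hder] at h1
    have h2 : ((d - 1 : ℕ) : k) * t l + t (σ.symm l) =
        x l * (c l * ((d - 1 : ℕ) * x l ^ (d - 2)) * x (σ l) +
          c (σ.symm l) * x (σ.symm l) ^ (d - 1)) := by
      simp only [t, Equiv.apply_symm_apply]
      have h3 : x l ^ (d - 1) = x l * x l ^ (d - 2) := by
        rw [← pow_succ']
        congr 1
        omega
      rw [h3]
      ring
    rw [h2, h1, mul_zero]
  -- the terms vanish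
  have ht : ∀ l, t l = 0 := by
    have h1 : ∀ (m : ℕ) l, t ((σ.symm ^ m : Equiv.Perm (Fin (n + 1))) l) =
        (-((d - 1 : ℕ) : k)) ^ m * t l := by
      intro m
      induction m with
      | zero => intro l; simp
      | succ m ih =>
        intro l
        rw [pow_succ', Equiv.Perm.mul_apply]
        have h2 := hrel ((σ.symm ^ m : Equiv.Perm (Fin (n + 1))) l)
        have h3 : t (σ.symm ((σ.symm ^ m : Equiv.Perm (Fin (n + 1))) l)) =
            -((d - 1 : ℕ) : k) * t ((σ.symm ^ m : Equiv.Perm (Fin (n + 1))) l) := by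
          linear_combination h2
        rw [h3, ih, pow_succ]
        ring
    intro l
    have h2 := h1 (orderOf (σ.symm : Equiv.Perm (Fin (n + 1)))) l
    rw [pow_orderOf_eq_one, Equiv.Perm.one_apply] at h2
    set m := orderOf (σ.symm : Equiv.Perm (Fin (n + 1))) with hm
    have hm0 : 0 < m := orderOf_pos _
    by_contra h0
    have h3 : (-((d - 1 : ℕ) : k)) ^ m = 1 := by
      have h4 : (1 - (-((d - 1 : ℕ) : k)) ^ m) * t l = 0 := by
        linear_combination h2
      rcases mul_eq_zero.1 h4 with h5 | h5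
      · exact (sub_eq_zero.1 h5).symm
      · exact absurd h5 h0
    have h4 : ((((d - 1 : ℕ) : ℤ) ^ m) ^ 2 : ℤ) = 1 := by
      have h5 : ((-((d - 1 : ℕ) : k)) ^ m) ^ 2 = 1 := by rw [h3, one_pow]
      have h6 : ((-((d - 1 : ℕ) : k)) ^ m) ^ 2 = (((((d - 1 : ℕ) : ℤ) ^ m) ^ 2 : ℤ) : k) := by
        push_cast
        rw [← pow_mul, ← pow_mul, Even.neg_pow ⟨m, by ring⟩]
      rw [h6] at h5
      exact_mod_cast h5
    have h5 : (2 : ℤ) ≤ ((d - 1 : ℕ) : ℤ) ^ m := by
      have h6 : (2 : ℤ) ≤ ((d - 1 : ℕ) : ℤ) := by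
        have : 2 ≤ d - 1 := by omega
        exact_mod_cast this
      calc (2 : ℤ) ≤ ((d - 1 : ℕ) : ℤ) := h6
        _ ≤ ((d - 1 : ℕ) : ℤ) ^ m := le_self_pow₀ (by linarith) hm0.ne'
    nlinarith
  -- the coordinates vanish
  funext l
  by_contra h0
  change x l ≠ 0 at h0
  have h1 : x (σ l) = 0 := by
    have h2 := ht l
    simp only [t] at h2
    rcases mul_eq_zero.1 h2 with h3 | h3
    · exact absurd h3 (mul_ne_zero (hc l) (pow_ne_zero _ h0))
    · exact h3
  have h2 := hx (σ l)
  rw [hder, Equiv.symm_apply_apply, h1, zero_pow (by omega : d - 2 ≠ 0), mul_zero, mul_zero,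
    zero_mul, zero_add] at h2
  exact mul_ne_zero (hc l) (pow_ne_zero _ h0) h2

end Pool.Agent.R869.Wd
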