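import Pool.Agent.R869.WLang
import Pool.Agent.TH182.TC.Core

/-!
Images of complex tori in wide projective varieties.
-/

set_option autoImplicit false

namespace Pool.Agent.R869.Wd

open MvPolynomial Filter Topology Set
open scoped LinearAlgebra.Projectivization PeriodPair
open Pool.Agent.TH182.TC Pool.Agent.W602.GT Pool.Agent.W603.BP Pool.Agent.H159R3.GGLLog

variable {N : ℕ} {ι : Type}

/-- `g` is a nonconstant holomorphic map from the complex torus `ℂⁿ / Λ` to `X = {F = 0}`. The
lattice `Λ` is generated by a basis `b` of the real vector space `ℂⁿ`. -/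
def TorusMap (F : ι → MvPolynomial (Fin (N + 1)) ℂ) (n : ℕ)
    (b : Module.Basis (Fin (2 * n)) ℝ (Fin n → ℂ)) (g : (Fin n → ℂ) → PS N) : Prop :=
  Holo g ∧ (∀ z, OnX F (g z)) ∧ (∀ z i, g (z + b i) = g z) ∧ ∃ z w, g z ≠ g w

/-- `g` is a nonconstant holomorphic map from the one-dimensional complex torus
`ℂ / (ℤ w1 + ℤ w2)` to `X = {F = 0}`. -/
def EllMap (F : ι → MvPolynomial (Fin (N + 1)) ℂ) (w1 w2 : ℂ) (g : ℂ → PS N) : Prop :=
  LinearIndependent ℝ ![w1, w2] ∧ Holo g ∧ (∀ z, OnX F (g z)) ∧ (∀ z, g (z + w1) = g z) ∧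
    (∀ z, g (z + w2) = g z) ∧ ∃ z w, g z ≠ g w

/-- The Zariski closure (as a cone) of the union of the images of the nonconstant holomorphic maps
from complex tori to `X = {F = 0}`. -/
def SpTorus (F : ι → MvPolynomial (Fin (N + 1)) ℂ) : Set (Fin (N + 1) → ℂ) :=
  {x | x ∈ Cone F ∧ ∀ G : MvPolynomial (Fin (N + 1)) ℂ, IsForm G →
    (∀ n b g, TorusMap F n b g → ∀ z, eval (g z).rep G = 0) → eval x G = 0}

/-- The Zariski closure (as a cone) of the union of the images of the nonconstant holomorphic maps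
from one-dimensional complex tori to `X = {F = 0}`. -/
def SpEll (F : ι → MvPolynomial (Fin (N + 1)) ℂ) : Set (Fin (N + 1) → ℂ) :=
  {x | x ∈ Cone F ∧ ∀ G : MvPolynomial (Fin (N + 1)) ℂ, IsForm G →
    (∀ w1 w2 g, EllMap F w1 w2 g → ∀ z, eval (g z).rep G = 0) → eval x G = 0}

/-- a rational curve composed with a Weierstrass function; the proof is that of
`Pool.Agent.TH182.TC.no_rational` -/
theorem elliptic_of_rational {F : ι → MvPolynomial (Fin (N + 1)) ℂ}
    (hF : ∀ i, ∃ d, (F i).IsHomogeneous d)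
    (P : Fin (N + 1) → Polynomial ℂ) (hP : ∀ t, ∃ j, (P j).eval t ≠ 0)
    (hPF : ∀ t i, eval (fun j => (P j).eval t) (F i) = 0) :
    ∃ (L : PeriodPair) (g : ℂ → PS N), Holo g ∧ (∀ z, OnX F (g z)) ∧
      (∀ z, g (z + L.ω₁) = g z) ∧ (∀ z, g (z + L.ω₂) = g z) ∧
      ∀ z ∉ (L.lattice : Set ℂ), ∃ h, g z =
        Projectivization.mk ℂ (fun j => (P j).eval (℘[L] z)) h := by
  classical
  let L : PeriodPair := ⟨1, Complex.I, by
    have := Complex.basisOneI.linearIndependent
    rwa [Complex.coe_basisOneI] at this⟩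
  set d := Finset.univ.sup fun j => (P j).natDegree with hd
  have hdj : ∀ j, (P j).natDegree ≤ d := fun j => Finset.le_sup (f := fun j => (P j).natDegree) (Finset.mem_univ j)
  let H : ℂ → ℂ → Fin (N + 1) → ℂ := fun s t j => hom d (P j) s t
  have hH : ∀ s t, s ≠ 0 → H s t = s ^ d • fun j => (P j).eval (t / s) := by
    intro s t hs
    funext j
    exact hom_eval (hdj j) hs t
  have hHne : ∀ s t, s ≠ 0 → H s t ≠ 0 := by
    intro s t hs h0
    obtain ⟨j, hj⟩ := hP (t / s)
    have h1 := congrFun h0 j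
    rw [hH s t hs] at h1
    exact (mul_ne_zero (pow_ne_zero d hs) hj) h1
  -- some coefficient of degree d is nonzero
  have hlead : ∃ j, (P j).coeff d ≠ 0 := by
    obtain ⟨j, -, hj⟩ := Finset.exists_mem_eq_sup (Finset.univ : Finset (Fin (N + 1)))
      Finset.univ_nonempty (fun j => (P j).natDegree)
    rw [← hd] at hj
    by_cases hd0 : d = 0
    · obtain ⟨l, hl⟩ := hP 0
      refine ⟨l, ?_⟩
      have h1 : (P l).natDegree = 0 := Nat.le_zero.mp (hd0 ▸ hdj l)
      rw [hd0]
      rw [Polynomial.eq_C_of_natDegree_eq_zero h1, Polynomial.eval_C] at hl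
      exact hl
    · refine ⟨j, ?_⟩
      rw [hj]
      intro h
      rw [Polynomial.coeff_natDegree, Polynomial.leadingCoeff_eq_zero] at h
      rw [h, Polynomial.natDegree_zero] at hj
      exact hd0 hj
  have hH0 : ∀ t, t ≠ 0 → H 0 t ≠ 0 := by
    intro t ht h0
    obtain ⟨j, hj⟩ := hlead
    have h1 := congrFun h0 j
    change hom d (P j) 0 t = 0 at h1
    rw [hom_zero] at h1
    exact (mul_ne_zero hj (pow_ne_zero d ht)) h1
  have hcont : ∀ t, Continuous fun s => H s t := by
    intro t
    refine continuous_pi fun j => ?_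
    change Continuous fun s => ∑ i ∈ Finset.range (d + 1), (P j).coeff i * t ^ i * s ^ (d - i)
    fun_prop
  have hHF : ∀ s t i, eval (H s t) (F i) = 0 := by
    intro s t i
    obtain ⟨e, he⟩ := hF i
    have h1 : ∀ s, s ≠ 0 → eval (H s t) (F i) = 0 := by
      intro s hs
      rw [hH s t hs, eval_smul_of_homog he, hPF, mul_zero]
    have h2 : Continuous fun s => eval (H s t) (F i) :=
      (MvPolynomial.continuous_eval (F i)).comp (hcont t)
    have h3 : (fun s => eval (H s t) (F i)) = fun _ => 0 :=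
      h2.ext_on (dense_compl_singleton (0 : ℂ)) continuous_const (fun s hs => h1 s hs)
    exact congrFun h3 s
  -- the map
  let v : ℂ → Fin (N + 1) → ℂ := fun z => if z ∈ L.lattice then H 0 1 else H 1 (℘[L] z)
  have hv : ∀ z, v z ≠ 0 := by
    intro z
    simp only [v]
    split_ifs
    · exact hH0 1 one_ne_zero
    · exact hHne _ _ one_ne_zero
  let g : ℂ → PS N := fun z => Projectivization.mk ℂ (v z) (hv z)
  have hgX : ∀ z, OnX F (g z) := by
    intro z
    rw [onX_mk hF]
    intro i
    simp only [v]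
    split_ifs <;> exact hHF _ _ _
  have hHan : ∀ (a b : ℂ → ℂ) (z : ℂ), AnalyticAt ℂ a z → AnalyticAt ℂ b z →
      AnalyticAt ℂ (fun w => H (a w) (b w)) z := by
    intro a b z ha hb
    rw [analyticAt_pi_iff]
    intro j
    change AnalyticAt ℂ (fun w => ∑ i ∈ Finset.range (d + 1),
      (P j).coeff i * b w ^ i * a w ^ (d - i)) z
    apply Finset.analyticAt_fun_sum
    intro i _
    exact (analyticAt_const.fun_mul (hb.fun_pow i)).fun_mul (ha.fun_pow _)
  have hgh : Holo g := by
    intro z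
    by_cases hz : z ∈ L.lattice
    · let a : ℂ → ℂ := fun w => (w - z) ^ 2
      let c : ℂ → ℂ := fun w => (w - z) ^ 2 * ℘[L - z] w + 1 - (w - z) ^ 2 / z ^ 2
      have ha : AnalyticAt ℂ a z := by
        change AnalyticAt ℂ (fun w => (w - z) ^ 2) z
        fun_prop
      have hc : AnalyticAt ℂ c z := by
        have h1 : AnalyticAt ℂ ℘[L - z] z := L.analyticAt_weierstrassPExcept z
        have h2 : AnalyticAt ℂ (fun w : ℂ => (w - z) ^ 2 / z ^ 2) z := by
          have : AnalyticAt ℂ (fun w : ℂ => (w - z) ^ 2 * (z ^ 2)⁻¹) z := by fun_prop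
          simpa only [div_eq_mul_inv] using this
        change AnalyticAt ℂ (fun w => (w - z) ^ 2 * ℘[L - z] w + 1 - (w - z) ^ 2 / z ^ 2) z
        fun_prop
      refine ⟨fun w => H (a w) (c w), hHan a c z ha hc, ?_⟩
      filter_upwards [L.compl_lattice_sdiff_singleton_mem_nhds z] with w hw
      by_cases hwz : w = z
      · subst hwz
        have h1 : a w = 0 := by simp [a]
        have h2 : c w = 1 := by simp [c]
        have h3 : H (a w) (c w) = v w := by
          rw [h1, h2]
          simp only [v, if_pos hz]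
        refine ⟨by rw [h3]; exact hv w, ?_⟩
        simp only [g, h3]
      · have hwL : w ∉ L.lattice := fun h => hw ⟨h, hwz⟩
        have h1 : a w ≠ 0 := pow_ne_zero 2 (sub_ne_zero.mpr hwz)
        have h2 : c w = a w * ℘[L] w := by
          have := L.ite_eq_one_sub_sq_mul_weierstrassP z hz w
          rw [if_neg hwz] at this
          exact this.symm
        have h3 : H (a w) (c w) ≠ 0 := hHne _ _ h1
        refine ⟨h3, ?_⟩
        simp only [g]
        rw [Projectivization.mk_eq_mk_iff']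
        refine ⟨(a w ^ d)⁻¹, ?_⟩
        simp only [v, if_neg hwL]
        rw [hH _ _ h1, hH _ _ one_ne_zero, h2, smul_smul, inv_mul_cancel₀ (pow_ne_zero d h1),
          one_pow, div_one, mul_div_cancel_left₀ _ h1]
    · refine ⟨fun w => H 1 (℘[L] w), hHan _ _ z analyticAt_const
        (L.analyticOnNhd_weierstrassP z hz), ?_⟩
      have hopen : ((L.lattice : Set ℂ)ᶜ) ∈ 𝓝 z := L.isClosed_lattice.isOpen_compl.mem_nhds hz
      filter_upwards [hopen] with w hw
      have h3 : v w = H 1 (℘[L] w) := if_neg hw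
      refine ⟨hHne _ _ one_ne_zero, ?_⟩
      simp only [g, h3]
  have hper : ∀ l ∈ L.lattice, ∀ z, g (z + l) = g z := by
    intro l hl z
    have h1 : v (z + l) = v z := by
      simp only [v]
      have h2 : z + l ∈ L.lattice ↔ z ∈ L.lattice := by
        constructor
        · intro h
          have := L.lattice.sub_mem h hl
          rwa [add_sub_cancel_right] at this
        · intro h
          exact L.lattice.add_mem h hl
      simp only [h2]
      rw [L.weierstrassP_add_coe z ⟨l, hl⟩]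
    simp only [g, h1]
  refine ⟨L, g, hgh, hgX, hper _ L.ω₁_mem_lattice, hper _ L.ω₂_mem_lattice, fun z hz => ?_⟩
  have h4 : v z = fun j => (P j).eval (℘[L] z) := by
    have h5 : v z = H 1 (℘[L] z) := if_neg hz
    rw [h5, hH _ _ one_ne_zero]
    funext j
    rw [Pi.smul_apply, one_pow, one_smul, div_one]
  have h6 : (fun j => (P j).eval (℘[L] z)) ≠ 0 := by
    rw [← h4]
    exact hv z
  refine ⟨h6, ?_⟩
  simp only [g, h4]

theorem eval_polyN (p : Fin (N + 1) → Polynomial ℂ) (G : MvPolynomial (Fin (N + 1)) ℂ)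
    (t : ℂ) : (MvPolynomial.aeval p G).eval t = MvPolynomial.eval (fun i => (p i).eval t) G := by
  have h1 : (Polynomial.aeval t : Polynomial ℂ →ₐ[ℂ] ℂ).comp (MvPolynomial.aeval p) =
      MvPolynomial.aeval (fun i => (p i).eval t) := by
    apply MvPolynomial.algHom_ext
    intro i
    simp
  have h2 := DFunLike.congr_fun h1 G
  rw [AlgHom.comp_apply, Polynomial.coe_aeval_eq_eval] at h2
  rw [h2, MvPolynomial.aeval_eq_eval]

/-- a form which vanishes on the images of the elliptic curves vanishes on the rational curves -/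
theorem vanish_rational {F : ι → MvPolynomial (Fin (N + 1)) ℂ}
    (hF : ∀ i, ∃ d, (F i).IsHomogeneous d)
    {P : Fin (N + 1) → Polynomial ℂ} (hP : ∀ t, ∃ j, (P j).eval t ≠ 0)
    (hPF : ∀ t i, eval (fun j => (P j).eval t) (F i) = 0)
    {s0 t0 : ℂ} {j0 k0 : Fin (N + 1)}
    (hne : (P j0).eval s0 * (P k0).eval t0 ≠ (P k0).eval s0 * (P j0).eval t0)
    {G : MvPolynomial (Fin (N + 1)) ℂ} (hG : ∃ d, G.IsHomogeneous d)
    (hGv : ∀ w1 w2 g, EllMap F w1 w2 g → ∀ z, eval (g z).rep G = 0) (t : ℂ) :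
    eval (fun j => (P j).eval t) G = 0 := by
  classical
  obtain ⟨L, g, hgh, hgX, hg1, hg2, hgP⟩ := elliptic_of_rational hF P hP hPF
  set S : Set ℂ := ℘[L] '' (L.lattice : Set ℂ)ᶜ with hS
  have hSinf : S.Infinite := infinite_range L
  have hnc : ∃ z w, g z ≠ g w := by
    by_contra hconst
    push Not at hconst
    have hSP : ∀ a ∈ S, ∀ b ∈ S, ∀ j k,
        (P j).eval a * (P k).eval b = (P k).eval a * (P j).eval b := by
      rintro _ ⟨z, hz, rfl⟩ _ ⟨w, hw, rfl⟩ j k
      obtain ⟨h1, h2⟩ := hgP z hz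
      obtain ⟨h3, h4⟩ := hgP w hw
      have h5 := hconst z w
      rw [h2, h4, mk_eq_mk_iff_minors] at h5
      exact h5 j k
    have hpoly : ∀ a ∈ S, ∀ j k,
        Polynomial.C ((P j).eval a) * P k = Polynomial.C ((P k).eval a) * P j := by
      intro a ha j k
      apply Polynomial.eq_of_infinite_eval_eq
      refine hSinf.mono fun b hb => ?_
      simp only [Set.mem_ofPred_eq, Polynomial.eval_mul, Polynomial.eval_C]
      exact hSP a ha b hb j k
    apply hne
    have h5 : Polynomial.C ((P k0).eval t0) * P j0 = Polynomial.C ((P j0).eval t0) * P k0 := by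
      apply Polynomial.eq_of_infinite_eval_eq
      refine hSinf.mono fun a ha => ?_
      simp only [Set.mem_ofPred_eq, Polynomial.eval_mul, Polynomial.eval_C]
      have := congrArg (Polynomial.eval t0) (hpoly a ha j0 k0)
      simp only [Polynomial.eval_mul, Polynomial.eval_C] at this
      linear_combination this
    have h6 := congrArg (Polynomial.eval s0) h5
    simp only [Polynomial.eval_mul, Polynomial.eval_C] at h6
    linear_combination h6
  have h1 := hGv _ _ g ⟨L.indep, hgh, hgX, hg1, hg2, hnc⟩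
  have h2 : aeval P G = 0 := by
    apply Polynomial.eq_of_infinite_eval_eq
    refine hSinf.mono ?_
    rintro _ ⟨z, hz, rfl⟩
    obtain ⟨h3, h4⟩ := hgP z hz
    have h5 : OnX (fun _ : Unit => G) (g z) := fun _ => h1 z
    rw [h4, onX_mk fun _ => hG] at h5
    rw [Set.mem_ofPred_eq, eval_polyN, Polynomial.eval_zero]
    exact h5 ()
  rw [← eval_polyN, h2, Polynomial.eval_zero]

/-- the images of the multiplicative group lie in the closure of the images of the elliptic curves -/
theorem gm_sub_ell {F : ι → MvPolynomial (Fin (N + 1)) ℂ} (hF : ∀ e, IsForm (F e)) :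
    SpGm F ⊆ SpEll F := by
  classical
  rintro x ⟨hx, h⟩
  refine ⟨hx, fun G hG hGv => ?_⟩
  have h0 : ∀ p, GmCurve F p → ∀ t : ℂ, t ≠ 0 → val (fun i => (p i).eval t) G = 0 := by
    intro p hP t ht
    obtain ⟨g, hg⟩ : ∃ g : Polynomial ℂ, Ideal.span (Set.range p) = Ideal.span {g} :=
      (IsPrincipalIdealRing.principal (Ideal.span (Set.range p))).principal
    have hdvd : ∀ i, g ∣ p i := by
      intro i
      rw [← Ideal.mem_span_singleton, ← hg]
      exact Ideal.subset_span ⟨i, rfl⟩
    choose e he using hdvd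
    have hg0 : g ≠ 0 := by
      intro h0
      apply hP.ne 1 one_ne_zero
      funext i
      rw [he i, h0]
      simp
    obtain ⟨c, hc⟩ : ∃ c : Fin (N + 1) → Polynomial ℂ, ∑ i, c i * p i = g := by
      have h1 : g ∈ Ideal.span (Set.range p) := by
        rw [hg]
        exact Ideal.mem_span_singleton_self g
      exact Ideal.mem_span_range_iff_exists_fun.1 h1
    have hc1 : ∑ i, c i * e i = 1 := by
      apply mul_left_cancel₀ hg0
      rw [mul_one, Finset.mul_sum]
      conv_rhs => rw [← hc]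
      refine Finset.sum_congr rfl fun i _ => ?_
      conv_rhs => rw [he i]
      ring
    have hne : ∀ t, ∃ j, (e j).eval t ≠ 0 := by
      intro t
      by_contra hcon
      push Not at hcon
      have h1 := congrArg (Polynomial.eval t) hc1
      rw [Polynomial.eval_finsetSum, Polynomial.eval_one] at h1
      rw [Finset.sum_eq_zero fun i _ => by rw [Polynomial.eval_mul, hcon i, mul_zero]] at h1
      exact zero_ne_one h1
    have hmem : ∀ t i, MvPolynomial.eval (fun j => (e j).eval t) (F i) = 0 := by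
      intro t i
      obtain ⟨d, hd⟩ := hF i
      have h0 : Polynomial.X * g ^ d * MvPolynomial.aeval e (F i) = 0 := by
        apply Polynomial.funext
        intro t
        rw [Polynomial.eval_mul, Polynomial.eval_mul, Polynomial.eval_X, Polynomial.eval_pow,
          eval_polyN, Polynomial.eval_zero]
        by_cases ht : t = 0
        · rw [ht, zero_mul, zero_mul]
        · have h1 := val_smul hd (g.eval t) (fun i => (e i).eval t)
          have h2 : (fun i => g.eval t * (e i).eval t) = fun i => (p i).eval t := by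
            funext i
            rw [he i, Polynomial.eval_mul]
          rw [h2, hP.mem t ht i] at h1
          unfold Pool.Agent.W602.GT.val at h1
          rw [MvPolynomial.aeval_eq_eval] at h1
          rw [mul_assoc]
          exact mul_eq_zero_of_right _ h1.symm
      have h1 := (mul_eq_zero.1 h0).resolve_left
        (mul_ne_zero Polynomial.X_ne_zero (pow_ne_zero _ hg0))
      rw [← eval_polyN, h1, Polynomial.eval_zero]
    have hpt : ∀ t i, (p i).eval t = g.eval t * (e i).eval t := by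
      intro t i
      rw [he i, Polynomial.eval_mul]
    have hgt : ∀ t, t ≠ 0 → g.eval t ≠ 0 := by
      intro t ht h0
      apply hP.ne t ht
      funext i
      rw [hpt, h0, zero_mul]
      rfl
    -- the curve is not constant
    obtain ⟨t1, t2, ht1, ht2, hli⟩ := hP.nonconst
    have hnc : ∃ j k, (e j).eval t1 * (e k).eval t2 ≠ (e k).eval t1 * (e j).eval t2 := by
      by_contra key
      push Not at key
      rw [LinearIndependent.pair_iff] at hli
      obtain ⟨k, hk⟩ := hne t2
      have h1 := hli (g.eval t2 * (e k).eval t2) (-(g.eval t1 * (e k).eval t1)) (by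
        funext i
        simp only [Pi.add_apply, Pi.smul_apply, smul_eq_mul, Pi.zero_apply]
        rw [hpt, hpt]
        linear_combination g.eval t1 * g.eval t2 * key i k)
      exact mul_ne_zero (hgt t2 ht2) hk h1.1
    obtain ⟨j, k, hjk⟩ := hnc
    have h1 := vanish_rational hF hne hmem hjk hG hGv t
    obtain ⟨d, hd⟩ := hG
    have h2 := val_smul hd (g.eval t) (fun i => (e i).eval t)
    have h3 : (fun i => g.eval t * (e i).eval t) = fun i => (p i).eval t := by
      funext i
      rw [hpt]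
    rw [h3] at h2
    rw [h2, val_eval, h1, mul_zero]
  have h1 := h G hG h0
  rwa [val_eval] at h1

theorem ell_sub_torus (F : ι → MvPolynomial (Fin (N + 1)) ℂ) : SpEll F ⊆ SpTorus F := by
  rintro x ⟨hx, h⟩
  refine ⟨hx, fun G hG hGv => h G hG fun w1 w2 f hf z => ?_⟩
  obtain ⟨hw, hfh, hfX, h1, h2, z1, z2, hne⟩ := hf
  let L : PeriodPair := ⟨w1, w2, hw⟩
  let e : ℂ ≃ₗ[ℝ] (Fin 1 → ℂ) := (LinearEquiv.funUnique (Fin 1) ℝ ℂ).symm
  let b : Module.Basis (Fin (2 * 1)) ℝ (Fin 1 → ℂ) := L.basis.map e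
  have hb : ∀ i, (b i) 0 = ![w1, w2] i := by
    intro i
    have h3 : b i = e (L.basis i) := Module.Basis.map_apply _ _ _
    rw [h3]
    have h4 : ∀ x, e x 0 = x := fun x => rfl
    rw [h4]
    fin_cases i
    · exact L.basis_zero
    · exact L.basis_one
  have key := hGv 1 b (fun z => f (z 0)) ⟨by
    intro z
    obtain ⟨φ, hφ, hev⟩ := hfh (z 0)
    refine ⟨fun x => φ (x 0), ?_, ?_⟩
    · have h5 : AnalyticAt ℂ (fun x : Fin 1 → ℂ => x 0) z :=
        (ContinuousLinearMap.proj (R := ℂ) (φ := fun _ : Fin 1 => ℂ) 0).analyticAt z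
      exact AnalyticAt.fun_comp (g := φ) (f := fun x : Fin 1 → ℂ => x 0) (x := z) hφ h5
    · have h5 : Tendsto (fun x : Fin 1 → ℂ => x 0) (𝓝 z) (𝓝 (z 0)) :=
        (continuous_apply 0).tendsto z
      exact h5.eventually hev,
    fun z => hfX _, by
      intro z i
      change f ((z + b i) 0) = f (z 0)
      rw [Pi.add_apply, hb]
      fin_cases i
      · exact h1 _
      · exact h2 _, fun _ => z1, fun _ => z2, hne⟩
  exact key fun _ => z

open Pool.Agent.Y190.OP in
theorem torus_sub_hol (F : ι → MvPolynomial (Fin (N + 1)) ℂ) (hF : ∀ e, IsForm (F e)) :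
    SpTorus F ⊆ SpH ∅ F := by
  rintro x ⟨hx, h⟩
  refine ⟨by rw [← cone_eq, cone_iff]; exact hx, fun G hG hGv => h G hG ?_⟩
  rintro n b g ⟨hg, hX, -, z1, z2, hne⟩ z
  obtain ⟨w, hw⟩ : ∃ w, g z ≠ g w := by
    by_contra hcon
    push Not at hcon
    exact hne ((hcon z1).symm.trans (hcon z2))
  set A : ℂ → (Fin n → ℂ) := fun t => z + t • (w - z) with hA
  have hAd : Differentiable ℂ A :=
    (differentiable_const z).add (differentiable_id.smul_const (w - z))
  have hH : HolP univ fun t => Phi (g (A t)).rep := by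
    intro t0 _
    obtain ⟨ψ, hψ, hev⟩ := hg (A t0)
    have h1 : AnalyticAt ℂ (fun t => ψ (A t)) t0 := hψ.comp (hAd.analyticAt t0)
    have h2 : ∀ᶠ t in 𝓝 t0, AnalyticAt ℂ (fun t => ψ (A t)) t := h1.eventually_analyticAt
    have h3 : ∀ᶠ t in 𝓝 t0, ∃ h : ψ (A t) ≠ 0, g (A t) = Projectivization.mk ℂ (ψ (A t)) h :=
      hAd.continuous.continuousAt.eventually hev
    obtain ⟨V, hVsub, hV, hzV⟩ := _root_.mem_nhds_iff.1 (h2.and h3)
    refine ⟨V, fun t => ψ (A t), hV, hzV, fun t ht =>
      (hVsub ht).1.differentiableAt.differentiableWithinAt, fun t ht => ?_⟩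
    obtain ⟨h4, h5⟩ := (hVsub ht).2
    refine ⟨h4, ?_⟩
    change Phi (g (A t)).rep = Phi (ψ (A t))
    rw [h5]
    obtain ⟨a, ha⟩ := Projectivization.exists_smul_eq_mk_rep ℂ _ h4
    have ha' : (Projectivization.mk ℂ _ h4).rep = (a : ℂ) • ψ (A t) := ha.symm
    rw [ha', Phi_smul a.ne_zero]
  obtain ⟨f, hf, hf0, hfφ⟩ := zero_free hH
  have hprop : ∀ t, ∃ c : ℂ, c ≠ 0 ∧ f t = c • (g (A t)).rep := fun t =>
    Phi_inj (Projectivization.rep_nonzero _) (hf0 t) (hfφ t)
  have hcurve : EntireCurve ∅ F f := by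
    refine ⟨hf, fun t => ⟨hf0 t, fun j hj => absurd hj (Set.notMem_empty j), fun e => ?_⟩, 0, 1,
      fun c hc => hw ?_⟩
    · obtain ⟨c, hc0, hc⟩ := hprop t
      obtain ⟨d, hd⟩ := hF e
      rw [hc, eval_smul_of_homog hd, hX _ e, mul_zero]
    · obtain ⟨c0, hc0, e0⟩ := hprop 0
      obtain ⟨c1, hc1, e1⟩ := hprop 1
      have a0 : A 0 = z := by simp [hA]
      have a1 : A 1 = w := by simp [hA]
      rw [a0] at e0
      rw [a1] at e1
      rw [← Projectivization.mk_rep (g z), ← Projectivization.mk_rep (g w),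
        Projectivization.mk_eq_mk_iff']
      refine ⟨c0⁻¹ * (c * c1), ?_⟩
      have h4 : (g z).rep = c0⁻¹ • f 0 := by
        rw [e0, smul_smul, inv_mul_cancel₀ hc0, one_smul]
      rw [h4, hc, e1]
      simp only [smul_smul, mul_assoc]
  have h5 := hGv f hcurve 0
  obtain ⟨c0, hc0, e0⟩ := hprop 0
  have a0 : A 0 = z := by simp [hA]
  rw [a0] at e0
  obtain ⟨d, hd⟩ := hG
  rw [e0, eval_smul_of_homog hd] at h5
  exact (mul_eq_zero.1 h5).resolve_left (pow_ne_zero _ hc0)

/-- **Images of complex tori in wide varieties.** -/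
theorem torus_eq {F : ι → MvPolynomial (Fin (N + 1)) ℂ} {s M : ℕ} (hC : Sys ∅ F s M) :
    SpEll F = SpH ∅ F ∧ SpTorus F = SpH ∅ F ∧ SpGm F = SpH ∅ F := by
  have h1 := gm_sub_ell hC.form
  have h2 := ell_sub_torus F
  have h3 := torus_sub_hol F hC.form
  have e1 := (special_hol hC).1
  have e2 := (special_orb hC).2
  have h4 : SpH ∅ F = SpGm F := by rw [e1, e2]
  have h5 : SpH ∅ F ⊆ SpEll F := h4.subset.trans h1
  exact ⟨Set.Subset.antisymm (h2.trans h3) h5, Set.Subset.antisymm h3 (h5.trans h2), h4.symm⟩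

theorem ell_empty_iff {F : ι → MvPolynomial (Fin (N + 1)) ℂ} (hF : ∀ e, IsForm (F e)) :
    SpEll F = ∅ ↔ EllipticRigid F := by
  constructor
  · intro h w1 w2 hw g hg hX h1 h2 z w
    by_contra hne
    have hm : EllMap F w1 w2 g := ⟨hw, hg, hX, h1, h2, z, w, hne⟩
    have hx : (g z).rep ∈ SpEll F := by
      refine ⟨⟨Projectivization.rep_nonzero _, fun e => ?_⟩, fun G _ hG => hG w1 w2 g hm z⟩
      rw [val_eval]
      exact hX z e
    rw [h] at hx
    exact hx
  · intro h
    rw [Set.eq_empty_iff_forall_notMem]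
    rintro x ⟨-, hx⟩
    have h1 := hx 1 ⟨0, isHomogeneous_one _ _⟩ fun w1 w2 g hg z => by
      obtain ⟨hw, hgh, hX, h1, h2, z1, z2, hne⟩ := hg
      exact absurd (h w1 w2 hw g hgh hX h1 h2 z1 z2) hne
    rw [map_one] at h1
    exact one_ne_zero h1

theorem torus_empty_iff {F : ι → MvPolynomial (Fin (N + 1)) ℂ} (hF : ∀ e, IsForm (F e)) :
    SpTorus F = ∅ ↔ TorusRigid F := by
  constructor
  · intro h n b g hg hX h1 z w
    by_contra hne
    have hm : TorusMap F n b g := ⟨hg, hX, h1, z, w, hne⟩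
    have hx : (g z).rep ∈ SpTorus F := by
      refine ⟨⟨Projectivization.rep_nonzero _, fun e => ?_⟩, fun G _ hG => hG n b g hm z⟩
      rw [val_eval]
      exact hX z e
    rw [h] at hx
    exact hx
  · intro h
    rw [Set.eq_empty_iff_forall_notMem]
    rintro x ⟨-, hx⟩
    have h1 := hx 1 ⟨0, isHomogeneous_one _ _⟩ fun n b g hg z => by
      obtain ⟨hgh, hX, h1, z1, z2, hne⟩ := hg
      exact absurd (h n b g hgh hX h1 z1 z2) hne
    rw [map_one] at h1
    exact one_ne_zero h1

/-- **Maps from complex tori and hyperbolicity of wide varieties.** -/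
theorem torus_tfae {F : ι → MvPolynomial (Fin (N + 1)) ℂ} {s M : ℕ} (hC : Sys ∅ F s M) {A : ℕ}
    (hA : HgtBound ∅ F A) :
    [TorusRigid F, EllipticRigid F, Pool.Agent.Y190.PH.Brody F, NoRationalCurves F,
      Pool.Agent.W603.CX.OrbitsConstant F].TFAE := by
  obtain ⟨e1, e2, e3⟩ := torus_eq hC
  have h := lang_tfae hC hA
  tfae_have 1 ↔ 3 := by rw [← torus_empty_iff hC.form, e2, brody_iff]
  tfae_have 2 ↔ 3 := by rw [← ell_empty_iff hC.form, e1, brody_iff]
  tfae_have 3 ↔ 4 := h.out 0 5
  tfae_have 3 ↔ 5 := h.out 0 7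
  tfae_finish

end Pool.Agent.R869.Wd
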