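import Pool.Agent.R869.XBd

/-!
Entire curves in complements of hypersurfaces: orbits, special sets, the criterion.
-/

set_option autoImplicit false

open FF MvPolynomial Filter Metric Topology Pool.Agent.W602.GT Pool.Agent.H159R3.GGLLog
  Pool.Agent.W603.BP Pool.Agent.R869

namespace Pool.Agent.R869.Wd

variable {n s q d : ℕ} {ι κ : Type}

/-- the entire curve in an orbit -/
theorem exp_curve {F : ι → MvPolynomial (Fin (n + 1)) ℂ} {x : Fin (n + 1) → ℂ}
    {b : Fin (n + 1) → ℤ} (h : OrbitIn F b x) (hb : ∃ j l, x j ≠ 0 ∧ x l ≠ 0 ∧ b j ≠ b l) :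
    EntireCurve ∅ F (fun z l => Complex.exp (b l * z) * x l) := by
  obtain ⟨j, j', hxj, hxj', hjj⟩ := hb
  refine ⟨?_, fun z => ⟨fun h0 => ?_, fun l hl => absurd hl (Set.notMem_empty l), fun e => ?_⟩, ?_⟩
  · rw [differentiable_pi]
    intro l
    exact ((differentiable_id.const_mul _).cexp).mul (differentiable_const _)
  · exact mul_ne_zero (Complex.exp_ne_zero _) hxj (congrFun h0 j)
  · have h1 := h (Complex.exp z) (Complex.exp_ne_zero z) e
    have h2 : (fun l => Complex.exp (b l * z) * x l) = fun i => Complex.exp z ^ b i * x i := by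
      funext l
      rw [← Complex.exp_int_mul]
    change eval (fun l => Complex.exp (b l * z) * x l) (F e) = 0
    rw [h2]
    exact h1
  · by_contra hcon
    push Not at hcon
    -- the ratios are constant
    have hr : ∀ z w : ℂ, Complex.exp ((b j - b j') * (z - w)) = 1 := by
      intro z w
      obtain ⟨c, hc⟩ := hcon z w
      have h1 := congrFun hc j
      have h2 := congrFun hc j'
      simp only [Pi.smul_apply, smul_eq_mul] at h1 h2
      have h3 : Complex.exp (b j * z) = c * Complex.exp (b j * w) :=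
        mul_right_cancel₀ hxj (by rw [h1]; ring)
      have h4 : Complex.exp (b j' * z) = c * Complex.exp (b j' * w) :=
        mul_right_cancel₀ hxj' (by rw [h2]; ring)
      have hc0 : c ≠ 0 := by
        rintro rfl
        rw [zero_mul] at h3
        exact Complex.exp_ne_zero _ h3
      have h5 : Complex.exp ((b j - b j') * (z - w)) = Complex.exp (b j * z) /
          Complex.exp (b j * w) * (Complex.exp (b j' * w) / Complex.exp (b j' * z)) := by
        rw [← Complex.exp_sub, ← Complex.exp_sub, ← Complex.exp_add]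
        congr 1
        ring
      rw [h5, h3, h4]
      have h6 := Complex.exp_ne_zero (b j * w)
      have h7 := Complex.exp_ne_zero (b j' * w)
      field_simp
    have hne : ((b j : ℂ) - b j') ≠ 0 := by
      rw [sub_ne_zero]
      exact_mod_cast hjj
    have h1 := hr (1 / (b j - b j')) 0
    rw [sub_zero, mul_one_div_cancel hne] at h1
    have h2 : Complex.exp 1 = ((Real.exp 1 : ℝ) : ℂ) := by
      rw [Complex.ofReal_exp, Complex.ofReal_one]
    rw [h2] at h1
    have h3 : Real.exp 1 = 1 := by exact_mod_cast h1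
    have h4 := Real.add_one_lt_exp (one_ne_zero)
    rw [h3] at h4
    norm_num at h4

/-- orbits in `X` are entire curves in `X` -/
theorem curveX_of_orbit {F : ι → MvPolynomial (Fin (n + 1)) ℂ}
    {H : κ → MvPolynomial (Fin (n + 1)) ℂ} {x : Fin (n + 1) → ℂ} {b : Fin (n + 1) → ℤ}
    (h : OrbitX F H b x) (hb : ∃ j l, x j ≠ 0 ∧ x l ≠ 0 ∧ b j ≠ b l) :
    CurveX F H (fun z l => Complex.exp (b l * z) * x l) := by
  refine ⟨exp_curve (fun t ht => (h t ht).1) hb, fun l z => ?_⟩
  have h2 : (fun l => Complex.exp (b l * z) * x l) = fun i => Complex.exp z ^ b i * x i := by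
    funext l
    rw [← Complex.exp_int_mul]
  change eval (fun l => Complex.exp (b l * z) * x l) (H l) ≠ 0
  rw [h2]
  exact (h (Complex.exp z) (Complex.exp_ne_zero z)).2 l

/-- **Finitely many one-parameter groups.** -/
theorem dirsX {a : Fin s → (Fin (n + 1) →₀ ℕ)} (hd : 0 < d)
    (hg : ∃ s' N, Good (withPowers d (liftA q a)) s' N) (hdeg : ∀ i, ∑ j, a i j = d) :
    ∃ B : Finset (Fin (n + 1) → ℤ), ∀ (ι : Type) (F : ι → MvPolynomial (Fin (n + 1)) ℂ)
      (H : Fin q → MvPolynomial (Fin (n + 1)) ℂ), (∀ e, (F e).support ⊆ withPowers d a) →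
      (∀ l, (H l).support ⊆ withPowers d a) →
      (∀ f, CurveX F H f → ∃ b ∈ B, (∃ j l, b j ≠ b l ∧ (∃ z, f z j ≠ 0) ∧ ∃ z, f z l ≠ 0) ∧
        ∀ z, OrbitX F H b (f z)) ∧ SpX F H = SpOrbX F H B := by
  classical
  obtain ⟨s', N, hg⟩ := hg
  obtain ⟨B', hB'⟩ := exists_dirs (ι := Unit) (n := n + q) fun _ => withPowers d (liftA q a)
  refine ⟨B'.image fun b j => b (emb n q j), fun ι F H hF hH => ?_⟩
  have hHd : ∀ l, (H l).IsHomogeneous d := fun l => isForm_of_deg fun α hα =>
    deg_withPowers (a := a) hdeg α (hH l hα)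
  have hC := hg.sys (sysG_support hF hH) {x | ∃ l, x = bdv n q l}
  have hdirs := dirs hC (T := fun _ => withPowers d (liftA q a)) (sysG_support hF hH)
    (B := B') fun b => by
      obtain ⟨b', hb', h1, h2⟩ := hB' b
      exact ⟨b', hb', h1, fun _ => h2 ()⟩
  have hcur : ∀ f, CurveX F H f → ∃ b ∈ B'.image fun b j => b (emb n q j),
      (∃ j l, b j ≠ b l ∧ (∃ z, f z j ≠ 0) ∧ ∃ z, f z l ≠ 0) ∧ ∀ z, OrbitX F H b (f z) := by
    intro f hf
    obtain ⟨g, hgc, hgf⟩ := lift_curve hd hf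
    obtain ⟨b, hb, ⟨x, y, hxy, ⟨zx, hx⟩, ⟨zy, hy⟩⟩, ho⟩ := hdirs.2.1 g hgc
    have hbd : ∀ z l, g z (bdv n q l) ≠ 0 := fun z l => (hgc.2.1 z).2.1 _ ⟨l, rfl⟩
    have hfg : ∀ z, (fun j => g z (emb n q j)) = f z := fun z => funext fun j => hgf z j
    refine ⟨_, Finset.mem_image_of_mem _ hb, ?_, fun z => ?_⟩
    · by_contra hcon
      push Not at hcon
      obtain ⟨j0, hj0⟩ := Function.ne_iff.1 (hf.1.2.1 0).1
      -- all the exponents agree
      have hall : ∀ z j, g z (emb n q j) ≠ 0 → b (emb n q j) = b (emb n q j0) := by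
        intro z j hj
        by_contra hne
        rw [hgf] at hj
        exact hj0 (hcon j j0 hne ⟨z, hj⟩ 0)
      have hall2 : ∀ z x, g z x ≠ 0 → b x = b (emb n q j0) := by
        intro z x hx
        rcases var_cases n q x with ⟨j, rfl⟩ | ⟨l, rfl⟩
        · exact hall z j hx
        · exact (orbit_down hd hHd (ho z) (hbd z)).2 _ (hall z) l
      exact hxy ((hall2 zx x hx).trans (hall2 zy y hy).symm)
    · have h1 := (orbit_down hd hHd (ho z) (hbd z)).1
      rwa [hfg] at h1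
  refine ⟨hcur, Set.Subset.antisymm ?_ ?_⟩
  · rintro x ⟨hx, h⟩
    refine ⟨hx, fun G hG hGv => h G hG fun f hf z => ?_⟩
    by_contra hne
    obtain ⟨b, hb, ⟨j, l, hjl, ⟨zj, hj⟩, ⟨zl, hl⟩⟩, h3⟩ := hcur f hf
    obtain ⟨hp1, hp2⟩ := sin_curve hf.1
    obtain ⟨wz, hwz, hwz'⟩ := sin_point z
    obtain ⟨wj, hwj, hwj'⟩ := sin_point zj
    obtain ⟨wl, hwl, hwl'⟩ := sin_point zl
    obtain ⟨z0, hz0, hgood⟩ := good_point
      (fun a : Fin 3 => fun w => if a = 0 then f (Complex.sin w⁻¹) j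
        else if a = 1 then f (Complex.sin w⁻¹) l else eval (f (Complex.sin w⁻¹)) G)
      (by
        intro a
        fin_cases a
        · exact hp1.an j
        · exact hp1.an l
        · exact eval_an hp1.an G)
      (by
        intro a
        fin_cases a
        · exact nz_of_on (hp1.an j) (mem_disc.mp hwj) (by rw [hwj']; exact hj)
        · exact nz_of_on (hp1.an l) (mem_disc.mp hwl) (by rw [hwl']; exact hl)
        · exact nz_of_on (eval_an hp1.an G) (mem_disc.mp hwz) (by rw [hwz']; exact hne))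
    have h0 : f (Complex.sin z0⁻¹) j ≠ 0 := hgood 0
    have h1 : f (Complex.sin z0⁻¹) l ≠ 0 := hgood 1
    have h2 : eval (f (Complex.sin z0⁻¹)) G ≠ 0 := hgood 2
    exact h2 (hGv b (Finset.mem_coe.2 hb) _ (h3 _) ⟨j, l, h0, h1, hjl⟩)
  · rintro x ⟨hx, h⟩
    refine ⟨hx, fun G hG hGv => h G hG fun b _ x' ho hb => ?_⟩
    have h1 := hGv _ (curveX_of_orbit ho hb) 0
    simpa using h1

/-- **The criterion for complements of hypersurfaces in projective space.** -/
theorem complement {I : Fin s → Finset (Fin (n + 1))} {a : Fin s → (Fin (n + 1) →₀ ℕ)}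
    (h : TypI (liftI 1 I) d (liftA 1 a)) {H : MvPolynomial (Fin (n + 1)) ℂ}
    (hH : H.support ⊆ withPowers d a) (J : Finset (Fin (n + 1))) :
    [Loose (X (bdv n 1 0) ^ d - rename (emb n 1) H) (insert (bdv n 1 0) (J.map (emb n 1))),
      ∃ f, CurveX (fun e : Fin 0 => Fin.elim0 e) (fun _ : Fin 1 => H) f ∧
        ∀ j, (∃ z, f z j ≠ 0) ↔ j ∈ J,
      ∃ (x : Fin (n + 1) → ℂ) (b : Fin (n + 1) → ℤ), (∀ j, x j ≠ 0 ↔ j ∈ J) ∧
        (∃ j ∈ J, ∃ j' ∈ J, b j ≠ b j') ∧
        OrbitX (fun e : Fin 0 => Fin.elim0 e) (fun _ : Fin 1 => H) b x].TFAE := by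
  classical
  have hdeg : ∀ i, ∑ j, a i j = d := fun i => by
    have h1 := (h.mem i).2
    unfold liftA at h1
    rwa [sum_embDomain] at h1
  have hHd : ∀ l : Fin 1, ((fun _ : Fin 1 => H) l).IsHomogeneous d := fun l =>
    isForm_of_deg fun α hα => deg_withPowers (a := a) hdeg α (hH hα)
  set F0 : Fin 0 → MvPolynomial (Fin (n + 1)) ℂ := fun e => Fin.elim0 e with hF0
  set G : MvPolynomial (Fin (n + 1 + 1)) ℂ := X (bdv n 1 0) ^ d - rename (emb n 1) H with hG
  have hGs : G.support ⊆ withPowers d (liftA 1 a) :=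
    sysG_support (F := F0) (H := fun _ : Fin 1 => H) (a := a) (fun e => Fin.elim0 e)
      (fun _ => hH) (Sum.inr 0)
  have hsys : ∀ (b : Fin (n + 1 + 1) → ℤ) (x : Fin (n + 1 + 1) → ℂ),
      OrbitIn (fun _ : Fin 1 => G) b x → OrbitIn (sysG d F0 fun _ : Fin 1 => H) b x := by
    intro b x ho t ht e
    rcases e with e | l
    · exact Fin.elim0 e
    · have : l = 0 := Subsingleton.elim _ _
      subst this
      exact ho t ht 0
  set J' : Finset (Fin (n + 1 + 1)) := insert (bdv n 1 0) (J.map (emb n 1)) with hJ'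
  have mem1 : ∀ j, emb n 1 j ∈ J' ↔ j ∈ J := by
    intro j
    rw [hJ', Finset.mem_insert, or_iff_right (emb_ne_bdv n 1 j 0)]
    exact Finset.mem_map' _
  have mem2 : bdv n 1 0 ∈ J' := Finset.mem_insert_self _ _
  tfae_have 2 → 1 := by
    rintro ⟨f, hf, hJ⟩
    obtain ⟨g, hg, hgf⟩ := lift_curve h.pos hf
    have hg' : EntireCurve ∅ (fun _ : Fin 1 => G) g := ⟨hg.1, fun z => ⟨(hg.2.1 z).1,
      fun j hj => absurd hj (Set.notMem_empty j), fun _ => (hg.2.1 z).2.2 (Sum.inr 0)⟩, hg.2.2⟩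
    refine ((h.critJ hGs ∅ J').1 ⟨g, hg', fun x => ?_⟩).2
    rcases var_cases n 1 x with ⟨j, rfl⟩ | ⟨l, rfl⟩
    · rw [mem1, ← hJ]
      simp only [hgf]
    · have : l = 0 := Subsingleton.elim _ _
      subst this
      exact ⟨fun _ => mem2, fun _ => ⟨0, (hg.2.1 0).2.1 _ ⟨0, rfl⟩⟩⟩
  tfae_have 1 → 3 := by
    intro hL
    obtain ⟨x, b, hx, hb, ho⟩ := ((h.crit hGs J').out 0 1).1 hL
    have hbd : ∀ l, x (bdv n 1 l) ≠ 0 := by
      intro l
      have : l = 0 := Subsingleton.elim _ _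
      subst this
      exact (hx _).2 mem2
    obtain ⟨h1, h2⟩ := orbit_down h.pos hHd (hsys b x ho) hbd
    refine ⟨_, _, fun j => (hx _).trans (mem1 j), ?_, h1⟩
    by_contra hcon
    push Not at hcon
    obtain ⟨y, hy, y', hy', hne⟩ := hb
    -- all exponents agree
    have hJne : J.Nonempty := by
      rw [Finset.nonempty_iff_ne_empty]
      intro h0
      have h3 : ∀ y ∈ J', y = bdv n 1 0 := by
        intro y hy
        rw [hJ', Finset.mem_insert, h0] at hy
        simpa using hy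
      exact hne (by rw [h3 y hy, h3 y' hy'])
    obtain ⟨j0, hj0⟩ := hJne
    have hall := h2 (b (emb n 1 j0)) fun j hj => hcon j ((mem1 j).1 ((hx _).1 hj)) j0 hj0
    have hall2 : ∀ y ∈ J', b y = b (emb n 1 j0) := by
      intro y hy
      rcases var_cases n 1 y with ⟨j, rfl⟩ | ⟨l, rfl⟩
      · exact hcon j ((mem1 j).1 hy) j0 hj0
      · exact hall l
    exact hne ((hall2 y hy).trans (hall2 y' hy').symm)
  tfae_have 3 → 2 := by
    rintro ⟨x, b, hx, ⟨j, hj, j', hj', hjj⟩, ho⟩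
    refine ⟨_, curveX_of_orbit ho ⟨j, j', (hx j).2 hj, (hx j').2 hj', hjj⟩, fun l => ?_⟩
    rw [← hx l]
    constructor
    · rintro ⟨z, hz⟩
      exact right_ne_zero_of_mul hz
    · intro hl
      exact ⟨0, mul_ne_zero (Complex.exp_ne_zero _) hl⟩
  tfae_finish

end Pool.Agent.R869.Wd
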