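import Pool.Agent.R869.XLooseDefs
import Pool.Agent.R869.XCrit

/-!
The combinatorial criterion for the existence of entire curves in complements of hypersurfaces.
-/

set_option autoImplicit false

open MvPolynomial

namespace Pool.Agent.R869.Wd

variable {n d : ℕ}

/-- the embedding of the exponent vectors -/
noncomputable def embE (n : ℕ) : (Fin (n + 1) →₀ ℕ) ↪ (Fin (n + 1 + 1) →₀ ℕ) :=
  ⟨Finsupp.embDomain (emb n 1), Finsupp.embDomain_injective (emb n 1)⟩

theorem monIn_cover {H : MvPolynomial (Fin (n + 1)) ℂ} (hd : 0 < d) (J : Finset (Fin (n + 1))) :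
    monIn (X (bdv n 1 0) ^ d - rename (emb n 1) H) (insert (bdv n 1 0) (J.map (emb n 1))) =
      insert (Finsupp.single (bdv n 1 0) d) ((monIn H J).map (embE n)) := by
  classical
  have hren : ∀ α : Fin (n + 1 + 1) →₀ ℕ, α ∈ (rename (emb n 1) H).support ↔
      ∃ β ∈ H.support, embE n β = α := by
    intro α
    rw [support_rename_of_injective (emb n 1).injective, Finset.mem_image]
    refine exists_congr fun β => and_congr_right fun _ => ?_
    rw [show embE n β = Finsupp.mapDomain (emb n 1) β from Finsupp.embDomain_eq_mapDomain _ _]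
  have hne : ∀ β : Fin (n + 1) →₀ ℕ, embE n β ≠ Finsupp.single (bdv n 1 0) d := by
    intro β h
    have h1 := DFunLike.congr_fun h (bdv n 1 0)
    rw [Finsupp.single_eq_same] at h1
    have h2 : (embE n β) (bdv n 1 0) = 0 :=
      Finsupp.embDomain_notin_range _ _ _ fun ⟨j, hj⟩ => emb_ne_bdv n 1 j 0 hj
    omega
  ext α
  unfold monIn
  rw [Finset.mem_filter, Finset.mem_insert, Finset.mem_map]
  constructor
  · rintro ⟨h1, h2⟩
    by_cases hα : α = Finsupp.single (bdv n 1 0) d
    · exact Or.inl hα
    · right
      rw [mem_support_iff, coeff_sub, coeff_X_pow, if_neg (Ne.symm hα), zero_sub, neg_ne_zero,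
        ← mem_support_iff, hren] at h1
      obtain ⟨β, hβ, rfl⟩ := h1
      refine ⟨β, Finset.mem_filter.2 ⟨hβ, fun j hj => ?_⟩, rfl⟩
      have h3 : emb n 1 j ∈ (embE n β).support := by
        change emb n 1 j ∈ (Finsupp.embDomain (emb n 1) β).support
        rw [Finsupp.support_embDomain]
        exact Finset.mem_map_of_mem _ hj
      have h4 := h2 h3
      rw [Finset.mem_insert, or_iff_right (emb_ne_bdv n 1 j 0)] at h4
      exact (Finset.mem_map' _).1 h4
  · rintro (rfl | ⟨β, hβ, rfl⟩)
    · refine ⟨?_, fun j hj => ?_⟩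
      · rw [mem_support_iff, coeff_sub, coeff_X_pow, if_pos rfl]
        have h3 : coeff (Finsupp.single (bdv n 1 0) d) (rename (emb n 1) H) = 0 := by
          by_contra h4
          obtain ⟨β, -, hβ⟩ := (hren _).1 (mem_support_iff.2 h4)
          exact hne β hβ
        rw [h3, sub_zero]
        exact one_ne_zero
      · have h5 := Finsupp.support_single_subset hj
        rw [Finset.mem_singleton] at h5
        rw [h5]
        exact Finset.mem_insert_self _ _
    · rw [Finset.mem_filter] at hβ
      refine ⟨?_, fun x hx => ?_⟩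
      · rw [mem_support_iff, coeff_sub, coeff_X_pow, if_neg (Ne.symm (hne β)), zero_sub,
          neg_ne_zero, ← mem_support_iff, hren]
        exact ⟨β, hβ.1, rfl⟩
      · change x ∈ (Finsupp.embDomain (emb n 1) β).support at hx
        rw [Finsupp.support_embDomain, Finset.mem_map] at hx
        obtain ⟨j, hj, rfl⟩ := hx
        exact Finset.mem_insert_of_mem (Finset.mem_map_of_mem _ (hβ.2 hj))

/-- **The criterion in terms of the equation of the boundary.** -/
theorem loose_cover {H : MvPolynomial (Fin (n + 1)) ℂ} (hd : 0 < d)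
    (hH : ∀ α ∈ H.support, ∑ j, α j = d) (J : Finset (Fin (n + 1))) :
    Loose (X (bdv n 1 0) ^ d - rename (emb n 1) H) (insert (bdv n 1 0) (J.map (emb n 1))) ↔
      LooseOff H J := by
  classical
  set M := monIn H J with hM
  have hMH : ∀ α ∈ M, α ∈ H.support ∧ α.support ⊆ J := fun α hα => by
    rw [hM] at hα
    unfold monIn at hα
    exact Finset.mem_filter.1 hα
  have hne : ∀ α ∈ M, α.support.Nonempty := by
    intro α hα
    rw [Finsupp.support_nonempty_iff]
    rintro rfl
    have h1 := hH _ (hMH _ hα).1
    simp at h1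
    omega
  have hys : (Finsupp.single (bdv n 1 0) d : Fin (n + 1 + 1) →₀ ℕ).support = {(bdv n 1 0)} :=
    Finsupp.support_single_ne_zero _ hd.ne'
  have hnotin : Finsupp.single (bdv n 1 0) d ∉ M.map (embE n) := by
    intro h
    obtain ⟨β, -, hβ⟩ := Finset.mem_map.1 h
    have h1 := DFunLike.congr_fun hβ (bdv n 1 0)
    rw [Finsupp.single_eq_same] at h1
    have h2 : (embE n β) (bdv n 1 0) = 0 :=
      Finsupp.embDomain_notin_range _ _ _ fun ⟨j, hj⟩ => emb_ne_bdv n 1 j 0 hj
    omega
  have hsE : ∀ β : Fin (n + 1) →₀ ℕ, (embE n β).support = β.support.map (emb n 1) := fun β =>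
    Finsupp.support_embDomain _ _
  -- the counts for a colouring `c'`
  have hN : ∀ c' : Fin (n + 1 + 1) → ℤ,
      ((insert (Finsupp.single (bdv n 1 0) d) (M.map (embE n))).filter fun α =>
        ¬ ∀ j ∈ α.support, ∀ j' ∈ α.support, c' j = c' j').card =
      (M.filter fun α => ¬ ∀ j ∈ α.support, ∀ j' ∈ α.support,
        c' (emb n 1 j) = c' (emb n 1 j')).card := by
    intro c'
    rw [Finset.filter_insert, if_neg, Finset.filter_map, Finset.card_map]
    · congr 1
      refine Finset.filter_congr fun α _ => not_congr ?_
      simp only [Function.comp_apply, hsE]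
      constructor
      · intro h j hj j' hj'
        exact h _ (Finset.mem_map_of_mem _ hj) _ (Finset.mem_map_of_mem _ hj')
      · intro h x hx x' hx'
        obtain ⟨j, hj, rfl⟩ := Finset.mem_map.1 hx
        obtain ⟨j', hj', rfl⟩ := Finset.mem_map.1 hx'
        exact h j hj j' hj'
    · rw [not_not, hys]
      intro j hj j' hj'
      rw [Finset.mem_singleton.1 hj, Finset.mem_singleton.1 hj']
  have hm : ∀ (c' : Fin (n + 1 + 1) → ℤ) (v : ℤ),
      ((insert (Finsupp.single (bdv n 1 0) d) (M.map (embE n))).filter fun α =>
        ∀ j ∈ α.support, c' j = v).card =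
      (if c' (bdv n 1 0) = v then 1 else 0) +
        (M.filter fun α => ∀ j ∈ α.support, c' (emb n 1 j) = v).card := by
    intro c' v
    have h1 : ((M.map (embE n)).filter fun α => ∀ j ∈ α.support, c' j = v).card =
        (M.filter fun α => ∀ j ∈ α.support, c' (emb n 1 j) = v).card := by
      rw [Finset.filter_map, Finset.card_map]
      congr 1
      refine Finset.filter_congr fun α _ => ?_
      simp only [Function.comp_apply, hsE]
      constructor
      · intro h j hj
        exact h _ (Finset.mem_map_of_mem _ hj)
      · intro h x hx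
        obtain ⟨j, hj, rfl⟩ := Finset.mem_map.1 hx
        exact h j hj
    rw [Finset.filter_insert]
    by_cases hv : c' (bdv n 1 0) = v
    · rw [if_pos hv, if_pos, Finset.card_insert_of_notMem, h1, add_comm]
      · exact fun h => hnotin (Finset.mem_filter.1 h).1
      · rw [hys]
        intro j hj
        rw [Finset.mem_singleton.1 hj, hv]
    · rw [if_neg hv, if_neg, h1, zero_add]
      rw [hys]
      exact fun h => hv (h (bdv n 1 0) (Finset.mem_singleton_self (bdv n 1 0)))
  have himg : ∀ c' : Fin (n + 1 + 1) → ℤ,
      (insert (bdv n 1 0) (J.map (emb n 1))).image c' = insert (c' (bdv n 1 0)) (J.image fun j => c' (emb n 1 j)) := by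
    intro c'
    rw [Finset.image_insert, Finset.map_eq_image, Finset.image_image]
    rfl
  have hm0 : ∀ (c : Fin (n + 1) → ℤ) (v : ℤ), v ∉ J.image c →
      (M.filter fun α => ∀ j ∈ α.support, c j = v).card = 0 := by
    intro c v hv
    rw [Finset.card_eq_zero, Finset.filter_eq_empty_iff]
    intro α hα h
    obtain ⟨j, hj⟩ := hne α hα
    exact hv (Finset.mem_image.2 ⟨j, (hMH α hα).2 hj, h j hj⟩)
  have hcard : (insert (Finsupp.single (bdv n 1 0) d) (M.map (embE n))).card = M.card + 1 := by
    rw [Finset.card_insert_of_notMem hnotin, Finset.card_map]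
  unfold Loose Splits LooseOff
  rw [monIn_cover hd J, hcard, ← hM]
  simp only [hN, hm, himg]
  constructor
  · rintro ⟨h1, c', -, h2⟩
    refine ⟨Finset.card_pos.1 (by omega), fun j => c' (emb n 1 j), ?_⟩
    set c : Fin (n + 1) → ℤ := fun j => c' (emb n 1 j) with hc
    change (M.filter fun α => ¬ ∀ j ∈ α.support, ∀ j' ∈ α.support, c j = c j').card +
      ((insert (c' (bdv n 1 0)) (J.image c)).filter fun v =>
        (if c' (bdv n 1 0) = v then 1 else 0) +
          (M.filter fun α => ∀ j ∈ α.support, c j = v).card = 1).card + 4 ≤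
      2 * (insert (c' (bdv n 1 0)) (J.image c)).card at h2
    have key : (M.filter fun α => ¬ ∀ j ∈ α.support, ∀ j' ∈ α.support, c j = c j').card +
        ((J.image c).filter fun v =>
          (M.filter fun α => ∀ j ∈ α.support, c j = v).card = 1).card + 3 ≤
        2 * (J.image c).card := by
      by_cases hv : c' (bdv n 1 0) ∈ J.image c
      · rw [Finset.insert_eq_of_mem hv] at h2
        have h3 : ((J.image c).filter fun v =>
            (M.filter fun α => ∀ j ∈ α.support, c j = v).card = 1).card ≤
            ((J.image c).filter fun v => (if c' (bdv n 1 0) = v then 1 else 0) +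
              (M.filter fun α => ∀ j ∈ α.support, c j = v).card = 1).card + 1 := by
          rw [← Nat.sub_le_iff_le_add]
          refine (Finset.pred_card_le_card_erase (a := c' (bdv n 1 0))).trans (Finset.card_le_card ?_)
          intro v hv
          rw [Finset.mem_erase, Finset.mem_filter] at hv
          rw [Finset.mem_filter, if_neg (Ne.symm hv.1), zero_add]
          exact hv.2
        omega
      · rw [Finset.card_insert_of_notMem hv, Finset.filter_insert, if_pos (by
          rw [if_pos rfl, hm0 c _ hv]), Finset.card_insert_of_notMem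
          (fun h => hv (Finset.mem_filter.1 h).1)] at h2
        have h3 : ((J.image c).filter fun v => (if c' (bdv n 1 0) = v then 1 else 0) +
              (M.filter fun α => ∀ j ∈ α.support, c j = v).card = 1) =
            (J.image c).filter fun v =>
              (M.filter fun α => ∀ j ∈ α.support, c j = v).card = 1 := by
          refine Finset.filter_congr fun v hv' => ?_
          rw [if_neg (fun h => hv (by rw [h]; exact hv')), zero_add]
        rw [h3] at h2
        omega
    refine ⟨?_, key⟩
    have h4 : 1 < (J.image c).card := by omega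
    obtain ⟨u, hu, v, hv, huv⟩ := Finset.one_lt_card.1 h4
    obtain ⟨j, hj, rfl⟩ := Finset.mem_image.1 hu
    obtain ⟨j', hj', rfl⟩ := Finset.mem_image.1 hv
    exact ⟨j, hj, j', hj', huv⟩
  · rintro ⟨h1, c, ⟨j, hj, j', hj', hjj⟩, h2⟩
    obtain ⟨v0, hv0⟩ := Infinite.exists_notMem_finset (J.image c)
    let c' : Fin (n + 1 + 1) → ℤ := fun x =>
      if h : ∃ j, emb n 1 j = x then c h.choose else v0
    have c1 : ∀ j, c' (emb n 1 j) = c j := by
      intro j
      have h3 : ∃ j', emb n 1 j' = emb n 1 j := ⟨j, rfl⟩
      simp only [c', dif_pos h3]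
      rw [(emb n 1).injective h3.choose_spec]
    have c2 : c' (bdv n 1 0) = v0 := by
      simp only [c']
      rw [dif_neg]
      rintro ⟨j, hj⟩
      exact emb_ne_bdv n 1 j 0 hj
    refine ⟨?_, c', ⟨emb n 1 j, Finset.mem_insert_of_mem (Finset.mem_map_of_mem _ hj),
      emb n 1 j', Finset.mem_insert_of_mem (Finset.mem_map_of_mem _ hj'), by
        rw [c1, c1]; exact hjj⟩, ?_⟩
    · have := Finset.card_pos.2 h1
      omega
    · simp only [c1, c2]
      rw [Finset.card_insert_of_notMem hv0, Finset.filter_insert, if_pos (by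
          rw [if_pos rfl, hm0 c _ hv0]), Finset.card_insert_of_notMem
          (fun h => hv0 (Finset.mem_filter.1 h).1)]
      have h3 : ((J.image c).filter fun v => (if v0 = v then 1 else 0) +
            (M.filter fun α => ∀ j ∈ α.support, c j = v).card = 1) =
          (J.image c).filter fun v =>
            (M.filter fun α => ∀ j ∈ α.support, c j = v).card = 1 := by
        refine Finset.filter_congr fun v hv' => ?_
        rw [if_neg (fun h => hv0 (by rw [h]; exact hv')), zero_add]
      rw [h3]
      omega

end Pool.Agent.R869.Wd
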