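import Pool.Agent.R869.XPic
import Pool.Agent.R869.XLoose
import Pool.Agent.R869.UCor2

/-!
Orbits in the complements of hypersurfaces and subvarieties which are not of log general type.
-/

set_option autoImplicit false

open FF MvPolynomial Filter Metric Topology Pool.Agent.W602.GT Pool.Agent.H159R3.GGLLog
  Pool.Agent.W603.BP Pool.Agent.R869
open Pool.Agent.W603.GR (OffQ exists_min ord_form)

namespace Pool.Agent.R869.Wd

variable {n s q d m : ℕ}

theorem val_orbit_sum (x : Fin (n + 1) → ℂ) (b : Fin (n + 1) → ℤ) {t : ℂ} (ht : t ≠ 0)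
    (G : MvPolynomial (Fin (n + 1)) ℂ) : eval (fun j => t ^ b j * x j) G =
      ∑ α ∈ G.support, t ^ (∑ j, (α j : ℤ) * b j) * (G.coeff α * ∏ j, x j ^ α j) := by
  classical
  rw [eval_eq']
  refine Finset.sum_congr rfl fun α _ => ?_
  have h2 : t ^ (∑ j, (α j : ℤ) * b j) = ∏ j, (t ^ b j) ^ α j := by
    have h3 : ∀ s : Finset (Fin (n + 1)), t ^ (∑ j ∈ s, (α j : ℤ) * b j) =
        ∏ j ∈ s, (t ^ b j) ^ α j := by
      intro s
      induction s using Finset.induction_on with
      | empty => simp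
      | insert a s ha ih =>
        rw [Finset.sum_insert ha, Finset.prod_insert ha, zpow_add₀ ht, ih, ← zpow_natCast,
          ← zpow_mul, mul_comm (b a)]
    exact h3 Finset.univ
  simp only [mul_pow]
  rw [Finset.prod_mul_distrib, h2]
  ring

/-- forms without zeros on an orbit -/
theorem semi_of_orbit {G : MvPolynomial (Fin (n + 1)) ℂ} {x : Fin (n + 1) → ℂ}
    {b : Fin (n + 1) → ℤ} (h : ∀ t : ℂ, t ≠ 0 → eval (fun i => t ^ b i * x i) G ≠ 0) :
    ∃ v0, ∀ v, v ≠ v0 → val x (wc b v G) = 0 := by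
  classical
  by_contra hcon
  push Not at hcon
  obtain ⟨v1, -, h1⟩ := hcon 0
  obtain ⟨v2, h12, h2⟩ := hcon v1
  obtain ⟨M, hM⟩ : ∃ M : ℕ, ∀ α ∈ G.support, 0 ≤ ∑ j, (α j : ℤ) * b j + M := by
    refine ⟨∑ α ∈ G.support, (∑ j, (α j : ℤ) * b j).natAbs, fun α hα => ?_⟩
    have h3 := Finset.single_le_sum (f := fun α : Fin (n + 1) →₀ ℕ =>
      (∑ j, (α j : ℤ) * b j).natAbs) (fun _ _ => Nat.zero_le _) hα
    have h4 : (((∑ j, (α j : ℤ) * b j).natAbs : ℕ) : ℤ) ≤
        ((∑ α ∈ G.support, (∑ j, (α j : ℤ) * b j).natAbs : ℕ) : ℤ) := by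
      exact_mod_cast h3
    have h5 := Int.le_natAbs (a := -(∑ j, (α j : ℤ) * b j))
    rw [Int.natAbs_neg] at h5
    linarith
  let g : Polynomial ℂ := ∑ α ∈ G.support, Polynomial.C (G.coeff α * ∏ j, x j ^ α j) *
    Polynomial.X ^ (∑ j, (α j : ℤ) * b j + M).toNat
  have hcoef : ∀ v : ℤ, 0 ≤ v + M → g.coeff (v + M).toNat = val x (wc b v G) := by
    intro v hv
    rw [val_wc, Polynomial.finsetSum_coeff, Finset.sum_filter]
    refine Finset.sum_congr rfl fun α hα => ?_
    rw [Polynomial.coeff_C_mul, Polynomial.coeff_X_pow]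
    by_cases h3 : ∑ j, (α j : ℤ) * b j = v
    · rw [if_pos h3, h3, if_pos rfl, mul_one]
      rfl
    · rw [if_neg h3, if_neg, mul_zero]
      intro h4
      apply h3
      have h5 := Int.toNat_of_nonneg hv
      have h6 := Int.toNat_of_nonneg (hM α hα)
      have h7 : ((v + M).toNat : ℤ) = ((∑ j, (α j : ℤ) * b j + M).toNat : ℤ) := by
        exact_mod_cast h4
      linarith
  have hpos : ∀ v, val x (wc b v G) ≠ 0 → 0 ≤ v + M := by
    intro v hv
    rw [val_wc] at hv
    obtain ⟨α, hα, -⟩ := Finset.exists_ne_zero_of_sum_ne_zero hv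
    rw [Finset.mem_filter] at hα
    rw [← hα.2]
    exact hM α hα.1
  obtain ⟨T, hT, hT0⟩ := root_ne_zero (g := g) (k := (v1 + M).toNat) (l := (v2 + M).toNat)
    (by rw [hcoef v1 (hpos v1 h1)]; exact h1) (by rw [hcoef v2 (hpos v2 h2)]; exact h2) (by
      intro h3
      apply h12
      have h5 := Int.toNat_of_nonneg (hpos v1 h1)
      have h6 := Int.toNat_of_nonneg (hpos v2 h2)
      have h7 : ((v1 + M).toNat : ℤ) = ((v2 + M).toNat : ℤ) := by exact_mod_cast h3
      linarith)
  apply h T hT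
  have h8 : g.eval T = T ^ M * eval (fun i => T ^ b i * x i) G := by
    rw [val_orbit_sum x b hT, Finset.mul_sum]
    simp only [g, Polynomial.eval_finsetSum, Polynomial.eval_mul, Polynomial.eval_C,
      Polynomial.eval_pow, Polynomial.eval_X]
    refine Finset.sum_congr rfl fun α hα => ?_
    have h9 : T ^ (∑ j, (α j : ℤ) * b j + M).toNat = T ^ (∑ j, (α j : ℤ) * b j) * T ^ M := by
      have h10 : T ^ (∑ j, (α j : ℤ) * b j + M).toNat = T ^ (∑ j, (α j : ℤ) * b j + M) := by
        conv_rhs => rw [← Int.toNat_of_nonneg (hM α hα)]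
        rw [zpow_natCast]
      rw [h10, zpow_add₀ hT, zpow_natCast]
    rw [h9]
    ring
  rw [h8] at hT0
  exact (mul_eq_zero.1 hT0).resolve_left (pow_ne_zero _ hT)

/-- a larger boundary -/
theorem lgt_mono {K : Type} [Field K] [Algebra ℂ K] {w : ℕ} {Bd Bd' : Place ℂ K → Prop}
    (h : ∀ P, Bd P → Bd' P) (hl : LogGeneralType ℂ K w Bd) : LogGeneralType ℂ K w Bd' := by
  obtain ⟨h1, N, h2, ω, h3, h4, h5, h6⟩ := hl
  exact ⟨h1, N, h2, ω, h3, h4, fun P hP hB => h5 P hP fun hb => hB (h P hb), h6⟩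

/-- **The closure of an orbit is not of log general type.** -/
theorem alg_of_orbitX {ι : Type} (hd : 0 < d) {F : ι → MvPolynomial (Fin (n + 1)) ℂ}
    (hFf : ∀ e, IsForm (F e)) {H : Fin q → MvPolynomial (Fin (n + 1)) ℂ}
    (hHd : ∀ l, (H l).IsHomogeneous d) {x : Fin (n + 1) → ℂ} {b : Fin (n + 1) → ℤ}
    (ho : OrbitX F H b x) (hx : ∃ j l, x j ≠ 0 ∧ x l ≠ 0 ∧ b j ≠ b l) :
    ∃ (K : Type) (_ : Field K) (_ : Algebra ℂ K) (y : Fin (n + 1) → K), SubVar F K 1 y ∧
      (∀ l, val y (H l) ≠ 0) ∧ (∀ j, y j ≠ 0 ↔ x j ≠ 0) ∧ ¬ LgtX d H 1 y := by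
  classical
  have hHx : ∀ l, val x (H l) ≠ 0 := by
    intro l
    have h1 := (ho 1 one_ne_zero).2 l
    rw [val_eval]
    simpa using h1
  choose v0 hv0 using fun l => semi_of_orbit fun t ht => (ho t ht).2 l
  have hsemi : ∀ l (t : ℂ), t ≠ 0 → val (fun i => t ^ b i * x i) (H l) =
      t ^ v0 l * val x (H l) := fun l t ht => val_orbit_one x b ht (H l) (v0 l) (hv0 l)
  choose α hα1 hα2 hα3 using fun l => exists_weight' (hv0 l) (hHx l)
  have hmx : ∀ l, ∏ j, x j ^ α l j ≠ 0 := fun l => Finset.prod_ne_zero_iff.2 fun j _ => by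
    by_cases hj : x j = 0
    · rw [hα3 l j hj, pow_zero]
      exact one_ne_zero
    · exact pow_ne_zero _ hj
  -- the equations of the closure of the orbit
  let F' : ι ⊕ ({j // x j = 0} ⊕ Fin q) → MvPolynomial (Fin (n + 1)) ℂ :=
    Sum.elim F (Sum.elim (fun j => X j.1) fun l =>
      monomial (α l) (val x (H l) / ∏ j, x j ^ α l j) - H l)
  have hαd : ∀ l, ∑ j, α l j = d := by
    intro l
    have := hHd l (mem_support_iff.1 (hα1 l))
    rw [← this, Finsupp.weight_apply, Finsupp.sum_fintype _ _ (by simp)]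
    simp
  have hmh : ∀ l, (monomial (α l) (val x (H l) / ∏ j, x j ^ α l j) :
      MvPolynomial (Fin (n + 1)) ℂ).IsHomogeneous d := by
    intro l
    refine isHomogeneous_monomial _ ?_
    rw [Finsupp.degree_apply, ← hαd l]
    exact Finset.sum_subset (Finset.subset_univ _) fun j _ hj => Finsupp.notMem_support_iff.1 hj
  have hF' : ∀ e, IsForm (F' e) := by
    rintro (e | j | l)
    · exact hFf e
    · exact ⟨1, isHomogeneous_X _ _⟩
    · exact ⟨d, (hmh l).sub (hHd l)⟩
  have hmon : ∀ {K : Type} [Field K] [Algebra ℂ K] (z : Fin (n + 1) → K) (l : Fin q),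
      val z (monomial (α l) (val x (H l) / ∏ j, x j ^ α l j) - H l) =
        algebraMap ℂ K (val x (H l) / ∏ j, x j ^ α l j) * (∏ j, z j ^ α l j) - val z (H l) := by
    intro K _ _ z l
    unfold val
    rw [map_sub, aeval_monomial, Finsupp.prod_fintype _ _ (by simp)]
  let U : Set (Fin (n + 1)) := {j | x j ≠ 0}
  have h' : DiagCurve U F' x b := by
    refine ⟨fun t ht => ⟨?_, fun j hj => mul_ne_zero (zpow_ne_zero _ ht) hj, ?_⟩, ?_⟩
    · obtain ⟨j, _, hj, -⟩ := hx
      intro h0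
      exact mul_ne_zero (zpow_ne_zero _ ht) hj (congrFun h0 j)
    · rintro (e | j | l)
      · rw [val_eval]
        exact (ho t ht).1 e
      · change aeval _ (X j.1 : MvPolynomial (Fin (n + 1)) ℂ) = 0
        rw [aeval_X]
        simp only [j.2, mul_zero]
      · change val (fun i => t ^ b i * x i)
          (monomial (α l) (val x (H l) / ∏ j, x j ^ α l j) - H l) = 0
        rw [hmon, hsemi l t ht]
        have h2 : ∏ j, (t ^ b j * x j) ^ α l j = t ^ v0 l * ∏ j, x j ^ α l j := by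
          simp only [mul_pow]
          rw [Finset.prod_mul_distrib]
          congr 1
          rw [← hα2 l]
          have h3 : ∀ s : Finset (Fin (n + 1)), t ^ (∑ j ∈ s, (α l j : ℤ) * b j) =
              ∏ j ∈ s, (t ^ b j) ^ α l j := by
            intro s
            induction s using Finset.induction_on with
            | empty => simp
            | insert a s ha ih =>
              rw [Finset.sum_insert ha, Finset.prod_insert ha, zpow_add₀ ht, ih, ← zpow_natCast,
                ← zpow_mul, mul_comm (b a)]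
          exact (h3 Finset.univ).symm
        rw [h2]
        have h4 := hmx l
        change (val x (H l) / ∏ j, x j ^ α l j) * (t ^ v0 l * ∏ j, x j ^ α l j) - _ = 0
        field_simp
        ring
    · obtain ⟨j, l, h1, h2, h3⟩ := hx
      exact ⟨j, l, h1, h2, h3⟩
  obtain ⟨K, i1, i2, y, hy, hgt, htr⟩ := orbit_subvar hF' h'
  have hyx : ∀ j, y j ≠ 0 ↔ x j ≠ 0 := by
    intro j
    refine ⟨fun hj hx => ?_, fun hx hj => ?_⟩
    · have h1 := hy.mem (Sum.inr (Sum.inl ⟨j, hx⟩))
      change aeval y (X j : MvPolynomial (Fin (n + 1)) ℂ) = 0 at h1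
      rw [aeval_X] at h1
      exact hj h1
    · have h1 := htr (X j) ⟨1, isHomogeneous_X _ _⟩ (by
        change aeval y (X j : MvPolynomial (Fin (n + 1)) ℂ) = 0
        rw [aeval_X]
        exact hj)
      change aeval x (X j : MvPolynomial (Fin (n + 1)) ℂ) = 0 at h1
      rw [aeval_X] at h1
      exact hx h1
  have hHy : ∀ l, val y (H l) ≠ 0 := fun l h0 => hHx l (htr _ ⟨d, hHd l⟩ h0)
  refine ⟨K, i1, i2, y, ⟨hy.ne, fun e => hy.mem (Sum.inl e), hy.gen, hy.dim⟩, hHy, hyx,
    fun hl => hgt (lgt_mono (fun P hP => ?_) hl)⟩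
  -- the boundary
  by_contra hcon
  have heq : ∀ i j, y i ≠ 0 → y j ≠ 0 → P.ord (y j) ≤ P.ord (y i) := by
    intro i j hi hj
    by_contra hlt
    exact hcon ⟨j, (hyx j).1 hj, i, hi, not_le.1 hlt⟩
  obtain ⟨i, hi, hlt⟩ := hP
  have hall : ∀ j, y j ≠ 0 → P.ord (y j) = P.ord (y i) := fun j hj =>
    le_antisymm (heq i j hi hj) (heq j i hj hi)
  have hordH : ∀ l, P.ord (val y (H l)) = d * P.ord (y i) := by
    intro l
    have h1 := hy.mem (Sum.inr (Sum.inr l))
    change val y (monomial (α l) (val x (H l) / ∏ j, x j ^ α l j) - H l) = 0 at h1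
    rw [hmon, sub_eq_zero] at h1
    have hc : val x (H l) / ∏ j, x j ^ α l j ≠ 0 := div_ne_zero (hHx l) (hmx l)
    have hyα : ∀ j, y j ^ α l j ≠ 0 := by
      intro j
      by_cases hj : y j = 0
      · have hxj : x j = 0 := by
          by_contra h
          exact ((hyx j).2 h) hj
        rw [hα3 l j hxj, pow_zero]
        exact one_ne_zero
      · exact pow_ne_zero _ hj
    rw [← h1, P.ord_mul ((map_ne_zero _).2 hc) (Finset.prod_ne_zero_iff.2 fun j _ => hyα j),
      P.ord_const hc, zero_add, ord_prod' P _ _ fun j _ => hyα j]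
    have h2 : ∀ j, P.ord (y j ^ α l j) = (α l j : ℤ) * P.ord (y i) := by
      intro j
      rw [P.ord_pow]
      by_cases hj : y j = 0
      · have hxj : x j = 0 := by
          by_contra h
          exact ((hyx j).2 h) hj
        rw [hα3 l j hxj, Nat.cast_zero, zero_mul, zero_mul]
      · rw [hall j hj]
    rw [Finset.sum_congr rfl fun j _ => h2 j, ← Finset.sum_mul]
    congr 1
    exact_mod_cast hαd l
  have h3 : val y (∏ l, H l) = ∏ l, val y (H l) := by
    unfold val
    rw [map_prod]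
  rw [h3, ord_prod' P _ _ fun l _ => hHy l, Finset.sum_congr rfl fun l _ => hordH l] at hlt
  push_cast at hlt
  rw [Finset.sum_mul] at hlt
  exact lt_irrefl _ hlt

end Pool.Agent.R869.Wd
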