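import Pool.Agent.R869.SDir

/-!
Complements of hypersurfaces: definitions.
-/

set_option autoImplicit false

open MvPolynomial Pool.Agent.H159R3.GGLLog

namespace Pool.Agent.R869.Wd

variable {n : ℕ} {ι κ : Type}

/-- `f` is the vector of homogeneous coordinates of an entire curve in the quasi-projective variety
`X = {F = 0, H ≠ 0}`, the set of the common zeros of the `F e` at which no `H l` vanishes. -/
def CurveX (F : ι → MvPolynomial (Fin (n + 1)) ℂ) (H : κ → MvPolynomial (Fin (n + 1)) ℂ)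
    (f : ℂ → Fin (n + 1) → ℂ) : Prop :=
  EntireCurve ∅ F f ∧ ∀ l z, eval (f z) (H l) ≠ 0

/-- The image under the one-parameter group `t ↦ diag (t ^ b 0, …, t ^ b n)` of the point `x` lies in
`X = {F = 0, H ≠ 0}` for all `t ≠ 0`. -/
def OrbitX (F : ι → MvPolynomial (Fin (n + 1)) ℂ) (H : κ → MvPolynomial (Fin (n + 1)) ℂ)
    (b : Fin (n + 1) → ℤ) (x : Fin (n + 1) → ℂ) : Prop :=
  ∀ t : ℂ, t ≠ 0 → (∀ e, eval (fun i => t ^ b i * x i) (F e) = 0) ∧
    ∀ l, eval (fun i => t ^ b i * x i) (H l) ≠ 0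

/-- The Zariski closure in `X = {F = 0, H ≠ 0}` of the union of the entire curves in `X`. -/
def SpX (F : ι → MvPolynomial (Fin (n + 1)) ℂ) (H : κ → MvPolynomial (Fin (n + 1)) ℂ) :
    Set (Fin (n + 1) → ℂ) :=
  {x | (x ≠ 0 ∧ (∀ e, eval x (F e) = 0) ∧ ∀ l, eval x (H l) ≠ 0) ∧
    ∀ G : MvPolynomial (Fin (n + 1)) ℂ, (∃ d, G.IsHomogeneous d) →
      (∀ f, CurveX F H f → ∀ z, eval (f z) G = 0) → eval x G = 0}

/-- The Zariski closure in `X = {F = 0, H ≠ 0}` of the union of the nonconstant orbits in `X` of the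
one-parameter groups `t ↦ diag (t ^ b 0, …, t ^ b n)`, `b` in `B`. -/
def SpOrbX (F : ι → MvPolynomial (Fin (n + 1)) ℂ) (H : κ → MvPolynomial (Fin (n + 1)) ℂ)
    (B : Set (Fin (n + 1) → ℤ)) : Set (Fin (n + 1) → ℂ) :=
  {x | (x ≠ 0 ∧ (∀ e, eval x (F e) = 0) ∧ ∀ l, eval x (H l) ≠ 0) ∧
    ∀ G : MvPolynomial (Fin (n + 1)) ℂ, (∃ d, G.IsHomogeneous d) →
      (∀ b ∈ B, ∀ x', OrbitX F H b x' → (∃ j l, x' j ≠ 0 ∧ x' l ≠ 0 ∧ b j ≠ b l) →
        eval x' G = 0) → eval x G = 0}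

end Pool.Agent.R869.Wd
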