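import Pool.Agent.R869.XLift
import Pool.Agent.R869.XBdDefs
import Pool.Agent.W603.BP.Rel

/-!
Entire curves in complements of hypersurfaces.
-/

set_option autoImplicit false

open FF MvPolynomial Filter Metric Topology Pool.Agent.W602.GT Pool.Agent.H159R3.GGLLog
  Pool.Agent.W603.BP Pool.Agent.R869

namespace Pool.Agent.R869.Wd

variable {n s q d : ℕ} {ι : Type}

/-- the covering -/
noncomputable def sysG (d : ℕ) (F : ι → MvPolynomial (Fin (n + 1)) ℂ)
    (H : Fin q → MvPolynomial (Fin (n + 1)) ℂ) : ι ⊕ Fin q → MvPolynomial (Fin (n + q + 1)) ℂ :=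
  Sum.elim (fun e => rename (emb n q) (F e)) fun l => X (bdv n q l) ^ d - rename (emb n q) (H l)

theorem sysG_support {a : Fin s → (Fin (n + 1) →₀ ℕ)} {F : ι → MvPolynomial (Fin (n + 1)) ℂ}
    {H : Fin q → MvPolynomial (Fin (n + 1)) ℂ} (hF : ∀ e, (F e).support ⊆ withPowers d a)
    (hH : ∀ l, (H l).support ⊆ withPowers d a) (e : ι ⊕ Fin q) :
    (sysG d F H e).support ⊆ withPowers d (liftA q a) := by
  classical
  rcases e with e | l
  · exact support_lift (hF e)
  · change (X (bdv n q l) ^ d - rename (emb n q) (H l)).support ⊆ _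
    refine (support_sub _ _ _).trans (Finset.union_subset ?_ (support_lift (hH l)))
    intro α hα
    rw [X_pow_eq_monomial] at hα
    have h1 := support_monomial_subset hα
    rw [Finset.mem_singleton] at h1
    unfold withPowers
    rw [Finset.mem_union, Finset.mem_image, Finset.mem_image]
    exact Or.inr ⟨_, Finset.mem_univ _, h1.symm⟩

theorem eval_lift (g : Fin (n + q + 1) → ℂ) (G : MvPolynomial (Fin (n + 1)) ℂ) :
    eval g (rename (emb n q) G) = eval (fun j => g (emb n q j)) G := by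
  rw [eval_rename]
  rfl

/-- lifting of entire curves -/
theorem lift_curve (hd : 0 < d) {F : ι → MvPolynomial (Fin (n + 1)) ℂ}
    {H : Fin q → MvPolynomial (Fin (n + 1)) ℂ} {f : ℂ → Fin (n + 1) → ℂ} (hf : CurveX F H f) :
    ∃ g : ℂ → Fin (n + q + 1) → ℂ, EntireCurve {x | ∃ l, x = bdv n q l} (sysG d F H) g ∧
      ∀ z j, g z (emb n q j) = f z j := by
  classical
  have hdC : (d : ℂ) ≠ 0 := by exact_mod_cast hd.ne'
  have hroot : ∀ l, ∃ r : ℂ → ℂ, Differentiable ℂ r ∧ (∀ z, r z ≠ 0) ∧
      ∀ z, r z ^ d = eval (f z) (H l) := by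
    intro l
    have h1 : Differentiable ℂ fun z => eval (f z) (H l) := by
      have h2 : ∀ z, eval (f z) (H l) =
          ∑ α ∈ (H l).support, (H l).coeff α * ∏ j, f z j ^ α j := fun z => by
        rw [eval_eq']
      simp only [h2]
      refine Differentiable.fun_sum fun α _ => (differentiable_const _).mul ?_
      refine Differentiable.fun_finsetProd fun j _ => ?_
      exact ((differentiable_pi.1 hf.1.1) j).pow _
    obtain ⟨P, hP, hPe⟩ := entire_log h1 (hf.2 l)
    refine ⟨fun z => Complex.exp (P z / d), (hP.div_const _).cexp, fun z => Complex.exp_ne_zero _,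
      fun z => ?_⟩
    rw [← Complex.exp_nat_mul, mul_div_cancel₀ _ hdC, hPe]
  choose r hr hr0 hrd using hroot
  let g : ℂ → Fin (n + q + 1) → ℂ := fun z x =>
    if h : (x : ℕ) < n + 1 then f z ⟨x, h⟩ else r ⟨x - (n + 1), by have := x.isLt; omega⟩ z
  have g1 : ∀ z j, g z (emb n q j) = f z j := fun z j => by
    simp only [g]
    rw [dif_pos (show ((emb n q j : Fin (n + q + 1)) : ℕ) < n + 1 from j.isLt)]
    rfl
  have g2 : ∀ z l, g z (bdv n q l) = r l z := fun z l => by
    simp only [g]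
    have h1 : ¬ ((bdv n q l : Fin (n + q + 1)) : ℕ) < n + 1 := by
      change ¬ n + 1 + (l : ℕ) < n + 1
      omega
    rw [dif_neg h1]
    congr 1
    refine Fin.ext ?_
    change n + 1 + (l : ℕ) - (n + 1) = l
    omega
  refine ⟨g, ⟨?_, fun z => ⟨fun h0 => (hf.1.2.1 z).1 ?_, ?_, ?_⟩, ?_⟩, g1⟩
  · rw [differentiable_pi]
    intro x
    rcases var_cases n q x with ⟨j, rfl⟩ | ⟨l, rfl⟩
    · simp only [g1]
      exact (differentiable_pi.1 hf.1.1) j
    · simp only [g2]
      exact hr l
  · funext j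
    rw [← g1, h0]
    rfl
  · rintro x ⟨l, rfl⟩
    rw [g2]
    exact hr0 l z
  · rintro (e | l)
    · change eval (g z) (rename (emb n q) (F e)) = 0
      rw [eval_lift]
      simp only [g1]
      exact (hf.1.2.1 z).2.2 e
    · change eval (g z) (X (bdv n q l) ^ d - rename (emb n q) (H l)) = 0
      rw [map_sub, map_pow, eval_X, eval_lift, g2]
      simp only [g1]
      rw [hrd, sub_self]
  · obtain ⟨z, w, hzw⟩ := hf.1.2.2
    refine ⟨z, w, fun c hc => hzw c ?_⟩
    funext j
    have h1 := congrFun hc (emb n q j)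
    rw [g1] at h1
    rw [h1, Pi.smul_apply, Pi.smul_apply, g1]

/-- the orbits in the covering -/
theorem orbit_down (hd : 0 < d) {F : ι → MvPolynomial (Fin (n + 1)) ℂ}
    {H : Fin q → MvPolynomial (Fin (n + 1)) ℂ} (hH : ∀ l, (H l).IsHomogeneous d)
    {b : Fin (n + q + 1) → ℤ} {x : Fin (n + q + 1) → ℂ} (ho : OrbitIn (sysG d F H) b x)
    (hx : ∀ l, x (bdv n q l) ≠ 0) :
    OrbitX F H (fun j => b (emb n q j)) (fun j => x (emb n q j)) ∧
    ∀ β : ℤ, (∀ j, x (emb n q j) ≠ 0 → b (emb n q j) = β) → ∀ l, b (bdv n q l) = β := by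
  have h1 : ∀ t : ℂ, t ≠ 0 → ∀ e, eval (fun j => t ^ b (emb n q j) * x (emb n q j)) (F e) = 0 := by
    intro t ht e
    have h2 := ho t ht (Sum.inl e)
    change eval _ (rename (emb n q) (F e)) = 0 at h2
    rwa [eval_lift] at h2
  have h3 : ∀ t : ℂ, t ≠ 0 → ∀ l, eval (fun j => t ^ b (emb n q j) * x (emb n q j)) (H l) =
      (t ^ b (bdv n q l) * x (bdv n q l)) ^ d := by
    intro t ht l
    have h2 := ho t ht (Sum.inr l)
    change eval _ (X (bdv n q l) ^ d - rename (emb n q) (H l)) = 0 at h2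
    rw [map_sub, map_pow, eval_X, eval_lift, sub_eq_zero] at h2
    exact h2.symm
  refine ⟨fun t ht => ⟨h1 t ht, fun l => ?_⟩, fun β hβ l => ?_⟩
  · rw [h3 t ht l]
    exact pow_ne_zero _ (mul_ne_zero (zpow_ne_zero _ ht) (hx l))
  · have h4 : ∀ t : ℂ, t ≠ 0 → (t ^ b (bdv n q l)) ^ d = (t ^ β) ^ d := by
      intro t ht
      have h5 : (fun j => t ^ b (emb n q j) * x (emb n q j)) = fun j => t ^ β * x (emb n q j) := by
        funext j
        by_cases hj : x (emb n q j) = 0
        · rw [hj, mul_zero, mul_zero]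
        · rw [hβ j hj]
      have h6 := h3 t ht l
      have h7 := h3 1 one_ne_zero l
      simp only [one_zpow, one_mul] at h7
      rw [h5] at h6
      have h8 : eval (fun j => t ^ β * x (emb n q j)) (H l) =
          (t ^ β) ^ d * eval (fun j => x (emb n q j)) (H l) := by
        have := Pool.Agent.W603.PV.aeval_scale (hH l) (fun j => x (emb n q j)) (t ^ β)
        rw [← coe_aeval_eq_eval, ← coe_aeval_eq_eval]
        exact this
      rw [h8, h7, mul_pow] at h6
      exact (mul_right_cancel₀ (pow_ne_zero _ (hx l)) h6).symm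
    have h9 := h4 2 two_ne_zero
    rw [← zpow_natCast, ← zpow_natCast, ← zpow_mul, ← zpow_mul] at h9
    have h10 : b (bdv n q l) * (d : ℤ) = β * d := by
      have h11 : (2 : ℝ) ^ (b (bdv n q l) * (d : ℤ)) = 2 ^ (β * (d : ℤ)) := by
        have := congrArg norm h9
        rw [norm_zpow, norm_zpow] at this
        simpa using this
      exact zpow_right_injective₀ (by norm_num) (by norm_num) h11
    exact mul_right_cancel₀ (by exact_mod_cast hd.ne') h10

end Pool.Agent.R869.Wd
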