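import Pool.Agent.R869.XFour

/-!
Pairs of a projective variety and a set of hypersurfaces: holomorphic maps from the punctured disc.
-/

set_option autoImplicit false

open FF MvPolynomial Filter Metric Topology Pool.Agent.W602.GT Pool.Agent.H159R3.GGLLog
  Pool.Agent.W603.BP Pool.Agent.R869
open Pool.Agent.W603.GR (OffQ exists_min ord_form)

namespace Pool.Agent.R869.Wd

variable {n s q d m : ℕ}

theorem gr_scale {e e' : ℂ → ℂ} {c : ℂ} (hc : c ≠ 0)
    (h : Gr (fun w => e (c * w)) (fun w => e' (c * w))) : Gr e e' := by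
  obtain ⟨C, K, h⟩ := h
  obtain ⟨δ, hδ, h⟩ := ev_iff.mp h
  have hc0 : 0 < ‖c‖ := norm_pos_iff.2 hc
  refine ⟨C * ‖c‖ ^ K, K, ev_iff.mpr ⟨‖c‖ * δ, mul_pos hc0 hδ, fun w hw => ?_⟩⟩
  have h1 := h (w / c) ⟨div_ne_zero hw.1 hc, by
    rw [norm_div, div_lt_iff₀ hc0, mul_comm]
    exact hw.2⟩
  have h2 : c * (w / c) = w := mul_div_cancel₀ w hc
  simp only [h2] at h1
  rw [norm_div, div_pow] at h1
  have h3 : 0 < ‖c‖ ^ K := pow_pos hc0 K
  have h4 := mul_le_mul_of_nonneg_right h1 h3.le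
  have h5 : ‖e w‖ * (‖w‖ ^ K / ‖c‖ ^ K) * ‖c‖ ^ K = ‖e w‖ * ‖w‖ ^ K := by
    field_simp
  rw [h5] at h4
  calc ‖e w‖ * ‖w‖ ^ K ≤ C * ‖e' w‖ * ‖c‖ ^ K := h4
    _ = C * ‖c‖ ^ K * ‖e' w‖ := by ring

/-- coordinates of maps which extend -/
theorem mrel_of_extends {g : ℂ → Fin (n + 1) → ℂ} (h : Extends g) {j k : Fin (n + 1)}
    (hk : Nz fun w => g w k) : MRel (fun w => g w j) (fun w => g w k) := by
  obtain ⟨G, hG, -, hgG⟩ := h
  have han : ∀ i, AnalyticAt ℂ (fun w => G w i) 0 := by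
    intro i
    have h1 : DifferentiableOn ℂ (fun w => G w i) (ball 0 1) := fun z hz =>
      (differentiableWithinAt_pi.mp (hG z hz)) i
    exact h1.analyticAt (isOpen_ball.mem_nhds (mem_ball_self one_pos))
  have hne : ∀ᶠ w in 𝓝[≠] (0 : ℂ), G w k ≠ 0 := by
    rcases (han k).eventually_eq_zero_or_eventually_ne_zero with h1 | h1
    · exfalso
      apply hk
      filter_upwards [nhdsWithin_le_nhds h1, PB_mem one_pos] with w h2 h3
      obtain ⟨c, hc⟩ := hgG w (mem_disc.mpr h3)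
      have h4 := congrFun hc k
      rw [Pi.smul_apply, h2, smul_zero] at h4
      exact h4
    · exact h1
  refine ⟨fun w => G w j / G w k, (han j).meromorphicAt.fun_div (han k).meromorphicAt, ?_⟩
  filter_upwards [hne, PB_mem one_pos] with w h2 h3
  obtain ⟨c, hc⟩ := hgG w (mem_disc.mpr h3)
  rw [hc, Pi.smul_apply, Pi.smul_apply, smul_eq_mul, smul_eq_mul]
  field_simp

/-- lifting of maps from the punctured disc -/
theorem lift_pcurve {ι : Type} (hd : 0 < d) {F : ι → MvPolynomial (Fin (n + 1)) ℂ}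
    {H : Fin q → MvPolynomial (Fin (n + 1)) ℂ} {f : ℂ → Fin (n + 1) → ℂ} (hf : PCurve ∅ F f)
    (hfH : ∀ z ∈ ball (0 : ℂ) 1 \ {0}, ∀ l, eval (f z) (H l) ≠ 0) :
    ∃ (c : ℂ) (g : ℂ → Fin (n + q + 1) → ℂ), c ≠ 0 ∧ (∀ t ∈ PB 1, c * t ^ d ∈ PB 1) ∧
      PCurve {x | ∃ l, x = bdv n q l} (sysG d F H) g ∧
      ∀ t j, g t (emb n q j) = f (c * t ^ d) j := by
  classical
  have hroot : ∀ l, ∃ r : ℂ → ℂ, Pun r ∧ ∀ᶠ t in 𝓝[≠] (0 : ℂ), r t ^ d =
      eval (f (t ^ d)) (H l) := fun l =>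
    root (on_pun one_pos (eval_an hf.an (H l))) (by
      filter_upwards [PB_mem one_pos] with w hw
      exact hfH w (mem_disc.mpr hw) l) hd
  choose r hr1 hr2 using hroot
  have hall : ∀ᶠ t in 𝓝[≠] (0 : ℂ), ∀ l, AnalyticAt ℂ (r l) t ∧
      r l t ^ d = eval (f (t ^ d)) (H l) := by
    rw [Filter.eventually_all]
    intro l
    filter_upwards [hr1 l, hr2 l] with t h1 h2
    exact ⟨h1, h2⟩
  obtain ⟨δ0, hδ0, hδ⟩ := ev_iff.mp hall
  set δ : ℝ := min δ0 1 with hδdef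
  have hδpos : 0 < δ := lt_min hδ0 one_pos
  have hδ1 : δ ≤ 1 := min_le_right _ _
  have hδC : (δ : ℂ) ≠ 0 := by exact_mod_cast hδpos.ne'
  have hmem : ∀ t ∈ PB 1, (δ : ℂ) * t ∈ PB δ0 := by
    intro t ht
    refine ⟨mul_ne_zero hδC ht.1, ?_⟩
    rw [norm_mul, Complex.norm_real, Real.norm_of_nonneg hδpos.le]
    calc δ * ‖t‖ < δ * 1 := mul_lt_mul_of_pos_left ht.2 hδpos
      _ ≤ δ0 := by rw [mul_one]; exact min_le_left _ _
  have hmem2 : ∀ t ∈ PB 1, (δ : ℂ) ^ d * t ^ d ∈ PB 1 := by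
    intro t ht
    refine ⟨mul_ne_zero (pow_ne_zero _ hδC) (pow_ne_zero _ ht.1), ?_⟩
    rw [norm_mul, norm_pow, norm_pow, Complex.norm_real, Real.norm_of_nonneg hδpos.le]
    have h1 : δ ^ d ≤ 1 := pow_le_one₀ hδpos.le hδ1
    have h2 : ‖t‖ ^ d < 1 := pow_lt_one₀ (norm_nonneg _) ht.2 hd.ne'
    calc δ ^ d * ‖t‖ ^ d ≤ 1 * ‖t‖ ^ d := mul_le_mul_of_nonneg_right h1 (by positivity)
      _ < 1 := by rw [one_mul]; exact h2
  let g : ℂ → Fin (n + q + 1) → ℂ := fun t =>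
    upPt (f ((δ : ℂ) ^ d * t ^ d)) fun l => r l ((δ : ℂ) * t)
  have g1 : ∀ t j, g t (emb n q j) = f ((δ : ℂ) ^ d * t ^ d) j := fun t j => upPt_emb _ _ j
  have g2 : ∀ t l, g t (bdv n q l) = r l ((δ : ℂ) * t) := fun t l => upPt_bdv _ _ l
  have hrd : ∀ t ∈ PB 1, ∀ l, r l ((δ : ℂ) * t) ^ d =
      eval (f ((δ : ℂ) ^ d * t ^ d)) (H l) := by
    intro t ht l
    rw [(hδ _ (hmem t ht) l).2, mul_pow]
  refine ⟨(δ : ℂ) ^ d, g, pow_ne_zero _ hδC, hmem2, ⟨?_, fun t ht => ⟨?_, ?_, ?_⟩⟩, g1⟩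
  · intro t ht
    have ht' := mem_disc.mp ht
    refine differentiableWithinAt_pi.mpr fun x => DifferentiableAt.differentiableWithinAt ?_
    rcases var_cases n q x with ⟨j, rfl⟩ | ⟨l, rfl⟩
    · have h1 : (fun t => g t (emb n q j)) = fun t => f ((δ : ℂ) ^ d * t ^ d) j :=
        funext fun t => g1 t j
      rw [h1]
      have h2 : DifferentiableAt ℂ (fun z => f z j) ((δ : ℂ) ^ d * t ^ d) :=
        (hf.an j _ (hmem2 t ht')).differentiableAt
      have h3 : DifferentiableAt ℂ (fun t : ℂ => (δ : ℂ) ^ d * t ^ d) t :=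
        (differentiableAt_id.pow d).const_mul _
      exact h2.comp t h3
    · have h1 : (fun t => g t (bdv n q l)) = fun t => r l ((δ : ℂ) * t) :=
        funext fun t => g2 t l
      rw [h1]
      have h2 : DifferentiableAt ℂ (r l) ((δ : ℂ) * t) :=
        (hδ _ (hmem t ht') l).1.differentiableAt
      have h3 : DifferentiableAt ℂ (fun t : ℂ => (δ : ℂ) * t) t :=
        differentiableAt_id.const_mul _
      exact h2.comp t h3
  · have ht' := mem_disc.mp ht
    obtain ⟨j, hj⟩ := Function.ne_iff.1 (hf.2 _ (mem_disc.mpr (hmem2 t ht'))).1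
    intro h0
    have h1 := congrFun h0 (emb n q j)
    rw [g1] at h1
    exact hj h1
  · rintro _ ⟨l, rfl⟩
    rw [g2]
    intro h0
    have ht' := mem_disc.mp ht
    have h1 := hrd t ht' l
    rw [h0, zero_pow hd.ne'] at h1
    exact hfH _ (mem_disc.mpr (hmem2 t ht')) l h1.symm
  · have ht' := mem_disc.mp ht
    intro e
    rcases e with e | l
    · change eval (g t) (rename (emb n q) (F e)) = 0
      rw [eval_lift]
      simp only [g1]
      exact (hf.2 _ (mem_disc.mpr (hmem2 t ht'))).2.2 e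
    · change eval (g t) (X (bdv n q l) ^ d - rename (emb n q) (H l)) = 0
      rw [map_sub, map_pow, eval_X, eval_lift, g2]
      simp only [g1]
      rw [hrd t ht', sub_self]

/-- maps which extend after lifting -/
theorem extends_down {ι : Type} (hd : 0 < d) {F : ι → MvPolynomial (Fin (n + 1)) ℂ}
    {f : ℂ → Fin (n + 1) → ℂ} (hf : PCurve ∅ F f) {c : ℂ} (hc : c ≠ 0)
    {g : ℂ → Fin (n + q + 1) → ℂ} (hgf : ∀ t j, g t (emb n q j) = f (c * t ^ d) j)
    (hg : Extends g) : Extends f := by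
  refine extends_of f hf.an (fun w hw => (hf.2 w (mem_disc.mpr hw)).1) fun j k hj hk => ?_
  have hP : ∀ j, Pun fun w => f w j := fun j => on_pun one_pos (hf.an j)
  have hk' : Nz fun w => g w (emb n q k) := by
    intro h0
    -- the coordinate `k` vanishes near the puncture
    have h1 : ∀ᶠ t in 𝓝[≠] (0 : ℂ), f (c * t ^ d) k = 0 := by
      filter_upwards [h0] with t ht
      rw [← hgf]
      exact ht
    have hNz : Nz fun w => f (c * w) k := by
      intro h2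
      apply hk
      obtain ⟨δ, hδ, h3⟩ := ev_iff.mp h2
      refine ev_iff.mpr ⟨‖c‖ * δ, mul_pos (norm_pos_iff.2 hc) hδ, fun w hw => ?_⟩
      have h4 := h3 (w / c) ⟨div_ne_zero hw.1 hc, by
        rw [norm_div, div_lt_iff₀ (norm_pos_iff.2 hc), mul_comm]
        exact hw.2⟩
      have h5 : c * (w / c) = w := mul_div_cancel₀ w hc
      simpa only [h5] using h4
    exact hNz.comp_pow hd h1
  have h1 := (mrel_of_extends hg (j := emb n q j) hk').gr
  have h2 : Gr (fun t => (fun w => f (c * w) j) (t ^ d)) (fun t => (fun w => f (c * w) k) (t ^ d)) := by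
    obtain ⟨C, K, h3⟩ := h1
    refine ⟨C, K, ?_⟩
    filter_upwards [h3] with t ht
    rw [hgf, hgf] at ht
    exact ht
  exact growth_mero (hP j) (hP k) hk (gr_scale hc (gr_descend hd h2))

/-- **Components of log general type are pseudo-Picard hyperbolic.** -/
theorem picardX_of_lgt {a : Fin s → (Fin (n + 1) →₀ ℕ)} {F : Fin m → MvPolynomial (Fin (n + 1)) ℂ}
    {H : Fin q → MvPolynomial (Fin (n + 1)) ℂ} (hd : 0 < d)
    (hg : ∃ s' N, Good (withPowers d (liftA q a)) s' N)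
    (hdeg : ∀ i, ∑ j, a i j = d) (hF : ∀ e, (F e).support ⊆ withPowers d a)
    (hH : ∀ l, (H l).support ⊆ withPowers d a) {K : Type} [Field K] [Algebra ℂ K] {w : ℕ}
    {y : Fin (n + 1) → K} (hy : SubVar F K w y) (hcomp : IsComponent F y)
    (hHy : ∀ l, val y (H l) ≠ 0) (hlgt : LgtX d H w y) : PicardX H y := by
  classical
  have hFd : ∀ l, (F l).IsHomogeneous d := fun l => isForm_of_deg fun α hα =>
    deg_withPowers (a := a) hdeg α (hF l hα)
  have hHd : ∀ l, (H l).IsHomogeneous d := fun l => isForm_of_deg fun α hα =>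
    deg_withPowers (a := a) hdeg α (hH l hα)
  obtain ⟨s', N, hg⟩ := hg
  have hC := hg.sys (sysG_support hF hH) {x | ∃ l, x = bdv n q l}
  obtain ⟨e1, he1⟩ := excC_form (fun e => ⟨d, hFd e⟩) y
  obtain ⟨e2, he2⟩ := excC_form (fun e => ⟨d, hHd e⟩) y
  refine ⟨excC F y * excC H y, ⟨_, he1.mul he2⟩, ?_, ?_⟩
  · unfold val
    rw [map_mul]
    exact mul_ne_zero (excC_ne F y) (excC_ne H y)
  · rintro f hf hfV ⟨z1, hz1, hG1⟩
    by_contra hE
    have hP : PCurve ∅ F f := ⟨hf, fun z hz => ⟨(hfV z hz).1, fun j hj => absurd hj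
      (Set.notMem_empty j), fun e => (hfV z hz).2.1 _ ⟨d, hFd e⟩ (hy.mem e)⟩⟩
    obtain ⟨c, g, hc, hmem, hgP, hgf⟩ := lift_pcurve (H := H) hd hP fun z hz l => (hfV z hz).2.2 l
    obtain ⟨b, x1, x2, hx1, hx2, hb, hs⟩ := pcurve hC g hgP fun h => hE
      (extends_down hd hP hc hgf h)
    have ho : ∀ t ∈ PB 1, OrbitIn (sysG d F H) b (g t) := by
      intro t ht u hu e
      rw [← val_eval]
      refine val_orbit (L := ℂ) (g t) b hu _ fun v => ?_
      rw [wc_eq]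
      exact hs e v t ht
    have hbd : ∀ t ∈ PB 1, ∀ l, g t (bdv n q l) ≠ 0 := fun t ht l =>
      (hgP.2 t (mem_disc.mpr ht)).2.1 _ ⟨l, rfl⟩
    -- the point where the exceptional form does not vanish
    obtain ⟨w0, hw0, hG0⟩ := nz_on (norm_pos_iff.2 hc)
      (nz_of_on (eval_an hP.an (excC F y * excC H y)) (mem_disc.mp hz1) hG1)
    obtain ⟨t0, ht0⟩ := IsAlgClosed.exists_pow_nat_eq (w0 / c) hd
    have ht0m : t0 ∈ PB 1 := by
      constructor
      · rintro rfl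
        rw [zero_pow hd.ne'] at ht0
        exact div_ne_zero hw0.1 hc ht0.symm
      · have h1 : ‖t0‖ ^ d < 1 := by
          rw [← norm_pow, ht0, norm_div, div_lt_one (norm_pos_iff.2 hc)]
          exact hw0.2
        by_contra hcon
        push Not at hcon
        exact absurd h1 (not_lt.mpr (one_le_pow₀ hcon))
    have hct : c * t0 ^ d = w0 := by rw [ht0, mul_div_cancel₀ _ hc]
    have hgt0 : (fun j => g t0 (emb n q j)) = f w0 := by
      funext j
      rw [hgf, hct]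
    have hex : ∃ j j', b (emb n q j) ≠ b (emb n q j') ∧
        (∃ t ∈ PB 1, f (c * t ^ d) j ≠ 0) ∧ ∃ t ∈ PB 1, f (c * t ^ d) j' ≠ 0 := by
      by_contra hcon
      push Not at hcon
      obtain ⟨j0, hj0⟩ := Function.ne_iff.1 (hfV _ (mem_disc.mpr (hmem t0 ht0m))).1
      have hall : ∀ t ∈ PB 1, ∀ j, g t (emb n q j) ≠ 0 → b (emb n q j) = b (emb n q j0) := by
        intro t ht j hj
        by_contra hne
        rw [hgf] at hj
        exact hj0 (hcon j j0 hne ⟨t, ht, hj⟩ t0 ht0m)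
      have hall2 : ∀ t ∈ PB 1, ∀ x, g t x ≠ 0 → b x = b (emb n q j0) := by
        intro t ht x hx
        rcases var_cases n q x with ⟨j, rfl⟩ | ⟨l, rfl⟩
        · exact hall t ht j hx
        · exact (orbit_down hd hHd (ho t ht) (hbd t ht)).2 _ (hall t ht) l
      obtain ⟨t1, ht1, h1⟩ := nz_on one_pos hx1
      obtain ⟨t2, ht2, h2⟩ := nz_on one_pos hx2
      exact hb ((hall2 t1 ht1 x1 h1).trans (hall2 t2 ht2 x2 h2).symm)
    obtain ⟨j, j', hjj, ⟨tj, htj, hj⟩, ⟨tj', htj', hj'⟩⟩ := hex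
    have hsupp : ∀ j, ∀ t ∈ PB 1, f (c * t ^ d) j ≠ 0 → y j ≠ 0 := by
      intro j t ht hj h0
      apply hj
      have h1 := (hfV _ (mem_disc.mpr (hmem t ht))).2.1 (X j) ⟨1, isHomogeneous_X _ _⟩ (by
        unfold val
        rw [aeval_X]
        exact h0)
      rwa [eval_X] at h1
    obtain ⟨hwF, hwH⟩ := wc_down (ho t0 ht0m)
    rw [hgt0] at hwF hwH
    rw [map_mul] at hG0
    have hFy : ∀ e v, val y (wc (fun j => b (emb n q j)) v (F e)) = 0 := fun e v =>
      excC_sub (z := f w0) (by rw [val_eval]; exact left_ne_zero_of_mul hG0) e _ v (hwF e v)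
    refine not_lgt_of_weights hy.ne hy.gen hy.dim (hsupp j tj htj hj) (hsupp j' tj' htj' hj') hjj
      (fun G hG h0 v => ideal_hom (subVar_iff.2 hy) (componentU_of hcomp) hFy G hG h0 v) hHd hHy
      (fun l => ?_) hlgt
    obtain ⟨v0, hv0⟩ := hwH l
    exact ⟨v0, fun v hv => excC_sub (z := f w0) (by
      rw [val_eval]; exact right_ne_zero_of_mul hG0) l _ v (hv0 v hv)⟩

/-- **The four properties, and one-parameter groups.** -/
theorem five_pairs {a : Fin s → (Fin (n + 1) →₀ ℕ)} {F : Fin m → MvPolynomial (Fin (n + 1)) ℂ}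
    {H : Fin q → MvPolynomial (Fin (n + 1)) ℂ} (hd : 0 < d)
    (hg : ∃ s' N, Good (withPowers d (liftA q a)) s' N)
    (hdeg : ∀ i, ∑ j, a i j = d) (hF : ∀ e, (F e).support ⊆ withPowers d a)
    (hH : ∀ l, (H l).support ⊆ withPowers d a) {K : Type} [Field K] [Algebra ℂ K] {w : ℕ}
    (hw : 1 ≤ w) {y : Fin (n + 1) → K} (hy : SubVar F K w y) (hcomp : IsComponent F y)
    (hHy : ∀ l, val y (H l) ≠ 0) :
    [LgtX d H w y, PicardX H y, BrodyX H y, StronglyX d H y,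
      ∀ b : Fin (n + 1) → ℤ, ActsX H y b → ∀ i i', y i ≠ 0 → y i' ≠ 0 → b i = b i'].TFAE := by
  have h := four_pairs hd hg hdeg hF hH hw hy hcomp hHy
  tfae_have 1 → 2 := fun h => picardX_of_lgt hd hg hdeg hF hH hy hcomp hHy h
  tfae_have 2 → 3 := fun h => brodyX_of_picardX h
  tfae_have 1 ↔ 3 := h.out 0 1
  tfae_have 1 ↔ 4 := h.out 0 2
  tfae_have 1 ↔ 5 := h.out 0 3
  tfae_finish

end Pool.Agent.R869.Wd
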