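import Pool.Agent.R869.XAlg

/-!
The criterion for complements of hypersurfaces in projective space.
-/

set_option autoImplicit false

open FF MvPolynomial Filter Metric Topology Pool.Agent.W602.GT Pool.Agent.H159R3.GGLLog
  Pool.Agent.W603.BP Pool.Agent.R869
open Pool.Agent.W603.GR (OffQ exists_min ord_form)

namespace Pool.Agent.R869.Wd

variable {n s q d m : ℕ}

/-- orbits through general points of subvarieties which are not of log general type -/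
theorem orbitX_of_alg {ι : Type} {a : Fin s → (Fin (n + 1) →₀ ℕ)} (hd : 0 < d)
    (hg : ∃ s' N, Good (withPowers d (liftA q a)) s' N) (hdeg : ∀ i, ∑ j, a i j = d)
    {F : ι → MvPolynomial (Fin (n + 1)) ℂ} {H : Fin q → MvPolynomial (Fin (n + 1)) ℂ}
    (hF : ∀ e, (F e).support ⊆ withPowers d a) (hH : ∀ l, (H l).support ⊆ withPowers d a)
    {K : Type} [Field K] [Algebra ℂ K] {w : ℕ} (hw : 1 ≤ w) {y : Fin (n + 1) → K}
    (hy : SubVar F K w y) (hHy : ∀ l, val y (H l) ≠ 0) (hgt : ¬ LgtX d H w y)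
    {G : MvPolynomial (Fin (n + 1)) ℂ} (hG : val y G ≠ 0) :
    ∃ (x : Fin (n + 1) → ℂ) (b : Fin (n + 1) → ℤ), (∀ j, x j ≠ 0 ↔ y j ≠ 0) ∧
      (∃ j j', y j ≠ 0 ∧ y j' ≠ 0 ∧ b j ≠ b j') ∧ eval x G ≠ 0 ∧ OrbitX F H b x := by
  classical
  obtain ⟨b, i, i', hi, hi', hb, hwF, hwH⟩ := weights_pair hd hg hdeg hF hH hw hy.ne hy.mem
    hy.gen hy.dim hHy hgt
  let R : MvPolynomial (Fin (n + 1)) ℂ := G * (∏ j ∈ Finset.univ.filter (fun j => y j ≠ 0), X j) *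
    ∏ l, H l
  have hR : aeval y R ≠ 0 := by
    simp only [R, map_mul, map_prod, aeval_X]
    exact mul_ne_zero (mul_ne_zero hG (Finset.prod_ne_zero_iff.2 fun j hj =>
      (Finset.mem_filter.1 hj).2)) (Finset.prod_ne_zero_iff.2 fun l _ => hHy l)
  obtain ⟨x, hx, hx0⟩ := specialise y R hR
  simp only [R, map_mul, map_prod, aeval_X] at hx
  have h1 := left_ne_zero_of_mul hx
  have hsupp : ∀ j, x j ≠ 0 ↔ y j ≠ 0 := fun j => ⟨fun hxj hyj => hxj (by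
    have h1 := hx0 (X j) (by rw [aeval_X]; exact hyj)
    rwa [aeval_X] at h1), fun hyj => Finset.prod_ne_zero_iff.1 (right_ne_zero_of_mul h1) j
      (Finset.mem_filter.2 ⟨Finset.mem_univ _, hyj⟩)⟩
  refine ⟨x, b, hsupp, ⟨i, i', hi, hi', hb⟩, ?_, fun t ht => ⟨fun e => ?_, fun l => ?_⟩⟩
  · rw [← val_eval]
    exact left_ne_zero_of_mul h1
  · rw [← val_eval]
    exact val_orbit (L := ℂ) x b ht (F e) fun v => hx0 _ (hwF e v)
  · obtain ⟨v0, hv0⟩ := hwH l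
    rw [← val_eval, val_orbit_one x b ht (H l) v0 fun v hv => hx0 _ (hv0 v hv)]
    exact mul_ne_zero (zpow_ne_zero _ ht)
      (Finset.prod_ne_zero_iff.1 (right_ne_zero_of_mul hx) l (Finset.mem_univ l))

/-- orbits from maps from the punctured disc which do not extend -/
theorem orbitX_of_disc {ι : Type} {a : Fin s → (Fin (n + 1) →₀ ℕ)} (hd : 0 < d)
    (hg : ∃ s' N, Good (withPowers d (liftA q a)) s' N) (hdeg : ∀ i, ∑ j, a i j = d)
    {F : ι → MvPolynomial (Fin (n + 1)) ℂ} {H : Fin q → MvPolynomial (Fin (n + 1)) ℂ}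
    (hF : ∀ e, (F e).support ⊆ withPowers d a) (hH : ∀ l, (H l).support ⊆ withPowers d a)
    {f : ℂ → Fin (n + 1) → ℂ} (hf : PCurve ∅ F f)
    (hfH : ∀ z ∈ ball (0 : ℂ) 1 \ {0}, ∀ l, eval (f z) (H l) ≠ 0) (hE : ¬ Extends f) :
    ∃ b : Fin (n + 1) → ℤ, (∃ j j', b j ≠ b j' ∧ Nz (fun w => f w j) ∧ Nz (fun w => f w j')) ∧
      ∃ δ > 0, ∀ w ∈ PB δ, OrbitX F H b (f w) := by
  classical
  have hHd : ∀ l, (H l).IsHomogeneous d := fun l => isForm_of_deg fun α hα =>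
    deg_withPowers (a := a) hdeg α (hH l hα)
  obtain ⟨s', N, hg⟩ := hg
  have hC := hg.sys (sysG_support hF hH) {x | ∃ l, x = bdv n q l}
  obtain ⟨c, g, hc, hmem, hgP, hgf⟩ := lift_pcurve (H := H) hd hf hfH
  obtain ⟨b, x1, x2, hx1, hx2, hb, hs⟩ := pcurve hC g hgP fun h => hE
    (extends_down hd hf hc hgf h)
  have ho : ∀ t ∈ PB 1, OrbitIn (sysG d F H) b (g t) := by
    intro t ht u hu e
    rw [← val_eval]
    refine val_orbit (L := ℂ) (g t) b hu _ fun v => ?_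
    rw [wc_eq]
    exact hs e v t ht
  have hbd : ∀ t ∈ PB 1, ∀ l, g t (bdv n q l) ≠ 0 := fun t ht l =>
    (hgP.2 t (mem_disc.mpr ht)).2.1 _ ⟨l, rfl⟩
  refine ⟨fun j => b (emb n q j), ?_, ‖c‖, norm_pos_iff.2 hc, fun w0 hw0 => ?_⟩
  · by_contra hcon
    push Not at hcon
    obtain ⟨t0, ht0⟩ := PB_nonempty one_pos
    have hne0 := (hf.2 _ (mem_disc.mpr (hmem t0 ht0))).1
    obtain ⟨j0, hj0⟩ := Function.ne_iff.1 hne0
    have hNz : ∀ t ∈ PB 1, ∀ j, g t (emb n q j) ≠ 0 → Nz fun w => f w j := by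
      intro t ht j hj
      rw [hgf] at hj
      exact nz_of_on (hf.an j) (hmem t ht) hj
    have hj0' : Nz fun w => f w j0 := nz_of_on (hf.an j0) (hmem t0 ht0) hj0
    have hall : ∀ t ∈ PB 1, ∀ j, g t (emb n q j) ≠ 0 → b (emb n q j) = b (emb n q j0) := by
      intro t ht j hj
      by_contra hne
      exact hcon j j0 hne (hNz t ht j hj) hj0'
    have hall2 : ∀ t ∈ PB 1, ∀ x, g t x ≠ 0 → b x = b (emb n q j0) := by
      intro t ht x hx
      rcases var_cases n q x with ⟨j, rfl⟩ | ⟨l, rfl⟩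
      · exact hall t ht j hx
      · exact (orbit_down hd hHd (ho t ht) (hbd t ht)).2 _ (hall t ht) l
    obtain ⟨t1, ht1, h1⟩ := nz_on one_pos hx1
    obtain ⟨t2, ht2, h2⟩ := nz_on one_pos hx2
    exact hb ((hall2 t1 ht1 x1 h1).trans (hall2 t2 ht2 x2 h2).symm)
  · obtain ⟨t0, ht0⟩ := IsAlgClosed.exists_pow_nat_eq (w0 / c) hd
    have ht0m : t0 ∈ PB 1 := by
      constructor
      · rintro rfl
        rw [zero_pow hd.ne'] at ht0
        exact div_ne_zero hw0.1 hc ht0.symm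
      · have h1 : ‖t0‖ ^ d < 1 := by
          rw [← norm_pow, ht0, norm_div, div_lt_one (norm_pos_iff.2 hc)]
          exact hw0.2
        by_contra hcon
        push Not at hcon
        exact absurd h1 (not_lt.mpr (one_le_pow₀ hcon))
    have hgt0 : (fun j => g t0 (emb n q j)) = f w0 := by
      funext j
      rw [hgf, ht0, mul_div_cancel₀ _ hc]
    have h1 := (orbit_down hd hHd (ho t0 ht0m) (hbd t0 ht0m)).1
    rwa [hgt0] at h1

/-- **The criterion for complements of hypersurfaces in projective space.** -/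
theorem complementAll {I : Fin s → Finset (Fin (n + 1))} {a : Fin s → (Fin (n + 1) →₀ ℕ)}
    (h : TypI (liftI 1 I) d (liftA 1 a)) {G : MvPolynomial (Fin (n + 1)) ℂ}
    (hG : G.support ⊆ withPowers d a) (J : Finset (Fin (n + 1))) :
    [LooseOff G J,
      ∃ f, CurveX (fun e : Fin 0 => Fin.elim0 e) (fun _ : Fin 1 => G) f ∧
        ∀ j, (∃ z, f z j ≠ 0) ↔ j ∈ J,
      ∃ (x : Fin (n + 1) → ℂ) (b : Fin (n + 1) → ℤ), (∀ j, x j ≠ 0 ↔ j ∈ J) ∧
        (∃ j ∈ J, ∃ j' ∈ J, b j ≠ b j') ∧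
        OrbitX (fun e : Fin 0 => Fin.elim0 e) (fun _ : Fin 1 => G) b x,
      ∃ f : ℂ → Fin (n + 1) → ℂ, DifferentiableOn ℂ f (ball 0 1 \ {0}) ∧
        (∀ z ∈ ball (0 : ℂ) 1 \ {0}, f z ≠ 0 ∧ eval (f z) G ≠ 0) ∧ ¬ Extends f ∧
        ∀ j, (∃ z ∈ ball (0 : ℂ) 1 \ {0}, f z j ≠ 0) ↔ j ∈ J,
      ∃ (K : Type) (_ : Field K) (_ : Algebra ℂ K) (w : ℕ) (y : Fin (n + 1) → K), 1 ≤ w ∧
        SubVar (fun e : Fin 0 => (Fin.elim0 e : MvPolynomial (Fin (n + 1)) ℂ)) K w y ∧ val y G ≠ 0 ∧ (∀ j, y j ≠ 0 ↔ j ∈ J) ∧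
        ¬ LgtX d (fun _ : Fin 1 => G) w y].TFAE := by
  classical
  have hdeg : ∀ i, ∑ j, a i j = d := fun i => by
    have h1 := (h.mem i).2
    unfold liftA at h1
    rwa [sum_embDomain] at h1
  have hGd : ∀ α ∈ G.support, ∑ j, α j = d := fun α hα => deg_withPowers (a := a) hdeg α (hG hα)
  have hHd : ∀ l : Fin 1, ((fun _ : Fin 1 => G) l).IsHomogeneous d := fun l =>
    isForm_of_deg hGd
  set F0 : Fin 0 → MvPolynomial (Fin (n + 1)) ℂ := fun e => Fin.elim0 e with hF0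
  have hF0s : ∀ e, (F0 e).support ⊆ withPowers d a := fun e => Fin.elim0 e
  have h1 := complement h hG J
  rw [loose_cover h.pos hGd J] at h1
  tfae_have 1 ↔ 2 := h1.out 0 1
  tfae_have 1 ↔ 3 := h1.out 0 2
  tfae_have 2 → 4 := by
    rintro ⟨f, hf, hJ⟩
    obtain ⟨h2, h3⟩ := sin_curve hf.1
    refine ⟨_, h2.1, fun z hz => ⟨(h2.2 z hz).1, hf.2 0 _⟩, h3, fun j => ?_⟩
    rw [← hJ]
    constructor
    · rintro ⟨z, -, hz⟩
      exact ⟨_, hz⟩
    · rintro ⟨z, hz⟩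
      obtain ⟨w, hw, hwz⟩ := sin_point z
      exact ⟨w, hw, by rw [hwz]; exact hz⟩
  tfae_have 4 → 3 := by
    rintro ⟨f, hf, hfG, hE, hJ⟩
    have hP : PCurve ∅ F0 f := ⟨hf, fun z hz => ⟨(hfG z hz).1,
      fun j hj => absurd hj (Set.notMem_empty j), fun e => Fin.elim0 e⟩⟩
    obtain ⟨b, ⟨j, j', hjj, hj, hj'⟩, δ, hδ, ho⟩ := orbitX_of_disc (H := fun _ : Fin 1 => G) h.pos
      h.good hdeg hF0s (fun _ => hG) hP (fun z hz _ => (hfG z hz).2) hE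
    have hNz : ∀ i ∈ J, Nz fun w => f w i := fun i hi => by
      obtain ⟨z, hz, hne⟩ := (hJ i).2 hi
      exact nz_of_on (hP.an i) (mem_disc.mp hz) hne
    have hmemJ : ∀ i, Nz (fun w => f w i) → i ∈ J := fun i hi => by
      obtain ⟨z, hz, hne⟩ := nz_on one_pos hi
      exact (hJ i).1 ⟨z, mem_disc.mpr hz, hne⟩
    obtain ⟨w0, hw0, hw1⟩ := nz_on (lt_min hδ one_pos) (Nz.prod J (f := fun i w => f w i)
      (fun i _ => on_pun one_pos (hP.an i)) hNz)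
    have hw0δ : w0 ∈ PB δ := PB_mono (min_le_left _ _) hw0
    have hw01 : w0 ∈ PB 1 := PB_mono (min_le_right _ _) hw0
    refine ⟨f w0, b, fun i => ⟨fun hi => (hJ i).1 ⟨w0, mem_disc.mpr hw01, hi⟩,
      fun hi => Finset.prod_ne_zero_iff.1 hw1 i hi⟩, ⟨j, hmemJ j hj, j', hmemJ j' hj', hjj⟩,
      ho w0 hw0δ⟩
  tfae_have 3 → 5 := by
    rintro ⟨x, b, hx, ⟨j, hj, j', hj', hjj⟩, ho⟩
    obtain ⟨K, i1, i2, y, hy, hHy, hyx, hno⟩ := alg_of_orbitX h.pos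
      (fun e => Fin.elim0 e) hHd ho ⟨j, j', (hx j).2 hj, (hx j').2 hj', hjj⟩
    exact ⟨K, i1, i2, 1, y, le_rfl, hy, hHy 0, fun i => (hyx i).trans (hx i), hno⟩
  tfae_have 5 → 3 := by
    rintro ⟨K, _, _, w, y, hw, hy, hGy, hyJ, hno⟩
    obtain ⟨x, b, hx, ⟨j, j', hj, hj', hjj⟩, -, ho⟩ := orbitX_of_alg (H := fun _ : Fin 1 => G)
      h.pos h.good hdeg hF0s (fun _ => hG) hw hy (fun _ => hGy) hno
      (G := 1) (by unfold val; rw [map_one]; exact one_ne_zero)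
    exact ⟨x, b, fun i => (hx i).trans (hyJ i), ⟨j, (hyJ j).1 hj, j', (hyJ j').1 hj', hjj⟩, ho⟩
  tfae_finish

end Pool.Agent.R869.Wd
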