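import Pool.Agent.Y190.BV.Core
import Pool.Agent.TH466.QG.Gal

/-!
Logarithmic general type and finite coverings.
-/

set_option autoImplicit false

open FF IntermediateField Pool.Agent.W602.GT Pool.Agent.W603.LV
open Pool.Agent.Y190.BV (rs over_rs norm_ne exists_norm_basis)

namespace Pool.Agent.R869.Wd

variable {k K L : Type} [Field k] [Field K] [Field L] [Algebra k K] [Algebra k L] [Algebra K L]
  [IsScalarTower k K L] {w : ℕ}

/-- logarithmic vector fields extend to logarithmic ones -/
theorem log_over [CharZero k] [FiniteDimensional K L] {W : Place k L} {P : Place k K} {e : ℕ}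
    (h : Over W P e) {D : Derivation k K K} {E : Derivation k L L}
    (hE : ∀ x, E (algebraMap K L x) = algebraMap K L (D x)) (hD : DerLog P D) : DerLog W E := by
  intro z
  refine Pool.Agent.W619.Y.LogP.main Pool.Agent.W762.PG.main k K L P W e h E (fun f => ?_) z
  rw [hE, ← map_div₀]
  exact h.reg.2 (hD f)

/-- regular vector fields extend to regular ones, if there is no ramification -/
theorem reg_over [CharZero k] [FiniteDimensional K L] {W : Place k L} {P : Place k K}
    (h : Over W P 1) {D : Derivation k K K} {E : Derivation k L L}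
    (hE : ∀ x, E (algebraMap K L x) = algebraMap K L (D x)) (hD : DerReg P D) : DerReg W E := by
  intro z hz
  exact Pool.Agent.W762.PG.pres P W 1 h E (fun x hx => by
    rw [hE]
    exact h.reg.2 (hD x hx)) (Or.inl rfl) z hz

theorem divisorial_over {W : Place k L} {P : Place k K} {e : ℕ} (h : Over W P e)
    (hP : Divisorial w P) : Divisorial w W := by
  obtain ⟨u, hu⟩ := hP
  refine ⟨fun i => algebraMap K L (u i), fun F hF => ?_⟩
  obtain ⟨h1, h2⟩ := hu F hF
  have h3 : MvPolynomial.aeval (fun i => algebraMap K L (u i)) F =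
      algebraMap K L (MvPolynomial.aeval u F) := by
    have h4 := MvPolynomial.aeval_algebraMap_apply (B := L) u F
    exact h4
  rw [h3]
  exact ⟨(map_ne_zero _).2 h1, by rw [h.2, h2, mul_zero]⟩

/-- the norm is regular -/
theorem reg_norm [FiniteDimensional K L] [IsGalois K L] {W : Place k L} {P : Place k K} {e : ℕ}
    (h : Over W P e) {x : L} (hx : ∀ s : L ≃ₐ[K] L, (W.comp (rs s)).Reg x) :
    P.Reg (Algebra.norm K x) := by
  rw [← h.reg, Pool.Agent.Y190.BV.norm_prod]
  have h1 : ∀ S : Finset (L ≃ₐ[K] L), W.Reg (∏ s ∈ S, s x) := by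
    classical
    intro S
    induction S using Finset.induction_on with
    | empty =>
      rw [Finset.prod_empty]
      exact W.reg_one
    | insert a S ha ih =>
      rw [Finset.prod_insert ha]
      refine W.reg_mul ?_ ih
      rcases hx a with h2 | h2
      · left
        rw [h2, map_zero]
      · right
        exact h2
  exact h1 Finset.univ

/-- **Descent of logarithmic general type.** -/
theorem lgt_descend [CharZero k] [Infinite k] [FiniteDimensional K L] [IsGalois K L]
    {Bd : Place k K → Prop} {Bd' : Place k L → Prop} (hL : LogGeneralType k L w Bd')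
    (hlog : ∀ P : Place k K, Divisorial w P → ∃ (W : Place k L) (e : ℕ), Over W P e)
    (hreg : ∀ P : Place k K, Divisorial w P → ¬ Bd P → ∃ W : Place k L, Over W P 1 ∧
      ∀ s : L ≃ₐ[K] L, ¬ Bd' (W.comp (rs s))) : LogGeneralType k K w Bd := by
  classical
  obtain ⟨htrL, N, hN, ω, hω, hl, hr, D1, hne, hind⟩ := hL
  have htr : Algebra.trdeg k K = w := by rw [← Pool.Agent.Y190.BV.trdeg_ext (K := K) (L := L)]; exact htrL
  choose X hX1 hX2 hX3 using fun D : Derivation k K K =>
    Pool.Agent.W357.PG.main k K L w htr D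
  have hXlin : ∀ (A : Matrix (Fin w) (Fin w) K) (D : Fin w → Derivation k K K) (i : Fin w),
      X (∑ j, A i j • D j) = ∑ j, (A.map (algebraMap K L)) i j • X (D j) := by
    intro A D i
    refine (hX2 _ _ fun x => ?_).symm
    rw [Pool.Agent.W357.PG.sum_apply', Pool.Agent.W357.PG.sum_apply', map_sum]
    refine Finset.sum_congr rfl fun j _ => ?_
    change algebraMap K L (A i j) * X (D j) (algebraMap K L x) =
      algebraMap K L (A i j * D j x)
    rw [hX1, map_mul]
  -- the transcendence basis of `L`
  set f : Fin w → L := fun i => ω i.succ D1 / ω 0 D1 with hf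
  have hfb : IsTranscendenceBasis k f := by
    refine hind.isTranscendenceBasis_of_trdeg_le ?_ ?_
    · rw [htrL]
      exact Cardinal.natCast_lt_aleph0
    · rw [htrL, Cardinal.mk_fin]
  have hS : Algebra.IsAlgebraic (Algebra.adjoin k (Set.range f)) L := hfb.isAlgebraic
  obtain ⟨ι, y, hx⟩ := exists_norm_basis htr f hS
  set x : Fin w → K := fun j => Algebra.norm K (f (ι j) - algebraMap k L (y j)) with hxd
  have hD : ∀ i : Fin w, ∃ D : Derivation k K K, ∀ j, D (x j) = if i = j then 1 else 0 :=
    fun i => exists_der x hx (fun j => if i = j then 1 else 0)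
  choose D0 hD0 using hD
  have hxL : IsTranscendenceBasis k (algebraMap K L ∘ x) := hx.algebraMap_comp (A := L)
  -- the values of the forms
  have hA : ∀ i, D1 i = ∑ j, (Matrix.of fun i j => D1 i (algebraMap K L (x j))) i j • X (D0 j) := by
    intro i
    apply der_ext (algebraMap K L ∘ x) hxL
    intro j
    rw [Pool.Agent.W357.PG.sum_apply']
    change D1 i (algebraMap K L (x j)) = ∑ l, D1 i (algebraMap K L (x l)) *
      X (D0 l) (algebraMap K L (x j))
    rw [Finset.sum_eq_single j]
    · rw [hX1, hD0, if_pos rfl, map_one, mul_one]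
    · intro l _ hl
      rw [hX1, hD0, if_neg hl, map_zero, mul_zero]
    · intro h
      exact absurd (Finset.mem_univ j) h
  have hval : ∀ j, ω j D1 = (Matrix.of fun i j => D1 i (algebraMap K L (x j))).det ^ N *
      ω j (fun i => X (D0 i)) := by
    intro j
    have h1 := hω j (Matrix.of fun i j => D1 i (algebraMap K L (x j))) fun i => X (D0 i)
    rw [← h1]
    congr 1
    funext i
    exact hA i
  have hdet : (Matrix.of fun i j => D1 i (algebraMap K L (x j))).det ^ N ≠ 0 := by
    intro h0
    apply hne
    rw [hval, h0, zero_mul]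
  have hne0 : ω 0 (fun i => X (D0 i)) ≠ 0 := by
    intro h0
    apply hne
    rw [hval, h0, mul_zero]
  have hrat : ∀ i : Fin w, ω i.succ (fun i => X (D0 i)) = f i * ω 0 (fun i => X (D0 i)) := by
    intro i
    rw [hf]
    change _ = ω i.succ D1 / ω 0 D1 * _
    rw [hval i.succ, hval 0, mul_div_mul_left _ _ hdet, div_mul_cancel₀ _ hne0]
  -- the forms on `K`
  let η : Fin (w + 1) → (Fin w → Derivation k L L) → L := Fin.cases (ω 0)
    fun j E => ω (ι j).succ E - algebraMap k L (y j) * ω 0 E
  have hη : ∀ j (A : Matrix (Fin w) (Fin w) L) (E : Fin w → Derivation k L L),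
      η j (fun i => ∑ l, A i l • E l) = A.det ^ N * η j E := by
    intro j A E
    refine Fin.cases ?_ (fun j => ?_) j
    · exact hω 0 A E
    · change ω (ι j).succ _ - algebraMap k L (y j) * ω 0 _ =
        A.det ^ N * (ω (ι j).succ E - algebraMap k L (y j) * ω 0 E)
      rw [hω, hω]
      ring
  have hηr : ∀ (W : Place k L) (E : Fin w → Derivation k L L), (∀ j, W.Reg (ω j E)) →
      ∀ j, W.Reg (η j E) := by
    intro W E h j
    refine Fin.cases ?_ (fun j => ?_) j
    · exact h 0
    · change W.Reg (ω (ι j).succ E - algebraMap k L (y j) * ω 0 E)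
      have h1 : ω (ι j).succ E - algebraMap k L (y j) * ω 0 E =
          ω (ι j).succ E + algebraMap k L (-(y j)) * ω 0 E := by
        rw [map_neg]
        ring
      rw [h1]
      exact W.reg_add (h _) (W.reg_mul (W.reg_const _) (h 0))
  refine ⟨htr, N * Module.finrank K L, Nat.mul_pos hN Module.finrank_pos,
    fun j D => Algebra.norm K (η j fun i => X (D i)), ?_, ?_, ?_, D0, ?_, ?_⟩
  · intro j A D
    have h1 : (fun i => X (∑ l, A i l • D l)) =
        fun i => ∑ l, (A.map (algebraMap K L)) i l • X (D l) := by
      funext i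
      exact hXlin A D i
    have h2 : (A.map (algebraMap K L)).det = algebraMap K L A.det := by
      rw [← RingHom.mapMatrix_apply, ← RingHom.map_det]
    change Algebra.norm K (η j fun i => X (∑ l, A i l • D l)) =
      A.det ^ (N * Module.finrank K L) * Algebra.norm K (η j fun i => X (D i))
    rw [h1, hη, h2, map_mul, ← map_pow, Algebra.norm_algebraMap, pow_mul]
  · intro P hP j D hD
    obtain ⟨W, e, hW⟩ := hlog P hP
    refine reg_norm hW fun s => hηr _ _ (fun j => ?_) j
    exact hl _ (divisorial_over (over_rs hW s) hP) j _ fun i =>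
      log_over (over_rs hW s) (hX1 (D i)) (hD i)
  · intro P hP hBd j D hD
    obtain ⟨W, hW, hWB⟩ := hreg P hP hBd
    refine reg_norm hW fun s => hηr _ _ (fun j => ?_) j
    exact hr _ (divisorial_over (over_rs hW s) hP) (hWB s) j _ fun i =>
      reg_over (over_rs hW s) (hX1 (D i)) (hD i)
  · exact norm_ne hne0
  · have h2 : (fun i : Fin w => Algebra.norm K (η i.succ fun i => X (D0 i)) /
        Algebra.norm K (η 0 fun i => X (D0 i))) = x := by
      funext i
      rw [div_eq_iff (norm_ne hne0)]
      change Algebra.norm K (ω (ι i).succ (fun i => X (D0 i)) - algebraMap k L (y i) *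
        ω 0 fun i => X (D0 i)) = _ * Algebra.norm K (ω 0 fun i => X (D0 i))
      rw [hrat, ← sub_mul, map_mul]
    rw [h2]
    exact hx.1

end Pool.Agent.R869.Wd
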