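import Pool.Agent.R869.XCrit
import Pool.Agent.R869.LFive
import Pool.Agent.R869.WCpt

/-!
Entire curves in complements of hypersurfaces: varieties of log general type.
-/

set_option autoImplicit false

open FF MvPolynomial Filter Metric Topology Pool.Agent.W602.GT Pool.Agent.H159R3.GGLLog
  Pool.Agent.W603.BP Pool.Agent.R869
open Pool.Agent.W603.GR (OffQ)

namespace Pool.Agent.R869.Wd

section general

variable {k : Type} [Field k] {n : ℕ}

theorem coeff_wc (b : Fin (n + 1) → ℤ) (v : ℤ) (G : MvPolynomial (Fin (n + 1)) k)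
    (α : Fin (n + 1) →₀ ℕ) :
    (wc b v G).coeff α = if ∑ j, (α j : ℤ) * b j = v then G.coeff α else 0 := by
  classical
  unfold wc
  rw [coeff_sum]
  simp only [coeff_monomial]
  by_cases h1 : ∑ j, (α j : ℤ) * b j = v
  · rw [if_pos h1]
    by_cases h2 : G.coeff α = 0
    · rw [h2]
      refine Finset.sum_eq_zero fun β hβ => ?_
      rw [if_neg]
      rintro rfl
      exact (mem_support_iff.1 (Finset.mem_filter.1 hβ).1) h2
    · rw [Finset.sum_eq_single α]
      · rw [if_pos rfl]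
      · intro β _ hne
        rw [if_neg hne]
      · intro h3
        exact absurd (Finset.mem_filter.2 ⟨mem_support_iff.2 h2, h1⟩) h3
  · rw [if_neg h1]
    refine Finset.sum_eq_zero fun β hβ => ?_
    rw [if_neg]
    rintro rfl
    exact h1 (Finset.mem_filter.1 hβ).2

theorem wc_sub (b : Fin (n + 1) → ℤ) (v : ℤ) (G G' : MvPolynomial (Fin (n + 1)) k) :
    wc b v (G - G') = wc b v G - wc b v G' := by
  ext α
  rw [coeff_sub, coeff_wc, coeff_wc, coeff_wc, coeff_sub]
  split_ifs
  · rfl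
  · rw [sub_zero]

/-- the values along an orbit -/
theorem val_orbit_one {K : Type} [Field K] [Algebra k K] (y : Fin (n + 1) → K)
    (b : Fin (n + 1) → ℤ) {t : K} (ht : t ≠ 0) (G : MvPolynomial (Fin (n + 1)) k) (v0 : ℤ)
    (h : ∀ v, v ≠ v0 → val y (wc b v G) = 0) :
    val (fun j => t ^ b j * y j) G = t ^ v0 * val y G := by
  classical
  have hval : ∀ t : K, t ≠ 0 → val (fun j => t ^ b j * y j) G =
      ∑ α ∈ G.support, t ^ (∑ j, (α j : ℤ) * b j) *
        (algebraMap k K (G.coeff α) * ∏ j, y j ^ α j) := by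
    intro t ht
    rw [val_eq_sum]
    refine Finset.sum_congr rfl fun α _ => ?_
    have h2 : t ^ (∑ j, (α j : ℤ) * b j) = ∏ j, (t ^ b j) ^ α j := by
      have h3 : ∀ s : Finset (Fin (n + 1)), t ^ (∑ j ∈ s, (α j : ℤ) * b j) =
          ∏ j ∈ s, (t ^ b j) ^ α j := by
        intro s
        induction s using Finset.induction_on with
        | empty => simp
        | insert a s ha ih =>
          rw [Finset.sum_insert ha, Finset.prod_insert ha, zpow_add₀ ht, ih, ← zpow_natCast,
            ← zpow_mul, mul_comm (b a)]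
      exact h3 Finset.univ
    simp only [mul_pow]
    rw [Finset.prod_mul_distrib, h2]
    ring
  have hsum : ∀ t : K, t ≠ 0 → val (fun j => t ^ b j * y j) G =
      ∑ v ∈ G.support.image fun α => ∑ j, (α j : ℤ) * b j, t ^ v * val y (wc b v G) := by
    intro t ht
    rw [hval t ht, ← Finset.sum_fiberwise_of_maps_to (t := G.support.image fun α =>
      ∑ j, (α j : ℤ) * b j) (g := fun α => ∑ j, (α j : ℤ) * b j)
      fun α hα => Finset.mem_image_of_mem _ hα]
    refine Finset.sum_congr rfl fun v _ => ?_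
    rw [val_wc, Finset.mul_sum]
    refine Finset.sum_congr rfl fun α hα => ?_
    rw [(Finset.mem_filter.1 hα).2]
  have h1 : ∀ t : K, t ≠ 0 → val (fun j => t ^ b j * y j) G = t ^ v0 *
      ∑ v ∈ G.support.image fun α => ∑ j, (α j : ℤ) * b j, val y (wc b v G) := by
    intro t ht
    rw [hsum t ht, Finset.mul_sum]
    refine Finset.sum_congr rfl fun v _ => ?_
    by_cases hv : v = v0
    · rw [hv]
    · rw [h v hv, mul_zero, mul_zero]
  have h2 := h1 1 one_ne_zero
  simp only [one_zpow, one_mul] at h2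
  rw [h1 t ht, ← h2]

theorem exists_weight {K : Type} [Field K] [Algebra k K] {y : Fin (n + 1) → K}
    {b : Fin (n + 1) → ℤ} {G : MvPolynomial (Fin (n + 1)) k} {v0 : ℤ}
    (h : ∀ v, v ≠ v0 → val y (wc b v G) = 0) (hG : val y G ≠ 0) :
    ∃ α ∈ G.support, ∑ j, (α j : ℤ) * b j = v0 := by
  classical
  by_contra hcon
  push Not at hcon
  apply hG
  have h1 : ∀ v, val y (wc b v G) = 0 := by
    intro v
    by_cases hv : v = v0
    · subst hv
      have h2 : wc b v G = 0 := by
        unfold wc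
        rw [Finset.filter_false_of_mem hcon, Finset.sum_empty]
      rw [h2]
      unfold val
      rw [map_zero]
    · exact h v hv
  have h2 := val_orbit (L := K) y b one_ne_zero G h1
  simpa using h2

end general

section cover

variable {n q d : ℕ} {ι : Type}

theorem wt_emb (α : Fin (n + 1) →₀ ℕ) (b : Fin (n + q + 1) → ℤ) :
    ∑ x, ((α.mapDomain (emb n q)) x : ℤ) * b x = ∑ j, (α j : ℤ) * b (emb n q j) := by
  classical
  rw [← Finsupp.embDomain_eq_mapDomain]
  have h1 : ∑ x ∈ Finset.univ.map (emb n q), ((α.embDomain (emb n q)) x : ℤ) * b x =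
      ∑ x, ((α.embDomain (emb n q)) x : ℤ) * b x := by
    refine Finset.sum_subset (Finset.subset_univ _) fun x _ hx => ?_
    rw [Finsupp.embDomain_notin_range _ _ _ fun ⟨j, hj⟩ => hx
      (Finset.mem_map.2 ⟨j, Finset.mem_univ _, hj⟩), Nat.cast_zero, zero_mul]
  rw [← h1, Finset.sum_map]
  exact Finset.sum_congr rfl fun j _ => by rw [Finsupp.embDomain_apply_self]

theorem wc_rename (b : Fin (n + q + 1) → ℤ) (v : ℤ) (G : MvPolynomial (Fin (n + 1)) ℂ) :
    wc b v (rename (emb n q) G) = rename (emb n q) (wc (fun j => b (emb n q j)) v G) := by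
  classical
  ext α
  rw [coeff_wc]
  by_cases hα : ∃ β : Fin (n + 1) →₀ ℕ, β.mapDomain (emb n q) = α
  · obtain ⟨β, rfl⟩ := hα
    rw [coeff_rename_mapDomain _ (emb n q).injective, coeff_rename_mapDomain _ (emb n q).injective,
      coeff_wc, wt_emb]
  · push Not at hα
    rw [coeff_rename_eq_zero _ _ _ fun β hβ => absurd hβ (hα β),
      coeff_rename_eq_zero _ _ _ fun β hβ => absurd hβ (hα β), ite_self]

theorem wc_X_pow_ne (b : Fin (n + q + 1) → ℤ) {l : Fin q} {v : ℤ} (hv : v ≠ d * b (bdv n q l)) :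
    wc b v (X (bdv n q l) ^ d : MvPolynomial (Fin (n + q + 1)) ℂ) = 0 := by
  classical
  ext α
  rw [coeff_wc, coeff_X_pow, coeff_zero]
  by_cases hα : Finsupp.single (bdv n q l) d = α
  · subst hα
    rw [if_neg]
    rw [Finset.sum_eq_single (bdv n q l)]
    · rw [Finsupp.single_eq_same]
      exact Ne.symm hv
    · intro x _ hx
      rw [Finsupp.single_eq_of_ne hx, Nat.cast_zero, zero_mul]
    · exact fun h => absurd (Finset.mem_univ _) h
  · rw [if_neg hα, ite_self]

/-- the parts of the equations of the boundary -/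
theorem wc_down {F : ι → MvPolynomial (Fin (n + 1)) ℂ} {H : Fin q → MvPolynomial (Fin (n + 1)) ℂ}
    {b : Fin (n + q + 1) → ℤ} {x : Fin (n + q + 1) → ℂ} (ho : OrbitIn (sysG d F H) b x) :
    (∀ e v, val (fun j => x (emb n q j)) (wc (fun j => b (emb n q j)) v (F e)) = 0) ∧
    ∀ l, ∃ v0, ∀ v, v ≠ v0 →
      val (fun j => x (emb n q j)) (wc (fun j => b (emb n q j)) v (H l)) = 0 := by
  have hw : ∀ e v, val x (wc b v (sysG d F H e)) = 0 := fun e v =>
    wc_of_orbit (fun t ht => by rw [val_eval]; exact ho t ht e) v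
  have hren : ∀ G : MvPolynomial (Fin (n + 1)) ℂ, val x (rename (emb n q) G) =
      val (fun j => x (emb n q j)) G := fun G => by
    rw [val_eval, val_eval, eval_lift]
  refine ⟨fun e v => ?_, fun l => ⟨d * b (bdv n q l), fun v hv => ?_⟩⟩
  · have h1 := hw (Sum.inl e) v
    change val x (wc b v (rename (emb n q) (F e))) = 0 at h1
    rwa [wc_rename, hren] at h1
  · have h1 := hw (Sum.inr l) v
    change val x (wc b v (X (bdv n q l) ^ d - rename (emb n q) (H l))) = 0 at h1
    rw [wc_sub, wc_rename] at h1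
    have h2 := wc_X_pow_ne (n := n) (q := q) (d := d) b hv
    rw [h2, zero_sub] at h1
    have h3 : val x (-(rename (emb n q) (wc (fun j => b (emb n q j)) v (H l)))) =
        -(val x (rename (emb n q) (wc (fun j => b (emb n q j)) v (H l)))) := by
      unfold val
      rw [map_neg]
    rw [h3, neg_eq_zero, hren] at h1
    exact h1

end cover

section lgt

variable {n s q d : ℕ} {ι : Type}

/-- the weights of an entire curve -/
theorem weightsX {a : Fin s → (Fin (n + 1) →₀ ℕ)} (hd : 0 < d)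
    (hg : ∃ s' N, Good (withPowers d (liftA q a)) s' N) (hdeg : ∀ i, ∑ j, a i j = d)
    {F : ι → MvPolynomial (Fin (n + 1)) ℂ} {H : Fin q → MvPolynomial (Fin (n + 1)) ℂ}
    (hF : ∀ e, (F e).support ⊆ withPowers d a) (hH : ∀ l, (H l).support ⊆ withPowers d a)
    {f : ℂ → Fin (n + 1) → ℂ} (hf : CurveX F H f) :
    ∃ b : Fin (n + 1) → ℤ, (∃ j l, b j ≠ b l ∧ (∃ z, f z j ≠ 0) ∧ ∃ z, f z l ≠ 0) ∧
      ∀ z, (∀ e v, val (f z) (wc b v (F e)) = 0) ∧
        ∀ l, ∃ v0, ∀ v, v ≠ v0 → val (f z) (wc b v (H l)) = 0 := by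
  classical
  obtain ⟨s', N, hg⟩ := hg
  have hHd : ∀ l, (H l).IsHomogeneous d := fun l => isForm_of_deg fun α hα =>
    deg_withPowers (a := a) hdeg α (hH l hα)
  have hC := hg.sys (sysG_support hF hH) {x | ∃ l, x = bdv n q l}
  obtain ⟨B', hB'⟩ := exists_dirs (ι := Unit) (n := n + q) fun _ => withPowers d (liftA q a)
  have hdirs := dirs hC (T := fun _ => withPowers d (liftA q a)) (sysG_support hF hH)
    (B := B') fun b => by
      obtain ⟨b', hb', h1, h2⟩ := hB' b
      exact ⟨b', hb', h1, fun _ => h2 ()⟩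
  obtain ⟨g, hgc, hgf⟩ := lift_curve hd hf
  obtain ⟨b, hb, ⟨x, y, hxy, ⟨zx, hx⟩, ⟨zy, hy⟩⟩, ho⟩ := hdirs.2.1 g hgc
  have hbd : ∀ z l, g z (bdv n q l) ≠ 0 := fun z l => (hgc.2.1 z).2.1 _ ⟨l, rfl⟩
  have hfg : ∀ z, (fun j => g z (emb n q j)) = f z := fun z => funext fun j => hgf z j
  refine ⟨fun j => b (emb n q j), ?_, fun z => ?_⟩
  · by_contra hcon
    push Not at hcon
    obtain ⟨j0, hj0⟩ := Function.ne_iff.1 (hf.1.2.1 0).1
    -- all the exponents agree
    have hall : ∀ z j, g z (emb n q j) ≠ 0 → b (emb n q j) = b (emb n q j0) := by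
      intro z j hj
      by_contra hne
      rw [hgf] at hj
      exact hj0 (hcon j j0 hne ⟨z, hj⟩ 0)
    have hall2 : ∀ z x, g z x ≠ 0 → b x = b (emb n q j0) := by
      intro z x hx
      rcases var_cases n q x with ⟨j, rfl⟩ | ⟨l, rfl⟩
      · exact hall z j hx
      · exact (orbit_down hd hHd (ho z) (hbd z)).2 _ (hall z) l
    exact hxy ((hall2 zx x hx).trans (hall2 zy y hy).symm)
  · have h1 := wc_down (ho z)
    rwa [hfg] at h1

/-- an action excludes logarithmic general type -/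
theorem not_lgt_of_weights {K : Type} [Field K] [Algebra ℂ K] {w : ℕ} {y : Fin (n + 1) → K}
    (hy0 : y ≠ 0) (hgen : coords ℂ y = ⊤) (hdim : Algebra.trdeg ℂ K = w)
    {b : Fin (n + 1) → ℤ} {i i' : Fin (n + 1)} (hi : y i ≠ 0) (hi' : y i' ≠ 0) (hb : b i ≠ b i')
    (hhom : ∀ G : MvPolynomial (Fin (n + 1)) ℂ, IsForm G → val y G = 0 → ∀ v,
      val y (wc b v G) = 0)
    {H : Fin q → MvPolynomial (Fin (n + 1)) ℂ} (hHd : ∀ l, (H l).IsHomogeneous d)
    (hHy : ∀ l, val y (H l) ≠ 0)
    (hHw : ∀ l, ∃ v0, ∀ v, v ≠ v0 → val y (wc b v (H l)) = 0) :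
    ¬ LogGeneralType ℂ K w (OffQ (∏ l, H l) (∑ _l : Fin q, d) y) := by
  classical
  haveI : CharZero K := charZero_of_injective_algebraMap (algebraMap ℂ K).injective
  obtain ⟨M', hM'⟩ : ∃ M' : ℕ, ∀ j, 0 ≤ b j + M' := by
    refine ⟨∑ j, (b j).natAbs, fun j => ?_⟩
    have h1 := Finset.single_le_sum (f := fun j => (b j).natAbs)
      (fun _ _ => Nat.zero_le _) (Finset.mem_univ j)
    have h2 : (((b j).natAbs : ℕ) : ℤ) ≤ ((∑ j, (b j).natAbs : ℕ) : ℤ) := by
      exact_mod_cast h1
    have h3 := Int.le_natAbs (a := -(b j))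
    rw [Int.natAbs_neg] at h3
    linarith
  let W : Fin (n + 1) → Polynomial K := fun j =>
    Polynomial.C (y j) * Polynomial.X ^ (b j + M').toNat
  have hWe : ∀ t : K, t ≠ 0 → (fun j => (W j).eval t) = fun j => t ^ M' * (t ^ b j * y j) := by
    intro t ht
    funext j
    simp only [W, Polynomial.eval_mul, Polynomial.eval_C, Polynomial.eval_pow, Polynomial.eval_X]
    have h1 : t ^ (b j + M').toNat = t ^ (b j + M') := by
      conv_rhs => rw [← Int.toNat_of_nonneg (hM' j)]
      rw [zpow_natCast]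
    rw [h1, zpow_add₀ ht, zpow_natCast]
    ring
  have hev : ∀ (G : MvPolynomial (Fin (n + 1)) ℂ) (e : ℕ), G.IsHomogeneous e → ∀ t : K, t ≠ 0 →
      (aeval W G : Polynomial K).eval t = (t ^ M') ^ e * val (fun j => t ^ b j * y j) G := by
    intro G e hG t ht
    rw [aeval_eval, hWe t ht]
    exact Pool.Agent.W603.PV.aeval_scale hG _ _
  have hpoly : ∀ P P' : Polynomial K, (∀ t : K, t ≠ 0 → P.eval t = P'.eval t) → P = P' := by
    intro P P' h
    refine Polynomial.eq_of_infinite_eval_eq P P' ((Set.infinite_of_finite_compl ?_ :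
      {t : K | t ≠ 0}.Infinite).mono fun t ht => h t ht)
    have : {t : K | t ≠ 0}ᶜ = {0} := by
      ext t
      simp
    rw [this]
    exact Set.finite_singleton 0
  have hHW : ∀ l, ∃ c : ℕ, (aeval W (H l) : Polynomial K) =
      Polynomial.C (val y (H l)) * Polynomial.X ^ c := by
    intro l
    obtain ⟨v0, hv0⟩ := hHw l
    obtain ⟨α, hα, hw0⟩ := exists_weight hv0 (hHy l)
    have h5 : 0 ≤ v0 + M' * d := by
      have h6 : (∑ j, α j : ℕ) = d := by
        have := hHd l (mem_support_iff.1 hα)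
        rw [← this, Finsupp.weight_apply, Finsupp.sum_fintype _ _ (by simp)]
        simp
      have h7 : v0 + M' * d = ∑ j, (α j : ℤ) * (b j + M') := by
        simp only [mul_add]
        rw [Finset.sum_add_distrib, hw0, ← Finset.sum_mul, ← h6]
        push_cast
        ring
      rw [h7]
      exact Finset.sum_nonneg fun j _ => mul_nonneg (Nat.cast_nonneg _) (hM' j)
    refine ⟨(v0 + M' * d).toNat, hpoly _ _ fun t ht => ?_⟩
    rw [hev (H l) d (hHd l) t ht, val_orbit_one y b ht (H l) v0 hv0, Polynomial.eval_mul,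
      Polynomial.eval_C, Polynomial.eval_pow, Polynomial.eval_X]
    have h8 : t ^ (v0 + M' * d).toNat = t ^ (v0 + M' * d) := by
      conv_rhs => rw [← Int.toNat_of_nonneg h5]
      rw [zpow_natCast]
    rw [h8, zpow_add₀ ht, ← pow_mul]
    have h9 : t ^ ((M' : ℤ) * (d : ℤ)) = t ^ (M' * d) := by
      rw [← Nat.cast_mul, zpow_natCast]
    rw [h9]
    ring
  choose c hc using hHW
  have hW : GmCurve (⊥ : Ideal (MvPolynomial (Fin (n + 1)) ℂ)) (∏ l, H l) W (∑ l, c l) := by
    refine ⟨fun G hG => ?_, ⟨∏ l, val y (H l), Finset.prod_ne_zero_iff.2 fun l _ => hHy l, ?_⟩,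
      fun t ht => ⟨i, ?_⟩, ⟨i, i', 2, two_ne_zero, ?_⟩⟩
    · rw [Ideal.mem_bot] at hG
      rw [hG, map_zero]
    · rw [map_prod, Finset.prod_congr rfl fun l _ => hc l, Finset.prod_mul_distrib,
        Finset.prod_pow_eq_pow_sum, map_prod]
    · simp only [W, Polynomial.eval_mul, Polynomial.eval_C, Polynomial.eval_pow,
        Polynomial.eval_X]
      exact mul_ne_zero hi (pow_ne_zero _ ht)
    · simp only [W, Polynomial.eval_mul, Polynomial.eval_C, Polynomial.eval_pow,
        Polynomial.eval_X, one_pow, mul_one]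
      intro h1
      have h2 : (2 : K) ^ (b i + M').toNat = 2 ^ (b i' + M').toNat := by
        have h3 : y i * y i' ≠ 0 := mul_ne_zero hi hi'
        apply mul_left_cancel₀ h3
        linear_combination h1
      have h4 : (2 : ℕ) ^ (b i + M').toNat = 2 ^ (b i' + M').toNat := by exact_mod_cast h2
      have h5 := Nat.pow_right_injective le_rfl h4
      apply hb
      have h6 := Int.toNat_of_nonneg (hM' i)
      have h7 := Int.toNat_of_nonneg (hM' i')
      have h8 : ((b i + M').toNat : ℤ) = (b i' + M').toNat := by exact_mod_cast h5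
      linarith
  have hQ : (∏ l, H l).IsHomogeneous (∑ _l : Fin q, d) :=
    IsHomogeneous.prod _ _ _ fun l _ => hHd l
  refine GmCurve.not_lgt (d := w) hdim hW hQ hy0 hgen hdim fun G hG => ?_
  obtain ⟨e, he⟩ := hG
  constructor
  · intro h0
    refine hpoly _ _ fun t ht => ?_
    rw [hev G e he t ht, val_orbit (L := K) y b ht G (hhom G ⟨e, he⟩ h0), mul_zero,
      Polynomial.eval_zero]
  · intro h0
    have h1 := hev G e he 1 one_ne_zero
    rw [h0, Polynomial.eval_zero] at h1
    simpa using h1.symm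

/-- **Components of log general type.** -/
theorem lgt_pseudo {m : ℕ} {a : Fin s → (Fin (n + 1) →₀ ℕ)} (hd : 0 < d)
    (hg : ∃ s' N, Good (withPowers d (liftA q a)) s' N) (hdeg : ∀ i, ∑ j, a i j = d)
    {F : Fin m → MvPolynomial (Fin (n + 1)) ℂ} {H : Fin q → MvPolynomial (Fin (n + 1)) ℂ}
    (hF : ∀ e, (F e).support ⊆ withPowers d a) (hH : ∀ l, (H l).support ⊆ withPowers d a)
    {K : Type} [Field K] [Algebra ℂ K] {w : ℕ} {y : Fin (n + 1) → K} (hy : SubVar F K w y)
    (hcomp : IsComponent F y) (hHy : ∀ l, val y (H l) ≠ 0)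
    (hlgt : LogGeneralType ℂ K w (OffQ (∏ l, H l) (∑ _l : Fin q, d) y)) :
    ∃ G : MvPolynomial (Fin (n + 1)) ℂ, IsForm G ∧ val y G ≠ 0 ∧
      ∀ f, CurveX F H f → (∀ P : MvPolynomial (Fin (n + 1)) ℂ, IsForm P → val y P = 0 →
        ∀ z, eval (f z) P = 0) → ∀ z, eval (f z) G = 0 := by
  classical
  have hFd : ∀ l, (F l).IsHomogeneous d := fun l => isForm_of_deg fun α hα =>
    deg_withPowers (a := a) hdeg α (hF l hα)
  have hHd : ∀ l, (H l).IsHomogeneous d := fun l => isForm_of_deg fun α hα =>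
    deg_withPowers (a := a) hdeg α (hH l hα)
  obtain ⟨e1, he1⟩ := excC_form (fun e => ⟨d, hFd e⟩) y
  obtain ⟨e2, he2⟩ := excC_form (fun e => ⟨d, hHd e⟩) y
  refine ⟨excC F y * excC H y, ⟨_, he1.mul he2⟩, ?_, fun f hf hfV z0 => ?_⟩
  · unfold val
    rw [map_mul]
    exact mul_ne_zero (excC_ne F y) (excC_ne H y)
  · by_contra hne
    rw [map_mul] at hne
    obtain ⟨b, ⟨j, l, hjl, ⟨zj, hj⟩, ⟨zl, hl⟩⟩, hw⟩ := weightsX hd hg hdeg hF hH hf
    have hsupp : ∀ j z, f z j ≠ 0 → y j ≠ 0 := by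
      intro j z hj h0
      apply hj
      have h1 := hfV (X j) ⟨1, isHomogeneous_X _ _⟩ (by
        unfold val
        rw [aeval_X]
        exact h0) z
      rwa [eval_X] at h1
    have hFy : ∀ e v, val y (wc b v (F e)) = 0 := fun e v =>
      excC_sub (z := f z0) (by rw [val_eval]; exact left_ne_zero_of_mul hne) e b v
        ((hw z0).1 e v)
    refine not_lgt_of_weights hy.ne hy.gen hy.dim (hsupp j zj hj) (hsupp l zl hl) hjl
      (fun G hG h0 v => ideal_hom (subVar_iff.2 hy) (componentU_of hcomp) hFy G hG h0 v) hHd hHy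
      (fun l => ?_) hlgt
    obtain ⟨v0, hv0⟩ := (hw z0).2 l
    exact ⟨v0, fun v hv => excC_sub (z := f z0) (by
      rw [val_eval]; exact right_ne_zero_of_mul hne) l b v (hv0 v hv)⟩

end lgt

end Pool.Agent.R869.Wd
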