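import Pool.Agent.R869.XKum
import Pool.Agent.R869.XLgt

/-!
Pairs which are not of logarithmic general type.
-/

set_option autoImplicit false

open FF MvPolynomial Filter Metric Topology Pool.Agent.W602.GT Pool.Agent.H159R3.GGLLog
  Pool.Agent.W603.BP Pool.Agent.R869
open Pool.Agent.W603.GR (OffQ exists_min ord_form)
open Pool.Agent.Y190.BV (rs over_rs)

namespace Pool.Agent.R869.Wd

variable {n s q d : ℕ} {ι : Type}

/-- off the boundary the values of the equations of the boundary are units -/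
theorem ord_off {K : Type} [Field K] [Algebra ℂ K] {H : Fin q → MvPolynomial (Fin (n + 1)) ℂ}
    (hHd : ∀ l, (H l).IsHomogeneous d) {y : Fin (n + 1) → K} (hHy : ∀ l, val y (H l) ≠ 0)
    {P : Place ℂ K} (hP : ¬ OffQ (∏ l, H l) (∑ _l : Fin q, d) y P) {i0 : Fin (n + 1)}
    (h0 : y i0 ≠ 0) (hmin : ∀ i, y i ≠ 0 → P.ord (y i0) ≤ P.ord (y i)) (l : Fin q) :
    P.ord (val y (H l)) = d * P.ord (y i0) := by
  classical
  have h1 : P.ord (val y (∏ l, H l)) ≤ ((∑ _l : Fin q, d : ℕ) : ℤ) * P.ord (y i0) := by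
    by_contra hcon
    exact hP ⟨i0, h0, not_le.1 hcon⟩
  have h2 : val y (∏ l, H l) = ∏ l, val y (H l) := by
    unfold val
    rw [map_prod]
  rw [h2, ord_prod' P _ _ fun l _ => hHy l] at h1
  have h3 : ∀ l ∈ Finset.univ, (d : ℤ) * P.ord (y i0) ≤ P.ord (val y (H l)) := fun l _ =>
    ord_form P h0 hmin (hHd l) (hHy l)
  have h4 : ∑ l : Fin q, (d : ℤ) * P.ord (y i0) = ((∑ _l : Fin q, d : ℕ) : ℤ) * P.ord (y i0) := by
    push_cast
    rw [Finset.sum_mul]
  rw [← h4] at h1
  have h5 := le_antisymm h1 (Finset.sum_le_sum h3)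
  exact (Finset.sum_eq_sum_iff_of_le h3).1 h5.symm l (Finset.mem_univ l) |>.symm

/-- the point of the covering -/
noncomputable def upPt {K L : Type} [Field K] [Field L] [Algebra K L] (y : Fin (n + 1) → K)
    (r : Fin q → L) : Fin (n + q + 1) → L := fun x =>
  if h : (x : ℕ) < n + 1 then algebraMap K L (y ⟨x, h⟩) else r ⟨x - (n + 1), by omega⟩

theorem upPt_emb {K L : Type} [Field K] [Field L] [Algebra K L] (y : Fin (n + 1) → K)
    (r : Fin q → L) (j : Fin (n + 1)) : upPt y r (emb n q j) = algebraMap K L (y j) := by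
  unfold upPt
  have h1 : ((emb n q j : Fin (n + q + 1)) : ℕ) = j := rfl
  rw [dif_pos (by rw [h1]; exact j.isLt)]
  exact congrArg (fun i => algebraMap K L (y i)) (Fin.ext h1)

theorem upPt_bdv {K L : Type} [Field K] [Field L] [Algebra K L] (y : Fin (n + 1) → K)
    (r : Fin q → L) (l : Fin q) : upPt y r (bdv n q l) = r l := by
  unfold upPt
  have h1 : ((bdv n q l : Fin (n + q + 1)) : ℕ) = n + 1 + l := rfl
  rw [dif_neg (by rw [h1]; omega)]
  congr 1
  exact Fin.ext (by
    change ((bdv n q l : Fin (n + q + 1)) : ℕ) - (n + 1) = l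
    rw [h1]
    omega)

/-- **Descent of logarithmic general type.** -/
theorem lgt_down {K L : Type} [Field K] [Algebra ℂ K] [Field L] [Algebra ℂ L] [Algebra K L]
    [IsScalarTower ℂ K L] [FiniteDimensional K L] [IsGalois K L] (hd : 0 < d) {w : ℕ}
    {H : Fin q → MvPolynomial (Fin (n + 1)) ℂ} (hHd : ∀ l, (H l).IsHomogeneous d)
    {y : Fin (n + 1) → K} (hy : y ≠ 0) (hHy : ∀ l, val y (H l) ≠ 0) {r : Fin q → L}
    (hr : ∀ l, r l ^ d = algebraMap K L (val y (H l)))
    (hgen : IntermediateField.adjoin K (Set.range r) = ⊤)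
    (hL : LogGeneralType ℂ L w (OffU {x | ∃ l, x = bdv n q l} (upPt y r))) :
    LogGeneralType ℂ K w (OffQ (∏ l, H l) (∑ _l : Fin q, d) y) := by
  classical
  have hr0 : ∀ l, r l ≠ 0 := by
    intro l h1
    have h2 := hr l
    rw [h1, zero_pow hd.ne'] at h2
    exact hHy l ((map_eq_zero _).1 h2.symm)
  refine lgt_descend hL (fun P _ => ?_) fun P _ hP => ?_
  · obtain ⟨S, T, _, hT, hsum⟩ := exists_places_over (K' := L) P
    have hSne : S.Nonempty := by
      by_contra hcon
      rw [Finset.not_nonempty_iff_eq_empty] at hcon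
      rw [hcon, Finset.sum_empty] at hsum
      have : 0 < Module.finrank K L := Module.finrank_pos
      omega
    obtain ⟨W, hW⟩ := hSne
    obtain ⟨e, hWP, _⟩ := hT W hW
    exact ⟨W, e, hWP⟩
  · obtain ⟨i0, h0, hmin⟩ := exists_min P hy
    have hord := ord_off hHd hHy hP h0 hmin
    obtain ⟨W, hW⟩ := kummer_unram hd hHy hr hgen (P := P) (c := fun _ => y i0)
      fun l => ⟨h0, hord l⟩
    refine ⟨W, hW, fun σ => ?_⟩
    have hW' := over_rs hW σ
    rintro ⟨_, ⟨l, rfl⟩, x, hx, hlt⟩
    have hrl : ∀ l, (W.comp (rs σ)).ord (r l) = P.ord (y i0) := by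
      intro l
      have h3 : (d : ℤ) * (W.comp (rs σ)).ord (r l) = d * P.ord (y i0) := by
        rw [← (W.comp (rs σ)).ord_pow, hr, hW'.2, hord l, Nat.cast_one, one_mul]
      have h4 : (d : ℤ) ≠ 0 := by exact_mod_cast hd.ne'
      exact mul_left_cancel₀ h4 h3
    rw [upPt_bdv, hrl] at hlt
    rcases var_cases n q x with ⟨j, rfl⟩ | ⟨l', rfl⟩
    · rw [upPt_emb] at hlt hx
      rw [hW'.2, Nat.cast_one, one_mul] at hlt
      exact absurd (hmin j fun h => hx (by rw [h, map_zero])) (not_le.2 hlt)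
    · rw [upPt_bdv, hrl] at hlt
      exact lt_irrefl _ hlt

/-- the values of forms in the first variables -/
theorem val_up {K L : Type} [Field K] [Algebra ℂ K] [Field L] [Algebra ℂ L] [Algebra K L]
    [IsScalarTower ℂ K L] (y : Fin (n + 1) → K) (r : Fin q → L)
    (G : MvPolynomial (Fin (n + 1)) ℂ) :
    val (upPt y r) (rename (emb n q) G) = algebraMap K L (val y G) := by
  unfold val
  rw [aeval_rename]
  have h1 : (upPt y r ∘ emb n q) = fun j => algebraMap K L (y j) := by
    funext j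
    exact upPt_emb y r j
  rw [h1]
  exact aeval_algebraMap_apply (B := L) y G

/-- a monomial of given weight which does not vanish -/
theorem exists_weight' {k K : Type} [Field k] [Field K] [Algebra k K] {y : Fin (n + 1) → K}
    {b : Fin (n + 1) → ℤ} {G : MvPolynomial (Fin (n + 1)) k} {v0 : ℤ}
    (h : ∀ v, v ≠ v0 → val y (wc b v G) = 0) (hG : val y G ≠ 0) :
    ∃ α ∈ G.support, ∑ j, (α j : ℤ) * b j = v0 ∧ ∀ j, y j = 0 → α j = 0 := by
  classical
  by_contra hcon
  push Not at hcon
  apply hG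
  have h1 : ∀ v, val y (wc b v G) = 0 := by
    intro v
    by_cases hv : v = v0
    · subst hv
      rw [val_wc]
      refine Finset.sum_eq_zero fun α hα => ?_
      rw [Finset.mem_filter] at hα
      obtain ⟨j, hj, hne⟩ := hcon α hα.1 hα.2
      rw [Finset.prod_eq_zero (Finset.mem_univ j), mul_zero]
      rw [hj, zero_pow hne]
    · exact h v hv
  have h2 := val_orbit (L := K) y b one_ne_zero G h1
  simpa using h2

/-- **Pairs which are not of logarithmic general type.** -/
theorem weights_pair {a : Fin s → (Fin (n + 1) →₀ ℕ)} (hd : 0 < d)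
    (hg : ∃ s' N, Good (withPowers d (liftA q a)) s' N) (hdeg : ∀ i, ∑ j, a i j = d)
    {F : ι → MvPolynomial (Fin (n + 1)) ℂ} {H : Fin q → MvPolynomial (Fin (n + 1)) ℂ}
    (hF : ∀ e, (F e).support ⊆ withPowers d a) (hH : ∀ l, (H l).support ⊆ withPowers d a)
    {K : Type} [Field K] [Algebra ℂ K] {w : ℕ} (hw : 1 ≤ w) {y : Fin (n + 1) → K}
    (hy : y ≠ 0) (hyF : ∀ e, val y (F e) = 0) (hgen : coords ℂ y = ⊤)
    (hdim : Algebra.trdeg ℂ K = w) (hHy : ∀ l, val y (H l) ≠ 0)
    (hgt : ¬ LogGeneralType ℂ K w (OffQ (∏ l, H l) (∑ _l : Fin q, d) y)) :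
    ∃ (b : Fin (n + 1) → ℤ) (i i' : Fin (n + 1)), y i ≠ 0 ∧ y i' ≠ 0 ∧ b i ≠ b i' ∧
      (∀ e v, val y (wc b v (F e)) = 0) ∧
      ∀ l, ∃ v0, ∀ v, v ≠ v0 → val y (wc b v (H l)) = 0 := by
  classical
  have hHd : ∀ l, (H l).IsHomogeneous d := fun l => isForm_of_deg fun α hα =>
    deg_withPowers (a := a) hdeg α (hH l hα)
  obtain ⟨s', N, hg⟩ := hg
  have hC := hg.sys (sysG_support hF hH) {x | ∃ l, x = bdv n q l}
  obtain ⟨L, i1, i2, i3, i4, i5, i6, r, hr, hrgen⟩ := exists_kummer (k := ℂ) hd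
    (fun l => val y (H l)) hHy
  have hr0 : ∀ l, r l ≠ 0 := by
    intro l h1
    have h2 := hr l
    rw [h1, zero_pow hd.ne'] at h2
    exact hHy l ((map_eq_zero _).1 h2.symm)
  have hgt' : ¬ LogGeneralType ℂ L w (OffU {x | ∃ l, x = bdv n q l} (upPt y r)) := fun h =>
    hgt (lgt_down hd hHd hy hHy hr hrgen h)
  have hy' : upPt y r ≠ 0 := by
    obtain ⟨j, hj⟩ := Function.ne_iff.1 hy
    intro h0
    have h1 := congrFun h0 (emb n q j)
    rw [upPt_emb] at h1
    exact hj ((map_eq_zero _).1 h1)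
  have hdim' : Algebra.trdeg ℂ L = w := by
    rw [Pool.Agent.Y190.BV.trdeg_ext (K := K) (L := L)]
    exact hdim
  have hmem : ∀ e, val (upPt y r) (sysG d F H e) = 0 := by
    intro e
    rcases e with e | l
    · change val (upPt y r) (rename (emb n q) (F e)) = 0
      rw [val_up, hyF, map_zero]
    · change aeval (upPt y r) (X (bdv n q l) ^ d - rename (emb n q) (H l)) = 0
      rw [map_sub, map_pow, aeval_X, upPt_bdv, hr]
      have h1 := val_up (K := K) y r (H l)
      unfold val at h1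
      rw [h1]
      exact sub_self _
  have hgen' : Algebra.IsAlgebraic (coords ℂ (upPt y r)) L := by
    have hle : ∀ x : K, algebraMap K L x ∈ coords ℂ (upPt y r) := by
      intro x
      have hx : x ∈ coords ℂ y := by rw [hgen]; trivial
      unfold coords at hx
      induction hx using IntermediateField.adjoin_induction with
      | mem x hx =>
        obtain ⟨i, j, hj, rfl⟩ := hx
        refine IntermediateField.subset_adjoin _ _ ⟨emb n q i, emb n q j, ?_, ?_⟩
        · rw [upPt_emb]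
          exact (map_ne_zero _).2 hj
        · rw [upPt_emb, upPt_emb, map_div₀]
      | algebraMap x =>
        rw [← IsScalarTower.algebraMap_apply ℂ K L]
        exact IntermediateField.algebraMap_mem _ _
      | add x y _ _ hx hy => rw [map_add]; exact add_mem hx hy
      | inv x _ hx => rw [map_inv₀]; exact inv_mem hx
      | mul x y _ _ hx hy => rw [map_mul]; exact mul_mem hx hy
    let φ : K →+* coords ℂ (upPt y r) := (algebraMap K L).codRestrict _ hle
    let _ : Algebra K (coords ℂ (upPt y r)) := φ.toAlgebra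
    have _ : IsScalarTower K (coords ℂ (upPt y r)) L := IsScalarTower.of_algebraMap_eq fun x => rfl
    exact Algebra.IsAlgebraic.tower_top (K := K) (coords ℂ (upPt y r))
  obtain ⟨b, x1, x2, hx1, hx2, hb, hwc⟩ := weights hC.form hC.pos hC.card hC.wide hC.num hw hdim'
    hy' hgen' hmem (fun j hj => by
      obtain ⟨l, rfl⟩ := hj
      rw [upPt_bdv]
      exact hr0 l) hgt'
  have hwF : ∀ e v, val y (wc (fun j => b (emb n q j)) v (F e)) = 0 := by
    intro e v
    have h1 := hwc (Sum.inl e) v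
    change val (upPt y r) (wc b v (rename (emb n q) (F e))) = 0 at h1
    rw [wc_rename, val_up] at h1
    exact (map_eq_zero _).1 h1
  have hwH : ∀ l v, v ≠ d * b (bdv n q l) →
      val y (wc (fun j => b (emb n q j)) v (H l)) = 0 := by
    intro l v hv
    have h1 := hwc (Sum.inr l) v
    change val (upPt y r) (wc b v (X (bdv n q l) ^ d - rename (emb n q) (H l))) = 0 at h1
    rw [wc_sub, wc_rename, wc_X_pow_ne b hv, zero_sub] at h1
    have h3 : val (upPt y r) (-(rename (emb n q) (wc (fun j => b (emb n q j)) v (H l)))) =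
        -(val (upPt y r) (rename (emb n q) (wc (fun j => b (emb n q j)) v (H l)))) := by
      unfold val
      rw [map_neg]
    rw [h3, neg_eq_zero, val_up] at h1
    exact (map_eq_zero _).1 h1
  refine ⟨fun j => b (emb n q j), ?_⟩
  have hex : ∃ i i', y i ≠ 0 ∧ y i' ≠ 0 ∧ b (emb n q i) ≠ b (emb n q i') := by
    by_contra hcon
    push Not at hcon
    obtain ⟨j0, hj0⟩ := Function.ne_iff.1 hy
    have hall : ∀ x, upPt y r x ≠ 0 → b x = b (emb n q j0) := by
      intro x hx
      rcases var_cases n q x with ⟨j, rfl⟩ | ⟨l, rfl⟩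
      · rw [upPt_emb] at hx
        exact hcon j j0 (fun h => hx (by rw [h, map_zero])) hj0
      · obtain ⟨α, hα, hα1, hα2⟩ := exists_weight' (hwH l) (hHy l)
        have h1 : ∑ j, (α j : ℤ) * b (emb n q j) = ∑ j, (α j : ℤ) * b (emb n q j0) := by
          refine Finset.sum_congr rfl fun j _ => ?_
          by_cases hj : y j = 0
          · rw [hα2 j hj, Nat.cast_zero, zero_mul, zero_mul]
          · rw [hcon j j0 hj hj0]
        rw [h1, ← Finset.sum_mul] at hα1
        have h2 : (∑ j, (α j : ℤ)) = d := by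
          have := deg_withPowers (a := a) hdeg α (hH l hα)
          exact_mod_cast this
        rw [h2] at hα1
        have h3 : (d : ℤ) ≠ 0 := by exact_mod_cast hd.ne'
        exact (mul_left_cancel₀ h3 hα1).symm
    exact hb ((hall x1 hx1).trans (hall x2 hx2).symm)
  obtain ⟨i, i', hi, hi', hii⟩ := hex
  exact ⟨i, i', hi, hi', hii, hwF, fun l => ⟨_, hwH l⟩⟩

end Pool.Agent.R869.Wd
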