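import Pool.Agent.R869.XFourDefs
import Pool.Agent.R869.XLog
import Pool.Agent.R869.WCptC

/-!
Pairs of a projective variety and a set of hypersurfaces: the equivalences.
-/

set_option autoImplicit false

open FF MvPolynomial Filter Metric Topology Pool.Agent.W602.GT Pool.Agent.H159R3.GGLLog
  Pool.Agent.W603.BP Pool.Agent.R869
open Pool.Agent.W603.GR (OffQ exists_min ord_form)

namespace Pool.Agent.R869.Wd

variable {n s q d m : ℕ}

theorem wc_form {k : Type} [Field k] {G : MvPolynomial (Fin (n + 1)) k} (hG : IsForm G)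
    (b : Fin (n + 1) → ℤ) (v : ℤ) : IsForm (wc b v G) := by
  obtain ⟨e, he⟩ := hG
  refine ⟨e, fun α hα => ?_⟩
  rw [coeff_wc] at hα
  split_ifs at hα with h
  · exact he hα
  · exact absurd rfl hα

/-- components -/
theorem curve_in {F : Fin m → MvPolynomial (Fin (n + 1)) ℂ}
    {H : Fin q → MvPolynomial (Fin (n + 1)) ℂ} (hFf : ∀ e, IsForm (F e)) {K : Type} [Field K]
    [Algebra ℂ K] {y : Fin (n + 1) → K} (hyF : ∀ e, val y (F e) = 0)
    {f : ℂ → Fin (n + 1) → ℂ} (hf : Differentiable ℂ f) (hfV : ∀ z, f z ∈ PtsX H y)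
    (hnc : ∃ z w, ∀ c : ℂ, f z ≠ c • f w) : CurveX F H f :=
  ⟨⟨hf, fun z => ⟨(hfV z).1, fun j hj => absurd hj (Set.notMem_empty j),
    fun e => (hfV z).2.1 _ (hFf e) (hyF e)⟩, hnc⟩, fun l z => (hfV z).2.2 l⟩

/-- an action which preserves the ideal and the boundary acts on the points -/
theorem actsX_of {H : Fin q → MvPolynomial (Fin (n + 1)) ℂ} (hHf : ∀ l, IsForm (H l)) {K : Type}
    [Field K] [Algebra ℂ K] {y : Fin (n + 1) → K} {b : Fin (n + 1) → ℤ}
    (hhom : ∀ G : MvPolynomial (Fin (n + 1)) ℂ, IsForm G → val y G = 0 → ∀ v,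
      val y (wc b v G) = 0)
    (hHw : ∀ l, ∃ v0, ∀ v, v ≠ v0 → val y (wc b v (H l)) = 0) : ActsX H y b := by
  intro t ht x hx
  refine ⟨fun h0 => hx.1 ?_, fun G hG hGy => ?_, fun l => ?_⟩
  · funext j
    have h1 := congrFun h0 j
    exact (mul_eq_zero.1 h1).resolve_left (zpow_ne_zero _ ht)
  · rw [← val_eval]
    refine val_orbit (L := ℂ) x b ht G fun v => ?_
    rw [val_eval]
    exact hx.2.1 _ (wc_form hG b v) (hhom G hG hGy v)
  · obtain ⟨v0, hv0⟩ := hHw l
    rw [← val_eval, val_orbit_one x b ht (H l) v0 fun v hv => by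
      rw [val_eval]
      exact hx.2.1 _ (wc_form (hHf l) b v) (hv0 v hv)]
    refine mul_ne_zero (zpow_ne_zero _ ht) ?_
    rw [val_eval]
    exact hx.2.2 l

/-- an action on `V ∖ {H = 0}` gives many entire curves -/
theorem actsX_of_brodyX {H : Fin q → MvPolynomial (Fin (n + 1)) ℂ} {K : Type} [Field K]
    [Algebra ℂ K] {y : Fin (n + 1) → K} (hHy : ∀ l, val y (H l) ≠ 0) (h : BrodyX H y)
    (b : Fin (n + 1) → ℤ) (hb : ActsX H y b) (i i' : Fin (n + 1)) (hi : y i ≠ 0)
    (hi' : y i' ≠ 0) : b i = b i' := by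
  obtain ⟨G, h1, h2, h3⟩ := h
  by_contra hne
  let R : MvPolynomial (Fin (n + 1)) ℂ := G * X i * X i' * ∏ l, H l
  have hR : aeval y R ≠ 0 := by
    simp only [R, map_mul, map_prod, aeval_X]
    exact mul_ne_zero (mul_ne_zero (mul_ne_zero h2 hi) hi')
      (Finset.prod_ne_zero_iff.2 fun l _ => hHy l)
  obtain ⟨x, hx, hx0⟩ := specialise y R hR
  simp only [R, map_mul, map_prod, aeval_X] at hx
  have h4 := left_ne_zero_of_mul hx
  have h5 := left_ne_zero_of_mul h4
  have hxi : x i ≠ 0 := right_ne_zero_of_mul h5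
  have hxi' : x i' ≠ 0 := right_ne_zero_of_mul h4
  have hxG : aeval x G ≠ 0 := left_ne_zero_of_mul h5
  have hxV : x ∈ PtsX H y := by
    refine ⟨fun h0' => hxi (congrFun h0' i), fun G' _ h' => ?_, fun l => ?_⟩
    · rw [← val_eval]
      exact hx0 _ h'
    · rw [← val_eval]
      exact Finset.prod_ne_zero_iff.1 (right_ne_zero_of_mul hx) l (Finset.mem_univ l)
  have h6 := h3 (fun z j => Complex.exp z ^ b j * x j) (by
    rw [differentiable_pi]
    intro j
    exact ((Complex.differentiable_exp.zpow (Or.inl fun z => Complex.exp_ne_zero z))).mul_const _)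
    (fun z => hb _ (Complex.exp_ne_zero z) x hxV) ⟨Complex.log 2, 0, fun c hc => ?_⟩ 0
  · apply hxG
    have h7 : (fun j => Complex.exp 0 ^ b j * x j) = x := by
      funext j
      rw [Complex.exp_zero, one_zpow, one_mul]
    rw [h7] at h6
    rw [← val_eval] at h6
    exact h6
  · have h8 : ∀ l, x l ≠ 0 → (2 : ℂ) ^ b l = c := by
      intro l hl
      have h9 := congrFun hc l
      simp only [Pi.smul_apply, smul_eq_mul, Complex.exp_zero, one_zpow, one_mul] at h9
      rw [Complex.exp_log two_ne_zero] at h9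
      exact mul_right_cancel₀ hl h9
    exact hne (two_pow_inj ((h8 i hxi).trans (h8 i' hxi').symm))

theorem brodyX_of_picardX {H : Fin q → MvPolynomial (Fin (n + 1)) ℂ} {K : Type} [Field K]
    [Algebra ℂ K] {y : Fin (n + 1) → K} (h : PicardX H y) : BrodyX H y := by
  obtain ⟨G, h1, h2, h3⟩ := h
  refine ⟨G, h1, h2, fun f hf hfV hnc z => ?_⟩
  by_contra hz
  have hE : EntireCurve (∅ : Set (Fin (n + 1))) (fun e : Empty => e.elim) f :=
    ⟨hf, fun z => ⟨(hfV z).1, fun j hj => absurd hj (Set.notMem_empty j), fun e => e.elim⟩, hnc⟩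
  obtain ⟨h4, h5⟩ := sin_curve hE
  obtain ⟨w, hw, hwz⟩ := sin_point z
  exact h5 (h3 _ h4.1 (fun z _ => hfV _) ⟨w, hw, by rw [hwz]; exact hz⟩)

section pairs

variable {a : Fin s → (Fin (n + 1) →₀ ℕ)} {F : Fin m → MvPolynomial (Fin (n + 1)) ℂ}
  {H : Fin q → MvPolynomial (Fin (n + 1)) ℂ}

/-- **Components of log general type are strongly so.** -/
theorem stronglyX_of_lgt (hd : 0 < d) (hg : ∃ s' N, Good (withPowers d (liftA q a)) s' N)
    (hdeg : ∀ i, ∑ j, a i j = d) (hF : ∀ e, (F e).support ⊆ withPowers d a)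
    (hH : ∀ l, (H l).support ⊆ withPowers d a) {K : Type} [Field K] [Algebra ℂ K] {w : ℕ}
    {y : Fin (n + 1) → K} (hy : SubVar F K w y) (hcomp : IsComponent F y)
    (hHy : ∀ l, val y (H l) ≠ 0) (hlgt : LgtX d H w y) : StronglyX d H y := by
  classical
  have hFd : ∀ l, (F l).IsHomogeneous d := fun l => isForm_of_deg fun α hα =>
    deg_withPowers (a := a) hdeg α (hF l hα)
  have hHd : ∀ l, (H l).IsHomogeneous d := fun l => isForm_of_deg fun α hα =>
    deg_withPowers (a := a) hdeg α (hH l hα)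
  obtain ⟨e1, he1⟩ := excC_form (fun e => ⟨d, hFd e⟩) y
  obtain ⟨e2, he2⟩ := excC_form (fun e => ⟨d, hHd e⟩) y
  refine ⟨excC F y * excC H y, ⟨_, he1.mul he2⟩, ?_, ?_⟩
  · unfold val
    rw [map_mul]
    exact mul_ne_zero (excC_ne F y) (excC_ne H y)
  · intro L _ _ t z ht hz0 hgen hdim hzV hzH hzG
    by_contra hno
    have hzG' : val z (excC F y) * val z (excC H y) ≠ 0 := by
      unfold val at hzG ⊢
      rwa [map_mul] at hzG
    obtain ⟨b, i, i', hi, hi', hb, hwF, hwH⟩ := weights_pair hd hg hdeg hF hH ht hz0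
      (fun e => hzV _ ⟨d, hFd e⟩ (hy.mem e)) hgen hdim hzH hno
    have hsupp : ∀ j, z j ≠ 0 → y j ≠ 0 := by
      intro j hj h0
      apply hj
      have h1 := hzV (X j) ⟨1, isHomogeneous_X _ _⟩ (by
        unfold val
        rw [aeval_X]
        exact h0)
      unfold val at h1
      rwa [aeval_X] at h1
    have hFy : ∀ e v, val y (wc b v (F e)) = 0 := fun e v =>
      excC_sub (left_ne_zero_of_mul hzG') e b v (hwF e v)
    refine not_lgt_of_weights hy.ne hy.gen hy.dim (hsupp i hi) (hsupp i' hi') hb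
      (fun G hG h0 v => ideal_hom (subVar_iff.2 hy) (componentU_of hcomp) hFy G hG h0 v) hHd hHy
      (fun l => ?_) hlgt
    obtain ⟨v0, hv0⟩ := hwH l
    exact ⟨v0, fun v hv => excC_sub (right_ne_zero_of_mul hzG') l b v (hv0 v hv)⟩

/-- **The equivalences for components.** -/
theorem four_pairs (hd : 0 < d) (hg : ∃ s' N, Good (withPowers d (liftA q a)) s' N)
    (hdeg : ∀ i, ∑ j, a i j = d) (hF : ∀ e, (F e).support ⊆ withPowers d a)
    (hH : ∀ l, (H l).support ⊆ withPowers d a) {K : Type} [Field K] [Algebra ℂ K] {w : ℕ}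
    (hw : 1 ≤ w) {y : Fin (n + 1) → K} (hy : SubVar F K w y) (hcomp : IsComponent F y)
    (hHy : ∀ l, val y (H l) ≠ 0) :
    [LgtX d H w y, BrodyX H y, StronglyX d H y,
      ∀ b : Fin (n + 1) → ℤ, ActsX H y b → ∀ i i', y i ≠ 0 → y i' ≠ 0 → b i = b i'].TFAE := by
  have hFd : ∀ l, (F l).IsHomogeneous d := fun l => isForm_of_deg fun α hα =>
    deg_withPowers (a := a) hdeg α (hF l hα)
  have hHd : ∀ l, (H l).IsHomogeneous d := fun l => isForm_of_deg fun α hα =>
    deg_withPowers (a := a) hdeg α (hH l hα)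
  tfae_have 1 → 2 := by
    intro h
    obtain ⟨G, h1, h2, h3⟩ := lgt_pseudo hd hg hdeg hF hH hy hcomp hHy h
    exact ⟨G, h1, h2, fun f hf hfV hnc => h3 f
      (curve_in (fun e => ⟨d, hFd e⟩) hy.mem hf hfV hnc)
      fun P hP hPy z => (hfV z).2.1 P hP hPy⟩
  tfae_have 2 → 4 := fun h b hb i i' hi hi' => actsX_of_brodyX hHy h b hb i i' hi hi'
  tfae_have 4 → 1 := by
    intro h
    by_contra hno
    obtain ⟨b, i, i', hi, hi', hb, hwF, hwH⟩ := weights_pair hd hg hdeg hF hH hw hy.ne hy.mem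
      hy.gen hy.dim hHy hno
    exact hb (h b (actsX_of (fun l => ⟨d, hHd l⟩) (fun G hG h0 v =>
      ideal_hom (subVar_iff.2 hy) (componentU_of hcomp) hwF G hG h0 v) hwH) i i' hi hi')
  tfae_have 1 → 3 := fun h => stronglyX_of_lgt hd hg hdeg hF hH hy hcomp hHy h
  tfae_have 3 → 1 := by
    rintro ⟨G, -, hG, h⟩
    exact h K w y hw hy.ne hy.gen hy.dim (fun _ _ h => h) hHy hG
  tfae_finish

end pairs

end Pool.Agent.R869.Wd
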