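import Pool.Agent.R869.XBdDefs
import Pool.Agent.W603.GR.Main
import Pool.Agent.W603.BP.Extn

/-!
Pairs of a projective variety and a set of hypersurfaces: definitions.
-/

set_option autoImplicit false

open FF MvPolynomial Metric Pool.Agent.W602.GT Pool.Agent.W603.BP
open Pool.Agent.W603.GR (OffQ)

namespace Pool.Agent.R869.Wd

variable {n q : ℕ}

/-- The points of `V ∖ {H = 0}`, where `V` is the projective variety with generic point `y`: the
vectors `x ≠ 0` at which all forms vanish that vanish at `y`, and no `H l` vanishes. -/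
def PtsX (H : Fin q → MvPolynomial (Fin (n + 1)) ℂ) {K : Type} [Field K] [Algebra ℂ K]
    (y : Fin (n + 1) → K) : Set (Fin (n + 1) → ℂ) :=
  {x | x ≠ 0 ∧ (∀ G : MvPolynomial (Fin (n + 1)) ℂ, IsForm G → val y G = 0 → eval x G = 0) ∧
    ∀ l, eval x (H l) ≠ 0}

/-- `V ∖ {H = 0}`, where `V` is the projective variety with function field `K`, of dimension `w`,
and generic point `y`, and the `H l` are forms of degree `d`, is of log general type. -/
def LgtX (d : ℕ) (H : Fin q → MvPolynomial (Fin (n + 1)) ℂ) {K : Type} [Field K] [Algebra ℂ K]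
    (w : ℕ) (y : Fin (n + 1) → K) : Prop :=
  LogGeneralType ℂ K w (OffQ (∏ l, H l) (∑ _l : Fin q, d) y)

/-- `V ∖ {H = 0}` is pseudo-Brody hyperbolic: a certain hypersurface, that does not contain `V`,
contains the images of all nonconstant holomorphic maps from the complex plane to
`V ∖ {H = 0}`. -/
def BrodyX (H : Fin q → MvPolynomial (Fin (n + 1)) ℂ) {K : Type} [Field K] [Algebra ℂ K]
    (y : Fin (n + 1) → K) : Prop :=
  ∃ G : MvPolynomial (Fin (n + 1)) ℂ, IsForm G ∧ val y G ≠ 0 ∧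
    ∀ f : ℂ → Fin (n + 1) → ℂ, Differentiable ℂ f → (∀ z, f z ∈ PtsX H y) →
      (∃ z w, ∀ c : ℂ, f z ≠ c • f w) → ∀ z, eval (f z) G = 0

/-- `V ∖ {H = 0}` is pseudo-Picard hyperbolic: all holomorphic maps from the punctured disc to
`V ∖ {H = 0}`, whose image is not contained in a certain hypersurface that does not contain `V`,
extend to holomorphic maps from the disc to the projective space. -/
def PicardX (H : Fin q → MvPolynomial (Fin (n + 1)) ℂ) {K : Type} [Field K] [Algebra ℂ K]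
    (y : Fin (n + 1) → K) : Prop :=
  ∃ G : MvPolynomial (Fin (n + 1)) ℂ, IsForm G ∧ val y G ≠ 0 ∧
    ∀ f : ℂ → Fin (n + 1) → ℂ, DifferentiableOn ℂ f (ball 0 1 \ {0}) →
      (∀ z ∈ ball (0 : ℂ) 1 \ {0}, f z ∈ PtsX H y) →
      (∃ z ∈ ball (0 : ℂ) 1 \ {0}, eval (f z) G ≠ 0) → Extends f

/-- `V ∖ {H = 0}` is strongly of log general type: its closed subvarieties of positive dimension
which are not contained in a certain hypersurface, that does not contain `V`, are of log general
type. -/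
def StronglyX (d : ℕ) (H : Fin q → MvPolynomial (Fin (n + 1)) ℂ) {K : Type} [Field K]
    [Algebra ℂ K] (y : Fin (n + 1) → K) : Prop :=
  ∃ G : MvPolynomial (Fin (n + 1)) ℂ, IsForm G ∧ val y G ≠ 0 ∧
    ∀ (L : Type) [Field L] [Algebra ℂ L] (t : ℕ) (z : Fin (n + 1) → L), 1 ≤ t → z ≠ 0 →
      coords ℂ z = ⊤ → Algebra.trdeg ℂ L = t →
      (∀ P : MvPolynomial (Fin (n + 1)) ℂ, IsForm P → val y P = 0 → val z P = 0) →
      (∀ l, val z (H l) ≠ 0) → val z G ≠ 0 → LgtX d H t z

/-- The one-parameter group `t ↦ diag (t ^ b 0, …, t ^ b n)` acts on `V ∖ {H = 0}`. -/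
def ActsX (H : Fin q → MvPolynomial (Fin (n + 1)) ℂ) {K : Type} [Field K] [Algebra ℂ K]
    (y : Fin (n + 1) → K) (b : Fin (n + 1) → ℤ) : Prop :=
  ∀ t : ℂ, t ≠ 0 → ∀ x ∈ PtsX H y, (fun j => t ^ b j * x j) ∈ PtsX H y

end Pool.Agent.R869.Wd
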