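import Pool.Agent.R869.XDesc
import Pool.Agent.TH466.QG.Equiv

/-!
Kummer coverings.
-/

set_option autoImplicit false
set_option linter.overlappingInstances false
set_option linter.unusedSectionVars false

open FF IntermediateField Pool.Agent.W602.GT Pool.Agent.W603.LV
open Pool.Agent.TH466.QG (fixg fixg_finite pullPl)
open Pool.Agent.W619.PQ (Inert exists_inertia)

namespace Pool.Agent.R869.Wd

variable {k K : Type} [Field k] [Field K] [Algebra k K] {q d : ℕ}

theorem root_of_unity [IsAlgClosed k] (hd : 0 < d) {x : K} (hx : x ^ d = 1) :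
    ∃ c : k, x = algebraMap k K c := by
  apply const_of_algebraic
  refine ⟨Polynomial.X ^ d - Polynomial.C 1, ?_, ?_⟩
  · exact (Polynomial.monic_X_pow_sub_C (1 : k) hd.ne').ne_zero
  · simp [hx]

/-- Kummer extensions -/
theorem exists_kummer [IsAlgClosed k] [CharZero k] (hd : 0 < d) (h : Fin q → K)
    (h0 : ∀ l, h l ≠ 0) : ∃ (L : Type) (_ : Field L) (_ : Algebra k L) (_ : Algebra K L)
      (_ : IsScalarTower k K L) (_ : FiniteDimensional K L) (_ : IsGalois K L) (r : Fin q → L),
      (∀ l, r l ^ d = algebraMap K L (h l)) ∧ IntermediateField.adjoin K (Set.range r) = ⊤ := by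
  classical
  have hch : CharZero K := charZero_of_injective_algebraMap (algebraMap k K).injective
  have hex : ∀ l, ∃ z : AlgebraicClosure K, z ^ d = algebraMap K _ (h l) := fun l =>
    IsAlgClosed.exists_pow_nat_eq _ hd
  choose z hz using hex
  have hz0 : ∀ l, z l ≠ 0 := by
    intro l h1
    have h2 := hz l
    rw [h1, zero_pow hd.ne'] at h2
    exact h0 l ((map_eq_zero _).1 h2.symm)
  let M := IntermediateField.adjoin K (Set.range z)
  have hfd : FiniteDimensional K M := by
    refine IntermediateField.finiteDimensional_adjoin fun x _ => ?_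
    exact Algebra.IsIntegral.isIntegral x
  have hn : Normal K M := by
    rw [IntermediateField.normal_iff_forall_map_le]
    intro σ
    rw [IntermediateField.adjoin_map, IntermediateField.adjoin_le_iff]
    rintro _ ⟨_, ⟨l, rfl⟩, rfl⟩
    have h1 : (σ (z l) / z l) ^ d = 1 := by
      rw [div_pow, ← map_pow, hz, AlgHom.commutes, div_self]
      rw [← hz]
      exact pow_ne_zero _ (hz0 l)
    obtain ⟨c, hc⟩ := root_of_unity (k := k) hd h1
    have h2 : σ (z l) = algebraMap k _ c * z l := by
      rw [← hc, div_mul_cancel₀ _ (hz0 l)]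
    change σ (z l) ∈ M
    rw [h2, IsScalarTower.algebraMap_apply k K]
    exact M.mul_mem (M.algebraMap_mem _) (IntermediateField.subset_adjoin K _ ⟨l, rfl⟩)
  have hsep : Algebra.IsSeparable K M := inferInstance
  refine ⟨M, inferInstance, inferInstance, inferInstance, inferInstance, hfd, ⟨⟩,
    fun l => ⟨z l, IntermediateField.subset_adjoin K _ ⟨l, rfl⟩⟩, fun l => ?_, ?_⟩
  · exact Subtype.ext (hz l)
  · let r0 : Fin q → M := fun l => ⟨z l, IntermediateField.subset_adjoin K _ ⟨l, rfl⟩⟩
    have h1 := IntermediateField.adjoin_map K (Set.range r0) M.val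
    have h2 : (M.val : M → AlgebraicClosure K) '' (Set.range r0) = Set.range z := by
      rw [← Set.range_comp]
      rfl
    rw [h2] at h1
    change IntermediateField.adjoin K (Set.range r0) = ⊤
    rw [eq_top_iff]
    rintro ⟨x, hx⟩ _
    have hx' : x ∈ (IntermediateField.adjoin K (Set.range r0)).map M.val := by
      rw [h1]; exact hx
    obtain ⟨z', hz', hzx⟩ := hx'
    have h3 : (⟨x, hx⟩ : M) = z' := Subtype.ext hzx.symm
    rw [h3]
    exact hz'

/-- Kummer extensions of units are unramified -/
theorem kummer_unram [IsAlgClosed k] [CharZero k] {L : Type} [Field L] [Algebra k L]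
    [Algebra K L] [IsScalarTower k K L] [FiniteDimensional K L] [IsGalois K L] (hd : 0 < d)
    {h : Fin q → K} (h0 : ∀ l, h l ≠ 0) {r : Fin q → L}
    (hr : ∀ l, r l ^ d = algebraMap K L (h l))
    (hgen : IntermediateField.adjoin K (Set.range r) = ⊤) {P : Place k K} {c : Fin q → K}
    (hc : ∀ l, c l ≠ 0 ∧ P.ord (h l) = d * P.ord (c l)) :
    ∃ W : Place k L, Over W P 1 := by
  classical
  have hfin : Finite (fixg k L K) := fixg_finite
  let φ : K →ₐ[k] L := IsScalarTower.toAlgHom k K L
  have hfr : φ.fieldRange = fixedField (fixg k L K) := by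
    ext x
    rw [AlgHom.mem_fieldRange, IntermediateField.mem_fixedField_iff]
    constructor
    · rintro ⟨y, rfl⟩ g hg
      exact hg y
    · intro hx
      have h1 : x ∈ Set.range (algebraMap K L) := by
        rw [IsGalois.mem_range_algebraMap_iff_fixed]
        intro f
        exact hx (f.restrictScalars k) fun y => f.commutes y
      obtain ⟨y, hy⟩ := h1
      exact ⟨y, hy⟩
  let ψ : K ≃ₐ[k] fixedField (fixg k L K) :=
    (AlgEquiv.ofInjectiveField φ).trans (IntermediateField.equivOfEq hfr)
  have hψ : ∀ x : K, ((ψ x : fixedField (fixg k L K)) : L) = algebraMap K L x := fun x => rfl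
  obtain ⟨W, e, I, hW, hcard, hI⟩ := exists_inertia (k := k) (L := L) (G := fixg k L K)
    (pullPl ψ.symm P)
  have hWP : Over W P e := by
    refine ⟨hW.1, fun x => ?_⟩
    have h1 := hW.2 (ψ x)
    change W.ord ((ψ x : fixedField (fixg k L K)) : L) = e * P.ord (ψ.symm (ψ x)) at h1
    rw [hψ, AlgEquiv.symm_apply_apply] at h1
    exact h1
  have hr0 : ∀ l, r l ≠ 0 := by
    intro l h1
    have h2 := hr l
    rw [h1, zero_pow hd.ne'] at h2
    exact h0 l ((map_eq_zero _).1 h2.symm)
  have htriv : ∀ g ∈ I, g = 1 := by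
    intro g hg
    have hfix : ∀ x : K, (g : L ≃ₐ[k] L) (algebraMap K L x) = algebraMap K L x := g.2
    have hgr : ∀ l, (g : L ≃ₐ[k] L) (r l) = r l := by
      intro l
      have h1 : ((g : L ≃ₐ[k] L) (r l) / r l) ^ d = 1 := by
        rw [div_pow, ← map_pow, hr, hfix, div_self]
        exact (map_ne_zero _).2 (h0 l)
      obtain ⟨ζ, hζ⟩ := root_of_unity (k := k) hd h1
      have h2 : (g : L ≃ₐ[k] L) (r l) = algebraMap k L ζ * r l := by
        rw [← hζ, div_mul_cancel₀ _ (hr0 l)]
      set u : L := r l / algebraMap K L (c l) with hu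
      have hcl : algebraMap K L (c l) ≠ 0 := (map_ne_zero _).2 (hc l).1
      have hu0 : u ≠ 0 := div_ne_zero (hr0 l) hcl
      have huo : W.ord u = 0 := by
        have h3 : (d : ℤ) * W.ord u = 0 := by
          have h4 : W.ord (u ^ d) = d * W.ord u := W.ord_pow _ _
          rw [← h4, hu, div_pow, hr, ← map_pow, ← map_div₀, hWP.2,
            P.ord_div (h0 l) (pow_ne_zero _ (hc l).1), P.ord_pow, (hc l).2, sub_self, mul_zero]
        have h4 : (d : ℤ) ≠ 0 := by exact_mod_cast hd.ne'
        exact (mul_eq_zero.1 h3).resolve_left h4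
      have h5 := hI g hg u (Or.inr huo.ge)
      have h6 : (g : L ≃ₐ[k] L) u - u = algebraMap k L (ζ - 1) * u := by
        rw [hu, map_div₀, h2, hfix, map_sub, map_one]
        ring
      rw [h6] at h5
      by_cases hζ1 : ζ - 1 = 0
      · rw [h2, sub_eq_zero.1 hζ1, map_one, one_mul]
      · exfalso
        have hζ2 : algebraMap k L (ζ - 1) ≠ 0 := (map_ne_zero _).2 hζ1
        rcases h5 with h5 | h5
        · exact mul_ne_zero hζ2 hu0 h5
        · rw [W.ord_mul hζ2 hu0, W.ord_const hζ1, huo] at h5
          omega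
    have h7 : ∀ x : L, (g : L ≃ₐ[k] L) x = x := by
      intro x
      have hx : x ∈ IntermediateField.adjoin K (Set.range r) := by rw [hgen]; trivial
      induction hx using IntermediateField.adjoin_induction with
      | mem x hx =>
        obtain ⟨l, rfl⟩ := hx
        exact hgr l
      | algebraMap x => exact hfix x
      | add x y _ _ hx hy => rw [map_add, hx, hy]
      | inv x _ hx => rw [map_inv₀, hx]
      | mul x y _ _ hx hy => rw [map_mul, hx, hy]
    apply Subtype.ext
    ext x
    exact h7 x
  have hI1 : Nat.card I = 1 := by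
    have h8 : I = ⊥ := by
      rw [eq_bot_iff]
      intro g hg
      rw [Subgroup.mem_bot]
      exact htriv g hg
    rw [h8, Subgroup.card_bot]
  rw [hI1] at hcard
  rw [← hcard] at hWP
  exact ⟨W, hWP⟩

end Pool.Agent.R869.Wd
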