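import Pool.Agent.R869.SDir
import Pool.Agent.R869.UCor

/-!
Additional variables.
-/

set_option autoImplicit false

open MvPolynomial

namespace Pool.Agent.R869.Wd

section

variable (n q : ℕ)

/-- the inclusion of the set of the first `n + 1` variables -/
def emb : Fin (n + 1) ↪ Fin (n + q + 1) :=
  ⟨fun j => ⟨j, by omega⟩, fun j j' h => by
    have := congrArg Fin.val h
    exact Fin.ext this⟩

/-- the additional variables -/
def bdv (l : Fin q) : Fin (n + q + 1) := ⟨n + 1 + l, by omega⟩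

theorem emb_val (j : Fin (n + 1)) : (emb n q j : ℕ) = j := rfl

theorem emb_ne_bdv (j : Fin (n + 1)) (l : Fin q) : emb n q j ≠ bdv n q l := by
  intro h
  have h1 := congrArg Fin.val h
  have h2 : (j : ℕ) = n + 1 + l := h1
  have := j.isLt
  omega

theorem bdv_inj {l l' : Fin q} (h : bdv n q l = bdv n q l') : l = l' := by
  have h1 := congrArg Fin.val h
  have h2 : n + 1 + (l : ℕ) = n + 1 + l' := h1
  exact Fin.ext (by omega)

theorem var_cases (x : Fin (n + q + 1)) : (∃ j, x = emb n q j) ∨ ∃ l, x = bdv n q l := by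
  by_cases h : (x : ℕ) < n + 1
  · exact Or.inl ⟨⟨x, h⟩, Fin.ext rfl⟩
  · refine Or.inr ⟨⟨x - (n + 1), by have := x.isLt; omega⟩, Fin.ext ?_⟩
    change (x : ℕ) = n + 1 + (x - (n + 1))
    omega

end

variable {n s q : ℕ}

/-- the sets of variables -/
def liftI (q : ℕ) (I : Fin s → Finset (Fin (n + 1))) : Fin s → Finset (Fin (n + q + 1)) :=
  fun i => (I i).map (emb n q)

/-- the exponent vectors -/
noncomputable def liftA (q : ℕ) (a : Fin s → (Fin (n + 1) →₀ ℕ)) :
    Fin s → (Fin (n + q + 1) →₀ ℕ) := fun i => (a i).embDomain (emb n q)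

theorem sum_embDomain (α : Fin (n + 1) →₀ ℕ) :
    ∑ x, (α.embDomain (emb n q)) x = ∑ j, α j := by
  classical
  have h1 : ∑ x ∈ Finset.univ.map (emb n q), (α.embDomain (emb n q)) x =
      ∑ x, (α.embDomain (emb n q)) x := by
    refine Finset.sum_subset (Finset.subset_univ _) fun x _ hx => ?_
    refine Finsupp.embDomain_notin_range _ _ _ fun ⟨j, hj⟩ => hx ?_
    exact Finset.mem_map.2 ⟨j, Finset.mem_univ _, hj⟩
  rw [← h1, Finset.sum_map]
  exact Finset.sum_congr rfl fun j _ => Finsupp.embDomain_apply_self _ _ _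

theorem liftA_mem {I : Fin s → Finset (Fin (n + 1))} {d : ℕ} {a : Fin s → (Fin (n + 1) →₀ ℕ)} :
    liftA q a ∈ TuplesIn (liftI q I) d ↔ a ∈ TuplesIn I d := by
  refine forall_congr' fun i => ?_
  unfold liftA liftI
  rw [Finsupp.support_embDomain, Finset.map_subset_map, sum_embDomain]

theorem liftA_injective : Function.Injective (liftA (n := n) (s := s) q) := by
  intro a a' h
  funext i
  exact Finsupp.embDomain_injective (emb n q) (congrFun h i)

theorem liftA_surj {I : Fin s → Finset (Fin (n + 1))} {d : ℕ}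
    {a' : Fin s → (Fin (n + q + 1) →₀ ℕ)} (h : a' ∈ TuplesIn (liftI q I) d) :
    ∃ a, liftA q a = a' := by
  classical
  refine ⟨fun i => (a' i).comapDomain (emb n q) (emb n q).injective.injOn, ?_⟩
  funext i
  ext x
  unfold liftA
  rcases var_cases n q x with ⟨j, rfl⟩ | ⟨l, rfl⟩
  · rw [Finsupp.embDomain_apply_self, Finsupp.comapDomain_apply]
  · rw [Finsupp.embDomain_notin_range _ _ _ fun ⟨j, hj⟩ => emb_ne_bdv n q j l hj]
    by_contra hne
    have h1 := (h i).1 (Finsupp.mem_support_iff.2 (Ne.symm hne))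
    obtain ⟨j, -, hj⟩ := Finset.mem_map.1 h1
    exact emb_ne_bdv n q j l hj

/-- almost all tuples, with additional variables -/
theorem almost_lift {I : Fin s → Finset (Fin (n + 1))}
    {P : ℕ → (Fin s → (Fin (n + q + 1) →₀ ℕ)) → Prop} (h : AlmostAllIn (liftI q I) P) :
    AlmostAllIn I fun d a => P d (liftA q a) := by
  classical
  have h1 : ∀ d, (TuplesIn (liftI q I) d).ncard = (TuplesIn I d).ncard := by
    intro d
    rw [← Set.ncard_image_of_injective (TuplesIn I d) (liftA_injective (n := n) (s := s) (q := q))]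
    congr 1
    ext a'
    constructor
    · intro ha
      obtain ⟨a, rfl⟩ := liftA_surj ha
      exact ⟨a, liftA_mem.1 ha, rfl⟩
    · rintro ⟨a, ha, rfl⟩
      exact liftA_mem.2 ha
  have h2 : ∀ d, {a' | a' ∈ TuplesIn (liftI q I) d ∧ P d a'}.ncard =
      {a | a ∈ TuplesIn I d ∧ P d (liftA q a)}.ncard := by
    intro d
    rw [← Set.ncard_image_of_injective {a | a ∈ TuplesIn I d ∧ P d (liftA q a)}
      (liftA_injective (n := n) (s := s) (q := q))]
    congr 1
    ext a'
    constructor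
    · rintro ⟨ha, hP⟩
      obtain ⟨a, rfl⟩ := liftA_surj ha
      exact ⟨a, ⟨liftA_mem.1 ha, hP⟩, rfl⟩
    · rintro ⟨a, ⟨ha, hP⟩, rfl⟩
      exact ⟨liftA_mem.2 ha, hP⟩
  unfold AlmostAllIn at h ⊢
  refine h.congr fun d => ?_
  rw [h1, h2]

theorem liftI_nonempty {I : Fin s → Finset (Fin (n + 1))} (hI : ∀ i, (I i).Nonempty) (i : Fin s) :
    (liftI q I i).Nonempty := (hI i).map

/-- the exponents of the forms -/
theorem support_lift {R : Type} [CommRing R] {d : ℕ} {a : Fin s → (Fin (n + 1) →₀ ℕ)}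
    {G : MvPolynomial (Fin (n + 1)) R} (hG : G.support ⊆ withPowers d a) :
    (rename (emb n q) G).support ⊆ withPowers d (liftA q a) := by
  classical
  rw [support_rename_of_injective (emb n q).injective]
  intro α hα
  obtain ⟨β, hβ, rfl⟩ := Finset.mem_image.1 hα
  have h1 := hG hβ
  unfold withPowers at h1 ⊢
  rw [Finset.mem_union, Finset.mem_image, Finset.mem_image] at h1 ⊢
  rcases h1 with ⟨i, -, rfl⟩ | ⟨j, -, rfl⟩
  · exact Or.inl ⟨i, Finset.mem_univ _, Finsupp.embDomain_eq_mapDomain _ _⟩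
  · exact Or.inr ⟨emb n q j, Finset.mem_univ _, (Finsupp.mapDomain_single).symm⟩

end Pool.Agent.R869.Wd
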