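import Pool.Agent.R869.USharpDefs

/-!
The combinatorial criterion for the existence of entire curves in complements: definitions.
-/

set_option autoImplicit false

namespace Pool.Agent.R869.Wd

open MvPolynomial

open Classical in
/-- `H` has a monomial in the variables `x_j`, `j ∈ J`, and there is a colouring `c` of the variables,
with `V ≥ 2` colours on `J`, such that `N + D + 3 ≤ 2 V`, where `N` is the number of the monomials of
`H` in the variables from `J` whose variables have different colours, and `D` is the number of the
colours on `J` for which exactly one monomial of `H` in the variables from `J` has all its variables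
of this colour. -/
def LooseOff {R : Type} [CommSemiring R] {n : ℕ} (H : MvPolynomial (Fin (n + 1)) R)
    (J : Finset (Fin (n + 1))) : Prop :=
  (monIn H J).Nonempty ∧ ∃ c : Fin (n + 1) → ℤ, (∃ j ∈ J, ∃ j' ∈ J, c j ≠ c j') ∧
    ((monIn H J).filter fun α => ¬ ∀ j ∈ α.support, ∀ j' ∈ α.support, c j = c j').card +
      ((J.image c).filter fun v =>
        ((monIn H J).filter fun α => ∀ j ∈ α.support, c j = v).card = 1).card + 3 ≤
      2 * (J.image c).card

end Pool.Agent.R869.Wd
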